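import Pool.Agent.Sgs.Avg

/-!
# Existence of spectral measures, ergodic decomposition, correspondence
-/

set_option autoImplicit false

namespace Pool.Agent.Sgs

open MeasureTheory Filter Finset ProbabilityTheory
open scoped Topology ENNReal

/-! ## module H1: existence of the spectral measure (Herglotz) -/

private theorem H1_four (n : ℤ) : ∫ t : Cir, fourier n t = if n = 0 then (1 : ℂ) else 0 := by
  rcases eq_or_ne n 0 with hn | hn
  · rw [if_pos hn, hn]
    simp only [fourier_zero, integral_const, measureReal_def, AddCircle.measure_univ]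
    simp
  · rw [if_neg hn]
    have h1 : ∫ t : Cir, fourier n (t + ((1 / 2 / (n : ℝ) : ℝ) : Cir)) = ∫ t : Cir, fourier n t :=
      integral_add_right_eq_self (fun t : Cir => fourier n t) _
    have h2 : ∫ t : Cir, fourier n (t + ((1 / 2 / (n : ℝ) : ℝ) : Cir)) =
        - ∫ t : Cir, fourier n t := by
      rw [← integral_neg]
      refine integral_congr_ae (Eventually.of_forall fun t => ?_)
      exact fourier_add_half_inv_index hn one_pos t
    rw [h1] at h2
    obtain ⟨I, hI⟩ : ∃ I : ℂ, I = ∫ t : Cir, fourier n t := ⟨_, rfl⟩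
    rw [← hI] at h2 ⊢
    have h3 : (2 : ℂ) * I = 0 := by linear_combination h2
    simpa using h3

/-- the correlation sequence -/
private noncomputable def H1_c {X : Type} [MeasurableSpace X] (μ : Measure X) (τ : ℤ → X → X)
    (f : X → ℂ) (n : ℤ) : ℂ := ∫ x, f (τ n x) * (starRingEnd ℂ) (f x) ∂μ

private theorem H1_shift {X : Type} [MeasurableSpace X] {μ : Measure X}
    {τ : ℤ → X → X} (hτ : Sys μ τ) {f : X → ℂ} (hf : Bd f) (a b : ℤ) :
    ∫ x, f (τ a x) * (starRingEnd ℂ) (f (τ b x)) ∂μ = H1_c μ τ f (a - b) := by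
  have hm : Measurable fun x => f (τ (a - b) x) * (starRingEnd ℂ) (f x) :=
    (hf.1.comp (hτ.mp (a - b)).measurable).mul (Complex.continuous_conj.measurable.comp hf.1)
  have h1 : ∫ y, f (τ (a - b) y) * (starRingEnd ℂ) (f y) ∂(Measure.map (τ b) μ) =
      ∫ x, f (τ (a - b) (τ b x)) * (starRingEnd ℂ) (f (τ b x)) ∂μ :=
    integral_map (hτ.mp b).measurable.aemeasurable hm.aestronglyMeasurable
  rw [(hτ.mp b).map_eq] at h1
  unfold H1_c
  rw [h1]
  refine integral_congr_ae (Eventually.of_forall fun x => ?_)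
  simp only
  rw [← hτ.add, sub_add_cancel]

private theorem H1_pos {X : Type} [MeasurableSpace X] {μ : Measure X} [IsProbabilityMeasure μ]
    {τ : ℤ → X → X} (hτ : Sys μ τ) {f : X → ℂ} (hf : Bd f) (N : ℕ) (u : ℕ → ℂ) :
    ∑ a ∈ range N, ∑ b ∈ range N, u a * (starRingEnd ℂ) (u b) * H1_c μ τ f ((a : ℤ) - b) =
      ((∫ x, ‖∑ a ∈ range N, u a * f (τ a x)‖ ^ 2 ∂μ : ℝ) : ℂ) := by
  obtain ⟨C, hC⟩ := hf.2
  have hi : ∀ a b : ℕ, Integrable (fun x => u a * (starRingEnd ℂ) (u b) *
      (f (τ a x) * (starRingEnd ℂ) (f (τ b x)))) μ := by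
    intro a b
    refine Integrable.const_mul ?_ _
    refine Integrable.of_bound (((hf.1.comp (hτ.mp a).measurable).mul
      (Complex.continuous_conj.measurable.comp
        (hf.1.comp (hτ.mp b).measurable))).aestronglyMeasurable) (C * C)
      (Eventually.of_forall fun x => ?_)
    rw [norm_mul, RCLike.norm_conj]
    exact mul_le_mul (hC _) (hC _) (norm_nonneg _) ((norm_nonneg _).trans (hC (τ a x)))
  have h1 : ∀ a b : ℕ, u a * (starRingEnd ℂ) (u b) * H1_c μ τ f ((a : ℤ) - b) =
      ∫ x, u a * (starRingEnd ℂ) (u b) * (f (τ a x) * (starRingEnd ℂ) (f (τ b x))) ∂μ := by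
    intro a b
    rw [integral_const_mul, H1_shift hτ hf]
  simp only [h1]
  have h2 : ∀ a ∈ range N, ∑ b ∈ range N,
      ∫ x, u a * (starRingEnd ℂ) (u b) * (f (τ a x) * (starRingEnd ℂ) (f (τ b x))) ∂μ =
      ∫ x, ∑ b ∈ range N, u a * (starRingEnd ℂ) (u b) *
        (f (τ a x) * (starRingEnd ℂ) (f (τ b x))) ∂μ := by
    intro a _
    rw [integral_finsetSum _ fun b _ => hi a b]
  rw [Finset.sum_congr rfl h2, ← integral_finsetSum _ fun a _ =>
    integrable_finsetSum _ fun b _ => hi a b, ← integral_complex_ofReal]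
  refine integral_congr_ae (Eventually.of_forall fun x => ?_)
  simp only
  rw [← Complex.normSq_eq_norm_sq, Complex.normSq_eq_conj_mul_self, map_sum, mul_comm,
    Finset.sum_mul_sum]
  refine Finset.sum_congr rfl fun a _ => Finset.sum_congr rfl fun b _ => ?_
  rw [map_mul]
  ring

/-- the number of pairs with difference `n` -/
private theorem H1_count (n : ℤ) (N : ℕ) :
    |(∑ a ∈ range N, ∑ b ∈ range N, (if n - ((a : ℤ) - b) = 0 then (1 : ℝ) else 0)) - N| ≤
      2 * n.natAbs := by
  have h1 : ∀ b ∈ range N, |(∑ a ∈ range N, (if n - ((a : ℤ) - b) = 0 then (1 : ℝ) else 0)) - 1|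
      ≤ if b < n.natAbs ∨ N < b + n.natAbs + 1 then 1 else 0 := by
    intro b hb
    rw [Finset.mem_range] at hb
    by_cases h2 : 0 ≤ n + b ∧ n + b < N
    · have e : ∑ a ∈ range N, (if n - ((a : ℤ) - b) = 0 then (1 : ℝ) else 0) = 1 := by
        rw [Finset.sum_eq_single (n + b).toNat]
        · rw [if_pos]
          rw [Int.toNat_of_nonneg h2.1]
          ring
        · intro a _ ha
          rw [if_neg]
          intro h3
          apply ha
          omega
        · intro h3
          exfalso
          apply h3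
          rw [Finset.mem_range]
          omega
      rw [e, sub_self, abs_zero]
      split_ifs <;> norm_num
    · have e : ∑ a ∈ range N, (if n - ((a : ℤ) - b) = 0 then (1 : ℝ) else 0) = 0 := by
        refine Finset.sum_eq_zero fun a ha => ?_
        rw [Finset.mem_range] at ha
        rw [if_neg]
        intro h3
        apply h2
        omega
      rw [e, if_pos (by omega)]
      norm_num
  rw [Finset.sum_comm]
  have h2 : (∑ b ∈ range N, ∑ a ∈ range N, (if n - ((a : ℤ) - b) = 0 then (1 : ℝ) else 0)) - N =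
      ∑ b ∈ range N, ((∑ a ∈ range N, (if n - ((a : ℤ) - b) = 0 then (1 : ℝ) else 0)) - 1) := by
    rw [Finset.sum_sub_distrib]
    simp
  rw [h2]
  refine (Finset.abs_sum_le_sum_abs _ _).trans ((Finset.sum_le_sum h1).trans ?_)
  rw [Finset.sum_ite, Finset.sum_const_zero, add_zero, Finset.sum_const, nsmul_eq_mul, mul_one]
  have h3 : (range N).filter (fun b => b < n.natAbs ∨ N < b + n.natAbs + 1) ⊆
      range n.natAbs ∪ Ico (N - n.natAbs) N := by
    intro b hb
    rw [Finset.mem_filter, Finset.mem_range] at hb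
    rw [Finset.mem_union, Finset.mem_range, Finset.mem_Ico]
    omega
  have h4 := (Finset.card_le_card h3).trans (Finset.card_union_le _ _)
  rw [Finset.card_range, Nat.card_Ico] at h4
  have h5 : ((range N).filter (fun b => b < n.natAbs ∨ N < b + n.natAbs + 1)).card ≤
      2 * n.natAbs := by omega
  exact_mod_cast h5

/-- the density -/
private noncomputable def H1_q {X : Type} [MeasurableSpace X] (μ : Measure X) (τ : ℤ → X → X)
    (f : X → ℂ) (N : ℕ) (t : Cir) : ℝ :=
  (∑ a ∈ range N, ∑ b ∈ range N, fourier (-(a : ℤ)) t * (starRingEnd ℂ) (fourier (-(b : ℤ)) t) *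
    H1_c μ τ f ((a : ℤ) - b)).re / N

private theorem H1_q_eq {X : Type} [MeasurableSpace X] {μ : Measure X} [IsProbabilityMeasure μ]
    {τ : ℤ → X → X} (hτ : Sys μ τ) {f : X → ℂ} (hf : Bd f) (N : ℕ) (t : Cir) :
    0 ≤ H1_q μ τ f N t ∧ ((H1_q μ τ f N t : ℝ) : ℂ) =
      (∑ a ∈ range N, ∑ b ∈ range N, fourier (-((a : ℤ) - b)) t *
        H1_c μ τ f ((a : ℤ) - b)) / N := by
  have h1 := H1_pos hτ hf N (fun a => fourier (-(a : ℤ)) t)
  unfold H1_q
  rw [h1, Complex.ofReal_re]
  constructor
  · positivity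
  · rw [Complex.ofReal_div, ← h1, Complex.ofReal_natCast]
    congr 1
    refine Finset.sum_congr rfl fun a _ => Finset.sum_congr rfl fun b _ => ?_
    congr 1
    have e : -((a : ℤ) - b) = -(a : ℤ) + -(-(b : ℤ)) := by ring
    rw [e, fourier_add, ← fourier_neg]

private theorem H1_q_cont {X : Type} [MeasurableSpace X] (μ : Measure X)
    (τ : ℤ → X → X) (f : X → ℂ) (N : ℕ) : Continuous (H1_q μ τ f N) := by
  unfold H1_q
  refine Continuous.div_const (Complex.continuous_re.comp ?_) _
  refine continuous_finsetSum _ fun a _ => continuous_finsetSum _ fun b _ => ?_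
  exact (((fourier (-(a : ℤ))).continuous).mul
    (Complex.continuous_conj.comp (fourier (-(b : ℤ))).continuous)).mul continuous_const

private theorem H1_q_four {X : Type} [MeasurableSpace X] {μ : Measure X} [IsProbabilityMeasure μ]
    {τ : ℤ → X → X} (hτ : Sys μ τ) {f : X → ℂ} (hf : Bd f) (N : ℕ) (n : ℤ) :
    ∫ t : Cir, fourier n t * ((H1_q μ τ f N t : ℝ) : ℂ) =
      (((∑ a ∈ range N, ∑ b ∈ range N, (if n - ((a : ℤ) - b) = 0 then (1 : ℝ) else 0)) / N : ℝ) :
        ℂ) * H1_c μ τ f n := by
  have hi : ∀ a b : ℕ, Integrable (fun t : Cir => fourier n t * (fourier (-((a : ℤ) - b)) t *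
      H1_c μ τ f ((a : ℤ) - b))) (volume : Measure Cir) := by
    intro a b
    refine Continuous.integrable_of_hasCompactSupport ?_ (HasCompactSupport.of_compactSpace _)
    exact ((fourier n).continuous).mul (((fourier (-((a : ℤ) - b))).continuous).mul
      continuous_const)
  have h1 : ∀ t : Cir, fourier n t * ((H1_q μ τ f N t : ℝ) : ℂ) =
      (∑ a ∈ range N, ∑ b ∈ range N, fourier n t * (fourier (-((a : ℤ) - b)) t *
        H1_c μ τ f ((a : ℤ) - b))) / N := by
    intro t
    rw [(H1_q_eq hτ hf N t).2, mul_div_assoc', Finset.mul_sum]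
    congr 1
    refine Finset.sum_congr rfl fun a _ => ?_
    rw [Finset.mul_sum]
  simp only [h1]
  rw [integral_div, integral_finsetSum _ fun a _ => integrable_finsetSum _ fun b _ => hi a b]
  have h2 : ∀ a ∈ range N, ∫ t : Cir, ∑ b ∈ range N, fourier n t * (fourier (-((a : ℤ) - b)) t *
        H1_c μ τ f ((a : ℤ) - b)) =
      ∑ b ∈ range N, (if n - ((a : ℤ) - b) = 0 then (1 : ℂ) else 0) * H1_c μ τ f n := by
    intro a _
    rw [integral_finsetSum _ fun b _ => hi a b]
    refine Finset.sum_congr rfl fun b _ => ?_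
    have h3 : ∀ t : Cir, fourier n t * (fourier (-((a : ℤ) - b)) t *
        H1_c μ τ f ((a : ℤ) - b)) = fourier (n - ((a : ℤ) - b)) t * H1_c μ τ f ((a : ℤ) - b) := by
      intro t
      rw [sub_eq_add_neg n, fourier_add]
      ring
    simp only [h3]
    rw [integral_mul_const, H1_four]
    by_cases h4 : n - ((a : ℤ) - b) = 0
    · rw [if_pos h4, one_mul, one_mul]
      congr 1
      omega
    · rw [if_neg h4, zero_mul, zero_mul]
  rw [Finset.sum_congr rfl h2]
  simp only [← Finset.sum_mul]
  rw [mul_div_right_comm]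
  congr 1
  push_cast
  congr 1
  refine Finset.sum_congr rfl fun a _ => Finset.sum_congr rfl fun b _ => ?_
  split_ifs <;> simp

/-- Weak limit (`instCompactSpaceProbabilityMeasure`) of the measures with density
`(1/N) ∫ |∑_{m<N} e(-m t) f (τ m x)|² dμ(x)`, divided by `∫ |f|²` (if this is `0` take `σ = 0`). -/
theorem sp_exists {X : Type} [MeasurableSpace X] (μ : Measure X) [IsProbabilityMeasure μ] (τ : ℤ → X → X)
    (hτ : Sys μ τ) (f : X → ℂ) (hf : Bd f) : ∃ σ : Measure Cir, Sp μ τ f σ := by
  obtain ⟨C, hC⟩ := hf.2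
  obtain ⟨m0, hm0⟩ : ∃ m0 : ℝ, m0 = ∫ x, ‖f x‖ ^ 2 ∂μ := ⟨_, rfl⟩
  have hi2 : Integrable (fun x => ‖f x‖ ^ 2) μ := by
    refine Integrable.of_bound ((hf.1.norm.pow_const 2).aestronglyMeasurable) (C ^ 2)
      (Eventually.of_forall fun x => ?_)
    rw [norm_pow, norm_norm]
    exact pow_le_pow_left₀ (norm_nonneg _) (hC x) 2
  have hm00 : 0 ≤ m0 := by rw [hm0]; exact integral_nonneg fun x => by positivity
  have hc0 : H1_c μ τ f 0 = (m0 : ℂ) := by
    unfold H1_c
    rw [hm0, ← integral_complex_ofReal]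
    refine integral_congr_ae (Eventually.of_forall fun x => ?_)
    simp only
    rw [hτ.zero, ← Complex.normSq_eq_norm_sq, Complex.mul_conj]
  rcases hm00.eq_or_lt with h0 | h0
  · -- `f = 0` almost everywhere
    refine ⟨0, inferInstance, fun n => ?_⟩
    rw [integral_zero_measure]
    have h1 : (fun x => ‖f x‖ ^ 2) =ᵐ[μ] 0 := by
      rw [← integral_eq_zero_iff_of_nonneg (fun x => by positivity) hi2, ← hm0]
      exact h0.symm
    refine integral_eq_zero_of_ae ?_
    filter_upwards [h1] with x hx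
    have h2 : ‖f x‖ ^ 2 = 0 := hx
    have h3 : f x = 0 := by simpa using h2
    rw [h3]
    simp
  · -- the approximating measures
    have hqm : ∀ N, Measurable fun t : Cir => (H1_q μ τ f N t / m0).toNNReal := fun N =>
      ((H1_q_cont μ τ f N).measurable.div_const _).real_toNNReal
    obtain ⟨Q, hQ⟩ : ∃ Q : ℕ → Measure Cir, ∀ N, Q N = (volume : Measure Cir).withDensity
        (fun t => ((H1_q μ τ f N t / m0).toNNReal : ℝ≥0∞)) := ⟨_, fun _ => rfl⟩
    have hint : ∀ N n, ∫ t, fourier n t ∂(Q N) =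
        (m0 : ℂ)⁻¹ * ((((∑ a ∈ range N, ∑ b ∈ range N,
          (if n - ((a : ℤ) - b) = 0 then (1 : ℝ) else 0)) / N : ℝ) : ℂ) * H1_c μ τ f n) := by
      intro N n
      rw [hQ, integral_withDensity_eq_integral_smul (hqm N), ← H1_q_four hτ hf N n,
        ← integral_const_mul]
      refine integral_congr_ae (Eventually.of_forall fun t => ?_)
      simp only
      rw [NNReal.smul_def, Real.coe_toNNReal _ (div_nonneg (H1_q_eq hτ hf N t).1 h0.le)]
      rw [Complex.real_smul]
      push_cast
      ring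
    have hcountlim : ∀ n : ℤ, Tendsto (fun N : ℕ => (∑ a ∈ range N, ∑ b ∈ range N,
          (if n - ((a : ℤ) - b) = 0 then (1 : ℝ) else 0)) / N) atTop (𝓝 1) := by
      intro n
      have h1 : Tendsto (fun N : ℕ => (2 * (n.natAbs : ℝ)) / (N : ℝ)) atTop (𝓝 0) :=
        tendsto_const_nhds.div_atTop tendsto_natCast_atTop_atTop
      rw [tendsto_iff_norm_sub_tendsto_zero]
      refine squeeze_zero' (Eventually.of_forall fun N => norm_nonneg _) ?_ h1
      filter_upwards [eventually_ge_atTop 1] with N hN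
      have hN0 : (0 : ℝ) < N := by exact_mod_cast hN
      have e : (∑ a ∈ range N, ∑ b ∈ range N,
          (if n - ((a : ℤ) - b) = 0 then (1 : ℝ) else 0)) / N - 1 =
          ((∑ a ∈ range N, ∑ b ∈ range N,
          (if n - ((a : ℤ) - b) = 0 then (1 : ℝ) else 0)) - N) / N := by
        field_simp
      rw [e, norm_div, Real.norm_natCast, Real.norm_eq_abs]
      exact div_le_div_of_nonneg_right (H1_count n N) hN0.le
    have hprob : ∀ N, 1 ≤ N → IsProbabilityMeasure (Q N) := by
      intro N hN
      have hN0 : (N : ℝ) ≠ 0 := by positivity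
      have hfin : IsFiniteMeasure (Q N) := by
        rw [hQ]
        refine isFiniteMeasure_withDensity ?_
        have h1 : Integrable (fun t : Cir => H1_q μ τ f N t / m0) (volume : Measure Cir) :=
          Continuous.integrable_of_hasCompactSupport ((H1_q_cont μ τ f N).div_const _)
            (HasCompactSupport.of_compactSpace _)
        exact h1.lintegral_lt_top.ne
      have h1 := hint N 0
      simp only [fourier_zero, integral_const] at h1
      have h2 : (∑ a ∈ range N, ∑ b ∈ range N,
          (if (0 : ℤ) - ((a : ℤ) - b) = 0 then (1 : ℝ) else 0)) = N := by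
        have h3 : ∀ a ∈ range N, ∑ b ∈ range N,
            (if (0 : ℤ) - ((a : ℤ) - b) = 0 then (1 : ℝ) else 0) = 1 := by
          intro a ha
          rw [Finset.sum_eq_single a]
          · simp
          · intro b _ hb
            rw [if_neg]
            intro h4
            apply hb
            omega
          · intro h4
            exact absurd ha h4
        rw [Finset.sum_congr rfl h3]
        simp
      rw [h2, div_self hN0, hc0, Complex.ofReal_one, one_mul,
        inv_mul_cancel₀ (by exact_mod_cast h0.ne')] at h1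
      have h3 : (Q N).real Set.univ = 1 := by
        have := congrArg Complex.re h1
        simpa using this
      constructor
      rw [measureReal_def, ENNReal.toReal_eq_one_iff] at h3
      exact h3
    let P : ℕ → ProbabilityMeasure Cir := fun k => ⟨Q (k + 1), hprob (k + 1) (by omega)⟩
    obtain ⟨ν, _, hν⟩ := (isCompact_univ (X := ProbabilityMeasure Cir)).ultrafilter_le_nhds
      ((Ultrafilter.of (atTop : Filter ℕ)).map P) (by simp)
    obtain ⟨U, hU⟩ : ∃ U : Filter ℕ, U = (Ultrafilter.of (atTop : Filter ℕ) : Filter ℕ) :=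
      ⟨_, rfl⟩
    have hUle : U ≤ atTop := by rw [hU]; exact Ultrafilter.of_le _
    have hUne : U.NeBot := by rw [hU]; infer_instance
    have hlim : Tendsto P U (𝓝 ν) := by rw [hU]; exact hν
    have hcomp : ∀ (m : Measure Cir) [IsFiniteMeasure m] (g : C(Cir, ℂ)),
        ∫ t, g t ∂m = ((∫ t, (g t).re ∂m : ℝ) : ℂ) + ((∫ t, (g t).im ∂m : ℝ) : ℂ) * Complex.I := by
      intro m _ g
      have h1 : Integrable (fun t => g t) m :=
        Continuous.integrable_of_hasCompactSupport g.continuous
          (HasCompactSupport.of_compactSpace _)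
      exact (integral_re_add_im h1).symm
    have hlimg : ∀ g : C(Cir, ℂ), Tendsto (fun k => ∫ t, g t ∂(Q (k + 1))) U
        (𝓝 (∫ t, g t ∂(ν : Measure Cir))) := by
      intro g
      have h1 := (ProbabilityMeasure.tendsto_iff_forall_integral_tendsto.1 hlim)
        (BoundedContinuousFunction.mkOfCompact
          ⟨fun t => (g t).re, Complex.continuous_re.comp g.continuous⟩)
      have h2 := (ProbabilityMeasure.tendsto_iff_forall_integral_tendsto.1 hlim)
        (BoundedContinuousFunction.mkOfCompact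
          ⟨fun t => (g t).im, Complex.continuous_im.comp g.continuous⟩)
      rw [hcomp (ν : Measure Cir) g]
      have h3 := (((Complex.continuous_ofReal.tendsto _).comp h1).add
        (((Complex.continuous_ofReal.tendsto _).comp h2).mul_const Complex.I))
      refine h3.congr fun k => ?_
      have := hprob (k + 1) (by omega)
      rw [hcomp (Q (k + 1)) g]
      rfl
    have hnu : ∀ n : ℤ, ∫ t, fourier n t ∂(ν : Measure Cir) = (m0 : ℂ)⁻¹ * H1_c μ τ f n := by
      intro n
      refine tendsto_nhds_unique (hlimg (fourier n)) ?_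
      have h1 : Tendsto (fun k : ℕ => (∑ a ∈ range (k + 1), ∑ b ∈ range (k + 1),
          (if n - ((a : ℤ) - b) = 0 then (1 : ℝ) else 0)) / ((k + 1 : ℕ) : ℝ)) U (𝓝 1) :=
        ((hcountlim n).comp (tendsto_add_atTop_nat 1)).mono_left hUle
      have h2 := ((((Complex.continuous_ofReal.tendsto _).comp h1).mul_const
        (H1_c μ τ f n)).const_mul ((m0 : ℂ)⁻¹))
      rw [Complex.ofReal_one, one_mul] at h2
      refine h2.congr fun k => ?_
      rw [hint (k + 1) n]
      rfl
    refine ⟨ENNReal.ofReal m0 • (ν : Measure Cir), ?_, fun n => ?_⟩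
    · exact Measure.smul_finite _ ENNReal.ofReal_ne_top
    · rw [integral_smul_measure, hnu, ENNReal.toReal_ofReal h0.le, Complex.real_smul,
        ← mul_assoc, mul_inv_cancel₀ (by exact_mod_cast h0.ne'), one_mul]
      rfl

/-! ## module H2: a singular spectral measure passes to almost every component -/

private theorem H2_ci (m : Measure Cir) [IsFiniteMeasure m] (g : C(Cir, ℂ)) :
    Integrable (fun t => g t) m :=
  Continuous.integrable_of_hasCompactSupport g.continuous (HasCompactSupport.of_compactSpace _)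

/-- the integral is continuous in the uniform norm -/
private theorem H2_lim (m : Measure Cir) [IsFiniteMeasure m] {g : ℕ → C(Cir, ℂ)} {g0 : C(Cir, ℂ)}
    (h : Tendsto g atTop (𝓝 g0)) :
    Tendsto (fun k => ∫ t, g k t ∂m) atTop (𝓝 (∫ t, g0 t ∂m)) := by
  rw [tendsto_iff_norm_sub_tendsto_zero] at h ⊢
  have h1 := h.mul_const (m.real Set.univ)
  rw [zero_mul] at h1
  refine squeeze_zero (fun k => norm_nonneg _) (fun k => ?_) h1
  rw [← integral_sub (H2_ci m (g k)) (H2_ci m g0)]
  refine norm_integral_le_of_norm_le_const (Eventually.of_forall fun t => ?_)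
  exact (g k - g0).norm_coe_le_norm t

private theorem H2_dense (g : C(Cir, ℂ)) : ∃ P : ℕ → C(Cir, ℂ),
    (∀ k, P k ∈ Submodule.span ℂ (Set.range (@fourier (1 : ℝ)))) ∧ Tendsto P atTop (𝓝 g) := by
  have h1 : g ∈ (Submodule.span ℂ (Set.range (@fourier (1 : ℝ)))).topologicalClosure := by
    rw [span_fourier_closure_eq_top]
    trivial
  have h2 : g ∈ closure (Submodule.span ℂ (Set.range (@fourier (1 : ℝ))) : Set C(Cir, ℂ)) := h1
  exact mem_closure_iff_seq_limit.1 h2

/-- a finite measure on the circle is determined by its Fourier coefficients -/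
private theorem H2_uniq (a b : Measure Cir) [IsFiniteMeasure a] [IsFiniteMeasure b]
    (h : ∀ n : ℤ, ∫ t, fourier n t ∂a = ∫ t, fourier n t ∂b) : a = b := by
  have h1 : ∀ P ∈ Submodule.span ℂ (Set.range (@fourier (1 : ℝ))),
      ∫ t, P t ∂a = ∫ t, P t ∂b := by
    intro P hP
    induction hP using Submodule.span_induction with
    | mem x hx =>
      obtain ⟨n, rfl⟩ := hx
      exact h n
    | zero => simp
    | add x y _ _ hx hy =>
      simp only [ContinuousMap.add_apply]
      rw [integral_add (H2_ci a x) (H2_ci a y), integral_add (H2_ci b x) (H2_ci b y), hx, hy]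
    | smul c x _ hx =>
      simp only [ContinuousMap.smul_apply, smul_eq_mul]
      rw [integral_const_mul, integral_const_mul, hx]
  have h2 : ∀ g : C(Cir, ℂ), ∫ t, g t ∂a = ∫ t, g t ∂b := by
    intro g
    obtain ⟨P, hP, hlim⟩ := H2_dense g
    have h3 := H2_lim a hlim
    have h4 := H2_lim b hlim
    simp only [fun k => h1 (P k) (hP k)] at h3
    exact tendsto_nhds_unique h3 h4
  refine ext_of_forall_integral_eq_of_IsFiniteMeasure fun f => ?_
  have h3 := h2 ⟨fun t => ((f t : ℝ) : ℂ), Complex.continuous_ofReal.comp f.continuous⟩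
  simp only [ContinuousMap.coe_mk] at h3
  rw [integral_complex_ofReal, integral_complex_ofReal] at h3
  exact_mod_cast h3

theorem four_uniq (a b : Measure Cir) [IsFiniteMeasure a] [IsFiniteMeasure b]
    (h : ∀ n : ℤ, ∫ t, fourier n t ∂a = ∫ t, fourier n t ∂b) : a = b := H2_uniq a b h

private theorem H2_comp {X Y : Type} [MeasurableSpace X] [MeasurableSpace Y] {μ : Measure X}
    [IsFiniteMeasure μ] (K : Kernel X Y) [IsFiniteKernel K] {g : Y → ℂ} (hgm : Measurable g)
    (hg : Integrable g (K ∘ₘ μ)) :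
    ∫ y, g y ∂(K ∘ₘ μ) = ∫ x, ∫ y, g y ∂(K x) ∂μ := by
  have hms : MeasurePreserving (Prod.snd : X × Y → Y) (μ ⊗ₘ K) (K ∘ₘ μ) :=
    ⟨measurable_snd, Measure.snd_compProd μ K⟩
  have h1 : ∫ y, g y ∂(Measure.map Prod.snd (μ ⊗ₘ K)) = ∫ p, g p.2 ∂(μ ⊗ₘ K) :=
    integral_map measurable_snd.aemeasurable hgm.aestronglyMeasurable
  rw [hms.map_eq] at h1
  rw [h1, Measure.integral_compProd]
  exact (hms.integrable_comp hgm.aestronglyMeasurable).2 hg

private theorem H2_meas {X : Type} [MeasurableSpace X] (ρ : X → Measure Cir)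
    (hρ : ∀ x, IsFiniteMeasure (ρ x))
    (h : ∀ n : ℤ, Measurable fun x => ∫ t, fourier n t ∂(ρ x)) : Measurable ρ := by
  have h1 : ∀ P ∈ Submodule.span ℂ (Set.range (@fourier (1 : ℝ))),
      Measurable fun x => ∫ t, P t ∂(ρ x) := by
    intro P hP
    induction hP using Submodule.span_induction with
    | mem x hx =>
      obtain ⟨n, rfl⟩ := hx
      exact h n
    | zero => simp
    | add a b _ _ ha hb =>
      have e : (fun x => ∫ t, (a + b) t ∂(ρ x)) =
          fun x => (∫ t, a t ∂(ρ x)) + ∫ t, b t ∂(ρ x) := by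
        funext x
        simp only [ContinuousMap.add_apply]
        exact integral_add (H2_ci (ρ x) a) (H2_ci (ρ x) b)
      rw [e]
      exact ha.add hb
    | smul c a _ ha =>
      have e : (fun x => ∫ t, (c • a) t ∂(ρ x)) = fun x => c * ∫ t, a t ∂(ρ x) := by
        funext x
        simp only [ContinuousMap.smul_apply, smul_eq_mul]
        exact integral_const_mul _ _
      rw [e]
      exact ha.const_mul c
  have h2 : ∀ g : C(Cir, ℂ), Measurable fun x => ∫ t, g t ∂(ρ x) := by
    intro g
    obtain ⟨P, hP, hlim⟩ := H2_dense g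
    refine measurable_of_tendsto_metrizable (fun k => h1 (P k) (hP k)) ?_
    rw [tendsto_pi_nhds]
    intro x
    exact H2_lim (ρ x) hlim
  have h3 : ∀ F : Set Cir, IsClosed F → Measurable fun x => ρ x F := by
    intro F hF
    refine ENNReal.measurable_of_tendsto (f := fun n x => ∫⁻ t, (hF.apprSeq n t : ℝ≥0∞) ∂(ρ x))
      (fun n => ?_) ?_
    · have e : (fun x => ∫⁻ t, (hF.apprSeq n t : ℝ≥0∞) ∂(ρ x)) = fun x =>
          ENNReal.ofReal (∫ t, ((((hF.apprSeq n t : NNReal) : ℝ)) : ℂ) ∂(ρ x)).re := by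
        funext x
        rw [integral_complex_ofReal, Complex.ofReal_re,
          ← BoundedContinuousFunction.toReal_lintegral_coe_eq_integral]
        exact (ENNReal.ofReal_toReal
          (BoundedContinuousFunction.lintegral_lt_top_of_nnreal (ρ x) _).ne).symm
      rw [e]
      refine ENNReal.measurable_ofReal.comp (Complex.measurable_re.comp ?_)
      exact h2 ⟨fun t => ((((hF.apprSeq n t : NNReal) : ℝ)) : ℂ),
        Complex.continuous_ofReal.comp (NNReal.continuous_coe.comp (hF.apprSeq n).continuous)⟩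
    · rw [tendsto_pi_nhds]
      intro x
      exact HasOuterApproxClosed.tendsto_lintegral_apprSeq hF (ρ x)
  refine Measurable.measure_of_isPiSystem (S := {F : Set Cir | IsClosed F}) ?_
    isPiSystem_isClosed (fun F hF => h3 F hF) (h3 _ isClosed_univ)
  rw [← borel_eq_generateFrom_isClosed]
  exact BorelSpace.measurable_eq

/-- `σ` lives on a Lebesgue null set, so up to `2^(-n)` on a compact Lebesgue null set `K n`.  For `K` compact `1_(Kᶜ)`
is the limit of an increasing sequence of continuous functions `φ ≥ 0`; `∫ φ dσ_x` is a measurable function of `x`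
(trigonometric polynomials are dense in the continuous functions) with integral `∫ φ dσ`.  So
`∫ σ_x (Kᶜ) dμ(x) = σ (Kᶜ)`, and `inf_n σ_x ((K n)ᶜ) = 0` for almost all `x` (`σ_x` from `sp_exists`). -/
theorem sp_comp {X : Type} [MeasurableSpace X] (μ : Measure X) [IsProbabilityMeasure μ] (τ : ℤ → X → X)
    (hτ : Sys μ τ) (κ : X → Measure X) (hκ : Measurable κ) (hκp : ∀ x, IsProbabilityMeasure (κ x))
    (hκs : ∀ᵐ x ∂μ, Sys (κ x) τ) (hdec : ∀ B : Set X, MeasurableSet B → μ B = ∫⁻ x, κ x B ∂μ)
    (f : X → ℂ) (hf : Bd f) (σ : Measure Cir) (hσ : Sp μ τ f σ) (hs : σ ⟂ₘ (volume : Measure Cir)) :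
    ∀ᵐ x ∂μ, ∃ ρ : Measure Cir, Sp (κ x) τ f ρ ∧ ρ ⟂ₘ (volume : Measure Cir) := by
  classical
  obtain ⟨C, hC⟩ := hf.2
  obtain ⟨G, hGae, hGm, hG⟩ := hκs.exists_measurable_mem
  have hsx : ∀ x ∈ G, ∃ σ : Measure Cir, Sp (κ x) τ f σ := fun x hx =>
    have := hκp x
    sp_exists (κ x) τ (hG x hx) f hf
  obtain ⟨ρ, hρ⟩ : ∃ ρ : X → Measure Cir, ∀ x, (x ∈ G → Sp (κ x) τ f (ρ x)) ∧
      (x ∉ G → ρ x = 0) := by
    choose! r hr using hsx
    refine ⟨fun x => if x ∈ G then r x else 0, fun x => ⟨fun hx => ?_, fun hx => ?_⟩⟩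
    · simp only [if_pos hx]
      exact hr x hx
    · simp only [if_neg hx]
  have hfin : ∀ x, IsFiniteMeasure (ρ x) := by
    intro x
    by_cases hx : x ∈ G
    · exact ((hρ x).1 hx).1
    · rw [(hρ x).2 hx]
      infer_instance
  let K : Kernel X X := ⟨κ, hκ⟩
  obtain ⟨F, hF⟩ : ∃ F : ℤ → X → ℂ, ∀ n y, F n y = f (τ n y) * (starRingEnd ℂ) (f y) :=
    ⟨_, fun _ _ => rfl⟩
  have hFm : ∀ n, Measurable (F n) := by
    intro n
    have e : F n = fun y => f (τ n y) * (starRingEnd ℂ) (f y) := funext (hF n)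
    rw [e]
    exact (hf.1.comp (hτ.mp n).measurable).mul (Complex.continuous_conj.measurable.comp hf.1)
  have hFb : ∀ n y, ‖F n y‖ ≤ C * C := by
    intro n y
    rw [hF, norm_mul, RCLike.norm_conj]
    exact mul_le_mul (hC _) (hC _) (norm_nonneg _) ((norm_nonneg _).trans (hC y))
  have hcoef : ∀ n : ℤ, (fun x => ∫ t, fourier n t ∂(ρ x)) =
      G.indicator (fun x => ∫ y, F n y ∂(K x)) := by
    intro n
    funext x
    by_cases hx : x ∈ G
    · rw [Set.indicator_of_mem hx, ← ((hρ x).1 hx).2 n]
      refine integral_congr_ae (Eventually.of_forall fun y => ?_)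
      exact (hF n y).symm
    · rw [Set.indicator_of_notMem hx, (hρ x).2 hx, integral_zero_measure]
  have hIm : ∀ n : ℤ, Measurable fun x => ∫ y, F n y ∂(K x) := fun n =>
    (hFm n).stronglyMeasurable.integral_kernel.measurable
  have hρm : Measurable ρ := by
    refine H2_meas ρ hfin fun n => ?_
    rw [hcoef n]
    exact (hIm n).indicator hGm
  -- masses
  have hmass : ∀ x, ρ x Set.univ ≤ ENNReal.ofReal (C * C) := by
    intro x
    by_cases hx : x ∈ G
    · have h1 := congrFun (hcoef 0) x
      simp only [fourier_zero, integral_const, Set.indicator_of_mem hx] at h1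
      have h2 : (ρ x).real Set.univ ≤ C * C := by
        have h3 : ‖((ρ x).real Set.univ • (1 : ℂ))‖ ≤ C * C := by
          rw [h1]
          have := hκp x
          have h4 : ‖∫ y, F 0 y ∂(K x)‖ ≤ (C * C) * (κ x).real Set.univ :=
            norm_integral_le_of_norm_le_const (μ := κ x) (Eventually.of_forall fun y => hFb 0 y)
          rwa [probReal_univ, mul_one] at h4
        rw [norm_smul, norm_one, mul_one, Real.norm_eq_abs,
          abs_of_nonneg measureReal_nonneg] at h3
        exact h3
      rw [← ENNReal.ofReal_toReal (measure_ne_top (ρ x) Set.univ)]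
      exact ENNReal.ofReal_le_ofReal h2
    · rw [(hρ x).2 hx]
      simp
  -- the mixture
  let R : Kernel X Cir := ⟨ρ, hρm⟩
  have hRfin : IsFiniteKernel R := ⟨ENNReal.ofReal (C * C), ENNReal.ofReal_lt_top, hmass⟩
  have hKm : IsMarkovKernel K := ⟨hκp⟩
  have hmuK : K ∘ₘ μ = μ := by
    ext B hB
    rw [Measure.bind_apply hB K.aemeasurable, hdec B hB]
    rfl
  have hθfin : IsFiniteMeasure (R ∘ₘ μ) := inferInstance
  have hθ : R ∘ₘ μ = σ := by
    have := hσ.1
    refine H2_uniq _ _ fun n => ?_
    have e1 : ∫ t, fourier n t ∂(R ∘ₘ μ) = ∫ x, ∫ t, fourier n t ∂(R x) ∂μ :=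
      H2_comp R (fourier n).continuous.measurable (H2_ci _ (fourier n))
    have e2 : ∫ y, F n y ∂(K ∘ₘ μ) = ∫ x, ∫ y, F n y ∂(K x) ∂μ := by
      refine H2_comp K (hFm n) ?_
      rw [hmuK]
      exact Integrable.of_bound (hFm n).aestronglyMeasurable (C * C)
        (Eventually.of_forall fun y => hFb n y)
    rw [e1, ← hσ.2 n]
    have e3 : ∫ y, f (τ n y) * (starRingEnd ℂ) (f y) ∂μ = ∫ y, F n y ∂(K ∘ₘ μ) := by
      rw [hmuK]
      refine integral_congr_ae (Eventually.of_forall fun y => ?_)
      exact (hF n y).symm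
    rw [e3, e2]
    refine integral_congr_ae ?_
    filter_upwards [hGae] with x hx
    have h1 := congrFun (hcoef n) x
    rw [Set.indicator_of_mem hx] at h1
    exact h1
  obtain ⟨S, hSm, hS1, hS2⟩ := hs
  rw [← hθ, Measure.bind_apply hSm R.aemeasurable,
    lintegral_eq_zero_iff (R.measurable_coe hSm)] at hS1
  filter_upwards [hS1, hGae] with x hx1 hx2
  exact ⟨ρ x, (hρ x).1 hx2, S, hSm, hx1, hS2⟩

/-! ## ergodic decomposition: `κ x = condExpKernel μ (MeasurableSpace.invariants T) x` -/

section erg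

variable {X : Type} [MeasurableSpace X] [StandardBorelSpace X] [Nonempty X] (μ : Measure X) [IsProbabilityMeasure μ]
  (T : X ≃ᵐ X) (hT : MeasurePreserving T μ μ)

/-- the components -/
noncomputable def cmp : X → Measure X := fun x => condExpKernel μ (MeasurableSpace.invariants T) x

/-- module E0 -/
theorem cmp_meas : Measurable (cmp μ T) :=
  (condExpKernel μ (MeasurableSpace.invariants T)).measurable.mono
    (MeasurableSpace.invariants_le T) le_rfl

/-- module E0 -/
theorem cmp_prob (x : X) : IsProbabilityMeasure (cmp μ T x) := by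
  unfold cmp
  infer_instance

/-- module E0 (`condExpKernel_comp_trim`, or integrate `condExp`) -/
theorem cmp_dec (B : Set X) (hB : MeasurableSet B) : μ B = ∫⁻ x, cmp μ T x B ∂μ := by
  have h1 := condExpKernel_comp_trim (μ := μ) (MeasurableSpace.invariants_le T)
  calc μ B = (condExpKernel μ (MeasurableSpace.invariants T) ∘ₘ
        μ.trim (MeasurableSpace.invariants_le T)) B := by rw [h1]
    _ = ∫⁻ x, condExpKernel μ (MeasurableSpace.invariants T) x B
        ∂(μ.trim (MeasurableSpace.invariants_le T)) :=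
        Measure.bind_apply hB (condExpKernel μ (MeasurableSpace.invariants T)).aemeasurable
    _ = ∫⁻ x, cmp μ T x B ∂μ :=
        lintegral_trim _ (measurable_condExpKernel hB)

private theorem E1_alg : ∃ 𝒜 : Set (Set X), 𝒜.Countable ∧ IsPiSystem 𝒜 ∧
    (∀ s ∈ 𝒜, MeasurableSet s) ∧
    (inferInstance : MeasurableSpace X) = MeasurableSpace.generateFrom 𝒜 := by
  refine ⟨generateSetAlgebra (MeasurableSpace.countableGeneratingSet X),
    countable_generateSetAlgebra (MeasurableSpace.countable_countableGeneratingSet), ?_, ?_, ?_⟩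
  · intro s hs t ht _
    exact isSetAlgebra_generateSetAlgebra.inter_mem hs ht
  · intro s hs
    rw [← MeasurableSpace.generateFrom_countableGeneratingSet (α := X),
      ← generateFrom_generateSetAlgebra_eq]
    exact MeasurableSpace.measurableSet_generateFrom hs
  · rw [generateFrom_generateSetAlgebra_eq, MeasurableSpace.generateFrom_countableGeneratingSet]

include hT in
private theorem E1_one {C : Set X} (hC : MeasurableSet C) :
    ∀ᵐ x ∂μ, cmp μ T x (T ⁻¹' C) = cmp μ T x C := by
  have hm := MeasurableSpace.invariants_le (T : X → X)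
  have hTC : MeasurableSet (T ⁻¹' C) := T.measurable hC
  have h1 := condExpKernel_ae_eq_condExp (μ := μ) hm hC
  have h2 := condExpKernel_ae_eq_condExp (μ := μ) hm hTC
  have h3 : μ⟦C | MeasurableSpace.invariants (T : X → X)⟧ =ᵐ[μ]
      μ⟦T ⁻¹' C | MeasurableSpace.invariants (T : X → X)⟧ := by
    refine ae_eq_condExp_of_forall_setIntegral_eq hm ?_ ?_ ?_ ?_
    · exact (integrable_const (1 : ℝ)).indicator hTC
    · intro s _ _
      exact integrable_condExp.integrableOn
    · intro s hs _
      have hs' := MeasurableSpace.measurableSet_invariants.1 hs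
      rw [setIntegral_condExp hm ((integrable_const (1 : ℝ)).indicator hC) hs,
        setIntegral_indicator hC, setIntegral_indicator hTC, setIntegral_const,
        setIntegral_const]
      congr 1
      have e : s ∩ T ⁻¹' C = T ⁻¹' (s ∩ C) := by
        rw [Set.preimage_inter, hs'.2]
      rw [e, measureReal_def, measureReal_def, hT.measure_preimage
        (hs'.1.inter hC).nullMeasurableSet]
    · exact stronglyMeasurable_condExp.aestronglyMeasurable
  filter_upwards [h1, h2, h3] with x a1 a2 a3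
  have h4 : (condExpKernel μ (MeasurableSpace.invariants T) x).real (T ⁻¹' C) =
      (condExpKernel μ (MeasurableSpace.invariants T) x).real C := by
    rw [a1, a2, a3]
  have := cmp_prob μ T x
  exact (measureReal_eq_measureReal_iff (μ := cmp μ T x) (ν := cmp μ T x)
    (measure_ne_top _ _) (measure_ne_top _ _)).1 h4

include hT in
/-- module E1.  Invariance on a countable generating pi-system, `E[1_B ∘ T | m] = E[1_B | m]`. -/
theorem cmp_inv : ∀ᵐ x ∂μ, MeasurePreserving T (cmp μ T x) (cmp μ T x) := by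
  obtain ⟨𝒜, hc, hpi, hms, hgen⟩ := E1_alg (X := X)
  have h1 : ∀ᵐ x ∂μ, ∀ C ∈ 𝒜, cmp μ T x (T ⁻¹' C) = cmp μ T x C :=
    (ae_ball_iff hc).2 fun C hC => E1_one μ T hT (hms C hC)
  filter_upwards [h1] with x hx
  have := cmp_prob μ T x
  refine ⟨T.measurable, ?_⟩
  have hmp : IsFiniteMeasure (Measure.map T (cmp μ T x)) := inferInstance
  refine ext_of_generate_finite 𝒜 hgen hpi (fun s hs => ?_) ?_
  · rw [Measure.map_apply T.measurable (hms s hs)]
    exact hx s hs
  · rw [Measure.map_apply T.measurable MeasurableSet.univ, Set.preimage_univ]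

/-- module E2.  Functions which are measurable for the invariant sets are constant on the components:
`∫ (φ y - φ x)² dκ_x(y) = E[φ²|m] - 2 φ E[φ|m] + φ² = 0`. -/
theorem cmp_const (φ : X → ℝ) (hφ : Measurable[MeasurableSpace.invariants T] φ) (C : ℝ) (hC : ∀ x, |φ x| ≤ C) :
    ∀ᵐ x ∂μ, ∀ᵐ y ∂(cmp μ T x), φ y = φ x := by
  have hm := MeasurableSpace.invariants_le (T : X → X)
  have hφ' : Measurable φ := hφ.mono hm le_rfl
  have h1 := compProd_trim_condExpKernel (μ := μ) hm
  have hms : @MeasurableSet (X × X)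
      ((MeasurableSpace.invariants (T : X → X)).prod inferInstance) {p : X × X | φ p.2 = φ p.1} := by
    refine @measurableSet_eq_fun (X × X) ℝ
      ((MeasurableSpace.invariants (T : X → X)).prod inferInstance) _ _ _ _ ?_ ?_
    · exact hφ'.comp (@measurable_snd X X (MeasurableSpace.invariants (T : X → X)) _)
    · exact hφ.comp (@measurable_fst X X (MeasurableSpace.invariants (T : X → X)) _)
  have h2 : ∀ᵐ p ∂((μ.trim hm) ⊗ₘ condExpKernel μ (MeasurableSpace.invariants (T : X → X))),
      φ p.2 = φ p.1 := by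
    rw [h1, ae_iff]
    have hdiag : @Measurable X (X × X) _
        ((MeasurableSpace.invariants (T : X → X)).prod inferInstance) Function.diag := by
      exact @Measurable.prodMk X _ X X (MeasurableSpace.invariants (T : X → X)) _ _ _
        (measurable_id'' hm) measurable_id
    rw [Measure.map_apply hdiag (by exact hms.compl)]
    have e : Function.diag ⁻¹' {p : X × X | ¬φ p.2 = φ p.1} = ∅ := by
      ext x
      simp [Function.diag]
    rw [e, measure_empty]
  have h3 := Measure.ae_ae_of_ae_compProd h2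
  exact ae_of_ae_trim hm h3

private theorem E3_emb {X : Type} [MeasurableSpace X] (T : X ≃ᵐ X) (n : ℕ) :
    MeasurableEmbedding (T^[n]) := by
  induction n with
  | zero => exact MeasurableEmbedding.id
  | succ n ih =>
    rw [Function.iterate_succ]
    exact ih.comp T.measurableEmbedding

include hT in
private theorem E3_iter (g : Lp ℝ 2 μ) (n : ℕ) :
    (((Lp.compMeasurePreservingₗᵢ ℝ T hT).toContinuousLinearMap)^[n] g : Lp ℝ 2 μ) =ᵐ[μ]
      fun y => g (T^[n] y) := by
  induction n with
  | zero => exact Filter.EventuallyEq.rfl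
  | succ n ih =>
    rw [Function.iterate_succ_apply']
    have h1 : (((Lp.compMeasurePreservingₗᵢ ℝ T hT).toContinuousLinearMap
        (((Lp.compMeasurePreservingₗᵢ ℝ T hT).toContinuousLinearMap)^[n] g) : Lp ℝ 2 μ) :
        X → ℝ) =ᵐ[μ]
        (((Lp.compMeasurePreservingₗᵢ ℝ T hT).toContinuousLinearMap)^[n] g : Lp ℝ 2 μ) ∘ T :=
      Lp.coeFn_compMeasurePreserving _ hT
    have h2 := hT.quasiMeasurePreserving.ae_eq_comp ih
    refine h1.trans (h2.trans ?_)
    filter_upwards with y
    simp only [Function.comp_apply, Function.iterate_succ_apply]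

include hT in
/-- module E3.  The mean ergodic theorem in `L2`: the limit is almost everywhere equal to a function measurable for
the invariant sets (`limsup` of the averages, or of the iterates of a representative of the limit), hence it is the
conditional expectation; almost everywhere convergence along a subsequence. -/
theorem cmp_avg (C : Set X) (hC : MeasurableSet C) :
    ∃ N : ℕ → ℕ, Tendsto N atTop atTop ∧ ∀ᵐ y ∂μ,
      Tendsto (fun k : ℕ => (∑ n ∈ range (N k), C.indicator (fun _ => (1 : ℝ)) (T^[n] y)) / (N k : ℝ)) atTop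
        (𝓝 ((cmp μ T y).real C)) := by
  have hm := MeasurableSpace.invariants_le (T : X → X)
  obtain ⟨c, hc⟩ : ∃ c : X → ℝ, c = C.indicator (fun _ => (1 : ℝ)) := ⟨_, rfl⟩
  rw [← hc]
  have hcL : MemLp c 2 μ := by rw [hc]; exact (memLp_const (1 : ℝ)).indicator hC
  obtain ⟨U, hUd⟩ : ∃ U : Lp ℝ 2 μ →L[ℝ] Lp ℝ 2 μ,
      U = (Lp.compMeasurePreservingₗᵢ ℝ T hT).toContinuousLinearMap := ⟨_, rfl⟩
  have hU1 : ‖U‖ ≤ 1 := by rw [hUd]; exact LinearIsometry.norm_toContinuousLinearMap_le _
  have hUn : ∀ (g : Lp ℝ 2 μ) (n : ℕ), (U^[n] g : X → ℝ) =ᵐ[μ] fun y => g (T^[n] y) := by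
    intro g n
    rw [hUd]
    exact E3_iter μ T hT g n
  obtain ⟨x, hx⟩ : ∃ x : Lp ℝ 2 μ, x = hcL.toLp c := ⟨_, rfl⟩
  have hxc : (x : X → ℝ) =ᵐ[μ] c := by rw [hx]; exact hcL.coeFn_toLp
  have hlim := ContinuousLinearMap.tendsto_birkhoffAverage_orthogonalProjection U hU1 x
  obtain ⟨h, hh⟩ : ∃ h : Lp ℝ 2 μ,
      h = ((((U : Lp ℝ 2 μ →ₗ[ℝ] Lp ℝ 2 μ).eqLocus
        ((1 : Lp ℝ 2 μ →L[ℝ] Lp ℝ 2 μ) : Lp ℝ 2 μ →ₗ[ℝ] Lp ℝ 2 μ)).orthogonalProjectionOnto x :
        _) : Lp ℝ 2 μ) := ⟨_, rfl⟩
  have hfix : U h = h := by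
    rw [hh]
    exact (Submodule.coe_mem (((U : Lp ℝ 2 μ →ₗ[ℝ] Lp ℝ 2 μ).eqLocus
        ((1 : Lp ℝ 2 μ →L[ℝ] Lp ℝ 2 μ) : Lp ℝ 2 μ →ₗ[ℝ] Lp ℝ 2 μ)).orthogonalProjectionOnto x))
  rw [← hh] at hlim
  -- the averages as functions
  have hsum : ∀ N : ℕ, ((birkhoffAverage ℝ U _root_.id N x : Lp ℝ 2 μ) : X → ℝ) =ᵐ[μ]
      fun y => (∑ n ∈ range N, c (T^[n] y)) / (N : ℝ) := by
    intro N
    have h1 : ((birkhoffSum U _root_.id N x : Lp ℝ 2 μ) : X → ℝ) =ᵐ[μ]
        fun y => ∑ n ∈ range N, c (T^[n] y) := by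
      induction N with
      | zero =>
        simp only [birkhoffSum_zero, Finset.range_zero, Finset.sum_empty]
        exact Lp.coeFn_zero _ _ _
      | succ N ih =>
        rw [birkhoffSum_succ]
        have h2 := hUn x N
        have h3 : (fun y => x (T^[N] y)) =ᵐ[μ] fun y => c (T^[N] y) :=
          (hT.iterate N).quasiMeasurePreserving.ae_eq_comp hxc
        filter_upwards [ih, h2, h3, Lp.coeFn_add (birkhoffSum U _root_.id N x)
          (_root_.id (U^[N] x))] with y a1 a2 a3 a4
        rw [a4, Pi.add_apply, a1, Finset.sum_range_succ, _root_.id, a2, a3]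
    unfold birkhoffAverage
    filter_upwards [h1, Lp.coeFn_smul ((N : ℝ)⁻¹) (birkhoffSum U _root_.id N x)] with y a1 a2
    rw [a2, Pi.smul_apply, a1, smul_eq_mul, div_eq_inv_mul]
  -- subsequence
  obtain ⟨ns, hns, hae⟩ := (tendstoInMeasure_of_tendsto_Lp hlim).exists_seq_tendsto_ae
  -- the limit is the conditional expectation
  have hiter : ∀ n, U^[n] h = h := fun n => Function.iterate_fixed hfix n
  have hinvall : ∀ᵐ y ∂μ, ∀ n, h (T^[n] y) = h y := by
    rw [ae_all_iff]
    intro n
    have h1 := hUn h n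
    rw [hiter n] at h1
    filter_upwards [h1] with y hy
    exact hy.symm
  have hmeas : AEStronglyMeasurable[MeasurableSpace.invariants (T : X → X)] (h : X → ℝ) μ := by
    have h1 : Measurable (h : X → ℝ) := (Lp.stronglyMeasurable h).measurable
    have h2 : Measurable[MeasurableSpace.invariants (T : X → X)]
        (fun y => limsup (fun n => (h : X → ℝ) (T^[n] y)) atTop) := by
      rw [MeasurableSpace.measurable_invariants_dom]
      refine ⟨Measurable.limsup fun n => h1.comp (T.measurable.iterate n), fun s _ => ?_⟩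
      congr 1
      funext y
      have e : (fun n => (h : X → ℝ) (T^[n] (T y))) = fun n => (h : X → ℝ) (T^[n + 1] y) := by
        funext n
        rw [Function.iterate_succ_apply]
      simp only [Function.comp_apply, e]
      exact limsup_nat_add (fun n => (h : X → ℝ) (T^[n] y)) 1
    refine ⟨_, h2.stronglyMeasurable, ?_⟩
    filter_upwards [hinvall] with y hy
    simp only [hy]
    exact (limsup_const _).symm
  have hce : (h : X → ℝ) =ᵐ[μ] μ⟦C | MeasurableSpace.invariants (T : X → X)⟧ := by
    refine ae_eq_condExp_of_forall_setIntegral_eq hm ?_ ?_ ?_ hmeas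
    · exact (integrable_const (1 : ℝ)).indicator hC
    · intro s _ _
      exact ((Lp.memLp h).integrable (by norm_num)).integrableOn
    · intro s hs _
      have hs' := MeasurableSpace.measurableSet_invariants.1 hs
      have hl : ∀ f : Lp ℝ 2 μ, inner ℝ (indicatorConstLp 2 hs'.1 (measure_ne_top μ s) (1 : ℝ)) f =
          ∫ y in s, f y ∂μ := fun f => L2.inner_indicatorConstLp_one hs'.1 (measure_ne_top μ s) f
      obtain ⟨one, hone⟩ : ∃ one : Lp ℝ 2 μ,
        one = indicatorConstLp 2 hs'.1 (measure_ne_top μ s) (1 : ℝ) := ⟨_, rfl⟩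
      rw [← hone] at hl
      have hlU : ∀ n, inner ℝ one (U^[n] x) = inner ℝ one x := by
        intro n
        rw [hl, hl]
        have hsn : (T^[n]) ⁻¹' s = s := by
          have h1 := MeasurableSpace.le_invariants_iterate (T : X → X) n s hs
          exact (MeasurableSpace.measurableSet_invariants.1 h1).2
        calc ∫ y in s, (U^[n] x : Lp ℝ 2 μ) y ∂μ = ∫ y in s, x (T^[n] y) ∂μ :=
              integral_congr_ae (ae_restrict_of_ae (hUn x n))
          _ = ∫ y in (T^[n]) ⁻¹' s, x (T^[n] y) ∂μ := by rw [hsn]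
          _ = ∫ y in s, x y ∂μ := by
              have h2 := (hT.iterate n).setIntegral_preimage_emb ?_ (x : X → ℝ) s
              · exact h2
              · exact E3_emb T n
      have hlA : ∀ N : ℕ, 1 ≤ N → inner ℝ one (birkhoffAverage ℝ U _root_.id N x) =
          inner ℝ one x := by
        intro N hN
        unfold birkhoffAverage birkhoffSum
        rw [real_inner_smul_right, inner_sum]
        simp only [_root_.id, hlU, Finset.sum_const, Finset.card_range, nsmul_eq_mul]
        have : (N : ℝ) ≠ 0 := by positivity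
        field_simp
      have h3 : Tendsto (fun N => inner ℝ one (birkhoffAverage ℝ U _root_.id N x)) atTop
          (𝓝 (inner ℝ one h)) := tendsto_const_nhds.inner hlim
      have h4 : Tendsto (fun N => inner ℝ one (birkhoffAverage ℝ U _root_.id N x)) atTop
          (𝓝 (inner ℝ one x)) := by
        refine tendsto_const_nhds.congr' ?_
        filter_upwards [eventually_ge_atTop 1] with N hN
        exact (hlA N hN).symm
      have h5 := tendsto_nhds_unique h3 h4
      rw [hl, hl] at h5
      rw [h5]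
      refine integral_congr_ae (ae_restrict_of_ae ?_)
      rw [hc] at hxc
      exact hxc
  have hk := condExpKernel_ae_eq_condExp (μ := μ) hm hC
  refine ⟨ns, hns.tendsto_atTop, ?_⟩
  have hsum' : ∀ᵐ y ∂μ, ∀ N : ℕ, ((birkhoffAverage ℝ U _root_.id N x : Lp ℝ 2 μ) : X → ℝ) y =
      (∑ n ∈ range N, c (T^[n] y)) / (N : ℝ) := ae_all_iff.2 hsum
  filter_upwards [hae, hce, hk, hsum'] with y a1 a2 a3 a4
  have e : (cmp μ T y).real C = h y := by
    rw [a2]
    exact a3
  rw [e]
  refine a1.congr fun k => ?_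
  exact a4 (ns k)

include hT in
private theorem E4_one {C : Set X} (hC : MeasurableSet C) :
    ∀ᵐ x ∂μ, ∀ B : Set X, MeasurableSet B → T ⁻¹' B = B →
      cmp μ T x (B ∩ C) = cmp μ T x B * cmp μ T x C := by
  have hm := MeasurableSpace.invariants_le (T : X → X)
  obtain ⟨N, hN, hae⟩ := cmp_avg μ T hT C hC
  have h1 : ∀ᵐ x ∂μ, ∀ᵐ y ∂(cmp μ T x),
      Tendsto (fun k : ℕ => (∑ n ∈ range (N k), C.indicator (fun _ => (1 : ℝ)) (T^[n] y)) /
        (N k : ℝ)) atTop (𝓝 ((cmp μ T y).real C)) := by
    refine ae_of_ae_trim hm ?_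
    refine Measure.ae_ae_of_ae_comp ?_
    rw [condExpKernel_comp_trim hm]
    exact hae
  have h2 : ∀ᵐ x ∂μ, ∀ᵐ y ∂(cmp μ T x), (cmp μ T y).real C = (cmp μ T x).real C := by
    refine cmp_const μ T (fun y => (cmp μ T y).real C) ?_ 1 (fun y => ?_)
    · exact (measurable_condExpKernel (μ := μ) (m := MeasurableSpace.invariants (T : X → X))
        hC).ennreal_toReal
    · have := cmp_prob μ T y
      rw [abs_of_nonneg measureReal_nonneg]
      exact measureReal_le_one
  filter_upwards [h1, h2, cmp_inv μ T hT] with x a1 a2 hinv B hB hTB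
  have hp := cmp_prob μ T x
  obtain ⟨ν, hν⟩ : ∃ ν, ν = cmp μ T x := ⟨_, rfl⟩
  rw [← hν] at a1 a2 hinv hp ⊢
  have hBn : ∀ n, (T^[n]) ⁻¹' B = B := by
    intro n
    induction n with
    | zero => rfl
    | succ n ih => rw [Function.iterate_succ, Set.preimage_comp, ih, hTB]
  have hint : ∀ n : ℕ, ∫ y in B, C.indicator (fun _ => (1 : ℝ)) (T^[n] y) ∂ν =
      ν.real (B ∩ C) := by
    intro n
    have e1 : (fun y => C.indicator (fun _ => (1 : ℝ)) (T^[n] y)) =
        ((T^[n]) ⁻¹' C).indicator (fun _ => (1 : ℝ)) := by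
      funext y
      rfl
    rw [e1, setIntegral_indicator ((T.measurable.iterate n) hC), setIntegral_const, smul_eq_mul,
      mul_one]
    have e2 : B ∩ (T^[n]) ⁻¹' C = (T^[n]) ⁻¹' (B ∩ C) := by
      rw [Set.preimage_inter, hBn n]
    rw [e2, measureReal_def, measureReal_def,
      (hinv.iterate n).measure_preimage (hB.inter hC).nullMeasurableSet]
  have hmi : ∀ n : ℕ, Integrable (fun y => C.indicator (fun _ => (1 : ℝ)) (T^[n] y))
      (ν.restrict B) := by
    intro n
    refine Integrable.of_bound (((measurable_const.indicator hC).comp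
      (T.measurable.iterate n)).aestronglyMeasurable) 1 (Eventually.of_forall fun y => ?_)
    by_cases hy : T^[n] y ∈ C
    · simp [hy]
    · simp [hy]
  have hl1 : Tendsto (fun k : ℕ => ∫ y in B, (∑ n ∈ range (N k),
      C.indicator (fun _ => (1 : ℝ)) (T^[n] y)) / (N k : ℝ) ∂ν) atTop (𝓝 (ν.real (B ∩ C))) := by
    refine tendsto_const_nhds.congr' ?_
    filter_upwards [hN.eventually (eventually_ge_atTop 1)] with k hk
    rw [integral_div, integral_finsetSum _ fun n _ => hmi n]
    simp only [hint, Finset.sum_const, Finset.card_range, nsmul_eq_mul]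
    have : (N k : ℝ) ≠ 0 := by positivity
    field_simp
  have hl2 : Tendsto (fun k : ℕ => ∫ y in B, (∑ n ∈ range (N k),
      C.indicator (fun _ => (1 : ℝ)) (T^[n] y)) / (N k : ℝ) ∂ν) atTop
      (𝓝 (∫ y in B, ν.real C ∂ν)) := by
    refine tendsto_integral_of_dominated_convergence (fun _ => (1 : ℝ)) (fun k => ?_)
      (integrable_const _) (fun k => ?_) ?_
    · have h3 : Measurable fun y => (∑ n ∈ range (N k),
          C.indicator (fun _ => (1 : ℝ)) (T^[n] y)) / (N k : ℝ) :=
        (Finset.measurable_fun_sum _ fun n _ => (measurable_const.indicator hC).comp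
          (T.measurable.iterate n)).div_const _
      exact h3.aestronglyMeasurable
    · refine Eventually.of_forall fun y => ?_
      have h3 : ∀ n, 0 ≤ C.indicator (fun _ => (1 : ℝ)) (T^[n] y) ∧
          C.indicator (fun _ => (1 : ℝ)) (T^[n] y) ≤ 1 := by
        intro n
        by_cases hy : T^[n] y ∈ C
        · simp [hy]
        · simp [hy]
      have h4 : 0 ≤ ∑ n ∈ range (N k), C.indicator (fun _ => (1 : ℝ)) (T^[n] y) :=
        Finset.sum_nonneg fun n _ => (h3 n).1
      have h5 : ∑ n ∈ range (N k), C.indicator (fun _ => (1 : ℝ)) (T^[n] y) ≤ N k := by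
        calc ∑ n ∈ range (N k), C.indicator (fun _ => (1 : ℝ)) (T^[n] y) ≤
              ∑ n ∈ range (N k), (1 : ℝ) := Finset.sum_le_sum fun n _ => (h3 n).2
          _ = N k := by simp
      rw [Real.norm_eq_abs, abs_of_nonneg (by positivity)]
      exact div_le_one_of_le₀ h5 (by positivity)
    · refine ae_restrict_of_ae ?_
      filter_upwards [a1, a2] with y b1 b2
      rw [b2] at b1
      exact b1
  have h3 := tendsto_nhds_unique hl1 hl2
  rw [setIntegral_const, smul_eq_mul] at h3
  rw [← ENNReal.toReal_eq_toReal_iff' (measure_ne_top _ _)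
    (ENNReal.mul_ne_top (measure_ne_top _ _) (measure_ne_top _ _)), ENNReal.toReal_mul]
  exact h3

include hT in
/-- module E4.  Ergodicity of almost all components: for `B` invariant, `C` in a countable algebra (`MeasureDense` of
`generateSetAlgebra` of a countable generating set) with `κ_x (B Δ C) ≤ ε`, use `cmp_avg` and `cmp_const` for
`φ y = (κ_y).real C`: `|κ_x B - (κ_x B)²| ≤ 2 ε`. -/
theorem cmp_erg : ∀ᵐ x ∂μ, Ergodic T (cmp μ T x) := by
  obtain ⟨𝒜, hc, hpi, hms, hgen⟩ := E1_alg (X := X)
  have h1 : ∀ᵐ x ∂μ, ∀ C ∈ 𝒜, ∀ B : Set X, MeasurableSet B → T ⁻¹' B = B →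
      cmp μ T x (B ∩ C) = cmp μ T x B * cmp μ T x C :=
    (ae_ball_iff hc).2 fun C hC => E4_one μ T hT (hms C hC)
  filter_upwards [h1, cmp_inv μ T hT] with x hx hinv
  have hp := cmp_prob μ T x
  refine ⟨hinv, ⟨fun B hB hB' => ?_⟩⟩
  obtain ⟨ν, hν⟩ : ∃ ν, ν = cmp μ T x := ⟨_, rfl⟩
  rw [← hν] at hx hp ⊢
  have h2 : ν.restrict B = ν B • ν := by
    refine ext_of_generate_finite 𝒜 hgen hpi (fun s hs => ?_) ?_
    · rw [Measure.restrict_apply (hms s hs), Set.inter_comm, hx s hs B hB hB',
        Measure.smul_apply, smul_eq_mul]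
    · rw [Measure.restrict_apply_univ, Measure.smul_apply, smul_eq_mul, measure_univ, mul_one]
  have h3 : ν B = ν B * ν B := by
    have := congrArg (fun m : Measure X => m B) h2
    simpa [Measure.restrict_apply hB] using this
  have h4 : ν B = 0 ∨ ν B = 1 := by
    rcases eq_or_ne (ν B) 0 with h5 | h5
    · exact Or.inl h5
    · right
      have h6 : ν B * ν B = ν B * 1 := by rw [mul_one]; exact h3.symm
      exact (ENNReal.mul_right_inj h5 (measure_ne_top _ _)).1 h6
  rw [eventuallyConst_set']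
  rcases h4 with h5 | h5
  · left
    exact ae_eq_empty.2 h5
  · right
    exact (prob_compl_eq_zero_iff hB).2 h5 |> fun h6 => by
      rw [eventuallyEq_univ]
      exact h6

end erg

/-! ## module F1: the correspondence principle -/

open Classical in
/-- the point of the shift space seen from `x` -/
private noncomputable def F1_w (A : Set ℕ) (x : ℕ) : ℤ → Bool := fun i =>
  decide (∃ a : ℕ, (a : ℤ) = x + i ∧ a ∈ A)

open Classical in
private theorem F1_w_iff (A : Set ℕ) (x n : ℕ) : F1_w A x (n : ℤ) = true ↔ x + n ∈ A := by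
  unfold F1_w
  rw [decide_eq_true_iff]
  constructor
  · rintro ⟨a, h1, h2⟩
    have : a = x + n := by exact_mod_cast h1
    rwa [← this]
  · intro h
    exact ⟨x + n, by push_cast; ring, h⟩

private theorem F1_shift (A : Set ℕ) (x : ℕ) :
    (fun i : ℤ => F1_w A x (i + 1)) = F1_w A (x + 1) := by
  funext i
  unfold F1_w
  congr 1
  apply propext
  constructor
  · rintro ⟨a, h1, h2⟩
    exact ⟨a, by rw [h1]; push_cast; ring, h2⟩
  · rintro ⟨a, h1, h2⟩
    exact ⟨a, by rw [h1]; push_cast; ring, h2⟩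

/-- the empirical measures -/
private noncomputable def F1_mes (A : Set ℕ) (M : ℕ) : Measure (ℤ → Bool) :=
  (M : ℝ≥0∞)⁻¹ • ∑ x ∈ range M, Measure.dirac (F1_w A x)

private theorem F1_prob (A : Set ℕ) {M : ℕ} (hM : 1 ≤ M) : IsProbabilityMeasure (F1_mes A M) := by
  constructor
  unfold F1_mes
  rw [Measure.smul_apply, Measure.finsetSum_apply]
  simp only [measure_univ, Finset.sum_const, Finset.card_range, nsmul_eq_mul, mul_one,
    smul_eq_mul]
  exact ENNReal.inv_mul_cancel (by simpa using (by omega : M ≠ 0)) (ENNReal.natCast_ne_top M)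

private theorem F1_int (A : Set ℕ) (M : ℕ) (f : (ℤ → Bool) → ℝ) (hf : Continuous f) :
    ∫ x, f x ∂(F1_mes A M) = (∑ x ∈ range M, f (F1_w A x)) / (M : ℝ) := by
  unfold F1_mes
  rw [integral_smul_measure, integral_finsetSum_measure]
  · simp only [integral_dirac]
    rw [ENNReal.toReal_inv, ENNReal.toReal_natCast, smul_eq_mul, div_eq_inv_mul]
  · intro x _
    exact integrable_dirac (by simp)

private theorem F1_cont (g : Bool → Bool → Bool → ℝ) (a b : ℤ) :
    Continuous fun x : ℤ → Bool => g (x 0) (x a) (x b) := by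
  have h1 : Continuous fun p : Bool × Bool × Bool => g p.1 p.2.1 p.2.2 :=
    continuous_of_discreteTopology
  have h2 : Continuous fun x : ℤ → Bool => (x 0, x a, x b) :=
    (continuous_apply 0).prodMk ((continuous_apply a).prodMk (continuous_apply b))
  exact h1.comp h2

private theorem F1_ms (a : ℤ) : MeasurableSet {x : ℤ → Bool | x a = true} := by
  have h1 : Measurable fun x : ℤ → Bool => x a := measurable_pi_apply a
  exact h1 (measurableSet_singleton true)

/-- `μ` = weak limit along an ultrafilter of `(1/N_k) ∑_{x<N_k} δ_(i ↦ [x+i ≥ 0 and x+i ∈ A])` on the compact space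
`ℤ → Bool` (`instCompactSpaceProbabilityMeasure`); cylinders are clopen. -/
theorem furst (A : Set ℕ) (N : ℕ → ℕ) (hN : Tendsto N atTop atTop) (γ : ℕ → ℝ)
    (hγ : ∀ n : ℕ, Tendsto (fun k : ℕ => (({x | x ∈ A ∧ x + n ∈ A ∧ x < N k}.ncard : ℝ)) / (N k : ℝ)) atTop
      (𝓝 (γ n))) :
    ∃ μ : Measure (ℤ → Bool), IsProbabilityMeasure μ ∧
      MeasurePreserving (fun (x : ℤ → Bool) (i : ℤ) => x (i + 1)) μ μ ∧
      (∀ n : ℕ, μ.real {x | x 0 = true ∧ x (n : ℤ) = true} = γ n) ∧
      ∀ d : ℕ, μ {x | x 0 = true ∧ x (d : ℤ) = true ∧ x (2 * (d : ℤ)) = true} ≠ 0 →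
        ∃ a : ℕ, a ∈ A ∧ a + d ∈ A ∧ a + 2 * d ∈ A := by
  classical
  obtain ⟨M, hMd⟩ : ∃ M : ℕ → ℕ, ∀ k, M k = max (N k) 1 := ⟨fun k => max (N k) 1, fun _ => rfl⟩
  have hM1 : ∀ k, 1 ≤ M k := fun k => by rw [hMd]; exact le_max_right _ _
  have hMN : ∀ᶠ k in atTop, M k = N k := by
    filter_upwards [hN.eventually (eventually_ge_atTop 1)] with k hk
    rw [hMd]
    exact max_eq_left hk
  have hM : Tendsto M atTop atTop := hN.congr' (hMN.mono fun k hk => hk.symm)
  let P : ℕ → ProbabilityMeasure (ℤ → Bool) := fun k => ⟨F1_mes A (M k), F1_prob A (hM1 k)⟩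
  obtain ⟨μ, _, hμ⟩ := (isCompact_univ (X := ProbabilityMeasure (ℤ → Bool))).ultrafilter_le_nhds
    ((Ultrafilter.of (atTop : Filter ℕ)).map P) (by simp)
  obtain ⟨U, hU⟩ : ∃ U : Filter ℕ, U = (Ultrafilter.of (atTop : Filter ℕ) : Filter ℕ) := ⟨_, rfl⟩
  have hUle : U ≤ atTop := by rw [hU]; exact Ultrafilter.of_le _
  have hUne : U.NeBot := by rw [hU]; infer_instance
  have hlim : Tendsto P U (𝓝 μ) := by rw [hU]; exact hμ
  have hint : ∀ f : (ℤ → Bool) → ℝ, Continuous f →
      Tendsto (fun k => (∑ x ∈ range (M k), f (F1_w A x)) / (M k : ℝ)) U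
        (𝓝 (∫ x, f x ∂(μ : Measure (ℤ → Bool)))) := by
    intro f hf
    have h1 := (ProbabilityMeasure.tendsto_iff_forall_integral_tendsto.1 hlim)
      (BoundedContinuousFunction.mkOfCompact ⟨f, hf⟩)
    refine h1.congr fun k => ?_
    exact F1_int A (M k) f hf
  have hS : Continuous (fun (x : ℤ → Bool) (i : ℤ) => x (i + 1)) :=
    continuous_pi fun i => continuous_apply (i + 1)
  refine ⟨μ, μ.2, ⟨hS.measurable, ?_⟩, ?_, ?_⟩
  · -- invariance
    have hfin : IsFiniteMeasure (Measure.map (fun (x : ℤ → Bool) (i : ℤ) => x (i + 1))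
        (μ : Measure (ℤ → Bool))) := inferInstance
    refine ext_of_forall_integral_eq_of_IsFiniteMeasure fun f => ?_
    rw [integral_map hS.measurable.aemeasurable f.continuous.aestronglyMeasurable]
    have h1 := hint (fun x => f (fun i => x (i + 1))) (f.continuous.comp hS)
    have h2 := hint f f.continuous
    have h3 : Tendsto (fun k => (∑ x ∈ range (M k), f (fun i => F1_w A x (i + 1))) / (M k : ℝ) -
        (∑ x ∈ range (M k), f (F1_w A x)) / (M k : ℝ)) U (𝓝 0) := by
      refine Tendsto.mono_left ?_ hUle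
      have h4 : Tendsto (fun k => (2 * ‖f‖) / (M k : ℝ)) atTop (𝓝 0) :=
        tendsto_const_nhds.div_atTop (tendsto_natCast_atTop_atTop.comp hM)
      refine squeeze_zero_norm (fun k => ?_) h4
      have e : (∑ x ∈ range (M k), f (fun i => F1_w A x (i + 1))) / (M k : ℝ) -
          (∑ x ∈ range (M k), f (F1_w A x)) / (M k : ℝ) =
          (f (F1_w A (M k)) - f (F1_w A 0)) / (M k : ℝ) := by
        rw [← sub_div, ← Finset.sum_sub_distrib]
        congr 1
        simp only [F1_shift]
        exact Finset.sum_range_sub (fun x => f (F1_w A x)) (M k)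
      rw [e, norm_div, Real.norm_natCast]
      have h5 : (0 : ℝ) < M k := by exact_mod_cast hM1 k
      refine div_le_div_of_nonneg_right ?_ h5.le
      refine (norm_sub_le _ _).trans ?_
      have h6 := f.norm_coe_le_norm (F1_w A (M k))
      have h7 := f.norm_coe_le_norm (F1_w A 0)
      linarith
    have h5 := tendsto_nhds_unique (h1.sub h2) h3
    linarith
  · intro n
    have hc := F1_cont (fun a b _ => if a = true ∧ b = true then (1 : ℝ) else 0) (n : ℤ) (n : ℤ)
    have h1 := hint _ hc
    have e1 : ∫ x : ℤ → Bool, (if x 0 = true ∧ x (n : ℤ) = true then (1 : ℝ) else 0)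
        ∂(μ : Measure (ℤ → Bool)) =
        (μ : Measure (ℤ → Bool)).real {x | x 0 = true ∧ x (n : ℤ) = true} := by
      have hms : MeasurableSet {x : ℤ → Bool | x 0 = true ∧ x (n : ℤ) = true} := by
        apply MeasurableSet.inter
        · exact F1_ms 0
        · exact F1_ms (n : ℤ)
      rw [← integral_indicator_one hms]
      refine integral_congr_ae (Eventually.of_forall fun x => ?_)
      simp only [Set.indicator_apply, Set.mem_ofPred_eq, Pi.one_apply]
    rw [e1] at h1
    refine tendsto_nhds_unique h1 (((hγ n).mono_left hUle).congr' ?_)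
    filter_upwards [hUle hMN] with k hk
    rw [hk]
    congr 1
    rw [Finset.sum_ite, Finset.sum_const_zero, add_zero, Finset.sum_const, nsmul_eq_mul, mul_one]
    congr 1
    have e2 : {x | x ∈ A ∧ x + n ∈ A ∧ x < N k} = (((range (N k)).filter fun x =>
        F1_w A x 0 = true ∧ F1_w A x (n : ℤ) = true : Finset ℕ) : Set ℕ) := by
      ext x
      have h0 := F1_w_iff A x 0
      rw [Nat.cast_zero, Nat.add_zero] at h0
      simp only [Set.mem_ofPred_eq, Finset.coe_filter, Finset.mem_range, h0, F1_w_iff]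
      tauto
    rw [e2, Set.ncard_coe_finset]
  · intro d hd
    have hc := F1_cont (fun a b c => if a = true ∧ b = true ∧ c = true then (1 : ℝ) else 0)
      (d : ℤ) (2 * (d : ℤ))
    have h1 := hint _ hc
    have e1 : ∫ x : ℤ → Bool, (if x 0 = true ∧ x (d : ℤ) = true ∧ x (2 * (d : ℤ)) = true
        then (1 : ℝ) else 0) ∂(μ : Measure (ℤ → Bool)) =
        (μ : Measure (ℤ → Bool)).real
          {x | x 0 = true ∧ x (d : ℤ) = true ∧ x (2 * (d : ℤ)) = true} := by
      have hms : MeasurableSet
          {x : ℤ → Bool | x 0 = true ∧ x (d : ℤ) = true ∧ x (2 * (d : ℤ)) = true} := by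
        apply MeasurableSet.inter
        · exact F1_ms 0
        · apply MeasurableSet.inter
          · exact F1_ms (d : ℤ)
          · exact F1_ms (2 * (d : ℤ))
      rw [← integral_indicator_one hms]
      refine integral_congr_ae (Eventually.of_forall fun x => ?_)
      simp only [Set.indicator_apply, Set.mem_ofPred_eq, Pi.one_apply]
    rw [e1] at h1
    have h2 : 0 < (μ : Measure (ℤ → Bool)).real
        {x | x 0 = true ∧ x (d : ℤ) = true ∧ x (2 * (d : ℤ)) = true} :=
      ENNReal.toReal_pos hd (measure_ne_top _ _)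
    obtain ⟨k, hk⟩ := (h1.eventually (lt_mem_nhds h2)).exists
    have h3 : (∑ x ∈ range (M k), if F1_w A x 0 = true ∧ F1_w A x (d : ℤ) = true ∧
        F1_w A x (2 * (d : ℤ)) = true then (1 : ℝ) else 0) ≠ 0 := by
      intro h4
      rw [h4, zero_div] at hk
      exact lt_irrefl _ hk
    obtain ⟨x, _, hx⟩ := Finset.exists_ne_zero_of_sum_ne_zero h3
    have h4 : F1_w A x 0 = true ∧ F1_w A x (d : ℤ) = true ∧ F1_w A x (2 * (d : ℤ)) = true := by
      by_contra h5
      rw [if_neg h5] at hx
      exact hx rfl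
    refine ⟨x, ?_, ?_, ?_⟩
    · have := (F1_w_iff A x 0).1 (by rw [Nat.cast_zero]; exact h4.1)
      simpa using this
    · exact (F1_w_iff A x d).1 h4.2.1
    · exact (F1_w_iff A x (2 * d)).1 (by push_cast; exact h4.2.2)

end Pool.Agent.Sgs
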