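import Pool.Agent.Sgs.ThmA
import Pool.Agent.Sgs.Dec

/-!
# Theorem C: progressions of all lengths for sets with singular correlation measures

TEXT.  `f = 1_A`; `pk f τ K x = ∏ k ∈ K, f (τ k x)`; `Fm f τ m` = the linear combinations of the `pk f τ K`, `|K| ≤ m`.
`Vp μ τ P F`: `F` is bounded and the spectral measure of `F - ∫ F` has the property `P`; `P = Sing` (singular and
without atoms) or `P = Tor` (no atoms at the points of finite order).  Hypothesis of Theorem C for progressions of `r + 1`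
terms: `Vp Sing (pk f τ K)` for `|K| ≤ 2^(r-2)`, `Vp Tor (pk f τ K)` for `|K| ≤ 2^(r-1)`.  Conclusion: the average of
`μ (⋂ i ≤ r, T^(-i d) A)` tends to `μ(A)^(r+1)`.  Proof: more generally for `r + 1` functions of `Fm m`, with `2^(r-2) m`,
`2^(r-1) m` in the hypotheses, by induction on `r` (for all `m`).  `r = 1`: Cauchy-Schwarz and the spectral theorem (`pair2`).
Step: split `F mA = ∫ F mA + g`, `g ∈ Fm m` with singular spectral measure without atoms; the constant by induction; for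
`g` use `three`, its hypotheses follow from the induction hypothesis for the functions `F (τ p x) conj (F (τ q x))`, which
belong to `Fm (2 m)` (`gslot`, `gstep`).
-/

set_option autoImplicit false

namespace Pool.Agent.Sgs

open MeasureTheory Filter Finset
open scoped Topology ENNReal

/-- a property of measures which is inherited by sums and by absolutely continuous measures -/
structure Idl (P : Measure Cir → Prop) : Prop where
  zero : P 0
  add : ∀ σ ρ, P σ → P ρ → P (σ + ρ)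
  ac : ∀ σ ρ : Measure Cir, P σ → ρ ≪ σ → P ρ

/-- singular and without atoms -/
def Sing (σ : Measure Cir) : Prop := σ ⟂ₘ (volume : Measure Cir) ∧ ∀ t, σ {t} = 0

/-- no atoms at the points of finite order -/
def Tor (σ : Measure Cir) : Prop := ∀ q : ℕ, 0 < q → ∀ t : Cir, q • t = 0 → σ {t} = 0

/-- bounded functions such that the spectral measure of `F - ∫ F` has the property `P` -/
def Vp {X : Type} [MeasurableSpace X] (μ : Measure X) (τ : ℤ → X → X) (P : Measure Cir → Prop) (F : X → ℂ) : Prop :=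
  Bd F ∧ ∃ σ, Sp μ τ (fun x => F x - ∫ y, F y ∂μ) σ ∧ P σ

/-! ## module X1: the functions with property `P` form a linear space -/

theorem idl_sing : Idl Sing := by
  refine ⟨⟨Measure.MutuallySingular.zero_left, fun t => rfl⟩, fun σ ρ h1 h2 => ?_, fun σ ρ h1 h2 => ?_⟩
  · refine ⟨h1.1.add_left h2.1, fun t => ?_⟩
    rw [Measure.add_apply, h1.2 t, h2.2 t, add_zero]
  · exact ⟨h1.1.mono_ac h2 Measure.AbsolutelyContinuous.rfl, fun t => h2 (h1.2 t)⟩

theorem idl_tor : Idl Tor := by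
  refine ⟨fun q _ t _ => rfl, fun σ ρ h1 h2 q hq t ht => ?_, fun σ ρ h1 h2 q hq t ht => h2 (h1 q hq t ht)⟩
  rw [Measure.add_apply, h1 q hq t ht, h2 q hq t ht, add_zero]

private theorem X1_sub {X : Type} [MeasurableSpace X] {F : X → ℂ} (hF : Bd F) (c : ℂ) :
    Bd (fun x => F x - c) := B11_sub F (fun _ => c) hF (S3_bd_const c)

private theorem X1_fint (σ : Measure Cir) [IsFiniteMeasure σ] (n : ℤ) :
    Integrable (fun t : Cir => (fourier n t : ℂ)) σ := by
  refine Integrable.of_bound (fourier n).continuous.aestronglyMeasurable 1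
    (Eventually.of_forall fun t => ?_)
  rw [fourier_apply, Circle.norm_coe]

/-- With `f = F - ∫ F`, `g = G - ∫ G`: `σ_(f+g) + σ_(f-g) = 2 σ_f + 2 σ_g` by comparing Fourier coefficients (`sp_exists`,
`four_uniq`), so `σ_(f+g) ≪ σ_f + σ_g`. -/
theorem vp_add {X : Type} [MeasurableSpace X] (μ : Measure X) [IsProbabilityMeasure μ] (τ : ℤ → X → X)
    (hτ : Sys μ τ) (P : Measure Cir → Prop) (hP : Idl P) (F G : X → ℂ) (hF : Vp μ τ P F) (hG : Vp μ τ P G) :
    Vp μ τ P (fun x => F x + G x) := by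
  obtain ⟨hFb, σ, hσ, hPσ⟩ := hF
  obtain ⟨hGb, ρ, hρ, hPρ⟩ := hG
  have hf : Bd (fun x => F x - ∫ y, F y ∂μ) := X1_sub hFb _
  have hg : Bd (fun x => G x - ∫ y, G y ∂μ) := X1_sub hGb _
  set f : X → ℂ := fun x => F x - ∫ y, F y ∂μ with hfd
  set g : X → ℂ := fun x => G x - ∫ y, G y ∂μ with hgd
  have hfin1 := hσ.1
  have hfin2 := hρ.1
  obtain ⟨α, hα⟩ := sp_exists μ τ hτ (fun x => f x + g x) (B11_add f g hf hg)
  obtain ⟨β, hβ⟩ := sp_exists μ τ hτ (fun x => f x - g x) (B11_sub f g hf hg)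
  have hfin3 := hα.1
  have hfin4 := hβ.1
  have hsum : α + β = (σ + ρ) + (σ + ρ) := by
    refine four_uniq _ _ fun n => ?_
    have hi : ∀ m : Measure Cir, IsFiniteMeasure m → Integrable (fun t : Cir => (fourier n t : ℂ)) m :=
      fun m hm => X1_fint m n
    rw [integral_add_measure (hi α hfin3) (hi β hfin4),
      integral_add_measure (hi (σ + ρ) inferInstance) (hi (σ + ρ) inferInstance),
      integral_add_measure (hi σ hfin1) (hi ρ hfin2), ← hα.2 n, ← hβ.2 n, ← hσ.2 n, ← hρ.2 n]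
    have i1 : ∀ u v : X → ℂ, Bd u → Bd v → Integrable (fun x => u (τ n x) * (starRingEnd ℂ) (v x)) μ :=
      fun u v hu hv => S3_int μ _ (S3_bd_mul _ _ (S3_bd_comp μ τ hτ n u hu) (B11_conj v hv))
    have e1 : ∫ x, (fun x => f x + g x) (τ n x) * (starRingEnd ℂ) ((fun x => f x + g x) x) ∂μ +
        ∫ x, (fun x => f x - g x) (τ n x) * (starRingEnd ℂ) ((fun x => f x - g x) x) ∂μ =
        ∫ x, ((f (τ n x) * (starRingEnd ℂ) (f x) + g (τ n x) * (starRingEnd ℂ) (g x)) +
          (f (τ n x) * (starRingEnd ℂ) (f x) + g (τ n x) * (starRingEnd ℂ) (g x))) ∂μ := by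
      rw [← integral_add (i1 _ _ (B11_add f g hf hg) (B11_add f g hf hg))
        (i1 _ _ (B11_sub f g hf hg) (B11_sub f g hf hg))]
      refine integral_congr_ae (Eventually.of_forall fun x => ?_)
      simp only [map_add, map_sub]
      ring
    have i2 : Integrable (fun x => f (τ n x) * (starRingEnd ℂ) (f x) + g (τ n x) * (starRingEnd ℂ) (g x)) μ :=
      (i1 f f hf hf).add (i1 g g hg hg)
    rw [e1, integral_add i2 i2, integral_add (i1 f f hf hf) (i1 g g hg hg)]
  have hle : α ≤ (σ + ρ) + (σ + ρ) := by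
    rw [← hsum]
    exact Measure.le_add_right le_rfl
  refine ⟨B11_add F G hFb hGb, α, ?_, hP.ac _ _ (hP.add _ _ (hP.add _ _ hPσ hPρ) (hP.add _ _ hPσ hPρ))
    (Measure.absolutelyContinuous_of_le hle)⟩
  have e2 : (fun x => (fun x => F x + G x) x - ∫ y, (fun x => F x + G x) y ∂μ) = fun x => f x + g x := by
    funext x
    simp only [hfd, hgd]
    rw [integral_add (S3_int μ F hFb) (S3_int μ G hGb)]
    ring
  rw [e2]
  exact hα

theorem vp_smul {X : Type} [MeasurableSpace X] (μ : Measure X) [IsProbabilityMeasure μ] (τ : ℤ → X → X)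
    (hτ : Sys μ τ) (P : Measure Cir → Prop) (hP : Idl P) (F : X → ℂ) (hF : Vp μ τ P F) (c : ℂ) :
    Vp μ τ P (fun x => c * F x) := by
  obtain ⟨hFb, σ, hσ, hPσ⟩ := hF
  have hfin1 := hσ.1
  have hfin2 : IsFiniteMeasure (ENNReal.ofReal (‖c‖ ^ 2) • σ) := Measure.smul_finite _ ENNReal.ofReal_ne_top
  refine ⟨S3_bd_mul _ _ (S3_bd_const c) hFb, ENNReal.ofReal (‖c‖ ^ 2) • σ, ⟨hfin2, fun n => ?_⟩,
    hP.ac _ _ hPσ Measure.smul_absolutelyContinuous⟩
  have e1 : ∀ x, c * F x - ∫ y, c * F y ∂μ = c * (F x - ∫ y, F y ∂μ) := by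
    intro x
    rw [integral_const_mul]
    ring
  have e2 : ∫ x, (c * F (τ n x) - ∫ y, c * F y ∂μ) * (starRingEnd ℂ) (c * F x - ∫ y, c * F y ∂μ) ∂μ =
      ∫ x, ((‖c‖ ^ 2 : ℝ) : ℂ) * ((F (τ n x) - ∫ y, F y ∂μ) * (starRingEnd ℂ) (F x - ∫ y, F y ∂μ)) ∂μ := by
    refine integral_congr_ae (Eventually.of_forall fun x => ?_)
    simp only
    rw [e1, e1, map_mul, ← Complex.normSq_eq_norm_sq, ← Complex.mul_conj]
    ring
  refine e2.trans ?_
  rw [integral_const_mul, integral_smul_measure, ENNReal.toReal_ofReal (by positivity), Complex.real_smul]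
  congr 1
  exact hσ.2 n

theorem vp_const {X : Type} [MeasurableSpace X] (μ : Measure X) [IsProbabilityMeasure μ] (τ : ℤ → X → X)
    (P : Measure Cir → Prop) (hP : Idl P) (c : ℂ) : Vp μ τ P (fun _ : X => c) := by
  refine ⟨S3_bd_const c, 0, ⟨inferInstance, fun n => ?_⟩, hP.zero⟩
  simp

theorem vp_shift {X : Type} [MeasurableSpace X] (μ : Measure X) [IsProbabilityMeasure μ] (τ : ℤ → X → X)
    (hτ : Sys μ τ) (P : Measure Cir → Prop) (F : X → ℂ) (hF : Vp μ τ P F) (n : ℤ) :
    Vp μ τ P (fun x => F (τ n x)) := by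
  obtain ⟨hFb, σ, hσ, hPσ⟩ := hF
  refine ⟨S3_bd_comp μ τ hτ n F hFb, σ, ⟨hσ.1, fun k => ?_⟩, hPσ⟩
  have e0 : ∫ y, F (τ n y) ∂μ = ∫ y, F y ∂μ := S3_cv μ τ hτ n F hFb.1
  have e1 := sp_translate μ τ hτ (fun x => F x - ∫ y, F y ∂μ) (X1_sub hFb _) σ hσ (n + k) n
  rw [add_sub_cancel_left] at e1
  rw [← e1]
  refine integral_congr_ae (Eventually.of_forall fun x => ?_)
  simp only [e0]
  rw [hτ.add]

/-! ## module X2: linear combinations of products of translates -/

/-- the product of the translates `f (τ k x)`, `k ∈ K` -/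
noncomputable def pk {X : Type} (f : X → ℂ) (τ : ℤ → X → X) (K : Finset ℤ) (x : X) : ℂ := ∏ k ∈ K, f (τ k x)

/-- linear combinations of products of at most `m` translates of `f` -/
def Fm {X : Type} (f : X → ℂ) (τ : ℤ → X → X) (m : ℕ) : Submodule ℂ (X → ℂ) :=
  Submodule.span ℂ {F | ∃ K : Finset ℤ, K.card ≤ m ∧ F = pk f τ K}

theorem fm_mono {X : Type} (f : X → ℂ) (τ : ℤ → X → X) (m n : ℕ) (h : m ≤ n) (F : X → ℂ) (hF : F ∈ Fm f τ m) :
    F ∈ Fm f τ n := by
  refine Submodule.span_mono ?_ hF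
  rintro G ⟨K, hK, rfl⟩
  exact ⟨K, hK.trans h, rfl⟩

theorem fm_const {X : Type} (f : X → ℂ) (τ : ℤ → X → X) (m : ℕ) (c : ℂ) : (fun _ : X => c) ∈ Fm f τ m := by
  have h1 : (fun _ : X => c) = c • pk f τ ∅ := by
    funext x
    show c = c * ∏ k ∈ (∅ : Finset ℤ), f (τ k x)
    rw [Finset.prod_empty, mul_one]
  rw [h1]
  exact Submodule.smul_mem _ _ (Submodule.subset_span ⟨∅, by simp, rfl⟩)

theorem fm_bd {X : Type} [MeasurableSpace X] (μ : Measure X) (τ : ℤ → X → X) (hτ : Sys μ τ) (f : X → ℂ) (hf : Bd f)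
    (m : ℕ) (F : X → ℂ) (hF : F ∈ Fm f τ m) : Bd F := by
  refine Submodule.span_induction (p := fun F _ => Bd F) ?_ ?_ ?_ ?_ hF
  · rintro G ⟨K, hK, rfl⟩
    clear hK hF
    unfold pk
    induction K using Finset.induction_on with
    | empty => exact ⟨by simp only [Finset.prod_empty]; exact measurable_const, 1, by simp⟩
    | insert i s hi ih =>
      have h1 := S3_bd_mul _ _ (S3_bd_comp μ τ hτ i f hf) ih
      refine ⟨?_, h1.2.choose, fun x => ?_⟩
      · simp only [Finset.prod_insert hi]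
        exact h1.1
      · show ‖∏ k ∈ insert i s, f (τ k x)‖ ≤ _
        rw [Finset.prod_insert hi]
        exact h1.2.choose_spec x
  · exact S3_bd_const 0
  · intro u v _ _ hu hv
    exact B11_add u v hu hv
  · intro c u _ hu
    exact S3_bd_mul _ _ (S3_bd_const c) hu

private theorem X2_ind {X : Type} (f : X → ℂ) (hf : ∀ x, f x = 0 ∨ f x = 1) (τ : ℤ → X → X) (K : Finset ℤ) (x : X) :
    (pk f τ K x = 1 ∧ ∀ k ∈ K, f (τ k x) = 1) ∨ (pk f τ K x = 0 ∧ ∃ k ∈ K, f (τ k x) = 0) := by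
  by_cases h : ∀ k ∈ K, f (τ k x) = 1
  · exact Or.inl ⟨Finset.prod_eq_one h, h⟩
  · push Not at h
    obtain ⟨k, hk, h1⟩ := h
    have h2 : f (τ k x) = 0 := (hf (τ k x)).resolve_right h1
    exact Or.inr ⟨Finset.prod_eq_zero hk h2, k, hk, h2⟩

private theorem X2_union {X : Type} (f : X → ℂ) (hf : ∀ x, f x = 0 ∨ f x = 1) (τ : ℤ → X → X) (K L : Finset ℤ) (x : X) :
    pk f τ K x * (starRingEnd ℂ) (pk f τ L x) = pk f τ (K ∪ L) x := by
  rcases X2_ind f hf τ K x with ⟨h1, h2⟩ | ⟨h1, k, hk, h2⟩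
  · rcases X2_ind f hf τ L x with ⟨h3, h4⟩ | ⟨h3, k, hk, h4⟩
    · have h5 : pk f τ (K ∪ L) x = 1 := by
        refine Finset.prod_eq_one fun k hk => ?_
        rcases Finset.mem_union.1 hk with h | h
        · exact h2 k h
        · exact h4 k h
      rw [h1, h3, h5, map_one, mul_one]
    · have h5 : pk f τ (K ∪ L) x = 0 := Finset.prod_eq_zero (Finset.mem_union_right K hk) h4
      rw [h3, h5, map_zero, mul_zero]
  · have h5 : pk f τ (K ∪ L) x = 0 := Finset.prod_eq_zero (Finset.mem_union_left L hk) h2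
    rw [h1, h5, zero_mul]

private theorem X2_shift {X : Type} [MeasurableSpace X] (μ : Measure X) (τ : ℤ → X → X) (hτ : Sys μ τ) (f : X → ℂ)
    (K : Finset ℤ) (p : ℤ) (x : X) : pk f τ K (τ p x) = pk f τ (K.image (fun k => k + p)) x := by
  unfold pk
  rw [Finset.prod_image (fun a _ b _ h => add_right_cancel h)]
  exact Finset.prod_congr rfl fun k _ => by rw [hτ.add]

private theorem X2_mul {X : Type} [MeasurableSpace X] (μ : Measure X) (τ : ℤ → X → X) (hτ : Sys μ τ) (f : X → ℂ)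
    (hf : ∀ x, f x = 0 ∨ f x = 1) (m : ℕ) (F G : X → ℂ) (hF : F ∈ Fm f τ m) (hG : G ∈ Fm f τ m) (p q : ℤ) :
    (fun x => F (τ p x) * (starRingEnd ℂ) (G (τ q x))) ∈ Fm f τ (2 * m) := by
  refine Submodule.span_induction (p := fun F _ => (fun x => F (τ p x) * (starRingEnd ℂ) (G (τ q x))) ∈ Fm f τ (2 * m))
    ?_ ?_ ?_ ?_ hF
  · rintro _ ⟨K, hK, rfl⟩
    refine Submodule.span_induction (p := fun G _ => (fun x => pk f τ K (τ p x) * (starRingEnd ℂ) (G (τ q x))) ∈
      Fm f τ (2 * m)) ?_ ?_ ?_ ?_ hG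
    · rintro _ ⟨L, hL, rfl⟩
      refine Submodule.subset_span ⟨K.image (fun k => k + p) ∪ L.image (fun k => k + q), ?_, ?_⟩
      · have h1 := Finset.card_union_le (K.image (fun k => k + p)) (L.image (fun k => k + q))
        have h2 := Finset.card_image_le (s := K) (f := fun k => k + p)
        have h3 := Finset.card_image_le (s := L) (f := fun k => k + q)
        omega
      · funext x
        rw [X2_shift μ τ hτ, X2_shift μ τ hτ, X2_union f hf]
    · have h0 : (fun x => pk f τ K (τ p x) * (starRingEnd ℂ) ((0 : X → ℂ) (τ q x))) = 0 := by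
        funext x
        simp
      rw [h0]
      exact Submodule.zero_mem _
    · intro u v _ _ hu hv
      have h0 : (fun x => pk f τ K (τ p x) * (starRingEnd ℂ) ((u + v) (τ q x))) =
          (fun x => pk f τ K (τ p x) * (starRingEnd ℂ) (u (τ q x))) +
            fun x => pk f τ K (τ p x) * (starRingEnd ℂ) (v (τ q x)) := by
        funext x
        simp only [Pi.add_apply, map_add, mul_add]
      rw [h0]
      exact Submodule.add_mem _ hu hv
    · intro c u _ hu
      have h0 : (fun x => pk f τ K (τ p x) * (starRingEnd ℂ) ((c • u) (τ q x))) =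
          ((starRingEnd ℂ) c) • fun x => pk f τ K (τ p x) * (starRingEnd ℂ) (u (τ q x)) := by
        funext x
        simp only [Pi.smul_apply, smul_eq_mul, map_mul]
        ring
      rw [h0]
      exact Submodule.smul_mem _ _ hu
  · have h0 : (fun x => (0 : X → ℂ) (τ p x) * (starRingEnd ℂ) (G (τ q x))) = 0 := by
      funext x
      simp
    rw [h0]
    exact Submodule.zero_mem _
  · intro u v _ _ hu hv
    have h0 : (fun x => (u + v) (τ p x) * (starRingEnd ℂ) (G (τ q x))) =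
        (fun x => u (τ p x) * (starRingEnd ℂ) (G (τ q x))) + fun x => v (τ p x) * (starRingEnd ℂ) (G (τ q x)) := by
      funext x
      simp only [Pi.add_apply, add_mul]
    rw [h0]
    exact Submodule.add_mem _ hu hv
  · intro c u _ hu
    have h0 : (fun x => (c • u) (τ p x) * (starRingEnd ℂ) (G (τ q x))) =
        c • fun x => u (τ p x) * (starRingEnd ℂ) (G (τ q x)) := by
      funext x
      simp only [Pi.smul_apply, smul_eq_mul]
      ring
    rw [h0]
    exact Submodule.smul_mem _ _ hu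

/-- (`f * f = f` and `conj f = f`) -/
theorem fm_mul {X : Type} [MeasurableSpace X] (μ : Measure X) (τ : ℤ → X → X) (hτ : Sys μ τ) (f : X → ℂ)
    (hf : ∀ x, f x = 0 ∨ f x = 1) (m : ℕ) (F : X → ℂ) (hF : F ∈ Fm f τ m) (p q : ℤ) :
    (fun x => F (τ p x) * (starRingEnd ℂ) (F (τ q x))) ∈ Fm f τ (2 * m) := by
  refine X2_mul μ τ hτ f hf m F F hF hF p q

theorem fm_vp {X : Type} [MeasurableSpace X] (μ : Measure X) [IsProbabilityMeasure μ] (τ : ℤ → X → X)
    (hτ : Sys μ τ) (P : Measure Cir → Prop) (hP : Idl P) (f : X → ℂ) (m : ℕ)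
    (h : ∀ K : Finset ℤ, K.Nonempty → K.card ≤ m → Vp μ τ P (pk f τ K)) (F : X → ℂ) (hF : F ∈ Fm f τ m) :
    Vp μ τ P F := by
  refine Submodule.span_induction (p := fun F _ => Vp μ τ P F) ?_ ?_ ?_ ?_ hF
  · rintro _ ⟨K, hK, rfl⟩
    rcases K.eq_empty_or_nonempty with h0 | h0
    · have h1 : pk f τ K = fun _ => 1 := by
        funext x
        rw [h0]
        exact Finset.prod_empty
      rw [h1]
      exact vp_const μ τ P hP 1
    · exact h K h0 hK
  · exact vp_const μ τ P hP 0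
  · intro u v _ _ hu hv
    exact vp_add μ τ hτ P hP u v hu hv
  · intro c u _ hu
    exact vp_smul μ τ hτ P hP u hu c

/-- all `K` follow from the `K` consisting of natural numbers (translate) -/
theorem pk_nat {X : Type} [MeasurableSpace X] (μ : Measure X) [IsProbabilityMeasure μ] (τ : ℤ → X → X)
    (hτ : Sys μ τ) (P : Measure Cir → Prop) (f : X → ℂ) (m : ℕ)
    (h : ∀ K : Finset ℕ, K.Nonempty → K.card ≤ m → Vp μ τ P (fun x => ∏ k ∈ K, f (τ (k : ℤ) x)))
    (K : Finset ℤ) (hK : K.Nonempty) (hm : K.card ≤ m) : Vp μ τ P (pk f τ K) := by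
  obtain ⟨a, ha⟩ : ∃ a, a = K.min' hK := ⟨_, rfl⟩
  have hale : ∀ k ∈ K, a ≤ k := fun k hk => by rw [ha]; exact K.min'_le k hk
  have hinj : ∀ k ∈ K, ∀ l ∈ K, (k - a).toNat = (l - a).toNat → k = l := by
    intro k hk l hl h1
    have := hale k hk
    have := hale l hl
    omega
  have h1 := h (K.image (fun k => (k - a).toNat)) (hK.image _) (Finset.card_image_le.trans hm)
  have h2 := vp_shift μ τ hτ P _ h1 a
  have h3 : pk f τ K = fun x => ∏ k ∈ K.image (fun k => (k - a).toNat), f (τ (k : ℤ) (τ a x)) := by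
    funext x
    unfold pk
    rw [Finset.prod_image hinj]
    refine Finset.prod_congr rfl fun k hk => ?_
    rw [← hτ.add]
    congr 2
    have := hale k hk
    omega
  rw [h3]
  exact h2

/-! ## module X3: pairs -/

private theorem X3_const (W : ℕ → ℝ) (hW : GW W) (c : ℂ) :
    Tendsto (fun j : ℕ => E2 W j (fun _ => c)) atTop (𝓝 c) := by
  have h1 : (fun j : ℕ => E2 W j (fun _ => c)) = fun j : ℕ => c * ((R2 W j (fun _ => 1) : ℝ) : ℂ) := by
    funext j
    rw [← E2_ofReal, ← E2_smul]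
    simp
  rw [h1]
  have h2 : Tendsto (fun j : ℕ => ((R2 W j (fun _ => 1) : ℝ) : ℂ)) atTop (𝓝 ((1 : ℝ) : ℂ)) :=
    (Complex.continuous_ofReal.tendsto _).comp (mass W hW)
  have h3 := h2.const_mul c
  simpa using h3

/-- adapt `full2` -/
theorem pair2 {X : Type} [MeasurableSpace X] (μ : Measure X) [IsProbabilityMeasure μ] (τ : ℤ → X → X)
    (hτ : Sys μ τ) (W : ℕ → ℝ) (hW : GW W) (F G : X → ℂ) (hF : Bd F) (hG : Vp μ τ Tor G) (a b : ℤ) (hab : a ≠ b) :
    Tendsto (fun j : ℕ => E2 W j (fun d => ∫ x, F (τ (a * d) x) * G (τ (b * d) x) ∂μ)) atTop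
      (𝓝 ((∫ x, F x ∂μ) * ∫ x, G x ∂μ)) := by
  obtain ⟨hGb, σ, hsp, htor⟩ := hG
  have hfin := hsp.1
  have hg : Bd (fun x => G x - ∫ y, G y ∂μ) := X1_sub hGb _
  have hcalc : ∀ (G : X → ℂ), Bd G → ∀ d : ℤ, ∫ x, F (τ (a * d) x) * G (τ (b * d) x) ∂μ =
      ∫ x, F x * G (τ ((b - a) * d) x) ∂μ := by
    intro G hG d
    have h1 := S3_cv μ τ hτ (a * d) (fun x => F x * G (τ ((b - a) * d) x))
      (hF.1.mul (hG.1.comp (hτ.mp _).measurable))
    rw [← h1]
    congr 1
    funext x
    have h2 : τ ((b - a) * d) (τ (a * d) x) = τ (b * d) x := by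
      rw [← hτ.add]
      congr 1
      ring
    change _ = F (τ (a * d) x) * G (τ ((b - a) * d) (τ (a * d) x))
    rw [h2]
  have t2 : Tendsto (fun j : ℕ => E2 W j (fun d => ∫ x, F x * (G (τ ((b - a) * d) x) - ∫ y, G y ∂μ) ∂μ)) atTop
      (𝓝 0) := by
    have hset : σ {t | (b - a) • t + (0 : Cir) = 0} = 0 := by
      have hk : 0 < (b - a).natAbs := by omega
      have hfin : {t : Cir | (b - a).natAbs • t = 0}.Finite := AddCircle.finite_torsion (1 : ℝ) hk
      have hsub : {t | (b - a) • t + (0 : Cir) = 0} ⊆ ⋃ t ∈ {t : Cir | (b - a).natAbs • t = 0}, {t} := by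
        intro t ht
        have h3 : (b - a) • t = 0 := by
          have h4 : (b - a) • t + (0 : Cir) = 0 := ht
          rwa [add_zero] at h4
        refine Set.mem_biUnion (x := t) ?_ rfl
        change (b - a).natAbs • t = 0
        rcases Int.natAbs_eq (b - a) with h5 | h5
        · rw [h5] at h3
          rw [← natCast_zsmul]
          exact h3
        · rw [h5, neg_smul, neg_eq_zero] at h3
          rw [← natCast_zsmul]
          exact h3
      refine measure_mono_null hsub ((measure_biUnion_null_iff hfin.countable).2 fun t ht => ?_)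
      exact htor _ hk t ht
    rw [Metric.tendsto_nhds]
    intro ε hε
    set A : ℝ := ∫ x, ‖F x‖ ^ 2 ∂μ with hA
    have hA0 : 0 ≤ A := integral_nonneg fun x => by positivity
    have h3 := freq_pair μ τ hτ W hW _ hg σ hsp (b - a) 0 (ε ^ 2 / (2 * (A + 1))) (by positivity)
    filter_upwards [h3] with j hj
    have h4 := hj F hF
    rw [hset] at h4
    simp only [fourier_eval_zero, one_mul, ENNReal.toReal_zero, zero_add] at h4
    rw [dist_zero_right]
    have h5 : A * (ε ^ 2 / (2 * (A + 1))) < ε ^ 2 := by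
      have h6 : A * (ε ^ 2 / (2 * (A + 1))) = ε ^ 2 * (A / (2 * (A + 1))) := by ring
      rw [h6]
      have h7 : A / (2 * (A + 1)) < 1 := by
        rw [div_lt_one (by positivity)]
        linarith
      have h8 : 0 < ε ^ 2 := by positivity
      nlinarith
    exact lt_of_pow_lt_pow_left₀ 2 hε.le (lt_of_le_of_lt h4 h5)
  have t3 := X3_const W hW ((∫ x, F x ∂μ) * ∫ x, G x ∂μ)
  have t4 := t3.add t2
  rw [add_zero] at t4
  refine t4.congr fun j => ?_
  rw [← E2_add]
  congr 1
  funext d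
  rw [hcalc G hGb d, ← integral_mul_const, ← integral_add ((S3_int μ F hF).mul_const _)
    (S3_int μ _ (S3_bd_mul _ _ hF (S3_bd_comp μ τ hτ _ _ hg)))]
  refine integral_congr_ae (Eventually.of_forall fun x => ?_)
  simp only
  ring

end Pool.Agent.Sgs
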