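import Pool.Agent.Sgs.Bas
import Pool.Agent.RDf.Kern

/-!
# Averages over the blocks (text, section 1)
-/

set_option autoImplicit false

namespace Pool.Agent.Sgs

open MeasureTheory Filter Finset
open scoped Topology ENNReal

/-! ## module A0: formal rules -/

private theorem A0_den_nonneg (j : ℕ) : (0 : ℝ) ≤ 2 * j * Real.log 2 := by
  have := Real.log_nonneg (by norm_num : (1 : ℝ) ≤ 2)
  positivity

theorem R2_mono (W : ℕ → ℝ) (hW : ∀ d, 0 ≤ W d) (j : ℕ) (a b : ℤ → ℝ) (h : ∀ d, a d ≤ b d) :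
    R2 W j a ≤ R2 W j b := by
  unfold R2
  apply div_le_div_of_nonneg_right _ (A0_den_nonneg j)
  apply Finset.sum_le_sum
  intro d _
  exact mul_le_mul_of_nonneg_left (add_le_add (h _) (h _)) (hW d)

theorem R2_nonneg (W : ℕ → ℝ) (hW : ∀ d, 0 ≤ W d) (j : ℕ) (a : ℤ → ℝ) (h : ∀ d, 0 ≤ a d) :
    0 ≤ R2 W j a := by
  unfold R2
  apply div_nonneg _ (A0_den_nonneg j)
  apply Finset.sum_nonneg
  intro d _
  exact mul_nonneg (hW d) (add_nonneg (h _) (h _))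

theorem R2_add (W : ℕ → ℝ) (j : ℕ) (a b : ℤ → ℝ) :
    R2 W j (fun d => a d + b d) = R2 W j a + R2 W j b := by
  unfold R2
  rw [← add_div, ← Finset.sum_add_distrib]
  congr 1
  apply Finset.sum_congr rfl
  intro d _
  ring

theorem R2_smul (W : ℕ → ℝ) (j : ℕ) (c : ℝ) (a : ℤ → ℝ) :
    R2 W j (fun d => c * a d) = c * R2 W j a := by
  unfold R2
  rw [← mul_div_assoc, Finset.mul_sum]
  congr 1
  apply Finset.sum_congr rfl
  intro d _
  ring

theorem E2_add (W : ℕ → ℝ) (j : ℕ) (a b : ℤ → ℂ) :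
    E2 W j (fun d => a d + b d) = E2 W j a + E2 W j b := by
  unfold E2
  rw [← add_div, ← Finset.sum_add_distrib]
  congr 1
  apply Finset.sum_congr rfl
  intro d _
  ring

theorem E2_sub (W : ℕ → ℝ) (j : ℕ) (a b : ℤ → ℂ) :
    E2 W j (fun d => a d - b d) = E2 W j a - E2 W j b := by
  unfold E2
  rw [← sub_div, ← Finset.sum_sub_distrib]
  congr 1
  apply Finset.sum_congr rfl
  intro d _
  ring

theorem E2_smul (W : ℕ → ℝ) (j : ℕ) (c : ℂ) (a : ℤ → ℂ) :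
    E2 W j (fun d => c * a d) = c * E2 W j a := by
  unfold E2
  rw [← mul_div_assoc, Finset.mul_sum]
  congr 1
  apply Finset.sum_congr rfl
  intro d _
  ring

theorem E2_sum (W : ℕ → ℝ) (j : ℕ) {ι : Type} (s : Finset ι) (a : ι → ℤ → ℂ) :
    E2 W j (fun d => ∑ i ∈ s, a i d) = ∑ i ∈ s, E2 W j (a i) := by
  unfold E2
  rw [← Finset.sum_div, Finset.sum_comm]
  congr 1
  apply Finset.sum_congr rfl
  intro d _
  rw [← Finset.mul_sum, Finset.sum_add_distrib]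

theorem E2_ofReal (W : ℕ → ℝ) (j : ℕ) (a : ℤ → ℝ) : E2 W j (fun d => (a d : ℂ)) = ((R2 W j a : ℝ) : ℂ) := by
  unfold E2 R2
  push_cast
  rfl

theorem E2_re (W : ℕ → ℝ) (j : ℕ) (a : ℤ → ℂ) : (E2 W j a).re = R2 W j (fun d => (a d).re) := by
  unfold E2 R2
  rw [Complex.div_ofReal_re, Complex.re_sum]
  congr 1
  apply Finset.sum_congr rfl
  intro d _
  rw [Complex.re_ofReal_mul, Complex.add_re]

theorem E2_norm_le (W : ℕ → ℝ) (hW : ∀ d, 0 ≤ W d) (j : ℕ) (a : ℤ → ℂ) :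
    ‖E2 W j a‖ ≤ R2 W j (fun d => ‖a d‖) := by
  unfold E2 R2
  rw [norm_div, Complex.norm_real, Real.norm_eq_abs, abs_of_nonneg (A0_den_nonneg j)]
  apply div_le_div_of_nonneg_right _ (A0_den_nonneg j)
  refine (norm_sum_le _ _).trans (Finset.sum_le_sum fun d _ => ?_)
  rw [norm_mul, Complex.norm_real, Real.norm_eq_abs, abs_of_nonneg (hW d)]
  exact mul_le_mul_of_nonneg_left (norm_add_le _ _) (hW d)

/-! ## module A1: the total mass -/

private theorem A1_gw (W : ℕ → ℝ) (h : GW W) (θ : ℝ) :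
    Tendsto (fun j : ℕ => (∑ d ∈ Icc (2 ^ j) (4 ^ j), (W d - 1 / (d : ℝ)) * Real.cos (2 * Real.pi * d * θ)) / (j : ℝ))
      atTop (𝓝 0) := by
  rw [Metric.tendsto_atTop]
  intro ε hε
  obtain ⟨j0, hj0⟩ := h.2 (ε / 2) (by linarith)
  refine ⟨max j0 1, fun j hj => ?_⟩
  have h1 : 1 ≤ j := le_trans (le_max_right _ _) hj
  have h2 := hj0 j (le_trans (le_max_left _ _) hj) θ
  have h3 : (0 : ℝ) < j := by exact_mod_cast h1
  rw [dist_zero_right, Real.norm_eq_abs, abs_div, abs_of_pos h3, div_lt_iff₀ h3]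
  refine lt_of_le_of_lt h2 ?_
  nlinarith

private theorem A1_lim (W : ℕ → ℝ) (h : GW W) (θ L : ℝ)
    (hL : Tendsto (fun j : ℕ => (∑ d ∈ Icc ((2 : ℕ) ^ j) (4 ^ j), Real.cos (2 * Real.pi * d * θ) / (d : ℝ)) / (j : ℝ))
      atTop (𝓝 (L * Real.log 2))) :
    Tendsto (fun j : ℕ => (∑ d ∈ Icc (2 ^ j) (4 ^ j), W d * Real.cos (2 * Real.pi * d * θ)) / (j * Real.log 2))
      atTop (𝓝 L) := by
  have hl : Real.log 2 ≠ 0 := (Real.log_pos (by norm_num : (1 : ℝ) < 2)).ne'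
  have h1 := ((A1_gw W h θ).add hL).div_const (Real.log 2)
  have e : (0 + L * Real.log 2) / Real.log 2 = L := by
    rw [zero_add, mul_div_assoc, div_self hl, mul_one]
  rw [e] at h1
  refine h1.congr fun j => ?_
  rw [← add_div, ← Finset.sum_add_distrib, div_div]
  congr 1
  apply Finset.sum_congr rfl
  intro d _
  ring

private theorem A1_inv (C : ℝ) : Tendsto (fun j : ℕ => C / (j : ℝ)) atTop (𝓝 0) :=
  tendsto_const_div_atTop_nhds_zero_nat C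

private theorem A1_mass' (W : ℕ → ℝ) (h : GW W) :
    Tendsto (fun j : ℕ => (∑ d ∈ Icc (2 ^ j) (4 ^ j), W d * Real.cos (2 * Real.pi * d * 0)) / (j * Real.log 2))
      atTop (𝓝 1) := by
  refine A1_lim W h 0 1 ?_
  rw [one_mul, tendsto_iff_dist_tendsto_zero]
  refine squeeze_zero' (Eventually.of_forall fun j => dist_nonneg) ?_ (A1_inv 1)
  filter_upwards [eventually_ge_atTop 1] with j hj
  have h3 : (0 : ℝ) < j := by exact_mod_cast hj
  have h4 := RDf.harm (2 ^ j) (4 ^ j) Nat.one_le_two_pow (Nat.pow_le_pow_left (by norm_num) j)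
  have e1 : Real.log (((4 ^ j : ℕ) : ℝ) / ((2 ^ j : ℕ) : ℝ)) = j * Real.log 2 := by
    push_cast
    rw [← div_pow, Real.log_pow]
    norm_num
  rw [e1] at h4
  have e2 : ∑ d ∈ Icc ((2 : ℕ) ^ j) (4 ^ j), Real.cos (2 * Real.pi * d * 0) / (d : ℝ)
      = ∑ n ∈ Icc ((2 : ℕ) ^ j) (4 ^ j), 1 / (n : ℝ) := by
    apply Finset.sum_congr rfl
    intro d _
    rw [mul_zero, Real.cos_zero]
  rw [e2, Real.dist_eq]
  have e3 : (∑ n ∈ Icc ((2 : ℕ) ^ j) (4 ^ j), 1 / (n : ℝ)) / (j : ℝ) - Real.log 2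
      = (∑ n ∈ Icc ((2 : ℕ) ^ j) (4 ^ j), 1 / (n : ℝ) - j * Real.log 2) / (j : ℝ) := by
    field_simp
  rw [e3, abs_div, abs_of_pos h3]
  exact div_le_div_of_nonneg_right h4 h3.le

/-- `θ = 0` in `GW`, and `∑_{2^j ≤ d ≤ 4^j} 1/d = j log 2 + O(1)`. -/
theorem mass (W : ℕ → ℝ) (h : GW W) : Tendsto (fun j : ℕ => R2 W j (fun _ => 1)) atTop (𝓝 1) := by
  refine (A1_mass' W h).congr fun j => ?_
  unfold R2
  have e : ∑ d ∈ Icc (2 ^ j) (4 ^ j), W d * ((1 : ℝ) + 1)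
      = 2 * ∑ d ∈ Icc (2 ^ j) (4 ^ j), W d * Real.cos (2 * Real.pi * d * 0) := by
    rw [Finset.mul_sum]
    apply Finset.sum_congr rfl
    intro d _
    rw [mul_zero, Real.cos_zero]
    ring
  rw [e, mul_assoc, mul_div_mul_left _ _ two_ne_zero]

/-! ## module A2: sequences tending to zero -/

private theorem A2_le (W : ℕ → ℝ) (hW : ∀ d, 0 ≤ W d) (j : ℕ) (a : ℤ → ℂ) (b : ℝ)
    (h : ∀ d : ℕ, 2 ^ j ≤ d → ‖a (d : ℤ)‖ ≤ b ∧ ‖a (-(d : ℤ))‖ ≤ b) :
    ‖E2 W j a‖ ≤ b * R2 W j (fun _ => 1) := by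
  unfold E2 R2
  rw [norm_div, Complex.norm_real, Real.norm_eq_abs, abs_of_nonneg (A0_den_nonneg j), ← mul_div_assoc]
  apply div_le_div_of_nonneg_right _ (A0_den_nonneg j)
  rw [Finset.mul_sum]
  refine (norm_sum_le _ _).trans (Finset.sum_le_sum fun d hd => ?_)
  rw [norm_mul, Complex.norm_real, Real.norm_eq_abs, abs_of_nonneg (hW d)]
  have h1 := h d (Finset.mem_Icc.mp hd).1
  have h2 : ‖a (d : ℤ) + a (-(d : ℤ))‖ ≤ b * (1 + 1) := by
    refine (norm_add_le _ _).trans ?_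
    linarith [h1.1, h1.2]
  calc W d * ‖a (d : ℤ) + a (-(d : ℤ))‖ ≤ W d * (b * (1 + 1)) := mul_le_mul_of_nonneg_left h2 (hW d)
    _ = b * (W d * (1 + 1)) := by ring

theorem E2_null (W : ℕ → ℝ) (h : GW W) (a : ℤ → ℂ) (h1 : Tendsto (fun d : ℕ => a (d : ℤ)) atTop (𝓝 0))
    (h2 : Tendsto (fun d : ℕ => a (-(d : ℤ))) atTop (𝓝 0)) :
    Tendsto (fun j : ℕ => E2 W j a) atTop (𝓝 0) := by
  rw [Metric.tendsto_atTop]
  intro ε hε
  rw [Metric.tendsto_atTop] at h1 h2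
  obtain ⟨N1, hN1⟩ := h1 (ε / 4) (by linarith)
  obtain ⟨N2, hN2⟩ := h2 (ε / 4) (by linarith)
  have h3 := mass W h
  have h4 : ∀ᶠ j : ℕ in atTop, R2 W j (fun _ => 1) < 2 := h3.eventually_lt_const (by norm_num)
  obtain ⟨N3, hN3⟩ := eventually_atTop.mp h4
  refine ⟨max (max N1 N2) N3, fun j hj => ?_⟩
  have hj1 : N1 ≤ j := le_trans (le_trans (le_max_left _ _) (le_max_left _ _)) hj
  have hj2 : N2 ≤ j := le_trans (le_trans (le_max_right _ _) (le_max_left _ _)) hj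
  have hj3 : N3 ≤ j := le_trans (le_max_right _ _) hj
  rw [dist_zero_right]
  have h5 := A2_le W h.1 j a (ε / 4) (fun d hd => by
    have hjd : j ≤ d := le_trans (Nat.lt_two_pow_self).le hd
    have q1 := hN1 d (by omega)
    have q2 := hN2 d (by omega)
    rw [dist_zero_right] at q1 q2
    exact ⟨q1.le, q2.le⟩)
  have h6 := hN3 j hj3
  nlinarith

/-! ## module A3: frequencies -/

private theorem A3_cos (t : ℝ) (d : ℤ) :
    (fourier d (t : Cir) : ℂ) + fourier (-d) (t : Cir) = ((2 * Real.cos (2 * Real.pi * d * t) : ℝ) : ℂ) := by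
  rw [fourier_coe_apply, fourier_coe_apply]
  push_cast
  rw [Complex.cos]
  have e1 : (2 * (Real.pi : ℂ) * Complex.I * (d : ℂ) * (t : ℂ) / 1) = 2 * (Real.pi : ℂ) * d * t * Complex.I := by
    ring
  have e2 : (2 * (Real.pi : ℂ) * Complex.I * (-(d : ℂ)) * (t : ℂ) / 1) = -(2 * (Real.pi : ℂ) * d * t) * Complex.I := by
    ring
  rw [e1, e2]
  ring

private theorem A3_eq (W : ℕ → ℝ) (j : ℕ) (t : ℝ) : E2 W j (fun d => fourier d (t : Cir))
    = (((∑ d ∈ Icc (2 ^ j) (4 ^ j), W d * Real.cos (2 * Real.pi * d * t)) / (j * Real.log 2) : ℝ) : ℂ) := by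
  unfold E2
  have e : ∑ d ∈ Icc (2 ^ j) (4 ^ j), (W d : ℂ) * (fourier (d : ℤ) (t : Cir) + fourier (-(d : ℤ)) (t : Cir))
      = ((2 * ∑ d ∈ Icc (2 ^ j) (4 ^ j), W d * Real.cos (2 * Real.pi * d * t) : ℝ) : ℂ) := by
    rw [Finset.mul_sum, Complex.ofReal_sum]
    apply Finset.sum_congr rfl
    intro d _
    rw [A3_cos, ← Complex.ofReal_mul]
    congr 1
    push_cast
    ring
  rw [e, ← Complex.ofReal_div, mul_assoc 2 (j : ℝ), mul_div_mul_left _ _ two_ne_zero]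

/-- `|∑_{a ≤ d ≤ b} cos (2π d θ) / d| ≤ C(θ) / a` for `θ` not an integer (summation by parts), and `GW`.
(`RDf.Kern` contains sums of this kind.) -/
theorem freq (W : ℕ → ℝ) (h : GW W) (t : Cir) :
    Tendsto (fun j : ℕ => E2 W j (fun d => fourier d t)) atTop (𝓝 (if t = 0 then 1 else 0)) := by
  obtain ⟨x, rfl⟩ : ∃ x : ℝ, (x : Cir) = t := QuotientAddGroup.mk_surjective t
  split_ifs with h0
  · rw [h0]
    have h1 := (Complex.continuous_ofReal.tendsto 1).comp (A1_mass' W h)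
    rw [Complex.ofReal_one] at h1
    refine h1.congr fun j => ?_
    rw [Function.comp_apply, ← A3_eq W j 0]
    rfl
  · have hn : 0 < RDf.nrm x := by
      unfold RDf.nrm
      rw [abs_pos, sub_ne_zero]
      intro hx
      apply h0
      rw [AddCircle.coe_eq_zero_iff]
      exact ⟨round x, by rw [zsmul_eq_mul, mul_one]; exact hx.symm⟩
    have h1 : Tendsto (fun j : ℕ => (∑ d ∈ Icc ((2 : ℕ) ^ j) (4 ^ j), Real.cos (2 * Real.pi * d * x) / (d : ℝ)) / (j : ℝ))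
        atTop (𝓝 (0 * Real.log 2)) := by
      rw [zero_mul]
      refine squeeze_zero_norm' ?_ (A1_inv (1 / RDf.nrm x))
      filter_upwards [eventually_ge_atTop 1] with j hj
      have h3 : (0 : ℝ) < j := by exact_mod_cast hj
      rw [Real.norm_eq_abs, abs_div, abs_of_pos h3]
      apply div_le_div_of_nonneg_right _ h3.le
      refine (RDf.tail (2 ^ j) (4 ^ j) Nat.one_le_two_pow x hn).trans ?_
      apply one_div_le_one_div_of_le hn
      have : (1 : ℝ) ≤ ((2 ^ j : ℕ) : ℝ) := by exact_mod_cast Nat.one_le_two_pow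
      nlinarith
    have h2 := (Complex.continuous_ofReal.tendsto 0).comp (A1_lim W h x 0 h1)
    rw [Complex.ofReal_zero] at h2
    exact h2.congr fun j => (A3_eq W j x).symm

/-! ## module A4: Cauchy-Schwarz -/

private theorem A4_disc (P Q R : ℝ) (h : ∀ l : ℝ, 0 ≤ P * (l * l) + 2 * R * l + Q) : R ^ 2 ≤ P * Q := by
  have := discrim_le_zero (a := P) (b := 2 * R) (c := Q) (fun l => h l)
  unfold discrim at this
  nlinarith

private theorem A4_R2 (W : ℕ → ℝ) (hW : ∀ d, 0 ≤ W d) (j : ℕ) (x y : ℤ → ℝ) :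
    R2 W j (fun d => x d * y d) ^ 2 ≤ R2 W j (fun d => x d ^ 2) * R2 W j (fun d => y d ^ 2) := by
  apply A4_disc
  intro l
  have h1 := R2_nonneg W hW j (fun d => (l * x d + y d) ^ 2) (fun d => sq_nonneg _)
  have e : R2 W j (fun d => (l * x d + y d) ^ 2)
      = (l * l) * R2 W j (fun d => x d ^ 2) + (2 * l) * R2 W j (fun d => x d * y d) + R2 W j (fun d => y d ^ 2) := by
    rw [← R2_smul, ← R2_smul, ← R2_add, ← R2_add]
    congr 1
    funext d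
    ring
  rw [e] at h1
  linarith

private theorem A4_bdint {X : Type} [MeasurableSpace X] (μ : Measure X) [IsFiniteMeasure μ] (f : X → ℂ) (hf : Bd f) :
    Integrable f μ := by
  obtain ⟨C, hC⟩ := hf.2
  exact Integrable.of_bound hf.1.aestronglyMeasurable C (ae_of_all _ hC)

private theorem A4_int {X : Type} [MeasurableSpace X] (μ : Measure X) [IsFiniteMeasure μ] (K H : X → ℂ)
    (hK : Bd K) (hH : Bd H) :
    ‖∫ x, K x * H x ∂μ‖ ^ 2 ≤ (∫ x, ‖K x‖ ^ 2 ∂μ) * ∫ x, ‖H x‖ ^ 2 ∂μ := by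
  obtain ⟨A, hA⟩ := hK.2
  obtain ⟨B, hB⟩ := hH.2
  have hbd : ∀ g : X → ℝ, Measurable g → (∃ C : ℝ, ∀ x, ‖g x‖ ≤ C) → Integrable g μ := by
    intro g hg ⟨C, hC⟩
    exact Integrable.of_bound hg.aestronglyMeasurable C (ae_of_all _ hC)
  have i1 : Integrable (fun x => ‖K x‖ ^ 2) μ := by
    refine hbd _ (hK.1.norm.pow_const 2) ⟨A ^ 2, fun x => ?_⟩
    rw [Real.norm_eq_abs, abs_of_nonneg (by positivity)]
    exact pow_le_pow_left₀ (norm_nonneg _) (hA x) 2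
  have i2 : Integrable (fun x => ‖H x‖ ^ 2) μ := by
    refine hbd _ (hH.1.norm.pow_const 2) ⟨B ^ 2, fun x => ?_⟩
    rw [Real.norm_eq_abs, abs_of_nonneg (by positivity)]
    exact pow_le_pow_left₀ (norm_nonneg _) (hB x) 2
  have i3 : Integrable (fun x => ‖K x‖ * ‖H x‖) μ := by
    refine hbd _ (hK.1.norm.mul hH.1.norm) ⟨A * B, fun x => ?_⟩
    rw [Real.norm_eq_abs, abs_of_nonneg (by positivity)]
    exact mul_le_mul (hA x) (hB x) (norm_nonneg _) (le_trans (norm_nonneg _) (hA x))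
  have h1 : ‖∫ x, K x * H x ∂μ‖ ≤ ∫ x, ‖K x‖ * ‖H x‖ ∂μ := by
    refine (norm_integral_le_integral_norm _).trans (le_of_eq ?_)
    congr 1
    funext x
    rw [norm_mul]
  have h2 : (∫ x, ‖K x‖ * ‖H x‖ ∂μ) ^ 2 ≤ (∫ x, ‖K x‖ ^ 2 ∂μ) * ∫ x, ‖H x‖ ^ 2 ∂μ := by
    apply A4_disc
    intro l
    have h3 : 0 ≤ ∫ x, (l * ‖K x‖ + ‖H x‖) ^ 2 ∂μ := integral_nonneg fun x => sq_nonneg _
    have e : ∫ x, (l * ‖K x‖ + ‖H x‖) ^ 2 ∂μ
        = (l * l) * (∫ x, ‖K x‖ ^ 2 ∂μ) + (2 * l) * (∫ x, ‖K x‖ * ‖H x‖ ∂μ) + ∫ x, ‖H x‖ ^ 2 ∂μ := by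
      have i4 : Integrable (fun x => (l * l) * ‖K x‖ ^ 2 + (2 * l) * (‖K x‖ * ‖H x‖)) μ :=
        (i1.const_mul _).add (i3.const_mul _)
      rw [← integral_const_mul, ← integral_const_mul, ← integral_add (i1.const_mul _) (i3.const_mul _),
        ← integral_add i4 i2]
      congr 1
      funext x
      ring
    rw [e] at h3
    linarith
  exact (pow_le_pow_left₀ (norm_nonneg _) h1 2).trans h2

theorem cs {X : Type} [MeasurableSpace X] (μ : Measure X) [IsFiniteMeasure μ] (W : ℕ → ℝ) (hW : ∀ d, 0 ≤ W d)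
    (w : ℤ → ℝ) (hw : ∀ d, 0 ≤ w d ∧ w d ≤ 1) (K H : ℤ → X → ℂ) (hK : ∀ d, Bd (K d)) (hH : ∀ d, Bd (H d))
    (j : ℕ) :
    ‖E2 W j (fun d => (w d : ℂ) * ∫ x, K d x * H d x ∂μ)‖ ^ 2
      ≤ R2 W j (fun d => ∫ x, ‖K d x‖ ^ 2 ∂μ) * R2 W j (fun d => ∫ x, ‖H d x‖ ^ 2 ∂μ) := by
  have h1 : ‖E2 W j (fun d => (w d : ℂ) * ∫ x, K d x * H d x ∂μ)‖
      ≤ R2 W j (fun d => Real.sqrt (∫ x, ‖K d x‖ ^ 2 ∂μ) * Real.sqrt (∫ x, ‖H d x‖ ^ 2 ∂μ)) := by
    refine (E2_norm_le W hW j _).trans (R2_mono W hW j _ _ fun d => ?_)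
    rw [norm_mul, Complex.norm_real, Real.norm_eq_abs, abs_of_nonneg (hw d).1]
    have h2 : ‖∫ x, K d x * H d x ∂μ‖
        ≤ Real.sqrt (∫ x, ‖K d x‖ ^ 2 ∂μ) * Real.sqrt (∫ x, ‖H d x‖ ^ 2 ∂μ) := by
      rw [← Real.sqrt_mul (integral_nonneg fun x => by positivity)]
      exact Real.le_sqrt_of_sq_le (A4_int μ (K d) (H d) (hK d) (hH d))
    calc w d * ‖∫ x, K d x * H d x ∂μ‖ ≤ 1 * ‖∫ x, K d x * H d x ∂μ‖ :=
          mul_le_mul_of_nonneg_right (hw d).2 (norm_nonneg _)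
      _ ≤ _ := by rw [one_mul]; exact h2
  refine (pow_le_pow_left₀ (norm_nonneg _) h1 2).trans ?_
  refine (A4_R2 W hW j _ _).trans (le_of_eq ?_)
  have e1 : ∀ K : ℤ → X → ℂ, (fun d => Real.sqrt (∫ x, ‖K d x‖ ^ 2 ∂μ) ^ 2) = fun d => ∫ x, ‖K d x‖ ^ 2 ∂μ := by
    intro K
    funext d
    exact Real.sq_sqrt (integral_nonneg fun x => by positivity)
  rw [e1, e1]

/-! ## module A5: from Cesaro averages to logarithmic averages over the blocks (summation by parts) -/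

private theorem A5_harm (a b : ℕ) (ha : 1 ≤ a) (hab : a ≤ b) :
    |∑ n ∈ Icc a b, 1 / (n : ℝ) - Real.log ((b : ℝ) / a)| ≤ 1 / (a : ℝ) := by
  have ha' : (1 : ℝ) ≤ a := by exact_mod_cast ha
  have ha0 : (0 : ℝ) < a := by linarith
  have key : Real.log (((b : ℝ) + 1) / a) ≤ ∑ n ∈ Icc a b, 1 / (n : ℝ) ∧
      ∑ n ∈ Icc a b, 1 / (n : ℝ) ≤ 1 / (a : ℝ) + Real.log ((b : ℝ) / a) := by
    induction b, hab using Nat.le_induction with
    | base =>
      simp only [Icc_self, sum_singleton]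
      constructor
      · have := Real.log_le_sub_one_of_pos (x := ((a : ℝ) + 1) / a) (by positivity)
        have e : ((a : ℝ) + 1) / a - 1 = 1 / a := by field_simp; ring
        linarith
      · rw [div_self ha0.ne', Real.log_one]; simp
    | succ b hb ih =>
      have hb0 : (0 : ℝ) < b := by
        have : (a : ℝ) ≤ b := by exact_mod_cast hb
        linarith
      rw [Finset.sum_Icc_succ_top (by omega)]
      push_cast
      constructor
      · have h1 := Real.log_le_sub_one_of_pos (x := ((b : ℝ) + 1 + 1) / (b + 1)) (by positivity)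
        have e : ((b : ℝ) + 1 + 1) / (b + 1) - 1 = 1 / (b + 1) := by field_simp; ring
        have e2 : Real.log (((b : ℝ) + 1 + 1) / a)
            = Real.log (((b : ℝ) + 1) / a) + Real.log (((b : ℝ) + 1 + 1) / (b + 1)) := by
          rw [← Real.log_mul (by positivity) (by positivity)]
          congr 1; field_simp
        rw [e2]
        linarith [ih.1]
      · have h1 := Real.log_le_sub_one_of_pos (x := (b : ℝ) / (b + 1)) (by positivity)
        have e : (b : ℝ) / (b + 1) - 1 = - (1 / (b + 1)) := by field_simp; ring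
        have e2 : Real.log ((b : ℝ) / a)
            = Real.log (((b : ℝ) + 1) / a) + Real.log ((b : ℝ) / (b + 1)) := by
          rw [← Real.log_mul (by positivity) (by positivity)]
          congr 1; field_simp
        linarith [ih.2]
  have hb0 : (0 : ℝ) < b := by
    have : (a : ℝ) ≤ b := by exact_mod_cast hab
    linarith
  have h1 : Real.log ((b : ℝ) / a) ≤ Real.log (((b : ℝ) + 1) / a) := by
    apply Real.log_le_log (by positivity)
    apply div_le_div_of_nonneg_right (by linarith) ha0.le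
  have h2 : 0 ≤ 1 / (a : ℝ) := by positivity
  rw [abs_le]
  constructor <;> linarith [key.1, key.2]

private theorem A5_abel (b : ℕ → ℂ) (A : ℕ) (hA : 1 ≤ A) (ε : ℝ) (hε : 0 ≤ ε)
    (hT : ∀ N : ℕ, A ≤ N → ‖∑ d ∈ range N, b d‖ ≤ ε * N) (B : ℕ) (hB : A ≤ B) :
    ‖(∑ d ∈ Icc A B, b d / (d : ℂ)) - (∑ d ∈ range (B + 1), b d) / (B : ℂ)‖
      ≤ ε * (1 + 2 * ∑ n ∈ Icc A B, 1 / (n : ℝ)) := by
  induction B, hB using Nat.le_induction with
  | base =>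
    have hA0 : (0 : ℝ) < A := by exact_mod_cast hA
    have hAc : (A : ℂ) ≠ 0 := by
      exact_mod_cast hA0.ne'
    rw [Icc_self, sum_singleton, sum_singleton, Finset.sum_range_succ]
    have e : b A / (A : ℂ) - ((∑ d ∈ range A, b d) + b A) / (A : ℂ) = -((∑ d ∈ range A, b d) / (A : ℂ)) := by
      ring
    rw [e, norm_neg, norm_div, Complex.norm_natCast]
    have h1 := hT A le_rfl
    have h2 : ‖∑ d ∈ range A, b d‖ / (A : ℝ) ≤ ε := by
      rw [div_le_iff₀ hA0]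
      exact h1
    have h3 : (0 : ℝ) ≤ 1 / (A : ℝ) := by positivity
    nlinarith
  | succ B hB ih =>
    have hB0 : (0 : ℝ) < B := by
      have : (1 : ℝ) ≤ B := by exact_mod_cast le_trans hA hB
      linarith
    have hBc : (B : ℂ) ≠ 0 := by
      exact_mod_cast hB0.ne'
    have hBc' : ((B : ℂ) + 1) ≠ 0 := by
      have : ((B : ℝ) + 1) ≠ 0 := by positivity
      exact_mod_cast this
    rw [Finset.sum_Icc_succ_top (by omega), Finset.sum_Icc_succ_top (by omega),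
      Finset.sum_range_succ (fun d => b d) (B + 1)]
    have e : (∑ d ∈ Icc A B, b d / (d : ℂ)) + b (B + 1) / ((B + 1 : ℕ) : ℂ)
        - ((∑ d ∈ range (B + 1), b d) + b (B + 1)) / ((B + 1 : ℕ) : ℂ)
        = ((∑ d ∈ Icc A B, b d / (d : ℂ)) - (∑ d ∈ range (B + 1), b d) / (B : ℂ))
          + (∑ d ∈ range (B + 1), b d) / ((B : ℂ) * ((B : ℂ) + 1)) := by
      push_cast
      field_simp
      ring
    rw [e]
    have h1 : ‖(∑ d ∈ range (B + 1), b d) / ((B : ℂ) * ((B : ℂ) + 1))‖ ≤ ε * (1 / (B : ℝ)) := by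
      have h2 := hT (B + 1) (by omega)
      have h3 : ‖(B : ℂ) * ((B : ℂ) + 1)‖ = (B : ℝ) * ((B : ℝ) + 1) := by
        rw [norm_mul, Complex.norm_natCast]
        have : ((B : ℂ) + 1) = ((B + 1 : ℕ) : ℂ) := by push_cast; rfl
        rw [this, Complex.norm_natCast]
        push_cast
        rfl
      rw [norm_div, h3, div_le_iff₀ (by positivity)]
      push_cast at h2
      have e3 : ε * (1 / (B : ℝ)) * ((B : ℝ) * ((B : ℝ) + 1)) = ε * ((B : ℝ) + 1) := by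
        field_simp
      rw [e3]
      exact h2
    have h4 : 1 / (B : ℝ) ≤ 2 * (1 / ((B + 1 : ℕ) : ℝ)) := by
      have hB1 : (1 : ℝ) ≤ B := by exact_mod_cast le_trans hA hB
      push_cast
      rw [mul_one_div, div_le_div_iff₀ hB0 (by linarith)]
      linarith
    calc _ ≤ ε * (1 + 2 * ∑ n ∈ Icc A B, 1 / (n : ℝ)) + ε * (1 / (B : ℝ)) :=
          (norm_add_le _ _).trans (add_le_add ih h1)
      _ ≤ ε * (1 + 2 * ∑ n ∈ Icc A B, 1 / (n : ℝ)) + ε * (2 * (1 / ((B + 1 : ℕ) : ℝ))) := by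
          linarith [mul_le_mul_of_nonneg_left h4 hε]
      _ = _ := by ring

theorem cesaro_log (a : ℕ → ℂ) (c : ℂ)
    (h : Tendsto (fun N : ℕ => (∑ d ∈ range N, a d) / (N : ℂ)) atTop (𝓝 c)) (ε : ℝ) (hε : 0 < ε) :
    ∃ A0 : ℕ, 1 ≤ A0 ∧ ∀ A B : ℕ, A0 ≤ A → A ≤ B →
      ‖(∑ d ∈ Icc A B, a d / (d : ℂ)) - c * ((Real.log ((B : ℝ) / A) : ℝ) : ℂ)‖
        ≤ ε * (1 + Real.log ((B : ℝ) / A)) := by
  set ε' : ℝ := ε / 10 with hε'
  have hε'0 : 0 < ε' := by positivity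
  rw [Metric.tendsto_atTop] at h
  obtain ⟨N1, hN1⟩ := h ε' hε'0
  obtain ⟨N2, hN2⟩ := exists_nat_gt (2 * ‖c‖ / ε)
  refine ⟨max (max N1 N2) 1, le_max_right _ _, fun A B hA hAB => ?_⟩
  have hA1 : N1 ≤ A := le_trans (le_trans (le_max_left _ _) (le_max_left _ _)) hA
  have hA2 : N2 ≤ A := le_trans (le_trans (le_max_right _ _) (le_max_left _ _)) hA
  have hA3 : 1 ≤ A := le_trans (le_max_right _ _) hA
  have hA0 : (0 : ℝ) < A := by exact_mod_cast hA3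
  have hAr : (1 : ℝ) ≤ A := by exact_mod_cast hA3
  have hBr : (1 : ℝ) ≤ B := by exact_mod_cast le_trans hA3 hAB
  have hB0 : (0 : ℝ) < B := by linarith
  have hABr : (A : ℝ) ≤ B := by exact_mod_cast hAB
  have hT : ∀ N : ℕ, A ≤ N → ‖∑ d ∈ range N, (a d - c)‖ ≤ ε' * N := by
    intro N hN
    have h1 := hN1 N (le_trans hA1 hN)
    have hN0 : (0 : ℝ) < N := by
      have : (1 : ℝ) ≤ N := by exact_mod_cast le_trans hA3 hN
      linarith
    have hNc : (N : ℂ) ≠ 0 := by exact_mod_cast hN0.ne'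
    have e : ∑ d ∈ range N, (a d - c) = ((∑ d ∈ range N, a d) / (N : ℂ) - c) * (N : ℂ) := by
      rw [Finset.sum_sub_distrib, Finset.sum_const, card_range, nsmul_eq_mul]
      field_simp
    rw [e, norm_mul, Complex.norm_natCast]
    rw [dist_eq_norm] at h1
    exact mul_le_mul_of_nonneg_right h1.le hN0.le
  have h1 := A5_abel (fun d => a d - c) A hA3 ε' hε'0.le hT B hAB
  have h2 : ‖(∑ d ∈ range (B + 1), (a d - c)) / (B : ℂ)‖ ≤ 2 * ε' := by
    rw [norm_div, Complex.norm_natCast, div_le_iff₀ hB0]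
    refine (hT (B + 1) (by omega)).trans ?_
    push_cast
    nlinarith
  have h3 := A5_harm A B hA3 hAB
  have hlog : 0 ≤ Real.log ((B : ℝ) / A) := Real.log_nonneg (by rw [le_div_iff₀ hA0]; linarith)
  have hA1' : 1 / (A : ℝ) ≤ 1 := by rw [div_le_one hA0]; exact hAr
  have h4 : ‖∑ d ∈ Icc A B, (a d - c) / (d : ℂ)‖ ≤ 5 * ε' * (1 + Real.log ((B : ℝ) / A)) := by
    have h5 : ∑ n ∈ Icc A B, 1 / (n : ℝ) ≤ 1 + Real.log ((B : ℝ) / A) := by
      have := (abs_le.mp h3).2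
      linarith
    have h6 : ‖∑ d ∈ Icc A B, (a d - c) / (d : ℂ)‖
        ≤ ‖(∑ d ∈ Icc A B, (a d - c) / (d : ℂ)) - (∑ d ∈ range (B + 1), (a d - c)) / (B : ℂ)‖
          + ‖(∑ d ∈ range (B + 1), (a d - c)) / (B : ℂ)‖ := by
      have := norm_add_le ((∑ d ∈ Icc A B, (a d - c) / (d : ℂ)) - (∑ d ∈ range (B + 1), (a d - c)) / (B : ℂ))
        ((∑ d ∈ range (B + 1), (a d - c)) / (B : ℂ))
      rwa [sub_add_cancel] at this
    nlinarith
  have h7 : ‖c‖ * |∑ n ∈ Icc A B, 1 / (n : ℝ) - Real.log ((B : ℝ) / A)| ≤ ε / 2 := by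
    have h8 : 2 * ‖c‖ / ε < A := lt_of_lt_of_le hN2 (by exact_mod_cast hA2)
    rw [div_lt_iff₀ hε] at h8
    calc ‖c‖ * |∑ n ∈ Icc A B, 1 / (n : ℝ) - Real.log ((B : ℝ) / A)| ≤ ‖c‖ * (1 / (A : ℝ)) :=
          mul_le_mul_of_nonneg_left h3 (norm_nonneg _)
      _ ≤ ε / 2 := by
          rw [mul_one_div, div_le_iff₀ hA0]
          nlinarith
  have e : (∑ d ∈ Icc A B, a d / (d : ℂ)) - c * ((Real.log ((B : ℝ) / A) : ℝ) : ℂ)
      = (∑ d ∈ Icc A B, (a d - c) / (d : ℂ))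
        + c * (((∑ n ∈ Icc A B, 1 / (n : ℝ) - Real.log ((B : ℝ) / A) : ℝ)) : ℂ) := by
    push_cast
    have e1 : ∑ d ∈ Icc A B, (a d - c) / (d : ℂ) = (∑ d ∈ Icc A B, a d / (d : ℂ)) - c * ∑ d ∈ Icc A B, 1 / (d : ℂ) := by
      rw [Finset.mul_sum, ← Finset.sum_sub_distrib]
      apply Finset.sum_congr rfl
      intro d _
      ring
    rw [e1]
    ring
  rw [e]
  refine (norm_add_le _ _).trans ?_
  rw [norm_mul, Complex.norm_real, Real.norm_eq_abs]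
  have h9 : 5 * ε' = ε / 2 := by rw [hε']; ring
  rw [h9] at h4
  nlinarith

theorem blocklog (a : ℕ → ℂ) (B : ℝ) (hB : ∀ d, ‖a d‖ ≤ B) (c : ℂ)
    (h : Tendsto (fun N : ℕ => (∑ d ∈ range N, a d) / (N : ℂ)) atTop (𝓝 c)) :
    Tendsto (fun j : ℕ => (∑ d ∈ Icc (2 ^ j) (4 ^ j), a d / (d : ℂ)) / ((j * Real.log 2 : ℝ) : ℂ)) atTop (𝓝 c) := by
  rw [Metric.tendsto_atTop]
  intro ε hε
  obtain ⟨A0, hA0, hA⟩ := cesaro_log a c h (ε / 4) (by linarith)
  have hl : 0 < Real.log 2 := Real.log_pos (by norm_num)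
  obtain ⟨N, hN⟩ := exists_nat_gt (1 / Real.log 2)
  refine ⟨max (max A0 N) 1, fun j hj => ?_⟩
  have hj1 : A0 ≤ j := le_trans (le_trans (le_max_left _ _) (le_max_left _ _)) hj
  have hj2 : N ≤ j := le_trans (le_trans (le_max_right _ _) (le_max_left _ _)) hj
  have hj3 : 1 ≤ j := le_trans (le_max_right _ _) hj
  have hj0 : (0 : ℝ) < j := by exact_mod_cast hj3
  have hjl : (0 : ℝ) < j * Real.log 2 := by positivity
  have h1 := hA (2 ^ j) (4 ^ j) (le_trans hj1 (Nat.lt_two_pow_self).le) (Nat.pow_le_pow_left (by norm_num) j)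
  have e1 : Real.log (((4 ^ j : ℕ) : ℝ) / ((2 ^ j : ℕ) : ℝ)) = j * Real.log 2 := by
    push_cast
    rw [← div_pow, Real.log_pow]
    norm_num
  rw [e1] at h1
  have h2 : 1 < j * Real.log 2 := by
    have h3 : 1 / Real.log 2 < j := lt_of_lt_of_le hN (by exact_mod_cast hj2)
    rwa [div_lt_iff₀ hl] at h3
  have hjc : ((j * Real.log 2 : ℝ) : ℂ) ≠ 0 := by
    exact_mod_cast hjl.ne'
  rw [dist_eq_norm]
  have e2 : (∑ d ∈ Icc (2 ^ j) (4 ^ j), a d / (d : ℂ)) / ((j * Real.log 2 : ℝ) : ℂ) - c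
      = ((∑ d ∈ Icc (2 ^ j) (4 ^ j), a d / (d : ℂ)) - c * ((j * Real.log 2 : ℝ) : ℂ)) / ((j * Real.log 2 : ℝ) : ℂ) := by
    rw [sub_div, mul_div_assoc, div_self hjc, mul_one]
  rw [e2, norm_div, Complex.norm_real, Real.norm_eq_abs, abs_of_pos hjl, div_lt_iff₀ hjl]
  refine lt_of_le_of_lt h1 ?_
  nlinarith

/-! ## module A6: the bound of von Neumann type (text, 1.1 (i)) -/

private noncomputable def A6_z (M : ℕ) (n : ℤ) : ℂ := Complex.exp (2 * Real.pi * Complex.I * n / M)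

private theorem A6_z_add (M : ℕ) (m n : ℤ) : A6_z M (m + n) = A6_z M m * A6_z M n := by
  unfold A6_z
  rw [← Complex.exp_add]
  congr 1
  push_cast
  ring

private theorem A6_z_conj (M : ℕ) (n : ℤ) : (starRingEnd ℂ) (A6_z M n) = A6_z M (-n) := by
  unfold A6_z
  rw [← Complex.exp_conj]
  congr 1
  simp only [map_div₀, map_mul, Complex.conj_I, Complex.conj_ofReal, map_ofNat, map_natCast, map_intCast]
  push_cast
  ring

private theorem A6_z_cos (M : ℕ) (d : ℕ) (k : ℕ) :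
    ((2 * Real.cos (2 * Real.pi * d * ((k : ℝ) / (M : ℝ))) : ℝ) : ℂ)
      = A6_z M ((k : ℤ) * (d : ℤ)) + A6_z M ((k : ℤ) * (-(d : ℤ))) := by
  unfold A6_z
  push_cast
  rw [Complex.cos]
  have e1 : (2 * (Real.pi : ℂ) * Complex.I * ((k : ℂ) * (d : ℂ)) / (M : ℂ))
      = 2 * (Real.pi : ℂ) * d * ((k : ℂ) / (M : ℂ)) * Complex.I := by
    ring
  have e2 : (2 * (Real.pi : ℂ) * Complex.I * ((k : ℂ) * -(d : ℂ)) / (M : ℂ))
      = -(2 * (Real.pi : ℂ) * d * ((k : ℂ) / (M : ℂ))) * Complex.I := by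
    ring
  rw [e1, e2]
  ring

private theorem A6_ind (M : ℕ) (n : ℤ) (h : |n| < (M : ℤ)) :
    ∑ k ∈ range M, A6_z M ((k : ℤ) * n) = if n = 0 then (M : ℂ) else 0 := by
  have hM : 0 < M := by
    have := abs_nonneg n
    omega
  have hMc : (M : ℂ) ≠ 0 := by exact_mod_cast hM.ne'
  have e : ∀ k ∈ range M, A6_z M ((k : ℤ) * n) = A6_z M n ^ k := by
    intro k _
    unfold A6_z
    rw [← Complex.exp_nat_mul]
    congr 1
    push_cast
    ring
  rw [Finset.sum_congr rfl e]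
  split_ifs with h0
  · subst h0
    have : A6_z M 0 = 1 := by
      unfold A6_z
      simp
    rw [this]
    simp
  · have h1 : A6_z M n ≠ 1 := by
      intro h2
      unfold A6_z at h2
      rw [Complex.exp_eq_one_iff] at h2
      obtain ⟨m, hm⟩ := h2
      have h3 : (n : ℂ) = m * M := by
        have hpi : (2 * (Real.pi : ℂ) * Complex.I) ≠ 0 := Complex.two_pi_I_ne_zero
        rw [div_eq_iff hMc] at hm
        have h4 : (2 * (Real.pi : ℂ) * Complex.I) * (n : ℂ) = (2 * (Real.pi : ℂ) * Complex.I) * (m * M) := by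
          rw [hm]; ring
        exact mul_left_cancel₀ hpi h4
      have h5 : n = m * M := by exact_mod_cast h3
      rw [h5] at h h0
      rw [abs_mul, Nat.abs_cast] at h
      have h6 : m ≠ 0 := by
        rintro rfl
        simp at h0
      have h7 : 1 ≤ |m| := Int.one_le_abs h6
      nlinarith
    have h2 : A6_z M n ^ M = 1 := by
      unfold A6_z
      rw [← Complex.exp_nat_mul, mul_div_cancel₀ _ hMc, Complex.exp_eq_one_iff]
      exact ⟨n, by ring⟩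
    have h3 := geom_sum_mul (A6_z M n) M
    rw [h2, sub_self] at h3
    exact (mul_eq_zero.mp h3).resolve_right (sub_ne_zero.mpr h1)

private theorem A6_pars (M N : ℕ) (hNM : N ≤ M) (s : ℤ) (hs : s = 1 ∨ s = -1) (f : ℕ → ℂ) :
    ∑ k ∈ range M, ‖∑ y ∈ range N, f y * A6_z M ((k : ℤ) * (s * (y : ℤ)))‖ ^ 2
      = M * ∑ y ∈ range N, ‖f y‖ ^ 2 := by
  apply Complex.ofReal_injective
  push_cast
  have e1 : ∀ k ∈ range M, (‖∑ y ∈ range N, f y * A6_z M ((k : ℤ) * (s * (y : ℤ)))‖ : ℂ) ^ 2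
      = ∑ y ∈ range N, ∑ y' ∈ range N, (f y * (starRingEnd ℂ) (f y')) * A6_z M ((k : ℤ) * (s * ((y : ℤ) - (y' : ℤ)))) := by
    intro k _
    rw [← Complex.mul_conj', map_sum, Finset.sum_mul_sum]
    apply Finset.sum_congr rfl
    intro y _
    apply Finset.sum_congr rfl
    intro y' _
    rw [map_mul, A6_z_conj]
    have e2 : (k : ℤ) * (s * ((y : ℤ) - (y' : ℤ))) = (k : ℤ) * (s * (y : ℤ)) + -((k : ℤ) * (s * (y' : ℤ))) := by ring
    rw [e2, A6_z_add]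
    ring
  rw [Finset.sum_congr rfl e1, Finset.sum_comm, Finset.mul_sum]
  apply Finset.sum_congr rfl
  intro y hy
  rw [Finset.sum_comm]
  have e3 : ∀ y' ∈ range N, ∑ k ∈ range M, (f y * (starRingEnd ℂ) (f y')) * A6_z M ((k : ℤ) * (s * ((y : ℤ) - (y' : ℤ))))
      = if y = y' then (M : ℂ) * (f y * (starRingEnd ℂ) (f y')) else 0 := by
    intro y' hy'
    rw [← Finset.mul_sum, A6_ind]
    · have h0 : (s * ((y : ℤ) - (y' : ℤ)) = 0) ↔ y = y' := by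
        rcases hs with rfl | rfl <;> omega
      by_cases h : y = y'
      · rw [if_pos (h0.mpr h), if_pos h]
        ring
      · rw [if_neg (fun q => h (h0.mp q)), if_neg h, mul_zero]
    · rw [Finset.mem_range] at hy hy'
      rw [abs_lt]
      rcases hs with rfl | rfl <;> omega
  rw [Finset.sum_congr rfl e3, Finset.sum_ite_eq, if_pos hy, Complex.mul_conj']

private theorem A6_toep (s : Finset ℕ) (c : ℕ → ℝ) (ε : ℝ)
    (h : ∀ θ : ℝ, |∑ d ∈ s, c d * Real.cos (2 * Real.pi * d * θ)| ≤ ε) (N : ℕ) (f g : ℕ → ℂ) (l : ℝ)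
    (hl : 0 ≤ l) :
    l * ‖∑ y ∈ range N, ∑ z ∈ range N,
      ((∑ d ∈ s, (c d : ℂ) * ((if z = y + d then 1 else 0) + (if y = z + d then 1 else 0))) * (f y * g z))‖
      ≤ ε * (l ^ 2 * ∑ y ∈ range N, ‖f y‖ ^ 2 + ∑ z ∈ range N, ‖g z‖ ^ 2) := by
  obtain ⟨M, hM, hMd⟩ : ∃ M : ℕ, N < M ∧ ∀ d ∈ s, N + d < M := by
    refine ⟨N + s.sup id + 1, by omega, fun d hd => ?_⟩
    have : d ≤ s.sup id := Finset.le_sup (f := id) hd
    omega
  have hM0 : (0 : ℝ) < M := by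
    have : 0 < M := by omega
    exact_mod_cast this
  set p : ℕ → ℝ := fun k => ∑ d ∈ s, c d * Real.cos (2 * Real.pi * d * ((k : ℝ) / (M : ℝ))) with hp
  set Fh : ℕ → ℂ := fun k => ∑ y ∈ range N, f y * A6_z M ((k : ℤ) * ((-1) * (y : ℤ))) with hFh
  set Gh : ℕ → ℂ := fun k => ∑ z ∈ range N, g z * A6_z M ((k : ℤ) * (1 * (z : ℤ))) with hGh
  have key : ∀ y ∈ range N, ∀ z ∈ range N,
      (M : ℂ) * (∑ d ∈ s, (c d : ℂ) * ((if z = y + d then 1 else 0) + (if y = z + d then 1 else 0)))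
        = ∑ k ∈ range M, ((2 * p k : ℝ) : ℂ) * (A6_z M ((k : ℤ) * ((-1) * (y : ℤ))) * A6_z M ((k : ℤ) * (1 * (z : ℤ)))) := by
    intro y hy z hz
    rw [Finset.mem_range] at hy hz
    have e1 : ∀ k ∈ range M, ((2 * p k : ℝ) : ℂ) * (A6_z M ((k : ℤ) * ((-1) * (y : ℤ))) * A6_z M ((k : ℤ) * (1 * (z : ℤ))))
        = ∑ d ∈ s, (c d : ℂ) * (A6_z M ((k : ℤ) * ((z : ℤ) - y + d)) + A6_z M ((k : ℤ) * ((z : ℤ) - y - d))) := by
      intro k _
      have e2 : ((2 * p k : ℝ) : ℂ) = ∑ d ∈ s, (c d : ℂ) * (A6_z M ((k : ℤ) * (d : ℤ)) + A6_z M ((k : ℤ) * (-(d : ℤ)))) := by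
        rw [hp, Finset.mul_sum, Complex.ofReal_sum]
        apply Finset.sum_congr rfl
        intro d _
        rw [← A6_z_cos]
        push_cast
        ring
      rw [e2, Finset.sum_mul]
      apply Finset.sum_congr rfl
      intro d _
      have e3 : (k : ℤ) * ((z : ℤ) - y + d) = (k : ℤ) * (d : ℤ) + ((k : ℤ) * ((-1) * (y : ℤ)) + (k : ℤ) * (1 * (z : ℤ))) := by ring
      have e4 : (k : ℤ) * ((z : ℤ) - y - d) = (k : ℤ) * (-(d : ℤ)) + ((k : ℤ) * ((-1) * (y : ℤ)) + (k : ℤ) * (1 * (z : ℤ))) := by ring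
      rw [e3, e4, A6_z_add M ((k : ℤ) * (d : ℤ)), A6_z_add M ((k : ℤ) * (-(d : ℤ))), A6_z_add M ((k : ℤ) * ((-1) * (y : ℤ)))]
      ring
    rw [Finset.sum_congr rfl e1, Finset.sum_comm, Finset.mul_sum]
    apply Finset.sum_congr rfl
    intro d hd
    have hd' := hMd d hd
    rw [← Finset.mul_sum, Finset.sum_add_distrib, A6_ind, A6_ind]
    · have h1 : ((z : ℤ) - y + d = 0) ↔ y = z + d := by omega
      have h2 : ((z : ℤ) - y - d = 0) ↔ z = y + d := by omega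
      simp only [h1, h2]
      split_ifs <;> ring
    · rw [abs_lt]; omega
    · rw [abs_lt]; omega
  have hQ : (M : ℂ) * ∑ y ∈ range N, ∑ z ∈ range N,
      ((∑ d ∈ s, (c d : ℂ) * ((if z = y + d then 1 else 0) + (if y = z + d then 1 else 0))) * (f y * g z))
      = ∑ k ∈ range M, ((2 * p k : ℝ) : ℂ) * (Fh k * Gh k) := by
    have e1 : ∀ k ∈ range M, ((2 * p k : ℝ) : ℂ) * (Fh k * Gh k) = ∑ y ∈ range N, ∑ z ∈ range N,
        (((2 * p k : ℝ) : ℂ) * (A6_z M ((k : ℤ) * ((-1) * (y : ℤ))) * A6_z M ((k : ℤ) * (1 * (z : ℤ))))) * (f y * g z) := by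
      intro k _
      rw [hFh, hGh, Finset.sum_mul_sum, Finset.mul_sum]
      apply Finset.sum_congr rfl
      intro y _
      rw [Finset.mul_sum]
      apply Finset.sum_congr rfl
      intro z _
      ring
    rw [Finset.sum_congr rfl e1, Finset.sum_comm (s := range M) (t := range N), Finset.mul_sum]
    apply Finset.sum_congr rfl
    intro y hy
    rw [Finset.sum_comm (s := range M) (t := range N), Finset.mul_sum]
    apply Finset.sum_congr rfl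
    intro z hz
    rw [← Finset.sum_mul, ← key y hy z hz]
    ring
  have h1 : (M : ℝ) * ‖∑ y ∈ range N, ∑ z ∈ range N,
      ((∑ d ∈ s, (c d : ℂ) * ((if z = y + d then 1 else 0) + (if y = z + d then 1 else 0))) * (f y * g z))‖
      ≤ ∑ k ∈ range M, 2 * ε * (‖Fh k‖ * ‖Gh k‖) := by
    have e1 : (M : ℝ) * ‖∑ y ∈ range N, ∑ z ∈ range N,
      ((∑ d ∈ s, (c d : ℂ) * ((if z = y + d then 1 else 0) + (if y = z + d then 1 else 0))) * (f y * g z))‖
      = ‖(M : ℂ) * ∑ y ∈ range N, ∑ z ∈ range N,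
      ((∑ d ∈ s, (c d : ℂ) * ((if z = y + d then 1 else 0) + (if y = z + d then 1 else 0))) * (f y * g z))‖ := by
      rw [norm_mul, Complex.norm_natCast]
    rw [e1, hQ]
    refine (norm_sum_le _ _).trans (Finset.sum_le_sum fun k _ => ?_)
    rw [norm_mul, norm_mul, Complex.norm_real, Real.norm_eq_abs, abs_mul, abs_two]
    exact mul_le_mul_of_nonneg_right (mul_le_mul_of_nonneg_left (h _) (by norm_num)) (by positivity)
  have hε : 0 ≤ ε := le_trans (abs_nonneg _) (h 0)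
  have h2 : l * ∑ k ∈ range M, 2 * ε * (‖Fh k‖ * ‖Gh k‖) ≤ ∑ k ∈ range M, ε * (l ^ 2 * ‖Fh k‖ ^ 2 + ‖Gh k‖ ^ 2) := by
    rw [Finset.mul_sum]
    refine Finset.sum_le_sum fun k _ => ?_
    nlinarith [mul_nonneg hε (sq_nonneg (l * ‖Fh k‖ - ‖Gh k‖))]
  have h3 : ∑ k ∈ range M, ε * (l ^ 2 * ‖Fh k‖ ^ 2 + ‖Gh k‖ ^ 2)
      = M * (ε * (l ^ 2 * ∑ y ∈ range N, ‖f y‖ ^ 2 + ∑ z ∈ range N, ‖g z‖ ^ 2)) := by
    rw [← Finset.mul_sum, Finset.sum_add_distrib, ← Finset.mul_sum,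
      A6_pars M N hM.le (-1) (Or.inr rfl) f, A6_pars M N hM.le 1 (Or.inl rfl) g]
    ring
  have h4 := mul_le_mul_of_nonneg_left h1 hl
  have h5 : (M : ℝ) * (l * ‖∑ y ∈ range N, ∑ z ∈ range N,
      ((∑ d ∈ s, (c d : ℂ) * ((if z = y + d then 1 else 0) + (if y = z + d then 1 else 0))) * (f y * g z))‖)
      ≤ M * (ε * (l ^ 2 * ∑ y ∈ range N, ‖f y‖ ^ 2 + ∑ z ∈ range N, ‖g z‖ ^ 2)) := by
    rw [← h3]
    refine le_trans (le_of_eq ?_) (h4.trans h2)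
    ring
  exact le_of_mul_le_mul_left h5 hM0

private theorem A6_inv {X E : Type} [MeasurableSpace X] [NormedAddCommGroup E] [NormedSpace ℝ E]
    (μ : Measure X) (τ : ℤ → X → X)
    (hτ : Sys μ τ) (n : ℤ) (H : X → E) (hH : AEStronglyMeasurable H μ) : ∫ x, H (τ n x) ∂μ = ∫ x, H x ∂μ := by
  have h1 := (hτ.mp n).map_eq
  have h2 : AEStronglyMeasurable H (Measure.map (τ n) μ) := by rw [h1]; exact hH
  rw [← integral_map (hτ.mp n).measurable.aemeasurable h2, h1]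

private theorem A6_pair {X : Type} [MeasurableSpace X] (μ : Measure X) (τ : ℤ → X → X)
    (hτ : Sys μ τ) (F G : X → ℂ) (hF : Bd F) (hG : Bd G) (y z : ℤ) :
    ∫ x, F (τ y x) * G (τ z x) ∂μ = ∫ x, F x * G (τ (z - y) x) ∂μ := by
  have h1 : (fun x => F (τ y x) * G (τ z x)) = fun x => (fun u => F u * G (τ (z - y) u)) (τ y x) := by
    funext x
    have h2 := hτ.add (z - y) y x
    rw [sub_add_cancel] at h2
    simp only
    rw [← h2]
  rw [h1]
  exact A6_inv μ τ hτ y (fun u => F u * G (τ (z - y) u)) (hF.1.mul (hG.1.comp (hτ.mp _).measurable)).aestronglyMeasurable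

private theorem A6_cnt (N d : ℕ) :
    ∑ y ∈ range N, ∑ z ∈ range N, (if z = y + d then (1 : ℂ) else 0) = ((N - d : ℕ) : ℂ) := by
  have e1 : ∀ y ∈ range N, ∑ z ∈ range N, (if z = y + d then (1 : ℂ) else 0) = if y < N - d then 1 else 0 := by
    intro y _
    rw [Finset.sum_ite_eq']
    simp only [Finset.mem_range]
    have : y + d < N ↔ y < N - d := by omega
    simp only [this]
  rw [Finset.sum_congr rfl e1, Finset.sum_boole]
  congr 1
  have e2 : (range N).filter (fun y => y < N - d) = range (N - d) := by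
    ext y
    simp only [Finset.mem_filter, Finset.mem_range]
    omega
  rw [e2, card_range]

private theorem A6_lim (d : ℕ) : Tendsto (fun N : ℕ => ((N - d : ℕ) : ℂ) / (N : ℂ)) atTop (𝓝 1) := by
  have h1 : Tendsto (fun N : ℕ => (1 : ℂ) - (d : ℂ) / (N : ℂ)) atTop (𝓝 (1 - 0)) := by
    refine tendsto_const_nhds.sub ?_
    exact tendsto_const_div_atTop_nhds_zero_nat (d : ℂ)
  rw [sub_zero] at h1
  refine h1.congr' ?_
  filter_upwards [eventually_ge_atTop (d + 1)] with N hN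
  have hN0 : (N : ℂ) ≠ 0 := by
    have : N ≠ 0 := by omega
    exact_mod_cast this
  rw [Nat.cast_sub (by omega), sub_div, div_self hN0]

private theorem A6_step {X : Type} [MeasurableSpace X] (μ : Measure X) [IsFiniteMeasure μ] (τ : ℤ → X → X)
    (hτ : Sys μ τ) (s : Finset ℕ) (c : ℕ → ℝ) (ε : ℝ)
    (h : ∀ θ : ℝ, |∑ d ∈ s, c d * Real.cos (2 * Real.pi * d * θ)| ≤ ε)
    (F G : X → ℂ) (hF : Bd F) (hG : Bd G) (N : ℕ) (l : ℝ) (hl : 0 ≤ l) :
    l * ‖∑ d ∈ s, (c d : ℂ) * (((N - d : ℕ) : ℂ) * ((∫ x, F x * G (τ (d : ℤ) x) ∂μ)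
      + ∫ x, F x * G (τ (-(d : ℤ)) x) ∂μ))‖
      ≤ ε * (l ^ 2 * (N * ∫ x, ‖F x‖ ^ 2 ∂μ) + N * ∫ x, ‖G x‖ ^ 2 ∂μ) := by
  obtain ⟨A, hA⟩ := hF.2
  obtain ⟨B, hB⟩ := hG.2
  have hFm : ∀ n : ℤ, Measurable fun x => F (τ n x) := fun n => hF.1.comp (hτ.mp n).measurable
  have hGm : ∀ n : ℤ, Measurable fun x => G (τ n x) := fun n => hG.1.comp (hτ.mp n).measurable
  have hint : ∀ y z : ℤ, Integrable (fun x => F (τ y x) * G (τ z x)) μ := by
    intro y z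
    refine Integrable.of_bound ((hFm y).mul (hGm z)).aestronglyMeasurable (A * B) (ae_of_all _ fun x => ?_)
    rw [norm_mul]
    exact mul_le_mul (hA _) (hB _) (norm_nonneg _) (le_trans (norm_nonneg _) (hA (τ y x)))
  have hintF : ∀ y : ℤ, Integrable (fun x => ‖F (τ y x)‖ ^ 2) μ := by
    intro y
    refine Integrable.of_bound ((hFm y).norm.pow_const 2).aestronglyMeasurable (A ^ 2) (ae_of_all _ fun x => ?_)
    rw [Real.norm_eq_abs, abs_of_nonneg (by positivity)]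
    exact pow_le_pow_left₀ (norm_nonneg _) (hA _) 2
  have hintG : ∀ y : ℤ, Integrable (fun x => ‖G (τ y x)‖ ^ 2) μ := by
    intro y
    refine Integrable.of_bound ((hGm y).norm.pow_const 2).aestronglyMeasurable (B ^ 2) (ae_of_all _ fun x => ?_)
    rw [Real.norm_eq_abs, abs_of_nonneg (by positivity)]
    exact pow_le_pow_left₀ (norm_nonneg _) (hB _) 2
  set t : ℕ → ℕ → ℂ := fun y z =>
    ∑ d ∈ s, (c d : ℂ) * ((if z = y + d then 1 else 0) + (if y = z + d then 1 else 0)) with ht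
  have e1 : ∫ x, ∑ y ∈ range N, ∑ z ∈ range N, (t y z * (F (τ (y : ℤ) x) * G (τ (z : ℤ) x))) ∂μ
      = ∑ d ∈ s, (c d : ℂ) * (((N - d : ℕ) : ℂ) * ((∫ x, F x * G (τ (d : ℤ) x) ∂μ)
      + ∫ x, F x * G (τ (-(d : ℤ)) x) ∂μ)) := by
    rw [integral_finsetSum _ (fun (y : ℕ) _ => integrable_finsetSum _ fun (z : ℕ) _ => (hint y z).const_mul _)]
    have e2 : ∀ y ∈ range N, ∫ x, ∑ z ∈ range N, (t y z * (F (τ (y : ℤ) x) * G (τ (z : ℤ) x))) ∂μ
        = ∑ z ∈ range N, ∑ d ∈ s, (c d : ℂ) * ((if z = y + d then (1 : ℂ) else 0) * (∫ x, F x * G (τ (d : ℤ) x) ∂μ)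
          + (if y = z + d then (1 : ℂ) else 0) * ∫ x, F x * G (τ (-(d : ℤ)) x) ∂μ) := by
      intro y _
      rw [integral_finsetSum _ (fun (z : ℕ) _ => (hint y z).const_mul _)]
      apply Finset.sum_congr rfl
      intro z _
      rw [integral_const_mul, A6_pair μ τ hτ F G hF hG, ht, Finset.sum_mul]
      apply Finset.sum_congr rfl
      intro d _
      rw [mul_assoc, add_mul]
      congr 2
      · split_ifs with h1
        · have : (z : ℤ) - y = d := by omega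
          rw [this]
        · simp
      · split_ifs with h1
        · have : (z : ℤ) - y = -(d : ℤ) := by omega
          rw [this]
        · simp
    rw [Finset.sum_congr rfl e2]
    have e3 : ∀ y ∈ range N, ∑ z ∈ range N, ∑ d ∈ s, (c d : ℂ) * ((if z = y + d then (1 : ℂ) else 0) * (∫ x, F x * G (τ (d : ℤ) x) ∂μ)
          + (if y = z + d then (1 : ℂ) else 0) * ∫ x, F x * G (τ (-(d : ℤ)) x) ∂μ)
        = ∑ d ∈ s, ∑ z ∈ range N, (c d : ℂ) * ((if z = y + d then (1 : ℂ) else 0) * (∫ x, F x * G (τ (d : ℤ) x) ∂μ)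
          + (if y = z + d then (1 : ℂ) else 0) * ∫ x, F x * G (τ (-(d : ℤ)) x) ∂μ) :=
      fun y _ => Finset.sum_comm
    rw [Finset.sum_congr rfl e3, Finset.sum_comm (s := range N) (t := s)]
    apply Finset.sum_congr rfl
    intro d _
    have e4 : ∀ y ∈ range N, ∑ z ∈ range N, (c d : ℂ) * ((if z = y + d then (1 : ℂ) else 0) * (∫ x, F x * G (τ (d : ℤ) x) ∂μ)
          + (if y = z + d then (1 : ℂ) else 0) * ∫ x, F x * G (τ (-(d : ℤ)) x) ∂μ)
        = (c d : ℂ) * ((∑ z ∈ range N, if z = y + d then (1 : ℂ) else 0) * (∫ x, F x * G (τ (d : ℤ) x) ∂μ)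
          + (∑ z ∈ range N, if y = z + d then (1 : ℂ) else 0) * ∫ x, F x * G (τ (-(d : ℤ)) x) ∂μ) := by
      intro y _
      rw [← Finset.mul_sum, Finset.sum_add_distrib, Finset.sum_mul, Finset.sum_mul]
    rw [Finset.sum_congr rfl e4, ← Finset.mul_sum, Finset.sum_add_distrib, ← Finset.sum_mul, ← Finset.sum_mul,
      A6_cnt, Finset.sum_comm (s := range N) (t := range N), A6_cnt]
    ring
  rw [← e1]
  have e5 : ∫ x, ε * (l ^ 2 * ∑ y ∈ range N, ‖F (τ (y : ℤ) x)‖ ^ 2 + ∑ z ∈ range N, ‖G (τ (z : ℤ) x)‖ ^ 2) ∂μ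
      = ε * (l ^ 2 * (N * ∫ x, ‖F x‖ ^ 2 ∂μ) + N * ∫ x, ‖G x‖ ^ 2 ∂μ) := by
    have i1 : Integrable (fun x => ∑ y ∈ range N, ‖F (τ (y : ℤ) x)‖ ^ 2) μ :=
      integrable_finsetSum _ fun (y : ℕ) _ => hintF y
    have i2 : Integrable (fun x => ∑ y ∈ range N, ‖G (τ (y : ℤ) x)‖ ^ 2) μ :=
      integrable_finsetSum _ fun (y : ℕ) _ => hintG y
    rw [integral_const_mul, integral_add (i1.const_mul _) i2, integral_const_mul,
      integral_finsetSum _ (fun (y : ℕ) _ => hintF y), integral_finsetSum _ (fun (y : ℕ) _ => hintG y)]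
    have q1 : ∀ y ∈ range N, ∫ x, ‖F (τ (y : ℤ) x)‖ ^ 2 ∂μ = ∫ x, ‖F x‖ ^ 2 ∂μ := fun y _ =>
      A6_inv μ τ hτ y (fun x => ‖F x‖ ^ 2) (hF.1.norm.pow_const 2).aestronglyMeasurable
    have q2 : ∀ y ∈ range N, ∫ x, ‖G (τ (y : ℤ) x)‖ ^ 2 ∂μ = ∫ x, ‖G x‖ ^ 2 ∂μ := fun y _ =>
      A6_inv μ τ hτ y (fun x => ‖G x‖ ^ 2) (hG.1.norm.pow_const 2).aestronglyMeasurable
    rw [Finset.sum_congr rfl q1, Finset.sum_congr rfl q2, Finset.sum_const, Finset.sum_const, card_range,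
      nsmul_eq_mul, nsmul_eq_mul]
  rw [← e5]
  have i3 : Integrable (fun x => ε * (l ^ 2 * ∑ y ∈ range N, ‖F (τ (y : ℤ) x)‖ ^ 2
      + ∑ z ∈ range N, ‖G (τ (z : ℤ) x)‖ ^ 2)) μ :=
    (((integrable_finsetSum _ fun (y : ℕ) _ => hintF y).const_mul _).add
      (integrable_finsetSum _ fun (y : ℕ) _ => hintG y)).const_mul _
  have i4 : Integrable (fun x => ∑ y ∈ range N, ∑ z ∈ range N, (t y z * (F (τ (y : ℤ) x) * G (τ (z : ℤ) x)))) μ :=
    integrable_finsetSum _ fun (y : ℕ) _ => integrable_finsetSum _ fun (z : ℕ) _ => (hint y z).const_mul _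
  calc l * ‖∫ x, ∑ y ∈ range N, ∑ z ∈ range N, (t y z * (F (τ (y : ℤ) x) * G (τ (z : ℤ) x))) ∂μ‖
      ≤ l * ∫ x, ‖∑ y ∈ range N, ∑ z ∈ range N, (t y z * (F (τ (y : ℤ) x) * G (τ (z : ℤ) x)))‖ ∂μ :=
        mul_le_mul_of_nonneg_left (norm_integral_le_integral_norm _) hl
    _ = ∫ x, l * ‖∑ y ∈ range N, ∑ z ∈ range N, (t y z * (F (τ (y : ℤ) x) * G (τ (z : ℤ) x)))‖ ∂μ := by
        rw [integral_const_mul]
    _ ≤ ∫ x, ε * (l ^ 2 * ∑ y ∈ range N, ‖F (τ (y : ℤ) x)‖ ^ 2 + ∑ z ∈ range N, ‖G (τ (z : ℤ) x)‖ ^ 2) ∂μ := by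
        refine integral_mono (i4.norm.const_mul _) i3 fun x => ?_
        exact A6_toep s c ε h N (fun y => F (τ (y : ℤ) x)) (fun z => G (τ (z : ℤ) x)) l hl

/-- `(1/N) ∫₀¹ ⟨∑_{x<N} e(xt) F∘τ x, ∑_{x<N} e(xt) conj G∘τ x⟩ p(t) dt` with `p(t) = 2 ∑ c_d cos (2π d t)`. -/
theorem vn {X : Type} [MeasurableSpace X] (μ : Measure X) [IsProbabilityMeasure μ] (τ : ℤ → X → X)
    (hτ : Sys μ τ) (s : Finset ℕ) (c : ℕ → ℝ) (ε : ℝ) (hε : 0 ≤ ε)
    (h : ∀ θ : ℝ, |∑ d ∈ s, c d * Real.cos (2 * Real.pi * d * θ)| ≤ ε)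
    (F G : X → ℂ) (hF : Bd F) (hG : Bd G) :
    ‖∑ d ∈ s, (c d : ℂ) * ((∫ x, F x * G (τ (d : ℤ) x) ∂μ) + ∫ x, F x * G (τ (-(d : ℤ)) x) ∂μ)‖
      ≤ 2 * ε * Real.sqrt (∫ x, ‖F x‖ ^ 2 ∂μ) * Real.sqrt (∫ x, ‖G x‖ ^ 2 ∂μ) := by
  set P : ℝ := ∫ x, ‖F x‖ ^ 2 ∂μ with hP
  set Q : ℝ := ∫ x, ‖G x‖ ^ 2 ∂μ with hQ
  have hP0 : 0 ≤ P := integral_nonneg fun x => by positivity
  have hQ0 : 0 ≤ Q := integral_nonneg fun x => by positivity
  set S : ℂ := ∑ d ∈ s, (c d : ℂ) * ((∫ x, F x * G (τ (d : ℤ) x) ∂μ) + ∫ x, F x * G (τ (-(d : ℤ)) x) ∂μ) with hS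
  have h1 : ∀ l : ℝ, 0 ≤ l → l * ‖S‖ ≤ ε * (l ^ 2 * P + Q) := by
    intro l hl
    have h2 : Tendsto (fun N : ℕ => l * ‖∑ d ∈ s, (c d : ℂ) * ((((N - d : ℕ) : ℂ) / (N : ℂ)) *
        ((∫ x, F x * G (τ (d : ℤ) x) ∂μ) + ∫ x, F x * G (τ (-(d : ℤ)) x) ∂μ))‖) atTop
        (𝓝 (l * ‖∑ d ∈ s, (c d : ℂ) * (1 *
        ((∫ x, F x * G (τ (d : ℤ) x) ∂μ) + ∫ x, F x * G (τ (-(d : ℤ)) x) ∂μ))‖)) := by
      refine (tendsto_finsetSum _ fun d _ => ?_).norm.const_mul l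
      exact ((A6_lim d).mul_const _).const_mul _
    simp only [one_mul] at h2
    refine le_of_tendsto h2 ?_
    filter_upwards [eventually_ge_atTop 1] with N hN
    have hN0 : (0 : ℝ) < N := by exact_mod_cast hN
    have h3 := A6_step μ τ hτ s c ε h F G hF hG N l hl
    have e : ∑ d ∈ s, (c d : ℂ) * ((((N - d : ℕ) : ℂ) / (N : ℂ)) *
        ((∫ x, F x * G (τ (d : ℤ) x) ∂μ) + ∫ x, F x * G (τ (-(d : ℤ)) x) ∂μ))
        = (∑ d ∈ s, (c d : ℂ) * (((N - d : ℕ) : ℂ) *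
        ((∫ x, F x * G (τ (d : ℤ) x) ∂μ) + ∫ x, F x * G (τ (-(d : ℤ)) x) ∂μ))) / (N : ℂ) := by
      rw [Finset.sum_div]
      apply Finset.sum_congr rfl
      intro d _
      ring
    rw [e, norm_div, Complex.norm_natCast, ← mul_div_assoc, div_le_iff₀ hN0]
    refine h3.trans (le_of_eq ?_)
    ring
  have h2 : (-(‖S‖ / 2)) ^ 2 ≤ (ε * P) * (ε * Q) := by
    apply A4_disc
    intro l
    rcases le_or_gt 0 l with hl | hl
    · have := h1 l hl
      nlinarith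
    · have q1 : 0 ≤ ε * P * (l * l) := mul_nonneg (mul_nonneg hε hP0) (mul_self_nonneg l)
      have q2 : 0 ≤ ε * Q := mul_nonneg hε hQ0
      have q3 : 0 ≤ -l * ‖S‖ := mul_nonneg (by linarith) (norm_nonneg _)
      nlinarith
  have h3 : ‖S‖ ^ 2 ≤ (2 * ε * Real.sqrt P * Real.sqrt Q) ^ 2 := by
    have e : (2 * ε * Real.sqrt P * Real.sqrt Q) ^ 2 = 4 * ((ε * P) * (ε * Q)) := by
      rw [mul_pow, mul_pow, mul_pow, Real.sq_sqrt hP0, Real.sq_sqrt hQ0]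
      ring
    rw [e]
    nlinarith
  exact (pow_le_pow_iff_left₀ (norm_nonneg _) (by positivity) two_ne_zero).mp h3

/-! ## module P1: pairs, multiplier 1 -/

/-- The mean ergodic theorem, in the form in which it is used. -/
def Erg {X : Type} [MeasurableSpace X] (μ : Measure X) (τ : ℤ → X → X) : Prop :=
  ∀ F G : X → ℂ, Bd F → Bd G →
    Tendsto (fun N : ℕ => (∑ d ∈ range N, ∫ x, F x * G (τ (d : ℤ) x) ∂μ) / (N : ℂ)) atTop
      (𝓝 ((∫ x, F x ∂μ) * ∫ x, G x ∂μ))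

private theorem P1_bd_mul {X : Type} [MeasurableSpace X] {f g : X → ℂ} (hf : Bd f) (hg : Bd g) :
    Bd (fun x => f x * g x) := by
  obtain ⟨A, hA⟩ := hf.2
  obtain ⟨B, hB⟩ := hg.2
  refine ⟨hf.1.mul hg.1, A * B, fun x => ?_⟩
  rw [norm_mul]
  exact mul_le_mul (hA x) (hB x) (norm_nonneg _) (le_trans (norm_nonneg _) (hA x))

private theorem P1_bd_conj {X : Type} [MeasurableSpace X] {f : X → ℂ} (hf : Bd f) :
    Bd (fun x => (starRingEnd ℂ) (f x)) := by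
  obtain ⟨A, hA⟩ := hf.2
  refine ⟨Complex.continuous_conj.measurable.comp hf.1, A, fun x => ?_⟩
  rw [RCLike.norm_conj]
  exact hA x

private theorem P1_bd_comp {X Y : Type} [MeasurableSpace X] [MeasurableSpace Y] {f : X → ℂ} (hf : Bd f) {T : Y → X}
    (hT : Measurable T) :
    Bd (fun x => f (T x)) := by
  obtain ⟨A, hA⟩ := hf.2
  exact ⟨hf.1.comp hT, A, fun x => hA _⟩

private theorem P1_sym {X : Type} [MeasurableSpace X] (μ : Measure X) (τ : ℤ → X → X)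
    (hτ : Sys μ τ) (F G : X → ℂ) (hF : Bd F) (hG : Bd G) (d : ℤ) :
    ∫ x, F x * G (τ (-d) x) ∂μ = ∫ x, G x * F (τ d x) ∂μ := by
  have h1 := A6_pair μ τ hτ F G hF hG d 0
  rw [zero_sub] at h1
  rw [← h1]
  congr 1
  funext x
  rw [hτ.zero, mul_comm]

private theorem P1_vn {X : Type} [MeasurableSpace X] (μ : Measure X) [IsProbabilityMeasure μ] (τ : ℤ → X → X)
    (hτ : Sys μ τ) (W : ℕ → ℝ) (h : GW W) (F G : X → ℂ) (hF : Bd F) (hG : Bd G) :
    Tendsto (fun j : ℕ => (∑ d ∈ Icc (2 ^ j) (4 ^ j), ((W d - 1 / (d : ℝ) : ℝ) : ℂ)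
      * ((∫ x, F x * G (τ (d : ℤ) x) ∂μ) + ∫ x, F x * G (τ (-(d : ℤ)) x) ∂μ)) / ((2 * j * Real.log 2 : ℝ) : ℂ))
      atTop (𝓝 0) := by
  set P : ℝ := Real.sqrt (∫ x, ‖F x‖ ^ 2 ∂μ) * Real.sqrt (∫ x, ‖G x‖ ^ 2 ∂μ) with hP
  have hP0 : 0 ≤ P := by positivity
  have hl : 0 < Real.log 2 := Real.log_pos (by norm_num)
  rw [Metric.tendsto_atTop]
  intro ε hε
  obtain ⟨j0, hj0⟩ := h.2 (ε * Real.log 2 / (P + 1)) (by positivity)
  refine ⟨max j0 1, fun j hj => ?_⟩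
  have hj1 : 1 ≤ j := le_trans (le_max_right _ _) hj
  have hjr : (0 : ℝ) < j := by exact_mod_cast hj1
  have h1 := vn μ τ hτ (Icc (2 ^ j) (4 ^ j)) (fun d => W d - 1 / (d : ℝ)) (ε * Real.log 2 / (P + 1) * j)
    (by positivity) (hj0 j (le_trans (le_max_left _ _) hj)) F G hF hG
  rw [dist_zero_right, norm_div, Complex.norm_real, Real.norm_eq_abs, abs_of_pos (by positivity : (0 : ℝ) < 2 * j * Real.log 2),
    div_lt_iff₀ (by positivity)]
  refine lt_of_le_of_lt h1 ?_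
  have e : 2 * (ε * Real.log 2 / (P + 1) * j) * Real.sqrt (∫ x, ‖F x‖ ^ 2 ∂μ) * Real.sqrt (∫ x, ‖G x‖ ^ 2 ∂μ)
      = ε * (2 * j * Real.log 2) * (P / (P + 1)) := by
    rw [hP]
    field_simp
  rw [e]
  have h2 : P / (P + 1) < 1 := by
    rw [div_lt_one (by linarith)]
    linarith
  have h3 : 0 < ε * (2 * j * Real.log 2) := by positivity
  nlinarith

private theorem P1_split (W : ℕ → ℝ) (j : ℕ) (a : ℤ → ℂ) :
    E2 W j a = (∑ d ∈ Icc (2 ^ j) (4 ^ j), ((W d - 1 / (d : ℝ) : ℝ) : ℂ) * (a d + a (-(d : ℤ)))) / ((2 * j * Real.log 2 : ℝ) : ℂ)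
      + (∑ d ∈ Icc ((2 : ℕ) ^ j) (4 ^ j), (a (d : ℤ) + a (-(d : ℤ))) / (d : ℂ)) / ((2 * j * Real.log 2 : ℝ) : ℂ) := by
  unfold E2
  rw [← add_div, ← Finset.sum_add_distrib]
  congr 1
  apply Finset.sum_congr rfl
  intro d _
  push_cast
  ring

private theorem P1_int_le {X : Type} [MeasurableSpace X] (μ : Measure X) [IsProbabilityMeasure μ] (f : X → ℂ) (C : ℝ)
    (hC : ∀ x, ‖f x‖ ≤ C) : ‖∫ x, f x ∂μ‖ ≤ C := by
  have h1 := norm_integral_le_of_norm_le_const (μ := μ) (ae_of_all μ hC)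
  rwa [probReal_univ, mul_one] at h1

/-- `vn` with `c d = W d - 1/d`, `blocklog`; for `-d` exchange `F` and `G`. -/
theorem pair_erg {X : Type} [MeasurableSpace X] (μ : Measure X) [IsProbabilityMeasure μ] (τ : ℤ → X → X)
    (hτ : Sys μ τ) (he : Erg μ τ) (W : ℕ → ℝ) (h : GW W) (F G : X → ℂ) (hF : Bd F) (hG : Bd G) :
    Tendsto (fun j : ℕ => E2 W j (fun d => ∫ x, F x * G (τ d x) ∂μ)) atTop
      (𝓝 ((∫ x, F x ∂μ) * ∫ x, G x ∂μ)) := by
  obtain ⟨A, hA⟩ := hF.2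
  obtain ⟨B, hB⟩ := hG.2
  have hbd : ∀ n : ℤ, ‖∫ x, F x * G (τ n x) ∂μ‖ ≤ A * B := by
    intro n
    refine P1_int_le μ _ _ fun x => ?_
    rw [norm_mul]
    exact mul_le_mul (hA x) (hB _) (norm_nonneg _) (le_trans (norm_nonneg _) (hA x))
  have h1 := P1_vn μ τ hτ W h F G hF hG
  have h2 := blocklog (fun d : ℕ => ∫ x, F x * G (τ (d : ℤ) x) ∂μ) (A * B) (fun d => hbd _) _ (he F G hF hG)
  have h3 : Tendsto (fun N : ℕ => (∑ d ∈ range N, ∫ x, F x * G (τ (-(d : ℤ)) x) ∂μ) / (N : ℂ)) atTop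
      (𝓝 ((∫ x, F x ∂μ) * ∫ x, G x ∂μ)) := by
    have h4 := he G F hG hF
    rw [mul_comm] at h4
    refine h4.congr fun N => ?_
    congr 1
    apply Finset.sum_congr rfl
    intro d _
    exact (P1_sym μ τ hτ F G hF hG d).symm
  have h5 := blocklog (fun d : ℕ => ∫ x, F x * G (τ (-(d : ℤ)) x) ∂μ) (A * B) (fun d => hbd _) _ h3
  have h6 := h1.add ((h2.add h5).div_const 2)
  have e : (0 : ℂ) + ((∫ x, F x ∂μ) * (∫ x, G x ∂μ) + (∫ x, F x ∂μ) * ∫ x, G x ∂μ) / 2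
      = (∫ x, F x ∂μ) * ∫ x, G x ∂μ := by ring
  rw [e] at h6
  refine h6.congr fun j => ?_
  rw [P1_split]
  congr 1
  rw [← add_div, ← Finset.sum_add_distrib, div_div]
  congr 1
  · apply Finset.sum_congr rfl
    intro d _
    ring
  · push_cast
    ring

/-! ## module P2: pairs, multiplier 2 (text, 1.2) -/

private theorem P2_exp {Y : Type} [MeasurableSpace Y] (ν : Measure Y) [IsFiniteMeasure ν] {ι : Type} (s : Finset ι)
    (K : ι → Y → ℂ) (hK : ∀ i, Bd (K i)) :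
    ((∫ y, ‖∑ i ∈ s, K i y‖ ^ 2 ∂ν : ℝ) : ℂ)
      = ∑ i ∈ s, ∑ i' ∈ s, ∫ y, K i y * (starRingEnd ℂ) (K i' y) ∂ν := by
  have e0 : ((∫ y, ‖∑ i ∈ s, K i y‖ ^ 2 ∂ν : ℝ) : ℂ) = ∫ y, ((‖∑ i ∈ s, K i y‖ ^ 2 : ℝ) : ℂ) ∂ν :=
    (integral_complex_ofReal (f := fun y => ‖∑ i ∈ s, K i y‖ ^ 2)).symm
  rw [e0]
  have e1 : (fun y => ((‖∑ i ∈ s, K i y‖ ^ 2 : ℝ) : ℂ)) = fun y => ∑ i ∈ s, ∑ i' ∈ s, K i y * (starRingEnd ℂ) (K i' y) := by
    funext y
    push_cast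
    rw [← Complex.mul_conj', map_sum, Finset.sum_mul_sum]
  have hi : ∀ i i', Integrable (fun y => K i y * (starRingEnd ℂ) (K i' y)) ν := fun i i' =>
    A4_bdint ν _ (P1_bd_mul (hK i) (P1_bd_conj (hK i')))
  have e2 : ∫ y, ((‖∑ i ∈ s, K i y‖ ^ 2 : ℝ) : ℂ) ∂ν = ∫ y, ∑ i ∈ s, ∑ i' ∈ s, K i y * (starRingEnd ℂ) (K i' y) ∂ν := by
    rw [e1]
  refine e2.trans ?_
  rw [integral_finsetSum _ (fun i _ => integrable_finsetSum _ fun i' _ => hi i i')]
  apply Finset.sum_congr rfl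
  intro i _
  rw [integral_finsetSum _ (fun i' _ => hi i i')]

private theorem P2_sys {X : Type} [MeasurableSpace X] (μ : Measure X) (τ : ℤ → X → X) (hτ : Sys μ τ) :
    Sys μ (fun n => τ (2 * n)) := by
  refine ⟨fun x => ?_, fun m n x => ?_, fun n => hτ.mp _⟩
  · simp only [mul_zero]
    exact hτ.zero x
  · simp only [mul_add]
    exact hτ.add _ _ _

private theorem P2_dil (j : ℕ) (c : ℕ → ℝ) (hc : ∀ n, 0 ≤ c n) :
    ∑ d ∈ Icc ((2 : ℕ) ^ j) (4 ^ j), c (2 * d) / (d : ℝ)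
      ≤ 2 * ∑ n ∈ Icc ((2 : ℕ) ^ j) (2 * 4 ^ j), c n / (n : ℝ) := by
  have e1 : ∑ d ∈ Icc ((2 : ℕ) ^ j) (4 ^ j), c (2 * d) / (d : ℝ)
      = 2 * ∑ n ∈ (Icc ((2 : ℕ) ^ j) (4 ^ j)).image (fun d => 2 * d), c n / (n : ℝ) := by
    rw [Finset.sum_image (fun x _ y _ hxy => by simpa using hxy), Finset.mul_sum]
    apply Finset.sum_congr rfl
    intro d hd
    have hd0 : (d : ℝ) ≠ 0 := by
      have h1 : 1 ≤ d := le_trans Nat.one_le_two_pow (Finset.mem_Icc.mp hd).1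
      have : d ≠ 0 := by omega
      exact_mod_cast this
    push_cast
    field_simp
  rw [e1]
  apply mul_le_mul_of_nonneg_left _ (by norm_num)
  apply Finset.sum_le_sum_of_subset_of_nonneg
  · intro n hn
    rw [Finset.mem_image] at hn
    obtain ⟨d, hd, rfl⟩ := hn
    rw [Finset.mem_Icc] at hd ⊢
    omega
  · intro n _ _
    exact div_nonneg (hc n) (Nat.cast_nonneg n)

theorem pair_two {X : Type} [MeasurableSpace X] (μ : Measure X) [IsProbabilityMeasure μ] (τ : ℤ → X → X)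
    (hτ : Sys μ τ) (he : Erg μ τ) (W : ℕ → ℝ) (h : GW W) {ι : Type} (s : Finset ι) (F G : ι → X → ℂ)
    (hF : ∀ i, Bd (F i)) (hG : ∀ i, Bd (G i)) (ε : ℝ) (hε : 0 < ε) :
    ∀ᶠ j : ℕ in atTop, R2 W j (fun d => ∫ x, ‖∑ i ∈ s, F i x * G i (τ (2 * d) x)‖ ^ 2 ∂μ)
      ≤ 2 * (∫ z, ‖∑ i ∈ s, F i z.1 * G i z.2‖ ^ 2 ∂(μ.prod μ)) + ε := by
  set b : ℤ → ℝ := fun n => ∫ x, ‖∑ i ∈ s, F i x * G i (τ n x)‖ ^ 2 ∂μ with hb
  set L : ℝ := ∫ z, ‖∑ i ∈ s, F i z.1 * G i z.2‖ ^ 2 ∂(μ.prod μ) with hL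
  have hb0 : ∀ n, 0 ≤ b n := fun n => integral_nonneg fun x => by positivity
  have hL0 : 0 ≤ L := integral_nonneg fun x => by positivity
  set FF : ι → ι → X → ℂ := fun i i' x => F i x * (starRingEnd ℂ) (F i' x) with hFF
  set GG : ι → ι → X → ℂ := fun i i' x => G i x * (starRingEnd ℂ) (G i' x) with hGG
  have hFFb : ∀ i i', Bd (FF i i') := fun i i' => P1_bd_mul (hF i) (P1_bd_conj (hF i'))
  have hGGb : ∀ i i', Bd (GG i i') := fun i i' => P1_bd_mul (hG i) (P1_bd_conj (hG i'))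
  have hexp : ∀ n, (b n : ℂ) = ∑ i ∈ s, ∑ i' ∈ s, ∫ x, FF i i' x * GG i i' (τ n x) ∂μ := by
    intro n
    rw [hb, P2_exp μ s (fun i x => F i x * G i (τ n x))
      (fun i => P1_bd_mul (hF i) (P1_bd_comp (hG i) (hτ.mp n).measurable))]
    apply Finset.sum_congr rfl
    intro i _
    apply Finset.sum_congr rfl
    intro i' _
    congr 1
    funext x
    rw [map_mul]
    simp only [hFF, hGG]
    ring
  have hLexp : (L : ℂ) = ∑ i ∈ s, ∑ i' ∈ s, (∫ x, FF i i' x ∂μ) * ∫ x, GG i i' x ∂μ := by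
    rw [hL, P2_exp (μ.prod μ) s (fun i z => F i z.1 * G i z.2)
      (fun i => P1_bd_mul (P1_bd_comp (hF i) measurable_fst) (P1_bd_comp (hG i) measurable_snd))]
    apply Finset.sum_congr rfl
    intro i _
    apply Finset.sum_congr rfl
    intro i' _
    rw [← integral_prod_mul]
    congr 1
    funext z
    rw [map_mul]
    simp only [hFF, hGG]
    ring
  have hces1 : Tendsto (fun N : ℕ => (∑ d ∈ range N, (b (d : ℤ) : ℂ)) / (N : ℂ)) atTop (𝓝 (L : ℂ)) := by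
    rw [hLexp]
    have h1 : Tendsto (fun N : ℕ => ∑ i ∈ s, ∑ i' ∈ s, (∑ d ∈ range N, ∫ x, FF i i' x * GG i i' (τ (d : ℤ) x) ∂μ) / (N : ℂ))
        atTop (𝓝 (∑ i ∈ s, ∑ i' ∈ s, (∫ x, FF i i' x ∂μ) * ∫ x, GG i i' x ∂μ)) :=
      tendsto_finsetSum _ fun i _ => tendsto_finsetSum _ fun i' _ => he _ _ (hFFb i i') (hGGb i i')
    refine h1.congr fun N => ?_
    have e1 : ∑ d ∈ range N, (b (d : ℤ) : ℂ) = ∑ i ∈ s, ∑ i' ∈ s, ∑ d ∈ range N, ∫ x, FF i i' x * GG i i' (τ (d : ℤ) x) ∂μ := by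
      rw [Finset.sum_congr rfl (fun (d : ℕ) _ => hexp (d : ℤ)), Finset.sum_comm]
      apply Finset.sum_congr rfl
      intro i _
      rw [Finset.sum_comm]
    rw [e1, Finset.sum_div]
    apply Finset.sum_congr rfl
    intro i _
    rw [Finset.sum_div]
  have hces2 : Tendsto (fun N : ℕ => (∑ d ∈ range N, (b (-(d : ℤ)) : ℂ)) / (N : ℂ)) atTop (𝓝 (L : ℂ)) := by
    rw [hLexp]
    have h1 : Tendsto (fun N : ℕ => ∑ i ∈ s, ∑ i' ∈ s, (∑ d ∈ range N, ∫ x, FF i i' x * GG i i' (τ (-(d : ℤ)) x) ∂μ) / (N : ℂ))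
        atTop (𝓝 (∑ i ∈ s, ∑ i' ∈ s, (∫ x, FF i i' x ∂μ) * ∫ x, GG i i' x ∂μ)) := by
      refine tendsto_finsetSum _ fun i _ => tendsto_finsetSum _ fun i' _ => ?_
      have h2 := he _ _ (hGGb i i') (hFFb i i')
      rw [mul_comm] at h2
      refine h2.congr fun N => ?_
      congr 1
      apply Finset.sum_congr rfl
      intro d _
      exact (P1_sym μ τ hτ _ _ (hFFb i i') (hGGb i i') d).symm
    refine h1.congr fun N => ?_
    have e1 : ∑ d ∈ range N, (b (-(d : ℤ)) : ℂ) = ∑ i ∈ s, ∑ i' ∈ s, ∑ d ∈ range N, ∫ x, FF i i' x * GG i i' (τ (-(d : ℤ)) x) ∂μ := by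
      rw [Finset.sum_congr rfl (fun (d : ℕ) _ => hexp (-(d : ℤ))), Finset.sum_comm]
      apply Finset.sum_congr rfl
      intro i _
      rw [Finset.sum_comm]
    rw [e1, Finset.sum_div]
    apply Finset.sum_congr rfl
    intro i _
    rw [Finset.sum_div]
  obtain ⟨A1, hA1, hA1'⟩ := cesaro_log (fun d : ℕ => (b (d : ℤ) : ℂ)) (L : ℂ) hces1 (ε / 16) (by linarith)
  obtain ⟨A2, hA2, hA2'⟩ := cesaro_log (fun d : ℕ => (b (-(d : ℤ)) : ℂ)) (L : ℂ) hces2 (ε / 16) (by linarith)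
  have hl : 0 < Real.log 2 := Real.log_pos (by norm_num)
  -- the difference
  have hdiff : Tendsto (fun j : ℕ => (∑ d ∈ Icc (2 ^ j) (4 ^ j), ((W d - 1 / (d : ℝ) : ℝ) : ℂ)
      * ((b (2 * (d : ℤ)) : ℂ) + (b (2 * (-(d : ℤ))) : ℂ))) / ((2 * j * Real.log 2 : ℝ) : ℂ)) atTop (𝓝 0) := by
    have h1 : Tendsto (fun j : ℕ => ∑ i ∈ s, ∑ i' ∈ s, (∑ d ∈ Icc (2 ^ j) (4 ^ j), ((W d - 1 / (d : ℝ) : ℝ) : ℂ)
      * ((∫ x, FF i i' x * GG i i' (τ (2 * (d : ℤ)) x) ∂μ) + ∫ x, FF i i' x * GG i i' (τ (2 * (-(d : ℤ))) x) ∂μ))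
        / ((2 * j * Real.log 2 : ℝ) : ℂ)) atTop (𝓝 (∑ i ∈ s, ∑ i' ∈ s, 0)) :=
      tendsto_finsetSum _ fun i _ => tendsto_finsetSum _ fun i' _ =>
        P1_vn μ (fun n => τ (2 * n)) (P2_sys μ τ hτ) W h _ _ (hFFb i i') (hGGb i i')
    rw [Finset.sum_const_zero, Finset.sum_const_zero] at h1
    refine h1.congr fun j => ?_
    have e1 : ∑ d ∈ Icc (2 ^ j) (4 ^ j), ((W d - 1 / (d : ℝ) : ℝ) : ℂ) * ((b (2 * (d : ℤ)) : ℂ) + (b (2 * (-(d : ℤ))) : ℂ))
        = ∑ i ∈ s, ∑ i' ∈ s, ∑ d ∈ Icc (2 ^ j) (4 ^ j), ((W d - 1 / (d : ℝ) : ℝ) : ℂ)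
      * ((∫ x, FF i i' x * GG i i' (τ (2 * (d : ℤ)) x) ∂μ) + ∫ x, FF i i' x * GG i i' (τ (2 * (-(d : ℤ))) x) ∂μ) := by
      have e2 : ∀ d ∈ Icc (2 ^ j) (4 ^ j), ((W d - 1 / (d : ℝ) : ℝ) : ℂ) * ((b (2 * (d : ℤ)) : ℂ) + (b (2 * (-(d : ℤ))) : ℂ))
          = ∑ i ∈ s, ∑ i' ∈ s, ((W d - 1 / (d : ℝ) : ℝ) : ℂ)
      * ((∫ x, FF i i' x * GG i i' (τ (2 * (d : ℤ)) x) ∂μ) + ∫ x, FF i i' x * GG i i' (τ (2 * (-(d : ℤ))) x) ∂μ) := by
        intro d _
        rw [hexp, hexp, ← Finset.sum_add_distrib, Finset.mul_sum]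
        apply Finset.sum_congr rfl
        intro i _
        rw [← Finset.sum_add_distrib, Finset.mul_sum]
      rw [Finset.sum_congr rfl e2, Finset.sum_comm]
      apply Finset.sum_congr rfl
      intro i _
      rw [Finset.sum_comm]
    rw [e1, Finset.sum_div]
    apply Finset.sum_congr rfl
    intro i _
    rw [Finset.sum_div]
  have hlim : Tendsto (fun j : ℕ => (2 * L + ε / 8) * (1 + 1 / (j : ℝ)) + (ε / (8 * Real.log 2)) * (1 / (j : ℝ))) atTop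
      (𝓝 ((2 * L + ε / 8) * (1 + 0) + (ε / (8 * Real.log 2)) * 0)) := by
    have h1 : Tendsto (fun j : ℕ => 1 / (j : ℝ)) atTop (𝓝 0) := A1_inv 1
    exact ((h1.const_add 1).const_mul _).add (h1.const_mul _)
  have e0 : (2 * L + ε / 8) * (1 + 0) + (ε / (8 * Real.log 2)) * 0 = 2 * L + ε / 8 := by ring
  rw [e0] at hlim
  have hev1 := hlim.eventually_lt_const (show 2 * L + ε / 8 < 2 * L + ε / 2 by linarith)
  rw [Metric.tendsto_atTop] at hdiff
  obtain ⟨J1, hJ1⟩ := hdiff (ε / 2) (by linarith)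
  filter_upwards [hev1, eventually_ge_atTop J1, eventually_ge_atTop A1, eventually_ge_atTop A2, eventually_ge_atTop 1]
    with j hj1 hj2 hj3 hj4 hj5
  have hjr : (0 : ℝ) < j := by exact_mod_cast hj5
  have hden : (0 : ℝ) < 2 * j * Real.log 2 := by positivity
  have h1 := hJ1 j hj2
  rw [dist_zero_right] at h1
  have hjp : j ≤ 2 ^ j := (Nat.lt_two_pow_self).le
  have h24 : 2 ^ j ≤ 2 * 4 ^ j := by
    have := Nat.pow_le_pow_left (show 2 ≤ 4 by norm_num) j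
    omega
  have h2 := hA1' (2 ^ j) (2 * 4 ^ j) (le_trans hj3 hjp) h24
  have h3 := hA2' (2 ^ j) (2 * 4 ^ j) (le_trans hj4 hjp) h24
  have elog : Real.log (((2 * 4 ^ j : ℕ) : ℝ) / ((2 ^ j : ℕ) : ℝ)) = (j + 1) * Real.log 2 := by
    push_cast
    rw [mul_div_assoc, ← div_pow, Real.log_mul (by norm_num) (by positivity), Real.log_pow]
    norm_num
    ring
  rw [elog] at h2 h3
  have hup : ∀ a : ℕ → ℝ, ‖(∑ d ∈ Icc (2 ^ j) (2 * 4 ^ j), ((a d : ℝ) : ℂ) / (d : ℂ)) - (L : ℂ) * (((j + 1) * Real.log 2 : ℝ) : ℂ)‖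
      ≤ ε / 16 * (1 + (j + 1) * Real.log 2) →
      ∑ d ∈ Icc (2 ^ j) (2 * 4 ^ j), a d / (d : ℝ) ≤ L * ((j + 1) * Real.log 2) + ε / 16 * (1 + (j + 1) * Real.log 2) := by
    intro a ha
    have e1 : (∑ d ∈ Icc (2 ^ j) (2 * 4 ^ j), ((a d : ℝ) : ℂ) / (d : ℂ)) - (L : ℂ) * (((j + 1) * Real.log 2 : ℝ) : ℂ)
        = ((∑ d ∈ Icc (2 ^ j) (2 * 4 ^ j), a d / (d : ℝ) - L * ((j + 1) * Real.log 2) : ℝ) : ℂ) := by
      push_cast
      rfl
    rw [e1, Complex.norm_real, Real.norm_eq_abs] at ha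
    linarith [(abs_le.mp ha).2]
  have h2' := hup (fun d => b (d : ℤ)) h2
  have h3' := hup (fun d => b (-(d : ℤ))) h3
  have h4 := P2_dil j (fun n => b (n : ℤ) + b (-(n : ℤ))) (fun n => add_nonneg (hb0 _) (hb0 _))
  have h5 : ∑ n ∈ Icc ((2 : ℕ) ^ j) (2 * 4 ^ j), (b (n : ℤ) + b (-(n : ℤ))) / (n : ℝ)
      = (∑ n ∈ Icc ((2 : ℕ) ^ j) (2 * 4 ^ j), b (n : ℤ) / (n : ℝ)) + ∑ n ∈ Icc ((2 : ℕ) ^ j) (2 * 4 ^ j), b (-(n : ℤ)) / (n : ℝ) := by
    rw [← Finset.sum_add_distrib]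
    apply Finset.sum_congr rfl
    intro n _
    rw [add_div]
  have h6 : R2 W j (fun d => b (2 * d)) = (E2 W j (fun d => ((b (2 * d) : ℝ) : ℂ))).re := by
    rw [E2_re]
    rfl
  have h7 : R2 W j (fun d => b (2 * d)) ≤ ε / 2
      + (∑ d ∈ Icc ((2 : ℕ) ^ j) (4 ^ j), (b (((2 * d : ℕ)) : ℤ) + b (-(((2 * d : ℕ)) : ℤ))) / (d : ℝ)) / (2 * j * Real.log 2) := by
    rw [h6, P1_split, Complex.add_re]
    apply add_le_add
    · exact (Complex.re_le_norm _).trans h1.le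
    · apply le_of_eq
      have e1 : (∑ d ∈ Icc ((2 : ℕ) ^ j) (4 ^ j), (((b (2 * (d : ℤ)) : ℝ) : ℂ) + ((b (2 * (-(d : ℤ))) : ℝ) : ℂ)) / (d : ℂ))
          = ((∑ d ∈ Icc ((2 : ℕ) ^ j) (4 ^ j), (b (((2 * d : ℕ)) : ℤ) + b (-(((2 * d : ℕ)) : ℤ))) / (d : ℝ) : ℝ) : ℂ) := by
        rw [Complex.ofReal_sum]
        apply Finset.sum_congr rfl
        intro d _
        have q1 : (((2 * d : ℕ)) : ℤ) = 2 * (d : ℤ) := by push_cast; ring
        have q2 : (2 * (-(d : ℤ))) = -(2 * (d : ℤ)) := by ring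
        rw [q1, q2]
        push_cast
        rfl
      rw [e1, ← Complex.ofReal_div, Complex.ofReal_re]
  have h8 : (∑ d ∈ Icc ((2 : ℕ) ^ j) (4 ^ j), (b (((2 * d : ℕ)) : ℤ) + b (-(((2 * d : ℕ)) : ℤ))) / (d : ℝ)) / (2 * j * Real.log 2)
      ≤ (2 * L + ε / 8) * (1 + 1 / (j : ℝ)) + (ε / (8 * Real.log 2)) * (1 / (j : ℝ)) := by
    rw [div_le_iff₀ hden]
    have e2 : ((2 * L + ε / 8) * (1 + 1 / (j : ℝ)) + (ε / (8 * Real.log 2)) * (1 / (j : ℝ))) * (2 * j * Real.log 2)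
        = 2 * (2 * (L * ((j + 1) * Real.log 2) + ε / 16 * (1 + (j + 1) * Real.log 2))) := by
      field_simp
      ring
    rw [e2]
    refine h4.trans ?_
    rw [h5]
    linarith
  linarith

/-! ## module P3: one frequency (replaces text 1.3) -/

private noncomputable def P3_n (p : ℕ × Bool) : ℤ := if p.2 then (p.1 : ℤ) else -(p.1 : ℤ)

private theorem P3_rep (W : ℕ → ℝ) (j : ℕ) (a : ℤ → ℂ) :
    E2 W j a = ∑ p ∈ Icc ((2 : ℕ) ^ j) (4 ^ j) ×ˢ (univ : Finset Bool),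
      ((W p.1 / (2 * j * Real.log 2) : ℝ) : ℂ) * a (P3_n p) := by
  unfold E2
  rw [Finset.sum_product, Finset.sum_div]
  apply Finset.sum_congr rfl
  intro d _
  rw [Fintype.sum_bool]
  simp only [P3_n, if_true, Bool.false_eq_true, if_false]
  push_cast
  ring

private theorem P3_sq {Y : Type} [MeasurableSpace Y] (ν : Measure Y) [IsFiniteMeasure ν] {ι : Type} (s : Finset ι)
    (k : ι → ℝ) (K : ι → Y → ℂ) (hK : ∀ i, Bd (K i)) :
    ((∫ y, ‖∑ i ∈ s, (k i : ℂ) * K i y‖ ^ 2 ∂ν : ℝ) : ℂ)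
      = ∑ i ∈ s, ∑ i' ∈ s, ((k i : ℂ) * (k i' : ℂ)) * ∫ y, K i y * (starRingEnd ℂ) (K i' y) ∂ν := by
  rw [P2_exp ν s (fun i y => (k i : ℂ) * K i y) (fun i => P1_bd_mul ⟨measurable_const, ‖(k i : ℂ)‖, fun _ => le_rfl⟩ (hK i))]
  apply Finset.sum_congr rfl
  intro i _
  apply Finset.sum_congr rfl
  intro i' _
  rw [← integral_const_mul]
  congr 1
  funext y
  rw [map_mul, Complex.conj_ofReal]
  ring

private theorem P3_four_bd (n : ℤ) (g : Cir → Cir) (hg : Measurable g) : Bd (fun t => (fourier n (g t) : ℂ)) := by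
  refine ⟨(fourier n).continuous.measurable.comp hg, 1, fun t => ?_⟩
  show ‖(fourier n (g t) : ℂ)‖ ≤ 1
  rw [fourier_apply]
  exact (Circle.norm_coe _).le

private theorem P3_key {X : Type} [MeasurableSpace X] (μ : Measure X) [IsProbabilityMeasure μ] (τ : ℤ → X → X)
    (hτ : Sys μ τ) (W : ℕ → ℝ) (G : X → ℂ) (hG : Bd G) (σ : Measure Cir) (hσ : Sp μ τ G σ)
    (m : ℤ) (θ : Cir) (j : ℕ) :
    ∫ x, ‖E2 W j (fun d => fourier d θ * G (τ (m * d) x))‖ ^ 2 ∂μ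
      = ∫ t, ‖E2 W j (fun d => fourier d (m • t + θ))‖ ^ 2 ∂σ := by
  have := hσ.1
  apply Complex.ofReal_injective
  simp only [P3_rep]
  have hcont : Measurable fun t : Cir => m • t + θ := (continuous_zsmul m |>.add continuous_const).measurable
  rw [P3_sq μ _ (fun p : ℕ × Bool => W p.1 / (2 * j * Real.log 2)) (fun p x => fourier (P3_n p) θ * G (τ (m * P3_n p) x))
    (fun p => P1_bd_mul ⟨measurable_const, ‖(fourier (P3_n p) θ : ℂ)‖, fun _ => le_rfl⟩ (P1_bd_comp hG (hτ.mp _).measurable)),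
    P3_sq σ _ (fun p : ℕ × Bool => W p.1 / (2 * j * Real.log 2)) (fun p t => fourier (P3_n p) (m • t + θ))
    (fun p => P3_four_bd _ _ hcont)]
  apply Finset.sum_congr rfl
  intro p _
  apply Finset.sum_congr rfl
  intro q _
  congr 1
  have e1 : ∫ x, fourier (P3_n p) θ * G (τ (m * P3_n p) x) * (starRingEnd ℂ) (fourier (P3_n q) θ * G (τ (m * P3_n q) x)) ∂μ
      = (fourier (P3_n p) θ * (starRingEnd ℂ) (fourier (P3_n q) θ))
        * ∫ x, G (τ (m * P3_n p) x) * (starRingEnd ℂ) (G (τ (m * P3_n q) x)) ∂μ := by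
    rw [← integral_const_mul]
    congr 1
    funext x
    rw [map_mul]
    ring
  have e2 : ∫ x, G (τ (m * P3_n p) x) * (starRingEnd ℂ) (G (τ (m * P3_n q) x)) ∂μ
      = ∫ t, fourier (m * P3_n p - m * P3_n q) t ∂σ := by
    rw [← hσ.2 (m * P3_n p - m * P3_n q)]
    have h1 := A6_pair μ τ hτ (fun x => (starRingEnd ℂ) (G x)) G (P1_bd_conj hG) hG (m * P3_n q) (m * P3_n p)
    have h2 : (fun x => G (τ (m * P3_n p) x) * (starRingEnd ℂ) (G (τ (m * P3_n q) x)))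
        = fun x => (starRingEnd ℂ) (G (τ (m * P3_n q) x)) * G (τ (m * P3_n p) x) := by
      funext x
      ring
    rw [h2]
    refine h1.trans ?_
    congr 1
    funext x
    ring
  rw [e1, e2, ← integral_const_mul]
  congr 1
  funext t
  have hz : ∀ (n : ℤ) (u v : Cir), (fourier n (u + v) : ℂ) = fourier n u * fourier n v := by
    intro n u v
    simp only [fourier_apply, smul_add, AddCircle.toCircle_add, Circle.coe_mul]
  have hm : ∀ n : ℤ, (fourier n (m • t) : ℂ) = fourier (m * n) t := by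
    intro n
    simp only [fourier_apply, smul_smul, mul_comm]
  rw [hz, hz, hm, hm, map_mul, sub_eq_add_neg, fourier_add, fourier_neg]
  ring

/-- With `Ψ_j (x) = E2 W j (e(dθ) G(τ (m d) x))`: the left side is `|∫ F Ψ_j|²`, and
`∫ |Ψ_j|² = ∫ |E2 W j (e(d (m t + θ)))|² dσ(t)` tends to `σ {t | m t + θ = 0}` by `freq` and dominated convergence. -/
theorem freq_pair {X : Type} [MeasurableSpace X] (μ : Measure X) [IsProbabilityMeasure μ] (τ : ℤ → X → X)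
    (hτ : Sys μ τ) (W : ℕ → ℝ) (h : GW W) (G : X → ℂ) (hG : Bd G) (σ : Measure Cir) (hσ : Sp μ τ G σ)
    (m : ℤ) (θ : Cir) (ε : ℝ) (hε : 0 < ε) :
    ∀ᶠ j : ℕ in atTop, ∀ F : X → ℂ, Bd F →
      ‖E2 W j (fun d => fourier d θ * ∫ x, F x * G (τ (m * d) x) ∂μ)‖ ^ 2
        ≤ (∫ x, ‖F x‖ ^ 2 ∂μ) * ((σ {t | m • t + θ = 0}).toReal + ε) := by
  have := hσ.1
  have hcont : Measurable fun t : Cir => m • t + θ := (continuous_zsmul m |>.add continuous_const).measurable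
  have hset : MeasurableSet {t : Cir | m • t + θ = 0} := measurableSet_eq_fun hcont measurable_const
  have hmass := mass W h
  have hm2 : ∀ᶠ j : ℕ in atTop, R2 W j (fun _ => 1) ≤ 2 := hmass.eventually_le_const (by norm_num)
  have hlim : Tendsto (fun j : ℕ => ∫ t, ‖E2 W j (fun d => fourier d (m • t + θ))‖ ^ 2 ∂σ) atTop
      (𝓝 (∫ t, {t : Cir | m • t + θ = 0}.indicator (fun _ => (1 : ℝ)) t ∂σ)) := by
    refine tendsto_integral_filter_of_dominated_convergence (fun _ => (4 : ℝ)) ?_ ?_ (integrable_const _) ?_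
    · refine Eventually.of_forall fun j => ?_
      simp only [P3_rep]
      refine Measurable.aestronglyMeasurable (Measurable.pow_const (Measurable.norm ?_) 2)
      refine Finset.measurable_sum _ fun p _ => ?_
      exact ((fourier (P3_n p)).continuous.measurable.comp hcont).const_mul _
    · filter_upwards [hm2] with j hj
      refine ae_of_all _ fun t => ?_
      have h1 : ‖E2 W j (fun d => fourier d (m • t + θ))‖ ≤ 1 * R2 W j (fun _ => 1) :=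
        A2_le W h.1 j _ 1 fun d _ => by
          constructor
          · rw [fourier_apply]; exact (Circle.norm_coe _).le
          · rw [fourier_apply]; exact (Circle.norm_coe _).le
      rw [Real.norm_eq_abs, abs_of_nonneg (by positivity)]
      nlinarith [norm_nonneg (E2 W j (fun d => fourier d (m • t + θ)))]
    · refine ae_of_all _ fun t => ?_
      have h1 := ((freq W h (m • t + θ)).norm.pow 2)
      by_cases h0 : m • t + θ = 0
      · rw [Set.indicator_of_mem (show t ∈ {t : Cir | m • t + θ = 0} from h0)]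
        rw [if_pos h0] at h1
        simpa using h1
      · rw [Set.indicator_of_notMem (show t ∉ {t : Cir | m • t + θ = 0} from h0)]
        rw [if_neg h0] at h1
        simpa using h1
  have hint : ∫ t, {t : Cir | m • t + θ = 0}.indicator (fun _ => (1 : ℝ)) t ∂σ = (σ {t | m • t + θ = 0}).toReal := by
    rw [integral_indicator hset]
    simp [Measure.real]
  rw [hint] at hlim
  filter_upwards [hlim.eventually_le_const (show (σ {t | m • t + θ = 0}).toReal < (σ {t | m • t + θ = 0}).toReal + ε by linarith)]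
    with j hj F hF
  rw [← P3_key μ τ hτ W G hG σ hσ m θ j] at hj
  have hΨ : Bd (fun x => E2 W j (fun d => fourier d θ * G (τ (m * d) x))) := by
    simp only [P3_rep]
    obtain ⟨B, hB⟩ := hG.2
    refine ⟨Finset.measurable_sum _ fun p _ => ((hG.1.comp (hτ.mp _).measurable).const_mul _).const_mul _,
      ∑ p ∈ Icc ((2 : ℕ) ^ j) (4 ^ j) ×ˢ (univ : Finset Bool), ‖((W p.1 / (2 * j * Real.log 2) : ℝ) : ℂ)‖ * (1 * B), fun x => ?_⟩
    refine (norm_sum_le _ _).trans (Finset.sum_le_sum fun p _ => ?_)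
    rw [norm_mul, norm_mul]
    refine mul_le_mul_of_nonneg_left ?_ (norm_nonneg _)
    have h1 : ‖(fourier (P3_n p) θ : ℂ)‖ = 1 := by rw [fourier_apply]; exact Circle.norm_coe _
    rw [h1]
    exact mul_le_mul_of_nonneg_left (hB _) (by norm_num)
  have e : E2 W j (fun d => fourier d θ * ∫ x, F x * G (τ (m * d) x) ∂μ)
      = ∫ x, F x * E2 W j (fun d => fourier d θ * G (τ (m * d) x)) ∂μ := by
    simp only [P3_rep]
    have e1 : (fun x => F x * ∑ p ∈ Icc ((2 : ℕ) ^ j) (4 ^ j) ×ˢ (univ : Finset Bool), ((W p.1 / (2 * j * Real.log 2) : ℝ) : ℂ)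
        * (fourier (P3_n p) θ * G (τ (m * P3_n p) x)))
        = fun x => ∑ p ∈ Icc ((2 : ℕ) ^ j) (4 ^ j) ×ˢ (univ : Finset Bool), (((W p.1 / (2 * j * Real.log 2) : ℝ) : ℂ)
        * fourier (P3_n p) θ) * (F x * G (τ (m * P3_n p) x)) := by
      funext x
      rw [Finset.mul_sum]
      apply Finset.sum_congr rfl
      intro p _
      ring
    rw [e1, integral_finsetSum _ (fun p _ => (A4_bdint μ _ (P1_bd_mul hF (P1_bd_comp hG (hτ.mp _).measurable))).const_mul _)]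
    apply Finset.sum_congr rfl
    intro p _
    rw [integral_const_mul]
    ring
  rw [e]
  refine (A4_int μ F _ hF hΨ).trans ?_
  exact mul_le_mul_of_nonneg_left hj (integral_nonneg fun x => by positivity)

end Pool.Agent.Sgs
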