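import Pool.Agent.Sgs.Defs

/-!
# Basic lemmas: change of variables, bounded functions, atoms (all proved)
-/

set_option autoImplicit false

namespace Pool.Agent.Sgs

open MeasureTheory Filter Finset
open scoped Topology ENNReal

/-- change of variables -/
theorem S3_cv {X : Type} [MeasurableSpace X] (μ : Measure X) (τ : ℤ → X → X)
    (hτ : Sys μ τ) (n : ℤ) (F : X → ℂ) (hF : Measurable F) : ∫ x, F (τ n x) ∂μ = ∫ x, F x ∂μ := by
  have h := integral_map (μ := μ) (hτ.mp n).measurable.aemeasurable (f := F)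
    (by rw [(hτ.mp n).map_eq]; exact hF.aestronglyMeasurable)
  rw [(hτ.mp n).map_eq] at h
  exact h.symm

theorem S3_cvr {X : Type} [MeasurableSpace X] (μ : Measure X) (τ : ℤ → X → X)
    (hτ : Sys μ τ) (n : ℤ) (F : X → ℝ) (hF : Measurable F) : ∫ x, F (τ n x) ∂μ = ∫ x, F x ∂μ := by
  have h := integral_map (μ := μ) (hτ.mp n).measurable.aemeasurable (f := F)
    (by rw [(hτ.mp n).map_eq]; exact hF.aestronglyMeasurable)
  rw [(hτ.mp n).map_eq] at h
  exact h.symm

theorem S3_bd_sum {X : Type} [MeasurableSpace X] {ι : Type} (s : Finset ι) (F : ι → X → ℂ)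
    (hF : ∀ i ∈ s, Bd (F i)) : Bd (fun x => ∑ i ∈ s, F i x) := by
  classical
  induction s using Finset.induction_on with
  | empty => exact ⟨by simp only [Finset.sum_empty]; exact measurable_const, 0, by simp⟩
  | insert i s hi ih =>
    obtain ⟨m1, C1, h1⟩ := ih (fun j hj => hF j (Finset.mem_insert_of_mem hj))
    obtain ⟨m2, C2, h2⟩ := hF i (Finset.mem_insert_self i s)
    refine ⟨?_, C2 + C1, fun x => ?_⟩
    · simp only [Finset.sum_insert hi]; exact m2.add m1
    · show ‖∑ j ∈ insert i s, F j x‖ ≤ C2 + C1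
      rw [Finset.sum_insert hi]; exact (norm_add_le _ _).trans (add_le_add (h2 x) (h1 x))

theorem S3_bd_mul {X : Type} [MeasurableSpace X] (F G : X → ℂ) (hF : Bd F) (hG : Bd G) :
    Bd (fun x => F x * G x) := by
  obtain ⟨m1, C1, h1⟩ := hF
  obtain ⟨m2, C2, h2⟩ := hG
  refine ⟨m1.mul m2, |C1| * |C2|, fun x => ?_⟩
  rw [norm_mul]
  exact mul_le_mul ((h1 x).trans (le_abs_self _)) ((h2 x).trans (le_abs_self _)) (norm_nonneg _) (abs_nonneg _)

theorem S3_bd_const {X : Type} [MeasurableSpace X] (c : ℂ) : Bd (fun _ : X => c) :=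
  ⟨measurable_const, ‖c‖, fun _ => le_rfl⟩

theorem S3_bd_comp {X : Type} [MeasurableSpace X] (μ : Measure X) (τ : ℤ → X → X) (hτ : Sys μ τ) (n : ℤ)
    (F : X → ℂ) (hF : Bd F) : Bd (fun x => F (τ n x)) := by
  obtain ⟨m1, C1, h1⟩ := hF
  exact ⟨m1.comp (hτ.mp n).measurable, C1, fun x => h1 _⟩

theorem S3_int {X : Type} [MeasurableSpace X] (μ : Measure X) [IsFiniteMeasure μ] (F : X → ℂ) (hF : Bd F) :
    Integrable F μ := by
  obtain ⟨m1, C1, h1⟩ := hF
  exact (integrable_const C1).mono' m1.aestronglyMeasurable (Eventually.of_forall h1)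

/-- the atoms of a finite measure outside a suitable finite set have small total mass -/
theorem B11_atoms (σ : Measure Cir) [IsFiniteMeasure σ] (F₀ : Finset Cir) (η : ℝ) (hη : 0 < η) :
    ∃ F : Finset Cir, F₀ ⊆ F ∧ (σ ({t | σ {t} ≠ 0} \ (F : Set Cir))).toReal ≤ η := by
  classical
  set At : Set Cir := {t | σ {t} ≠ 0} with hAt
  have hc : At.Countable := by
    have h := Measure.countable_meas_pos_of_disjoint_iUnion (μ := σ) (As := fun t : Cir => ({t} : Set Cir))
      (fun t => measurableSet_singleton t) (fun a b hab => by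
        simpa [Function.onFun] using hab)
    refine h.mono fun t ht => ?_
    exact pos_iff_ne_zero.mpr ht
  have hsum : ∑' t : At, σ {(t : Cir)} = σ At := by
    have := (measure_biUnion (μ := σ) hc (f := fun t : Cir => ({t} : Set Cir)) (fun a _ b _ hab => by
      simpa [Function.onFun] using hab) (fun t _ => measurableSet_singleton t))
    rw [← this]
    congr 1
    ext t; simp
  have hne : ∑' t : At, σ {(t : Cir)} ≠ ⊤ := by rw [hsum]; exact measure_ne_top _ _
  have ht := ENNReal.tendsto_tsum_compl_atTop_zero hne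
  have hη' : (0 : ℝ≥0∞) < ENNReal.ofReal η := ENNReal.ofReal_pos.mpr hη
  obtain ⟨s, hs⟩ := ((ENNReal.tendsto_atTop_zero.mp ht) (ENNReal.ofReal η) hη')
  refine ⟨F₀ ∪ s.map (Function.Embedding.subtype _), Finset.subset_union_left, ?_⟩
  have h1 := hs s le_rfl
  have h2 : σ (At \ ((F₀ ∪ s.map (Function.Embedding.subtype _) : Finset Cir) : Set Cir))
      ≤ ∑' t : {t : At // t ∉ s}, σ {((t : At) : Cir)} := by
    have hcc : Countable {t : At // t ∉ s} := by
      have : Countable At := hc.to_subtype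
      infer_instance
    calc σ (At \ ((F₀ ∪ s.map (Function.Embedding.subtype _) : Finset Cir) : Set Cir))
        ≤ σ (⋃ t : {t : At // t ∉ s}, {((t : At) : Cir)}) := by
          apply measure_mono
          rintro t ⟨ht1, ht2⟩
          rw [Set.mem_iUnion]
          refine ⟨⟨⟨t, ht1⟩, fun hts => ht2 ?_⟩, rfl⟩
          rw [Finset.mem_coe, Finset.mem_union, Finset.mem_map]
          exact Or.inr ⟨⟨t, ht1⟩, hts, rfl⟩
      _ ≤ _ := measure_iUnion_le _
  exact ENNReal.toReal_le_of_le_ofReal hη.le (h2.trans h1)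

theorem B11_bdA {X : Type} [MeasurableSpace X] (A : Set X) (hA : MeasurableSet A) :
    Bd (A.indicator (fun _ => (1 : ℂ))) := by
  classical
  refine ⟨measurable_const.indicator hA, 1, fun x => ?_⟩
  by_cases hx : x ∈ A <;> simp [hx]

theorem B11_conj {X : Type} [MeasurableSpace X] (f : X → ℂ) (hf : Bd f) :
    Bd (fun x => (starRingEnd ℂ) (f x)) :=
  ⟨Complex.continuous_conj.measurable.comp hf.1, hf.2.imp fun C hC x => by
    show ‖(starRingEnd ℂ) (f x)‖ ≤ C
    rw [RCLike.norm_conj]; exact hC x⟩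

theorem B11_add {X : Type} [MeasurableSpace X] (f g : X → ℂ) (hf : Bd f) (hg : Bd g) :
    Bd (fun x => f x + g x) := by
  obtain ⟨m1, C1, h1⟩ := hf
  obtain ⟨m2, C2, h2⟩ := hg
  exact ⟨m1.add m2, C1 + C2, fun x => (norm_add_le _ _).trans (add_le_add (h1 x) (h2 x))⟩

theorem B11_sub {X : Type} [MeasurableSpace X] (f g : X → ℂ) (hf : Bd f) (hg : Bd g) :
    Bd (fun x => f x - g x) := by
  obtain ⟨m1, C1, h1⟩ := hf
  obtain ⟨m2, C2, h2⟩ := hg
  exact ⟨m1.sub m2, C1 + C2, fun x => (norm_sub_le _ _).trans (add_le_add (h1 x) (h2 x))⟩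

theorem B11_pos (a b : ℝ) (h : 0 < a * b) (ha : 0 ≤ a) : 0 < b := by
  by_contra hb
  push Not at hb
  have := mul_nonpos_of_nonneg_of_nonpos ha hb
  linarith

end Pool.Agent.Sgs
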