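import Pool.Agent.Sgs.Rig

/-!
# The correlation lemma (text, section 3)
-/

set_option autoImplicit false

namespace Pool.Agent.Sgs

open MeasureTheory Filter Finset
open scoped Topology ENNReal

private theorem C1_unif (g : C(Cir × Cir, ℂ)) (δ : ℝ) (hδ : 0 < δ) :
    ∃ (s : Finset (ℤ × ℤ)) (a : ℤ × ℤ → ℂ),
      ∀ z, ‖g z - ∑ p ∈ s, a p * (fourier p.1 z.1 * fourier p.2 z.2)‖ ≤ δ := by
  set g' : C(UnitAddTorus (Fin 2), ℂ) := ⟨fun x => g (x 0, x 1), by fun_prop⟩ with hg'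
  have h1 : g' ∈ (Submodule.span ℂ (Set.range (UnitAddTorus.mFourier (d := Fin 2)))).topologicalClosure := by
    rw [UnitAddTorus.span_mFourier_closure_eq_top]
    exact Submodule.mem_top
  rw [← SetLike.mem_coe, Submodule.topologicalClosure_coe, Metric.mem_closure_iff] at h1
  obtain ⟨P, hP, hd⟩ := h1 δ hδ
  rw [SetLike.mem_coe, Finsupp.mem_span_range_iff_exists_finsupp] at hP
  obtain ⟨c, rfl⟩ := hP
  refine ⟨c.support.map (finTwoArrowEquiv ℤ).toEmbedding, fun p => c ((finTwoArrowEquiv ℤ).symm p), fun z => ?_⟩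
  rw [dist_eq_norm] at hd
  have h2 := (ContinuousMap.norm_coe_le_norm _ (![z.1, z.2] : UnitAddTorus (Fin 2))).trans hd.le
  refine le_trans (le_of_eq ?_) h2
  congr 1
  rw [ContinuousMap.sub_apply, Finsupp.sum, ContinuousMap.sum_apply, Finset.sum_map]
  congr 1
  apply Finset.sum_congr rfl
  intro n _
  rw [ContinuousMap.smul_apply, smul_eq_mul]
  congr 1
  · have hn : (finTwoArrowEquiv ℤ).symm ((finTwoArrowEquiv ℤ) n) = n := Equiv.symm_apply_apply _ _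
    simp only [Equiv.coe_toEmbedding, hn]
  · simp [UnitAddTorus.mFourier, Fin.prod_univ_two]

/-- module C1.  Trigonometric polynomials are dense in `L2` of a finite measure on the torus: continuous functions
are dense (`MemLp.exists_hasCompactSupport_eLpNorm_sub_le` or `ContinuousMap.toLp_denseRange`), and the star subalgebra
generated by the characters `z ↦ fourier n z.1 * fourier m z.2` separates points (Stone-Weierstrass). -/
theorem dense2 (κ : Measure (Cir × Cir)) [IsFiniteMeasure κ] (f : Cir × Cir → ℂ) (hf : MemLp f 2 κ) (ε : ℝ)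
    (hε : 0 < ε) :
    ∃ (s : Finset (ℤ × ℤ)) (a : ℤ × ℤ → ℂ),
      ∫ z, ‖f z - ∑ p ∈ s, a p * (fourier p.1 z.1 * fourier p.2 z.2)‖ ^ 2 ∂κ ≤ ε := by
  have h2 : MemLp f (ENNReal.ofReal 2) κ := by
    rw [ENNReal.ofReal_ofNat]
    exact hf
  obtain ⟨g, hg, hgm⟩ := h2.exists_boundedContinuous_integral_rpow_sub_le (by norm_num) (show 0 < ε / 4 by linarith)
  set M : ℝ := κ.real Set.univ with hM
  have hM0 : 0 ≤ M := measureReal_nonneg
  obtain ⟨s, a, hsa⟩ := C1_unif g.toContinuousMap (Real.sqrt (ε / (4 * (M + 1)))) (by positivity)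
  refine ⟨s, a, ?_⟩
  set P : Cir × Cir → ℂ := fun z => ∑ p ∈ s, a p * (fourier p.1 z.1 * fourier p.2 z.2) with hP
  have hPc : Continuous P := by
    refine continuous_finsetSum _ fun p _ => continuous_const.mul ?_
    exact ((fourier p.1).continuous.comp continuous_fst).mul ((fourier p.2).continuous.comp continuous_snd)
  have e1 : (fun z => ‖f z - g z‖ ^ (2 : ℝ)) = fun z => ‖f z - g z‖ ^ 2 := by
    funext z
    exact Real.rpow_two _
  rw [e1] at hg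
  have hg2 : MemLp g 2 κ := by
    rw [ENNReal.ofReal_ofNat] at hgm
    exact hgm
  have i1 : Integrable (fun z => ‖f z - g z‖ ^ 2) κ := (hf.sub hg2).integrable_norm_pow (by norm_num)
  have hb : ∀ z, ‖g z - P z‖ ^ 2 ≤ ε / (4 * (M + 1)) := by
    intro z
    have h3 := hsa z
    calc ‖g z - P z‖ ^ 2 ≤ (Real.sqrt (ε / (4 * (M + 1)))) ^ 2 := pow_le_pow_left₀ (norm_nonneg _) h3 2
      _ = _ := Real.sq_sqrt (by positivity)
  have i2 : Integrable (fun z => ‖g z - P z‖ ^ 2) κ := by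
    refine Integrable.of_bound ?_ (ε / (4 * (M + 1))) (ae_of_all _ fun z => ?_)
    · exact ((g.continuous.sub hPc).norm.pow 2).aestronglyMeasurable
    · rw [Real.norm_eq_abs, abs_of_nonneg (by positivity)]
      exact hb z
  have h4 : ∫ z, ‖g z - P z‖ ^ 2 ∂κ ≤ ε / 4 := by
    calc ∫ z, ‖g z - P z‖ ^ 2 ∂κ ≤ ∫ _, ε / (4 * (M + 1)) ∂κ := integral_mono i2 (integrable_const _) hb
      _ = M * (ε / (4 * (M + 1))) := by rw [integral_const, smul_eq_mul]
      _ ≤ ε / 4 := by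
        rw [mul_div_assoc', div_le_div_iff₀ (by positivity) (by norm_num)]
        nlinarith
  calc ∫ z, ‖f z - P z‖ ^ 2 ∂κ ≤ ∫ z, (2 * ‖f z - g z‖ ^ 2 + 2 * ‖g z - P z‖ ^ 2) ∂κ := by
        refine integral_mono_of_nonneg (ae_of_all _ fun z => by positivity) ((i1.const_mul 2).add (i2.const_mul 2))
          (ae_of_all _ fun z => ?_)
        have h5 : ‖f z - P z‖ ≤ ‖f z - g z‖ + ‖g z - P z‖ := norm_sub_le_norm_sub_add_norm_sub _ _ _
        simp only
        nlinarith [sq_nonneg (‖f z - g z‖ - ‖g z - P z‖), norm_nonneg (f z - P z)]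
    _ = 2 * ∫ z, ‖f z - g z‖ ^ 2 ∂κ + 2 * ∫ z, ‖g z - P z‖ ^ 2 ∂κ := by
        rw [integral_add (i1.const_mul 2) (i2.const_mul 2), integral_const_mul, integral_const_mul]
    _ ≤ ε := by linarith

private theorem C2_mem (κ : Measure (Cir × Cir)) [IsFiniteMeasure κ] (p : ℤ × ℤ) :
    MemLp (fun z : Cir × Cir => (fourier p.1 z.1 * fourier p.2 z.2 : ℂ)) 2 κ := by
  refine MemLp.of_bound ?_ 1 (ae_of_all _ fun z => ?_)
  · exact (((fourier p.1).continuous.comp continuous_fst).mul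
      ((fourier p.2).continuous.comp continuous_snd)).aestronglyMeasurable
  · rw [norm_mul, fourier_apply, fourier_apply, Circle.norm_coe, Circle.norm_coe, mul_one]

private theorem C2_norm (κ : Measure (Cir × Cir)) (f : Lp ℂ 2 κ) :
    ‖f‖ ^ 2 = ∫ z, ‖f z‖ ^ 2 ∂κ := by
  have h1 : ((‖f‖ ^ 2 : ℝ) : ℂ) = ((∫ z, ‖f z‖ ^ 2 ∂κ : ℝ) : ℂ) := by
    have h2 : inner ℂ f f = ((‖f‖ : ℂ)) ^ 2 := inner_self_eq_norm_sq_to_K f
    rw [Complex.ofReal_pow, ← h2, L2.inner_def]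
    have h3 : (fun a => inner ℂ (f a) (f a)) = fun a => ((‖f a‖ ^ 2 : ℝ) : ℂ) := by
      funext a
      rw [Complex.ofReal_pow]
      exact inner_self_eq_norm_sq_to_K (f a)
    rw [h3]
    exact integral_complex_ofReal
  exact Complex.ofReal_injective h1

/-- module C2.  Riesz representation (Hahn-Banach extension from the span of the characters in `Lp ℂ 2 κ`, or
completeness; well defined by the inequality). -/
theorem riesz (κ : Measure (Cir × Cir)) [IsFiniteMeasure κ] (L : ℤ → ℤ → ℂ) (D : ℝ) (hD : 0 ≤ D)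
    (h : ∀ (s : Finset (ℤ × ℤ)) (a : ℤ × ℤ → ℂ), ‖∑ p ∈ s, a p * L p.1 p.2‖ ^ 2
      ≤ D * ∫ z, ‖∑ p ∈ s, a p * (fourier p.1 z.1 * fourier p.2 z.2)‖ ^ 2 ∂κ) :
    ∃ u : Cir × Cir → ℂ, Measurable u ∧ MemLp u 2 κ ∧
      ∀ n m : ℤ, L n m = ∫ z, fourier n z.1 * fourier m z.2 * (starRingEnd ℂ) (u z) ∂κ := by
  set E : ℤ × ℤ → Lp ℂ 2 κ := fun p => (C2_mem κ p).toLp _ with hE
  set T : ((ℤ × ℤ) →₀ ℂ) →ₗ[ℂ] Lp ℂ 2 κ := Finsupp.linearCombination ℂ E with hT
  set M : ((ℤ × ℤ) →₀ ℂ) →ₗ[ℂ] ℂ := Finsupp.linearCombination ℂ (fun p => L p.1 p.2) with hM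
  have hTM : ∀ c : (ℤ × ℤ) →₀ ℂ, ‖M c‖ ^ 2 ≤ D * ‖T c‖ ^ 2 := by
    intro c
    have h1 := h c.support c
    have e1 : M c = ∑ p ∈ c.support, c p * L p.1 p.2 := by
      rw [hM, Finsupp.linearCombination_apply, Finsupp.sum]
      rfl
    have e2 : ‖T c‖ ^ 2 = ∫ z, ‖∑ p ∈ c.support, c p * (fourier p.1 z.1 * fourier p.2 z.2)‖ ^ 2 ∂κ := by
      rw [C2_norm]
      apply integral_congr_ae
      have h2 : (T c : Cir × Cir → ℂ) =ᵐ[κ] fun z => ∑ p ∈ c.support, c p * (fourier p.1 z.1 * fourier p.2 z.2) := by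
        have e3 : T c = ∑ p ∈ c.support, c p • E p := by
          rw [hT, Finsupp.linearCombination_apply, Finsupp.sum]
        rw [e3]
        refine (Lp.coeFn_finsetSum _ _).trans ?_
        have h3 : ∀ p : ℤ × ℤ, (c p • E p : Lp ℂ 2 κ) =ᵐ[κ] fun z => c p * (fourier p.1 z.1 * fourier p.2 z.2) := by
          intro p
          refine (Lp.coeFn_smul _ _).trans ?_
          filter_upwards [(C2_mem κ p).coeFn_toLp] with z hz
          rw [Pi.smul_apply, smul_eq_mul]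
          congr 1
        have h4 : ∀ᵐ z ∂κ, ∀ p ∈ c.support, (c p • E p : Lp ℂ 2 κ) z = c p * (fourier p.1 z.1 * fourier p.2 z.2) :=
          (Finset.eventually_all c.support).mpr fun p _ => h3 p
        filter_upwards [h4] with z hz
        rw [Finset.sum_apply]
        exact Finset.sum_congr rfl fun p hp => hz p hp
      filter_upwards [h2] with z hz
      rw [hz]
    rw [e1, e2]
    exact h1
  obtain ⟨S, hS⟩ := T.rangeRestrict.exists_rightInverse_of_surjective T.range_rangeRestrict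
  have hS' : ∀ x : LinearMap.range T, T (S x) = x := by
    intro x
    have := LinearMap.congr_fun hS x
    exact congrArg Subtype.val this
  set l : LinearMap.range T →ₗ[ℂ] ℂ := M.comp S with hl
  have hlb : ∀ x : LinearMap.range T, ‖l x‖ ≤ Real.sqrt D * ‖x‖ := by
    intro x
    have h1 := hTM (S x)
    rw [hS'] at h1
    have h2 : ‖l x‖ ^ 2 ≤ (Real.sqrt D * ‖x‖) ^ 2 := by
      rw [mul_pow, Real.sq_sqrt hD]
      exact h1
    exact (pow_le_pow_iff_left₀ (norm_nonneg _) (by positivity) two_ne_zero).mp h2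
  obtain ⟨g, hg, -⟩ := exists_extension_norm_eq (LinearMap.range T) (l.mkContinuous (Real.sqrt D) hlb)
  set v : Lp ℂ 2 κ := (InnerProductSpace.toDual ℂ (Lp ℂ 2 κ)).symm g with hv
  have hvg : ∀ x : Lp ℂ 2 κ, inner ℂ v x = g x := fun x => InnerProductSpace.toDual_symm_apply
  refine ⟨v, (Lp.stronglyMeasurable v).measurable, Lp.memLp v, fun n m => ?_⟩
  have h1 : g (T (Finsupp.single (n, m) 1)) = L n m := by
    have h2 := hg ⟨T (Finsupp.single (n, m) 1), LinearMap.mem_range_self _ _⟩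
    rw [h2]
    have h3 := hTM (S ⟨T (Finsupp.single (n, m) 1), LinearMap.mem_range_self _ _⟩ - Finsupp.single (n, m) 1)
    rw [map_sub T, hS', sub_self, norm_zero, zero_pow two_ne_zero, mul_zero] at h3
    have h4 : ‖M (S ⟨T (Finsupp.single (n, m) 1), LinearMap.mem_range_self _ _⟩ - Finsupp.single (n, m) 1)‖ = 0 := by
      have := sq_nonneg ‖M (S ⟨T (Finsupp.single (n, m) 1), LinearMap.mem_range_self _ _⟩ - Finsupp.single (n, m) 1)‖
      exact pow_eq_zero_iff two_ne_zero |>.mp (le_antisymm h3 this)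
    rw [norm_eq_zero, map_sub, sub_eq_zero] at h4
    change M (S ⟨T (Finsupp.single (n, m) 1), LinearMap.mem_range_self _ _⟩) = _
    rw [h4, hM, Finsupp.linearCombination_single, one_smul]
  rw [← h1, ← hvg, hT, Finsupp.linearCombination_single, one_smul, L2.inner_def]
  apply integral_congr_ae
  filter_upwards [(C2_mem κ (n, m)).coeFn_toLp] with z hz
  rw [RCLike.inner_apply]
  congr 1

private theorem C3_disc (P Q R : ℝ) (h : ∀ l : ℝ, 0 ≤ P * (l * l) + 2 * R * l + Q) : R ^ 2 ≤ P * Q := by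
  have := discrim_le_zero (a := P) (b := 2 * R) (c := Q) (fun l => h l)
  unfold discrim at this
  nlinarith

private theorem C3_int {Y : Type} [MeasurableSpace Y] (μ : Measure Y) (K H : Y → ℂ)
    (hK : MemLp K 2 μ) (hH : MemLp H 2 μ) :
    ‖∫ x, K x * (starRingEnd ℂ) (H x) ∂μ‖ ^ 2 ≤ (∫ x, ‖K x‖ ^ 2 ∂μ) * ∫ x, ‖H x‖ ^ 2 ∂μ := by
  have i1 : Integrable (fun x => ‖K x‖ ^ 2) μ := hK.integrable_norm_pow (by norm_num)
  have i2 : Integrable (fun x => ‖H x‖ ^ 2) μ := hH.integrable_norm_pow (by norm_num)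
  have i3 : Integrable (fun x => ‖K x‖ * ‖H x‖) μ := hK.norm.integrable_mul hH.norm
  have h1 : ‖∫ x, K x * (starRingEnd ℂ) (H x) ∂μ‖ ≤ ∫ x, ‖K x‖ * ‖H x‖ ∂μ := by
    refine (norm_integral_le_integral_norm _).trans (le_of_eq ?_)
    congr 1
    funext x
    rw [norm_mul, RCLike.norm_conj]
  have h2 : (∫ x, ‖K x‖ * ‖H x‖ ∂μ) ^ 2 ≤ (∫ x, ‖K x‖ ^ 2 ∂μ) * ∫ x, ‖H x‖ ^ 2 ∂μ := by
    apply C3_disc
    intro l
    have h3 : 0 ≤ ∫ x, (l * ‖K x‖ + ‖H x‖) ^ 2 ∂μ := integral_nonneg fun x => sq_nonneg _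
    have e : ∫ x, (l * ‖K x‖ + ‖H x‖) ^ 2 ∂μ
        = (l * l) * (∫ x, ‖K x‖ ^ 2 ∂μ) + (2 * l) * (∫ x, ‖K x‖ * ‖H x‖ ∂μ) + ∫ x, ‖H x‖ ^ 2 ∂μ := by
      have i4 : Integrable (fun x => (l * l) * ‖K x‖ ^ 2 + (2 * l) * (‖K x‖ * ‖H x‖)) μ :=
        (i1.const_mul _).add (i3.const_mul _)
      rw [← integral_const_mul, ← integral_const_mul, ← integral_add (i1.const_mul _) (i3.const_mul _),
        ← integral_add i4 i2]
      congr 1
      funext x
      ring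
    rw [e] at h3
    linarith
  exact (pow_le_pow_left₀ (norm_nonneg _) h1 2).trans h2

private theorem C3_split (x y η : ℝ) (hη : 0 < η) : (x + y) ^ 2 ≤ (1 + η) * x ^ 2 + (1 + 1 / η) * y ^ 2 := by
  have h1 : 0 ≤ (η * x - y) ^ 2 / η := by positivity
  have e : (1 + η) * x ^ 2 + (1 + 1 / η) * y ^ 2 - (x + y) ^ 2 = (η * x - y) ^ 2 / η := by
    field_simp
    ring
  linarith

/-- module C3.  Extend the inequality from trigonometric polynomials to bounded measurable functions by `dense2`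
(`κ' ≤ κ`: convergence in `L2(κ)` implies convergence in `L2(κ')`). -/
theorem ext_ineq (κ κ' : Measure (Cir × Cir)) [IsFiniteMeasure κ] (hκ : κ' ≤ κ) (u : Cir × Cir → ℂ)
    (hum : Measurable u) (hu : MemLp u 2 κ) (D : ℝ) (hD : 0 ≤ D)
    (h : ∀ (s : Finset (ℤ × ℤ)) (a : ℤ × ℤ → ℂ),
      ‖∫ z, (∑ p ∈ s, a p * (fourier p.1 z.1 * fourier p.2 z.2)) * (starRingEnd ℂ) (u z) ∂κ‖ ^ 2
      ≤ D * ∫ z, ‖∑ p ∈ s, a p * (fourier p.1 z.1 * fourier p.2 z.2)‖ ^ 2 ∂κ')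
    (P : Cir × Cir → ℂ) (hPm : Measurable P) (B : ℝ) (hP : ∀ z, ‖P z‖ ≤ B) :
    ‖∫ z, P z * (starRingEnd ℂ) (u z) ∂κ‖ ^ 2 ≤ D * ∫ z, ‖P z‖ ^ 2 ∂κ' := by
  have hfin' : IsFiniteMeasure κ' := isFiniteMeasure_of_le κ hκ
  have hPL : MemLp P 2 κ := MemLp.of_bound hPm.aestronglyMeasurable B (ae_of_all _ hP)
  set N : ℝ := ∫ z, ‖P z‖ ^ 2 ∂κ' with hN
  set U : ℝ := ∫ z, ‖u z‖ ^ 2 ∂κ with hU
  have hN0 : 0 ≤ N := integral_nonneg fun z => by positivity
  have hU0 : 0 ≤ U := integral_nonneg fun z => by positivity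
  have key : ∀ η : ℝ, 0 < η → ‖∫ z, P z * (starRingEnd ℂ) (u z) ∂κ‖ ^ 2
      ≤ (1 + η) * (D * ((1 + η) * N + (η ^ 2 + η))) + (η ^ 2 + η) * U := by
    intro η hη
    obtain ⟨s, a, hsa⟩ := dense2 κ P hPL (η ^ 2) (by positivity)
    set Q : Cir × Cir → ℂ := fun z => ∑ p ∈ s, a p * (fourier p.1 z.1 * fourier p.2 z.2) with hQ
    have hQL : MemLp Q 2 κ := memLp_finsetSum _ fun p _ => (C2_mem κ p).const_mul (a p)
    have hdL : MemLp (fun z => P z - Q z) 2 κ := hPL.sub hQL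
    have hPL' : MemLp P 2 κ' := hPL.mono_measure hκ
    have hQL' : MemLp Q 2 κ' := hQL.mono_measure hκ
    have hdL' : MemLp (fun z => P z - Q z) 2 κ' := hdL.mono_measure hκ
    have iP : Integrable (fun z => P z * (starRingEnd ℂ) (u z)) κ :=
      hPL.integrable_mul (hu.star)
    have iQ : Integrable (fun z => Q z * (starRingEnd ℂ) (u z)) κ :=
      hQL.integrable_mul (hu.star)
    have h1 : ‖∫ z, P z * (starRingEnd ℂ) (u z) ∂κ‖
        ≤ ‖∫ z, Q z * (starRingEnd ℂ) (u z) ∂κ‖ + ‖∫ z, (P z - Q z) * (starRingEnd ℂ) (u z) ∂κ‖ := by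
      have e : ∫ z, P z * (starRingEnd ℂ) (u z) ∂κ
          = ∫ z, Q z * (starRingEnd ℂ) (u z) ∂κ + ∫ z, (P z - Q z) * (starRingEnd ℂ) (u z) ∂κ := by
        have e2 : (fun z => (P z - Q z) * (starRingEnd ℂ) (u z))
            = fun z => P z * (starRingEnd ℂ) (u z) - Q z * (starRingEnd ℂ) (u z) := by
          funext z
          ring
        rw [e2, integral_sub iP iQ]
        ring
      rw [e]
      exact norm_add_le _ _
    have h2 : ‖∫ z, (P z - Q z) * (starRingEnd ℂ) (u z) ∂κ‖ ^ 2 ≤ η ^ 2 * U := by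
      refine (C3_int κ _ u hdL hu).trans ?_
      exact mul_le_mul_of_nonneg_right hsa hU0
    have h3 := h s a
    have h4 : ∫ z, ‖Q z‖ ^ 2 ∂κ' ≤ (1 + η) * N + (1 + 1 / η) * η ^ 2 := by
      have i1 : Integrable (fun z => ‖P z‖ ^ 2) κ' := hPL'.integrable_norm_pow (by norm_num)
      have i2 : Integrable (fun z => ‖P z - Q z‖ ^ 2) κ' := hdL'.integrable_norm_pow (by norm_num)
      have i2' : Integrable (fun z => ‖P z - Q z‖ ^ 2) κ := hdL.integrable_norm_pow (by norm_num)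
      have h5 : ∫ z, ‖P z - Q z‖ ^ 2 ∂κ' ≤ η ^ 2 :=
        (integral_mono_measure hκ (ae_of_all _ fun z => by positivity) i2').trans hsa
      calc ∫ z, ‖Q z‖ ^ 2 ∂κ' ≤ ∫ z, ((1 + η) * ‖P z‖ ^ 2 + (1 + 1 / η) * ‖P z - Q z‖ ^ 2) ∂κ' := by
            refine integral_mono_of_nonneg (ae_of_all _ fun z => by positivity)
              ((i1.const_mul _).add (i2.const_mul _)) (ae_of_all _ fun z => ?_)
            have h6 : ‖Q z‖ ≤ ‖P z‖ + ‖P z - Q z‖ := by
              have := norm_sub_le (P z) (P z - Q z)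
              rwa [sub_sub_cancel] at this
            exact (pow_le_pow_left₀ (norm_nonneg _) h6 2).trans (C3_split _ _ η hη)
        _ = (1 + η) * ∫ z, ‖P z‖ ^ 2 ∂κ' + (1 + 1 / η) * ∫ z, ‖P z - Q z‖ ^ 2 ∂κ' := by
            rw [integral_add (i1.const_mul _) (i2.const_mul _), integral_const_mul, integral_const_mul]
        _ ≤ (1 + η) * N + (1 + 1 / η) * η ^ 2 := by
            have : 0 ≤ 1 + 1 / η := by positivity
            linarith [mul_le_mul_of_nonneg_left h5 this]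
    have e5 : (1 + 1 / η) * η ^ 2 = η ^ 2 + η := by
      field_simp
    rw [e5] at h4
    calc ‖∫ z, P z * (starRingEnd ℂ) (u z) ∂κ‖ ^ 2
        ≤ (‖∫ z, Q z * (starRingEnd ℂ) (u z) ∂κ‖ + ‖∫ z, (P z - Q z) * (starRingEnd ℂ) (u z) ∂κ‖) ^ 2 :=
          pow_le_pow_left₀ (norm_nonneg _) h1 2
      _ ≤ (1 + η) * ‖∫ z, Q z * (starRingEnd ℂ) (u z) ∂κ‖ ^ 2
          + (1 + 1 / η) * ‖∫ z, (P z - Q z) * (starRingEnd ℂ) (u z) ∂κ‖ ^ 2 := C3_split _ _ η hη
      _ ≤ (1 + η) * (D * ((1 + η) * N + (η ^ 2 + η))) + (1 + 1 / η) * (η ^ 2 * U) := by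
          have p1 : 0 ≤ 1 + η := by positivity
          have p2 : 0 ≤ 1 + 1 / η := by positivity
          exact add_le_add (mul_le_mul_of_nonneg_left (h3.trans (mul_le_mul_of_nonneg_left h4 hD)) p1)
            (mul_le_mul_of_nonneg_left h2 p2)
      _ = _ := by
          rw [← mul_assoc (1 + 1 / η), e5]
  have hlim : Tendsto (fun η : ℝ => (1 + η) * (D * ((1 + η) * N + (η ^ 2 + η))) + (η ^ 2 + η) * U) (𝓝[>] 0)
      (𝓝 (D * N)) := by
    have hc : Continuous (fun η : ℝ => (1 + η) * (D * ((1 + η) * N + (η ^ 2 + η))) + (η ^ 2 + η) * U) := by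
      fun_prop
    have := hc.tendsto 0
    have e : (1 + (0 : ℝ)) * (D * ((1 + 0) * N + (0 ^ 2 + 0))) + (0 ^ 2 + 0) * U = D * N := by ring
    rw [e] at this
    exact this.mono_left nhdsWithin_le_nhds
  exact ge_of_tendsto hlim (eventually_nhdsWithin_of_forall fun η hη => key η hη)

/-- module C4.  `u = 0` almost everywhere on every set of `κ'`-measure zero: `P = conj`-sign of `u` on the set
(or `u` cut off at height `B`). -/
theorem null_of (κ κ' : Measure (Cir × Cir)) [IsFiniteMeasure κ] (u : Cir × Cir → ℂ)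
    (hum : Measurable u) (hu : MemLp u 2 κ) (D : ℝ) (hD : 0 ≤ D)
    (h : ∀ (P : Cir × Cir → ℂ), Measurable P → (∃ B : ℝ, ∀ z, ‖P z‖ ≤ B) →
      ‖∫ z, P z * (starRingEnd ℂ) (u z) ∂κ‖ ^ 2 ≤ D * ∫ z, ‖P z‖ ^ 2 ∂κ')
    (N : Set (Cir × Cir)) (hN : MeasurableSet N) (hN0 : κ' N = 0) :
    ∀ᵐ z ∂κ, z ∈ N → u z = 0 := by
  have h1 : ∀ n : ℕ, ∀ᵐ z ∂κ, z ∈ N → ‖u z‖ ≤ n → u z = 0 := by
    intro n
    set A : Set (Cir × Cir) := N ∩ {z | ‖u z‖ ≤ n} with hA
    have hAm : MeasurableSet A := hN.inter (measurableSet_le hum.norm measurable_const)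
    set P : Cir × Cir → ℂ := A.indicator u with hP
    have hPm : Measurable P := hum.indicator hAm
    have h2 := h P hPm ⟨n, fun z => by
      by_cases hz : z ∈ A
      · rw [hP, Set.indicator_of_mem hz]
        exact hz.2
      · rw [hP, Set.indicator_of_notMem hz, norm_zero]
        exact Nat.cast_nonneg n⟩
    have h3 : ∫ z, ‖P z‖ ^ 2 ∂κ' = 0 := by
      have h4 : ∀ᵐ z ∂κ', ‖P z‖ ^ 2 = 0 := by
        have h5 : ∀ᵐ z ∂κ', z ∉ N := measure_eq_zero_iff_ae_notMem.mp hN0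
        filter_upwards [h5] with z hz
        rw [hP, Set.indicator_of_notMem (fun q => hz q.1), norm_zero]
        norm_num
      rw [integral_congr_ae h4, integral_zero]
    rw [h3, mul_zero] at h2
    have h6 : ∫ z, P z * (starRingEnd ℂ) (u z) ∂κ = 0 := by
      have := le_antisymm h2 (sq_nonneg _)
      exact norm_eq_zero.mp (pow_eq_zero_iff two_ne_zero |>.mp this)
    have h7 : (fun z => P z * (starRingEnd ℂ) (u z)) = fun z => ((A.indicator (fun z => ‖u z‖ ^ 2) z : ℝ) : ℂ) := by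
      funext z
      by_cases hz : z ∈ A
      · rw [hP, Set.indicator_of_mem hz, Set.indicator_of_mem hz, Complex.mul_conj']
        push_cast
        rfl
      · rw [hP, Set.indicator_of_notMem hz, Set.indicator_of_notMem hz]
        simp
    rw [h7] at h6
    have h8 : ∫ z, A.indicator (fun z => ‖u z‖ ^ 2) z ∂κ = 0 := by
      have h9 := integral_complex_ofReal (μ := κ) (f := fun z => A.indicator (fun z => ‖u z‖ ^ 2) z)
      rw [h9] at h6
      exact_mod_cast h6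
    have h10 : Integrable (A.indicator (fun z => ‖u z‖ ^ 2)) κ :=
      (hu.integrable_norm_pow (by norm_num)).indicator hAm
    rw [integral_eq_zero_iff_of_nonneg (fun z => Set.indicator_nonneg (fun _ _ => by positivity) z) h10] at h8
    filter_upwards [h8] with z hz hzN hzn
    rw [Set.indicator_of_mem (show z ∈ A from ⟨hzN, hzn⟩)] at hz
    exact norm_eq_zero.mp (pow_eq_zero_iff two_ne_zero |>.mp hz)
  filter_upwards [ae_all_iff.mpr h1] with z hz hzN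
  obtain ⟨n, hn⟩ := exists_nat_ge ‖u z‖
  exact hz n hzN hn

private theorem C5_ac (κ κ' ρ : Measure (Cir × Cir)) (u : Cir × Cir → ℂ) (hum : Measurable u)
    (G : Set (Cir × Cir)) (hG : MeasurableSet G) (φ : Cir × Cir → Cir × Cir) (hφ : Measurable φ)
    (h1 : ∀ N, MeasurableSet N → ρ N = 0 → κ' (φ ⁻¹' N ∩ G) = 0)
    (h2 : ∀ N, MeasurableSet N → κ' N = 0 → ∀ᵐ z ∂κ, z ∈ N → u z = 0) :
    ((κ.withDensity fun z => ‖u z‖ₑ).restrict G).map φ ≪ ρ := by
  refine Measure.AbsolutelyContinuous.mk fun s hs hs0 => ?_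
  rw [Measure.map_apply hφ hs, Measure.restrict_apply (hφ hs), withDensity_apply _ ((hφ hs).inter hG)]
  have h3 := h2 _ ((hφ hs).inter hG) (h1 s hs hs0)
  rw [lintegral_eq_zero_iff hum.enorm, EventuallyEq, ae_restrict_iff' ((hφ hs).inter hG)]
  filter_upwards [h3] with z hz hzs
  rw [hz hzs]
  simp

private theorem C5_zero (κ : Measure (Cir × Cir)) (u : Cir × Cir → ℂ) (hum : Measurable u)
    (G : Set (Cir × Cir)) (hG : MeasurableSet G)
    (h : (κ.withDensity fun z => ‖u z‖ₑ).restrict G = 0) : ∀ᵐ z ∂κ, z ∈ G → u z = 0 := by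
  have h1 : (κ.withDensity fun z => ‖u z‖ₑ).restrict G Set.univ = 0 := by
    rw [h]
    rfl
  rw [Measure.restrict_apply_univ, withDensity_apply _ hG, lintegral_eq_zero_iff hum.enorm, EventuallyEq,
    ae_restrict_iff' hG] at h1
  filter_upwards [h1] with z hz hzG
  have := hz hzG
  simpa using this

private theorem C5_four_add (n : ℤ) (x y : Cir) : (fourier n (x + y) : ℂ) = fourier n x * fourier n y := by
  simp only [fourier_apply, smul_add, AddCircle.toCircle_add, Circle.coe_mul]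

private theorem C5_four_neg (n : ℤ) (x : Cir) : (fourier n (-x) : ℂ) = fourier (-n) x := by
  simp only [fourier_apply, smul_neg, neg_smul]

private theorem C5_four (p : ℤ × ℤ) (x y : Cir) :
    (fourier p.1 x * fourier p.2 (-x - y) : ℂ) = fourier (p.1 - p.2) x * fourier (-p.2) y := by
  rw [sub_eq_add_neg (-x) y, C5_four_add, C5_four_neg, C5_four_neg, sub_eq_add_neg p.1, fourier_add]
  ring

private theorem C5_four' (p : ℤ × ℤ) (x y : Cir) :
    (fourier p.1 (-x - y) * fourier p.2 x : ℂ) = fourier (p.2 - p.1) x * fourier (-p.1) y := by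
  rw [sub_eq_add_neg (-x) y, C5_four_add, C5_four_neg, C5_four_neg, sub_eq_add_neg p.2, fourier_add]
  ring

private theorem C5_res (σ : Measure Cir) (G : Set Cir) (h : ∀ t ∈ G, σ {t} = 0) (t : Cir) :
    (σ.restrict G) {t} = 0 := by
  rw [Measure.restrict_apply (MeasurableSet.singleton t)]
  by_cases ht : t ∈ G
  · exact measure_mono_null Set.inter_subset_left (h t ht)
  · have : {t} ∩ G = (∅ : Set Cir) := by
      rw [Set.singleton_inter_eq_empty]
      exact ht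
    rw [this, measure_empty]

private theorem C5_prod (σ ρ : Measure Cir) [IsFiniteMeasure σ] [IsFiniteMeasure ρ] (G : Set Cir) (hG : MeasurableSet G)
    (N : Set (Cir × Cir)) (hN : MeasurableSet N) (h : ((σ.restrict G).prod ρ) N = 0) :
    (σ.prod ρ) (N ∩ {z | z.1 ∈ G}) = 0 := by
  have h1 : (σ.restrict G).prod ρ = (σ.prod ρ).restrict (G ×ˢ Set.univ) := by
    rw [← Measure.prod_restrict, Measure.restrict_univ]
  rw [h1, Measure.restrict_apply hN] at h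
  refine measure_mono_null ?_ h
  rintro z ⟨hz, hz1⟩
  exact ⟨hz, hz1, Set.mem_univ _⟩

/-- module C5.  The correlation lemma.  `κ = κ12 + κ13 + κ23`, `κ12 = σ₁.prod σ₂`, `κ13` = image of `σ₁.prod σ₃`
under `(a,c) ↦ (a,-a-c)`, `κ23` = image of `σ₂.prod σ₃` under `(b,c) ↦ (-b-c,b)`; `riesz`, `ext_ineq`, `null_of`; then
`rigid` for `ν = |u| κ` on `{a ∈ G₁}` and `σ₁.restrict G₁`: `u = 0` almost everywhere on `{a ∈ G₁}`; the same with `a`, `b`
exchanged (`rigid` for the image of `ν` under `Prod.swap`, with `σ₂.restrict G₂`, `σ₁`, `σ₃`): `u = 0` on `{b ∈ G₂}`.  So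
`L 0 0 = ∫ 1_(a ∉ G₁, b ∉ G₂) conj u dκ`, and `ext_ineq` for `κ12`. -/
theorem corr (σ₁ σ₂ σ₃ : Measure Cir) [IsFiniteMeasure σ₁] [IsFiniteMeasure σ₂] [IsFiniteMeasure σ₃]
    (G₁ G₂ : Set Cir) (hG₁ : MeasurableSet G₁) (hG₂ : MeasurableSet G₂)
    (hs₁ : σ₁.restrict G₁ ⟂ₘ (volume : Measure Cir)) (ha₁ : ∀ t ∈ G₁, σ₁ {t} = 0)
    (hs₂ : σ₂.restrict G₂ ⟂ₘ (volume : Measure Cir)) (ha₂ : ∀ t ∈ G₂, σ₂ {t} = 0)
    (L : ℤ → ℤ → ℂ) (D₁ D₂ D₃ : ℝ) (hD₁ : 0 ≤ D₁) (hD₂ : 0 ≤ D₂) (hD₃ : 0 ≤ D₃)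
    (h12 : ∀ (s : Finset (ℤ × ℤ)) (a : ℤ × ℤ → ℂ), ‖∑ p ∈ s, a p * L p.1 p.2‖ ^ 2
      ≤ D₁ * ∫ z, ‖∑ p ∈ s, a p * (fourier p.1 z.1 * fourier p.2 z.2)‖ ^ 2 ∂(σ₁.prod σ₂))
    (h13 : ∀ (s : Finset (ℤ × ℤ)) (a : ℤ × ℤ → ℂ), ‖∑ p ∈ s, a p * L p.1 p.2‖ ^ 2
      ≤ D₂ * ∫ z, ‖∑ p ∈ s, a p * (fourier (p.1 - p.2) z.1 * fourier (-p.2) z.2)‖ ^ 2 ∂(σ₁.prod σ₃))
    (h23 : ∀ (s : Finset (ℤ × ℤ)) (a : ℤ × ℤ → ℂ), ‖∑ p ∈ s, a p * L p.1 p.2‖ ^ 2
      ≤ D₃ * ∫ z, ‖∑ p ∈ s, a p * (fourier (p.2 - p.1) z.1 * fourier (-p.1) z.2)‖ ^ 2 ∂(σ₂.prod σ₃)) :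
    ‖L 0 0‖ ^ 2 ≤ D₁ * (σ₁ G₁ᶜ).toReal * (σ₂ G₂ᶜ).toReal := by
  have mψ : Measurable fun z : Cir × Cir => (z.1, -z.1 - z.2) := by fun_prop
  have mψ' : Measurable fun z : Cir × Cir => (-z.1 - z.2, z.1) := by fun_prop
  set κ12 : Measure (Cir × Cir) := σ₁.prod σ₂ with hκ12
  set κ13 : Measure (Cir × Cir) := (σ₁.prod σ₃).map (fun z => (z.1, -z.1 - z.2)) with hκ13
  set κ23 : Measure (Cir × Cir) := (σ₂.prod σ₃).map (fun z => (-z.1 - z.2, z.1)) with hκ23
  set κ : Measure (Cir × Cir) := κ12 + κ13 + κ23 with hκ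
  have hle12 : κ12 ≤ κ := (Measure.le_add_right le_rfl : κ12 ≤ κ12 + κ13).trans (Measure.le_add_right le_rfl)
  have hle13 : κ13 ≤ κ := (Measure.le_add_left le_rfl : κ13 ≤ κ12 + κ13).trans (Measure.le_add_right le_rfl)
  have hle23 : κ23 ≤ κ := Measure.le_add_left le_rfl
  have hPc : ∀ (s : Finset (ℤ × ℤ)) (a : ℤ × ℤ → ℂ),
      Continuous fun z : Cir × Cir => ∑ p ∈ s, a p * (fourier p.1 z.1 * fourier p.2 z.2) := fun s a =>
    continuous_finsetSum _ fun p _ => continuous_const.mul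
      (((fourier p.1).continuous.comp continuous_fst).mul ((fourier p.2).continuous.comp continuous_snd))
  have hPc2 : ∀ (s : Finset (ℤ × ℤ)) (a : ℤ × ℤ → ℂ),
      Continuous fun z : Cir × Cir => ‖∑ p ∈ s, a p * (fourier p.1 z.1 * fourier p.2 z.2)‖ ^ 2 := fun s a =>
    (hPc s a).norm.pow 2
  have H12 : ∀ (s : Finset (ℤ × ℤ)) (a : ℤ × ℤ → ℂ), ‖∑ p ∈ s, a p * L p.1 p.2‖ ^ 2
      ≤ D₁ * ∫ z, ‖∑ p ∈ s, a p * (fourier p.1 z.1 * fourier p.2 z.2)‖ ^ 2 ∂κ12 := h12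
  have H13 : ∀ (s : Finset (ℤ × ℤ)) (a : ℤ × ℤ → ℂ), ‖∑ p ∈ s, a p * L p.1 p.2‖ ^ 2
      ≤ D₂ * ∫ z, ‖∑ p ∈ s, a p * (fourier p.1 z.1 * fourier p.2 z.2)‖ ^ 2 ∂κ13 := by
    intro s a
    rw [hκ13, integral_map mψ.aemeasurable (hPc2 s a).aestronglyMeasurable]
    simp only [C5_four]
    exact h13 s a
  have H23 : ∀ (s : Finset (ℤ × ℤ)) (a : ℤ × ℤ → ℂ), ‖∑ p ∈ s, a p * L p.1 p.2‖ ^ 2
      ≤ D₃ * ∫ z, ‖∑ p ∈ s, a p * (fourier p.1 z.1 * fourier p.2 z.2)‖ ^ 2 ∂κ23 := by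
    intro s a
    rw [hκ23, integral_map mψ'.aemeasurable (hPc2 s a).aestronglyMeasurable]
    simp only [C5_four']
    exact h23 s a
  have hPi : ∀ (s : Finset (ℤ × ℤ)) (a : ℤ × ℤ → ℂ),
      Integrable (fun z : Cir × Cir => ‖∑ p ∈ s, a p * (fourier p.1 z.1 * fourier p.2 z.2)‖ ^ 2) κ := fun s a =>
    (memLp_finsetSum s fun p _ => (C2_mem κ p).const_mul (a p)).integrable_norm_pow (by norm_num)
  have H : ∀ (s : Finset (ℤ × ℤ)) (a : ℤ × ℤ → ℂ), ‖∑ p ∈ s, a p * L p.1 p.2‖ ^ 2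
      ≤ D₁ * ∫ z, ‖∑ p ∈ s, a p * (fourier p.1 z.1 * fourier p.2 z.2)‖ ^ 2 ∂κ := by
    intro s a
    refine (H12 s a).trans (mul_le_mul_of_nonneg_left ?_ hD₁)
    exact integral_mono_measure hle12 (ae_of_all _ fun z => by positivity) (hPi s a)
  obtain ⟨u, hum, hu, hL⟩ := riesz κ L D₁ hD₁ H
  have hsum : ∀ (s : Finset (ℤ × ℤ)) (a : ℤ × ℤ → ℂ),
      ∫ z, (∑ p ∈ s, a p * (fourier p.1 z.1 * fourier p.2 z.2)) * (starRingEnd ℂ) (u z) ∂κ = ∑ p ∈ s, a p * L p.1 p.2 := by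
    intro s a
    have e1 : (fun z : Cir × Cir => (∑ p ∈ s, a p * (fourier p.1 z.1 * fourier p.2 z.2)) * (starRingEnd ℂ) (u z))
        = fun z => ∑ p ∈ s, a p * (fourier p.1 z.1 * fourier p.2 z.2 * (starRingEnd ℂ) (u z)) := by
      funext z
      rw [Finset.sum_mul]
      apply Finset.sum_congr rfl
      intro p _
      ring
    have hi : ∀ p : ℤ × ℤ, Integrable (fun z : Cir × Cir => (fourier p.1 z.1 * fourier p.2 z.2 : ℂ) * (starRingEnd ℂ) (u z)) κ :=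
      fun p => (C2_mem κ p).integrable_mul hu.star
    rw [e1, integral_finsetSum _ (fun p _ => (hi p).const_mul _)]
    apply Finset.sum_congr rfl
    intro p _
    rw [integral_const_mul, ← hL]
  have X12 := ext_ineq κ κ12 hle12 u hum hu D₁ hD₁ (fun s a => by rw [hsum]; exact H12 s a)
  have X13 := ext_ineq κ κ13 hle13 u hum hu D₂ hD₂ (fun s a => by rw [hsum]; exact H13 s a)
  have X23 := ext_ineq κ κ23 hle23 u hum hu D₃ hD₃ (fun s a => by rw [hsum]; exact H23 s a)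
  have N12 := null_of κ κ12 u hum hu D₁ hD₁ (fun P hP hB => X12 P hP hB.choose hB.choose_spec)
  have N13 := null_of κ κ13 u hum hu D₂ hD₂ (fun P hP hB => X13 P hP hB.choose hB.choose_spec)
  have N23 := null_of κ κ23 u hum hu D₃ hD₃ (fun P hP hB => X23 P hP hB.choose hB.choose_spec)
  have hfin : IsFiniteMeasure (κ.withDensity fun z => ‖u z‖ₑ) := by
    apply isFiniteMeasure_withDensity
    exact (hu.integrable (by norm_num)).2.ne
  set ω : Measure (Cir × Cir) := κ.withDensity fun z => ‖u z‖ₑ with hω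
  have mG₁ : MeasurableSet {z : Cir × Cir | z.1 ∈ G₁} := measurable_fst hG₁
  have mG₂ : MeasurableSet {z : Cir × Cir | z.2 ∈ G₂} := measurable_snd hG₂
  -- first coordinate
  have hz1 : ∀ᵐ z ∂κ, z ∈ {z : Cir × Cir | z.1 ∈ G₁} → u z = 0 := by
    apply C5_zero κ u hum _ mG₁
    apply rigid (σ₁.restrict G₁) σ₂ σ₃ _ hs₁ (C5_res σ₁ G₁ ha₁)
    · have h1 := C5_ac κ κ12 ((σ₁.restrict G₁).prod σ₂) u hum _ mG₁ id measurable_id (fun N hN hN0 => by
        rw [Set.preimage_id]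
        exact C5_prod σ₁ σ₂ G₁ hG₁ N hN hN0) N12
      rwa [Measure.map_id] at h1
    · apply C5_ac κ κ13 ((σ₁.restrict G₁).prod σ₃) u hum _ mG₁ _ mψ (fun N hN hN0 => ?_) N13
      rw [hκ13, Measure.map_apply mψ ((mψ hN).inter mG₁)]
      refine measure_mono_null ?_ (C5_prod σ₁ σ₃ G₁ hG₁ N hN hN0)
      rintro ⟨a, c⟩ ⟨h1, h2⟩
      refine ⟨?_, h2⟩
      have h3 : ((a, -a - (-a - c)) : Cir × Cir) ∈ N := h1
      rwa [sub_sub_cancel] at h3
    · have mφ : Measurable fun z : Cir × Cir => (z.2, -z.1 - z.2) := by fun_prop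
      apply C5_ac κ κ23 (σ₂.prod σ₃) u hum _ mG₁ _ mφ (fun N hN hN0 => ?_) N23
      rw [hκ23, Measure.map_apply mψ' ((mφ hN).inter mG₁)]
      refine measure_mono_null ?_ hN0
      rintro ⟨b, c⟩ ⟨h1, h2⟩
      have h3 : ((b, -(-b - c) - b) : Cir × Cir) ∈ N := h1
      have e : -(-b - c) - b = c := by abel
      rwa [e] at h3
  have hz2 : ∀ᵐ z ∂κ, z ∈ {z : Cir × Cir | z.2 ∈ G₂} → u z = 0 := by
    apply C5_zero κ u hum _ mG₂
    have hsw : Measurable (Prod.swap : Cir × Cir → Cir × Cir) := measurable_swap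
    have h0 : (ω.restrict {z : Cir × Cir | z.2 ∈ G₂}).map Prod.swap = 0 := by
      apply rigid (σ₂.restrict G₂) σ₁ σ₃ _ hs₂ (C5_res σ₂ G₂ ha₂)
      · apply C5_ac κ κ12 ((σ₂.restrict G₂).prod σ₁) u hum _ mG₂ _ hsw (fun N hN hN0 => ?_) N12
        have h1 := C5_prod σ₂ σ₁ G₂ hG₂ N hN hN0
        rw [hκ12, ← Measure.prod_swap, Measure.map_apply hsw ((hsw hN).inter mG₂)]
        exact h1
      · have mφ : Measurable fun z : Cir × Cir => (z.1, -z.1 - z.2) := mψ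
        rw [Measure.map_map mφ hsw]
        apply C5_ac κ κ23 ((σ₂.restrict G₂).prod σ₃) u hum _ mG₂ _ (mφ.comp hsw) (fun N hN hN0 => ?_) N23
        rw [hκ23, Measure.map_apply mψ' (((mφ.comp hsw) hN).inter mG₂)]
        refine measure_mono_null ?_ (C5_prod σ₂ σ₃ G₂ hG₂ N hN hN0)
        rintro ⟨b, c⟩ ⟨h1, h2⟩
        refine ⟨?_, h2⟩
        have h3 : ((b, -b - (-b - c)) : Cir × Cir) ∈ N := h1
        rwa [sub_sub_cancel] at h3
      · have mφ : Measurable fun z : Cir × Cir => (z.2, -z.1 - z.2) := by fun_prop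
        rw [Measure.map_map mφ hsw]
        apply C5_ac κ κ13 (σ₁.prod σ₃) u hum _ mG₂ _ (mφ.comp hsw) (fun N hN hN0 => ?_) N13
        rw [hκ13, Measure.map_apply mψ (((mφ.comp hsw) hN).inter mG₂)]
        refine measure_mono_null ?_ hN0
        rintro ⟨a, c⟩ ⟨h1, h2⟩
        have h3 : ((a, -(-a - c) - a) : Cir × Cir) ∈ N := h1
        have e : -(-a - c) - a = c := by abel
        rwa [e] at h3
    have h1 : (ω.restrict {z : Cir × Cir | z.2 ∈ G₂}) Set.univ = 0 := by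
      have h2 : (ω.restrict {z : Cir × Cir | z.2 ∈ G₂}).map Prod.swap Set.univ = 0 := by
        rw [h0]
        rfl
      rwa [Measure.map_apply hsw MeasurableSet.univ, Set.preimage_univ] at h2
    exact Measure.measure_univ_eq_zero.mp h1
  set P : Cir × Cir → ℂ := (G₁ᶜ ×ˢ G₂ᶜ).indicator (fun _ => 1) with hP
  have mP : MeasurableSet (G₁ᶜ ×ˢ G₂ᶜ) := hG₁.compl.prod hG₂.compl
  have e0 : L 0 0 = ∫ z, P z * (starRingEnd ℂ) (u z) ∂κ := by
    rw [hL]
    apply integral_congr_ae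
    filter_upwards [hz1, hz2] with z h1 h2
    by_cases hz : z ∈ G₁ᶜ ×ˢ G₂ᶜ
    · rw [hP, Set.indicator_of_mem hz]
      simp
    · have hu0 : u z = 0 := by
        by_cases hz1 : z.1 ∈ G₁
        · exact h1 hz1
        · by_cases hz2 : z.2 ∈ G₂
          · exact h2 hz2
          · exact absurd ⟨hz1, hz2⟩ hz
      rw [hu0]
      simp
  rw [e0]
  refine (X12 P (measurable_const.indicator mP) 1 (fun z => ?_)).trans (le_of_eq ?_)
  · by_cases hz : z ∈ G₁ᶜ ×ˢ G₂ᶜ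
    · rw [hP, Set.indicator_of_mem hz]
      simp
    · rw [hP, Set.indicator_of_notMem hz]
      simp
  · have e1 : (fun z => ‖P z‖ ^ 2) = (G₁ᶜ ×ˢ G₂ᶜ).indicator (fun _ => (1 : ℝ)) := by
      funext z
      by_cases hz : z ∈ G₁ᶜ ×ˢ G₂ᶜ
      · rw [hP, Set.indicator_of_mem hz, Set.indicator_of_mem hz]
        simp
      · rw [hP, Set.indicator_of_notMem hz, Set.indicator_of_notMem hz]
        simp
    rw [e1, integral_indicator mP, setIntegral_const, smul_eq_mul, mul_one, measureReal_def, hκ12, Measure.prod_prod,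
      ENNReal.toReal_mul, mul_assoc]

end Pool.Agent.Sgs
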