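import Mathlib

/-!
# Random differences and singular spectrum (MP_24534d_co): definitions
-/

set_option autoImplicit false

namespace Pool.Agent.Sgs

open MeasureTheory Filter Finset
open scoped Topology ENNReal

/-- The circle `ℝ / ℤ`. -/
abbrev Cir : Type := AddCircle (1 : ℝ)

/-- The weights of the random set: nonnegative, and close to `1/d` on every block `[2^j, 4^j]`, uniformly in
all frequencies. -/
def GW (W : ℕ → ℝ) : Prop :=
  (∀ d, 0 ≤ W d) ∧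
    ∀ ε : ℝ, 0 < ε → ∃ j0 : ℕ, ∀ j : ℕ, j0 ≤ j → ∀ θ : ℝ,
      |∑ d ∈ Icc (2 ^ j) (4 ^ j), (W d - 1 / (d : ℝ)) * Real.cos (2 * Real.pi * d * θ)| ≤ ε * j

/-- Two sided weighted average over the block `[2^j, 4^j]` (complex sequences). -/
noncomputable def E2 (W : ℕ → ℝ) (j : ℕ) (a : ℤ → ℂ) : ℂ :=
  (∑ d ∈ Icc (2 ^ j) (4 ^ j), (W d : ℂ) * (a d + a (-(d : ℤ)))) / ((2 * j * Real.log 2 : ℝ) : ℂ)

/-- Two sided weighted average over the block `[2^j, 4^j]` (real sequences). -/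
noncomputable def R2 (W : ℕ → ℝ) (j : ℕ) (a : ℤ → ℝ) : ℝ :=
  (∑ d ∈ Icc (2 ^ j) (4 ^ j), W d * (a d + a (-(d : ℤ)))) / (2 * j * Real.log 2)

/-- A measure preserving action of `ℤ`, written as the family of its powers. -/
structure Sys {X : Type} [MeasurableSpace X] (μ : Measure X) (τ : ℤ → X → X) : Prop where
  zero : ∀ x, τ 0 x = x
  add : ∀ m n x, τ (m + n) x = τ m (τ n x)
  mp : ∀ n, MeasurePreserving (τ n) μ μ

/-- Bounded measurable functions. -/
def Bd {X : Type} [MeasurableSpace X] (f : X → ℂ) : Prop :=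
  Measurable f ∧ ∃ C : ℝ, ∀ x, ‖f x‖ ≤ C

/-- `σ` is the spectral measure of `f`. -/
def Sp {X : Type} [MeasurableSpace X] (μ : Measure X) (τ : ℤ → X → X) (f : X → ℂ) (σ : Measure Cir) : Prop :=
  IsFiniteMeasure σ ∧
    ∀ n : ℤ, ∫ x, f (τ n x) * (starRingEnd ℂ) (f x) ∂μ = ∫ t, fourier n t ∂σ

/-- Mixing of all orders, for a single function. -/
def Mx {X : Type} [MeasurableSpace X] (μ : Measure X) (τ : ℤ → X → X) (h : X → ℂ) : Prop :=
  ∀ (I : Finset ℤ) (m : ℤ), m ∉ I → ∀ F : ℤ → X → ℂ, (∀ i, Bd (F i)) →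
    Tendsto (fun d : ℕ => ∫ x, h (τ (m * d) x) * ∏ i ∈ I, F i (τ (i * d) x) ∂μ) atTop (𝓝 0)

/-- Mixing of order three, for a single function. -/
def Mx3 {X : Type} [MeasurableSpace X] (μ : Measure X) (τ : ℤ → X → X) (h : X → ℂ) : Prop :=
  ∀ a b c : ℤ, a ≠ b → a ≠ c → b ≠ c → ∀ F G : X → ℂ, Bd F → Bd G →
    Tendsto (fun d : ℕ => ∫ x, h (τ (a * d) x) * F (τ (b * d) x) * G (τ (c * d) x) ∂μ) atTop (𝓝 0)

/-- Translation by `t` changes the measure `m` by at most `κ` (on every Borel set). -/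
def CL (m : Measure Cir) (t : Cir) (κ : ℝ) : Prop :=
  ∀ B : Set Cir, MeasurableSet B → |m.real B - m.real ((fun x => x + t) ⁻¹' B)| ≤ κ

end Pool.Agent.Sgs
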