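import Pool.Agent.Sgs.Plus

/-!
# Theorem B+: assembly
-/

set_option autoImplicit false

namespace Pool.Agent.Sgs

open MeasureTheory Filter Finset
open scoped Topology ENNReal

/-- a weighted average is at most the maximum -/
theorem extract2 (W : ℕ → ℝ) (hW : ∀ d, 0 ≤ W d) (j : ℕ) (hj : 1 ≤ j) (a : ℤ → ℝ) (c : ℝ)
    (h : c * R2 W j (fun _ => 1) < R2 W j a) :
    ∃ d : ℕ, 2 ^ j ≤ d ∧ W d ≠ 0 ∧ (c < a d ∨ c < a (-(d : ℤ))) := by
  by_contra hcon
  push Not at hcon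
  have hL : 0 < 2 * (j : ℝ) * Real.log 2 := by
    have h1 : 0 < Real.log 2 := Real.log_pos (by norm_num)
    have h2 : (1 : ℝ) ≤ j := by exact_mod_cast hj
    positivity
  have key : ∑ d ∈ Icc (2 ^ j) (4 ^ j), W d * (a d + a (-(d : ℤ))) ≤ ∑ d ∈ Icc (2 ^ j) (4 ^ j), W d * (c * (1 + 1)) := by
    refine Finset.sum_le_sum fun d hd => ?_
    have hd1 : 2 ^ j ≤ d := (Finset.mem_Icc.mp hd).1
    by_cases h0 : W d = 0
    · rw [h0, zero_mul, zero_mul]
    · obtain ⟨h1, h2⟩ := hcon d hd1 h0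
      exact mul_le_mul_of_nonneg_left (by linarith) (hW d)
  have h2 : R2 W j a ≤ c * R2 W j (fun _ => 1) := by
    unfold R2
    rw [← mul_div_assoc]
    refine div_le_div_of_nonneg_right ?_ hL.le
    refine key.trans (le_of_eq ?_)
    rw [Finset.mul_sum]
    refine Finset.sum_congr rfl fun d _ => ?_
    ring
  linarith

/-- the assembly of Theorem B, for given weights and given error bounds; `d` beyond any bound -/
theorem asm {X : Type} [MeasurableSpace X] (μ : Measure X) [IsProbabilityMeasure μ] (τ : ℤ → X → X)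
    (hτ : Sys μ τ) (he : Erg μ τ) (W : ℕ → ℝ) (hW : GW W)
    (A : Set X) (hA : MeasurableSet A) (g h : X → ℂ) (hg : Bd g) (hh : Bd h)
    (hf : ∀ᵐ x ∂μ, A.indicator (fun _ => (1 : ℂ)) x = g x + h x) (hm : Mx3 μ τ h)
    (σ : Measure Cir) (hσ : Sp μ τ g σ) (u : Cir → X → ℂ) (hu : Eig μ τ g σ u)
    (F : Finset Cir) (h0F : (0 : Cir) ∈ F) (e1 : ℝ) (he1p : 0 < e1) (w : ℤ → ℝ) (c : ℝ) (hc : 0 < c)
    (hw : ∀ d, 0 ≤ w d ∧ w d ≤ 1) (hw2 : ∀ d : ℤ, (∃ κ ∈ F, e1 / 10 ≤ ‖d • κ‖) → w d ≤ e1 * c)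
    (t5 : ∀ᶠ j : ℕ in atTop, c ≤ R2 W j w)
    (t1 : ∀ᶠ j : ℕ in atTop,
      ‖E2 W j (fun d => (w d : ℂ) * ∫ x, A.indicator (fun _ => (1 : ℂ)) x
          * (g (τ d x) - ∑ κ ∈ F, u κ (τ d x)) * (starRingEnd ℂ) (∑ κ ∈ F, u κ (τ (2 * d) x)) ∂μ)‖
        ≤ e1 * R2 W j w + e1 * c)
    (t2 : ∀ᶠ j : ℕ in atTop,
      ‖E2 W j (fun d => (w d : ℂ) * ∫ x, A.indicator (fun _ => (1 : ℂ)) x
          * A.indicator (fun _ => (1 : ℂ)) (τ d x)
          * (starRingEnd ℂ) (g (τ (2 * d) x) - ∑ κ ∈ F, u κ (τ (2 * d) x)) ∂μ)‖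
        ≤ e1 * R2 W j w + e1 * c) (m : ℕ) :
    ∃ d : ℕ, m < d ∧ W d ≠ 0 ∧
      μ.real A ^ 3 - 14 * e1 < μ.real {x | x ∈ A ∧ τ (d : ℤ) x ∈ A ∧ τ (2 * (d : ℤ)) x ∈ A} := by
  classical
  have := hσ.1
  have hmass := mass_le μ τ hτ A hA g h hg hh hf hm σ hσ u hu F
  have hmain := main_mass μ τ hτ he A hA g h hg hh hf hm σ hσ u hu F h0F
  set v : X → ℂ := fun x => ∑ κ ∈ F, u κ x with hv
  have hvB : Bd v := S3_bd_sum F _ fun κ _ => hu.bd κ
  set δ : ℝ := μ.real A with hδ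
  have hδ0 : 0 ≤ δ := measureReal_nonneg
  have hδ1 : δ ≤ 1 := measureReal_le_one
  have hδ3 : δ ^ 3 ≤ 1 := pow_le_one₀ hδ0 hδ1
  set I : ℤ → ℝ := fun d => μ.real {x | x ∈ A ∧ τ d x ∈ A ∧ τ (2 * d) x ∈ A} with hI
  set Mn : ℤ → ℂ := fun d =>
    ∫ x, A.indicator (fun _ => (1 : ℂ)) x * v (τ d x) * (starRingEnd ℂ) (v (τ (2 * d) x)) ∂μ with hMn
  set E1 : ℤ → ℂ := fun d => ∫ x, A.indicator (fun _ => (1 : ℂ)) x * (g (τ d x) - v (τ d x))
    * (starRingEnd ℂ) (v (τ (2 * d) x)) ∂μ with hE1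
  set E2' : ℤ → ℂ := fun d => ∫ x, A.indicator (fun _ => (1 : ℂ)) x * A.indicator (fun _ => (1 : ℂ)) (τ d x)
            * (starRingEnd ℂ) (g (τ (2 * d) x) - v (τ (2 * d) x)) ∂μ with hE2
  set N1 : ℤ → ℂ := fun d => ∫ x, h (τ (1 * d) x) * A.indicator (fun _ => (1 : ℂ)) (τ (0 * d) x)
            * (starRingEnd ℂ) (v (τ (2 * d) x)) ∂μ with hN1
  set N2 : ℤ → ℂ := fun d => ∫ x, (starRingEnd ℂ) (h (τ (2 * d) x)) * A.indicator (fun _ => (1 : ℂ)) (τ (0 * d) x)
            * A.indicator (fun _ => (1 : ℂ)) (τ (1 * d) x) ∂μ with hN2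
  have hdec : ∀ d, ((I d : ℝ) : ℂ) = Mn d + E1 d + E2' d + N1 d + N2 d := fun d =>
    B11_dec μ τ hτ A hA g h v hg hh hvB hf d
  have hR : ∀ j, ((R2 W j (fun d => w d * I d) : ℝ) : ℂ) = E2 W j (fun d => (w d : ℂ) * Mn d)
      + E2 W j (fun d => (w d : ℂ) * E1 d) + E2 W j (fun d => (w d : ℂ) * E2' d)
      + E2 W j (fun d => (w d : ℂ) * N1 d) + E2 W j (fun d => (w d : ℂ) * N2 d) := by
    intro j
    rw [← E2_add, ← E2_add, ← E2_add, ← E2_add, ← E2_ofReal]
    congr 1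
    funext d
    rw [Complex.ofReal_mul, hdec]
    ring
  -- the main term
  have hmn : ∀ d, w d * (δ ^ 3 - 3 * e1) - 2 * (e1 * c) ≤ ((w d : ℂ) * Mn d).re := by
    intro d
    rw [Complex.re_ofReal_mul]
    have hwd := hw d
    by_cases hd : ∃ κ ∈ F, e1 / 10 ≤ ‖d • κ‖
    · have h1 := hw2 d hd
      have h2 : ‖Mn d‖ ≤ 1 := rot_triv μ τ hτ A hA g hg σ hσ u hu F hmass d
      have h3 : -1 ≤ (Mn d).re := by
        have := Complex.abs_re_le_norm (Mn d)
        have := abs_le.mp (this.trans h2)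
        exact this.1
      have h4 : w d * (δ ^ 3 - 3 * e1) ≤ w d * 1 := mul_le_mul_of_nonneg_left (by linarith) hwd.1
      have h5 : w d * (-1) ≤ w d * (Mn d).re := mul_le_mul_of_nonneg_left h3 hwd.1
      have h6 : 0 < e1 * c := mul_pos he1p hc
      linarith
    · push Not at hd
      have h1 := rot μ τ hτ A hA g hg σ hσ u hu F hmass e1 he1p d (fun κ hκ => (hd κ hκ).le)
      have h2 : (∫ x in A, ‖∑ κ ∈ F, u κ x‖ ^ 2 ∂μ) - 3 * e1 ≤ (Mn d).re := by
        have h3 := (Complex.abs_re_le_norm _).trans h1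
        rw [Complex.sub_re, Complex.ofReal_re] at h3
        have h4 := (abs_le.mp h3).1
        have h5 : (Mn d).re = (∫ x, A.indicator (fun _ => (1 : ℂ)) x * (∑ κ ∈ F, u κ (τ d x))
          * (starRingEnd ℂ) (∑ κ ∈ F, u κ (τ (2 * d) x)) ∂μ).re := rfl
        rw [h5]
        linarith
      have h4 : w d * (δ ^ 3 - 3 * e1) ≤ w d * (Mn d).re := mul_le_mul_of_nonneg_left (by linarith) hwd.1
      have h6 : 0 < e1 * c := mul_pos he1p hc
      linarith
  -- eventually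
  have hρ : 0 < e1 * c := mul_pos he1p hc
  have t3 := (err3 μ τ hτ W hW w hw h (A.indicator (fun _ => (1 : ℂ))) (fun x => (starRingEnd ℂ) (v x)) hh
    (B11_bdA A hA) (B11_conj _ hvB) hm 1 0 2 (by norm_num) (by norm_num) (by norm_num)).1
  have t4 := (err3 μ τ hτ W hW w hw h (A.indicator (fun _ => (1 : ℂ))) (A.indicator (fun _ => (1 : ℂ))) hh
    (B11_bdA A hA) (B11_bdA A hA) hm 2 0 1 (by norm_num) (by norm_num) (by norm_num)).2
  have t3' : ∀ᶠ j : ℕ in atTop, ‖E2 W j (fun d => (w d : ℂ) * N1 d)‖ < e1 * c := by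
    have := t3.norm
    rw [norm_zero] at this
    exact this.eventually (gt_mem_nhds hρ)
  have t4' : ∀ᶠ j : ℕ in atTop, ‖E2 W j (fun d => (w d : ℂ) * N2 d)‖ < e1 * c := by
    have := t4.norm
    rw [norm_zero] at this
    exact this.eventually (gt_mem_nhds hρ)
  have t6 := (mass W hW).eventually (eventually_le_nhds (show (1 : ℝ) < 2 by norm_num))
  obtain ⟨j, hj1, h1, h2, h3, h4, h5, h6⟩ :=
    ((eventually_ge_atTop (m + 1)).and (t1.and (t2.and (t3'.and (t4'.and (t5.and t6)))))).exists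
  have hre := congrArg Complex.re (hR j)
  rw [Complex.ofReal_re] at hre
  simp only [Complex.add_re] at hre
  have b1 : (δ ^ 3 - 3 * e1) * R2 W j w - 4 * (e1 * c) ≤ (E2 W j (fun d => (w d : ℂ) * Mn d)).re := by
    rw [E2_re]
    have hh1 : R2 W j (fun d => w d * (δ ^ 3 - 3 * e1) + (-(2 * (e1 * c)))) ≤ R2 W j (fun d => ((w d : ℂ) * Mn d).re) := by
      apply R2_mono W hW.1
      intro d
      have := hmn d
      linarith
    have hh2 : R2 W j (fun d => w d * (δ ^ 3 - 3 * e1) + (-(2 * (e1 * c))))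
        = (δ ^ 3 - 3 * e1) * R2 W j w + (-(2 * (e1 * c))) * R2 W j (fun _ => 1) := by
      rw [R2_add, ← R2_smul, ← R2_smul]
      congr 1
      · congr 1; funext d; ring
      · congr 1; funext d; ring
    rw [hh2] at hh1
    have : (2 * (e1 * c)) * R2 W j (fun _ => 1) ≤ (2 * (e1 * c)) * 2 :=
      mul_le_mul_of_nonneg_left h6 (by positivity)
    linarith
  have b2 : -(e1 * R2 W j w + e1 * c) ≤ (E2 W j (fun d => (w d : ℂ) * E1 d)).re :=
    (abs_le.mp ((Complex.abs_re_le_norm _).trans h1)).1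
  have b3 : -(e1 * R2 W j w + e1 * c) ≤ (E2 W j (fun d => (w d : ℂ) * E2' d)).re :=
    (abs_le.mp ((Complex.abs_re_le_norm _).trans h2)).1
  have b4 : -(e1 * c) ≤ (E2 W j (fun d => (w d : ℂ) * N1 d)).re :=
    (abs_le.mp ((Complex.abs_re_le_norm _).trans h3.le)).1
  have b5 : -(e1 * c) ≤ (E2 W j (fun d => (w d : ℂ) * N2 d)).re :=
    (abs_le.mp ((Complex.abs_re_le_norm _).trans h4.le)).1
  have hcw : e1 * c ≤ e1 * R2 W j w := mul_le_mul_of_nonneg_left h5 he1p.le
  have b6 : (δ ^ 3 - 13 * e1) * R2 W j w ≤ R2 W j (fun d => w d * I d) := by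
    rw [hre]
    have : (δ ^ 3 - 13 * e1) * R2 W j w = (δ ^ 3 - 3 * e1) * R2 W j w - 10 * (e1 * R2 W j w) := by ring
    rw [this]
    linarith
  have b7 : 0 * R2 W j (fun _ => 1) < R2 W j (fun d => w d * (I d - (δ ^ 3 - 14 * e1))) := by
    have hh2 : R2 W j (fun d => w d * (I d - (δ ^ 3 - 14 * e1)))
        = R2 W j (fun d => w d * I d) + (-(δ ^ 3 - 14 * e1)) * R2 W j w := by
      rw [← R2_smul, ← R2_add]
      congr 1; funext d; ring
    rw [hh2, zero_mul]
    have h7 : 0 < e1 * R2 W j w := lt_of_lt_of_le hρ hcw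
    have : (δ ^ 3 - 14 * e1) * R2 W j w = (δ ^ 3 - 13 * e1) * R2 W j w - e1 * R2 W j w := by ring
    linarith
  obtain ⟨d, hd1, hdW, hd⟩ := extract2 W hW.1 j (by omega) _ 0 b7
  refine ⟨d, lt_of_lt_of_le (lt_of_lt_of_le (Nat.lt_succ_self m) hj1) (Nat.lt_two_pow_self.le.trans hd1), hdW, ?_⟩
  have hfin : δ ^ 3 - 14 * e1 < I (d : ℤ) := by
    rcases hd with hd | hd
    · have := B11_pos _ _ hd (hw (d : ℤ)).1
      linarith
    · have h8 := B11_pos _ _ hd (hw (-(d : ℤ))).1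
      have h9 : I (-(d : ℤ)) = I (d : ℤ) := by
        have h10 := sym_set μ τ hτ A hA 2 (d : ℤ)
        have h11 : ∀ n : ℤ, {x | ∀ i : ℕ, i ≤ 2 → τ ((i : ℤ) * n) x ∈ A}
            = {x | x ∈ A ∧ τ n x ∈ A ∧ τ (2 * n) x ∈ A} := by
          intro n
          ext x
          simp only [Set.mem_ofPred_eq]
          constructor
          · intro hx
            have a0 := hx 0 (by norm_num)
            have a1 := hx 1 (by norm_num)
            have a2 := hx 2 (by norm_num)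
            simp only [Nat.cast_zero, zero_mul, Nat.cast_one, one_mul, Nat.cast_ofNat] at a0 a1 a2
            rw [hτ.zero] at a0
            exact ⟨a0, a1, a2⟩
          · rintro ⟨a0, a1, a2⟩ i hi
            interval_cases i
            · simp only [Nat.cast_zero, zero_mul]; rw [hτ.zero]; exact a0
            · simpa using a1
            · simpa using a2
        rw [h11, h11] at h10
        exact h10
      rw [h9] at h8
      linarith
  exact hfin

/-! ## module Q8: Theorem B+ for given weights -/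

/-- `wtsp` for every `n` gives `c n`; `pigeon` with `Θ n = (e1 c(n) / (8 (n+2)))²`, `e1 = ε / 20`, and `e1²`;
`a = min_{n ≤ N} (e1 c(n) / (8 (M+1)))²`; `err1p`, `err2p`, `asm`. -/
theorem thmBp_sys (ε M : ℝ) (hε : 0 < ε) :
    ∃ a : ℝ, 0 < a ∧ ∀ (X : Type) [MeasurableSpace X] (μ : Measure X) [IsProbabilityMeasure μ] (τ : ℤ → X → X),
      Sys μ τ → Erg μ τ → ∀ (W : ℕ → ℝ), GW W → ∀ (A : Set X), MeasurableSet A → ∀ (g h : X → ℂ), Bd g → Bd h →
      (∀ᵐ x ∂μ, A.indicator (fun _ => (1 : ℂ)) x = g x + h x) → Mx3 μ τ h →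
      ∀ (σ : Measure Cir), Sp μ τ g σ → (σ Set.univ).toReal ≤ M →
      ∀ (E : Set Cir), MeasurableSet E → volume E = 0 → (σ Eᶜ).toReal ≤ a → ∀ m : ℕ,
        ∃ d : ℕ, m < d ∧ W d ≠ 0 ∧
          μ.real A ^ 3 - ε < μ.real {x | x ∈ A ∧ τ (d : ℤ) x ∈ A ∧ τ (2 * (d : ℤ)) x ∈ A} := by
  classical
  have he1 : 0 < ε / 20 := by positivity
  choose c hc hcF using fun n : ℕ => wtsp n (ε / 20 / 10) (ε / 20) (by positivity) he1
  have hMp : 0 < |M| + 1 := by positivity
  have hΘ : ∀ n : ℕ, 0 < (ε / 20 * c n / (8 * ((n : ℝ) + 2))) ^ 2 := by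
    intro n
    have := hc n
    positivity
  obtain ⟨N, hN⟩ := pigeon (fun n : ℕ => (ε / 20 * c n / (8 * ((n : ℝ) + 2))) ^ 2) hΘ ((ε / 20) ^ 2) (by positivity)
  obtain ⟨n0, hn0, hmin⟩ := Finset.exists_min_image (Finset.range (N + 1))
    (fun n : ℕ => (ε / 20 * c n / (8 * (|M| + 1))) ^ 2) ⟨0, Finset.mem_range.mpr (Nat.succ_pos N)⟩
  refine ⟨(ε / 20 * c n0 / (8 * (|M| + 1))) ^ 2, by have := hc n0; positivity, ?_⟩
  intro X _ μ _ τ hτ he W hW A hA g h hg hh hf hm σ hσ hM E hE hE0 hEa m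
  have hfin := hσ.1
  obtain ⟨u, hu⟩ := eig_ex μ τ hτ g hg σ hσ
  have hmass : ∀ F : Finset Cir, ∑ κ ∈ F, (σ {κ}).toReal ≤ 1 := fun F =>
    mass_le μ τ hτ A hA g h hg hh hf hm σ hσ u hu F
  obtain ⟨F, F', h0F, hFF, hcard, hsum, hatom⟩ := hN σ hfin hmass
  obtain ⟨L, b, w, hb, hb1, hwb, hw, hw2, hw3⟩ := hcF F.card F le_rfl
  set n : ℕ := F.card with hn
  have hcn : 0 < c n := hc n
  have hM0 : 0 ≤ M := ENNReal.toReal_nonneg.trans hM
  have hMabs : |M| = M := abs_of_nonneg hM0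
  set k : ℝ := ε / 20 * c n with hk
  have hk0 : 0 < k := by positivity
  have hEa2 : (σ Eᶜ).toReal ≤ (k / (8 * (M + 1))) ^ 2 := by
    have h1 := hmin n (Finset.mem_range.mpr (by omega))
    simp only [hMabs] at h1
    rw [hMabs] at hEa
    exact hEa.trans h1
  have hsE : Real.sqrt ((σ Eᶜ).toReal) ≤ k / (8 * (M + 1)) := by
    rw [← Real.sqrt_sq (show 0 ≤ k / (8 * (M + 1)) by positivity)]
    exact Real.sqrt_le_sqrt hEa2
  have hsM : Real.sqrt M ≤ M + 1 := by
    rw [Real.sqrt_le_left (by linarith)]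
    nlinarith
  have b1 : Real.sqrt (M * (σ Eᶜ).toReal) ≤ k / 8 := by
    rw [Real.sqrt_mul hM0]
    calc Real.sqrt M * Real.sqrt ((σ Eᶜ).toReal) ≤ (M + 1) * (k / (8 * (M + 1))) :=
          mul_le_mul hsM hsE (Real.sqrt_nonneg _) (by linarith)
      _ = k / 8 := by field_simp
  have b2 : M * Real.sqrt ((σ Eᶜ).toReal) ≤ k / 8 := by
    calc M * Real.sqrt ((σ Eᶜ).toReal) ≤ (M + 1) * (k / (8 * (M + 1))) :=
          mul_le_mul (by linarith) hsE (Real.sqrt_nonneg _) (by linarith)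
      _ = k / 8 := by field_simp
  have hn2 : (0 : ℝ) < (n : ℝ) + 2 := by positivity
  have hθ0 : 0 ≤ k / (8 * ((n : ℝ) + 2)) := by positivity
  have hsθ : Real.sqrt ((k / (8 * ((n : ℝ) + 2))) ^ 2) = k / (8 * ((n : ℝ) + 2)) := Real.sqrt_sq hθ0
  have b3 : (n : ℝ) * Real.sqrt ((k / (8 * ((n : ℝ) + 2))) ^ 2) ≤ k / 8 := by
    rw [hsθ]
    calc (n : ℝ) * (k / (8 * ((n : ℝ) + 2))) ≤ ((n : ℝ) + 2) * (k / (8 * ((n : ℝ) + 2))) :=
          mul_le_mul_of_nonneg_right (by linarith) hθ0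
      _ = k / 8 := by field_simp
  have b4 : Real.sqrt (2 * (k / (8 * ((n : ℝ) + 2))) ^ 2) ≤ k / 8 := by
    rw [Real.sqrt_mul (by norm_num), hsθ]
    have h1 : Real.sqrt 2 ≤ 2 := by
      rw [Real.sqrt_le_left (by norm_num)]
      norm_num
    calc Real.sqrt 2 * (k / (8 * ((n : ℝ) + 2))) ≤ ((n : ℝ) + 2) * (k / (8 * ((n : ℝ) + 2))) := by
          refine mul_le_mul_of_nonneg_right ?_ hθ0
          have : (0 : ℝ) ≤ n := Nat.cast_nonneg n
          linarith
      _ = k / 8 := by field_simp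
  have hkp : 0 < k / 8 := by positivity
  have t1 := err1p μ τ hτ he W hW L b w hb hb1 hwb hw A hA g h hg hh hf hm σ hσ E hE hE0 u hu F F' hFF (ε / 20) he1
    hsum ((k / (8 * ((n : ℝ) + 2))) ^ 2) (sq_nonneg _) hatom M hM (k / 8) hkp
  have t2 := err2p μ τ hτ he W hW L b w hb hb1 hwb hw A hA g h hg hh hf hm σ hσ E hE hE0 u hu F F' hFF (ε / 20) he1
    hsum ((k / (8 * ((n : ℝ) + 2))) ^ 2) (sq_nonneg _) hatom M hM (k / 8) hkp
  obtain ⟨d, hd1, hd2, hd3⟩ := asm μ τ hτ he W hW A hA g h hg hh hf hm σ hσ u hu F h0F (ε / 20) he1 w (c n) hcn hw hw2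
    (hw3 W hW)
    (by
      filter_upwards [t1] with j hj
      refine hj.trans ?_
      have e1 : ε / 20 * c n = k := rfl
      rw [e1]
      linarith)
    (by
      filter_upwards [t2] with j hj
      refine hj.trans ?_
      have e1 : ε / 20 * c n = k := rfl
      rw [e1]
      linarith) m
  exact ⟨d, hd1, hd2, by linarith⟩

/-! ## module Q9: the spectral measure is the mixture of the spectral measures of the components -/

private theorem Q9_ci (m : Measure Cir) [IsFiniteMeasure m] (g : C(Cir, ℂ)) :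
    Integrable (fun t => g t) m :=
  Continuous.integrable_of_hasCompactSupport g.continuous (HasCompactSupport.of_compactSpace _)

/-- the integral is continuous in the uniform norm -/
private theorem Q9_lim (m : Measure Cir) [IsFiniteMeasure m] {g : ℕ → C(Cir, ℂ)} {g0 : C(Cir, ℂ)}
    (h : Tendsto g atTop (𝓝 g0)) :
    Tendsto (fun k => ∫ t, g k t ∂m) atTop (𝓝 (∫ t, g0 t ∂m)) := by
  rw [tendsto_iff_norm_sub_tendsto_zero] at h ⊢
  have h1 := h.mul_const (m.real Set.univ)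
  rw [zero_mul] at h1
  refine squeeze_zero (fun k => norm_nonneg _) (fun k => ?_) h1
  rw [← integral_sub (Q9_ci m (g k)) (Q9_ci m g0)]
  refine norm_integral_le_of_norm_le_const (Eventually.of_forall fun t => ?_)
  exact (g k - g0).norm_coe_le_norm t

private theorem Q9_dense (g : C(Cir, ℂ)) : ∃ P : ℕ → C(Cir, ℂ),
    (∀ k, P k ∈ Submodule.span ℂ (Set.range (@fourier (1 : ℝ)))) ∧ Tendsto P atTop (𝓝 g) := by
  have h1 : g ∈ (Submodule.span ℂ (Set.range (@fourier (1 : ℝ)))).topologicalClosure := by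
    rw [span_fourier_closure_eq_top]
    trivial
  have h2 : g ∈ closure (Submodule.span ℂ (Set.range (@fourier (1 : ℝ))) : Set C(Cir, ℂ)) := h1
  exact mem_closure_iff_seq_limit.1 h2

/-- a finite measure on the circle is determined by its Fourier coefficients -/
private theorem Q9_uniq (a b : Measure Cir) [IsFiniteMeasure a] [IsFiniteMeasure b]
    (h : ∀ n : ℤ, ∫ t, fourier n t ∂a = ∫ t, fourier n t ∂b) : a = b := by
  have h1 : ∀ P ∈ Submodule.span ℂ (Set.range (@fourier (1 : ℝ))),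
      ∫ t, P t ∂a = ∫ t, P t ∂b := by
    intro P hP
    induction hP using Submodule.span_induction with
    | mem x hx =>
      obtain ⟨n, rfl⟩ := hx
      exact h n
    | zero => simp
    | add x y _ _ hx hy =>
      simp only [ContinuousMap.add_apply]
      rw [integral_add (Q9_ci a x) (Q9_ci a y), integral_add (Q9_ci b x) (Q9_ci b y), hx, hy]
    | smul c x _ hx =>
      simp only [ContinuousMap.smul_apply, smul_eq_mul]
      rw [integral_const_mul, integral_const_mul, hx]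
  have h2 : ∀ g : C(Cir, ℂ), ∫ t, g t ∂a = ∫ t, g t ∂b := by
    intro g
    obtain ⟨P, hP, hlim⟩ := Q9_dense g
    have h3 := Q9_lim a hlim
    have h4 := Q9_lim b hlim
    simp only [fun k => h1 (P k) (hP k)] at h3
    exact tendsto_nhds_unique h3 h4
  refine ext_of_forall_integral_eq_of_IsFiniteMeasure fun f => ?_
  have h3 := h2 ⟨fun t => ((f t : ℝ) : ℂ), Complex.continuous_ofReal.comp f.continuous⟩
  simp only [ContinuousMap.coe_mk] at h3
  rw [integral_complex_ofReal, integral_complex_ofReal] at h3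
  exact_mod_cast h3

open ProbabilityTheory in
private theorem Q9_comp {X Y : Type} [MeasurableSpace X] [MeasurableSpace Y] {μ : Measure X}
    [IsFiniteMeasure μ] (K : Kernel X Y) [IsFiniteKernel K] {g : Y → ℂ} (hgm : Measurable g)
    (hg : Integrable g (K ∘ₘ μ)) :
    ∫ y, g y ∂(K ∘ₘ μ) = ∫ x, ∫ y, g y ∂(K x) ∂μ := by
  have hms : MeasurePreserving (Prod.snd : X × Y → Y) (μ ⊗ₘ K) (K ∘ₘ μ) :=
    ⟨measurable_snd, Measure.snd_compProd μ K⟩
  have h1 : ∫ y, g y ∂(Measure.map Prod.snd (μ ⊗ₘ K)) = ∫ p, g p.2 ∂(μ ⊗ₘ K) :=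
    integral_map measurable_snd.aemeasurable hgm.aestronglyMeasurable
  rw [hms.map_eq] at h1
  rw [h1, Measure.integral_compProd]
  exact (hms.integrable_comp hgm.aestronglyMeasurable).2 hg

private theorem Q9_meas {X : Type} [MeasurableSpace X] (ρ : X → Measure Cir)
    (hρ : ∀ x, IsFiniteMeasure (ρ x))
    (h : ∀ n : ℤ, Measurable fun x => ∫ t, fourier n t ∂(ρ x)) : Measurable ρ := by
  have h1 : ∀ P ∈ Submodule.span ℂ (Set.range (@fourier (1 : ℝ))),
      Measurable fun x => ∫ t, P t ∂(ρ x) := by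
    intro P hP
    induction hP using Submodule.span_induction with
    | mem x hx =>
      obtain ⟨n, rfl⟩ := hx
      exact h n
    | zero => simp
    | add a b _ _ ha hb =>
      have e : (fun x => ∫ t, (a + b) t ∂(ρ x)) =
          fun x => (∫ t, a t ∂(ρ x)) + ∫ t, b t ∂(ρ x) := by
        funext x
        simp only [ContinuousMap.add_apply]
        exact integral_add (Q9_ci (ρ x) a) (Q9_ci (ρ x) b)
      rw [e]
      exact ha.add hb
    | smul c a _ ha =>
      have e : (fun x => ∫ t, (c • a) t ∂(ρ x)) = fun x => c * ∫ t, a t ∂(ρ x) := by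
        funext x
        simp only [ContinuousMap.smul_apply, smul_eq_mul]
        exact integral_const_mul _ _
      rw [e]
      exact ha.const_mul c
  have h2 : ∀ g : C(Cir, ℂ), Measurable fun x => ∫ t, g t ∂(ρ x) := by
    intro g
    obtain ⟨P, hP, hlim⟩ := Q9_dense g
    refine measurable_of_tendsto_metrizable (fun k => h1 (P k) (hP k)) ?_
    rw [tendsto_pi_nhds]
    intro x
    exact Q9_lim (ρ x) hlim
  have h3 : ∀ F : Set Cir, IsClosed F → Measurable fun x => ρ x F := by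
    intro F hF
    refine ENNReal.measurable_of_tendsto (f := fun n x => ∫⁻ t, (hF.apprSeq n t : ℝ≥0∞) ∂(ρ x))
      (fun n => ?_) ?_
    · have e : (fun x => ∫⁻ t, (hF.apprSeq n t : ℝ≥0∞) ∂(ρ x)) = fun x =>
          ENNReal.ofReal (∫ t, ((((hF.apprSeq n t : NNReal) : ℝ)) : ℂ) ∂(ρ x)).re := by
        funext x
        rw [integral_complex_ofReal, Complex.ofReal_re,
          ← BoundedContinuousFunction.toReal_lintegral_coe_eq_integral]
        exact (ENNReal.ofReal_toReal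
          (BoundedContinuousFunction.lintegral_lt_top_of_nnreal (ρ x) _).ne).symm
      rw [e]
      refine ENNReal.measurable_ofReal.comp (Complex.measurable_re.comp ?_)
      exact h2 ⟨fun t => ((((hF.apprSeq n t : NNReal) : ℝ)) : ℂ),
        Complex.continuous_ofReal.comp (NNReal.continuous_coe.comp (hF.apprSeq n).continuous)⟩
    · rw [tendsto_pi_nhds]
      intro x
      exact HasOuterApproxClosed.tendsto_lintegral_apprSeq hF (ρ x)
  refine Measurable.measure_of_isPiSystem (S := {F : Set Cir | IsClosed F}) ?_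
    isPiSystem_isClosed (fun F hF => h3 F hF) (h3 _ isClosed_univ)
  rw [← borel_eq_generateFrom_isClosed]
  exact BorelSpace.measurable_eq

open ProbabilityTheory in
private theorem Q9_main {X : Type} [MeasurableSpace X] (μ : Measure X) [IsProbabilityMeasure μ] (τ : ℤ → X → X)
    (hτ : Sys μ τ) (κ : X → Measure X) (hκ : Measurable κ) (hκp : ∀ x, IsProbabilityMeasure (κ x))
    (hκs : ∀ᵐ x ∂μ, Sys (κ x) τ) (hdec : ∀ B : Set X, MeasurableSet B → μ B = ∫⁻ x, κ x B ∂μ)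
    (f : X → ℂ) (hf : Bd f) (σ : Measure Cir) (hσ : Sp μ τ f σ) :
    ∃ ρ : X → Measure Cir, Measurable ρ ∧ (∀ᵐ x ∂μ, Sp (κ x) τ f (ρ x)) ∧
      ∀ B : Set Cir, MeasurableSet B → σ B = ∫⁻ x, ρ x B ∂μ := by
  classical
  obtain ⟨C, hC⟩ := hf.2
  obtain ⟨G, hGae, hGm, hG⟩ := hκs.exists_measurable_mem
  have hsx : ∀ x ∈ G, ∃ σ : Measure Cir, Sp (κ x) τ f σ := fun x hx =>
    have := hκp x
    sp_exists (κ x) τ (hG x hx) f hf
  obtain ⟨ρ, hρ⟩ : ∃ ρ : X → Measure Cir, ∀ x, (x ∈ G → Sp (κ x) τ f (ρ x)) ∧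
      (x ∉ G → ρ x = 0) := by
    choose! r hr using hsx
    refine ⟨fun x => if x ∈ G then r x else 0, fun x => ⟨fun hx => ?_, fun hx => ?_⟩⟩
    · simp only [if_pos hx]
      exact hr x hx
    · simp only [if_neg hx]
  have hfin : ∀ x, IsFiniteMeasure (ρ x) := by
    intro x
    by_cases hx : x ∈ G
    · exact ((hρ x).1 hx).1
    · rw [(hρ x).2 hx]
      infer_instance
  let K : Kernel X X := ⟨κ, hκ⟩
  obtain ⟨F, hF⟩ : ∃ F : ℤ → X → ℂ, ∀ n y, F n y = f (τ n y) * (starRingEnd ℂ) (f y) :=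
    ⟨_, fun _ _ => rfl⟩
  have hFm : ∀ n, Measurable (F n) := by
    intro n
    have e : F n = fun y => f (τ n y) * (starRingEnd ℂ) (f y) := funext (hF n)
    rw [e]
    exact (hf.1.comp (hτ.mp n).measurable).mul (Complex.continuous_conj.measurable.comp hf.1)
  have hFb : ∀ n y, ‖F n y‖ ≤ C * C := by
    intro n y
    rw [hF, norm_mul, RCLike.norm_conj]
    exact mul_le_mul (hC _) (hC _) (norm_nonneg _) ((norm_nonneg _).trans (hC y))
  have hcoef : ∀ n : ℤ, (fun x => ∫ t, fourier n t ∂(ρ x)) =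
      G.indicator (fun x => ∫ y, F n y ∂(K x)) := by
    intro n
    funext x
    by_cases hx : x ∈ G
    · rw [Set.indicator_of_mem hx, ← ((hρ x).1 hx).2 n]
      refine integral_congr_ae (Eventually.of_forall fun y => ?_)
      exact (hF n y).symm
    · rw [Set.indicator_of_notMem hx, (hρ x).2 hx, integral_zero_measure]
  have hIm : ∀ n : ℤ, Measurable fun x => ∫ y, F n y ∂(K x) := fun n =>
    (hFm n).stronglyMeasurable.integral_kernel.measurable
  have hρm : Measurable ρ := by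
    refine Q9_meas ρ hfin fun n => ?_
    rw [hcoef n]
    exact (hIm n).indicator hGm
  -- masses
  have hmass : ∀ x, ρ x Set.univ ≤ ENNReal.ofReal (C * C) := by
    intro x
    by_cases hx : x ∈ G
    · have h1 := congrFun (hcoef 0) x
      simp only [fourier_zero, integral_const, Set.indicator_of_mem hx] at h1
      have h2 : (ρ x).real Set.univ ≤ C * C := by
        have h3 : ‖((ρ x).real Set.univ • (1 : ℂ))‖ ≤ C * C := by
          rw [h1]
          have := hκp x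
          have h4 : ‖∫ y, F 0 y ∂(K x)‖ ≤ (C * C) * (κ x).real Set.univ :=
            norm_integral_le_of_norm_le_const (μ := κ x) (Eventually.of_forall fun y => hFb 0 y)
          rwa [probReal_univ, mul_one] at h4
        rw [norm_smul, norm_one, mul_one, Real.norm_eq_abs,
          abs_of_nonneg measureReal_nonneg] at h3
        exact h3
      rw [← ENNReal.ofReal_toReal (measure_ne_top (ρ x) Set.univ)]
      exact ENNReal.ofReal_le_ofReal h2
    · rw [(hρ x).2 hx]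
      simp
  -- the mixture
  let R : Kernel X Cir := ⟨ρ, hρm⟩
  have hRfin : IsFiniteKernel R := ⟨ENNReal.ofReal (C * C), ENNReal.ofReal_lt_top, hmass⟩
  have hKm : IsMarkovKernel K := ⟨hκp⟩
  have hmuK : K ∘ₘ μ = μ := by
    ext B hB
    rw [Measure.bind_apply hB K.aemeasurable, hdec B hB]
    rfl
  have hθfin : IsFiniteMeasure (R ∘ₘ μ) := inferInstance
  have hθ : R ∘ₘ μ = σ := by
    have := hσ.1
    refine Q9_uniq _ _ fun n => ?_
    have e1 : ∫ t, fourier n t ∂(R ∘ₘ μ) = ∫ x, ∫ t, fourier n t ∂(R x) ∂μ :=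
      Q9_comp R (fourier n).continuous.measurable (Q9_ci _ (fourier n))
    have e2 : ∫ y, F n y ∂(K ∘ₘ μ) = ∫ x, ∫ y, F n y ∂(K x) ∂μ := by
      refine Q9_comp K (hFm n) ?_
      rw [hmuK]
      exact Integrable.of_bound (hFm n).aestronglyMeasurable (C * C)
        (Eventually.of_forall fun y => hFb n y)
    rw [e1, ← hσ.2 n]
    have e3 : ∫ y, f (τ n y) * (starRingEnd ℂ) (f y) ∂μ = ∫ y, F n y ∂(K ∘ₘ μ) := by
      rw [hmuK]
      refine integral_congr_ae (Eventually.of_forall fun y => ?_)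
      exact (hF n y).symm
    rw [e3, e2]
    refine integral_congr_ae ?_
    filter_upwards [hGae] with x hx
    have h1 := congrFun (hcoef n) x
    rw [Set.indicator_of_mem hx] at h1
    exact h1
  refine ⟨ρ, hρm, ?_, fun B hB => ?_⟩
  · filter_upwards [hGae] with x hx
    exact (hρ x).1 hx
  · rw [← hθ, Measure.bind_apply hB R.aemeasurable]
    rfl

/-- (This is proved inside `sp_comp`.) -/
theorem sp_mix {X : Type} [MeasurableSpace X] (μ : Measure X) [IsProbabilityMeasure μ] (τ : ℤ → X → X)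
    (hτ : Sys μ τ) (κ : X → Measure X) (hκ : Measurable κ) (hκp : ∀ x, IsProbabilityMeasure (κ x))
    (hκs : ∀ᵐ x ∂μ, Sys (κ x) τ) (hdec : ∀ B : Set X, MeasurableSet B → μ B = ∫⁻ x, κ x B ∂μ)
    (f : X → ℂ) (hf : Bd f) (σ : Measure Cir) (hσ : Sp μ τ f σ) :
    ∃ ρ : X → Measure Cir, Measurable ρ ∧ (∀ᵐ x ∂μ, Sp (κ x) τ f (ρ x)) ∧
      ∀ B : Set Cir, MeasurableSet B → σ B = ∫⁻ x, ρ x B ∂μ := by
  exact Q9_main μ τ hτ κ hκ hκp hκs hdec f hf σ hσ

end Pool.Agent.Sgs
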