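import Pool.Agent.Sgs.Alg
import Pool.Agent.Sgs.Plus2

/-!
# Theorem C: the induction, and the theorem for systems
-/

set_option autoImplicit false

namespace Pool.Agent.Sgs

open MeasureTheory Filter Finset
open scoped Topology ENNReal

/-- The convergence statement for `n` different multipliers and functions of the class `𝒢`. -/
def FullG {X : Type} [MeasurableSpace X] (μ : Measure X) (τ : ℤ → X → X) (W : ℕ → ℝ) (𝒢 : (X → ℂ) → Prop) (n : ℕ) :
    Prop :=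
  ∀ I : Finset ℤ, I.card = n → ∀ F : ℤ → X → ℂ, (∀ i, 𝒢 (F i)) →
    Tendsto (fun j : ℕ => E2 W j (fun d => ∫ x, ∏ i ∈ I, F i (τ (i * d) x) ∂μ)) atTop
      (𝓝 (∏ i ∈ I, ∫ x, F i x ∂μ))

/-! ## module X4: one singular slot (adapt `TA3_quad` and `slot` of `ThmA.lean`) -/

private theorem X4_prod {X : Type} [MeasurableSpace X] (μ : Measure X) (τ : ℤ → X → X) (hτ : Sys μ τ)
    (I : Finset ℤ) (F : ℤ → X → ℂ) (hF : ∀ i, Bd (F i)) (n : ℤ → ℤ) :
    Bd (fun x => ∏ i ∈ I, F i (τ (n i) x)) := by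
  refine ⟨Finset.measurable_prod _ fun i _ => (hF i).1.comp (hτ.mp (n i)).measurable, ?_⟩
  have h1 : ∀ i, ∃ C : ℝ, ∀ x, ‖F i x‖ ≤ C := fun i => (hF i).2
  choose C hC using h1
  refine ⟨∏ i ∈ I, C i, fun x => ?_⟩
  rw [norm_prod]
  exact Finset.prod_le_prod (fun i _ => norm_nonneg _) fun i _ => hC i _

private theorem X4_int {X : Type} [MeasurableSpace X] (μ : Measure X) [IsProbabilityMeasure μ] {f : X → ℂ}
    (hf : Bd f) : Integrable f μ := by
  obtain ⟨h1, C, h2⟩ := hf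
  exact Integrable.of_bound h1.aestronglyMeasurable C (Filter.Eventually.of_forall h2)

private theorem X4_mul {X : Type} [MeasurableSpace X] {f g : X → ℂ} (hf : Bd f) (hg : Bd g) :
    Bd (fun x => f x * g x) := by
  obtain ⟨h1, C, h2⟩ := hf
  obtain ⟨h3, D, h4⟩ := hg
  refine ⟨h1.mul h3, C * D, fun x => ?_⟩
  rw [norm_mul]
  exact mul_le_mul (h2 x) (h4 x) (norm_nonneg _) ((norm_nonneg _).trans (h2 x))

open Classical in
private theorem X4_quad {X : Type} [MeasurableSpace X] (μ : Measure X) [IsProbabilityMeasure μ] (τ : ℤ → X → X)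
    (hτ : Sys μ τ) (W : ℕ → ℝ) (𝒢 𝒢' : (X → ℂ) → Prop) (hbd : ∀ F, 𝒢 F → Bd F)
    (hmul : ∀ F, 𝒢 F → ∀ p q : ℤ, 𝒢' (fun x => F (τ p x) * (starRingEnd ℂ) (F (τ q x))))
    (A C : Finset ℤ) (hAC : Disjoint A C) (hfull : FullG μ τ W 𝒢' (A ∪ C).card)
    (F : ℤ → X → ℂ) (hF : ∀ i, 𝒢 (F i)) (σ : ℤ → Measure Cir) (hσ : ∀ i, Sp μ τ (F i) (σ i))
    (ρ ρ' : Measure Cir) [IsFiniteMeasure ρ] [IsFiniteMeasure ρ']
    (hρ : ∀ n : ℤ, ∫ t, fourier n t ∂ρ = ∏ i ∈ A, ∫ t, fourier n t ∂(σ i))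
    (hρ' : ∀ n : ℤ, ∫ t, fourier n t ∂ρ' = ∏ i ∈ C, ∫ t, fourier n t ∂(σ i))
    (s : Finset (ℤ × ℤ)) (a : ℤ × ℤ → ℂ) (ε : ℝ) (hε : 0 < ε) :
    ∀ᶠ j : ℕ in atTop, R2 W j (fun d => ∫ x, ‖∑ p ∈ s, a p * ((∏ i ∈ A, F i (τ (p.1 + i * d) x)) *
        ∏ i ∈ C, F i (τ (p.2 + i * d) x))‖ ^ 2 ∂μ)
      ≤ (∫ z, ‖∑ p ∈ s, a p * (fourier p.1 z.1 * fourier p.2 z.2)‖ ^ 2 ∂(ρ.prod ρ')) + ε := by
  have hB : ∀ i, Bd (F i) := fun i => hbd _ (hF i)
  refine quad μ W (fun p d x => (∏ i ∈ A, F i (τ (p.1 + i * d) x)) * ∏ i ∈ C, F i (τ (p.2 + i * d) x))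
    (fun p d => X4_mul (X4_prod μ τ hτ A F hB (fun i => p.1 + i * d)) (X4_prod μ τ hτ C F hB (fun i => p.2 + i * d)))
    ρ ρ' ?_ s a ε hε
  intro p q
  have hH : ∀ i, 𝒢' (if i ∈ A then fun y => F i (τ p.1 y) * (starRingEnd ℂ) (F i (τ q.1 y))
      else fun y => F i (τ p.2 y) * (starRingEnd ℂ) (F i (τ q.2 y))) := by
    intro i
    by_cases h1 : i ∈ A
    · rw [if_pos h1]
      exact hmul _ (hF i) _ _
    · rw [if_neg h1]
      exact hmul _ (hF i) _ _
  have h1 := hfull (A ∪ C) rfl _ hH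
  have hC : ∀ i ∈ C, i ∉ A := fun i hi hiA => Finset.disjoint_left.mp hAC hiA hi
  have e1 : ∏ i ∈ A ∪ C, ∫ x, (if i ∈ A then fun y => F i (τ p.1 y) * (starRingEnd ℂ) (F i (τ q.1 y))
      else fun y => F i (τ p.2 y) * (starRingEnd ℂ) (F i (τ q.2 y))) x ∂μ
      = (∫ t, fourier (p.1 - q.1) t ∂ρ) * ∫ t, fourier (p.2 - q.2) t ∂ρ' := by
    rw [Finset.prod_union hAC, hρ, hρ']
    congr 1
    · refine Finset.prod_congr rfl fun i hi => ?_
      rw [← sp_translate μ τ hτ (F i) (hB i) (σ i) (hσ i) p.1 q.1]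
      simp only [if_pos hi]
    · refine Finset.prod_congr rfl fun i hi => ?_
      rw [← sp_translate μ τ hτ (F i) (hB i) (σ i) (hσ i) p.2 q.2]
      simp only [if_neg (hC i hi)]
  rw [e1] at h1
  refine h1.congr fun j => ?_
  congr 1
  funext d
  congr 1
  funext x
  rw [Finset.prod_union hAC]
  have e2 : ∏ i ∈ A, (if i ∈ A then fun y => F i (τ p.1 y) * (starRingEnd ℂ) (F i (τ q.1 y))
      else fun y => F i (τ p.2 y) * (starRingEnd ℂ) (F i (τ q.2 y))) (τ (i * d) x)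
      = (∏ i ∈ A, F i (τ (p.1 + i * d) x)) * (starRingEnd ℂ) (∏ i ∈ A, F i (τ (q.1 + i * d) x)) := by
    rw [map_prod, ← Finset.prod_mul_distrib]
    refine Finset.prod_congr rfl fun i hi => ?_
    rw [if_pos hi, hτ.add, hτ.add]
  have e3 : ∏ i ∈ C, (if i ∈ A then fun y => F i (τ p.1 y) * (starRingEnd ℂ) (F i (τ q.1 y))
      else fun y => F i (τ p.2 y) * (starRingEnd ℂ) (F i (τ q.2 y))) (τ (i * d) x)
      = (∏ i ∈ C, F i (τ (p.2 + i * d) x)) * (starRingEnd ℂ) (∏ i ∈ C, F i (τ (q.2 + i * d) x)) := by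
    rw [map_prod, ← Finset.prod_mul_distrib]
    refine Finset.prod_congr rfl fun i hi => ?_
    rw [if_neg (hC i hi), hτ.add, hτ.add]
  rw [e2, e3, map_mul]
  ring

theorem gslot {X : Type} [MeasurableSpace X] (μ : Measure X) [IsProbabilityMeasure μ] (τ : ℤ → X → X)
    (hτ : Sys μ τ) (W : ℕ → ℝ) (hW : GW W) (𝒢 𝒢' : (X → ℂ) → Prop) (hbd : ∀ F, 𝒢 F → Bd F)
    (hmul : ∀ F, 𝒢 F → ∀ p q : ℤ, 𝒢' (fun x => F (τ p x) * (starRingEnd ℂ) (F (τ q x))))
    (n : ℕ) (hn : 3 ≤ n) (h2 : FullG μ τ W 𝒢' 2) (h1 : FullG μ τ W 𝒢' (n - 1))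
    (I : Finset ℤ) (hI : I.card = n) (mA : ℤ) (hmA : mA ∈ I) (F : ℤ → X → ℂ) (hF : ∀ i, 𝒢 (F i))
    (σ : Measure Cir) (hσ : Sp μ τ (F mA) σ) (hs : Sing σ) :
    Tendsto (fun j : ℕ => E2 W j (fun d => ∫ x, ∏ i ∈ I, F i (τ (i * d) x) ∂μ)) atTop (𝓝 0) := by
  classical
  have hB : ∀ i, Bd (F i) := fun i => hbd _ (hF i)
  obtain ⟨σ', hσ', hσA⟩ : ∃ σ' : ℤ → Measure Cir, (∀ i, Sp μ τ (F i) (σ' i)) ∧ σ' mA = σ := by
    choose σ0 hσ0 using fun i => sp_exists μ τ hτ (F i) (hB i)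
    refine ⟨fun i => if i = mA then σ else σ0 i, fun i => ?_, by simp⟩
    by_cases h3 : i = mA
    · subst h3
      simp only [if_true]
      exact hσ
    · simp only [if_neg h3]
      exact hσ0 i
  have hs1 : σ' mA ⟂ₘ (volume : Measure Cir) := by rw [hσA]; exact hs.1
  have ha : ∀ t, σ' mA {t} = 0 := by rw [hσA]; exact hs.2
  obtain ⟨mC, hmC⟩ : (I.erase mA).Nonempty := by
    rw [← Finset.card_pos, Finset.card_erase_of_mem hmA, hI]
    omega
  have hmC' := Finset.mem_erase.mp hmC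
  set J : Finset ℤ := (I.erase mA).erase mC with hJ
  have hmAJ : mA ∉ J := fun h => (Finset.mem_erase.mp (Finset.mem_erase.mp h).2).1 rfl
  have hmCJ : mC ∉ J := Finset.notMem_erase mC _
  have hcardJ : J.card = n - 2 := by
    rw [hJ, Finset.card_erase_of_mem hmC, Finset.card_erase_of_mem hmA, hI]
    omega
  have hfin : ∀ i, IsFiniteMeasure (σ' i) := fun i => (hσ' i).1
  obtain ⟨ρ, hρf, hρ⟩ := conv J σ' fun i _ => hfin i
  have := hρf
  have hbd' : ∀ i, ∃ C : ℝ, ∀ x, ‖F i x‖ ≤ C := fun i => (hB i).2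
  choose C hC using hbd'
  have hB2 : ∀ m d x, ‖∏ i ∈ J, F i (τ (m + i * d) x)‖ ≤ ∏ i ∈ J, C i := by
    intro m d x
    rw [norm_prod]
    exact Finset.prod_le_prod (fun i _ => norm_nonneg _) fun i _ => hC i _
  have hsing : ∀ n : ℤ, ∀ k : ℤ, ∫ t, fourier n t ∂(σ' k) = ∏ i ∈ ({k} : Finset ℤ), ∫ t, fourier n t ∂(σ' i) :=
    fun n k => by rw [Finset.prod_singleton]
  have cAB : ({mA} ∪ J : Finset ℤ).card = n - 1 := by
    rw [Finset.card_union_of_disjoint (Finset.disjoint_singleton_left.mpr hmAJ), Finset.card_singleton, hcardJ]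
    omega
  have cAC : ({mA} ∪ {mC} : Finset ℤ).card = 2 := by
    rw [Finset.card_union_of_disjoint (Finset.disjoint_singleton_left.mpr (by
      rw [Finset.mem_singleton]; exact fun h => hmC'.1 h.symm)), Finset.card_singleton, Finset.card_singleton]
  have cBC : (J ∪ {mC} : Finset ℤ).card = n - 1 := by
    rw [Finset.card_union_of_disjoint (Finset.disjoint_singleton_right.mpr hmCJ), Finset.card_singleton, hcardJ]
    omega
  have key : ∀ ε : ℝ, 0 < ε → ∀ᶠ j : ℕ in atTop,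
      ‖E2 W j (fun d => (((1 : ℝ)) : ℂ) * ∫ x, F mA (τ (mA * d) x) * (∏ i ∈ J, F i (τ (0 + i * d) x)) *
        F mC (τ (mC * d) x) ∂μ)‖ ^ 2 ≤ ε := by
    intro ε hε
    have h3 := three μ τ hτ W hW (fun _ => 1) (fun _ => ⟨zero_le_one, le_rfl⟩) (F mA) (F mC) (hB mA) (hB mC)
      (fun m d x => ∏ i ∈ J, F i (τ (m + i * d) x))
      (fun m d => (X4_prod μ τ hτ J F hB (fun i => m + i * d)).1) (max (C mA) (∏ i ∈ J, C i))
      (fun x => (hC mA x).trans (le_max_left _ _)) (fun m d x => (hB2 m d x).trans (le_max_right _ _))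
      (fun m d l x => by
        refine Finset.prod_congr rfl fun i _ => ?_
        rw [← hτ.add]
        congr 2
        ring) mA mC (σ' mA) ρ (σ' mC) Set.univ ∅ MeasurableSet.univ MeasurableSet.empty
      (by rw [Measure.restrict_univ]; exact hs1) (fun t _ => ha t)
      (by rw [Measure.restrict_empty]; exact Measure.MutuallySingular.zero_left)
      (fun t ht => absurd ht (Set.notMem_empty t)) 1 1 zero_le_one zero_le_one
      (fun s a ε hε => by
        have h4 := X4_quad μ τ hτ W 𝒢 𝒢' hbd hmul {mA} J (Finset.disjoint_singleton_left.mpr hmAJ) (by rw [cAB]; exact h1)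
          F hF σ' hσ' (σ' mA) ρ (fun n => hsing n mA) hρ s a ε hε
        simp only [Finset.prod_singleton] at h4
        simp only [one_mul]
        exact h4)
      (fun s a ε hε => by
        have h4 := X4_quad μ τ hτ W 𝒢 𝒢' hbd hmul {mA} {mC} (Finset.disjoint_singleton_left.mpr (by
          rw [Finset.mem_singleton]; exact fun h => hmC'.1 h.symm)) (by rw [cAC]; exact h2)
          F hF σ' hσ' (σ' mA) (σ' mC) (fun n => hsing n mA) (fun n => hsing n mC) s a ε hε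
        simp only [Finset.prod_singleton] at h4
        simp only [one_mul]
        exact h4)
      (fun s a ε hε => by
        have h4 := X4_quad μ τ hτ W 𝒢 𝒢' hbd hmul J {mC} (Finset.disjoint_singleton_right.mpr hmCJ) (by rw [cBC]; exact h1)
          F hF σ' hσ' ρ (σ' mC) hρ (fun n => hsing n mC) s a ε hε
        simp only [Finset.prod_singleton] at h4
        simp only [one_mul]
        exact h4) ε hε
    filter_upwards [h3] with j hj
    refine hj.trans (le_of_eq ?_)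
    rw [Set.compl_univ, measure_empty, ENNReal.toReal_zero]
    ring
  have e1 : ∀ j, E2 W j (fun d => ∫ x, ∏ i ∈ I, F i (τ (i * d) x) ∂μ) =
      E2 W j (fun d => (((1 : ℝ)) : ℂ) * ∫ x, F mA (τ (mA * d) x) * (∏ i ∈ J, F i (τ (0 + i * d) x)) *
        F mC (τ (mC * d) x) ∂μ) := by
    intro j
    congr 1
    funext d
    rw [Complex.ofReal_one, one_mul]
    congr 1
    funext x
    rw [← Finset.mul_prod_erase I _ hmA, ← Finset.mul_prod_erase (I.erase mA) _ hmC, ← hJ]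
    simp only [zero_add]
    ring
  rw [Metric.tendsto_nhds]
  intro ε hε
  filter_upwards [key (ε ^ 2 / 2) (by positivity)] with j hj
  rw [dist_zero_right, e1 j]
  refine lt_of_pow_lt_pow_left₀ 2 hε.le (lt_of_le_of_lt hj ?_)
  have : 0 < ε ^ 2 := by positivity
  linarith

/-! ## module X5: the step (adapt `full_step`) -/

theorem gstep {X : Type} [MeasurableSpace X] (μ : Measure X) [IsProbabilityMeasure μ] (τ : ℤ → X → X)
    (hτ : Sys μ τ) (W : ℕ → ℝ) (hW : GW W) (𝒢 𝒢' : (X → ℂ) → Prop) (hbd : ∀ F, 𝒢 F → Bd F)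
    (hmul : ∀ F, 𝒢 F → ∀ p q : ℤ, 𝒢' (fun x => F (τ p x) * (starRingEnd ℂ) (F (τ q x))))
    (hsub : ∀ F, 𝒢 F → ∀ c : ℂ, 𝒢 (fun x => F x - c)) (hle : ∀ F, 𝒢 F → 𝒢' F)
    (hsing : ∀ F, 𝒢 F → Vp μ τ Sing F)
    (n : ℕ) (hn : 3 ≤ n) (h2 : FullG μ τ W 𝒢' 2) (h1 : FullG μ τ W 𝒢' (n - 1)) : FullG μ τ W 𝒢 n := by
  classical
  intro I hI F hF
  have hB : ∀ i, Bd (F i) := fun i => hbd _ (hF i)
  obtain ⟨mA, hmA⟩ : I.Nonempty := by
    rw [← Finset.card_pos, hI]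
    omega
  obtain ⟨-, σ, hσ, hs⟩ := hsing _ (hF mA)
  have hG' : ∀ i, 𝒢 (if i = mA then (fun x => F mA x - ∫ y, F mA y ∂μ) else F i) := by
    intro i
    by_cases h3 : i = mA
    · rw [if_pos h3]; exact hsub _ (hF mA) _
    · rw [if_neg h3]; exact hF i
  have hF' : ∀ i, Bd (if i = mA then (fun x => F mA x - ∫ y, F mA y ∂μ) else F i) := fun i => hbd _ (hG' i)
  have hslot := gslot μ τ hτ W hW 𝒢 𝒢' hbd hmul n hn h2 h1 I hI mA hmA
    (fun i => if i = mA then (fun x => F mA x - ∫ y, F mA y ∂μ) else F i) hG' σ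
    (by simp only [if_true]; exact hσ) hs
  have hf1 := h1 (I.erase mA) (by rw [Finset.card_erase_of_mem hmA, hI]) F (fun i => hle _ (hF i))
  have hf2 := hf1.const_mul (∫ y, F mA y ∂μ)
  have hlim := hf2.add hslot
  rw [add_zero, Finset.mul_prod_erase I (fun i => ∫ x, F i x ∂μ) hmA] at hlim
  refine hlim.congr fun j => ?_
  rw [← E2_smul, ← E2_add]
  congr 1
  funext d
  have i1 := X4_int μ (X4_prod μ τ hτ (I.erase mA) _ hB (fun i => i * d))
  have i2 := X4_int μ (X4_prod μ τ hτ I _ hF' (fun i => i * d))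
  rw [← integral_const_mul, ← integral_add (i1.const_mul _) i2]
  congr 1
  funext x
  rw [← Finset.mul_prod_erase I (fun i => F i (τ (i * d) x)) hmA]
  rw [← Finset.mul_prod_erase I (fun i => (if i = mA then (fun x => F mA x - ∫ y, F mA y ∂μ) else F i)
    (τ (i * d) x)) hmA]
  have e2 : ∏ i ∈ I.erase mA, (if i = mA then (fun x => F mA x - ∫ y, F mA y ∂μ) else F i) (τ (i * d) x) =
      ∏ i ∈ I.erase mA, F i (τ (i * d) x) := by
    refine Finset.prod_congr rfl fun i hi => ?_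
    rw [if_neg (Finset.mem_erase.mp hi).1]
  rw [e2, if_pos rfl]
  ring

/-! ## module X6: the induction -/

private theorem X6_two {X : Type} [MeasurableSpace X] (μ : Measure X) [IsProbabilityMeasure μ] (τ : ℤ → X → X)
    (hτ : Sys μ τ) (W : ℕ → ℝ) (hW : GW W) (f : X → ℂ) (hf : Bd f) (m : ℕ)
    (h : ∀ K : Finset ℤ, K.Nonempty → K.card ≤ m → Vp μ τ Tor (pk f τ K)) :
    FullG μ τ W (fun F => F ∈ Fm f τ m) 2 := by
  intro I hI F hF
  obtain ⟨a, b, hab, hI2⟩ := Finset.card_eq_two.mp hI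
  have h1 := pair2 μ τ hτ W hW (F a) (F b) (fm_bd μ τ hτ f hf m _ (hF a))
    (fm_vp μ τ hτ Tor idl_tor f m h _ (hF b)) a b hab
  rw [hI2, Finset.prod_pair hab]
  refine h1.congr fun j => ?_
  congr 1
  funext d
  congr 1
  funext x
  rw [Finset.prod_pair hab]

/-- Induction on `k`, for all `m`; `k = 0`: `pair2`; step: `gstep` with `𝒢 = Fm f τ m`, `𝒢' = Fm f τ (2 m)` (`fm_mul`, `fm_mono`,
`fm_vp`). -/
theorem full_hi {X : Type} [MeasurableSpace X] (μ : Measure X) [IsProbabilityMeasure μ] (τ : ℤ → X → X)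
    (hτ : Sys μ τ) (W : ℕ → ℝ) (hW : GW W) (f : X → ℂ) (hf : Bd f) (hf1 : ∀ x, f x = 0 ∨ f x = 1) (k : ℕ) :
    ∀ m : ℕ, (∀ K : Finset ℤ, K.Nonempty → K.card ≤ m * 2 ^ k → Vp μ τ Tor (pk f τ K)) →
      (∀ K : Finset ℤ, K.Nonempty → 2 * K.card ≤ m * 2 ^ k → Vp μ τ Sing (pk f τ K)) →
      FullG μ τ W (fun F => F ∈ Fm f τ m) (k + 2) := by
  induction k with
  | zero =>
    intro m hT _
    exact X6_two μ τ hτ W hW f hf m (fun K hK hc => hT K hK (by simpa using hc))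
  | succ k ih =>
    intro m hT hS
    have e1 : 2 * m * 2 ^ k = m * 2 ^ (k + 1) := by ring
    have hp : 1 ≤ 2 ^ k := Nat.one_le_two_pow
    have h2 : FullG μ τ W (fun F => F ∈ Fm f τ (2 * m)) 2 :=
      X6_two μ τ hτ W hW f hf (2 * m) (fun K hK hc => hT K hK (by
        rw [← e1]
        nlinarith))
    have h1 : FullG μ τ W (fun F => F ∈ Fm f τ (2 * m)) (k + 2) :=
      ih (2 * m) (fun K hK hc => hT K hK (by rw [← e1]; exact hc))
        (fun K hK hc => hS K hK (by rw [← e1]; exact hc))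
    refine gstep μ τ hτ W hW (fun F => F ∈ Fm f τ m) (fun F => F ∈ Fm f τ (2 * m))
      (fun F hF => fm_bd μ τ hτ f hf m F hF) (fun F hF p q => fm_mul μ τ hτ f hf1 m F hF p q)
      (fun F hF c => (Fm f τ m).sub_mem hF (fm_const f τ m c))
      (fun F hF => fm_mono f τ m (2 * m) (by omega) F hF)
      (fun F hF => fm_vp μ τ hτ Sing idl_sing f m (fun K hK hc => hS K hK (by
        rw [← e1]
        nlinarith)) F hF) (k + 1 + 2) (by omega) h2 h1

/-! ## module X7: Theorem C for systems, for given weights -/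

/-- As `thmA_sys`, with `full_hi` (`k = r - 1`, `m = 1`) and `extract2`. -/
theorem thmC_sys {X : Type} [MeasurableSpace X] (μ : Measure X) [IsProbabilityMeasure μ] (τ : ℤ → X → X)
    (hτ : Sys μ τ) (W : ℕ → ℝ) (hW : GW W) (r : ℕ) (hr : 1 ≤ r) (A : Set X) (hA : MeasurableSet A)
    (h1 : ∀ K : Finset ℕ, K.Nonempty → K.card ≤ 2 ^ (r - 1) →
      Vp μ τ Tor (fun x => ∏ k ∈ K, A.indicator (fun _ => (1 : ℂ)) (τ (k : ℤ) x)))
    (h2 : ∀ K : Finset ℕ, K.Nonempty → 2 * K.card ≤ 2 ^ (r - 1) →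
      Vp μ τ Sing (fun x => ∏ k ∈ K, A.indicator (fun _ => (1 : ℂ)) (τ (k : ℤ) x)))
    (ε : ℝ) (hε : 0 < ε) (m : ℕ) :
    ∃ d : ℕ, m < d ∧ W d ≠ 0 ∧
      μ.real A ^ (r + 1) - ε < μ.real {x | ∀ i : ℕ, i ≤ r → τ ((i : ℤ) * d) x ∈ A} := by
  classical
  set I : Finset ℤ := (Finset.range (r + 1)).image (fun i : ℕ => (i : ℤ)) with hIdef
  have hcard : I.card = r + 1 := by
    rw [hIdef, Finset.card_image_of_injective _ (fun a b hab => by exact_mod_cast hab), Finset.card_range]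
  have hbA : Bd (A.indicator (fun _ => (1 : ℂ))) := B11_bdA A hA
  have h01 : ∀ x, A.indicator (fun _ => (1 : ℂ)) x = 0 ∨ A.indicator (fun _ => (1 : ℂ)) x = 1 := by
    intro x
    by_cases hx : x ∈ A
    · right; exact Set.indicator_of_mem hx _
    · left; exact Set.indicator_of_notMem hx _
  have hfm : A.indicator (fun _ => (1 : ℂ)) ∈ Fm (A.indicator (fun _ => (1 : ℂ))) τ 1 := by
    apply Submodule.subset_span
    refine ⟨{0}, by simp, ?_⟩
    funext x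
    simp only [pk, Finset.prod_singleton]
    rw [hτ.zero]
  have hfull0 := full_hi μ τ hτ W hW (A.indicator (fun _ => (1 : ℂ))) hbA h01 (r - 1) 1
    (fun K hK hc => pk_nat μ τ hτ Tor _ (2 ^ (r - 1)) h1 K hK (by simpa using hc))
    (fun K hK hc => pk_nat μ τ hτ Sing _ (2 ^ (r - 1) / 2) (fun K hK hc => h2 K hK (by omega)) K hK (by omega))
  have er : r - 1 + 2 = r + 1 := by omega
  rw [er] at hfull0
  have hfull := hfull0 I hcard (fun _ => A.indicator (fun _ => (1 : ℂ))) (fun _ => hfm)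
  have hS : ∀ e : ℤ, MeasurableSet {x | ∀ i : ℕ, i ≤ r → τ ((i : ℤ) * e) x ∈ A} := by
    intro e
    have h1 : {x | ∀ i : ℕ, i ≤ r → τ ((i : ℤ) * e) x ∈ A} = ⋂ i ∈ Finset.range (r + 1), (τ ((i : ℤ) * e)) ⁻¹' A := by
      ext x
      simp only [Set.mem_setOf_eq, Set.mem_iInter, Finset.mem_range, Set.mem_preimage]
      constructor
      · intro h i hi
        exact h i (by omega)
      · intro h i hi
        exact h i (by omega)
    rw [h1]
    exact Finset.measurableSet_biInter _ fun i _ => (hτ.mp _).measurable hA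
  have hind : ∀ S : Set X, MeasurableSet S → ∫ x, S.indicator (fun _ => (1 : ℂ)) x ∂μ = ((μ.real S : ℝ) : ℂ) := by
    intro S hS
    rw [integral_indicator hS]
    simp
  have h3 : ∀ d : ℤ, ∫ x, ∏ i ∈ I, A.indicator (fun _ => (1 : ℂ)) (τ (i * d) x) ∂μ =
      ((μ.real {x | ∀ i : ℕ, i ≤ r → τ ((i : ℤ) * d) x ∈ A} : ℝ) : ℂ) := by
    intro d
    rw [← hind _ (hS d)]
    congr 1
    funext x
    by_cases hx : x ∈ {x | ∀ i : ℕ, i ≤ r → τ ((i : ℤ) * d) x ∈ A}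
    · rw [Set.indicator_of_mem hx]
      refine Finset.prod_eq_one fun i hi => ?_
      obtain ⟨k, hk, hki⟩ := Finset.mem_image.mp hi
      rw [← hki]
      exact Set.indicator_of_mem (hx k (by have := Finset.mem_range.mp hk; omega)) _
    · rw [Set.indicator_of_notMem hx]
      rw [Set.mem_setOf_eq] at hx
      push Not at hx
      obtain ⟨k, hk, hk2⟩ := hx
      refine Finset.prod_eq_zero (i := (k : ℤ)) (Finset.mem_image.mpr ⟨k, Finset.mem_range.mpr (by omega), rfl⟩) ?_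
      exact Set.indicator_of_notMem hk2 _
  have h4 : ∏ _i ∈ I, ∫ x, A.indicator (fun _ => (1 : ℂ)) x ∂μ = (((μ.real A) ^ (r + 1) : ℝ) : ℂ) := by
    rw [Finset.prod_const, hcard, hind A hA]
    push_cast
    rfl
  rw [h4] at hfull
  have h5 : Tendsto (fun j : ℕ => R2 W j (fun d => μ.real {x | ∀ i : ℕ, i ≤ r → τ ((i : ℤ) * d) x ∈ A})) atTop
      (𝓝 ((μ.real A) ^ (r + 1))) := by
    have h6 := (Complex.continuous_re.tendsto _).comp hfull
    rw [Complex.ofReal_re] at h6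
    refine h6.congr fun j => ?_
    change (E2 W j (fun d => ∫ x, ∏ i ∈ I, A.indicator (fun _ => (1 : ℂ)) (τ (i * d) x) ∂μ)).re = _
    simp only [h3]
    rw [E2_ofReal, Complex.ofReal_re]
  have h6 := (mass W hW).const_mul ((μ.real A) ^ (r + 1) - ε)
  rw [mul_one] at h6
  have h7 : ∀ᶠ j : ℕ in atTop, ((μ.real A) ^ (r + 1) - ε) * R2 W j (fun _ => 1) <
      R2 W j (fun d => μ.real {x | ∀ i : ℕ, i ≤ r → τ ((i : ℤ) * d) x ∈ A}) :=
    h6.eventually_lt h5 (by linarith)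
  obtain ⟨j, hj5, hj1⟩ := (h7.and (eventually_ge_atTop (m + 1))).exists
  obtain ⟨d, hd1, hd2, hd3⟩ := extract2 W hW.1 j (by omega) _ _ hj5
  refine ⟨d, lt_of_lt_of_le (lt_of_lt_of_le (Nat.lt_succ_self m) hj1) (Nat.lt_two_pow_self.le.trans hd1), hd2, ?_⟩
  rcases hd3 with h8 | h8
  · exact h8
  · rw [sym_set μ τ hτ A hA r d] at h8
    exact h8

end Pool.Agent.Sgs
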