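import Pool.Agent.Sgs.ThmB
import Pool.Agent.Sgs.Dec
import Pool.Agent.RDf.Prob

/-!
# Final theorems

(`Pool/Agent/RDf` is in the graded repository; copy it to your working tree:
`cp -r outputs/live/Pool/Agent/RDf Pool/Agent/`.)
-/

set_option autoImplicit false

namespace Pool.Agent.Sgs

open MeasureTheory Filter Finset ProbabilityTheory
open scoped Topology ENNReal

/-- powers of an invertible transformation -/
def tz {X : Type} [MeasurableSpace X] (T : X ≃ᵐ X) (n : ℤ) : X → X :=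
  fun x => ((T.toEquiv : Equiv.Perm X) ^ n) x

/-! ## module M0 -/

theorem tz_nat {X : Type} [MeasurableSpace X] (T : X ≃ᵐ X) (n : ℕ) (x : X) : tz T (n : ℤ) x = T^[n] x := by
  rw [tz, zpow_natCast, ← Equiv.Perm.iterate_eq_pow]
  rfl

theorem tz_sys {X : Type} [MeasurableSpace X] (μ : Measure X) (T : X ≃ᵐ X) (hT : MeasurePreserving T μ μ) :
    Sys μ (tz T) := by
  refine ⟨fun x => ?_, fun m n x => ?_, fun n => ?_⟩
  · simp [tz]
  · rw [tz, tz, tz, zpow_add, Equiv.Perm.mul_apply]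
  · have hnat : ∀ (S : X ≃ᵐ X) (_ : MeasurePreserving S μ μ) (k : ℕ),
        MeasurePreserving (tz S (k : ℤ)) μ μ := fun S hS k => by
      have h1 : tz S (k : ℤ) = S^[k] := funext fun x => tz_nat S k x
      rw [h1]
      exact hS.iterate k
    rcases Int.eq_nat_or_neg n with ⟨k, h | h⟩
    · rw [h]
      exact hnat T hT k
    · have h1 : tz T n = tz T.symm (k : ℤ) := by
        funext x
        rw [h, tz, tz, zpow_neg, zpow_natCast, zpow_natCast, ← inv_pow]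
        rfl
      rw [h1]
      exact hnat T.symm (MeasurePreserving.symm T hT) k

/-! ## module M1: the mean ergodic theorem -/

/-- (Mathlib: `tendsto_birkhoffAverage_orthogonalProjection`; invariant functions of an ergodic map are constant:
`Ergodic.ae_eq_const_of_ae_eq_comp_ae`.) -/
theorem erg_of {X : Type} [MeasurableSpace X] (μ : Measure X) [IsProbabilityMeasure μ] (T : X ≃ᵐ X)
    (hT : Ergodic T μ) : Erg μ (tz T) := by
  have hT' := hT.toMeasurePreserving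
  intro F G hF hG
  have hFm : MemLp (fun x => (starRingEnd ℂ) (F x)) 2 μ := by
    obtain ⟨h1, C, h2⟩ := hF
    refine MemLp.of_bound (Complex.continuous_conj.measurable.comp h1).aestronglyMeasurable C
      (Eventually.of_forall fun x => ?_)
    rw [RCLike.norm_conj]
    exact h2 x
  have hGm : MemLp G 2 μ := by
    obtain ⟨h1, C, h2⟩ := hG
    exact MemLp.of_bound h1.aestronglyMeasurable C (Eventually.of_forall h2)
  set U : Lp ℂ 2 μ →L[ℂ] Lp ℂ 2 μ :=
    (Lp.compMeasurePreservingₗᵢ ℂ (T : X → X) hT').toContinuousLinearMap with hU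
  have hUn : ‖U‖ ≤ 1 := LinearIsometry.norm_toContinuousLinearMap_le _
  have hUcoe : ∀ v : Lp ℂ 2 μ, (U v : X → ℂ) =ᵐ[μ] (v : X → ℂ) ∘ T := fun v =>
    Lp.coeFn_compMeasurePreserving v hT'
  have hUit : ∀ (n : ℕ), (((U^[n]) (hGm.toLp G) : Lp ℂ 2 μ) : X → ℂ) =ᵐ[μ]
      fun x => G (T^[n] x) := by
    intro n
    induction n with
    | zero =>
      simp only [Function.iterate_zero, id_eq]
      exact hGm.coeFn_toLp
    | succ n ih =>
      rw [Function.iterate_succ_apply']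
      filter_upwards [hUcoe ((U^[n]) (hGm.toLp G)),
        hT'.quasiMeasurePreserving.tendsto_ae.eventually ih] with x h1 h2
      rw [h1, Function.comp_apply, h2, ← Function.iterate_succ_apply]
  have hmean := U.tendsto_birkhoffAverage_orthogonalProjection hUn (hGm.toLp G)
  set P : Lp ℂ 2 μ :=
    ((U.eqLocus (1 : Lp ℂ 2 μ →L[ℂ] Lp ℂ 2 μ)).orthogonalProjectionOnto
      (hGm.toLp G) : Lp ℂ 2 μ) with hP
  have hPmem : U P = P := by
    have h1 : P ∈ U.eqLocus (1 : Lp ℂ 2 μ →L[ℂ] Lp ℂ 2 μ) := Submodule.coe_mem _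
    exact h1
  have hPc : ∃ c : ℂ, (P : X → ℂ) =ᵐ[μ] Function.const X c := by
    refine hT.ae_eq_const_of_ae_eq_comp_ae (Lp.aestronglyMeasurable P) ?_
    have h1 := hUcoe P
    rw [hPmem] at h1
    exact h1.symm
  obtain ⟨c, hc⟩ := hPc
  have h1m : MemLp (fun _ : X => (1 : ℂ)) 2 μ := memLp_const 1
  have h1mem : U (h1m.toLp _) = h1m.toLp _ := by
    refine Lp.ext ?_
    filter_upwards [hUcoe (h1m.toLp _), h1m.coeFn_toLp,
      hT'.quasiMeasurePreserving.tendsto_ae.eventually h1m.coeFn_toLp] with x h1 h2 h3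
    rw [h1, h2, Function.comp_apply, h3]
  have hcG : c = ∫ x, G x ∂μ := by
    have h1 : inner ℂ (h1m.toLp _) (hGm.toLp G - P) = 0 := by
      have h2 := (U.eqLocus (1 : Lp ℂ 2 μ →L[ℂ] Lp ℂ 2 μ)).sub_starProjection_mem_orthogonal
        (hGm.toLp G)
      exact (Submodule.mem_orthogonal _ _).mp h2 _ h1mem
    rw [inner_sub_right, L2.inner_def, L2.inner_def] at h1
    have h2 : ∫ a, inner ℂ ((h1m.toLp _ : Lp ℂ 2 μ) a) ((hGm.toLp G : Lp ℂ 2 μ) a) ∂μ =
        ∫ x, G x ∂μ := by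
      refine integral_congr_ae ?_
      filter_upwards [h1m.coeFn_toLp, hGm.coeFn_toLp] with x h3 h4
      rw [h3, h4]
      simp
    have h3 : ∫ a, inner ℂ ((h1m.toLp _ : Lp ℂ 2 μ) a) (P a) ∂μ = c := by
      have h4 : ∫ a, inner ℂ ((h1m.toLp _ : Lp ℂ 2 μ) a) (P a) ∂μ = ∫ _x, c ∂μ := by
        refine integral_congr_ae ?_
        filter_upwards [h1m.coeFn_toLp, hc] with x h5 h6
        rw [h5, h6]
        simp
      rw [h4]
      simp
    rw [h2, h3] at h1
    exact (sub_eq_zero.mp h1).symm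
  have hlim := (innerSL ℂ (hFm.toLp _)).continuous.tendsto P |>.comp hmean
  have hval : inner ℂ (hFm.toLp _) P = (∫ x, F x ∂μ) * ∫ x, G x ∂μ := by
    rw [L2.inner_def, ← hcG, ← integral_mul_const]
    refine integral_congr_ae ?_
    filter_upwards [hFm.coeFn_toLp, hc] with x h1 h2
    rw [h1, h2]
    simp [mul_comm]
  have hlim2 : Tendsto (fun N : ℕ => inner ℂ (hFm.toLp _)
      (birkhoffAverage ℂ U _root_.id N (hGm.toLp G))) atTop
        (𝓝 ((∫ x, F x ∂μ) * ∫ x, G x ∂μ)) := by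
    rw [← hval]
    exact hlim
  refine hlim2.congr fun N => ?_
  rw [birkhoffAverage, birkhoffSum, inner_smul_right, inner_sum, div_eq_inv_mul]
  congr 1
  refine sum_congr rfl fun d _ => ?_
  rw [L2.inner_def]
  refine integral_congr_ae ?_
  filter_upwards [hFm.coeFn_toLp, hUit d] with x h1 h2
  rw [tz_nat]
  simp only [id_eq]
  rw [h1, h2]
  simp [mul_comm]

/-! ## module M2: from natural to integer exponents -/

private theorem M2_inv {X : Type} [MeasurableSpace X] (μ : Measure X) (τ : ℤ → X → X)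
    (hτ : Sys μ τ) (n : ℤ) {F : X → ℂ} (hF : Measurable F) :
    ∫ x, F (τ n x) ∂μ = ∫ x, F x ∂μ := by
  have h1 := integral_map (μ := μ) (hτ.mp n).measurable.aemeasurable (f := F)
    hF.aestronglyMeasurable
  rw [(hτ.mp n).map_eq] at h1
  exact h1.symm

theorem sp_of_nat {X : Type} [MeasurableSpace X] (μ : Measure X) [IsProbabilityMeasure μ] (T : X ≃ᵐ X)
    (hT : MeasurePreserving T μ μ) (f : X → ℂ) (hf : Bd f) (σ : Measure Cir) [IsFiniteMeasure σ]
    (h : ∀ n : ℕ, ∫ x, f (T^[n] x) * (starRingEnd ℂ) (f x) ∂μ = ∫ t, fourier (n : ℤ) t ∂σ) : Sp μ (tz T) f σ := by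
  have hτ := tz_sys μ T hT
  have hnat : ∀ n : ℕ, ∫ x, f (tz T (n : ℤ) x) * (starRingEnd ℂ) (f x) ∂μ =
      ∫ t, fourier (n : ℤ) t ∂σ := fun n => by
    rw [← h n]
    simp only [tz_nat]
  refine ⟨inferInstance, fun n => ?_⟩
  rcases Int.eq_nat_or_neg n with ⟨k, hk | hk⟩
  · rw [hk]
    exact hnat k
  · have hm : Measurable fun x => f (tz T n x) * (starRingEnd ℂ) (f x) :=
      (hf.1.comp (hτ.mp n).measurable).mul (Complex.continuous_conj.measurable.comp hf.1)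
    rw [← M2_inv μ (tz T) hτ (k : ℤ) hm]
    have h1 : ∀ x, f (tz T n (tz T (k : ℤ) x)) * (starRingEnd ℂ) (f (tz T (k : ℤ) x)) =
        (starRingEnd ℂ) (f (tz T (k : ℤ) x) * (starRingEnd ℂ) (f x)) := fun x => by
      rw [← hτ.add, hk, neg_add_cancel, hτ.zero, map_mul, Complex.conj_conj, mul_comm]
    simp only [h1]
    rw [integral_conj, hnat k, ← integral_conj, hk]
    refine integral_congr_ae (Eventually.of_forall fun t => ?_)
    simp only
    rw [← fourier_neg]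

/-- shift all multipliers by the same natural number -/
theorem mx_of_nat {X : Type} [MeasurableSpace X] (μ : Measure X) [IsProbabilityMeasure μ] (T : X ≃ᵐ X)
    (hT : MeasurePreserving T μ μ) (h : X → ℂ) (hh : Bd h)
    (hm : ∀ (I : Finset ℕ) (m : ℕ), m ∉ I → ∀ F : ℕ → X → ℂ, (∀ i, Bd (F i)) →
      Tendsto (fun d : ℕ => ∫ x, h (T^[m * d] x) * ∏ i ∈ I, F i (T^[i * d] x) ∂μ) atTop (𝓝 0)) :
    Mx μ (tz T) h := by
  classical
  have hτ := tz_sys μ T hT
  intro I m hI F hF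
  obtain ⟨k, hk⟩ : ∃ k : ℕ, 0 ≤ m + k ∧ ∀ i ∈ I, 0 ≤ i + k := by
    refine ⟨m.natAbs + ∑ i ∈ I, i.natAbs, ?_, fun i hi => ?_⟩
    · push_cast
      have h1 : 0 ≤ ∑ i ∈ I, |i| := sum_nonneg fun i _ => abs_nonneg i
      have h2 : -|m| ≤ m := neg_abs_le m
      linarith
    · push_cast
      have h1 : |i| ≤ ∑ i ∈ I, |i| := single_le_sum (fun j _ => abs_nonneg j) hi
      have h2 : -|i| ≤ i := neg_abs_le i
      have h3 := abs_nonneg m
      linarith
  have hinj : Set.InjOn (fun i : ℤ => (i + k).toNat) I := by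
    intro i hi j hj hij
    have h1 := hk.2 i hi
    have h2 := hk.2 j hj
    simp only at hij
    omega
  have hmI : (m + k).toNat ∉ I.image (fun i : ℤ => (i + k).toNat) := by
    intro h1
    obtain ⟨i, hi, h2⟩ := mem_image.mp h1
    have h3 := hk.2 i hi
    have h4 : i = m := by omega
    exact hI (h4 ▸ hi)
  have h1 := hm (I.image fun i : ℤ => (i + k).toNat) (m + k).toNat hmI
    (fun j => F ((j : ℤ) - k)) (fun j => hF _)
  refine h1.congr fun d => ?_
  have hmeas : Measurable fun x => h (tz T (m * d) x) * ∏ i ∈ I, F i (tz T (i * d) x) :=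
    (hh.1.comp (hτ.mp _).measurable).mul
      (Finset.measurable_prod _ fun i _ => (hF i).1.comp (hτ.mp _).measurable)
  rw [← M2_inv μ (tz T) hτ ((k : ℤ) * d) hmeas]
  refine integral_congr_ae (Eventually.of_forall fun x => ?_)
  simp only
  rw [prod_image hinj]
  congr 1
  · rw [← tz_nat, ← hτ.add]
    congr 2
    push_cast
    rw [Int.toNat_of_nonneg hk.1]
    ring
  · refine prod_congr rfl fun i hi => ?_
    rw [← tz_nat, ← hτ.add, Int.toNat_of_nonneg (hk.2 i hi), add_sub_cancel_right]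
    congr 2
    push_cast
    rw [Int.toNat_of_nonneg (hk.2 i hi)]
    ring

theorem mx3_of_nat {X : Type} [MeasurableSpace X] (μ : Measure X) [IsProbabilityMeasure μ] (T : X ≃ᵐ X)
    (hT : MeasurePreserving T μ μ) (h : X → ℂ) (hh : Bd h)
    (hm : ∀ a b c : ℕ, a ≠ b → a ≠ c → b ≠ c → ∀ F G : X → ℂ, Bd F → Bd G →
      Tendsto (fun d : ℕ => ∫ x, h (T^[a * d] x) * F (T^[b * d] x) * G (T^[c * d] x) ∂μ) atTop (𝓝 0)) :
    Mx3 μ (tz T) h := by
  have hτ := tz_sys μ T hT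
  intro a b c hab hac hbc F G hF hG
  obtain ⟨k, ha, hb, hc⟩ : ∃ k : ℕ, 0 ≤ a + k ∧ 0 ≤ b + k ∧ 0 ≤ c + k :=
    ⟨a.natAbs + b.natAbs + c.natAbs, by omega, by omega, by omega⟩
  have h1 := hm (a + k).toNat (b + k).toNat (c + k).toNat (by omega) (by omega) (by omega)
    F G hF hG
  refine h1.congr fun d => ?_
  have hmeas : Measurable fun x => h (tz T (a * d) x) * F (tz T (b * d) x) *
      G (tz T (c * d) x) :=
    ((hh.1.comp (hτ.mp _).measurable).mul (hF.1.comp (hτ.mp _).measurable)).mul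
      (hG.1.comp (hτ.mp _).measurable)
  rw [← M2_inv μ (tz T) hτ ((k : ℤ) * d) hmeas]
  refine integral_congr_ae (Eventually.of_forall fun x => ?_)
  have key : ∀ i : ℤ, 0 ≤ i + k → T^[(i + k).toNat * d] x = tz T (i * d) (tz T ((k : ℤ) * d) x) :=
    fun i hi => by
      rw [← tz_nat, ← hτ.add]
      congr 1
      push_cast
      rw [Int.toNat_of_nonneg hi]
      ring
  simp only
  rw [key a ha, key b hb, key c hc]

/-! ## module M3: the weights of the random set -/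

theorem good_gw (S : Set ℕ) (h : RDf.Good S) : ∃ W : ℕ → ℝ, GW W ∧ ∀ d, W d ≠ 0 → d ∈ S := by
  obtain ⟨W, h1, h2, h3⟩ := h
  refine ⟨W, ⟨h1, fun ε hε => ?_⟩, h2⟩
  obtain ⟨j0, hj0⟩ := h3 1 le_rfl ε hε
  refine ⟨j0, fun j hj θ => ?_⟩
  have h4 := hj0 j hj θ
  have h5 : RDf.blk j 1 = Icc (2 ^ j) (4 ^ j) := by
    rw [RDf.blk, filter_true_of_mem fun d _ => one_dvd d]
  rw [h5] at h4
  exact h4

/-! ## module M4: Theorem A -/

theorem finA (Ω : Type) [MeasurableSpace Ω] (P : Measure Ω) [IsProbabilityMeasure P]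
    (p : ℕ → ℝ) (E : ℕ → Set Ω) (hp : ∀ n, 0 ≤ p n ∧ p n ≤ 1)
    (hpt : Tendsto (fun n : ℕ => (n : ℝ) * p n) atTop atTop) (hE : ∀ n, MeasurableSet (E n)) (hi : iIndepSet E P)
    (hμ : ∀ n, P (E n) = ENNReal.ofReal (p n)) :
    ∀ᵐ ω ∂P, ∀ (X : Type) [MeasurableSpace X] (μ : Measure X) [IsProbabilityMeasure μ] (T : X ≃ᵐ X),
      MeasurePreserving T μ μ →
      (∀ f : X → ℂ, Bd f → ∫ x, f x ∂μ = 0 → ∃ (g h : X → ℂ) (σ : Measure Cir), Bd g ∧ Bd h ∧
        (∀ᵐ x ∂μ, f x = g x + h x) ∧ IsFiniteMeasure σ ∧ σ ⟂ₘ (volume : Measure Cir) ∧ (∀ t, σ {t} = 0) ∧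
        (∀ n : ℕ, ∫ x, g (T^[n] x) * (starRingEnd ℂ) (g x) ∂μ = ∫ t, fourier (n : ℤ) t ∂σ) ∧
        ∀ (I : Finset ℕ) (m : ℕ), m ∉ I → ∀ F : ℕ → X → ℂ, (∀ i, Bd (F i)) →
          Tendsto (fun d : ℕ => ∫ x, h (T^[m * d] x) * ∏ i ∈ I, F i (T^[i * d] x) ∂μ) atTop (𝓝 0)) →
      ∀ (r : ℕ) (A : Set X), MeasurableSet A → ∀ ε : ℝ, 0 < ε →
        ∃ d : ℕ, 0 < d ∧ ω ∈ E d ∧ μ.real A ^ (r + 1) - ε < μ.real {x | ∀ i : ℕ, i ≤ r → T^[i * d] x ∈ A} := by
  filter_upwards [RDf.good_ae P p E hp hpt hE hi hμ] with ω hω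
  obtain ⟨W, hW, hWS⟩ := good_gw _ hω
  intro X _ μ _ T hT hcl r A hA ε hε
  have hτ := tz_sys μ T hT
  have hc : Cls μ (tz T) := by
    intro f hf h0
    obtain ⟨g, h, σ, hg, hh, hfgh, hfin, hsing, hat, hsp, hmx⟩ := hcl f hf h0
    exact ⟨g, h, σ, hg, hh, hfgh, sp_of_nat μ T hT g hg σ hsp, hsing, hat,
      mx_of_nat μ T hT h hh hmx⟩
  obtain ⟨d, hd1, hd2, hd3⟩ := thmA_sys μ (tz T) hτ hc W hW r A hA ε hε
  refine ⟨d, hd1, hWS d hd2, ?_⟩
  have h1 : {x | ∀ i : ℕ, i ≤ r → tz T ((i : ℤ) * d) x ∈ A} =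
      {x | ∀ i : ℕ, i ≤ r → T^[i * d] x ∈ A} := by
    ext x
    have h2 : ∀ i : ℕ, tz T ((i : ℤ) * d) x = T^[i * d] x := fun i => by
      rw [← tz_nat]
      push_cast
      rfl
    simp only [Set.mem_ofPred_eq, h2]
  rw [h1] at hd3
  exact hd3

/-! ## module M5: Theorem B, ergodic systems -/

theorem finB (Ω : Type) [MeasurableSpace Ω] (P : Measure Ω) [IsProbabilityMeasure P]
    (p : ℕ → ℝ) (E : ℕ → Set Ω) (hp : ∀ n, 0 ≤ p n ∧ p n ≤ 1)
    (hpt : Tendsto (fun n : ℕ => (n : ℝ) * p n) atTop atTop) (hE : ∀ n, MeasurableSet (E n)) (hi : iIndepSet E P)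
    (hμ : ∀ n, P (E n) = ENNReal.ofReal (p n)) :
    ∀ᵐ ω ∂P, ∀ (X : Type) [MeasurableSpace X] (μ : Measure X) [IsProbabilityMeasure μ] (T : X ≃ᵐ X),
      Ergodic T μ → ∀ (A : Set X), MeasurableSet A → ∀ (g h : X → ℂ) (σ : Measure Cir), Bd g → Bd h →
      (∀ᵐ x ∂μ, A.indicator (fun _ => (1 : ℂ)) x = g x + h x) →
      IsFiniteMeasure σ → σ ⟂ₘ (volume : Measure Cir) →
      (∀ n : ℕ, ∫ x, g (T^[n] x) * (starRingEnd ℂ) (g x) ∂μ = ∫ t, fourier (n : ℤ) t ∂σ) →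
      (∀ a b c : ℕ, a ≠ b → a ≠ c → b ≠ c → ∀ F G : X → ℂ, Bd F → Bd G →
        Tendsto (fun d : ℕ => ∫ x, h (T^[a * d] x) * F (T^[b * d] x) * G (T^[c * d] x) ∂μ) atTop (𝓝 0)) →
      ∀ ε : ℝ, 0 < ε →
        ∃ d : ℕ, 0 < d ∧ ω ∈ E d ∧
          μ.real A ^ 3 - ε < μ.real {x | x ∈ A ∧ T^[d] x ∈ A ∧ T^[2 * d] x ∈ A} := by
  filter_upwards [RDf.good_ae P p E hp hpt hE hi hμ] with ω hω
  obtain ⟨W, hW, hWS⟩ := good_gw _ hω
  intro X _ μ _ T hT A hA g h σ hg hh hfgh hfin hsing hsp hmx ε hε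
  have hT' := hT.toMeasurePreserving
  obtain ⟨d, hd1, hd2, hd3⟩ := thmB_sys μ (tz T) (tz_sys μ T hT') (erg_of μ T hT) W hW A hA g h
    hg hh hfgh (mx3_of_nat μ T hT' h hh hmx) σ (sp_of_nat μ T hT' g hg σ hsp) hsing ε hε
  refine ⟨d, hd1, hWS d hd2, ?_⟩
  have h1 : {x | x ∈ A ∧ tz T (d : ℤ) x ∈ A ∧ tz T (2 * (d : ℤ)) x ∈ A} =
      {x | x ∈ A ∧ T^[d] x ∈ A ∧ T^[2 * d] x ∈ A} := by
    ext x
    have h2 : tz T (2 * (d : ℤ)) x = T^[2 * d] x := by
      rw [← tz_nat]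
      push_cast
      rfl
    simp only [Set.mem_ofPred_eq, tz_nat, h2]
  rw [h1] at hd3
  exact hd3

/-! ## module M6: all systems with a singular spectral measure (ergodic decomposition) -/

/-- `cmp_dec`, `cmp_erg`, `sp_comp`, `thmB_sys` (with `h = 0`) for a component with `κ_x A > 0`. -/
theorem gen_sys {X : Type} [MeasurableSpace X] [StandardBorelSpace X] [Nonempty X] (μ : Measure X)
    [IsProbabilityMeasure μ] (T : X ≃ᵐ X) (hT : MeasurePreserving T μ μ) (W : ℕ → ℝ) (hW : GW W)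
    (A : Set X) (hA : MeasurableSet A) (hA0 : μ A ≠ 0) (σ : Measure Cir)
    (hσ : Sp μ (tz T) (A.indicator (fun _ => (1 : ℂ))) σ) (hs : σ ⟂ₘ (volume : Measure Cir)) :
    ∃ d : ℕ, 1 ≤ d ∧ W d ≠ 0 ∧ μ {x | x ∈ A ∧ tz T (d : ℤ) x ∈ A ∧ tz T (2 * (d : ℤ)) x ∈ A} ≠ 0 := by
  have hτ := tz_sys μ T hT
  have hfB : Bd (A.indicator (fun _ => (1 : ℂ))) := by
    refine ⟨measurable_const.indicator hA, 1, fun x => ?_⟩
    by_cases hx : x ∈ A
    · rw [Set.indicator_of_mem hx, norm_one]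
    · rw [Set.indicator_of_notMem hx, norm_zero]
      exact zero_le_one
  have hinv := cmp_inv μ T hT
  have hsys : ∀ᵐ x ∂μ, Sys (cmp μ T x) (tz T) := by
    filter_upwards [hinv] with x hx
    exact tz_sys _ T hx
  have hsp := sp_comp μ (tz T) hτ (cmp μ T) (cmp_meas μ T) (cmp_prob μ T) hsys
    (fun B hB => cmp_dec μ T B hB) _ hfB σ hσ hs
  by_contra hcon
  push Not at hcon
  have hmeasd : ∀ d : ℕ, MeasurableSet {x | x ∈ A ∧ tz T (d : ℤ) x ∈ A ∧
      tz T (2 * (d : ℤ)) x ∈ A} := fun d =>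
    hA.inter (((hτ.mp _).measurable hA).inter ((hτ.mp _).measurable hA))
  have hzero : ∀ᵐ x ∂μ, ∀ d : ℕ, 1 ≤ d → W d ≠ 0 →
      cmp μ T x {x | x ∈ A ∧ tz T (d : ℤ) x ∈ A ∧ tz T (2 * (d : ℤ)) x ∈ A} = 0 := by
    rw [ae_all_iff]
    intro d
    by_cases hd : 1 ≤ d ∧ W d ≠ 0
    · have h1 := hcon d hd.1 hd.2
      have h2 : Measurable fun x => cmp μ T x {x | x ∈ A ∧ tz T (d : ℤ) x ∈ A ∧
          tz T (2 * (d : ℤ)) x ∈ A} :=
        (Measure.measurable_coe (hmeasd d)).comp (cmp_meas μ T)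
      rw [cmp_dec μ T _ (hmeasd d), lintegral_eq_zero_iff h2] at h1
      filter_upwards [h1] with x hx _ _
      exact hx
    · exact Eventually.of_forall fun x h1 h2 => absurd ⟨h1, h2⟩ hd
  have hA00 : μ A = 0 := by
    have h0 : Measurable fun x => cmp μ T x A :=
      (Measure.measurable_coe hA).comp (cmp_meas μ T)
    rw [cmp_dec μ T A hA, lintegral_eq_zero_iff h0]
    filter_upwards [hzero, hsp, cmp_erg μ T hT, hsys] with x h1 h2 h3 h4
    obtain ⟨ρ, hρ1, hρ2⟩ := h2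
    have hprob := cmp_prob μ T x
    by_contra h5
    have h6 : 0 < (cmp μ T x).real A := by
      rw [measureReal_def]
      exact ENNReal.toReal_pos h5 (measure_ne_top _ _)
    have hm0 : Mx3 (cmp μ T x) (tz T) (fun _ => 0) := by
      intro a b c _ _ _ F G _ _
      simp
    obtain ⟨d, hd1, hd2, hd3⟩ := thmB_sys (cmp μ T x) (tz T) h4 (erg_of _ T h3) W hW A hA
      (A.indicator fun _ => (1 : ℂ)) (fun _ => 0) hfB ⟨measurable_const, 0, fun _ => by simp⟩
      (Eventually.of_forall fun y => by simp) hm0 ρ hρ1 hρ2 _ (pow_pos h6 3)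
    rw [sub_self, measureReal_def, h1 d hd1 hd2] at hd3
    simp at hd3
  exact hA0 hA00

/-! ## module M7: sets of natural numbers -/

/-- `furst`, `gen_sys`. -/
theorem finN (Ω : Type) [MeasurableSpace Ω] (P : Measure Ω) [IsProbabilityMeasure P]
    (p : ℕ → ℝ) (E : ℕ → Set Ω) (hp : ∀ n, 0 ≤ p n ∧ p n ≤ 1)
    (hpt : Tendsto (fun n : ℕ => (n : ℝ) * p n) atTop atTop) (hE : ∀ n, MeasurableSet (E n)) (hi : iIndepSet E P)
    (hμ : ∀ n, P (E n) = ENNReal.ofReal (p n)) :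
    ∀ᵐ ω ∂P, ∀ (A : Set ℕ) (N : ℕ → ℕ) (γ : ℕ → ℝ) (σ : Measure Cir), Tendsto N atTop atTop →
      (∀ n : ℕ, Tendsto (fun k : ℕ => (({x | x ∈ A ∧ x + n ∈ A ∧ x < N k}.ncard : ℝ)) / (N k : ℝ)) atTop
        (𝓝 (γ n))) → 0 < γ 0 → IsFiniteMeasure σ → σ ⟂ₘ (volume : Measure Cir) →
      (∀ n : ℕ, (γ n : ℂ) = ∫ t, fourier (n : ℤ) t ∂σ) →
      ∃ a d : ℕ, 0 < d ∧ ω ∈ E d ∧ a ∈ A ∧ a + d ∈ A ∧ a + 2 * d ∈ A := by
  filter_upwards [RDf.good_ae P p E hp hpt hE hi hμ] with ω hω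
  obtain ⟨W, hW, hWS⟩ := good_gw _ hω
  intro A N γ σ hN hγ hγ0 hfin hsing hsp
  obtain ⟨μ, hprob, hmp, hcor, hrec⟩ := furst A N hN γ hγ
  have hmeas : ∀ k : ℤ, Measurable fun (x : ℤ → Bool) (i : ℤ) => x (i + k) := fun k =>
    measurable_pi_lambda _ fun i => measurable_pi_apply _
  let T : (ℤ → Bool) ≃ᵐ (ℤ → Bool) :=
    { toFun := fun x i => x (i + 1)
      invFun := fun x i => x (i + -1)
      left_inv := fun x => by funext i; simp
      right_inv := fun x => by funext i; simp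
      measurable_toFun := hmeas 1
      measurable_invFun := hmeas (-1) }
  have hT : MeasurePreserving T μ μ := hmp
  have hTn : ∀ (n : ℕ) (x : ℤ → Bool) (i : ℤ), (T^[n] x) i = x (i + n) := by
    intro n
    induction n with
    | zero => intro x i; simp
    | succ n ih =>
      intro x i
      rw [Function.iterate_succ_apply, ih]
      change x (i + n + 1) = _
      push_cast
      rw [add_assoc]
  set B : Set (ℤ → Bool) := {x | x 0 = true} with hB
  have hBk : ∀ k : ℤ, MeasurableSet {x : ℤ → Bool | x k = true} := fun k => by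
    have h1 : MeasurableSet ((fun x : ℤ → Bool => x k) ⁻¹' {true}) :=
      measurable_pi_apply k (measurableSet_singleton true)
    exact h1
  have hBm : MeasurableSet B := hBk 0
  have hBn : ∀ n : ℕ, MeasurableSet {x : ℤ → Bool | x 0 = true ∧ x (n : ℤ) = true} := fun n =>
    (hBk 0).inter (hBk n)
  have hfB : Bd (B.indicator (fun _ => (1 : ℂ))) := by
    refine ⟨measurable_const.indicator hBm, 1, fun x => ?_⟩
    by_cases hx : x ∈ B
    · rw [Set.indicator_of_mem hx, norm_one]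
    · rw [Set.indicator_of_notMem hx, norm_zero]
      exact zero_le_one
  have hspB : Sp μ (tz T) (B.indicator (fun _ => (1 : ℂ))) σ := by
    refine sp_of_nat μ T hT _ hfB σ fun n => ?_
    rw [← hsp n, ← hcor n]
    have h1 : ∀ x : ℤ → Bool, B.indicator (fun _ => (1 : ℂ)) (T^[n] x) *
        (starRingEnd ℂ) (B.indicator (fun _ => (1 : ℂ)) x) =
        {x : ℤ → Bool | x 0 = true ∧ x (n : ℤ) = true}.indicator (fun _ => (1 : ℂ)) x :=
      fun x => by
        have h2 : T^[n] x ∈ B ↔ x (n : ℤ) = true := by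
          rw [hB, Set.mem_ofPred_eq, hTn n x 0, zero_add]
        by_cases h3 : x ∈ B
        · rw [Set.indicator_of_mem h3, map_one, mul_one]
          by_cases h4 : x (n : ℤ) = true
          · rw [Set.indicator_of_mem (h2.mpr h4), Set.indicator_of_mem]
            exact ⟨h3, h4⟩
          · rw [Set.indicator_of_notMem (fun h5 => h4 (h2.mp h5)), Set.indicator_of_notMem]
            exact fun h5 => h4 h5.2
        · rw [Set.indicator_of_notMem h3, map_zero, mul_zero, Set.indicator_of_notMem]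
          exact fun h5 => h3 h5.1
    simp only [h1]
    rw [integral_indicator_const _ (hBn n), Complex.real_smul, mul_one]
  have hB0 : μ B ≠ 0 := by
    intro h1
    have h2 := hcor 0
    have h3 : {x : ℤ → Bool | x 0 = true ∧ x ((0 : ℕ) : ℤ) = true} = B := by
      ext x
      simp [hB]
    rw [h3, measureReal_def, h1] at h2
    simp only [ENNReal.toReal_zero] at h2
    linarith
  obtain ⟨d, hd1, hd2, hd3⟩ := gen_sys μ T hT W hW B hBm hB0 σ hspB hsing
  have h4 : {x | x ∈ B ∧ tz T (d : ℤ) x ∈ B ∧ tz T (2 * (d : ℤ)) x ∈ B} =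
      {x | x 0 = true ∧ x (d : ℤ) = true ∧ x (2 * (d : ℤ)) = true} := by
    ext x
    have h5 : tz T (2 * (d : ℤ)) x = T^[2 * d] x := by
      rw [← tz_nat]
      push_cast
      rfl
    simp only [hB, Set.mem_ofPred_eq, h5, tz_nat, hTn, zero_add]
    push_cast
    rfl
  rw [h4] at hd3
  obtain ⟨a, ha1, ha2, ha3⟩ := hrec d hd3
  exact ⟨a, d, hd1, hWS d hd2, ha1, ha2, ha3⟩

end Pool.Agent.Sgs
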