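import Pool.Agent.Sgs.Hi
import Pool.Agent.Sgs.Main

/-!
# Theorem C for sets of naturals
-/

set_option autoImplicit false

namespace Pool.Agent.Sgs

open MeasureTheory Filter Finset ProbabilityTheory
open scoped Topology ENNReal

/-! ## module X8: the correspondence (adapt `furst` of `Dec.lean`) -/

open Classical in
/-- the point of the shift space seen from `x` -/
private noncomputable def X8_w (A : Set ℕ) (x : ℕ) : ℤ → Bool := fun i =>
  decide (∃ a : ℕ, (a : ℤ) = x + i ∧ a ∈ A)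

open Classical in
private theorem X8_w_iff (A : Set ℕ) (x n : ℕ) : X8_w A x (n : ℤ) = true ↔ x + n ∈ A := by
  unfold X8_w
  rw [decide_eq_true_iff]
  constructor
  · rintro ⟨a, h1, h2⟩
    have : a = x + n := by exact_mod_cast h1
    rwa [← this]
  · intro h
    exact ⟨x + n, by push_cast; ring, h⟩

private theorem X8_shift (A : Set ℕ) (x : ℕ) :
    (fun i : ℤ => X8_w A x (i + 1)) = X8_w A (x + 1) := by
  funext i
  unfold X8_w
  congr 1
  apply propext
  constructor
  · rintro ⟨a, h1, h2⟩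
    exact ⟨a, by rw [h1]; push_cast; ring, h2⟩
  · rintro ⟨a, h1, h2⟩
    exact ⟨a, by rw [h1]; push_cast; ring, h2⟩

/-- the empirical measures -/
private noncomputable def X8_mes (A : Set ℕ) (M : ℕ) : Measure (ℤ → Bool) :=
  (M : ℝ≥0∞)⁻¹ • ∑ x ∈ range M, Measure.dirac (X8_w A x)

private theorem X8_prob (A : Set ℕ) {M : ℕ} (hM : 1 ≤ M) : IsProbabilityMeasure (X8_mes A M) := by
  constructor
  unfold X8_mes
  rw [Measure.smul_apply, Measure.finsetSum_apply]
  simp only [measure_univ, Finset.sum_const, Finset.card_range, nsmul_eq_mul, mul_one,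
    smul_eq_mul]
  exact ENNReal.inv_mul_cancel (by simpa using (by omega : M ≠ 0)) (ENNReal.natCast_ne_top M)

private theorem X8_int (A : Set ℕ) (M : ℕ) (f : (ℤ → Bool) → ℝ) (hf : Continuous f) :
    ∫ x, f x ∂(X8_mes A M) = (∑ x ∈ range M, f (X8_w A x)) / (M : ℝ) := by
  unfold X8_mes
  rw [integral_smul_measure, integral_finsetSum_measure]
  · simp only [integral_dirac]
    rw [ENNReal.toReal_inv, ENNReal.toReal_natCast, smul_eq_mul, div_eq_inv_mul]
  · intro x _
    exact integrable_dirac (by simp)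

private theorem X8_cont (K : Finset ℕ) :
    Continuous fun x : ℤ → Bool => ∏ a ∈ K, (if x (a : ℤ) = true then (1 : ℝ) else 0) := by
  refine continuous_finsetProd _ fun a _ => ?_
  have h1 : Continuous fun b : Bool => if b = true then (1 : ℝ) else 0 := continuous_of_discreteTopology
  exact h1.comp (continuous_apply (a : ℤ))

private theorem X8_meas (K : Finset ℕ) : MeasurableSet {x : ℤ → Bool | ∀ a ∈ K, x (a : ℤ) = true} := by
  have h1 : {x : ℤ → Bool | ∀ a ∈ K, x (a : ℤ) = true} =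
      ⋂ a ∈ K, (fun x : ℤ → Bool => x (a : ℤ)) ⁻¹' {true} := by
    ext x
    simp
  rw [h1]
  exact Finset.measurableSet_biInter _ fun a _ => measurable_pi_apply (a : ℤ) (measurableSet_singleton true)

private theorem X8_ind (K : Finset ℕ) (x : ℤ → Bool) [Decidable (∀ a ∈ K, x (a : ℤ) = true)] :
    (∏ a ∈ K, (if x (a : ℤ) = true then (1 : ℝ) else 0)) = if ∀ a ∈ K, x (a : ℤ) = true then 1 else 0 := by
  by_cases h : ∀ a ∈ K, x (a : ℤ) = true
  · rw [if_pos h]
    exact Finset.prod_eq_one fun k hk => if_pos (h k hk)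
  · rw [if_neg h]
    push Not at h
    obtain ⟨a, ha, hxa⟩ := h
    exact Finset.prod_eq_zero ha (if_neg hxa)

/-- `μ` = weak limit along an ultrafilter of `(1/N_k) ∑_{x<N_k} δ_(i ↦ [x+i ≥ 0 and x+i ∈ A])`; the measure of the cylinder
`{x | ∀ a ∈ K, x a}` is the limit along the ultrafilter of the densities, so a cluster point. -/
theorem furst2 (A : Set ℕ) (N : ℕ → ℕ) (hN : Tendsto N atTop atTop) :
    ∃ μ : Measure (ℤ → Bool), IsProbabilityMeasure μ ∧
      MeasurePreserving (fun (x : ℤ → Bool) (i : ℤ) => x (i + 1)) μ μ ∧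
      ∀ K : Finset ℕ, MapClusterPt (μ.real {x | ∀ a ∈ K, x (a : ℤ) = true}) atTop
        (fun k : ℕ => (({x | (∀ a ∈ K, x + a ∈ A) ∧ x < N k}.ncard : ℝ)) / (N k : ℝ)) := by
  classical
  obtain ⟨M, hMd⟩ : ∃ M : ℕ → ℕ, ∀ k, M k = max (N k) 1 := ⟨fun k => max (N k) 1, fun _ => rfl⟩
  have hM1 : ∀ k, 1 ≤ M k := fun k => by rw [hMd]; exact le_max_right _ _
  have hMN : ∀ᶠ k in atTop, M k = N k := by
    filter_upwards [hN.eventually (eventually_ge_atTop 1)] with k hk
    rw [hMd]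
    exact max_eq_left hk
  have hM : Tendsto M atTop atTop := hN.congr' (hMN.mono fun k hk => hk.symm)
  let P : ℕ → ProbabilityMeasure (ℤ → Bool) := fun k => ⟨X8_mes A (M k), X8_prob A (hM1 k)⟩
  obtain ⟨μ, _, hμ⟩ := (isCompact_univ (X := ProbabilityMeasure (ℤ → Bool))).ultrafilter_le_nhds
    ((Ultrafilter.of (atTop : Filter ℕ)).map P) (by simp)
  obtain ⟨U, hU⟩ : ∃ U : Filter ℕ, U = (Ultrafilter.of (atTop : Filter ℕ) : Filter ℕ) := ⟨_, rfl⟩
  have hUle : U ≤ atTop := by rw [hU]; exact Ultrafilter.of_le _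
  have hUne : U.NeBot := by rw [hU]; infer_instance
  have hlim : Tendsto P U (𝓝 μ) := by rw [hU]; exact hμ
  have hint : ∀ f : (ℤ → Bool) → ℝ, Continuous f →
      Tendsto (fun k => (∑ x ∈ range (M k), f (X8_w A x)) / (M k : ℝ)) U
        (𝓝 (∫ x, f x ∂(μ : Measure (ℤ → Bool)))) := by
    intro f hf
    have h1 := (ProbabilityMeasure.tendsto_iff_forall_integral_tendsto.1 hlim)
      (BoundedContinuousFunction.mkOfCompact ⟨f, hf⟩)
    refine h1.congr fun k => ?_
    exact X8_int A (M k) f hf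
  have hS : Continuous (fun (x : ℤ → Bool) (i : ℤ) => x (i + 1)) :=
    continuous_pi fun i => continuous_apply (i + 1)
  refine ⟨μ, μ.2, ⟨hS.measurable, ?_⟩, ?_⟩
  · -- invariance
    have hfin : IsFiniteMeasure (Measure.map (fun (x : ℤ → Bool) (i : ℤ) => x (i + 1))
        (μ : Measure (ℤ → Bool))) := inferInstance
    refine ext_of_forall_integral_eq_of_IsFiniteMeasure fun f => ?_
    rw [integral_map hS.measurable.aemeasurable f.continuous.aestronglyMeasurable]
    have h1 := hint (fun x => f (fun i => x (i + 1))) (f.continuous.comp hS)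
    have h2 := hint f f.continuous
    have h3 : Tendsto (fun k => (∑ x ∈ range (M k), f (fun i => X8_w A x (i + 1))) / (M k : ℝ) -
        (∑ x ∈ range (M k), f (X8_w A x)) / (M k : ℝ)) U (𝓝 0) := by
      refine Tendsto.mono_left ?_ hUle
      have h4 : Tendsto (fun k => (2 * ‖f‖) / (M k : ℝ)) atTop (𝓝 0) :=
        tendsto_const_nhds.div_atTop (tendsto_natCast_atTop_atTop.comp hM)
      refine squeeze_zero_norm (fun k => ?_) h4
      have e : (∑ x ∈ range (M k), f (fun i => X8_w A x (i + 1))) / (M k : ℝ) -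
          (∑ x ∈ range (M k), f (X8_w A x)) / (M k : ℝ) =
          (f (X8_w A (M k)) - f (X8_w A 0)) / (M k : ℝ) := by
        rw [← sub_div, ← Finset.sum_sub_distrib]
        congr 1
        simp only [X8_shift]
        exact Finset.sum_range_sub (fun x => f (X8_w A x)) (M k)
      rw [e, norm_div, Real.norm_natCast]
      have h5 : (0 : ℝ) < M k := by exact_mod_cast hM1 k
      refine div_le_div_of_nonneg_right ?_ h5.le
      refine (norm_sub_le _ _).trans ?_
      have h6 := f.norm_coe_le_norm (X8_w A (M k))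
      have h7 := f.norm_coe_le_norm (X8_w A 0)
      linarith
    have h5 := tendsto_nhds_unique (h1.sub h2) h3
    linarith
  · intro K
    have h1 := hint _ (X8_cont K)
    have e1 : ∫ x : ℤ → Bool, (∏ a ∈ K, (if x (a : ℤ) = true then (1 : ℝ) else 0))
        ∂(μ : Measure (ℤ → Bool)) =
        (μ : Measure (ℤ → Bool)).real {x | ∀ a ∈ K, x (a : ℤ) = true} := by
      rw [← integral_indicator_one (X8_meas K)]
      refine integral_congr_ae (Eventually.of_forall fun x => ?_)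
      simp only [X8_ind, Set.indicator_apply, Set.mem_ofPred_eq, Pi.one_apply]
    rw [e1] at h1
    have h2 : Tendsto (fun k : ℕ => (({x | (∀ a ∈ K, x + a ∈ A) ∧ x < N k}.ncard : ℝ)) / (N k : ℝ)) U
        (𝓝 ((μ : Measure (ℤ → Bool)).real {x | ∀ a ∈ K, x (a : ℤ) = true})) := by
      refine h1.congr' ?_
      filter_upwards [hUle hMN] with k hk
      rw [hk]
      congr 1
      simp only [X8_ind]
      rw [Finset.sum_ite, Finset.sum_const_zero, add_zero, Finset.sum_const, nsmul_eq_mul, mul_one]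
      congr 1
      have e2 : {x | (∀ a ∈ K, x + a ∈ A) ∧ x < N k} = (((range (N k)).filter fun x =>
          ∀ a ∈ K, X8_w A x (a : ℤ) = true : Finset ℕ) : Set ℕ) := by
        ext x
        simp only [Set.mem_ofPred_eq, Finset.coe_filter, Finset.mem_range, X8_w_iff]
        tauto
      rw [e2, Set.ncard_coe_finset]
    exact (h2.mapClusterPt).mono hUle

/-! ## module X9: Theorem C -/

private theorem X9_lim {u : ℕ → ℝ} {a L : ℝ} (h1 : MapClusterPt a atTop u) (h2 : Tendsto u atTop (𝓝 L)) :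
    a = L := by
  have h3 : ClusterPt a (𝓝 L) := ClusterPt.mono h1 h2
  have h4 : NeBot (𝓝 a ⊓ 𝓝 L) := h3
  exact eq_of_nhds_neBot h4

private theorem X9_meas (K : Finset ℕ) : MeasurableSet {x : ℤ → Bool | ∀ a ∈ K, x (a : ℤ) = true} := by
  have h1 : {x : ℤ → Bool | ∀ a ∈ K, x (a : ℤ) = true} =
      ⋂ a ∈ K, (fun x : ℤ → Bool => x (a : ℤ)) ⁻¹' {true} := by
    ext x
    simp
  rw [h1]
  exact Finset.measurableSet_biInter _ fun a _ => measurable_pi_apply (a : ℤ) (measurableSet_singleton true)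

private theorem X9_prod (K : Finset ℕ) (g : ℕ → (ℤ → Bool) → (ℤ → Bool))
    (hg : ∀ a x, (g a x) 0 = x (a : ℤ)) (x : ℤ → Bool) :
    (∏ k ∈ K, {x : ℤ → Bool | x 0 = true}.indicator (fun _ => (1 : ℂ)) (g k x)) =
      {x : ℤ → Bool | ∀ a ∈ K, x (a : ℤ) = true}.indicator (fun _ => (1 : ℂ)) x := by
  have h1 : ∀ k, {x : ℤ → Bool | x 0 = true}.indicator (fun _ => (1 : ℂ)) (g k x) =
      if x (k : ℤ) = true then 1 else 0 := by
    intro k
    by_cases h : x (k : ℤ) = true
    · rw [if_pos h, Set.indicator_of_mem]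
      exact (hg k x).trans h
    · rw [if_neg h, Set.indicator_of_notMem]
      exact fun h2 => h ((hg k x).symm.trans h2)
  rw [Finset.prod_congr rfl fun k _ => h1 k]
  by_cases h : ∀ a ∈ K, x (a : ℤ) = true
  · rw [Set.indicator_of_mem (show x ∈ {x : ℤ → Bool | ∀ a ∈ K, x (a : ℤ) = true} from h)]
    exact Finset.prod_eq_one fun k hk => if_pos (h k hk)
  · rw [Set.indicator_of_notMem (show x ∉ {x : ℤ → Bool | ∀ a ∈ K, x (a : ℤ) = true} from h)]
    push Not at h
    obtain ⟨a, ha, hxa⟩ := h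
    exact Finset.prod_eq_zero ha (if_neg hxa)

private theorem X9_bd {X : Type} [MeasurableSpace X] {C : Set X} (hC : MeasurableSet C) (c : ℂ) :
    Bd (fun x => C.indicator (fun _ => (1 : ℂ)) x - c) := by
  refine ⟨(measurable_const.indicator hC).sub measurable_const, 1 + ‖c‖, fun x => ?_⟩
  refine (norm_sub_le _ _).trans (add_le_add_left ?_ _)
  by_cases hx : x ∈ C
  · rw [Set.indicator_of_mem hx, norm_one]
  · rw [Set.indicator_of_notMem hx, norm_zero]
    exact zero_le_one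

private theorem X9_ind {X : Type} [MeasurableSpace X] {C : Set X} (hC : MeasurableSet C) :
    Bd (fun x => C.indicator (fun _ => (1 : ℂ)) x) := by
  have h := X9_bd hC 0
  simpa using h

/-- correlations of `1_C - μ(C)` -/
private theorem X9_cor {X : Type} [MeasurableSpace X] (μ : Measure X) [IsProbabilityMeasure μ] {C : Set X}
    (hC : MeasurableSet C) (S : X → X) (hS : MeasurePreserving S μ μ) :
    ∫ x, (C.indicator (fun _ => (1 : ℂ)) (S x) - ((μ.real C : ℝ) : ℂ)) *
      (starRingEnd ℂ) (C.indicator (fun _ => (1 : ℂ)) x - ((μ.real C : ℝ) : ℂ)) ∂μ =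
      ((μ.real (C ∩ S ⁻¹' C) : ℝ) : ℂ) - ((μ.real C : ℝ) : ℂ) ^ 2 := by
  have hm : MeasurableSet (C ∩ S ⁻¹' C) := hC.inter (hS.measurable hC)
  have hSC : μ.real (S ⁻¹' C) = μ.real C := by
    rw [measureReal_def, measureReal_def, hS.measure_preimage hC.nullMeasurableSet]
  have hint : ∀ D : Set X, MeasurableSet D → Integrable (D.indicator (fun _ => (1 : ℂ))) μ :=
    fun D hD => (integrable_const (1 : ℂ)).indicator hD
  have hval : ∀ D : Set X, MeasurableSet D → ∫ x, D.indicator (fun _ => (1 : ℂ)) x ∂μ = ((μ.real D : ℝ) : ℂ) := by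
    intro D hD
    rw [integral_indicator_const _ hD, Complex.real_smul, mul_one]
  have h1 : ∀ x, (C.indicator (fun _ => (1 : ℂ)) (S x) - ((μ.real C : ℝ) : ℂ)) *
      (starRingEnd ℂ) (C.indicator (fun _ => (1 : ℂ)) x - ((μ.real C : ℝ) : ℂ)) =
      (C ∩ S ⁻¹' C).indicator (fun _ => (1 : ℂ)) x - (S ⁻¹' C).indicator (fun _ => ((1 : ℂ))) x * ((μ.real C : ℝ) : ℂ)
        - (C.indicator (fun _ => (1 : ℂ)) x * ((μ.real C : ℝ) : ℂ) - ((μ.real C : ℝ) : ℂ) ^ 2) := by
    intro x
    have e1 : C.indicator (fun _ => (1 : ℂ)) (S x) = (S ⁻¹' C).indicator (fun _ => (1 : ℂ)) x := rfl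
    have e2 : (starRingEnd ℂ) (C.indicator (fun _ => (1 : ℂ)) x) = C.indicator (fun _ => (1 : ℂ)) x := by
      by_cases hx : x ∈ C
      · rw [Set.indicator_of_mem hx, map_one]
      · rw [Set.indicator_of_notMem hx, map_zero]
    have e3 : (S ⁻¹' C).indicator (fun _ => (1 : ℂ)) x * C.indicator (fun _ => (1 : ℂ)) x =
        (C ∩ S ⁻¹' C).indicator (fun _ => (1 : ℂ)) x := by
      by_cases hx : x ∈ C
      · by_cases hy : x ∈ S ⁻¹' C
        · rw [Set.indicator_of_mem hx, Set.indicator_of_mem hy, Set.indicator_of_mem (show x ∈ C ∩ S ⁻¹' C from ⟨hx, hy⟩),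
            mul_one]
        · rw [Set.indicator_of_notMem hy, Set.indicator_of_notMem (show x ∉ C ∩ S ⁻¹' C from fun h => hy h.2), zero_mul]
      · rw [Set.indicator_of_notMem hx, Set.indicator_of_notMem (show x ∉ C ∩ S ⁻¹' C from fun h => hx h.1), mul_zero]
    rw [e1, map_sub, e2, Complex.conj_ofReal, ← e3]
    ring
  simp only [h1]
  rw [integral_sub, integral_sub, integral_sub, integral_mul_const, integral_mul_const, hval _ hm,
    hval _ (hS.measurable hC), hval _ hC, integral_const, hSC]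
  · simp only [probReal_univ, one_smul]
    ring
  · exact (hint C hC).mul_const _
  · exact integrable_const _
  · exact hint _ hm
  · exact (hint _ (hS.measurable hC)).mul_const _
  · exact (hint _ hm).sub ((hint _ (hS.measurable hC)).mul_const _)
  · exact ((hint C hC).mul_const _).sub (integrable_const _)

/-- `furst2`, `thmC_sys`, `sp_of_nat`; `A` becomes the cylinder `{x | x 0 = true}`; the correlations of
`F = ∏ a ∈ K, 1_A ∘ T^a` are `γ n` (cluster point = limit), so those of `F - ∫ F` are `γ n - (γ 0)²`.  Final conclusion: a cluster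
point `> δ^(r+1) - ε` is exceeded frequently. -/
theorem finC (Ω : Type) [MeasurableSpace Ω] (P : Measure Ω) [IsProbabilityMeasure P]
    (p : ℕ → ℝ) (E : ℕ → Set Ω) (hp : ∀ n, 0 ≤ p n ∧ p n ≤ 1)
    (hpt : Tendsto (fun n : ℕ => (n : ℝ) * p n) atTop atTop) (hE : ∀ n, MeasurableSet (E n)) (hi : iIndepSet E P)
    (hμ : ∀ n, P (E n) = ENNReal.ofReal (p n)) :
    ∀ᵐ ω ∂P, ∀ (r : ℕ) (A : Set ℕ) (N : ℕ → ℕ) (δ : ℝ), 1 ≤ r → Tendsto N atTop atTop →
      Tendsto (fun k : ℕ => (({x | x ∈ A ∧ x < N k}.ncard : ℝ)) / (N k : ℝ)) atTop (𝓝 δ) →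
      (∀ K : Finset ℕ, K.Nonempty → K.card ≤ 2 ^ (r - 1) → ∃ (γ : ℕ → ℝ) (σ : Measure Cir), IsFiniteMeasure σ ∧
        (∀ n : ℕ, Tendsto (fun k : ℕ =>
          (({x | (∀ a ∈ K, x + a ∈ A ∧ x + n + a ∈ A) ∧ x < N k}.ncard : ℝ)) / (N k : ℝ)) atTop (𝓝 (γ n))) ∧
        (∀ n : ℕ, (γ n : ℂ) = (γ 0 : ℂ) ^ 2 + ∫ t, fourier (n : ℤ) t ∂σ) ∧
        (∀ q : ℕ, 0 < q → ∀ t : Cir, q • t = 0 → σ {t} = 0) ∧
        (2 * K.card ≤ 2 ^ (r - 1) → σ ⟂ₘ (volume : Measure Cir) ∧ ∀ t, σ {t} = 0)) →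
      ∀ ε : ℝ, 0 < ε → ∀ m : ℕ, ∃ d : ℕ, m < d ∧ ω ∈ E d ∧
        ∃ᶠ k : ℕ in atTop, (δ ^ (r + 1) - ε) * (N k : ℝ) < (({x | (∀ i : ℕ, i ≤ r → x + i * d ∈ A) ∧ x < N k}.ncard : ℝ)) := by
  classical
  filter_upwards [RDf.good_ae P p E hp hpt hE hi hμ] with ω hω
  obtain ⟨W, hW, hWS⟩ := good_gw _ hω
  intro r A N δ hr hN hδ hK ε hε m
  obtain ⟨μ, hprob, hmp, hcl⟩ := furst2 A N hN
  have hmeas : ∀ k : ℤ, Measurable fun (x : ℤ → Bool) (i : ℤ) => x (i + k) := fun k =>
    measurable_pi_lambda _ fun i => measurable_pi_apply _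
  let T : (ℤ → Bool) ≃ᵐ (ℤ → Bool) :=
    { toFun := fun x i => x (i + 1)
      invFun := fun x i => x (i + -1)
      left_inv := fun x => by funext i; simp
      right_inv := fun x => by funext i; simp
      measurable_toFun := hmeas 1
      measurable_invFun := hmeas (-1) }
  have hT : MeasurePreserving T μ μ := hmp
  have hTn : ∀ (n : ℕ) (x : ℤ → Bool) (i : ℤ), (T^[n] x) i = x (i + n) := by
    intro n
    induction n with
    | zero => intro x i; simp
    | succ n ih =>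
      intro x i
      rw [Function.iterate_succ_apply, ih]
      change x (i + n + 1) = _
      push_cast
      rw [add_assoc]
  have hτn : ∀ (n : ℕ) (x : ℤ → Bool) (i : ℤ), (tz T (n : ℤ) x) i = x (i + n) := by
    intro n x i
    rw [tz_nat, hTn]
  have hτ0 : ∀ (n : ℕ) (x : ℤ → Bool), (tz T (n : ℤ) x) 0 = x (n : ℤ) := by
    intro n x
    rw [hτn, zero_add]
  have hsys := tz_sys μ T hT
  -- measures of cylinders are the limits of the densities
  have hC : ∀ (K : Finset ℕ) (L : ℝ),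
      Tendsto (fun k : ℕ => (({x | (∀ a ∈ K, x + a ∈ A) ∧ x < N k}.ncard : ℝ)) / (N k : ℝ)) atTop (𝓝 L) →
      μ.real {x | ∀ a ∈ K, x (a : ℤ) = true} = L := fun K L h => X9_lim (hcl K) h
  -- the correlations
  have hcor : ∀ (K : Finset ℕ) (γ : ℕ → ℝ), (∀ n : ℕ, Tendsto (fun k : ℕ =>
          (({x | (∀ a ∈ K, x + a ∈ A ∧ x + n + a ∈ A) ∧ x < N k}.ncard : ℝ)) / (N k : ℝ)) atTop (𝓝 (γ n))) →
      ∀ n : ℕ, μ.real ({x | ∀ a ∈ K, x (a : ℤ) = true} ∩ (T^[n]) ⁻¹' {x | ∀ a ∈ K, x (a : ℤ) = true}) = γ n := by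
    intro K γ hγ n
    have h1 : ({x : ℤ → Bool | ∀ a ∈ K, x (a : ℤ) = true} ∩ (T^[n]) ⁻¹' {x | ∀ a ∈ K, x (a : ℤ) = true}) =
        {x | ∀ a ∈ K ∪ K.image (fun a => n + a), x (a : ℤ) = true} := by
      ext x
      constructor
      · rintro ⟨h2, h3⟩ a ha
        rcases Finset.mem_union.1 ha with ha | ha
        · exact h2 a ha
        · obtain ⟨b, hb, rfl⟩ := Finset.mem_image.1 ha
          have h4 : (T^[n] x) (b : ℤ) = true := h3 b hb
          rw [hTn] at h4
          rw [← h4]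
          congr 1
          push_cast
          ring
      · intro h2
        refine ⟨fun a ha => h2 a (Finset.mem_union_left _ ha), fun a ha => ?_⟩
        have h4 := h2 (n + a) (Finset.mem_union_right _ (Finset.mem_image_of_mem (fun a => n + a) ha))
        show (T^[n] x) (a : ℤ) = true
        rw [hTn, ← h4]
        congr 1
        push_cast
        ring
    rw [h1]
    apply hC
    have h5 : ∀ k, {x | (∀ a ∈ K, x + a ∈ A ∧ x + n + a ∈ A) ∧ x < N k} =
        {x | (∀ a ∈ K ∪ K.image (fun a => n + a), x + a ∈ A) ∧ x < N k} := by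
      intro k
      ext x
      constructor
      · rintro ⟨h2, h3⟩
        refine ⟨fun a ha => ?_, h3⟩
        rcases Finset.mem_union.1 ha with ha | ha
        · exact (h2 a ha).1
        · obtain ⟨b, hb, rfl⟩ := Finset.mem_image.1 ha
          rw [← add_assoc]
          exact (h2 b hb).2
      · rintro ⟨h2, h3⟩
        refine ⟨fun a ha => ⟨h2 a (Finset.mem_union_left _ ha), ?_⟩, h3⟩
        rw [add_assoc]
        exact h2 (n + a) (Finset.mem_union_right _ (Finset.mem_image_of_mem (fun a => n + a) ha))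
    have h6 := hγ n
    simp only [h5] at h6
    exact h6
  have hzero : ∀ (K : Finset ℕ) (γ : ℕ → ℝ), (∀ n : ℕ, Tendsto (fun k : ℕ =>
          (({x | (∀ a ∈ K, x + a ∈ A ∧ x + n + a ∈ A) ∧ x < N k}.ncard : ℝ)) / (N k : ℝ)) atTop (𝓝 (γ n))) →
      μ.real {x | ∀ a ∈ K, x (a : ℤ) = true} = γ 0 := by
    intro K γ hγ
    rw [← hcor K γ hγ 0, Function.iterate_zero, Set.preimage_id, Set.inter_self]
  -- the spectral measures
  have hvp : ∀ K : Finset ℕ, K.Nonempty → K.card ≤ 2 ^ (r - 1) → ∃ σ : Measure Cir,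
      Bd (fun x => ∏ k ∈ K, {x : ℤ → Bool | x 0 = true}.indicator (fun _ => (1 : ℂ)) (tz T (k : ℤ) x)) ∧
      Sp μ (tz T) (fun x => (∏ k ∈ K, {x : ℤ → Bool | x 0 = true}.indicator (fun _ => (1 : ℂ)) (tz T (k : ℤ) x)) -
        ∫ y, (∏ k ∈ K, {x : ℤ → Bool | x 0 = true}.indicator (fun _ => (1 : ℂ)) (tz T (k : ℤ) y)) ∂μ) σ ∧
      Tor σ ∧ (2 * K.card ≤ 2 ^ (r - 1) → Sing σ) := by
    intro K hKn hKc
    obtain ⟨γ, σ, hfin, hγ, hsp, htor, hsing⟩ := hK K hKn hKc
    have hCm := X9_meas K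
    have hp1 : (fun x : ℤ → Bool => ∏ k ∈ K, {x : ℤ → Bool | x 0 = true}.indicator (fun _ => (1 : ℂ)) (tz T (k : ℤ) x)) =
        fun x => {x : ℤ → Bool | ∀ a ∈ K, x (a : ℤ) = true}.indicator (fun _ => (1 : ℂ)) x := by
      funext x
      exact X9_prod K (fun k => tz T (k : ℤ)) (fun a x => hτ0 a x) x
    have hmean : ∫ y, {x : ℤ → Bool | ∀ a ∈ K, x (a : ℤ) = true}.indicator (fun _ => (1 : ℂ)) y ∂μ =
        ((μ.real {x : ℤ → Bool | ∀ a ∈ K, x (a : ℤ) = true} : ℝ) : ℂ) := by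
      rw [integral_indicator_const _ hCm, Complex.real_smul, mul_one]
    refine ⟨σ, ?_, ?_, htor, hsing⟩
    · rw [hp1]
      exact X9_ind hCm
    · have hp2 : (fun x : ℤ → Bool => (∏ k ∈ K, {x : ℤ → Bool | x 0 = true}.indicator (fun _ => (1 : ℂ)) (tz T (k : ℤ) x)) -
          ∫ y, (∏ k ∈ K, {x : ℤ → Bool | x 0 = true}.indicator (fun _ => (1 : ℂ)) (tz T (k : ℤ) y)) ∂μ) =
          fun x => {x : ℤ → Bool | ∀ a ∈ K, x (a : ℤ) = true}.indicator (fun _ => (1 : ℂ)) x -
            ((μ.real {x : ℤ → Bool | ∀ a ∈ K, x (a : ℤ) = true} : ℝ) : ℂ) := by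
        funext x
        rw [← hmean]
        have h7 := congrFun hp1 x
        simp only at h7
        rw [h7, hp1]
      rw [hp2]
      refine sp_of_nat μ T hT _ (X9_bd hCm _) σ fun n => ?_
      rw [X9_cor μ hCm (T^[n]) (hT.iterate n), hcor K γ hγ n, hzero K γ hγ, hsp n]
      ring
  obtain ⟨d, hd1, hd2, hd3⟩ := thmC_sys μ (tz T) hsys W hW r hr {x : ℤ → Bool | x 0 = true}
    (by
      have h1 : MeasurableSet ((fun x : ℤ → Bool => x 0) ⁻¹' {true}) :=
        measurable_pi_apply 0 (measurableSet_singleton true)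
      exact h1)
    (fun K hKn hKc => by
      obtain ⟨σ, h1, h2, h3, _⟩ := hvp K hKn hKc
      exact ⟨h1, σ, h2, h3⟩)
    (fun K hKn hKc => by
      obtain ⟨σ, h1, h2, _, h3⟩ := hvp K hKn (by omega)
      exact ⟨h1, σ, h2, h3 hKc⟩) ε hε m
  refine ⟨d, hd1, hWS d hd2, ?_⟩
  have hB : μ.real {x : ℤ → Bool | x 0 = true} = δ := by
    have h1 := hC {0} δ (by
      have h5 : ∀ k, {x | (∀ a ∈ ({0} : Finset ℕ), x + a ∈ A) ∧ x < N k} = {x | x ∈ A ∧ x < N k} := by
        intro k
        ext x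
        simp
      simp only [h5]
      exact hδ)
    rw [← h1]
    congr 1
    ext x
    simp
  have hE : {x | ∀ i : ℕ, i ≤ r → tz T ((i : ℤ) * d) x ∈ {x : ℤ → Bool | x 0 = true}} =
      {x | ∀ a ∈ (Finset.range (r + 1)).image (fun i => i * d), x (a : ℤ) = true} := by
    ext x
    constructor
    · intro h1 a ha
      obtain ⟨i, hi, rfl⟩ := Finset.mem_image.1 ha
      have h2 : (tz T ((i : ℤ) * d) x) 0 = true := h1 i (by have := Finset.mem_range.1 hi; omega)
      have h3 := hτ0 (i * d) x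
      push_cast at h3
      rw [h3] at h2
      push_cast
      exact h2
    · intro h1 i hi
      have h2 := h1 (i * d) (Finset.mem_image.2 ⟨i, Finset.mem_range.2 (by omega), rfl⟩)
      have h3 := hτ0 (i * d) x
      push_cast at h2 h3
      show (tz T ((i : ℤ) * d) x) 0 = true
      rw [h3]
      exact h2
  rw [hB, hE] at hd3
  have h8 := hcl ((Finset.range (r + 1)).image (fun i => i * d))
  have h9 := mapClusterPt_iff_frequently.1 h8 (Set.Ioi (δ ^ (r + 1) - ε)) (Ioi_mem_nhds hd3)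
  have h10 := hN.eventually (eventually_ge_atTop 1)
  refine (h9.and_eventually h10).mono fun k hk => ?_
  obtain ⟨hk1, hk2⟩ := hk
  have h11 : (0 : ℝ) < (N k : ℝ) := by
    have : 0 < N k := hk2
    exact_mod_cast this
  have h12 : {x | (∀ a ∈ (Finset.range (r + 1)).image (fun i => i * d), x + a ∈ A) ∧ x < N k} =
      {x | (∀ i : ℕ, i ≤ r → x + i * d ∈ A) ∧ x < N k} := by
    ext x
    constructor
    · rintro ⟨h1, h2⟩
      exact ⟨fun i hi => h1 (i * d) (Finset.mem_image.2 ⟨i, Finset.mem_range.2 (by omega), rfl⟩), h2⟩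
    · rintro ⟨h1, h2⟩
      refine ⟨fun a ha => ?_, h2⟩
      obtain ⟨i, hi, rfl⟩ := Finset.mem_image.1 ha
      exact h1 i (by have := Finset.mem_range.1 hi; omega)
  rw [h12] at hk1
  exact (lt_div_iff₀ h11).1 hk1

end Pool.Agent.Sgs
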