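import Pool.Agent.Sgs.Plus2
import Pool.Agent.Sgs.Main

/-!
# Theorem B+: final forms
-/

set_option autoImplicit false

namespace Pool.Agent.Sgs

open MeasureTheory Filter Finset ProbabilityTheory
open scoped Topology ENNReal

/-! ## module Q10: not necessarily ergodic systems -/

/-- `a₀` from `thmBp_sys` with `ε = (δ/2)³`, `M = 1`; `a = a₀ δ / 4`.  By `cmp_dec` the components with
`κ_x A ≥ δ/2` have measure at least `δ/2`; by `sp_mix` and Markov's inequality those with `σ_x Eᶜ > a₀` have measure at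
most `δ/4`. -/
theorem gen_sysp (δ : ℝ) (hδ : 0 < δ) :
    ∃ a : ℝ, 0 < a ∧ ∀ (X : Type) [MeasurableSpace X] [StandardBorelSpace X] [Nonempty X] (μ : Measure X)
      [IsProbabilityMeasure μ] (T : X ≃ᵐ X), MeasurePreserving T μ μ → ∀ (W : ℕ → ℝ), GW W →
      ∀ (A : Set X), MeasurableSet A → δ ≤ μ.real A → ∀ (σ : Measure Cir),
      Sp μ (tz T) (A.indicator (fun _ => (1 : ℂ))) σ →
      ∀ (E : Set Cir), MeasurableSet E → volume E = 0 → (σ Eᶜ).toReal ≤ a → ∀ m : ℕ,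
        ∃ d : ℕ, m < d ∧ W d ≠ 0 ∧ μ {x | x ∈ A ∧ tz T (d : ℤ) x ∈ A ∧ tz T (2 * (d : ℤ)) x ∈ A} ≠ 0 := by
  obtain ⟨a₀, ha₀, HB⟩ := thmBp_sys ((δ / 2) ^ 3) 1 (by positivity)
  refine ⟨a₀ * δ / 4, by positivity, ?_⟩
  intro X _ _ _ μ _ T hT W hW A hA hδA σ hσ E hE hE0 hσE m
  have hτ := tz_sys μ T hT
  have hfB : Bd (A.indicator (fun _ => (1 : ℂ))) := B11_bdA A hA
  have hinv := cmp_inv μ T hT
  have hsys : ∀ᵐ x ∂μ, Sys (cmp μ T x) (tz T) := by
    filter_upwards [hinv] with x hx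
    exact tz_sys _ T hx
  obtain ⟨ρ, hρm, hρ1, hρ2⟩ := sp_mix μ (tz T) hτ (cmp μ T) (cmp_meas μ T) (cmp_prob μ T) hsys
    (fun B hB => cmp_dec μ T B hB) _ hfB σ hσ
  by_contra hcon
  push Not at hcon
  have hmeasd : ∀ d : ℕ, MeasurableSet {x | x ∈ A ∧ tz T (d : ℤ) x ∈ A ∧
      tz T (2 * (d : ℤ)) x ∈ A} := fun d =>
    hA.inter (((hτ.mp _).measurable hA).inter ((hτ.mp _).measurable hA))
  have hzero : ∀ᵐ x ∂μ, ∀ d : ℕ, m < d → W d ≠ 0 →
      cmp μ T x {x | x ∈ A ∧ tz T (d : ℤ) x ∈ A ∧ tz T (2 * (d : ℤ)) x ∈ A} = 0 := by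
    rw [ae_all_iff]
    intro d
    by_cases hd : m < d ∧ W d ≠ 0
    · have h1 := hcon d hd.1 hd.2
      have h2 : Measurable fun x => cmp μ T x {x | x ∈ A ∧ tz T (d : ℤ) x ∈ A ∧
          tz T (2 * (d : ℤ)) x ∈ A} :=
        (Measure.measurable_coe (hmeasd d)).comp (cmp_meas μ T)
      rw [cmp_dec μ T _ (hmeasd d), lintegral_eq_zero_iff h2] at h1
      filter_upwards [h1] with x hx _ _
      exact hx
    · exact Eventually.of_forall fun x h1 h2 => absurd ⟨h1, h2⟩ hd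
  -- for almost all x: either the mass of A is small or the bad part is large
  have hdich : ∀ᵐ x ∂μ, (cmp μ T x).real A < δ / 2 ∨ a₀ < (ρ x Eᶜ).toReal := by
    filter_upwards [hzero, hρ1, cmp_erg μ T hT, hsys] with x h1 h2 h3 h4
    have hprob := cmp_prob μ T x
    by_contra h5
    push Not at h5
    obtain ⟨h6, h7⟩ := h5
    have hm0 : Mx3 (cmp μ T x) (tz T) (fun _ => 0) := by
      intro a b c _ _ _ F G _ _
      simp
    have hfin := h2.1
    have hmassx : (ρ x Set.univ).toReal ≤ 1 := by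
      have h8 := h2.2 0
      simp only [fourier_zero, integral_const] at h8
      have h9 : (((ρ x).real Set.univ : ℝ) : ℂ) = (((cmp μ T x).real A : ℝ) : ℂ) := by
        have h11 : ∀ y, A.indicator (fun _ => (1 : ℂ)) (tz T 0 y) *
            (starRingEnd ℂ) (A.indicator (fun _ => (1 : ℂ)) y) = A.indicator (fun _ => (1 : ℂ)) y := by
          intro y
          rw [h4.zero]
          by_cases hy : y ∈ A
          · rw [Set.indicator_of_mem hy, map_one, mul_one]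
          · rw [Set.indicator_of_notMem hy, zero_mul]
        simp only [h11] at h8
        rw [integral_indicator_const _ hA, Complex.real_smul, Complex.real_smul, mul_one, mul_one] at h8
        exact h8.symm
      have h10 := Complex.ofReal_inj.mp h9
      rw [← measureReal_def, h10]
      exact measureReal_le_one
    obtain ⟨d, hd1, hd2, hd3⟩ := HB X (cmp μ T x) (tz T) h4 (erg_of _ T h3) W hW A hA
      (A.indicator fun _ => (1 : ℂ)) (fun _ => 0) hfB ⟨measurable_const, 0, fun _ => by simp⟩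
      (Eventually.of_forall fun y => by simp) hm0 (ρ x) h2 hmassx E hE hE0 h7 m
    have h8 : (δ / 2) ^ 3 ≤ (cmp μ T x).real A ^ 3 := pow_le_pow_left₀ (by positivity) h6 3
    rw [measureReal_def (cmp μ T x) {x | x ∈ A ∧ tz T (d : ℤ) x ∈ A ∧ tz T (2 * (d : ℤ)) x ∈ A},
      h1 d hd1 hd2] at hd3
    simp only [ENNReal.toReal_zero] at hd3
    linarith
  -- the measure of the components
  have hcm : Measurable fun x => cmp μ T x A := (Measure.measurable_coe hA).comp (cmp_meas μ T)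
  have hρE : Measurable fun x => ρ x Eᶜ := (Measure.measurable_coe hE.compl).comp hρm
  obtain ⟨G, hG⟩ : ∃ G : Set X, G = {x | ENNReal.ofReal (δ / 2) ≤ cmp μ T x A} := ⟨_, rfl⟩
  obtain ⟨B, hB⟩ : ∃ B : Set X, B = {x | ENNReal.ofReal a₀ ≤ ρ x Eᶜ} := ⟨_, rfl⟩
  have hGm : MeasurableSet G := by rw [hG]; exact measurableSet_le measurable_const hcm
  have hBm : MeasurableSet B := by rw [hB]; exact measurableSet_le measurable_const hρE
  have hsub : μ (G \ B) = 0 := by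
    have h1 : ∀ᵐ x ∂μ, x ∉ G \ B := by
      filter_upwards [hdich, hρ1] with x hx hx2 hxGB
      have hprob := cmp_prob μ T x
      have hfin := hx2.1
      rw [hG, hB] at hxGB
      obtain ⟨hxG, hxB⟩ := hxGB
      have hxG' : ENNReal.ofReal (δ / 2) ≤ cmp μ T x A := hxG
      have hxB' : ¬ ENNReal.ofReal a₀ ≤ ρ x Eᶜ := hxB
      rcases hx with hx | hx
      · rw [measureReal_def] at hx
        have := (ENNReal.ofReal_le_iff_le_toReal (measure_ne_top _ _)).mp hxG'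
        linarith
      · exact hxB' ((ENNReal.ofReal_le_iff_le_toReal (measure_ne_top _ _)).mpr hx.le)
    rw [measure_eq_zero_iff_ae_notMem]
    exact h1
  have hGB : μ G ≤ μ B := by
    calc μ G ≤ μ ((G \ B) ∪ B) := measure_mono (by rw [Set.sdiff_union_self]; exact Set.subset_union_left)
      _ ≤ μ (G \ B) + μ B := measure_union_le _ _
      _ = μ B := by rw [hsub, zero_add]
  -- Markov for B
  have hB1 : ENNReal.ofReal a₀ * μ B ≤ ENNReal.ofReal (a₀ * δ / 4) := by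
    have h1 := mul_meas_ge_le_lintegral₀ (μ := μ) (f := fun x => ρ x Eᶜ) hρE.aemeasurable
      (ENNReal.ofReal a₀)
    have h2 : ∫⁻ x, ρ x Eᶜ ∂μ = σ Eᶜ := (hρ2 _ hE.compl).symm
    rw [h2, ← hB] at h1
    refine h1.trans ?_
    have hfin := hσ.1
    exact (ENNReal.le_ofReal_iff_toReal_le (measure_ne_top _ _) (by positivity)).mpr hσE
  have hB2 : μ B ≤ ENNReal.ofReal (δ / 4) := by
    have h1 : ENNReal.ofReal (a₀ * δ / 4) = ENNReal.ofReal a₀ * ENNReal.ofReal (δ / 4) := by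
      rw [← ENNReal.ofReal_mul ha₀.le]
      congr 1
      ring
    rw [h1] at hB1
    exact (ENNReal.mul_le_mul_iff_right (by simpa using ha₀) ENNReal.ofReal_ne_top).mp hB1
  -- lower bound for G
  have hG1 : μ A ≤ μ G + ENNReal.ofReal (δ / 2) := by
    rw [cmp_dec μ T A hA, ← lintegral_add_compl _ hGm]
    refine add_le_add ?_ ?_
    · calc ∫⁻ x in G, cmp μ T x A ∂μ ≤ ∫⁻ x in G, 1 ∂μ := by
            refine lintegral_mono fun x => ?_
            have := cmp_prob μ T x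
            exact prob_le_one
        _ = μ G := by rw [lintegral_one, Measure.restrict_apply_univ]
    · calc ∫⁻ x in Gᶜ, cmp μ T x A ∂μ ≤ ∫⁻ x in Gᶜ, ENNReal.ofReal (δ / 2) ∂μ := by
            refine setLIntegral_mono' hGm.compl fun x hx => ?_
            have hx' : ¬ ENNReal.ofReal (δ / 2) ≤ cmp μ T x A := by
              rw [hG] at hx
              exact hx
            exact (not_le.mp hx').le
        _ = ENNReal.ofReal (δ / 2) * μ Gᶜ := by
            rw [lintegral_const, Measure.restrict_apply_univ]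
        _ ≤ ENNReal.ofReal (δ / 2) * 1 := by gcongr; exact prob_le_one
        _ = _ := mul_one _
  have hfinal : μ A ≤ ENNReal.ofReal (3 * δ / 4) := by
    calc μ A ≤ μ G + ENNReal.ofReal (δ / 2) := hG1
      _ ≤ ENNReal.ofReal (δ / 4) + ENNReal.ofReal (δ / 2) := by gcongr; exact hGB.trans hB2
      _ = ENNReal.ofReal (3 * δ / 4) := by
        rw [← ENNReal.ofReal_add (by positivity) (by positivity)]
        congr 1
        ring
  have h9 : μ.real A ≤ 3 * δ / 4 := by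
    rw [measureReal_def]
    exact ENNReal.toReal_le_of_le_ofReal (by positivity) hfinal
  linarith

/-! ## module Q11: the two final theorems -/

/-- `thmBp_sys`; as `finB`. -/
theorem finBp (ε M : ℝ) (hε : 0 < ε) :
    ∃ a : ℝ, 0 < a ∧ ∀ (Ω : Type) [MeasurableSpace Ω] (P : Measure Ω) [IsProbabilityMeasure P]
      (p : ℕ → ℝ) (E : ℕ → Set Ω), (∀ n, 0 ≤ p n ∧ p n ≤ 1) →
      Tendsto (fun n : ℕ => (n : ℝ) * p n) atTop atTop → (∀ n, MeasurableSet (E n)) → iIndepSet E P →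
      (∀ n, P (E n) = ENNReal.ofReal (p n)) →
      ∀ᵐ ω ∂P, ∀ (X : Type) [MeasurableSpace X] (μ : Measure X) [IsProbabilityMeasure μ] (T : X ≃ᵐ X),
        Ergodic T μ → ∀ (A : Set X), MeasurableSet A → ∀ (g h : X → ℂ) (σ : Measure Cir), Bd g → Bd h →
        (∀ᵐ x ∂μ, A.indicator (fun _ => (1 : ℂ)) x = g x + h x) →
        IsFiniteMeasure σ → (σ Set.univ).toReal ≤ M →
        (∃ Z : Set Cir, MeasurableSet Z ∧ volume Z = 0 ∧ (σ Zᶜ).toReal ≤ a) →
        (∀ n : ℕ, ∫ x, g (T^[n] x) * (starRingEnd ℂ) (g x) ∂μ = ∫ t, fourier (n : ℤ) t ∂σ) →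
        (∀ a b c : ℕ, a ≠ b → a ≠ c → b ≠ c → ∀ F G : X → ℂ, Bd F → Bd G →
          Tendsto (fun d : ℕ => ∫ x, h (T^[a * d] x) * F (T^[b * d] x) * G (T^[c * d] x) ∂μ) atTop (𝓝 0)) →
        ∀ m : ℕ, ∃ d : ℕ, m < d ∧ ω ∈ E d ∧
          μ.real A ^ 3 - ε < μ.real {x | x ∈ A ∧ T^[d] x ∈ A ∧ T^[2 * d] x ∈ A} := by
  obtain ⟨a, ha, HB⟩ := thmBp_sys ε M hε
  refine ⟨a, ha, ?_⟩
  intro Ω _ P _ p E hp hpt hE hi hμ
  filter_upwards [RDf.good_ae P p E hp hpt hE hi hμ] with ω hω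
  obtain ⟨W, hW, hWS⟩ := good_gw _ hω
  intro X _ μ _ T hT A hA g h σ hg hh hfgh hfin hM hZ hsp hmx m
  obtain ⟨Z, hZm, hZ0, hZa⟩ := hZ
  have hT' := hT.toMeasurePreserving
  obtain ⟨d, hd1, hd2, hd3⟩ := HB X μ (tz T) (tz_sys μ T hT') (erg_of μ T hT) W hW A hA g h
    hg hh hfgh (mx3_of_nat μ T hT' h hh hmx) σ (sp_of_nat μ T hT' g hg σ hsp) hM Z hZm hZ0 hZa m
  refine ⟨d, hd1, hWS d hd2, ?_⟩
  have h1 : {x | x ∈ A ∧ tz T (d : ℤ) x ∈ A ∧ tz T (2 * (d : ℤ)) x ∈ A} =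
      {x | x ∈ A ∧ T^[d] x ∈ A ∧ T^[2 * d] x ∈ A} := by
    ext x
    have h2 : tz T (2 * (d : ℤ)) x = T^[2 * d] x := by
      rw [← tz_nat]
      push_cast
      rfl
    simp only [Set.mem_ofPred_eq, tz_nat, h2]
  rw [h1] at hd3
  exact hd3

/-- `gen_sysp`; as `finN`. -/
theorem finNp (δ : ℝ) (hδ : 0 < δ) :
    ∃ a : ℝ, 0 < a ∧ ∀ (Ω : Type) [MeasurableSpace Ω] (P : Measure Ω) [IsProbabilityMeasure P]
      (p : ℕ → ℝ) (E : ℕ → Set Ω), (∀ n, 0 ≤ p n ∧ p n ≤ 1) →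
      Tendsto (fun n : ℕ => (n : ℝ) * p n) atTop atTop → (∀ n, MeasurableSet (E n)) → iIndepSet E P →
      (∀ n, P (E n) = ENNReal.ofReal (p n)) →
      ∀ᵐ ω ∂P, ∀ (A : Set ℕ) (N : ℕ → ℕ) (γ : ℕ → ℝ) (σ : Measure Cir), Tendsto N atTop atTop →
        (∀ n : ℕ, Tendsto (fun k : ℕ => (({x | x ∈ A ∧ x + n ∈ A ∧ x < N k}.ncard : ℝ)) / (N k : ℝ)) atTop
          (𝓝 (γ n))) → δ ≤ γ 0 → IsFiniteMeasure σ → (∀ n : ℕ, (γ n : ℂ) = ∫ t, fourier (n : ℤ) t ∂σ) →
        (∃ Z : Set Cir, MeasurableSet Z ∧ volume Z = 0 ∧ (σ Zᶜ).toReal ≤ a) →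
        ∀ m : ℕ, ∃ a d : ℕ, m < d ∧ ω ∈ E d ∧ a ∈ A ∧ a + d ∈ A ∧ a + 2 * d ∈ A := by
  obtain ⟨a₁, ha₁, HG⟩ := gen_sysp δ hδ
  refine ⟨a₁, ha₁, ?_⟩
  intro Ω _ P _ p E hp hpt hE hi hμ
  filter_upwards [RDf.good_ae P p E hp hpt hE hi hμ] with ω hω
  obtain ⟨W, hW, hWS⟩ := good_gw _ hω
  intro A N γ σ hN hγ hγ0 hfin hsp hZ m
  obtain ⟨Z, hZm, hZ0, hZa⟩ := hZ
  obtain ⟨μ, hprob, hmp, hcor, hrec⟩ := furst A N hN γ hγ
  have hmeas : ∀ k : ℤ, Measurable fun (x : ℤ → Bool) (i : ℤ) => x (i + k) := fun k =>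
    measurable_pi_lambda _ fun i => measurable_pi_apply _
  let T : (ℤ → Bool) ≃ᵐ (ℤ → Bool) :=
    { toFun := fun x i => x (i + 1)
      invFun := fun x i => x (i + -1)
      left_inv := fun x => by funext i; simp
      right_inv := fun x => by funext i; simp
      measurable_toFun := hmeas 1
      measurable_invFun := hmeas (-1) }
  have hT : MeasurePreserving T μ μ := hmp
  have hTn : ∀ (n : ℕ) (x : ℤ → Bool) (i : ℤ), (T^[n] x) i = x (i + n) := by
    intro n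
    induction n with
    | zero => intro x i; simp
    | succ n ih =>
      intro x i
      rw [Function.iterate_succ_apply, ih]
      change x (i + n + 1) = _
      push_cast
      rw [add_assoc]
  set B : Set (ℤ → Bool) := {x | x 0 = true} with hB
  have hBk : ∀ k : ℤ, MeasurableSet {x : ℤ → Bool | x k = true} := fun k => by
    have h1 : MeasurableSet ((fun x : ℤ → Bool => x k) ⁻¹' {true}) :=
      measurable_pi_apply k (measurableSet_singleton true)
    exact h1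
  have hBm : MeasurableSet B := hBk 0
  have hBn : ∀ n : ℕ, MeasurableSet {x : ℤ → Bool | x 0 = true ∧ x (n : ℤ) = true} := fun n =>
    (hBk 0).inter (hBk n)
  have hfB : Bd (B.indicator (fun _ => (1 : ℂ))) := B11_bdA B hBm
  have hspB : Sp μ (tz T) (B.indicator (fun _ => (1 : ℂ))) σ := by
    refine sp_of_nat μ T hT _ hfB σ fun n => ?_
    rw [← hsp n, ← hcor n]
    have h1 : ∀ x : ℤ → Bool, B.indicator (fun _ => (1 : ℂ)) (T^[n] x) *
        (starRingEnd ℂ) (B.indicator (fun _ => (1 : ℂ)) x) =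
        {x : ℤ → Bool | x 0 = true ∧ x (n : ℤ) = true}.indicator (fun _ => (1 : ℂ)) x :=
      fun x => by
        have h2 : T^[n] x ∈ B ↔ x (n : ℤ) = true := by
          rw [hB, Set.mem_ofPred_eq, hTn n x 0, zero_add]
        by_cases h3 : x ∈ B
        · rw [Set.indicator_of_mem h3, map_one, mul_one]
          by_cases h4 : x (n : ℤ) = true
          · rw [Set.indicator_of_mem (h2.mpr h4), Set.indicator_of_mem]
            exact ⟨h3, h4⟩
          · rw [Set.indicator_of_notMem (fun h5 => h4 (h2.mp h5)), Set.indicator_of_notMem]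
            exact fun h5 => h4 h5.2
        · rw [Set.indicator_of_notMem h3, map_zero, mul_zero, Set.indicator_of_notMem]
          exact fun h5 => h3 h5.1
    simp only [h1]
    rw [integral_indicator_const _ (hBn n), Complex.real_smul, mul_one]
  have hB0 : δ ≤ μ.real B := by
    have h2 := hcor 0
    have h3 : {x : ℤ → Bool | x 0 = true ∧ x ((0 : ℕ) : ℤ) = true} = B := by
      ext x
      simp [hB]
    rw [h3] at h2
    rw [h2]
    exact hγ0
  obtain ⟨d, hd1, hd2, hd3⟩ := HG (ℤ → Bool) μ T hT W hW B hBm hB0 σ hspB Z hZm hZ0 hZa m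
  have h4 : {x | x ∈ B ∧ tz T (d : ℤ) x ∈ B ∧ tz T (2 * (d : ℤ)) x ∈ B} =
      {x | x 0 = true ∧ x (d : ℤ) = true ∧ x (2 * (d : ℤ)) = true} := by
    ext x
    have h5 : tz T (2 * (d : ℤ)) x = T^[2 * d] x := by
      rw [← tz_nat]
      push_cast
      rfl
    simp only [hB, Set.mem_ofPred_eq, h5, tz_nat, hTn, zero_add]
    push_cast
    rfl
  rw [h4] at hd3
  obtain ⟨a, ha1, ha2, ha3⟩ := hrec d hd3
  exact ⟨a, d, hd1, hWS d hd2, ha1, ha2, ha3⟩

end Pool.Agent.Sgs
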