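import Pool.Agent.Sgs.ThmB
import Pool.Agent.Sgs.Dec

/-!
# Theorem B+: sets whose spectral measure is nearly singular

`T` ergodic, `1_A = g + h`, `h` mixing of order three, `g` with a spectral measure `σ` which is the sum of a part carried by
a Lebesgue null set `E` (atoms allowed) and a part of mass `σ Eᶜ ≤ a`, where `a = a(ε, M) > 0` is a constant (`∫ |g|² ≤ M`).
Then the bound `μ(A)³ - ε` still holds for some `d` in the random set.

TEXT.  (1) `c(n) > 0`: constant of the trigonometric weights for at most `n` frequencies (module Q1).  (2) Pigeonhole (Q2):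
finite sets `0 ∈ F ⊆ F'` with `|F| ≤ N(ε)`, `σ(F' \ F) ≤ ε²`, all atoms outside `F'` of mass at most `Θ(|F|)`.
(3) `u_κ` = eigenprojections of `g`, `u = ∑_F u_κ`, `g - u = v' + v₂ + v₃`: `v'` = the frequencies of `F' \ F` (`‖v'‖₂ ≤ ε`),
`v₂` = those of `F'' \ F'`, `F''` finite and so large that the other atoms have total mass `≤ ρ'`, `v₃` = the rest.
`v₃`: `tri_small` with `G₁ = E` minus the atoms: `≤ (M² (a + ρ'))^(1/2)`.  `v₂`: only finite sums of eigenfunctions: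
in `E1 = ∫ f v₂(τ d) conj u(τ 2d)`, weighted with `w d = ∑_l b_l e(d l)`, the limit is
`∑_l b_l ∑_{κ' ∈ F} ∫ f u_{2κ'-l} conj u_κ'`, at most `|F| Θ^(1/2)`; in `E2 = ∫ f f(τ d) conj v₂(τ 2d)` it is
`∑_l b_l ∑_{κ ∈ F'' \ F'} ∫ f conj u_κ u_{2κ-l}`, and by ergodicity `|u_κ| = α_κ := σ{κ}^(1/2)` almost everywhere, so
`|∫ f conj u_κ u_λ| ≤ α_κ α_λ α_{κ-λ}` and the sum is at most `Θ^(1/2) ∑_κ α_{2κ-l} α_{l-κ} ≤ (2 Θ)^(1/2)`.
(4) With `Θ(n) = (ε c(n) / (8 (n+2)))²` and `a = min_{n ≤ N} (ε c(n) / (8 M))²` all errors are at most `ε c(|F|)`, and the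
assembly is the one of Theorem B (`asm`).  (5) Ergodic decomposition: `σ = ∫ σ_x dμ(x)`, so a component with
`μ_x(A) ≥ μ(A)/2` and `σ_x(Eᶜ)` small exists (Markov), and Theorem B+ for it.
-/

set_option autoImplicit false

namespace Pool.Agent.Sgs

open MeasureTheory Filter Finset
open scoped Topology ENNReal

/-! ## module Q1: the weights, uniform constants and explicit expansion (adapt `wts`) -/

/-! ## module Q1: the weights, uniform constants and explicit expansion (adapt `wts`) -/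

private def Q1_Rep (w : ℤ → ℂ) (r : ℝ) : Prop :=
  ∃ (L : Finset Cir) (b : Cir → ℝ), (∀ l, 0 ≤ b l) ∧ (∑ l ∈ L, b l ≤ 1) ∧
    (∀ d, w d = ∑ l ∈ L, (b l : ℂ) * fourier d l) ∧ (0 : Cir) ∈ L ∧ r ≤ b 0

private theorem Q1_index {ι : Type} (s : Finset ι) (β : ι → ℝ) (lam : ι → Cir) (w : ℤ → ℂ) (r : ℝ)
    (hβ : ∀ i ∈ s, 0 ≤ β i) (h1 : ∑ i ∈ s, β i ≤ 1)
    (hw : ∀ d, w d = ∑ i ∈ s, (β i : ℂ) * fourier d (lam i)) (i0 : ι) (hi0 : i0 ∈ s)
    (hl0 : lam i0 = 0) (hr : r ≤ β i0) : Q1_Rep w r := by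
  classical
  refine ⟨s.image lam, fun l => ∑ i ∈ s with lam i = l, β i, ?_, ?_, ?_, ?_, ?_⟩
  · intro l
    exact Finset.sum_nonneg fun i hi => hβ i (Finset.mem_filter.mp hi).1
  · rw [Finset.sum_fiberwise_of_maps_to (fun i hi => Finset.mem_image_of_mem lam hi)]
    exact h1
  · intro d
    rw [hw d, ← Finset.sum_fiberwise_of_maps_to (fun i hi => Finset.mem_image_of_mem lam hi)]
    refine Finset.sum_congr rfl fun l _ => ?_
    rw [Complex.ofReal_sum, Finset.sum_mul]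
    refine Finset.sum_congr rfl fun i hi => ?_
    rw [(Finset.mem_filter.mp hi).2]
  · rw [← hl0]
    exact Finset.mem_image_of_mem lam hi0
  · refine hr.trans ?_
    exact Finset.single_le_sum (f := β) (fun i hi => hβ i (Finset.mem_filter.mp hi).1)
      (Finset.mem_filter.mpr ⟨hi0, hl0⟩)

private theorem Q1_fadd (d : ℤ) (x y : Cir) : fourier d (x + y) = fourier d x * fourier d y := by
  rw [fourier_apply, fourier_apply, fourier_apply, zsmul_add, AddCircle.toCircle_add,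
    Circle.coe_mul]

private theorem Q1_mul (w w' : ℤ → ℂ) (r r' : ℝ) (hr : 0 ≤ r) (hr' : 0 ≤ r') (h : Q1_Rep w r)
    (h' : Q1_Rep w' r') : Q1_Rep (fun d => w d * w' d) (r * r') := by
  obtain ⟨L, b, hb, hb1, hw, h0, hb0⟩ := h
  obtain ⟨L', b', hb', hb1', hw', h0', hb0'⟩ := h'
  refine Q1_index (L ×ˢ L') (fun p => b p.1 * b' p.2) (fun p => p.1 + p.2) _ _ ?_ ?_ ?_ (0, 0) ?_ ?_ ?_
  · intro p _
    exact mul_nonneg (hb _) (hb' _)
  · rw [Finset.sum_product]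
    simp only
    rw [← Finset.sum_mul_sum]
    exact mul_le_one₀ hb1 (Finset.sum_nonneg fun _ _ => hb' _) hb1'
  · intro d
    rw [hw, hw', Finset.sum_mul_sum, Finset.sum_product]
    refine Finset.sum_congr rfl fun l _ => Finset.sum_congr rfl fun l' _ => ?_
    simp only
    rw [Q1_fadd, Complex.ofReal_mul]
    ring
  · exact Finset.mem_product.mpr ⟨h0, h0'⟩
  · simp
  · exact mul_le_mul hb0 hb0' hr' (hb _)

private theorem Q1_nsmul (d : ℤ) (k : ℕ) (x : Cir) : fourier d (k • x) = (fourier d x) ^ k := by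
  induction k with
  | zero => simp
  | succ k ih => rw [succ_nsmul, Q1_fadd, ih, pow_succ]

private theorem Q1_neg (d : ℤ) (x : Cir) : fourier d (-x) = (starRingEnd ℂ) (fourier d x) := by
  rw [← fourier_neg, fourier_apply, fourier_apply, smul_neg, neg_smul]

private theorem Q1_conj (d : ℤ) (x : Cir) : fourier d x * (starRingEnd ℂ) (fourier d x) = 1 := by
  rw [← Q1_neg, ← Q1_fadd, add_neg_cancel, fourier_eval_zero]

/-- one factor -/
private theorem Q1_one (K : ℕ) (κ : Cir) :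
    Q1_Rep (fun d => ((((1 + (fourier d κ).re) / 2) ^ K : ℝ) : ℂ)) (1 / (2 * K + 1)) := by
  refine Q1_index (Finset.range (2 * K + 1)) (fun k => ((2 * K).choose k : ℝ) / 4 ^ K)
    (fun k => k • κ + K • (-κ)) _ _ ?_ ?_ ?_ K ?_ ?_ ?_
  · intro k _
    positivity
  · rw [← Finset.sum_div]
    have h1 := Nat.sum_range_choose (2 * K)
    have h2 : ∑ k ∈ Finset.range (2 * K + 1), ((2 * K).choose k : ℝ) = 4 ^ K := by
      have h3 : ((∑ k ∈ Finset.range (2 * K + 1), (2 * K).choose k : ℕ) : ℝ) = ((2 ^ (2 * K) : ℕ) : ℝ) := by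
        rw [h1]
      push_cast at h3
      rw [h3, pow_mul]
      norm_num
    rw [h2]
    exact le_of_eq (div_self (by positivity))
  · intro d
    obtain ⟨z, hz⟩ : ∃ z : ℂ, z = fourier d κ := ⟨_, rfl⟩
    have hzc : z * (starRingEnd ℂ) z = 1 := by rw [hz]; exact Q1_conj d κ
    have h1 : ∀ k : ℕ, fourier d (k • κ + K • (-κ)) = z ^ k * ((starRingEnd ℂ) z) ^ K := by
      intro k
      rw [Q1_fadd, Q1_nsmul, Q1_nsmul, Q1_neg, hz]
    have h2 : ((((1 + (fourier d κ).re) / 2) ^ K : ℝ) : ℂ) =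
        (z + 1) ^ (2 * K) * ((starRingEnd ℂ) z) ^ K / 4 ^ K := by
      have h3 : ((z.re : ℝ) : ℂ) = (z + (starRingEnd ℂ) z) / 2 := by
        rw [Complex.add_conj]
        push_cast
        ring
      rw [← hz, Complex.ofReal_pow, Complex.ofReal_div, Complex.ofReal_add, Complex.ofReal_one,
        Complex.ofReal_ofNat, h3, pow_mul, ← mul_pow, ← div_pow]
      congr 1
      have h4 : (z + 1) ^ 2 * (starRingEnd ℂ) z = z + 2 + (starRingEnd ℂ) z := by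
        have : (z + 1) ^ 2 * (starRingEnd ℂ) z =
            z * (z * (starRingEnd ℂ) z) + 2 * (z * (starRingEnd ℂ) z) + (starRingEnd ℂ) z := by ring
        rw [this, hzc]
        ring
      rw [h4]
      ring
    rw [h2, add_pow, Finset.sum_mul, Finset.sum_div]
    refine Finset.sum_congr rfl fun k _ => ?_
    rw [h1, one_pow]
    push_cast
    ring
  · simp only [Finset.mem_range]
    omega
  · simp
  · have h1 := Nat.four_pow_le_two_mul_add_one_mul_central_binom K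
    have h2 : ((4 ^ K : ℕ) : ℝ) ≤ (((2 * K + 1) * (2 * K).choose K : ℕ) : ℝ) := by exact_mod_cast h1
    push_cast at h2
    rw [div_le_div_iff₀ (by positivity) (by positivity)]
    linarith

private theorem Q1_prod (K : ℕ) (F : Finset Cir) :
    Q1_Rep (fun d => ((∏ κ ∈ F, ((1 + (fourier d κ).re) / 2) ^ K : ℝ) : ℂ))
      ((1 / (2 * K + 1)) ^ F.card) := by
  classical
  induction F using Finset.induction_on with
  | empty =>
    refine Q1_index {()} (fun _ => 1) (fun _ => 0) _ _ ?_ ?_ ?_ () ?_ ?_ ?_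
    · intro _ _
      exact zero_le_one
    · simp
    · intro d
      simp
    · simp
    · rfl
    · simp
  | insert κ F hκ ih =>
    have h1 := Q1_mul _ _ _ _ (by positivity) (by positivity) (Q1_one K κ) ih
    have h2 : (fun d : ℤ => ((∏ κ ∈ insert κ F, ((1 + (fourier d κ).re) / 2) ^ K : ℝ) : ℂ)) =
        fun d : ℤ => ((((1 + (fourier d κ).re) / 2) ^ K : ℝ) : ℂ) *
          ((∏ κ ∈ F, ((1 + (fourier d κ).re) / 2) ^ K : ℝ) : ℂ) := by
      funext d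
      rw [Finset.prod_insert hκ, Complex.ofReal_mul]
    rw [h2, Finset.card_insert_of_notMem hκ, pow_succ']
    exact h1

private theorem Q1_re (d : ℤ) (κ : Cir) : |(fourier d κ).re| ≤ 1 := by
  refine (Complex.abs_re_le_norm _).trans (le_of_eq ?_)
  rw [fourier_apply, Circle.norm_coe]

private theorem Q1_far (η : ℝ) (hη : 0 < η) (d : ℤ) (κ : Cir) (h : η ≤ ‖d • κ‖) :
    (1 + (fourier d κ).re) / 2 ≤ 1 - 4 * η ^ 2 := by
  obtain ⟨x, rfl⟩ : ∃ x : ℝ, (x : Cir) = κ := QuotientAddGroup.mk_surjective κ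
  have h1 : d • (x : Cir) = (((d : ℝ) * x : ℝ) : Cir) := by
    rw [← AddCircle.coe_zsmul, zsmul_eq_mul]
  rw [h1, AddCircle.norm_eq, inv_one, one_mul, mul_one] at h
  obtain ⟨t, ht⟩ : ∃ t : ℝ, t = (d : ℝ) * x - round ((d : ℝ) * x) := ⟨_, rfl⟩
  rw [← ht] at h
  have ht2 : |t| ≤ 1 / 2 := by rw [ht]; exact abs_sub_round _
  have h2 : (fourier d (x : Cir)).re = Real.cos (2 * Real.pi * t) := by
    have h3 : (2 * (Real.pi : ℂ) * Complex.I * d * x / ((1 : ℝ) : ℂ)) =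
        ((2 * Real.pi * t + (round ((d : ℝ) * x) : ℤ) * (2 * Real.pi) : ℝ) : ℂ) * Complex.I := by
      rw [ht]
      push_cast
      ring
    rw [fourier_coe_apply, h3, Complex.exp_ofReal_mul_I_re, Real.cos_add_int_mul_two_pi]
  rw [h2]
  have h4 : |2 * Real.pi * t| ≤ Real.pi := by
    rw [abs_mul, abs_of_pos (by positivity)]
    nlinarith [Real.pi_pos]
  have h5 := Real.cos_le_one_sub_mul_cos_sq h4
  have h6 : 2 / Real.pi ^ 2 * (2 * Real.pi * t) ^ 2 = 8 * t ^ 2 := by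
    field_simp
    ring
  rw [h6] at h5
  have h7 : η ^ 2 ≤ t ^ 2 := by
    rw [← sq_abs t]
    exact pow_le_pow_left₀ hη.le h 2
  linarith

private theorem Q1_K (n : ℕ) (q δ : ℝ) (hq0 : 0 ≤ q) (hq1 : q < 1) (hδ : 0 < δ) :
    ∃ K : ℕ, q ^ K ≤ δ * (1 / (2 * (K : ℝ) + 1)) ^ n := by
  have h1 := tendsto_pow_const_mul_const_pow_of_abs_lt_one n (r := q) (by rw [abs_of_nonneg hq0]; exact hq1)
  have h2 : (0 : ℝ) < δ / 3 ^ n := by positivity
  obtain ⟨K, hK1, hK⟩ := ((eventually_ge_atTop 1).and (h1.eventually (gt_mem_nhds h2))).exists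
  refine ⟨K, ?_⟩
  have hK1' : (1 : ℝ) ≤ K := by exact_mod_cast hK1
  have h3 : (2 * (K : ℝ) + 1) ^ n ≤ (3 * K) ^ n := pow_le_pow_left₀ (by positivity) (by linarith) n
  rw [one_div, inv_pow, ← div_eq_mul_inv, le_div_iff₀ (by positivity)]
  calc q ^ K * (2 * (K : ℝ) + 1) ^ n ≤ q ^ K * (3 * K) ^ n :=
        mul_le_mul_of_nonneg_left h3 (by positivity)
    _ = 3 ^ n * ((K : ℝ) ^ n * q ^ K) := by rw [mul_pow]; ring
    _ ≤ 3 ^ n * (δ / 3 ^ n) := mul_le_mul_of_nonneg_left hK.le (by positivity)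
    _ = δ := by field_simp

theorem wtsp (n : ℕ) (η ε : ℝ) (hη : 0 < η) (hε : 0 < ε) :
    ∃ c : ℝ, 0 < c ∧ ∀ F : Finset Cir, F.card ≤ n →
      ∃ (L : Finset Cir) (b : Cir → ℝ) (w : ℤ → ℝ), (∀ l, 0 ≤ b l) ∧ (∑ l ∈ L, b l ≤ 1) ∧
        (∀ d, (w d : ℂ) = ∑ l ∈ L, (b l : ℂ) * fourier d l) ∧ (∀ d, 0 ≤ w d ∧ w d ≤ 1) ∧
        (∀ d : ℤ, (∃ κ ∈ F, η ≤ ‖d • κ‖) → w d ≤ ε * c) ∧
        ∀ W : ℕ → ℝ, GW W → ∀ᶠ j : ℕ in atTop, c ≤ R2 W j w := by
  have hq1 : max (1 - 4 * η ^ 2) 0 < 1 := max_lt (by nlinarith [sq_nonneg η, mul_pos hη hη]) one_pos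
  obtain ⟨K, hK⟩ := Q1_K n (max (1 - 4 * η ^ 2) 0) (ε / 2) (le_max_right _ _) hq1 (by positivity)
  have hr0 : (0 : ℝ) < 1 / (2 * (K : ℝ) + 1) := by positivity
  have hr1 : 1 / (2 * (K : ℝ) + 1) ≤ 1 := by
    rw [div_le_one (by positivity)]
    linarith [Nat.cast_nonneg (α := ℝ) K]
  refine ⟨(1 / 2) * (1 / (2 * (K : ℝ) + 1)) ^ n, by positivity, ?_⟩
  intro F hF
  obtain ⟨L, b, hb, hb1, hw, h0, hb0⟩ := Q1_prod K F
  have hfac : ∀ (d : ℤ) (κ : Cir), 0 ≤ (1 + (fourier d κ).re) / 2 ∧ (1 + (fourier d κ).re) / 2 ≤ 1 := by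
    intro d κ
    have := abs_le.mp (Q1_re d κ)
    constructor <;> linarith
  refine ⟨L, b, fun d => ∏ κ ∈ F, ((1 + (fourier d κ).re) / 2) ^ K, hb, hb1, hw, ?_, ?_, ?_⟩
  · intro d
    exact ⟨Finset.prod_nonneg fun κ _ => pow_nonneg (hfac d κ).1 _,
      Finset.prod_le_one (fun κ _ => pow_nonneg (hfac d κ).1 _)
        (fun κ _ => pow_le_one₀ (hfac d κ).1 (hfac d κ).2)⟩
  · rintro d ⟨κ, hκ, hκd⟩
    classical
    have h1 : ∏ κ ∈ F, ((1 + (fourier d κ).re) / 2) ^ K ≤ ((1 + (fourier d κ).re) / 2) ^ K := by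
      rw [← Finset.mul_prod_erase F _ hκ]
      exact mul_le_of_le_one_right (pow_nonneg (hfac d κ).1 _)
        (Finset.prod_le_one (fun κ _ => pow_nonneg (hfac d κ).1 _)
          (fun κ _ => pow_le_one₀ (hfac d κ).1 (hfac d κ).2))
    have h2 : ((1 + (fourier d κ).re) / 2) ^ K ≤ (max (1 - 4 * η ^ 2) 0) ^ K :=
      pow_le_pow_left₀ (hfac d κ).1 ((Q1_far η hη d κ hκd).trans (le_max_left _ _)) K
    calc ∏ κ ∈ F, ((1 + (fourier d κ).re) / 2) ^ K ≤ _ := h1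
      _ ≤ _ := h2
      _ ≤ _ := hK
      _ = ε * ((1 / 2) * (1 / (2 * (K : ℝ) + 1)) ^ n) := by ring
  · intro W hW
    have h1 : Tendsto (fun j : ℕ => E2 W j (fun d => ((∏ κ ∈ F, ((1 + (fourier d κ).re) / 2) ^ K : ℝ) : ℂ)))
        atTop (𝓝 (b 0 : ℂ)) := by
      have h2 : ∀ j : ℕ, E2 W j (fun d => ((∏ κ ∈ F, ((1 + (fourier d κ).re) / 2) ^ K : ℝ) : ℂ)) =
          ∑ l ∈ L, (b l : ℂ) * E2 W j (fun d => fourier d l) := by
        intro j
        have h3 : (fun d : ℤ => ((∏ κ ∈ F, ((1 + (fourier d κ).re) / 2) ^ K : ℝ) : ℂ)) =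
            fun d : ℤ => ∑ l ∈ L, (b l : ℂ) * fourier d l := funext hw
        rw [h3, E2_sum]
        exact Finset.sum_congr rfl fun l _ => E2_smul W j _ _
      simp only [h2]
      have h4 : (b 0 : ℂ) = ∑ l ∈ L, (b l : ℂ) * (if l = 0 then 1 else 0) := by
        simp [h0]
      rw [h4]
      exact tendsto_finsetSum _ fun l _ => (freq W hW l).const_mul _
    have h5 : Tendsto (fun j : ℕ => R2 W j (fun d => ∏ κ ∈ F, ((1 + (fourier d κ).re) / 2) ^ K))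
        atTop (𝓝 (b 0)) := by
      have h6 := (Complex.continuous_re.tendsto _).comp h1
      rw [Complex.ofReal_re] at h6
      refine h6.congr fun j => ?_
      rw [Function.comp_apply, E2_ofReal, Complex.ofReal_re]
    have h7 : (1 / (2 * (K : ℝ) + 1)) ^ n ≤ (1 / (2 * (K : ℝ) + 1)) ^ F.card :=
      pow_le_pow_of_le_one hr0.le hr1 hF
    have h8 : 0 < (1 / (2 * (K : ℝ) + 1)) ^ n := pow_pos hr0 n
    exact (h5.eventually (lt_mem_nhds (show (1 / 2) * (1 / (2 * (K : ℝ) + 1)) ^ n < b 0 by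
      linarith))).mono fun j hj => hj.le

/-! ## module Q2: pigeonhole -/

private theorem Q2_fin (s : Cir → ℝ) (hs : ∀ F : Finset Cir, ∑ κ ∈ F, s κ ≤ 1) (θ : ℝ) (hθ : 0 < θ) :
    ∃ H : Finset Cir, H.card ≤ ⌊1 / θ⌋₊ ∧ ∀ κ, κ ∈ H ↔ θ < s κ := by
  have hcard : ∀ F : Finset Cir, (∀ κ ∈ F, θ < s κ) → F.card ≤ ⌊1 / θ⌋₊ := by
    intro F hF
    apply Nat.le_floor
    rw [le_div_iff₀ hθ]
    calc (F.card : ℝ) * θ = ∑ κ ∈ F, θ := by simp
      _ ≤ ∑ κ ∈ F, s κ := Finset.sum_le_sum fun κ hκ => (hF κ hκ).le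
      _ ≤ 1 := hs F
  have hfin : {κ | θ < s κ}.Finite := by
    by_contra h
    obtain ⟨F, hF, hc⟩ := Set.Infinite.exists_subset_card_eq h (⌊1 / θ⌋₊ + 1)
    have := hcard F (fun κ hκ => hF hκ)
    omega
  exact ⟨hfin.toFinset, hcard _ (fun κ hκ => by simpa using hκ), fun κ => by simp⟩

private theorem Q2_step (Θ : ℕ → ℝ) (hΘ : ∀ n, 0 < Θ n) (ε : ℝ) (k : ℕ) :
    ∃ N : ℕ, ∀ s : Cir → ℝ, (∀ κ, 0 ≤ s κ) → (∀ F : Finset Cir, ∑ κ ∈ F, s κ ≤ 1) →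
      (∃ F F' : Finset Cir, (0 : Cir) ∈ F ∧ F ⊆ F' ∧ F.card ≤ N ∧
        (∑ κ ∈ F' \ F, s κ ≤ ε) ∧ ∀ κ, κ ∉ F' → s κ ≤ Θ F.card) ∨
      ∃ G : Finset Cir, (0 : Cir) ∈ G ∧ G.card ≤ N ∧ (k : ℝ) * ε ≤ ∑ κ ∈ G, s κ := by
  classical
  induction k with
  | zero =>
    refine ⟨1, fun s h0 _ => Or.inr ⟨{0}, by simp, by simp, ?_⟩⟩
    simpa using h0 0
  | succ k ih =>
    obtain ⟨N, hN⟩ := ih
    obtain ⟨θ, hθ, hθ2⟩ : ∃ θ : ℝ, 0 < θ ∧ ∀ n ≤ N, θ ≤ Θ n := by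
      refine ⟨(Finset.range (N + 1)).inf' ⟨0, by simp⟩ Θ, ?_, fun n hn => ?_⟩
      · rw [Finset.lt_inf'_iff]
        exact fun n _ => hΘ n
      · exact Finset.inf'_le _ (by simpa [Nat.lt_succ_iff] using hn)
    refine ⟨N + ⌊1 / θ⌋₊, fun s h0 hs => ?_⟩
    rcases hN s h0 hs with ⟨F, F', h1, h2, h3, h4⟩ | ⟨G, h1, h2, h3⟩
    · exact Or.inl ⟨F, F', h1, h2, h3.trans (Nat.le_add_right _ _), h4⟩
    · obtain ⟨H, hH, hH2⟩ := Q2_fin s hs θ hθ
      by_cases hc : ∑ κ ∈ (G ∪ H) \ G, s κ ≤ ε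
      · refine Or.inl ⟨G, G ∪ H, h1, Finset.subset_union_left, h2.trans (Nat.le_add_right _ _), hc, fun κ hκ => ?_⟩
        rw [Finset.mem_union, not_or, hH2, not_lt] at hκ
        exact hκ.2.trans (hθ2 _ h2)
      · refine Or.inr ⟨G ∪ H, Finset.mem_union_left _ h1, ?_, ?_⟩
        · exact (Finset.card_union_le _ _).trans (Nat.add_le_add h2 hH)
        · rw [← Finset.sum_sdiff (Finset.subset_union_left : G ⊆ G ∪ H)]
          push Not at hc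
          push_cast
          linarith

/-- `θ_0 = 1`, `F_k = {0} ∪ {κ | θ_k < σ {κ}}` has at most `1 + 1/θ_k` elements, `θ_{k+1} = min Θ(n)` over
`n ≤ 2 + 1/θ_k`; one of the sets `F_{k+1} \ F_k`, `k ≤ 1 + 1/ε`, has mass at most `ε`. -/
theorem pigeon (Θ : ℕ → ℝ) (hΘ : ∀ n, 0 < Θ n) (ε : ℝ) (hε : 0 < ε) :
    ∃ N : ℕ, ∀ σ : Measure Cir, IsFiniteMeasure σ → (∀ F : Finset Cir, ∑ κ ∈ F, (σ {κ}).toReal ≤ 1) →
      ∃ F F' : Finset Cir, (0 : Cir) ∈ F ∧ F ⊆ F' ∧ F.card ≤ N ∧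
        (∑ κ ∈ F' \ F, (σ {κ}).toReal ≤ ε) ∧ ∀ κ, κ ∉ F' → (σ {κ}).toReal ≤ Θ F.card := by
  obtain ⟨k, hk⟩ := exists_nat_gt (1 / ε)
  obtain ⟨N, hN⟩ := Q2_step Θ hΘ ε k
  refine ⟨N, fun σ _ hσ => ?_⟩
  rcases hN (fun κ => (σ {κ}).toReal) (fun _ => ENNReal.toReal_nonneg) hσ with h | ⟨G, _, _, h3⟩
  · exact h
  · exfalso
    rw [div_lt_iff₀ hε] at hk
    have := hσ G
    linarith

/-! ## module Q3: eigenfunctions of an ergodic system -/

private theorem Q3_isq {X : Type} [MeasurableSpace X] (μ : Measure X) [IsFiniteMeasure μ] (K : X → ℂ) (hK : Bd K) :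
    Integrable (fun x => ‖K x‖ ^ 2) μ := by
  obtain ⟨m, A, hA⟩ := hK
  refine Integrable.of_bound (m.norm.pow_const 2).aestronglyMeasurable (A ^ 2) (ae_of_all _ fun x => ?_)
  rw [Real.norm_eq_abs, abs_of_nonneg (by positivity)]
  exact pow_le_pow_left₀ (norm_nonneg _) (hA x) 2

/-- an invariant bounded function is constant -/
theorem erg_const {X : Type} [MeasurableSpace X] (μ : Measure X) [IsProbabilityMeasure μ] (τ : ℤ → X → X)
    (hτ : Sys μ τ) (he : Erg μ τ) (F : X → ℂ) (hF : Bd F) (hi : ∀ n : ℤ, ∀ᵐ x ∂μ, F (τ n x) = F x) :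
    ∀ᵐ x ∂μ, F x = ∫ y, F y ∂μ := by
  set c : ℂ := ∫ y, F y ∂μ with hc
  set D : X → ℂ := fun x => F x - c with hD
  have hDb : Bd D := B11_sub _ _ hF (S3_bd_const c)
  have hD0 : ∫ x, D x ∂μ = 0 := by
    rw [hD, integral_sub (S3_int μ _ hF) (S3_int μ _ (S3_bd_const c)), integral_const]
    simp [hc]
  have h1 := he (fun x => (starRingEnd ℂ) (D x)) D (B11_conj _ hDb) hDb
  rw [hD0, mul_zero] at h1
  have h2 : ∀ d : ℕ, ∫ x, (starRingEnd ℂ) (D x) * D (τ (d : ℤ) x) ∂μ = ((∫ x, ‖D x‖ ^ 2 ∂μ : ℝ) : ℂ) := by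
    intro d
    rw [← integral_complex_ofReal]
    refine integral_congr_ae ?_
    filter_upwards [hi d] with x hx
    have : D (τ (d : ℤ) x) = D x := by simp only [hD, hx]
    rw [this, ← Complex.normSq_eq_conj_mul_self, Complex.normSq_eq_norm_sq]
  have h3 : Tendsto (fun N : ℕ => (∑ d ∈ range N, ∫ x, (starRingEnd ℂ) (D x) * D (τ (d : ℤ) x) ∂μ) / (N : ℂ)) atTop
      (𝓝 ((∫ x, ‖D x‖ ^ 2 ∂μ : ℝ) : ℂ)) := by
    refine tendsto_const_nhds.congr' ?_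
    filter_upwards [eventually_ge_atTop 1] with N hN
    have hN' : (N : ℂ) ≠ 0 := by exact_mod_cast (by omega : N ≠ 0)
    rw [Finset.sum_congr rfl fun d _ => h2 d, Finset.sum_const, Finset.card_range, nsmul_eq_mul]
    field_simp
  have h4 := tendsto_nhds_unique h3 h1
  have h5 : ∫ x, ‖D x‖ ^ 2 ∂μ = 0 := by exact_mod_cast h4
  rw [integral_eq_zero_iff_of_nonneg (fun x => by positivity) (Q3_isq μ D hDb)] at h5
  filter_upwards [h5] with x hx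
  have : ‖D x‖ ^ 2 = 0 := hx
  have : D x = 0 := by simpa using this
  exact sub_eq_zero.mp this

/-- `|u κ|² = σ {κ}` -/
theorem eig_mod {X : Type} [MeasurableSpace X] (μ : Measure X) [IsProbabilityMeasure μ] (τ : ℤ → X → X)
    (hτ : Sys μ τ) (he : Erg μ τ) (g : X → ℂ) (hg : Bd g) (σ : Measure Cir) (u : Cir → X → ℂ)
    (hu : Eig μ τ g σ u) (κ : Cir) : ∀ᵐ x ∂μ, ‖u κ x‖ ^ 2 = (σ {κ}).toReal := by
  have hb : Bd (fun x => ((‖u κ x‖ ^ 2 : ℝ) : ℂ)) := by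
    obtain ⟨m, A, hA⟩ := hu.bd κ
    refine ⟨Complex.measurable_ofReal.comp (m.norm.pow_const 2), A ^ 2, fun x => ?_⟩
    rw [Complex.norm_real, Real.norm_eq_abs, abs_of_nonneg (by positivity)]
    exact pow_le_pow_left₀ (norm_nonneg _) (hA x) 2
  have h1 := erg_const μ τ hτ he (fun x => ((‖u κ x‖ ^ 2 : ℝ) : ℂ)) hb (fun n => by
    filter_upwards [hu.eq κ n] with x hx
    rw [hx, norm_mul, fourier_apply, Circle.norm_coe, one_mul])
  filter_upwards [h1] with x hx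
  rw [integral_complex_ofReal, hu.nm κ] at hx
  exact_mod_cast hx

private theorem Q3_four (n : ℤ) (a b : Cir) : (fourier n (a + b) : ℂ) = fourier n a * fourier n b := by
  simp only [fourier_apply, smul_add, AddCircle.toCircle_add, Circle.coe_mul]

private theorem Q3_four_neg (n : ℤ) (a : Cir) : (fourier n (-a) : ℂ) = (starRingEnd ℂ) (fourier n a) := by
  rw [← fourier_neg, fourier_apply, fourier_apply, smul_neg, neg_smul]

private theorem Q3_one (n : ℤ) (a : Cir) : (fourier n (-a) : ℂ) * fourier n a = 1 := by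
  rw [← Q3_four, neg_add_cancel, fourier_eval_zero]

/-- `h` mixing is orthogonal to eigenfunctions -/
private theorem Q3_mix {X : Type} [MeasurableSpace X] (μ : Measure X) [IsProbabilityMeasure μ] (τ : ℤ → X → X)
    (hτ : Sys μ τ) (h : X → ℂ) (hh : Bd h) (hm : Mx3 μ τ h) (φ : X → ℂ) (hφ : Bd φ) (t : Cir)
    (he : ∀ n : ℤ, ∀ᵐ x ∂μ, φ (τ n x) = fourier n t * φ x) : ∫ x, h x * φ x ∂μ = 0 := by
  have h1 := hm 1 0 2 (by norm_num) (by norm_num) (by norm_num) φ (fun _ => 1) hφ (S3_bd_const 1)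
  have h2 : ∀ d : ℕ, ‖∫ x, h (τ (1 * (d : ℤ)) x) * φ (τ (0 * (d : ℤ)) x) * 1 ∂μ‖ = ‖∫ x, h x * φ x ∂μ‖ := by
    intro d
    rw [← S3_cv μ τ hτ (d : ℤ) (fun x => h x * φ x) (S3_bd_mul _ _ hh hφ).1]
    have e : ∫ x, h (τ (d : ℤ) x) * φ (τ (d : ℤ) x) ∂μ
        = fourier (d : ℤ) t * ∫ x, h (τ (1 * (d : ℤ)) x) * φ (τ (0 * (d : ℤ)) x) * 1 ∂μ := by
      rw [← integral_const_mul]
      refine integral_congr_ae ?_
      filter_upwards [he d] with x hx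
      rw [hx, one_mul, zero_mul, hτ.zero]
      ring
    have h4 : ‖(fourier (d : ℤ) t : ℂ)‖ = 1 := by rw [fourier_apply]; exact Circle.norm_coe _
    rw [e, norm_mul, h4]
    exact (one_mul _).symm
  have h3 := h1.norm
  simp only [h2, norm_zero] at h3
  exact norm_eq_zero.mp (tendsto_nhds_unique tendsto_const_nhds h3)

/-- a bounded eigenfunction of frequency `-ρ` against `f = g + h`: `‖∫ f φ‖ ≤ σ{ρ}^(1/2) ‖φ‖₂`
(`h` is orthogonal to eigenfunctions; `g - u ρ` has a spectral measure without mass at `ρ`) -/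
theorem eig_pair {X : Type} [MeasurableSpace X] (μ : Measure X) [IsProbabilityMeasure μ] (τ : ℤ → X → X)
    (hτ : Sys μ τ) (W : ℕ → ℝ) (hW : GW W) (f g h : X → ℂ) (hf0 : Bd f) (hg : Bd g) (hh : Bd h)
    (hf : ∀ᵐ x ∂μ, f x = g x + h x) (hm : Mx3 μ τ h)
    (σ : Measure Cir) (hσ : Sp μ τ g σ) (u : Cir → X → ℂ) (hu : Eig μ τ g σ u) (φ : X → ℂ) (hφ : Bd φ) (ρ : Cir)
    (he : ∀ n : ℤ, ∀ᵐ x ∂μ, φ (τ n x) = fourier n (-ρ) * φ x) :
    ‖∫ x, f x * φ x ∂μ‖ ≤ Real.sqrt ((σ {ρ}).toReal) * Real.sqrt (∫ x, ‖φ x‖ ^ 2 ∂μ) := by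
  have e1 : ∫ x, f x * φ x ∂μ = ∫ x, φ x * g x ∂μ := by
    have e2 : ∫ x, f x * φ x ∂μ = ∫ x, (φ x * g x + h x * φ x) ∂μ := by
      refine integral_congr_ae ?_
      filter_upwards [hf] with x hx
      rw [hx]; ring
    rw [e2, integral_add (S3_int μ _ (S3_bd_mul _ _ hφ hg)) (S3_int μ _ (S3_bd_mul _ _ hh hφ)),
      Q3_mix μ τ hτ h hh hm φ hφ (-ρ) he, add_zero]
  rw [e1]
  set z : ℂ := ∫ x, φ x * g x ∂μ with hz
  -- the twisted correlations are constant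
  have e3 : ∀ d : ℤ, (fourier d (-ρ) : ℂ) * ∫ x, φ x * g (τ (1 * d) x) ∂μ = z := by
    intro d
    rw [hz, ← S3_cv μ τ hτ d (fun x => φ x * g x) (S3_bd_mul _ _ hφ hg).1, ← integral_const_mul]
    refine integral_congr_ae ?_
    filter_upwards [he d] with x hx
    rw [hx, one_mul]
    ring
  have hI : 0 ≤ ∫ x, ‖φ x‖ ^ 2 ∂μ := integral_nonneg fun x => by positivity
  have hmass := mass W hW
  have hset : {t : Cir | (1 : ℤ) • t + -ρ = 0} = {ρ} := by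
    ext t
    simp only [one_smul, Set.mem_singleton_iff, Set.mem_ofPred_eq, ← sub_eq_add_neg, sub_eq_zero]
  have key : ∀ ε : ℝ, 0 < ε → ‖z‖ ^ 2 ≤ (∫ x, ‖φ x‖ ^ 2 ∂μ) * ((σ {ρ}).toReal + ε) := by
    intro ε hε
    have h1 := freq_pair μ τ hτ W hW g hg σ hσ 1 (-ρ) ε hε
    have h2 : ∀ j, E2 W j (fun d => fourier d (-ρ) * ∫ x, φ x * g (τ (1 * d) x) ∂μ)
        = z * ((R2 W j (fun _ => 1) : ℝ) : ℂ) := by
      intro j
      rw [← E2_ofReal, ← E2_smul]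
      congr 1
      funext d
      rw [e3 d]
      simp
    have h3 : Tendsto (fun j : ℕ => ‖z * ((R2 W j (fun _ => 1) : ℝ) : ℂ)‖ ^ 2) atTop (𝓝 (‖z * ((1 : ℝ) : ℂ)‖ ^ 2)) :=
      ((((Complex.continuous_ofReal.tendsto 1).comp hmass).const_mul z).norm).pow 2
    have h4 : ‖z * ((1 : ℝ) : ℂ)‖ ^ 2 ≤ (∫ x, ‖φ x‖ ^ 2 ∂μ) * ((σ {ρ}).toReal + ε) := by
      refine le_of_tendsto h3 ?_
      filter_upwards [h1] with j hj
      have := hj φ hφ
      rw [h2 j, hset] at this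
      exact this
    simpa using h4
  have key2 : ‖z‖ ^ 2 ≤ (σ {ρ}).toReal * ∫ x, ‖φ x‖ ^ 2 ∂μ := by
    have h5 : Tendsto (fun ε : ℝ => (∫ x, ‖φ x‖ ^ 2 ∂μ) * ((σ {ρ}).toReal + ε)) (𝓝[>] 0)
        (𝓝 ((∫ x, ‖φ x‖ ^ 2 ∂μ) * ((σ {ρ}).toReal + 0))) :=
      ((tendsto_const_nhds.add tendsto_id).const_mul _).mono_left nhdsWithin_le_nhds
    have h6 := ge_of_tendsto h5 (by filter_upwards [self_mem_nhdsWithin] with ε hε using key ε hε)
    rw [add_zero, mul_comm] at h6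
    exact h6
  rw [← Real.sqrt_mul ENNReal.toReal_nonneg]
  exact Real.le_sqrt_of_sq_le key2

/-- `|∫ f conj u_κ u_l| ≤ α_κ α_l α_(κ-l)` -/
theorem eig_triple {X : Type} [MeasurableSpace X] (μ : Measure X) [IsProbabilityMeasure μ] (τ : ℤ → X → X)
    (hτ : Sys μ τ) (he : Erg μ τ) (W : ℕ → ℝ) (hW : GW W) (f g h : X → ℂ) (hf0 : Bd f) (hg : Bd g) (hh : Bd h)
    (hf : ∀ᵐ x ∂μ, f x = g x + h x) (hm : Mx3 μ τ h)
    (σ : Measure Cir) (hσ : Sp μ τ g σ) (u : Cir → X → ℂ) (hu : Eig μ τ g σ u) (κ l : Cir) :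
    ‖∫ x, f x * ((starRingEnd ℂ) (u κ x) * u l x) ∂μ‖
      ≤ Real.sqrt ((σ {κ}).toReal) * Real.sqrt ((σ {l}).toReal) * Real.sqrt ((σ {κ - l}).toReal) := by
  have hφ : Bd (fun x => (starRingEnd ℂ) (u κ x) * u l x) := S3_bd_mul _ _ (B11_conj _ (hu.bd κ)) (hu.bd l)
  have h1 := eig_pair μ τ hτ W hW f g h hf0 hg hh hf hm σ hσ u hu (fun x => (starRingEnd ℂ) (u κ x) * u l x) hφ (κ - l)
    (fun n => by
      filter_upwards [hu.eq κ n, hu.eq l n] with x hx hy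
      rw [hx, hy, map_mul, neg_sub, sub_eq_add_neg, Q3_four, Q3_four_neg]
      ring)
  refine h1.trans (le_of_eq ?_)
  have h2 : ∫ x, ‖(starRingEnd ℂ) (u κ x) * u l x‖ ^ 2 ∂μ = (σ {κ}).toReal * (σ {l}).toReal := by
    have : ∫ x, ‖(starRingEnd ℂ) (u κ x) * u l x‖ ^ 2 ∂μ = ∫ _x : X, (σ {κ}).toReal * (σ {l}).toReal ∂μ := by
      refine integral_congr_ae ?_
      filter_upwards [eig_mod μ τ hτ he g hg σ u hu κ, eig_mod μ τ hτ he g hg σ u hu l] with x hx hy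
      rw [norm_mul, mul_pow, RCLike.norm_conj, hx, hy]
    rw [this]
    simp
  rw [h2, Real.sqrt_mul ENNReal.toReal_nonneg]
  ring

/-! ## module Q4: small atoms in the first error term -/

private theorem Q4_cs {X : Type} [MeasurableSpace X] (μ : Measure X) [IsFiniteMeasure μ] (K H : X → ℂ)
    (hK : Bd K) (hH : Bd H) (a b : ℝ) (ha : ∫ x, ‖K x‖ ^ 2 ∂μ ≤ a) (hb : ∫ x, ‖H x‖ ^ 2 ∂μ ≤ b) (hb1 : b ≤ 1) :
    ‖∫ x, K x * H x ∂μ‖ ≤ Real.sqrt a := by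
  have i1 := Q3_isq μ K hK
  have i2 := Q3_isq μ H hH
  have i3 : Integrable (fun x => ‖K x‖ * ‖H x‖) μ := by
    have := (S3_int μ _ (S3_bd_mul _ _ hK hH)).norm
    refine this.congr (ae_of_all _ fun x => ?_)
    exact norm_mul _ _
  have h1 : ‖∫ x, K x * H x ∂μ‖ ≤ ∫ x, ‖K x‖ * ‖H x‖ ∂μ := by
    refine (norm_integral_le_integral_norm _).trans (le_of_eq ?_)
    congr 1
    funext x
    rw [norm_mul]
  refine h1.trans ?_
  set R : ℝ := ∫ x, ‖K x‖ * ‖H x‖ ∂μ with hR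
  have h3 : ∀ l : ℝ, 0 ≤ (l * l) * a + (2 * l) * R + 1 := by
    intro l
    have h3 : 0 ≤ ∫ x, (l * ‖K x‖ + ‖H x‖) ^ 2 ∂μ := integral_nonneg fun x => sq_nonneg _
    have e : ∫ x, (l * ‖K x‖ + ‖H x‖) ^ 2 ∂μ
        = (l * l) * (∫ x, ‖K x‖ ^ 2 ∂μ) + (2 * l) * R + ∫ x, ‖H x‖ ^ 2 ∂μ := by
      have i4 : Integrable (fun x => (l * l) * ‖K x‖ ^ 2 + (2 * l) * (‖K x‖ * ‖H x‖)) μ :=
        (i1.const_mul _).add (i3.const_mul _)
      rw [hR, ← integral_const_mul, ← integral_const_mul, ← integral_add (i1.const_mul _) (i3.const_mul _),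
        ← integral_add i4 i2]
      congr 1
      funext x
      ring
    have h4 : (l * l) * (∫ x, ‖K x‖ ^ 2 ∂μ) ≤ (l * l) * a := mul_le_mul_of_nonneg_left ha (mul_self_nonneg l)
    rw [e] at h3
    linarith
  apply Real.le_sqrt_of_sq_le
  have h5 := discrim_le_zero (a := a) (b := 2 * R) (c := 1) (fun l => by have := h3 l; linarith)
  unfold discrim at h5
  nlinarith

private theorem Q4_exp {X : Type} [MeasurableSpace X] (μ : Measure X) [IsProbabilityMeasure μ] (τ : ℤ → X → X)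
    (f g : X → ℂ) (hf : Bd f) (σ : Measure Cir) (u : Cir → X → ℂ)
    (hu : Eig μ τ g σ u) (F D : Finset Cir) (d : ℤ) :
    ∫ x, f x * (∑ κ ∈ D, u κ (τ d x)) * (starRingEnd ℂ) (∑ κ ∈ F, u κ (τ (2 * d) x)) ∂μ
      = ∑ κ' ∈ F, ∑ κ ∈ D, fourier d (κ + -(κ' + κ')) * ∫ x, (f x * u κ x) * (starRingEnd ℂ) (u κ' x) ∂μ := by
  have hall : ∀ᵐ x ∂μ, (∀ κ ∈ D, u κ (τ d x) = fourier d κ * u κ x) ∧
      (∀ κ ∈ F, u κ (τ (2 * d) x) = fourier (2 * d) κ * u κ x) := by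
    refine Filter.Eventually.and ?_ ?_
    · exact (Finset.eventually_all D).mpr fun κ _ => hu.eq κ d
    · exact (Finset.eventually_all F).mpr fun κ _ => hu.eq κ (2 * d)
  have e : ∫ x, f x * (∑ κ ∈ D, u κ (τ d x)) * (starRingEnd ℂ) (∑ κ ∈ F, u κ (τ (2 * d) x)) ∂μ
      = ∫ x, ∑ κ' ∈ F, ∑ κ ∈ D, fourier d (κ + -(κ' + κ')) * ((f x * u κ x) * (starRingEnd ℂ) (u κ' x)) ∂μ := by
    refine integral_congr_ae ?_
    filter_upwards [hall] with x hx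
    rw [Finset.sum_congr rfl hx.1, Finset.sum_congr rfl hx.2, map_sum, Finset.mul_sum]
    refine Finset.sum_congr rfl fun κ' _ => ?_
    rw [Finset.mul_sum, Finset.sum_mul]
    refine Finset.sum_congr rfl fun κ _ => ?_
    have h2 : (fourier (2 * d) κ' : ℂ) = fourier d κ' * fourier d κ' := by
      rw [two_mul, fourier_add]
    rw [Q3_four, Q3_four_neg, Q3_four, map_mul, h2, map_mul]
    ring
  rw [e]
  have hb : ∀ κ κ' : Cir, Bd (fun x => (fourier d (κ + -(κ' + κ')) : ℂ) * ((f x * u κ x) * (starRingEnd ℂ) (u κ' x))) :=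
    fun κ κ' => S3_bd_mul _ _ (S3_bd_const _) (S3_bd_mul _ _ (S3_bd_mul _ _ hf (hu.bd κ)) (B11_conj _ (hu.bd κ')))
  rw [integral_finsetSum _ fun κ' _ => S3_int μ _ (S3_bd_sum D _ fun κ _ => hb κ κ')]
  refine Finset.sum_congr rfl fun κ' _ => ?_
  rw [integral_finsetSum _ fun κ _ => S3_int μ _ (hb κ κ')]
  refine Finset.sum_congr rfl fun κ _ => ?_
  rw [integral_const_mul]

theorem e1small {X : Type} [MeasurableSpace X] (μ : Measure X) [IsProbabilityMeasure μ] (τ : ℤ → X → X)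
    (hτ : Sys μ τ) (W : ℕ → ℝ) (hW : GW W)
    (L : Finset Cir) (b : Cir → ℝ) (w : ℤ → ℝ) (hb : ∀ l, 0 ≤ b l) (hb1 : ∑ l ∈ L, b l ≤ 1)
    (hwb : ∀ d, (w d : ℂ) = ∑ l ∈ L, (b l : ℂ) * fourier d l)
    (f g : X → ℂ) (hf : Bd f) (hf1 : ∀ x, ‖f x‖ ≤ 1) (hg : Bd g) (σ : Measure Cir) (hσ : Sp μ τ g σ) (u : Cir → X → ℂ)
    (hu : Eig μ τ g σ u) (hσ1 : ∀ κ, (σ {κ}).toReal ≤ 1) (F D : Finset Cir) (θ : ℝ) (hθ : 0 ≤ θ)
    (hD : ∀ κ ∈ D, (σ {κ}).toReal ≤ θ) (ρ : ℝ) (hρ : 0 < ρ) :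
    ∀ᶠ j : ℕ in atTop,
      ‖E2 W j (fun d => (w d : ℂ) * ∫ x, f x * (∑ κ ∈ D, u κ (τ d x))
          * (starRingEnd ℂ) (∑ κ ∈ F, u κ (τ (2 * d) x)) ∂μ)‖ ≤ (F.card : ℝ) * Real.sqrt θ + ρ := by
  classical
  set C : Cir → Cir → ℂ := fun κ' κ => ∫ x, (f x * u κ x) * (starRingEnd ℂ) (u κ' x) ∂μ with hC
  have hCb : ∀ κ', ∀ κ ∈ D, ‖C κ' κ‖ ≤ Real.sqrt θ := by
    intro κ' κ hκ
    refine Q4_cs μ _ _ (S3_bd_mul _ _ hf (hu.bd κ)) (B11_conj _ (hu.bd κ')) θ 1 ?_ ?_ le_rfl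
    · refine le_trans ?_ (hD κ hκ)
      rw [← hu.nm κ]
      refine integral_mono_of_nonneg (ae_of_all _ fun x => by positivity) (Q3_isq μ _ (hu.bd κ)) (ae_of_all _ fun x => ?_)
      show ‖f x * u κ x‖ ^ 2 ≤ ‖u κ x‖ ^ 2
      rw [norm_mul]
      refine pow_le_pow_left₀ (by positivity) ?_ 2
      exact mul_le_of_le_one_left (norm_nonneg _) (hf1 x)
    · refine le_trans (le_of_eq ?_) (hσ1 κ')
      rw [← hu.nm κ']
      congr 1
      funext x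
      rw [RCLike.norm_conj]
  have hexp : ∀ j, E2 W j (fun d => (w d : ℂ) * ∫ x, f x * (∑ κ ∈ D, u κ (τ d x))
          * (starRingEnd ℂ) (∑ κ ∈ F, u κ (τ (2 * d) x)) ∂μ)
      = ∑ l ∈ L, ∑ κ' ∈ F, ∑ κ ∈ D, ((b l : ℂ) * C κ' κ) * E2 W j (fun d => fourier d (l + (κ + -(κ' + κ')))) := by
    intro j
    have : (fun d : ℤ => (w d : ℂ) * ∫ x, f x * (∑ κ ∈ D, u κ (τ d x))
          * (starRingEnd ℂ) (∑ κ ∈ F, u κ (τ (2 * d) x)) ∂μ)
        = fun d => ∑ l ∈ L, ∑ κ' ∈ F, ∑ κ ∈ D, ((b l : ℂ) * C κ' κ) * fourier d (l + (κ + -(κ' + κ'))) := by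
      funext d
      rw [Q4_exp μ τ f g hf σ u hu F D d, hwb, Finset.sum_mul]
      refine Finset.sum_congr rfl fun l _ => ?_
      rw [Finset.mul_sum]
      refine Finset.sum_congr rfl fun κ' _ => ?_
      rw [Finset.mul_sum]
      refine Finset.sum_congr rfl fun κ _ => ?_
      rw [Q3_four d l]
      ring
    rw [this, E2_sum]
    refine Finset.sum_congr rfl fun l _ => ?_
    rw [E2_sum]
    refine Finset.sum_congr rfl fun κ' _ => ?_
    rw [E2_sum]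
    refine Finset.sum_congr rfl fun κ _ => ?_
    rw [E2_smul]
  set Λ : ℂ := ∑ l ∈ L, ∑ κ' ∈ F, ∑ κ ∈ D, ((b l : ℂ) * C κ' κ) * (if l + (κ + -(κ' + κ')) = 0 then 1 else 0) with hΛ
  have hlim : Tendsto (fun j => E2 W j (fun d => (w d : ℂ) * ∫ x, f x * (∑ κ ∈ D, u κ (τ d x))
          * (starRingEnd ℂ) (∑ κ ∈ F, u κ (τ (2 * d) x)) ∂μ)) atTop (𝓝 Λ) := by
    simp only [hexp]
    refine tendsto_finsetSum _ fun l _ => tendsto_finsetSum _ fun κ' _ => tendsto_finsetSum _ fun κ _ => ?_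
    exact (freq W hW _).const_mul _
  have hΛb : ‖Λ‖ ≤ (F.card : ℝ) * Real.sqrt θ := by
    have h1 : ∀ l ∈ L, ∀ κ' ∈ F,
        ‖∑ κ ∈ D, ((b l : ℂ) * C κ' κ) * (if l + (κ + -(κ' + κ')) = 0 then (1 : ℂ) else 0)‖ ≤ b l * Real.sqrt θ := by
      intro l _ κ' _
      have h2 : ∀ κ, (l + (κ + -(κ' + κ')) = 0) ↔ κ = (κ' + κ') - l := by
        intro κ
        constructor
        · intro h
          have : κ = (l + (κ + -(κ' + κ'))) + ((κ' + κ') - l) := by abel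
          rw [h, zero_add] at this
          exact this
        · intro h
          rw [h]; abel
      simp only [h2, mul_ite, mul_one, mul_zero, Finset.sum_ite_eq']
      split_ifs with h3
      · rw [norm_mul, Complex.norm_real, Real.norm_eq_abs, abs_of_nonneg (hb l)]
        exact mul_le_mul_of_nonneg_left (hCb κ' _ h3) (hb l)
      · rw [norm_zero]
        exact mul_nonneg (hb l) (Real.sqrt_nonneg _)
    calc ‖Λ‖ ≤ ∑ l ∈ L, ∑ κ' ∈ F, b l * Real.sqrt θ := by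
          rw [hΛ]
          refine (norm_sum_le _ _).trans (Finset.sum_le_sum fun l hl => ?_)
          refine (norm_sum_le _ _).trans (Finset.sum_le_sum fun κ' hκ' => ?_)
          exact h1 l hl κ' hκ'
      _ = (∑ l ∈ L, b l) * ((F.card : ℝ) * Real.sqrt θ) := by
          rw [Finset.sum_mul]
          refine Finset.sum_congr rfl fun l _ => ?_
          rw [Finset.sum_const, nsmul_eq_mul]
          ring
      _ ≤ 1 * ((F.card : ℝ) * Real.sqrt θ) := mul_le_mul_of_nonneg_right hb1 (by positivity)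
      _ = _ := one_mul _
  exact hlim.norm.eventually_le_const (by linarith)

/-! ## module Q5: small atoms in the second error term -/

private theorem Q5_fadd (d : ℤ) (s t : Cir) : (fourier d (s + t) : ℂ) = fourier d s * fourier d t := by
  simp only [fourier_apply, smul_add, AddCircle.toCircle_add, Circle.coe_mul]

private theorem Q5_fneg (d : ℤ) (s : Cir) : (fourier d (-s) : ℂ) = (starRingEnd ℂ) (fourier d s : ℂ) := by
  rw [← fourier_neg, fourier_apply, fourier_apply, smul_neg, neg_smul]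

private theorem Q5_fsub (d : ℤ) (s t : Cir) :
    (fourier d (s - t) : ℂ) = fourier d s * (starRingEnd ℂ) (fourier d t : ℂ) := by
  rw [sub_eq_add_neg, Q5_fadd, Q5_fneg]

private theorem Q5_ftwo (d : ℤ) (s : Cir) : (fourier (2 * d) s : ℂ) = fourier d (2 • s) := by
  rw [fourier_apply, fourier_apply, mul_comm, mul_smul]
  congr 2

private theorem Q5_fnorm (d : ℤ) (s : Cir) : ‖(fourier d s : ℂ)‖ = 1 := by
  rw [fourier_apply, Circle.norm_coe]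

private theorem Q5_tor (t : Cir) (h : (2 : ℕ) • t = 0) : t = 0 ∨ t = ((1 / 2 : ℝ) : Cir) := by
  induction t using QuotientAddGroup.induction_on with
  | H x =>
    have h1 : ((2 * x : ℝ) : Cir) = 0 := by
      rw [← h]
      rw [two_nsmul, two_mul]
      rfl
    obtain ⟨n, hn⟩ := (AddCircle.coe_eq_zero_iff (1 : ℝ)).mp h1
    rw [zsmul_eq_mul, mul_one] at hn
    rcases Int.even_or_odd' n with ⟨k, hk | hk⟩
    · left
      refine (AddCircle.coe_eq_zero_iff (1 : ℝ)).mpr ⟨k, ?_⟩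
      rw [zsmul_eq_mul, mul_one]
      rw [hk] at hn
      push_cast at hn
      linarith
    · right
      have h2 : x = (k : ℝ) + 1 / 2 := by
        rw [hk] at hn
        push_cast at hn
        linarith
      have h3 : (((k : ℝ)) : Cir) = 0 := (AddCircle.coe_eq_zero_iff (1 : ℝ)).mpr ⟨k, by rw [zsmul_eq_mul, mul_one]⟩
      have h4 : ((x : ℝ) : Cir) = (((k : ℝ)) : Cir) + ((1 / 2 : ℝ) : Cir) := by
        rw [h2]
        rfl
      rw [h3, zero_add] at h4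
      exact h4

open Classical in
private theorem Q5_card (D : Finset Cir) (l b : Cir) : (D.filter (fun κ => (2 : ℕ) • κ - l = b)).card ≤ 2 := by
  rcases (D.filter (fun κ => (2 : ℕ) • κ - l = b)).eq_empty_or_nonempty with h | ⟨a, ha⟩
  · rw [h]
    simp
  · have ha2 := (Finset.mem_filter.mp ha).2
    refine (Finset.card_le_card (t := {a, a + ((1 / 2 : ℝ) : Cir)}) ?_).trans Finset.card_le_two
    intro c hc
    have hc2 := (Finset.mem_filter.mp hc).2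
    have h1 : (2 : ℕ) • (c - a) = 0 := by
      rw [nsmul_sub]
      have h2 : (2 : ℕ) • c = (2 : ℕ) • a := by
        have h3 : (2 : ℕ) • c - l = (2 : ℕ) • a - l := hc2.trans ha2.symm
        exact sub_left_injective h3
      rw [h2, sub_self]
    rw [Finset.mem_insert, Finset.mem_singleton]
    rcases Q5_tor _ h1 with h2 | h2
    · left
      exact sub_eq_zero.mp h2
    · right
      rw [← h2]
      abel

private theorem Q5_two (D : Finset Cir) (l : Cir) (s : Cir → ℝ) (hs : ∀ t, 0 ≤ s t)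
    (h1 : ∀ F : Finset Cir, ∑ κ ∈ F, s κ ≤ 1) : ∑ κ ∈ D, s ((2 : ℕ) • κ - l) ≤ 2 := by
  classical
  rw [Finset.sum_comp s (fun κ : Cir => (2 : ℕ) • κ - l)]
  calc ∑ b ∈ D.image (fun κ : Cir => (2 : ℕ) • κ - l), (D.filter (fun κ => (2 : ℕ) • κ - l = b)).card • s b
      ≤ ∑ b ∈ D.image (fun κ : Cir => (2 : ℕ) • κ - l), 2 * s b := by
        refine Finset.sum_le_sum fun b _ => ?_
        rw [nsmul_eq_mul]
        refine mul_le_mul_of_nonneg_right ?_ (hs b)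
        exact_mod_cast Q5_card D l b
    _ = 2 * ∑ b ∈ D.image (fun κ : Cir => (2 : ℕ) • κ - l), s b := by rw [Finset.mul_sum]
    _ ≤ 2 := by
        have := h1 (D.image (fun κ : Cir => (2 : ℕ) • κ - l))
        linarith

private theorem Q5_one (D : Finset Cir) (l : Cir) (s : Cir → ℝ)
    (h1 : ∀ F : Finset Cir, ∑ κ ∈ F, s κ ≤ 1) : ∑ κ ∈ D, s (l - κ) ≤ 1 := by
  classical
  have h2 : ∑ b ∈ D.image (fun κ : Cir => l - κ), s b = ∑ κ ∈ D, s (l - κ) :=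
    Finset.sum_image fun a _ b _ hab => sub_right_injective hab
  rw [← h2]
  exact h1 _

private theorem Q5_const (W : ℕ → ℝ) (hW : GW W) (c : ℂ) :
    Tendsto (fun j : ℕ => E2 W j (fun _ => c)) atTop (𝓝 c) := by
  have h1 : (fun j : ℕ => E2 W j (fun _ => c)) = fun j : ℕ => c * ((R2 W j (fun _ => 1) : ℝ) : ℂ) := by
    funext j
    rw [← E2_ofReal, ← E2_smul]
    simp
  rw [h1]
  have h2 : Tendsto (fun j : ℕ => ((R2 W j (fun _ => 1) : ℝ) : ℂ)) atTop (𝓝 ((1 : ℝ) : ℂ)) :=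
    (Complex.continuous_ofReal.tendsto _).comp (mass W hW)
  have h3 := h2.const_mul c
  simpa using h3

/-- the limit for one pair of frequencies -/
private theorem Q5_lim {X : Type} [MeasurableSpace X] (μ : Measure X) [IsProbabilityMeasure μ] (τ : ℤ → X → X)
    (hτ : Sys μ τ) (W : ℕ → ℝ) (hW : GW W) (f g h : X → ℂ) (hf0 : Bd f) (hg : Bd g) (hh : Bd h)
    (hf : ∀ᵐ x ∂μ, f x = g x + h x) (hm : Mx3 μ τ h) (σ : Measure Cir) (hσ : Sp μ τ g σ) (u : Cir → X → ℂ)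
    (hu : Eig μ τ g σ u) (κ l : Cir) :
    Tendsto (fun j : ℕ => E2 W j (fun d => fourier d l * ∫ x, f x * f (τ d x) * (starRingEnd ℂ) (u κ (τ (2 * d) x)) ∂μ))
      atTop (𝓝 (∫ x, f x * ((starRingEnd ℂ) (u κ x) * u ((2 : ℕ) • κ - l) x) ∂μ)) := by
  classical
  have := hσ.1
  set ν : Cir := (2 : ℕ) • κ - l with hν
  set θ : Cir := l - (2 : ℕ) • κ with hθ
  set P : X → ℂ := fun x => f x * (starRingEnd ℂ) (u κ x) with hP
  have hPb : Bd P := S3_bd_mul _ _ hf0 (B11_conj _ (hu.bd κ))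
  set g' : X → ℂ := fun x => g x - ∑ κ ∈ ({ν} : Finset Cir), u κ x with hg'
  have hg'b : Bd g' := B11_sub _ _ hg (S3_bd_sum _ _ fun κ _ => hu.bd κ)
  have hs' := eig_sp μ τ hτ g hg σ hσ u hu {ν}
  haveI := hs'.1
  -- the three parts
  have t1 : Tendsto (fun j : ℕ => E2 W j (fun d => fourier d θ * ∫ x, h (τ (1 * d) x) * P (τ (0 * d) x) *
      (fun _ => (1 : ℂ)) (τ (2 * d) x) ∂μ)) atTop (𝓝 0) := by
    have key : ∀ a b c : ℤ, a ≠ b → a ≠ c → b ≠ c → ∀ v : ℕ → ℤ,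
        Tendsto (fun d : ℕ => fourier (v d) θ * ∫ x, h (τ (a * d) x) * P (τ (b * d) x) *
          (fun _ => (1 : ℂ)) (τ (c * d) x) ∂μ) atTop (𝓝 0) := by
      intro a b c hab hac hbc v
      have h1 := hm a b c hab hac hbc P (fun _ => 1) hPb (S3_bd_const 1)
      rw [tendsto_zero_iff_norm_tendsto_zero] at h1 ⊢
      refine h1.congr fun d => ?_
      rw [norm_mul, Q5_fnorm, one_mul]
    have e : ∀ (m : ℤ) (d : ℕ), m * (-(d : ℤ)) = (-m) * d := fun m d => by ring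
    refine E2_null W hW _ (key 1 0 2 (by norm_num) (by norm_num) (by norm_num) fun d => d) ?_
    have h2 := key (-1) (-0) (-2) (by norm_num) (by norm_num) (by norm_num) fun d => -(d : ℤ)
    simpa only [e] using h2
  have t2 : Tendsto (fun j : ℕ => E2 W j (fun d => fourier d θ * ∫ x, P x * g' (τ (1 * d) x) ∂μ)) atTop (𝓝 0) := by
    have hset : (σ.restrict (({ν} : Finset Cir) : Set Cir)ᶜ) {t | (1 : ℤ) • t + θ = 0} = 0 := by
      have h1 : {t : Cir | (1 : ℤ) • t + θ = 0} = {ν} := by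
        ext t
        rw [Set.mem_ofPred_eq, Set.mem_singleton_iff, one_smul, hθ, hν]
        constructor
        · intro h2
          have h3 : t = -(l - (2 : ℕ) • κ) := eq_neg_of_add_eq_zero_left h2
          rw [h3, neg_sub]
        · intro h2
          rw [h2]
          abel
      rw [h1, Measure.restrict_apply (measurableSet_singleton ν)]
      have h2 : ({ν} : Set Cir) ∩ (({ν} : Finset Cir) : Set Cir)ᶜ = ∅ := by
        rw [Finset.coe_singleton]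
        exact Set.inter_compl_self _
      rw [h2, measure_empty]
    rw [Metric.tendsto_nhds]
    intro ε hε
    set A : ℝ := ∫ x, ‖P x‖ ^ 2 ∂μ with hA
    have hA0 : 0 ≤ A := integral_nonneg fun x => by positivity
    have h3 := freq_pair μ τ hτ W hW g' hg'b _ hs' 1 θ (ε ^ 2 / (2 * (A + 1))) (by positivity)
    filter_upwards [h3] with j hj
    have h4 := hj P hPb
    rw [hset] at h4
    simp only [ENNReal.toReal_zero, zero_add] at h4
    rw [dist_zero_right]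
    have h5 : A * (ε ^ 2 / (2 * (A + 1))) < ε ^ 2 := by
      have h6 : A * (ε ^ 2 / (2 * (A + 1))) = ε ^ 2 * (A / (2 * (A + 1))) := by ring
      rw [h6]
      have h7 : A / (2 * (A + 1)) < 1 := by
        rw [div_lt_one (by positivity)]
        linarith
      have h8 : 0 < ε ^ 2 := by positivity
      nlinarith
    exact lt_of_pow_lt_pow_left₀ 2 hε.le (lt_of_le_of_lt h4 h5)
  have t3 := Q5_const W hW (∫ x, f x * ((starRingEnd ℂ) (u κ x) * u ν x) ∂μ)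
  have t4 := (t3.add t2).add t1
  rw [add_zero, add_zero] at t4
  refine t4.congr fun j => ?_
  rw [← E2_add, ← E2_add]
  congr 1
  funext d
  have a1 := hu.eq κ (2 * d)
  have a2 := hu.eq ν d
  have a3 := (hτ.mp d).quasiMeasurePreserving.ae hf
  have i1 : Integrable (fun x => f x * ((starRingEnd ℂ) (u κ x) * u ν x)) μ :=
    S3_int μ _ (S3_bd_mul _ _ hf0 (S3_bd_mul _ _ (B11_conj _ (hu.bd κ)) (hu.bd ν)))
  have i2 : Integrable (fun x => P x * g' (τ (1 * d) x)) μ :=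
    S3_int μ _ (S3_bd_mul _ _ hPb (S3_bd_comp μ τ hτ _ _ hg'b))
  have i3 : Integrable (fun x => h (τ (1 * d) x) * P (τ (0 * d) x) * (fun _ => (1 : ℂ)) (τ (2 * d) x)) μ :=
    S3_int μ _ (S3_bd_mul _ _ (S3_bd_mul _ _ (S3_bd_comp μ τ hτ _ _ hh) (S3_bd_comp μ τ hτ _ _ hPb)) (S3_bd_const 1))
  have i4 : Integrable (fun x => f x * ((starRingEnd ℂ) (u κ x) * u ν x) + fourier d θ * (P x * g' (τ (1 * d) x))) μ :=
    i1.add (i2.const_mul _)
  rw [← integral_const_mul, ← integral_const_mul, ← integral_add i1 (i2.const_mul _), ← integral_add i4 (i3.const_mul _),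
    ← integral_const_mul]
  refine integral_congr_ae ?_
  filter_upwards [a1, a2, a3] with x h1 h2 h3
  have e1 : (fourier d θ : ℂ) = fourier d l * (starRingEnd ℂ) (fourier (2 * d) κ : ℂ) := by
    rw [hθ, Q5_fsub, Q5_ftwo]
  have e2 : (fourier d θ : ℂ) * fourier d ν = 1 := by
    rw [← Q5_fadd, hθ, hν, show l - (2 : ℕ) • κ + ((2 : ℕ) • κ - l) = 0 by abel]
    simp
  have e3 : g' (τ (1 * d) x) = g (τ d x) - fourier d ν * u ν x := by
    rw [hg']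
    simp only [Finset.sum_singleton, one_mul]
    rw [h2]
  simp only [hP, zero_mul, one_mul, mul_one, hτ.zero] at e3 ⊢
  rw [e3, h1, h3, map_mul]
  have e4 : (fourier d θ : ℂ) * (f x * (starRingEnd ℂ) (u κ x)) * (fourier d ν * u ν x) =
      f x * ((starRingEnd ℂ) (u κ x) * u ν x) := by
    calc (fourier d θ : ℂ) * (f x * (starRingEnd ℂ) (u κ x)) * (fourier d ν * u ν x)
        = ((fourier d θ : ℂ) * fourier d ν) * (f x * ((starRingEnd ℂ) (u κ x) * u ν x)) := by ring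
      _ = _ := by rw [e2, one_mul]
  have e5 : (fourier d θ : ℂ) * (f x * (starRingEnd ℂ) (u κ x)) =
      fourier d l * (f x * ((starRingEnd ℂ) (fourier (2 * d) κ : ℂ) * (starRingEnd ℂ) (u κ x))) := by
    rw [e1]
    ring
  linear_combination (g (τ d x) + h (τ d x)) * e5 - e4

/-- `E2 W j (e(dl) ∫ f f(τ d) conj u_κ(τ 2d))` tends to `∫ f conj u_κ u_(2κ-l)`: replace `f(τ d)` by `g(τ d)` (`err3`),
`g = u_(2κ-l) + g'`, `freq_pair` for `g'` (`m = 1`, `θ = l - 2κ`); `eig_triple`; Cauchy-Schwarz for the sum over `κ`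
(`κ ↦ 2κ - l` is at most two to one on the circle). -/
theorem e2small {X : Type} [MeasurableSpace X] (μ : Measure X) [IsProbabilityMeasure μ] (τ : ℤ → X → X)
    (hτ : Sys μ τ) (he : Erg μ τ) (W : ℕ → ℝ) (hW : GW W)
    (L : Finset Cir) (b : Cir → ℝ) (w : ℤ → ℝ) (hb : ∀ l, 0 ≤ b l) (hb1 : ∑ l ∈ L, b l ≤ 1)
    (hwb : ∀ d, (w d : ℂ) = ∑ l ∈ L, (b l : ℂ) * fourier d l) (hw : ∀ d, 0 ≤ w d ∧ w d ≤ 1)
    (f g h : X → ℂ) (hf0 : Bd f) (hg : Bd g) (hh : Bd h)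
    (hf : ∀ᵐ x ∂μ, f x = g x + h x) (hm : Mx3 μ τ h)
    (σ : Measure Cir) (hσ : Sp μ τ g σ) (u : Cir → X → ℂ)
    (hu : Eig μ τ g σ u) (hσ1 : ∀ F : Finset Cir, ∑ κ ∈ F, (σ {κ}).toReal ≤ 1) (D : Finset Cir) (θ : ℝ) (hθ : 0 ≤ θ)
    (hD : ∀ κ ∈ D, (σ {κ}).toReal ≤ θ) (ρ : ℝ) (hρ : 0 < ρ) :
    ∀ᶠ j : ℕ in atTop,
      ‖E2 W j (fun d => (w d : ℂ) * ∫ x, f x * f (τ d x)
          * (starRingEnd ℂ) (∑ κ ∈ D, u κ (τ (2 * d) x)) ∂μ)‖ ≤ Real.sqrt (2 * θ) + ρ := by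
  classical
  have := hσ.1
  have hlimb : ‖∑ l ∈ L, (b l : ℂ) * ∑ κ ∈ D, ∫ x, f x * ((starRingEnd ℂ) (u κ x) * u ((2 : ℕ) • κ - l) x) ∂μ‖
      ≤ Real.sqrt (2 * θ) := by
    have h1 : ∀ l, ‖∑ κ ∈ D, ∫ x, f x * ((starRingEnd ℂ) (u κ x) * u ((2 : ℕ) • κ - l) x) ∂μ‖ ≤ Real.sqrt (2 * θ) := by
      intro l
      refine (norm_sum_le _ _).trans ?_
      have h2 : ∀ κ ∈ D, ‖∫ x, f x * ((starRingEnd ℂ) (u κ x) * u ((2 : ℕ) • κ - l) x) ∂μ‖ ≤
          Real.sqrt θ * (Real.sqrt ((σ {(2 : ℕ) • κ - l}).toReal) * Real.sqrt ((σ {l - κ}).toReal)) := by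
        intro κ hκ
        have h3 := eig_triple μ τ hτ he W hW f g h hf0 hg hh hf hm σ hσ u hu κ ((2 : ℕ) • κ - l)
        have h4 : κ - ((2 : ℕ) • κ - l) = l - κ := by
          rw [two_nsmul]
          abel
        rw [h4] at h3
        refine h3.trans ?_
        rw [mul_assoc]
        exact mul_le_mul_of_nonneg_right (Real.sqrt_le_sqrt (hD κ hκ))
          (mul_nonneg (Real.sqrt_nonneg _) (Real.sqrt_nonneg _))
      refine (Finset.sum_le_sum h2).trans ?_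
      rw [← Finset.mul_sum]
      have h5 : ∑ κ ∈ D, Real.sqrt ((σ {(2 : ℕ) • κ - l}).toReal) * Real.sqrt ((σ {l - κ}).toReal) ≤
          Real.sqrt 2 * Real.sqrt 1 := by
        refine (Real.sum_sqrt_mul_sqrt_le D (fun κ => ENNReal.toReal_nonneg) (fun κ => ENNReal.toReal_nonneg)).trans ?_
        refine mul_le_mul (Real.sqrt_le_sqrt ?_) (Real.sqrt_le_sqrt ?_) (Real.sqrt_nonneg _) (Real.sqrt_nonneg _)
        · exact Q5_two D l (fun t => (σ {t}).toReal) (fun t => ENNReal.toReal_nonneg) hσ1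
        · exact Q5_one D l (fun t => (σ {t}).toReal) hσ1
      rw [Real.sqrt_one, mul_one] at h5
      refine (mul_le_mul_of_nonneg_left h5 (Real.sqrt_nonneg _)).trans (le_of_eq ?_)
      rw [mul_comm, ← Real.sqrt_mul (by norm_num)]
    refine (norm_sum_le _ _).trans ?_
    calc ∑ l ∈ L, ‖(b l : ℂ) * ∑ κ ∈ D, ∫ x, f x * ((starRingEnd ℂ) (u κ x) * u ((2 : ℕ) • κ - l) x) ∂μ‖
        ≤ ∑ l ∈ L, b l * Real.sqrt (2 * θ) := by
          refine Finset.sum_le_sum fun l _ => ?_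
          rw [norm_mul, Complex.norm_real, Real.norm_eq_abs, abs_of_nonneg (hb l)]
          exact mul_le_mul_of_nonneg_left (h1 l) (hb l)
      _ = (∑ l ∈ L, b l) * Real.sqrt (2 * θ) := by rw [Finset.sum_mul]
      _ ≤ 1 * Real.sqrt (2 * θ) := mul_le_mul_of_nonneg_right hb1 (Real.sqrt_nonneg _)
      _ = _ := one_mul _
  have t : Tendsto (fun j : ℕ => E2 W j (fun d => (w d : ℂ) * ∫ x, f x * f (τ d x)
          * (starRingEnd ℂ) (∑ κ ∈ D, u κ (τ (2 * d) x)) ∂μ)) atTop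
      (𝓝 (∑ l ∈ L, (b l : ℂ) * ∑ κ ∈ D, ∫ x, f x * ((starRingEnd ℂ) (u κ x) * u ((2 : ℕ) • κ - l) x) ∂μ)) := by
    have h1 : Tendsto (fun j : ℕ => ∑ l ∈ L, (b l : ℂ) * ∑ κ ∈ D, E2 W j (fun d => fourier d l *
        ∫ x, f x * f (τ d x) * (starRingEnd ℂ) (u κ (τ (2 * d) x)) ∂μ)) atTop
        (𝓝 (∑ l ∈ L, (b l : ℂ) * ∑ κ ∈ D, ∫ x, f x * ((starRingEnd ℂ) (u κ x) * u ((2 : ℕ) • κ - l) x) ∂μ)) :=
      tendsto_finsetSum _ fun l _ => (tendsto_finsetSum _ fun κ _ =>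
        Q5_lim μ τ hτ W hW f g h hf0 hg hh hf hm σ hσ u hu κ l).const_mul _
    refine h1.congr fun j => ?_
    have e1 : (fun d : ℤ => (w d : ℂ) * ∫ x, f x * f (τ d x) * (starRingEnd ℂ) (∑ κ ∈ D, u κ (τ (2 * d) x)) ∂μ) =
        fun d : ℤ => ∑ l ∈ L, (b l : ℂ) * ∑ κ ∈ D, (fourier d l *
          ∫ x, f x * f (τ d x) * (starRingEnd ℂ) (u κ (τ (2 * d) x)) ∂μ) := by
      funext d
      have e2 : ∫ x, f x * f (τ d x) * (starRingEnd ℂ) (∑ κ ∈ D, u κ (τ (2 * d) x)) ∂μ =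
          ∑ κ ∈ D, ∫ x, f x * f (τ d x) * (starRingEnd ℂ) (u κ (τ (2 * d) x)) ∂μ := by
        rw [← integral_finsetSum]
        · refine integral_congr_ae (Eventually.of_forall fun x => ?_)
          simp only [map_sum, Finset.mul_sum]
        · intro κ _
          exact S3_int μ _ (S3_bd_mul _ _ (S3_bd_mul _ _ hf0 (S3_bd_comp μ τ hτ _ _ hf0))
            (B11_conj _ (S3_bd_comp μ τ hτ _ _ (hu.bd κ))))
      rw [e2, hwb, Finset.sum_mul]
      refine Finset.sum_congr rfl fun l _ => ?_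
      rw [← Finset.mul_sum, mul_assoc]
    rw [e1, E2_sum W j L (fun l d => (b l : ℂ) * ∑ κ ∈ D, (fourier d l *
          ∫ x, f x * f (τ d x) * (starRingEnd ℂ) (u κ (τ (2 * d) x)) ∂μ))]
    refine Finset.sum_congr rfl fun l _ => ?_
    rw [E2_smul, E2_sum W j D (fun κ d => (fourier d l *
          ∫ x, f x * f (τ d x) * (starRingEnd ℂ) (u κ (τ (2 * d) x)) ∂μ))]
  have t' := t.norm
  have h9 := t'.eventually (ge_mem_nhds (show ‖∑ l ∈ L, (b l : ℂ) * ∑ κ ∈ D, ∫ x, f x * ((starRingEnd ℂ) (u κ x) *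
    u ((2 : ℕ) • κ - l) x) ∂μ‖ < Real.sqrt (2 * θ) + ρ by linarith))
  exact h9

/-! ## module Q6: the first error term -/

private theorem Q6_sqint {Y : Type} [MeasurableSpace Y] (ν : Measure Y) [IsFiniteMeasure ν] {f : Y → ℂ}
    (hf : Bd f) : Integrable (fun x => ‖f x‖ ^ 2) ν := by
  obtain ⟨hm, C, hC⟩ := hf
  refine Integrable.of_bound (hm.norm.pow_const 2).aestronglyMeasurable (C ^ 2) (Eventually.of_forall fun x => ?_)
  rw [norm_pow, norm_norm]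
  exact pow_le_pow_left₀ (norm_nonneg _) (hC x) 2

private theorem Q6_cs {Y : Type} [MeasurableSpace Y] (ν : Measure Y) [IsFiniteMeasure ν] {F G : Y → ℂ}
    (hF : Bd F) (hG : Bd G) :
    ‖∫ x, F x * G x ∂ν‖ ^ 2 ≤ (∫ x, ‖F x‖ ^ 2 ∂ν) * ∫ x, ‖G x‖ ^ 2 ∂ν := by
  have hi : Integrable (fun x => ‖F x‖ * ‖G x‖) ν := by
    have := (S3_int ν _ (S3_bd_mul _ _ hF hG)).norm
    simpa [norm_mul] using this
  have h0 : ‖∫ x, F x * G x ∂ν‖ ≤ ∫ x, ‖F x‖ * ‖G x‖ ∂ν := by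
    refine (norm_integral_le_integral_norm _).trans (le_of_eq ?_)
    simp
  have h1 : ∀ t : ℝ, 0 ≤ (∫ x, ‖F x‖ ^ 2 ∂ν) * (t * t) + (2 * ∫ x, ‖F x‖ * ‖G x‖ ∂ν) * t + ∫ x, ‖G x‖ ^ 2 ∂ν := by
    intro t
    have : 0 ≤ ∫ x, (t * ‖F x‖ + ‖G x‖) ^ 2 ∂ν := integral_nonneg fun x => sq_nonneg _
    have e : ∫ x, (t * ‖F x‖ + ‖G x‖) ^ 2 ∂ν
        = (∫ x, ‖F x‖ ^ 2 ∂ν) * (t * t) + (2 * ∫ x, ‖F x‖ * ‖G x‖ ∂ν) * t + ∫ x, ‖G x‖ ^ 2 ∂ν := by
      have e1 : ∀ x, (t * ‖F x‖ + ‖G x‖) ^ 2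
          = (t * t) * ‖F x‖ ^ 2 + (2 * t) * (‖F x‖ * ‖G x‖) + ‖G x‖ ^ 2 := fun x => by ring
      have i1 : Integrable (fun x => (t * t) * ‖F x‖ ^ 2) ν := (Q6_sqint ν hF).const_mul _
      have i2 : Integrable (fun x => (2 * t) * (‖F x‖ * ‖G x‖)) ν := hi.const_mul _
      have i3 : Integrable (fun x => (t * t) * ‖F x‖ ^ 2 + (2 * t) * (‖F x‖ * ‖G x‖)) ν := i1.add i2
      simp only [e1]
      rw [integral_add i3 (Q6_sqint ν hG), integral_add i1 i2, integral_const_mul, integral_const_mul]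
      ring
    linarith
  have h2 := discrim_le_zero h1
  rw [discrim] at h2
  have h3 : 0 ≤ ‖∫ x, F x * G x ∂ν‖ := norm_nonneg _
  have h4 : ‖∫ x, F x * G x ∂ν‖ ^ 2 ≤ (∫ x, ‖F x‖ * ‖G x‖ ∂ν) ^ 2 := pow_le_pow_left₀ h3 h0 2
  nlinarith

private theorem Q6_ind {X : Type} [MeasurableSpace X] {μ : Measure X} [IsProbabilityMeasure μ] {A : Set X}
    (hA : MeasurableSet A) {P Q : X → ℂ} (hP : Bd P) (hQ : Bd Q) (a b : ℝ) (ha : 0 ≤ a) (hb : 0 ≤ b)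
    (hPa : ∫ x, ‖P x‖ ^ 2 ∂μ ≤ a ^ 2) (hQb : ∫ x, ‖Q x‖ ^ 2 ∂μ ≤ b ^ 2) :
    ‖∫ x, A.indicator (fun _ => (1 : ℂ)) x * P x * (starRingEnd ℂ) (Q x) ∂μ‖ ≤ a * b := by
  have h1 := Q6_cs μ (S3_bd_mul _ _ (B11_bdA A hA) hP) (B11_conj _ hQ)
  simp only [RCLike.norm_conj] at h1
  have h2 : ∫ x, ‖A.indicator (fun _ => (1 : ℂ)) x * P x‖ ^ 2 ∂μ ≤ ∫ x, ‖P x‖ ^ 2 ∂μ := by
    refine integral_mono (Q6_sqint μ (S3_bd_mul _ _ (B11_bdA A hA) hP)) (Q6_sqint μ hP) fun x => ?_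
    by_cases h : x ∈ A <;> simp [h]
  have h3 : 0 ≤ ∫ x, ‖Q x‖ ^ 2 ∂μ := integral_nonneg fun x => by positivity
  have h4 : 0 ≤ ∫ x, ‖P x‖ ^ 2 ∂μ := integral_nonneg fun x => by positivity
  refine abs_le_of_sq_le_sq' ?_ (by positivity) |>.2
  calc _ ≤ _ := h1
    _ ≤ a ^ 2 * b ^ 2 := mul_le_mul (h2.trans hPa) hQb h3 (by positivity)
    _ = (a * b) ^ 2 := by ring

private theorem Q6_nU {X : Type} [MeasurableSpace X] {μ : Measure X} [IsProbabilityMeasure μ] {τ : ℤ → X → X}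
    (hτ : Sys μ τ) {g : X → ℂ} (hg : Bd g) {σ : Measure Cir} (hσ : Sp μ τ g σ) {u : Cir → X → ℂ}
    (hu : Eig μ τ g σ u) (F : Finset Cir) :
    ∫ x, ‖∑ κ ∈ F, u κ x‖ ^ 2 ∂μ = ∑ κ ∈ F, (σ {κ}).toReal := by
  have := eig_norm μ τ hτ g hg σ hσ u hu F fun _ => 1
  simpa using this

private theorem Q6_cvsq {X : Type} [MeasurableSpace X] {μ : Measure X} {τ : ℤ → X → X} (hτ : Sys μ τ)
    {f : X → ℂ} (hf : Bd f) (n : ℤ) : ∫ x, ‖f (τ n x)‖ ^ 2 ∂μ = ∫ x, ‖f x‖ ^ 2 ∂μ :=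
  S3_cvr μ τ hτ n (fun x => ‖f x‖ ^ 2) (hf.1.norm.pow_const 2)

private theorem Q6_const {W : ℕ → ℝ} (hW : ∀ d, 0 ≤ W d) (j : ℕ) (w : ℤ → ℝ) (hw : ∀ d, 0 ≤ w d) (y : ℤ → ℂ)
    (ε : ℝ) (hy : ∀ d, ‖y d‖ ≤ ε) : ‖E2 W j (fun d => (w d : ℂ) * y d)‖ ≤ ε * R2 W j w := by
  refine (E2_norm_le W hW j _).trans ?_
  rw [← R2_smul]
  refine R2_mono W hW j _ _ fun d => ?_
  rw [norm_mul, Complex.norm_real, Real.norm_eq_abs, abs_of_nonneg (hw d), mul_comm]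
  exact mul_le_mul_of_nonneg_right (hy d) (hw d)

private theorem Q6_one {X : Type} [MeasurableSpace X] {μ : Measure X} [IsProbabilityMeasure μ] {A : Set X}
    (hA : MeasurableSet A) : ∫ x, ‖A.indicator (fun _ => (1 : ℂ)) x‖ ^ 2 ∂μ ≤ 1 := by
  have h3 : ∫ x, ‖A.indicator (fun _ => (1 : ℂ)) x‖ ^ 2 ∂μ ≤ ∫ _, (1 : ℝ) ∂μ := by
    refine integral_mono (Q6_sqint μ (B11_bdA A hA)) (integrable_const _) fun x => ?_
    by_cases h : x ∈ A <;> simp [h]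
  simpa using h3

private theorem Q6_at (σ : Measure Cir) [IsFiniteMeasure σ] : {t : Cir | σ {t} ≠ 0}.Countable := by
  have := Measure.countable_meas_pos_of_disjoint_iUnion (μ := σ) (As := fun t : Cir => ({t} : Set Cir))
    (fun t => measurableSet_singleton t) (fun s t hst => by simpa [Function.onFun] using hst)
  simpa [pos_iff_ne_zero] using this

/-- the singular part, without atoms, of the spectral measure of `g - ∑ κ ∈ F', u κ` -/
private theorem Q6_sing (σ : Measure Cir) [IsFiniteMeasure σ] (E : Set Cir) (hE : MeasurableSet E) (hE0 : volume E = 0)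
    (F' : Finset Cir) (δ : ℝ) (hδ : (σ ({t | σ {t} ≠ 0} \ (F' : Set Cir))).toReal ≤ δ) :
    MeasurableSet (E \ {t : Cir | σ {t} ≠ 0}) ∧
      (σ.restrict (F' : Set Cir)ᶜ).restrict (E \ {t : Cir | σ {t} ≠ 0}) ⟂ₘ (volume : Measure Cir) ∧
      (∀ t ∈ E \ {t : Cir | σ {t} ≠ 0}, (σ.restrict (F' : Set Cir)ᶜ) {t} = 0) ∧
      ((σ.restrict (F' : Set Cir)ᶜ) (E \ {t : Cir | σ {t} ≠ 0})ᶜ).toReal ≤ (σ Eᶜ).toReal + δ := by
  have hm : MeasurableSet {t : Cir | σ {t} ≠ 0} := (Q6_at σ).measurableSet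
  refine ⟨hE.diff hm, ?_, fun t ht => ?_, ?_⟩
  · refine ⟨Eᶜ, hE.compl, ?_, ?_⟩
    · rw [Measure.restrict_apply hE.compl]
      have h1 : Eᶜ ∩ (E \ {t : Cir | σ {t} ≠ 0}) = ∅ := by
        ext t
        simp only [Set.mem_inter_iff, Set.mem_compl_iff, Set.mem_sdiff, Set.mem_empty_iff_false, iff_false]
        exact fun h => h.1 h.2.1
      rw [h1, measure_empty]
    · rw [compl_compl]
      exact hE0
  · have : σ {t} = 0 := by
      by_contra h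
      exact ht.2 h
    exact le_antisymm ((Measure.restrict_le_self _).trans this.le) bot_le
  · have h1 : (σ.restrict (F' : Set Cir)ᶜ) (E \ {t : Cir | σ {t} ≠ 0})ᶜ ≤
        σ Eᶜ + σ ({t | σ {t} ≠ 0} \ (F' : Set Cir)) := by
      rw [Measure.restrict_apply (hE.diff hm).compl]
      refine (measure_mono ?_).trans (measure_union_le _ _)
      intro t ht
      by_cases h2 : t ∈ E
      · right
        refine ⟨?_, ht.2⟩
        by_contra h3
        exact ht.1 ⟨h2, h3⟩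
      · left
        exact h2
    calc ((σ.restrict (F' : Set Cir)ᶜ) (E \ {t : Cir | σ {t} ≠ 0})ᶜ).toReal
        ≤ (σ Eᶜ + σ ({t | σ {t} ≠ 0} \ (F' : Set Cir))).toReal :=
          ENNReal.toReal_mono (ENNReal.add_ne_top.mpr ⟨measure_ne_top _ _, measure_ne_top _ _⟩) h1
      _ = (σ Eᶜ).toReal + (σ ({t | σ {t} ≠ 0} \ (F' : Set Cir))).toReal :=
          ENNReal.toReal_add (measure_ne_top _ _) (measure_ne_top _ _)
      _ ≤ _ := by linarith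

/-- the common numerical end -/
private theorem Q6_num (K ρ s δ x : ℝ) (hK : 0 ≤ K) (hρ : 0 < ρ) (hs : 0 ≤ s) (hδ : δ ≤ ρ ^ 2 / (32 * (K + 1)))
    (h : x ^ 2 ≤ K * (s + δ) + ρ ^ 2 / 32) : x ≤ Real.sqrt (K * s) + ρ / 4 := by
  have h1 : K * δ ≤ ρ ^ 2 / 32 := by
    have h2 : K * δ ≤ K * (ρ ^ 2 / (32 * (K + 1))) := mul_le_mul_of_nonneg_left hδ hK
    have h3 : K * (ρ ^ 2 / (32 * (K + 1))) = (ρ ^ 2 / 32) * (K / (K + 1)) := by
      field_simp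
    have h4 : K / (K + 1) ≤ 1 := by
      rw [div_le_one (by positivity)]
      linarith
    have h5 : (ρ ^ 2 / 32) * (K / (K + 1)) ≤ ρ ^ 2 / 32 := mul_le_of_le_one_right (by positivity) h4
    linarith
  have h6 : 0 ≤ Real.sqrt (K * s) := Real.sqrt_nonneg _
  have h7 : Real.sqrt (K * s) ^ 2 = K * s := Real.sq_sqrt (mul_nonneg hK hs)
  refine (abs_le_of_sq_le_sq' ?_ (by positivity)).2
  have h8 : (Real.sqrt (K * s) + ρ / 4) ^ 2 = Real.sqrt (K * s) ^ 2 + Real.sqrt (K * s) * ρ / 2 + ρ ^ 2 / 16 := by ring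
  rw [h8, h7]
  have h9 : 0 ≤ Real.sqrt (K * s) * ρ / 2 := by positivity
  nlinarith

private theorem Q6_E2 (W : ℕ → ℝ) (j : ℕ) (w : ℤ → ℝ) (x a b c e : ℤ → ℂ) (h : ∀ d, x d = a d + b d + (c d + e d)) :
    E2 W j (fun d => (w d : ℂ) * x d) = E2 W j (fun d => (w d : ℂ) * a d) + E2 W j (fun d => (w d : ℂ) * b d)
      + (E2 W j (fun d => (w d : ℂ) * c d) + E2 W j (fun d => (w d : ℂ) * e d)) := by
  rw [← E2_add W j (fun d => (w d : ℂ) * a d) (fun d => (w d : ℂ) * b d),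
    ← E2_add W j (fun d => (w d : ℂ) * c d) (fun d => (w d : ℂ) * e d),
    ← E2_add W j (fun d => (w d : ℂ) * a d + (w d : ℂ) * b d) (fun d => (w d : ℂ) * c d + (w d : ℂ) * e d)]
  congr 1
  funext d
  rw [h d]
  ring

/-- `F' \ F`: Cauchy-Schwarz as in `err1`; `D = F'' \ F'`: `e1small`; the rest: `f = g + h` in the first factor (`err3`)
and `tri_small` with `G₁ = E \ {atoms}`, `G₂ = ∅`. -/
theorem err1p {X : Type} [MeasurableSpace X] (μ : Measure X) [IsProbabilityMeasure μ] (τ : ℤ → X → X)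
    (hτ : Sys μ τ) (he : Erg μ τ) (W : ℕ → ℝ) (hW : GW W)
    (L : Finset Cir) (b : Cir → ℝ) (w : ℤ → ℝ) (hb : ∀ l, 0 ≤ b l) (hb1 : ∑ l ∈ L, b l ≤ 1)
    (hwb : ∀ d, (w d : ℂ) = ∑ l ∈ L, (b l : ℂ) * fourier d l) (hw : ∀ d, 0 ≤ w d ∧ w d ≤ 1)
    (A : Set X) (hA : MeasurableSet A) (g h : X → ℂ) (hg : Bd g) (hh : Bd h)
    (hf : ∀ᵐ x ∂μ, A.indicator (fun _ => (1 : ℂ)) x = g x + h x) (hm : Mx3 μ τ h)
    (σ : Measure Cir) (hσ : Sp μ τ g σ) (E : Set Cir) (hE : MeasurableSet E) (hE0 : volume E = 0)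
    (u : Cir → X → ℂ) (hu : Eig μ τ g σ u) (F F' : Finset Cir) (hFF : F ⊆ F') (ε : ℝ) (hε : 0 < ε)
    (hF : ∑ κ ∈ F' \ F, (σ {κ}).toReal ≤ ε ^ 2) (θ : ℝ) (hθ : 0 ≤ θ) (hD : ∀ κ, κ ∉ F' → (σ {κ}).toReal ≤ θ)
    (M : ℝ) (hM : (σ Set.univ).toReal ≤ M) (ρ : ℝ) (hρ : 0 < ρ) :
    ∀ᶠ j : ℕ in atTop,
      ‖E2 W j (fun d => (w d : ℂ) * ∫ x, A.indicator (fun _ => (1 : ℂ)) x
          * (g (τ d x) - ∑ κ ∈ F, u κ (τ d x)) * (starRingEnd ℂ) (∑ κ ∈ F, u κ (τ (2 * d) x)) ∂μ)‖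
        ≤ ε * R2 W j w + (F.card : ℝ) * Real.sqrt θ + Real.sqrt (M * (σ Eᶜ).toReal) + ρ := by
  classical
  have hfin := hσ.1
  have hM0 : 0 ≤ M := ENNReal.toReal_nonneg.trans hM
  obtain ⟨F'', hFF'', hδ⟩ := B11_atoms σ F' (ρ ^ 2 / (32 * (M + 1))) (by positivity)
  set V : X → ℂ := fun x => g x - ∑ κ ∈ F'', u κ x with hVdef
  set V1 : X → ℂ := fun x => ∑ κ ∈ F' \ F, u κ x with hV1def
  set V2 : X → ℂ := fun x => ∑ κ ∈ F'' \ F', u κ x with hV2def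
  set U : X → ℂ := fun x => ∑ κ ∈ F, u κ x with hUdef
  have hI : Bd (A.indicator (fun _ => (1 : ℂ))) := B11_bdA A hA
  have hS : ∀ D : Finset Cir, Bd (fun x => ∑ κ ∈ D, u κ x) := fun D => S3_bd_sum D _ fun κ _ => hu.bd κ
  have hU : Bd U := hS F
  have hV : Bd V := B11_sub _ _ hg (hS F'')
  have hV1 : Bd V1 := hS _
  have hV2 : Bd V2 := hS _
  have hsplit : ∀ x, g x - U x = V1 x + V2 x + V x := by
    intro x
    have h1 : ∑ κ ∈ F' \ F, u κ x + ∑ κ ∈ F, u κ x = ∑ κ ∈ F', u κ x := Finset.sum_sdiff hFF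
    have h2 : ∑ κ ∈ F'' \ F', u κ x + ∑ κ ∈ F', u κ x = ∑ κ ∈ F'', u κ x := Finset.sum_sdiff hFF''
    simp only [hUdef, hV1def, hV2def, hVdef]
    rw [← h2, ← h1]
    ring
  have hV1n : ∫ x, ‖V1 x‖ ^ 2 ∂μ ≤ ε ^ 2 := by
    rw [Q6_nU hτ hg hσ hu (F' \ F)]
    exact hF
  have hUn : ∫ x, ‖U x‖ ^ 2 ∂μ ≤ 1 ^ 2 := by
    rw [Q6_nU hτ hg hσ hu F, one_pow]
    exact mass_le μ τ hτ A hA g h hg hh hf hm σ hσ u hu F
  set a : ℤ → ℂ := fun d => ∫ x, A.indicator (fun _ => (1 : ℂ)) x * V1 (τ d x)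
    * (starRingEnd ℂ) (U (τ (2 * d) x)) ∂μ with ha
  set a2 : ℤ → ℂ := fun d => ∫ x, A.indicator (fun _ => (1 : ℂ)) x * V2 (τ d x)
    * (starRingEnd ℂ) (U (τ (2 * d) x)) ∂μ with ha2
  set b' : ℤ → ℂ := fun d => ∫ x, V (τ (1 * d) x) * g (τ (0 * d) x) * (starRingEnd ℂ) (U (τ (2 * d) x)) ∂μ with hb'
  set c : ℤ → ℂ := fun d => ∫ x, h (τ (0 * d) x) * V (τ (1 * d) x) * (starRingEnd ℂ) (U (τ (2 * d) x)) ∂μ with hc
  have hid : ∀ d : ℤ, ∫ x, A.indicator (fun _ => (1 : ℂ)) x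
      * (g (τ d x) - ∑ κ ∈ F, u κ (τ d x)) * (starRingEnd ℂ) (∑ κ ∈ F, u κ (τ (2 * d) x)) ∂μ =
        a d + a2 d + (b' d + c d) := by
    intro d
    have cU : Bd (fun x => (starRingEnd ℂ) (U (τ (2 * d) x))) := B11_conj _ (S3_bd_comp μ τ hτ _ _ hU)
    have i1 : Integrable (fun x => A.indicator (fun _ => (1 : ℂ)) x * V1 (τ d x)
        * (starRingEnd ℂ) (U (τ (2 * d) x))) μ :=
      S3_int μ _ (S3_bd_mul _ _ (S3_bd_mul _ _ hI (S3_bd_comp μ τ hτ _ _ hV1)) cU)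
    have i2 : Integrable (fun x => A.indicator (fun _ => (1 : ℂ)) x * V2 (τ d x)
        * (starRingEnd ℂ) (U (τ (2 * d) x))) μ :=
      S3_int μ _ (S3_bd_mul _ _ (S3_bd_mul _ _ hI (S3_bd_comp μ τ hτ _ _ hV2)) cU)
    have i3 : Integrable (fun x => V (τ (1 * d) x) * g (τ (0 * d) x) * (starRingEnd ℂ) (U (τ (2 * d) x))) μ :=
      S3_int μ _ (S3_bd_mul _ _ (S3_bd_mul _ _ (S3_bd_comp μ τ hτ _ _ hV) (S3_bd_comp μ τ hτ _ _ hg)) cU)
    have i4 : Integrable (fun x => h (τ (0 * d) x) * V (τ (1 * d) x) * (starRingEnd ℂ) (U (τ (2 * d) x))) μ :=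
      S3_int μ _ (S3_bd_mul _ _ (S3_bd_mul _ _ (S3_bd_comp μ τ hτ _ _ hh) (S3_bd_comp μ τ hτ _ _ hV)) cU)
    have i12 : Integrable (fun x => A.indicator (fun _ => (1 : ℂ)) x * V1 (τ d x)
        * (starRingEnd ℂ) (U (τ (2 * d) x)) + A.indicator (fun _ => (1 : ℂ)) x * V2 (τ d x)
        * (starRingEnd ℂ) (U (τ (2 * d) x))) μ := i1.add i2
    have i34 : Integrable (fun x => V (τ (1 * d) x) * g (τ (0 * d) x) * (starRingEnd ℂ) (U (τ (2 * d) x))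
        + h (τ (0 * d) x) * V (τ (1 * d) x) * (starRingEnd ℂ) (U (τ (2 * d) x))) μ := i3.add i4
    rw [ha, ha2, hb', hc]
    simp only
    rw [← integral_add i1 i2, ← integral_add i3 i4, ← integral_add i12 i34]
    refine integral_congr_ae ?_
    filter_upwards [hf] with x hx
    have h1 := hsplit (τ d x)
    have h2 : g (τ d x) - ∑ κ ∈ F, u κ (τ d x) = V1 (τ d x) + V2 (τ d x) + V (τ d x) := h1
    have h3 : ∑ κ ∈ F, u κ (τ (2 * d) x) = U (τ (2 * d) x) := rfl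
    rw [h2, h3, zero_mul, one_mul, hτ.zero]
    linear_combination (V (τ d x) * (starRingEnd ℂ) (U (τ (2 * d) x))) * hx
  obtain ⟨s1, s2, s3, s4⟩ := Q6_sing σ E hE hE0 F'' _ hδ
  have hbb := tri_small μ τ hτ he W hW w hw V g (fun x => (starRingEnd ℂ) (U x)) hV hg (B11_conj _ hU)
    (σ.restrict (F'' : Set Cir)ᶜ) σ ((σ.restrict (F : Set Cir)).map (fun t => -t))
    (eig_sp μ τ hτ g hg σ hσ u hu F'') hσ (sp_conj μ τ hτ U hU _ (eig_sum_sp μ τ hτ g hg σ hσ u hu F))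
    (E \ {t : Cir | σ {t} ≠ 0}) ∅ s1 MeasurableSet.empty s2 s3
    (by rw [Measure.restrict_empty]; exact Measure.MutuallySingular.zero_left)
    (fun t ht => absurd ht (Set.notMem_empty t)) 1 0 2 (by norm_num) (by norm_num) (by norm_num)
    (ρ ^ 2 / 32) (by positivity)
  have hcc := (err3 μ τ hτ W hW w hw h V (fun x => (starRingEnd ℂ) (U x)) hh hV (B11_conj _ hU) hm 0 1 2
    (by norm_num) (by norm_num) (by norm_num)).1
  have hcc' : ∀ᶠ j : ℕ in atTop, ‖E2 W j (fun d => (w d : ℂ) * c d)‖ < ρ / 4 := by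
    have h1 := hcc.norm
    rw [norm_zero] at h1
    exact h1.eventually (gt_mem_nhds (by positivity))
  have hind1 : ∀ x, ‖A.indicator (fun _ => (1 : ℂ)) x‖ ≤ 1 := by
    intro x
    by_cases h : x ∈ A <;> simp [h]
  have hσ1 : ∀ κ, (σ {κ}).toReal ≤ 1 := by
    intro κ
    have h1 := mass_le μ τ hτ A hA g h hg hh hf hm σ hσ u hu {κ}
    rwa [Finset.sum_singleton] at h1
  have haa := e1small μ τ hτ W hW L b w hb hb1 hwb (A.indicator (fun _ => (1 : ℂ))) g hI hind1 hg σ hσ u hu hσ1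
    F (F'' \ F') θ hθ (fun κ hκ => hD κ (Finset.mem_sdiff.mp hκ).2) (ρ / 4) (by positivity)
  filter_upwards [hbb, hcc', haa] with j hj1 hj2 hj3
  rw [Q6_E2 W j w _ a a2 b' c hid]
  have ta : ‖E2 W j (fun d => (w d : ℂ) * a d)‖ ≤ ε * R2 W j w := by
    refine Q6_const hW.1 j w (fun d => (hw d).1) a ε fun d => ?_
    have := Q6_ind (μ := μ) hA (S3_bd_comp μ τ hτ d _ hV1) (S3_bd_comp μ τ hτ (2 * d) _ hU) ε 1 hε.le zero_le_one
      ((Q6_cvsq hτ hV1 d).trans_le hV1n) ((Q6_cvsq hτ hU (2 * d)).trans_le hUn)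
    rwa [mul_one] at this
  have ta2 : ‖E2 W j (fun d => (w d : ℂ) * a2 d)‖ ≤ (F.card : ℝ) * Real.sqrt θ + ρ / 4 := hj3
  have tb : ‖E2 W j (fun d => (w d : ℂ) * b' d)‖ ≤ Real.sqrt (M * (σ Eᶜ).toReal) + ρ / 4 := by
    refine Q6_num M ρ ((σ Eᶜ).toReal) _ _ hM0 hρ ENNReal.toReal_nonneg le_rfl (hj1.trans ?_)
    have h1 : (∫ x, ‖(starRingEnd ℂ) (U x)‖ ^ 2 ∂μ) ≤ 1 := by
      simp only [RCLike.norm_conj]
      linarith
    have h2 : (σ (∅ : Set Cir)ᶜ).toReal ≤ M := by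
      rw [Set.compl_empty]
      exact hM
    have h3 : (∫ x, ‖(starRingEnd ℂ) (U x)‖ ^ 2 ∂μ) *
        ((σ.restrict (F'' : Set Cir)ᶜ) (E \ {t : Cir | σ {t} ≠ 0})ᶜ).toReal ≤
        1 * ((σ Eᶜ).toReal + ρ ^ 2 / (32 * (M + 1))) :=
      mul_le_mul h1 s4 ENNReal.toReal_nonneg zero_le_one
    have h4 : (∫ x, ‖(starRingEnd ℂ) (U x)‖ ^ 2 ∂μ) *
        ((σ.restrict (F'' : Set Cir)ᶜ) (E \ {t : Cir | σ {t} ≠ 0})ᶜ).toReal * (σ (∅ : Set Cir)ᶜ).toReal ≤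
        (1 * ((σ Eᶜ).toReal + ρ ^ 2 / (32 * (M + 1)))) * M :=
      mul_le_mul h3 h2 ENNReal.toReal_nonneg (by positivity)
    linarith
  have n1 := norm_add_le (E2 W j (fun d => (w d : ℂ) * a d) + E2 W j (fun d => (w d : ℂ) * a2 d))
    (E2 W j (fun d => (w d : ℂ) * b' d) + E2 W j (fun d => (w d : ℂ) * c d))
  have n2 := norm_add_le (E2 W j (fun d => (w d : ℂ) * a d)) (E2 W j (fun d => (w d : ℂ) * a2 d))
  have n3 := norm_add_le (E2 W j (fun d => (w d : ℂ) * b' d)) (E2 W j (fun d => (w d : ℂ) * c d))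
  linarith

/-! ## module Q7: the second error term -/

/-- the same for the complex conjugate -/
private theorem Q7_sing (σ : Measure Cir) [IsFiniteMeasure σ] (E : Set Cir) (hE : MeasurableSet E) (hE0 : volume E = 0)
    (F' : Finset Cir) (δ : ℝ) (hδ : (σ ({t | σ {t} ≠ 0} \ (F' : Set Cir))).toReal ≤ δ) :
    MeasurableSet ((fun t : Cir => -t) ⁻¹' (E \ {t : Cir | σ {t} ≠ 0})) ∧
      ((σ.restrict (F' : Set Cir)ᶜ).map (fun t => -t)).restrict ((fun t : Cir => -t) ⁻¹' (E \ {t : Cir | σ {t} ≠ 0}))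
        ⟂ₘ (volume : Measure Cir) ∧
      (∀ t ∈ (fun t : Cir => -t) ⁻¹' (E \ {t : Cir | σ {t} ≠ 0}),
        ((σ.restrict (F' : Set Cir)ᶜ).map (fun t => -t)) {t} = 0) ∧
      (((σ.restrict (F' : Set Cir)ᶜ).map (fun t => -t)) ((fun t : Cir => -t) ⁻¹' (E \ {t : Cir | σ {t} ≠ 0}))ᶜ).toReal
        ≤ (σ Eᶜ).toReal + δ := by
  obtain ⟨s1, s2, s3, s4⟩ := Q6_sing σ E hE hE0 F' δ hδ
  have hn : Measurable (fun t : Cir => -t) := measurable_neg
  have hnn : (fun t : Cir => -t) ∘ (fun t : Cir => -t) = id := by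
    funext t
    simp
  refine ⟨hn s1, ?_, fun t ht => ?_, ?_⟩
  · refine ⟨(fun t : Cir => -t) ⁻¹' Eᶜ, hn hE.compl, ?_, ?_⟩
    · rw [Measure.restrict_apply (hn hE.compl)]
      have h1 : (fun t : Cir => -t) ⁻¹' Eᶜ ∩ (fun t : Cir => -t) ⁻¹' (E \ {t : Cir | σ {t} ≠ 0}) = ∅ := by
        rw [← Set.preimage_inter]
        have h2 : Eᶜ ∩ (E \ {t : Cir | σ {t} ≠ 0}) = ∅ := by
          ext t
          simp only [Set.mem_inter_iff, Set.mem_compl_iff, Set.mem_sdiff, Set.mem_empty_iff_false, iff_false]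
          exact fun h => h.1 h.2.1
        rw [h2, Set.preimage_empty]
      rw [h1, measure_empty]
    · rw [← Set.preimage_compl, compl_compl]
      have e : (fun t : Cir => -t) ⁻¹' E = -E := rfl
      rw [e, Measure.measure_neg, hE0]
  · rw [Measure.map_apply hn (measurableSet_singleton t)]
    have e : (fun t : Cir => -t) ⁻¹' {t} = {-t} := by
      ext s
      simp
    rw [e]
    exact s3 (-t) ht
  · rw [Measure.map_apply hn (hn s1).compl, ← Set.preimage_compl, ← Set.preimage_comp, hnn, Set.preimage_id]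
    exact s4

theorem err2p {X : Type} [MeasurableSpace X] (μ : Measure X) [IsProbabilityMeasure μ] (τ : ℤ → X → X)
    (hτ : Sys μ τ) (he : Erg μ τ) (W : ℕ → ℝ) (hW : GW W)
    (L : Finset Cir) (b : Cir → ℝ) (w : ℤ → ℝ) (hb : ∀ l, 0 ≤ b l) (hb1 : ∑ l ∈ L, b l ≤ 1)
    (hwb : ∀ d, (w d : ℂ) = ∑ l ∈ L, (b l : ℂ) * fourier d l) (hw : ∀ d, 0 ≤ w d ∧ w d ≤ 1)
    (A : Set X) (hA : MeasurableSet A) (g h : X → ℂ) (hg : Bd g) (hh : Bd h)
    (hf : ∀ᵐ x ∂μ, A.indicator (fun _ => (1 : ℂ)) x = g x + h x) (hm : Mx3 μ τ h)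
    (σ : Measure Cir) (hσ : Sp μ τ g σ) (E : Set Cir) (hE : MeasurableSet E) (hE0 : volume E = 0)
    (u : Cir → X → ℂ) (hu : Eig μ τ g σ u) (F F' : Finset Cir) (hFF : F ⊆ F') (ε : ℝ) (hε : 0 < ε)
    (hF : ∑ κ ∈ F' \ F, (σ {κ}).toReal ≤ ε ^ 2) (θ : ℝ) (hθ : 0 ≤ θ) (hD : ∀ κ, κ ∉ F' → (σ {κ}).toReal ≤ θ)
    (M : ℝ) (hM : (σ Set.univ).toReal ≤ M) (ρ : ℝ) (hρ : 0 < ρ) :
    ∀ᶠ j : ℕ in atTop,
      ‖E2 W j (fun d => (w d : ℂ) * ∫ x, A.indicator (fun _ => (1 : ℂ)) x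
          * A.indicator (fun _ => (1 : ℂ)) (τ d x)
          * (starRingEnd ℂ) (g (τ (2 * d) x) - ∑ κ ∈ F, u κ (τ (2 * d) x)) ∂μ)‖
        ≤ ε * R2 W j w + Real.sqrt (2 * θ) + M * Real.sqrt ((σ Eᶜ).toReal) + ρ := by
  classical
  have hfin := hσ.1
  have hM0 : 0 ≤ M := ENNReal.toReal_nonneg.trans hM
  obtain ⟨F'', hFF'', hδ⟩ := B11_atoms σ F' (ρ ^ 2 / (32 * (M ^ 2 + 1))) (by positivity)
  set V : X → ℂ := fun x => g x - ∑ κ ∈ F'', u κ x with hVdef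
  set V1 : X → ℂ := fun x => ∑ κ ∈ F' \ F, u κ x with hV1def
  set V2 : X → ℂ := fun x => ∑ κ ∈ F'' \ F', u κ x with hV2def
  have hI : Bd (A.indicator (fun _ => (1 : ℂ))) := B11_bdA A hA
  have hS : ∀ D : Finset Cir, Bd (fun x => ∑ κ ∈ D, u κ x) := fun D => S3_bd_sum D _ fun κ _ => hu.bd κ
  have hV : Bd V := B11_sub _ _ hg (hS F'')
  have hV1 : Bd V1 := hS _
  have hV2 : Bd V2 := hS _
  have hsplit : ∀ x, g x - ∑ κ ∈ F, u κ x = V1 x + V2 x + V x := by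
    intro x
    have h1 : ∑ κ ∈ F' \ F, u κ x + ∑ κ ∈ F, u κ x = ∑ κ ∈ F', u κ x := Finset.sum_sdiff hFF
    have h2 : ∑ κ ∈ F'' \ F', u κ x + ∑ κ ∈ F', u κ x = ∑ κ ∈ F'', u κ x := Finset.sum_sdiff hFF''
    simp only [hV1def, hV2def, hVdef]
    rw [← h2, ← h1]
    ring
  have hV1n : ∫ x, ‖V1 x‖ ^ 2 ∂μ ≤ ε ^ 2 := by
    rw [Q6_nU hτ hg hσ hu (F' \ F)]
    exact hF
  set a : ℤ → ℂ := fun d => ∫ x, A.indicator (fun _ => (1 : ℂ)) x * A.indicator (fun _ => (1 : ℂ)) (τ d x)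
    * (starRingEnd ℂ) (V1 (τ (2 * d) x)) ∂μ with ha
  set a2 : ℤ → ℂ := fun d => ∫ x, A.indicator (fun _ => (1 : ℂ)) x * A.indicator (fun _ => (1 : ℂ)) (τ d x)
    * (starRingEnd ℂ) (V2 (τ (2 * d) x)) ∂μ with ha2
  set b' : ℤ → ℂ := fun d => ∫ x, (starRingEnd ℂ) (V (τ (2 * d) x)) * g (τ (1 * d) x) * g (τ (0 * d) x) ∂μ with hb'
  set c : ℤ → ℂ := fun d => (∫ x, h (τ (0 * d) x) * A.indicator (fun _ => (1 : ℂ)) (τ (1 * d) x)
    * (starRingEnd ℂ) (V (τ (2 * d) x)) ∂μ) with hc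
  set c' : ℤ → ℂ := fun d => ∫ x, h (τ (1 * d) x) * g (τ (0 * d) x)
    * (starRingEnd ℂ) (V (τ (2 * d) x)) ∂μ with hc'
  have hid : ∀ d : ℤ, ∫ x, A.indicator (fun _ => (1 : ℂ)) x
      * A.indicator (fun _ => (1 : ℂ)) (τ d x)
      * (starRingEnd ℂ) (g (τ (2 * d) x) - ∑ κ ∈ F, u κ (τ (2 * d) x)) ∂μ = a d + a2 d + (b' d + (c d + c' d)) := by
    intro d
    have cb : ∀ {f : X → ℂ}, Bd f → Bd (fun x => (starRingEnd ℂ) (f (τ (2 * d) x))) :=
      fun hf => B11_conj _ (S3_bd_comp μ τ hτ _ _ hf)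
    have cc : ∀ (n : ℤ) {f : X → ℂ}, Bd f → Bd (fun x => f (τ n x)) := fun n _ hf => S3_bd_comp μ τ hτ _ _ hf
    have i1 : Integrable (fun x => A.indicator (fun _ => (1 : ℂ)) x * A.indicator (fun _ => (1 : ℂ)) (τ d x)
        * (starRingEnd ℂ) (V1 (τ (2 * d) x))) μ :=
      S3_int μ _ (S3_bd_mul _ _ (S3_bd_mul _ _ hI (cc _ hI)) (cb hV1))
    have i1' : Integrable (fun x => A.indicator (fun _ => (1 : ℂ)) x * A.indicator (fun _ => (1 : ℂ)) (τ d x)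
        * (starRingEnd ℂ) (V2 (τ (2 * d) x))) μ :=
      S3_int μ _ (S3_bd_mul _ _ (S3_bd_mul _ _ hI (cc _ hI)) (cb hV2))
    have i2 : Integrable (fun x => (starRingEnd ℂ) (V (τ (2 * d) x)) * g (τ (1 * d) x) * g (τ (0 * d) x)) μ :=
      S3_int μ _ (S3_bd_mul _ _ (S3_bd_mul _ _ (cb hV) (cc _ hg)) (cc _ hg))
    have i3 : Integrable (fun x => h (τ (0 * d) x) * A.indicator (fun _ => (1 : ℂ)) (τ (1 * d) x)
        * (starRingEnd ℂ) (V (τ (2 * d) x))) μ :=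
      S3_int μ _ (S3_bd_mul _ _ (S3_bd_mul _ _ (cc _ hh) (cc _ hI)) (cb hV))
    have i4 : Integrable (fun x => h (τ (1 * d) x) * g (τ (0 * d) x)
        * (starRingEnd ℂ) (V (τ (2 * d) x))) μ :=
      S3_int μ _ (S3_bd_mul _ _ (S3_bd_mul _ _ (cc _ hh) (cc _ hg)) (cb hV))
    have i12 : Integrable (fun x => A.indicator (fun _ => (1 : ℂ)) x * A.indicator (fun _ => (1 : ℂ)) (τ d x)
        * (starRingEnd ℂ) (V1 (τ (2 * d) x))
        + A.indicator (fun _ => (1 : ℂ)) x * A.indicator (fun _ => (1 : ℂ)) (τ d x)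
        * (starRingEnd ℂ) (V2 (τ (2 * d) x))) μ := i1.add i1'
    have i34 : Integrable (fun x => h (τ (0 * d) x) * A.indicator (fun _ => (1 : ℂ)) (τ (1 * d) x)
        * (starRingEnd ℂ) (V (τ (2 * d) x))
        + h (τ (1 * d) x) * g (τ (0 * d) x) * (starRingEnd ℂ) (V (τ (2 * d) x))) μ := i3.add i4
    have i234 : Integrable (fun x => (starRingEnd ℂ) (V (τ (2 * d) x)) * g (τ (1 * d) x) * g (τ (0 * d) x)
        + (h (τ (0 * d) x) * A.indicator (fun _ => (1 : ℂ)) (τ (1 * d) x)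
        * (starRingEnd ℂ) (V (τ (2 * d) x))
        + h (τ (1 * d) x) * g (τ (0 * d) x) * (starRingEnd ℂ) (V (τ (2 * d) x)))) μ := i2.add i34
    rw [ha, ha2, hb', hc, hc']
    simp only
    rw [← integral_add i1 i1', ← integral_add i3 i4, ← integral_add i2 i34, ← integral_add i12 i234]
    refine integral_congr_ae ?_
    filter_upwards [hf, (hτ.mp d).quasiMeasurePreserving.ae hf] with x hx hy
    have h1 := hsplit (τ (2 * d) x)
    rw [h1, zero_mul, one_mul, hτ.zero, map_add, map_add]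
    linear_combination (A.indicator (fun _ => (1 : ℂ)) (τ d x) * (starRingEnd ℂ) (V (τ (2 * d) x))) * hx
      + (g x * (starRingEnd ℂ) (V (τ (2 * d) x))) * hy
  obtain ⟨s1, s2, s3, s4⟩ := Q7_sing σ E hE hE0 F'' _ hδ
  have hbb := tri_small μ τ hτ he W hW w hw (fun x => (starRingEnd ℂ) (V x)) g g (B11_conj _ hV) hg hg
    ((σ.restrict (F'' : Set Cir)ᶜ).map (fun t => -t)) σ σ
    (sp_conj μ τ hτ V hV _ (eig_sp μ τ hτ g hg σ hσ u hu F'')) hσ hσ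
    ((fun t : Cir => -t) ⁻¹' (E \ {t : Cir | σ {t} ≠ 0})) ∅ s1 MeasurableSet.empty s2 s3
    (by rw [Measure.restrict_empty]; exact Measure.MutuallySingular.zero_left)
    (fun t ht => absurd ht (Set.notMem_empty t)) 2 1 0 (by norm_num) (by norm_num) (by norm_num)
    (ρ ^ 2 / 32) (by positivity)
  have hcc1 : ∀ᶠ j : ℕ in atTop, ‖E2 W j (fun d => (w d : ℂ) * c d)‖ < ρ / 8 := by
    have h1 := (err3 μ τ hτ W hW w hw h (A.indicator (fun _ => (1 : ℂ))) (fun x => (starRingEnd ℂ) (V x)) hh hI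
      (B11_conj _ hV) hm 0 1 2 (by norm_num) (by norm_num) (by norm_num)).1.norm
    rw [norm_zero] at h1
    exact h1.eventually (gt_mem_nhds (by positivity))
  have hcc2 : ∀ᶠ j : ℕ in atTop, ‖E2 W j (fun d => (w d : ℂ) * c' d)‖ < ρ / 8 := by
    have h1 := (err3 μ τ hτ W hW w hw h g (fun x => (starRingEnd ℂ) (V x)) hh hg
      (B11_conj _ hV) hm 1 0 2 (by norm_num) (by norm_num) (by norm_num)).1.norm
    rw [norm_zero] at h1
    exact h1.eventually (gt_mem_nhds (by positivity))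
  have haa := e2small μ τ hτ he W hW L b w hb hb1 hwb hw (A.indicator (fun _ => (1 : ℂ))) g h hI hg hh hf hm σ hσ u hu
    (fun F => mass_le μ τ hτ A hA g h hg hh hf hm σ hσ u hu F)
    (F'' \ F') θ hθ (fun κ hκ => hD κ (Finset.mem_sdiff.mp hκ).2) (ρ / 4) (by positivity)
  filter_upwards [hbb, hcc1, hcc2, haa] with j hj1 hj2 hj3 hj4
  rw [Q6_E2 W j w _ a a2 b' (fun d => c d + c' d) hid]
  have ta : ‖E2 W j (fun d => (w d : ℂ) * a d)‖ ≤ ε * R2 W j w := by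
    refine Q6_const hW.1 j w (fun d => (hw d).1) a ε fun d => ?_
    have h1 : ∫ x, ‖A.indicator (fun _ => (1 : ℂ)) (τ d x)‖ ^ 2 ∂μ ≤ 1 ^ 2 := by
      rw [one_pow]
      exact (Q6_cvsq hτ hI d).trans_le (Q6_one hA)
    have := Q6_ind (μ := μ) hA (S3_bd_comp μ τ hτ d _ hI) (S3_bd_comp μ τ hτ (2 * d) _ hV1) 1 ε zero_le_one hε.le
      h1 ((Q6_cvsq hτ hV1 (2 * d)).trans_le hV1n)
    rwa [one_mul] at this
  have ta2 : ‖E2 W j (fun d => (w d : ℂ) * a2 d)‖ ≤ Real.sqrt (2 * θ) + ρ / 4 := hj4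
  have tb : ‖E2 W j (fun d => (w d : ℂ) * b' d)‖ ≤ M * Real.sqrt ((σ Eᶜ).toReal) + ρ / 4 := by
    have h0 : M * Real.sqrt ((σ Eᶜ).toReal) = Real.sqrt (M ^ 2 * (σ Eᶜ).toReal) := by
      rw [Real.sqrt_mul (sq_nonneg M), Real.sqrt_sq hM0]
    rw [h0]
    refine Q6_num (M ^ 2) ρ ((σ Eᶜ).toReal) _ _ (sq_nonneg M) hρ ENNReal.toReal_nonneg le_rfl (hj1.trans ?_)
    have h1 : (∫ x, ‖g x‖ ^ 2 ∂μ) ≤ M := by
      rw [← sp_mass μ τ hτ g hg σ hσ]
      exact hM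
    have h2 : (σ (∅ : Set Cir)ᶜ).toReal ≤ M := by
      rw [Set.compl_empty]
      exact hM
    have h3 : (∫ x, ‖g x‖ ^ 2 ∂μ) *
        (((σ.restrict (F'' : Set Cir)ᶜ).map (fun t => -t))
          ((fun t : Cir => -t) ⁻¹' (E \ {t : Cir | σ {t} ≠ 0}))ᶜ).toReal ≤
        M * ((σ Eᶜ).toReal + ρ ^ 2 / (32 * (M ^ 2 + 1))) :=
      mul_le_mul h1 s4 ENNReal.toReal_nonneg hM0
    have h4 : (∫ x, ‖g x‖ ^ 2 ∂μ) *
        (((σ.restrict (F'' : Set Cir)ᶜ).map (fun t => -t))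
          ((fun t : Cir => -t) ⁻¹' (E \ {t : Cir | σ {t} ≠ 0}))ᶜ).toReal * (σ (∅ : Set Cir)ᶜ).toReal ≤
        (M * ((σ Eᶜ).toReal + ρ ^ 2 / (32 * (M ^ 2 + 1)))) * M :=
      mul_le_mul h3 h2 ENNReal.toReal_nonneg (by positivity)
    nlinarith
  have n0 : E2 W j (fun d => (w d : ℂ) * (c d + c' d)) = E2 W j (fun d => (w d : ℂ) * c d) +
      E2 W j (fun d => (w d : ℂ) * c' d) := by
    rw [← E2_add]
    congr 1
    funext d
    ring
  rw [n0]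
  have n1 := norm_add_le (E2 W j (fun d => (w d : ℂ) * a d) + E2 W j (fun d => (w d : ℂ) * a2 d))
    (E2 W j (fun d => (w d : ℂ) * b' d) + (E2 W j (fun d => (w d : ℂ) * c d) + E2 W j (fun d => (w d : ℂ) * c' d)))
  have n2 := norm_add_le (E2 W j (fun d => (w d : ℂ) * a d)) (E2 W j (fun d => (w d : ℂ) * a2 d))
  have n3 := norm_add_le (E2 W j (fun d => (w d : ℂ) * b' d))
    (E2 W j (fun d => (w d : ℂ) * c d) + E2 W j (fun d => (w d : ℂ) * c' d))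
  have n4 := norm_add_le (E2 W j (fun d => (w d : ℂ) * c d)) (E2 W j (fun d => (w d : ℂ) * c' d))
  linarith

end Pool.Agent.Sgs
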