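import Pool.Agent.Sgs.ThmA

/-!
# Theorem A+: products `Z × Y`, `Z` with discrete spectrum (or arbitrary), `Y` in the class of Theorem A

TEXT.  `Y` in the class `Cls` (so weakly mixing).  (1) For arbitrary weights `0 ≤ w ≤ 1`:
`E2 W j (w (∫ ∏ F_i∘τ(i d) - ∏ ∫ F_i)) → 0` (`fullW`).  Two functions: if `G` has an atomless spectral measure `σ`, then
`‖E2 W j (w(d) G∘τ(m d))‖₂² ≤ R2⊗R2 |σ^(m(d-d'))|`, and by Cauchy-Schwarz
`(R2⊗R2 |σ^(m(d-d'))|)² ≤ (R2 1)² ∬ |E2 W j (e(m d (t-t')))|² dσ dσ → σ×σ {m(t-t') = 0} = 0` (`freqw`, uniformly in `w`).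
More functions: `three` is stated for arbitrary `w`, its hypotheses are the statements without `w`.
(2) Let `Z` be an arbitrary system, `A ⊆ Z × Y`.  For a finite disjoint union of rectangles `P_k × Q_k`,
`μ(⋂ T^(-id) A) = ∑_(k_0..k_r) ζ(⋂ R^(-id) P_(k_i)) ν(⋂ S^(-id) Q_(k_i))`; the first factor is a weight in `[0,1]`, so by (1)
`ν(..)` may be replaced by `∏ ν(Q_(k_i))` under `E2 W j (w ..)`: the average of
`w(d) (μ(⋂ T^(-id) A) - ∫ ∏_i F(R^(id) z) dζ(z))`, `F(z) = ν(A_z)`, tends to zero (`prodW`); arbitrary `A` by approximation.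
(3) If `Z` has discrete spectrum: `‖F∘R^(id) - F‖₁` is small for `d` in a Bohr set, so with the weights of `wts` the average
of `∫ ∏_i F∘R^(id)` is at least `(∫ F^(r+1) - ε) ≥ (∫ F)^(r+1) - ε` times the average of `w`.
-/

set_option autoImplicit false

namespace Pool.Agent.Sgs

open MeasureTheory Filter Finset
open scoped Topology ENNReal

/-! ## module W1: pairs with arbitrary weights -/

private noncomputable def W1_n (p : ℕ × Bool) : ℤ := if p.2 then (p.1 : ℤ) else -(p.1 : ℤ)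

private theorem W1_rep (W : ℕ → ℝ) (j : ℕ) (a : ℤ → ℂ) :
    E2 W j a = ∑ p ∈ Icc ((2 : ℕ) ^ j) (4 ^ j) ×ˢ (univ : Finset Bool),
      ((W p.1 / (2 * j * Real.log 2) : ℝ) : ℂ) * a (W1_n p) := by
  unfold E2
  rw [Finset.sum_product, Finset.sum_div]
  apply Finset.sum_congr rfl
  intro d _
  rw [Fintype.sum_bool]
  simp only [W1_n, if_true, Bool.false_eq_true, if_false]
  push_cast
  ring

private theorem W1_repR (W : ℕ → ℝ) (j : ℕ) (a : ℤ → ℝ) :
    R2 W j a = ∑ p ∈ Icc ((2 : ℕ) ^ j) (4 ^ j) ×ˢ (univ : Finset Bool),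
      (W p.1 / (2 * j * Real.log 2)) * a (W1_n p) := by
  unfold R2
  rw [Finset.sum_product, Finset.sum_div]
  apply Finset.sum_congr rfl
  intro d _
  rw [Fintype.sum_bool]
  simp only [W1_n, if_true, Bool.false_eq_true, if_false]
  ring

private theorem W1_sq {a b : ℝ} (h : a ^ 2 ≤ b ^ 2) (hb : 0 ≤ b) : a ≤ b := by
  by_contra hc
  push Not at hc
  nlinarith

private theorem W1_exp {Y : Type} [MeasurableSpace Y] (ν : Measure Y) [IsFiniteMeasure ν] {ι : Type} (s : Finset ι)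
    (K : ι → Y → ℂ) (hK : ∀ i, Bd (K i)) :
    ((∫ y, ‖∑ i ∈ s, K i y‖ ^ 2 ∂ν : ℝ) : ℂ)
      = ∑ i ∈ s, ∑ i' ∈ s, ∫ y, K i y * (starRingEnd ℂ) (K i' y) ∂ν := by
  have e0 : ((∫ y, ‖∑ i ∈ s, K i y‖ ^ 2 ∂ν : ℝ) : ℂ) = ∫ y, ((‖∑ i ∈ s, K i y‖ ^ 2 : ℝ) : ℂ) ∂ν :=
    (integral_complex_ofReal (f := fun y => ‖∑ i ∈ s, K i y‖ ^ 2)).symm
  rw [e0]
  have e1 : (fun y => ((‖∑ i ∈ s, K i y‖ ^ 2 : ℝ) : ℂ)) = fun y => ∑ i ∈ s, ∑ i' ∈ s, K i y * (starRingEnd ℂ) (K i' y) := by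
    funext y
    push_cast
    rw [← Complex.mul_conj', map_sum, Finset.sum_mul_sum]
  have hi : ∀ i i', Integrable (fun y => K i y * (starRingEnd ℂ) (K i' y)) ν := fun i i' =>
    S3_int ν _ (S3_bd_mul _ _ (hK i) (B11_conj _ (hK i')))
  have e2 : ∫ y, ((‖∑ i ∈ s, K i y‖ ^ 2 : ℝ) : ℂ) ∂ν = ∫ y, ∑ i ∈ s, ∑ i' ∈ s, K i y * (starRingEnd ℂ) (K i' y) ∂ν := by
    rw [e1]
  refine e2.trans ?_
  rw [integral_finsetSum _ (fun i _ => integrable_finsetSum _ fun i' _ => hi i i')]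
  apply Finset.sum_congr rfl
  intro i _
  rw [integral_finsetSum _ (fun i' _ => hi i i')]

private theorem W1_cs {X : Type} [MeasurableSpace X] (μ : Measure X) [IsFiniteMeasure μ] (K H : X → ℂ)
    (hK : Bd K) (hH : Bd H) :
    ‖∫ x, K x * H x ∂μ‖ ^ 2 ≤ (∫ x, ‖K x‖ ^ 2 ∂μ) * ∫ x, ‖H x‖ ^ 2 ∂μ := by
  obtain ⟨A, hA⟩ := hK.2
  obtain ⟨B, hB⟩ := hH.2
  have hbd : ∀ g : X → ℝ, Measurable g → (∃ C : ℝ, ∀ x, ‖g x‖ ≤ C) → Integrable g μ := by
    intro g hg ⟨C, hC⟩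
    exact Integrable.of_bound hg.aestronglyMeasurable C (ae_of_all _ hC)
  have i1 : Integrable (fun x => ‖K x‖ ^ 2) μ := by
    refine hbd _ (hK.1.norm.pow_const 2) ⟨A ^ 2, fun x => ?_⟩
    rw [Real.norm_eq_abs, abs_of_nonneg (by positivity)]
    exact pow_le_pow_left₀ (norm_nonneg _) (hA x) 2
  have i2 : Integrable (fun x => ‖H x‖ ^ 2) μ := by
    refine hbd _ (hH.1.norm.pow_const 2) ⟨B ^ 2, fun x => ?_⟩
    rw [Real.norm_eq_abs, abs_of_nonneg (by positivity)]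
    exact pow_le_pow_left₀ (norm_nonneg _) (hB x) 2
  have i3 : Integrable (fun x => ‖K x‖ * ‖H x‖) μ := by
    refine hbd _ (hK.1.norm.mul hH.1.norm) ⟨A * B, fun x => ?_⟩
    rw [Real.norm_eq_abs, abs_of_nonneg (by positivity)]
    exact mul_le_mul (hA x) (hB x) (norm_nonneg _) (le_trans (norm_nonneg _) (hA x))
  have h1 : ‖∫ x, K x * H x ∂μ‖ ≤ ∫ x, ‖K x‖ * ‖H x‖ ∂μ := by
    refine (norm_integral_le_integral_norm _).trans (le_of_eq ?_)
    congr 1
    funext x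
    rw [norm_mul]
  have h2 : (∫ x, ‖K x‖ * ‖H x‖ ∂μ) ^ 2 ≤ (∫ x, ‖K x‖ ^ 2 ∂μ) * ∫ x, ‖H x‖ ^ 2 ∂μ := by
    have h4 : ∀ l : ℝ, 0 ≤ (∫ x, ‖K x‖ ^ 2 ∂μ) * (l * l) + 2 * (∫ x, ‖K x‖ * ‖H x‖ ∂μ) * l
        + ∫ x, ‖H x‖ ^ 2 ∂μ := by
      intro l
      have h3 : 0 ≤ ∫ x, (l * ‖K x‖ + ‖H x‖) ^ 2 ∂μ := integral_nonneg fun x => sq_nonneg _
      have e : ∫ x, (l * ‖K x‖ + ‖H x‖) ^ 2 ∂μ
          = (l * l) * (∫ x, ‖K x‖ ^ 2 ∂μ) + (2 * l) * (∫ x, ‖K x‖ * ‖H x‖ ∂μ) + ∫ x, ‖H x‖ ^ 2 ∂μ := by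
        have i4 : Integrable (fun x => (l * l) * ‖K x‖ ^ 2 + (2 * l) * (‖K x‖ * ‖H x‖)) μ :=
          (i1.const_mul _).add (i3.const_mul _)
        rw [← integral_const_mul, ← integral_const_mul, ← integral_add (i1.const_mul _) (i3.const_mul _),
          ← integral_add i4 i2]
        congr 1
        funext x
        ring
      rw [e] at h3
      linarith
    have := discrim_le_zero (a := ∫ x, ‖K x‖ ^ 2 ∂μ) (b := 2 * (∫ x, ‖K x‖ * ‖H x‖ ∂μ))
      (c := ∫ x, ‖H x‖ ^ 2 ∂μ) (fun l => h4 l)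
    unfold discrim at this
    nlinarith
  exact (pow_le_pow_left₀ (norm_nonneg _) h1 2).trans h2

private theorem W1_torsion (m : ℤ) (hm : m ≠ 0) : {t : Cir | m • t = 0}.Finite := by
  have hk : 0 < m.natAbs := by omega
  refine (AddCircle.finite_torsion (1 : ℝ) hk).subset fun t ht => ?_
  have h3 : m • t = 0 := ht
  change m.natAbs • t = 0
  rcases Int.natAbs_eq m with h5 | h5
  · rw [h5] at h3
    rw [← natCast_zsmul]
    exact h3
  · rw [h5, neg_smul, neg_eq_zero] at h3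
    rw [← natCast_zsmul]
    exact h3

private theorem W1_diag (σ : Measure Cir) [IsFiniteMeasure σ] (ha : ∀ t, σ {t} = 0) (m : ℤ) (hm : m ≠ 0) :
    (σ.prod σ) {z : Cir × Cir | m • (z.1 - z.2) = 0} = 0 := by
  have hcont : Continuous fun z : Cir × Cir => m • (z.1 - z.2) := (continuous_fst.sub continuous_snd).zsmul m
  have hset : MeasurableSet {z : Cir × Cir | m • (z.1 - z.2) = 0} :=
    measurableSet_eq_fun hcont.measurable measurable_const
  rw [Measure.prod_apply hset]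
  have h1 : ∀ t : Cir, σ (Prod.mk t ⁻¹' {z : Cir × Cir | m • (z.1 - z.2) = 0}) = 0 := by
    intro t
    have : NullSingletonClass σ := ⟨ha⟩
    have h2 : (Prod.mk t ⁻¹' {z : Cir × Cir | m • (z.1 - z.2) = 0}).Finite := by
      refine ((W1_torsion m hm).image (fun u => t - u)).subset fun u hu => ?_
      have hu' : m • (t - u) = 0 := hu
      exact ⟨t - u, hu', sub_sub_cancel t u⟩
    exact h2.measure_zero σ
  simp only [h1, lintegral_zero]

private theorem W1_lim (W : ℕ → ℝ) (h : GW W) (σ : Measure Cir) [IsFiniteMeasure σ] (ha : ∀ t, σ {t} = 0) (m : ℤ)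
    (hm : m ≠ 0) :
    Tendsto (fun j : ℕ => ∫ z, ‖E2 W j (fun d => fourier d (m • (z.1 - z.2)))‖ ^ 2 ∂(σ.prod σ)) atTop (𝓝 0) := by
  have hcont : Continuous fun z : Cir × Cir => m • (z.1 - z.2) := (continuous_fst.sub continuous_snd).zsmul m
  have hmass := mass W h
  have hm2 : ∀ᶠ j : ℕ in atTop, R2 W j (fun _ => 1) ≤ 2 := hmass.eventually_le_const (by norm_num)
  have h0 : ∀ᵐ z ∂(σ.prod σ), m • (z.1 - z.2) ≠ 0 := by
    rw [ae_iff]
    simp only [ne_eq, not_not]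
    exact W1_diag σ ha m hm
  have hz : ∫ z, (fun _ : Cir × Cir => (0 : ℝ)) z ∂(σ.prod σ) = 0 := by simp
  rw [← hz]
  refine tendsto_integral_filter_of_dominated_convergence (fun _ => (4 : ℝ)) ?_ ?_ (integrable_const _) ?_
  · refine Eventually.of_forall fun j => ?_
    simp only [W1_rep]
    refine Measurable.aestronglyMeasurable (Measurable.pow_const (Measurable.norm ?_) 2)
    refine Finset.measurable_sum _ fun p _ => ?_
    exact ((fourier (W1_n p)).continuous.comp hcont).measurable.const_mul _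
  · filter_upwards [hm2] with j hj
    refine ae_of_all _ fun z => ?_
    have h1 : ‖E2 W j (fun d => fourier d (m • (z.1 - z.2)))‖ ≤ R2 W j (fun _ => 1) := by
      refine (E2_norm_le W h.1 j _).trans (R2_mono W h.1 j _ _ fun d => ?_)
      rw [fourier_apply]
      exact (Circle.norm_coe _).le
    rw [Real.norm_eq_abs, abs_of_nonneg (by positivity)]
    nlinarith [norm_nonneg (E2 W j (fun d => fourier d (m • (z.1 - z.2))))]
  · filter_upwards [h0] with z hz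
    have h1 := ((freq W h (m • (z.1 - z.2))).norm.pow 2)
    rw [if_neg hz] at h1
    simpa using h1

theorem freqw {X : Type} [MeasurableSpace X] (μ : Measure X) [IsProbabilityMeasure μ] (τ : ℤ → X → X)
    (hτ : Sys μ τ) (W : ℕ → ℝ) (h : GW W) (G : X → ℂ) (hG : Bd G) (σ : Measure Cir) (hσ : Sp μ τ G σ)
    (ha : ∀ t, σ {t} = 0) (m : ℤ) (hm : m ≠ 0) (ε : ℝ) (hε : 0 < ε) :
    ∀ᶠ j : ℕ in atTop, ∀ w : ℤ → ℝ, (∀ d, 0 ≤ w d ∧ w d ≤ 1) → ∀ F : X → ℂ, Bd F →
      ‖E2 W j (fun d => (w d : ℂ) * ∫ x, F x * G (τ (m * d) x) ∂μ)‖ ^ 2 ≤ (∫ x, ‖F x‖ ^ 2 ∂μ) * ε := by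

  have hfin := hσ.1
  have hmass := mass W h
  have hm2 : ∀ᶠ j : ℕ in atTop, R2 W j (fun _ => 1) ≤ 2 := hmass.eventually_le_const (by norm_num)
  have hlim := W1_lim W h σ ha m hm
  have hI : ∀ᶠ j : ℕ in atTop,
      ∫ z, ‖E2 W j (fun d => fourier d (m • (z.1 - z.2)))‖ ^ 2 ∂(σ.prod σ) ≤ (ε / 2) ^ 2 :=
    hlim.eventually_le_const (by positivity)
  filter_upwards [hm2, hI, eventually_ge_atTop 1] with j hj hj2 hj1 w hw F hF
  have hden : (0 : ℝ) ≤ 2 * j * Real.log 2 := by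
    have := Real.log_nonneg (show (1 : ℝ) ≤ 2 by norm_num)
    positivity
  set S := Icc ((2 : ℕ) ^ j) (4 ^ j) ×ˢ (univ : Finset Bool) with hS
  set c : ℕ × Bool → ℝ := fun p => W p.1 / (2 * j * Real.log 2) with hcdef
  have hc0 : ∀ p, 0 ≤ c p := fun p => div_nonneg (h.1 _) hden
  have hGp : ∀ p : ℕ × Bool, Bd (fun x => ((w (W1_n p) : ℝ) : ℂ) * G (τ (m * W1_n p) x)) := fun p =>
    S3_bd_mul _ _ (S3_bd_const _) (S3_bd_comp μ τ hτ _ G hG)
  have hcG : ∀ p : ℕ × Bool, Bd (fun x => ((c p : ℝ) : ℂ) * (((w (W1_n p) : ℝ) : ℂ) * G (τ (m * W1_n p) x))) :=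
    fun p => S3_bd_mul _ _ (S3_bd_const _) (hGp p)
  have hΨ : Bd (fun x => ∑ p ∈ S, ((c p : ℝ) : ℂ) * (((w (W1_n p) : ℝ) : ℂ) * G (τ (m * W1_n p) x))) :=
    S3_bd_sum S _ fun p _ => hcG p
  have e : E2 W j (fun d => (w d : ℂ) * ∫ x, F x * G (τ (m * d) x) ∂μ)
      = ∫ x, F x * ∑ p ∈ S, ((c p : ℝ) : ℂ) * (((w (W1_n p) : ℝ) : ℂ) * G (τ (m * W1_n p) x)) ∂μ := by
    rw [W1_rep]
    have e1 : (fun x => F x * ∑ p ∈ S, ((c p : ℝ) : ℂ) * (((w (W1_n p) : ℝ) : ℂ) * G (τ (m * W1_n p) x)))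
        = fun x => ∑ p ∈ S, (((c p : ℝ) : ℂ) * ((w (W1_n p) : ℝ) : ℂ)) * (F x * G (τ (m * W1_n p) x)) := by
      funext x
      rw [Finset.mul_sum]
      apply Finset.sum_congr rfl
      intro p _
      ring
    rw [e1, integral_finsetSum _ (fun p _ => (S3_int μ _ (S3_bd_mul _ _ hF (S3_bd_comp μ τ hτ _ G hG))).const_mul _)]
    apply Finset.sum_congr rfl
    intro p _
    rw [integral_const_mul]
    ring
  rw [e]
  refine (W1_cs μ F _ hF hΨ).trans ?_
  refine mul_le_mul_of_nonneg_left ?_ (integral_nonneg fun x => by positivity)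
  -- the norm of the average
  set s : ℕ × Bool → ℕ × Bool → ℝ := fun p q => ‖∫ t, fourier (m * W1_n p - m * W1_n q) t ∂σ‖ with hs
  set Q : ℝ := ∑ p ∈ S, ∑ q ∈ S, (c p * c q) * s p q with hQ
  have hQ0 : 0 ≤ Q := Finset.sum_nonneg fun p _ => Finset.sum_nonneg fun q _ =>
    mul_nonneg (mul_nonneg (hc0 p) (hc0 q)) (norm_nonneg _)
  have step1 : ∫ x, ‖∑ p ∈ S, ((c p : ℝ) : ℂ) * (((w (W1_n p) : ℝ) : ℂ) * G (τ (m * W1_n p) x))‖ ^ 2 ∂μ ≤ Q := by
    have h1 := W1_exp μ S (fun p x => ((c p : ℝ) : ℂ) * (((w (W1_n p) : ℝ) : ℂ) * G (τ (m * W1_n p) x))) hcG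
    have h2 : ∀ p q, ∫ x, (((c p : ℝ) : ℂ) * (((w (W1_n p) : ℝ) : ℂ) * G (τ (m * W1_n p) x)))
        * (starRingEnd ℂ) (((c q : ℝ) : ℂ) * (((w (W1_n q) : ℝ) : ℂ) * G (τ (m * W1_n q) x))) ∂μ
        = (((c p * c q) * (w (W1_n p) * w (W1_n q)) : ℝ) : ℂ) * ∫ t, fourier (m * W1_n p - m * W1_n q) t ∂σ := by
      intro p q
      rw [← sp_translate μ τ hτ G hG σ hσ (m * W1_n p) (m * W1_n q), ← integral_const_mul]
      congr 1
      funext x
      rw [map_mul, map_mul, Complex.conj_ofReal, Complex.conj_ofReal]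
      push_cast
      ring
    have h3 : (∫ x, ‖∑ p ∈ S, ((c p : ℝ) : ℂ) * (((w (W1_n p) : ℝ) : ℂ) * G (τ (m * W1_n p) x))‖ ^ 2 ∂μ)
        = ‖((∫ x, ‖∑ p ∈ S, ((c p : ℝ) : ℂ) * (((w (W1_n p) : ℝ) : ℂ) * G (τ (m * W1_n p) x))‖ ^ 2 ∂μ : ℝ) : ℂ)‖ := by
      rw [Complex.norm_real, Real.norm_eq_abs, abs_of_nonneg (integral_nonneg fun x => by positivity)]
    rw [h3, h1]
    refine (norm_sum_le _ _).trans (Finset.sum_le_sum fun p _ => (norm_sum_le _ _).trans
      (Finset.sum_le_sum fun q _ => ?_))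
    rw [h2, norm_mul, Complex.norm_real, Real.norm_eq_abs, abs_of_nonneg (mul_nonneg (mul_nonneg (hc0 p) (hc0 q))
      (mul_nonneg (hw _).1 (hw _).1))]
    refine mul_le_mul_of_nonneg_right ?_ (norm_nonneg _)
    have h4 : w (W1_n p) * w (W1_n q) ≤ 1 := mul_le_one₀ (hw _).2 (hw _).1 (hw _).2
    have h5 := mul_le_mul_of_nonneg_left h4 (mul_nonneg (hc0 p) (hc0 q))
    rw [mul_one] at h5
    exact h5
  have hcsum : ∑ p ∈ S, c p = R2 W j (fun _ => 1) := by
    rw [W1_repR]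
    apply Finset.sum_congr rfl
    intro p _
    rw [mul_one]
  have step2 : Q ^ 2 ≤ (R2 W j (fun _ => 1)) ^ 2 * ∑ p ∈ S, ∑ q ∈ S, (c p * c q) * s p q ^ 2 := by
    have h1 := Finset.sum_mul_sq_le_sq_mul_sq (S ×ˢ S) (fun z => Real.sqrt (c z.1 * c z.2))
      (fun z => Real.sqrt (c z.1 * c z.2) * s z.1 z.2)
    have h2 : ∀ z : (ℕ × Bool) × (ℕ × Bool), Real.sqrt (c z.1 * c z.2) * (Real.sqrt (c z.1 * c z.2) * s z.1 z.2)
        = (c z.1 * c z.2) * s z.1 z.2 := by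
      intro z
      rw [← mul_assoc, Real.mul_self_sqrt (mul_nonneg (hc0 _) (hc0 _))]
    have h3 : ∀ z : (ℕ × Bool) × (ℕ × Bool), Real.sqrt (c z.1 * c z.2) ^ 2 = c z.1 * c z.2 := by
      intro z
      rw [Real.sq_sqrt (mul_nonneg (hc0 _) (hc0 _))]
    have h4 : ∀ z : (ℕ × Bool) × (ℕ × Bool), (Real.sqrt (c z.1 * c z.2) * s z.1 z.2) ^ 2
        = (c z.1 * c z.2) * s z.1 z.2 ^ 2 := by
      intro z
      rw [mul_pow, h3]
    simp only [h2, h3, h4] at h1
    have hp : ∀ f : (ℕ × Bool) × (ℕ × Bool) → ℝ, ∑ z ∈ S ×ˢ S, f z = ∑ p ∈ S, ∑ q ∈ S, f (p, q) :=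
      fun f => Finset.sum_product S S f
    rw [hp, hp, hp] at h1
    refine h1.trans (le_of_eq ?_)
    congr 1
    rw [← hcsum, pow_two, Finset.sum_mul_sum]
  have step3 : ∑ p ∈ S, ∑ q ∈ S, (c p * c q) * s p q ^ 2
      = ∫ z, ‖E2 W j (fun d => fourier d (m • (z.1 - z.2)))‖ ^ 2 ∂(σ.prod σ) := by
    apply Complex.ofReal_injective
    have hcont : Continuous fun z : Cir × Cir => m • (z.1 - z.2) := (continuous_fst.sub continuous_snd).zsmul m
    have hfb : ∀ p : ℕ × Bool, Bd (fun z : Cir × Cir => ((c p : ℝ) : ℂ) * (fourier (W1_n p) (m • (z.1 - z.2)) : ℂ)) :=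
      fun p => S3_bd_mul _ _ (S3_bd_const _) ⟨((fourier (W1_n p)).continuous.comp hcont).measurable, 1, fun z => by
        show ‖(fourier (W1_n p) (m • (z.1 - z.2)) : ℂ)‖ ≤ 1
        rw [fourier_apply]; exact (Circle.norm_coe _).le⟩
    have h1 := W1_exp (σ.prod σ) S (fun p z => ((c p : ℝ) : ℂ) * (fourier (W1_n p) (m • (z.1 - z.2)) : ℂ)) hfb
    have h0 : ∀ z : Cir × Cir, E2 W j (fun d => fourier d (m • (z.1 - z.2)))
        = ∑ p ∈ S, ((c p : ℝ) : ℂ) * (fourier (W1_n p) (m • (z.1 - z.2)) : ℂ) := fun z => W1_rep W j _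
    simp only [h0]
    rw [h1]
    push_cast
    apply Finset.sum_congr rfl
    intro p _
    apply Finset.sum_congr rfl
    intro q _
    have h2 : ((s p q : ℝ) : ℂ) ^ 2 = (∫ t, fourier (m * W1_n p - m * W1_n q) t ∂σ) *
        ∫ t, (starRingEnd ℂ) (fourier (m * W1_n p - m * W1_n q) t) ∂σ := by
      rw [integral_conj, hs]
      exact (Complex.mul_conj' _).symm
    rw [h2, ← integral_prod_mul, ← integral_const_mul]
    congr 1
    funext z
    have h3 : (fourier (W1_n p) (m • (z.1 - z.2)) : ℂ) * (starRingEnd ℂ) (fourier (W1_n q) (m • (z.1 - z.2)) : ℂ)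
        = fourier (m * W1_n p - m * W1_n q) z.1 * (starRingEnd ℂ) (fourier (m * W1_n p - m * W1_n q) z.2 : ℂ) := by
      rw [← fourier_neg, ← fourier_neg, ← fourier_add]
      simp only [fourier_apply]
      rw [← Circle.coe_mul, ← AddCircle.toCircle_add]
      congr 2
      rw [smul_smul, smul_sub]
      have h4 : (m * W1_n p - m * W1_n q) • z.1 + (-(m * W1_n p - m * W1_n q)) • z.2
          = (m * W1_n p - m * W1_n q) • z.1 - (m * W1_n p - m * W1_n q) • z.2 := by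
        rw [neg_smul]
        exact (sub_eq_add_neg _ _).symm
      rw [h4]
      congr 1
      · congr 1; ring
      · congr 1; ring
    rw [map_mul, Complex.conj_ofReal, ← h3]
    ring
  rw [step3] at step2
  have hR0 : 0 ≤ R2 W j (fun _ => 1) := R2_nonneg W h.1 j _ fun _ => zero_le_one
  have hI0 : 0 ≤ ∫ z, ‖E2 W j (fun d => fourier d (m • (z.1 - z.2)))‖ ^ 2 ∂(σ.prod σ) :=
    integral_nonneg fun z => by positivity
  have step4 : Q ^ 2 ≤ ε ^ 2 := by
    refine step2.trans ?_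
    calc (R2 W j (fun _ => 1)) ^ 2 * ∫ z, ‖E2 W j (fun d => fourier d (m • (z.1 - z.2)))‖ ^ 2 ∂(σ.prod σ)
        ≤ 2 ^ 2 * (ε / 2) ^ 2 := mul_le_mul (pow_le_pow_left₀ hR0 hj 2) hj2 hI0 (by norm_num)
      _ = ε ^ 2 := by ring
  exact step1.trans (W1_sq step4 hε.le)

/-- The convergence statement for `n` different multipliers, with arbitrary weights. -/
def FullW {X : Type} [MeasurableSpace X] (μ : Measure X) (τ : ℤ → X → X) (W : ℕ → ℝ) (n : ℕ) : Prop :=
  ∀ I : Finset ℤ, I.card = n → ∀ F : ℤ → X → ℂ, (∀ i, Bd (F i)) → ∀ w : ℤ → ℝ, (∀ d, 0 ≤ w d ∧ w d ≤ 1) →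
    Tendsto (fun j : ℕ => E2 W j (fun d => (w d : ℂ) * ((∫ x, ∏ i ∈ I, F i (τ (i * d) x) ∂μ)
      - ∏ i ∈ I, ∫ x, F i x ∂μ))) atTop (𝓝 0)

/-! ## module W2: one singular slot, with weights (adapt `slot`) -/

private theorem W2TA0_int {X : Type} [MeasurableSpace X] (μ : Measure X) [IsProbabilityMeasure μ] (τ : ℤ → X → X)
    (hτ : Sys μ τ) (f : X → ℂ) (hf : Measurable f) (n : ℤ) : ∫ x, f (τ n x) ∂μ = ∫ x, f x ∂μ := by
  have h1 := (hτ.mp n).map_eq
  have h2 : ∫ x, f x ∂(Measure.map (τ n) μ) = ∫ x, f (τ n x) ∂μ :=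
    integral_map (hτ.mp n).measurable.aemeasurable hf.aestronglyMeasurable
  rw [← h2, h1]

private theorem W2TA1_prod {X : Type} [MeasurableSpace X] (μ : Measure X) (τ : ℤ → X → X) (hτ : Sys μ τ)
    (I : Finset ℤ) (F : ℤ → X → ℂ) (hF : ∀ i, Bd (F i)) (n : ℤ → ℤ) :
    Bd (fun x => ∏ i ∈ I, F i (τ (n i) x)) := by
  refine ⟨Finset.measurable_prod _ fun i _ => (hF i).1.comp (hτ.mp (n i)).measurable, ?_⟩
  have h1 : ∀ i, ∃ C : ℝ, ∀ x, ‖F i x‖ ≤ C := fun i => (hF i).2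
  choose C hC using h1
  refine ⟨∏ i ∈ I, C i, fun x => ?_⟩
  rw [norm_prod]
  exact Finset.prod_le_prod (fun i _ => norm_nonneg _) fun i _ => hC i _

private theorem W2TA1_int {X : Type} [MeasurableSpace X] (μ : Measure X) [IsProbabilityMeasure μ] {f : X → ℂ}
    (hf : Bd f) : Integrable f μ := by
  obtain ⟨h1, C, h2⟩ := hf
  exact Integrable.of_bound h1.aestronglyMeasurable C (Filter.Eventually.of_forall h2)

private theorem W2TA1_mul {X : Type} [MeasurableSpace X] {f g : X → ℂ} (hf : Bd f) (hg : Bd g) :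
    Bd (fun x => f x * g x) := by
  obtain ⟨h1, C, h2⟩ := hf
  obtain ⟨h3, D, h4⟩ := hg
  refine ⟨h1.mul h3, C * D, fun x => ?_⟩
  rw [norm_mul]
  exact mul_le_mul (h2 x) (h4 x) (norm_nonneg _) ((norm_nonneg _).trans (h2 x))

private theorem W2TA1_comp {X : Type} [MeasurableSpace X] (μ : Measure X) (τ : ℤ → X → X) (hτ : Sys μ τ)
    {f : X → ℂ} (hf : Bd f) (n : ℤ) : Bd (fun x => f (τ n x)) := by
  obtain ⟨h1, C, h2⟩ := hf
  exact ⟨h1.comp (hτ.mp n).measurable, C, fun x => h2 _⟩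

private theorem W2TA3_conj {X : Type} [MeasurableSpace X] {f : X → ℂ} (hf : Bd f) :
    Bd (fun x => (starRingEnd ℂ) (f x)) := by
  obtain ⟨h1, C, h2⟩ := hf
  refine ⟨Complex.continuous_conj.measurable.comp h1, C, fun x => ?_⟩
  change ‖(starRingEnd ℂ) (f x)‖ ≤ C
  rw [RCLike.norm_conj]
  exact h2 x

open Classical in
private theorem W2TA3_quad {X : Type} [MeasurableSpace X] (μ : Measure X) [IsProbabilityMeasure μ] (τ : ℤ → X → X)
    (hτ : Sys μ τ) (W : ℕ → ℝ) (A C : Finset ℤ) (hAC : Disjoint A C) (hfull : Full μ τ W (A ∪ C).card)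
    (F : ℤ → X → ℂ) (hF : ∀ i, Bd (F i)) (σ : ℤ → Measure Cir) (hσ : ∀ i, Sp μ τ (F i) (σ i))
    (ρ ρ' : Measure Cir) [IsFiniteMeasure ρ] [IsFiniteMeasure ρ']
    (hρ : ∀ n : ℤ, ∫ t, fourier n t ∂ρ = ∏ i ∈ A, ∫ t, fourier n t ∂(σ i))
    (hρ' : ∀ n : ℤ, ∫ t, fourier n t ∂ρ' = ∏ i ∈ C, ∫ t, fourier n t ∂(σ i))
    (s : Finset (ℤ × ℤ)) (a : ℤ × ℤ → ℂ) (ε : ℝ) (hε : 0 < ε) :
    ∀ᶠ j : ℕ in atTop, R2 W j (fun d => ∫ x, ‖∑ p ∈ s, a p * ((∏ i ∈ A, F i (τ (p.1 + i * d) x)) *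
        ∏ i ∈ C, F i (τ (p.2 + i * d) x))‖ ^ 2 ∂μ)
      ≤ (∫ z, ‖∑ p ∈ s, a p * (fourier p.1 z.1 * fourier p.2 z.2)‖ ^ 2 ∂(ρ.prod ρ')) + ε := by
  refine quad μ W (fun p d x => (∏ i ∈ A, F i (τ (p.1 + i * d) x)) * ∏ i ∈ C, F i (τ (p.2 + i * d) x))
    (fun p d => W2TA1_mul (W2TA1_prod μ τ hτ A F hF (fun i => p.1 + i * d)) (W2TA1_prod μ τ hτ C F hF (fun i => p.2 + i * d)))
    ρ ρ' ?_ s a ε hε
  intro p q
  have hH : ∀ i, Bd (if i ∈ A then fun y => F i (τ p.1 y) * (starRingEnd ℂ) (F i (τ q.1 y))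
      else fun y => F i (τ p.2 y) * (starRingEnd ℂ) (F i (τ q.2 y))) := by
    intro i
    by_cases h1 : i ∈ A
    · rw [if_pos h1]
      exact W2TA1_mul (W2TA1_comp μ τ hτ (hF i) _) (W2TA3_conj (W2TA1_comp μ τ hτ (hF i) _))
    · rw [if_neg h1]
      exact W2TA1_mul (W2TA1_comp μ τ hτ (hF i) _) (W2TA3_conj (W2TA1_comp μ τ hτ (hF i) _))
  have h1 := hfull (A ∪ C) rfl _ hH
  have hC : ∀ i ∈ C, i ∉ A := fun i hi hiA => Finset.disjoint_left.mp hAC hiA hi
  have e1 : ∏ i ∈ A ∪ C, ∫ x, (if i ∈ A then fun y => F i (τ p.1 y) * (starRingEnd ℂ) (F i (τ q.1 y))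
      else fun y => F i (τ p.2 y) * (starRingEnd ℂ) (F i (τ q.2 y))) x ∂μ
      = (∫ t, fourier (p.1 - q.1) t ∂ρ) * ∫ t, fourier (p.2 - q.2) t ∂ρ' := by
    rw [Finset.prod_union hAC, hρ, hρ']
    congr 1
    · refine Finset.prod_congr rfl fun i hi => ?_
      rw [← sp_translate μ τ hτ (F i) (hF i) (σ i) (hσ i) p.1 q.1]
      simp only [if_pos hi]
    · refine Finset.prod_congr rfl fun i hi => ?_
      rw [← sp_translate μ τ hτ (F i) (hF i) (σ i) (hσ i) p.2 q.2]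
      simp only [if_neg (hC i hi)]
  rw [e1] at h1
  refine h1.congr fun j => ?_
  congr 1
  funext d
  congr 1
  funext x
  rw [Finset.prod_union hAC]
  have e2 : ∏ i ∈ A, (if i ∈ A then fun y => F i (τ p.1 y) * (starRingEnd ℂ) (F i (τ q.1 y))
      else fun y => F i (τ p.2 y) * (starRingEnd ℂ) (F i (τ q.2 y))) (τ (i * d) x)
      = (∏ i ∈ A, F i (τ (p.1 + i * d) x)) * (starRingEnd ℂ) (∏ i ∈ A, F i (τ (q.1 + i * d) x)) := by
    rw [map_prod, ← Finset.prod_mul_distrib]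
    refine Finset.prod_congr rfl fun i hi => ?_
    rw [if_pos hi, hτ.add, hτ.add]
  have e3 : ∏ i ∈ C, (if i ∈ A then fun y => F i (τ p.1 y) * (starRingEnd ℂ) (F i (τ q.1 y))
      else fun y => F i (τ p.2 y) * (starRingEnd ℂ) (F i (τ q.2 y))) (τ (i * d) x)
      = (∏ i ∈ C, F i (τ (p.2 + i * d) x)) * (starRingEnd ℂ) (∏ i ∈ C, F i (τ (q.2 + i * d) x)) := by
    rw [map_prod, ← Finset.prod_mul_distrib]
    refine Finset.prod_congr rfl fun i hi => ?_
    rw [if_neg (hC i hi), hτ.add, hτ.add]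
  rw [e2, e3, map_mul]
  ring

theorem slotw {X : Type} [MeasurableSpace X] (μ : Measure X) [IsProbabilityMeasure μ] (τ : ℤ → X → X)
    (hτ : Sys μ τ) (W : ℕ → ℝ) (hW : GW W) (n : ℕ) (hn : 3 ≤ n) (h2 : Full μ τ W 2) (h1 : Full μ τ W (n - 1))
    (I : Finset ℤ) (hI : I.card = n) (mA : ℤ) (hmA : mA ∈ I) (F : ℤ → X → ℂ) (hF : ∀ i, Bd (F i))
    (σ : ℤ → Measure Cir) (hσ : ∀ i, Sp μ τ (F i) (σ i)) (hs : σ mA ⟂ₘ (volume : Measure Cir))
    (ha : ∀ t, σ mA {t} = 0) (w : ℤ → ℝ) (hw : ∀ d, 0 ≤ w d ∧ w d ≤ 1) :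
    Tendsto (fun j : ℕ => E2 W j (fun d => (w d : ℂ) * ∫ x, ∏ i ∈ I, F i (τ (i * d) x) ∂μ)) atTop (𝓝 0) := by

  classical
  obtain ⟨mC, hmC⟩ : (I.erase mA).Nonempty := by
    rw [← Finset.card_pos, Finset.card_erase_of_mem hmA, hI]
    omega
  have hmC' := Finset.mem_erase.mp hmC
  set J : Finset ℤ := (I.erase mA).erase mC with hJ
  have hmAJ : mA ∉ J := fun h => (Finset.mem_erase.mp (Finset.mem_erase.mp h).2).1 rfl
  have hmCJ : mC ∉ J := Finset.notMem_erase mC _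
  have hcardJ : J.card = n - 2 := by
    rw [hJ, Finset.card_erase_of_mem hmC, Finset.card_erase_of_mem hmA, hI]
    omega
  have hfin : ∀ i, IsFiniteMeasure (σ i) := fun i => (hσ i).1
  obtain ⟨ρ, hρf, hρ⟩ := conv J σ fun i _ => hfin i
  have := hρf
  have hbd : ∀ i, ∃ C : ℝ, ∀ x, ‖F i x‖ ≤ C := fun i => (hF i).2
  choose C hC using hbd
  have hB2 : ∀ m d x, ‖∏ i ∈ J, F i (τ (m + i * d) x)‖ ≤ ∏ i ∈ J, C i := by
    intro m d x
    rw [norm_prod]
    exact Finset.prod_le_prod (fun i _ => norm_nonneg _) fun i _ => hC i _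
  have hsing : ∀ n : ℤ, ∀ k : ℤ, ∫ t, fourier n t ∂(σ k) = ∏ i ∈ ({k} : Finset ℤ), ∫ t, fourier n t ∂(σ i) :=
    fun n k => by rw [Finset.prod_singleton]
  have cAB : ({mA} ∪ J : Finset ℤ).card = n - 1 := by
    rw [Finset.card_union_of_disjoint (Finset.disjoint_singleton_left.mpr hmAJ), Finset.card_singleton, hcardJ]
    omega
  have cAC : ({mA} ∪ {mC} : Finset ℤ).card = 2 := by
    rw [Finset.card_union_of_disjoint (Finset.disjoint_singleton_left.mpr (by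
      rw [Finset.mem_singleton]; exact fun h => hmC'.1 h.symm)), Finset.card_singleton, Finset.card_singleton]
  have cBC : (J ∪ {mC} : Finset ℤ).card = n - 1 := by
    rw [Finset.card_union_of_disjoint (Finset.disjoint_singleton_right.mpr hmCJ), Finset.card_singleton, hcardJ]
    omega
  have key : ∀ ε : ℝ, 0 < ε → ∀ᶠ j : ℕ in atTop,
      ‖E2 W j (fun d => (w d : ℂ) * ∫ x, F mA (τ (mA * d) x) * (∏ i ∈ J, F i (τ (0 + i * d) x)) *
        F mC (τ (mC * d) x) ∂μ)‖ ^ 2 ≤ ε := by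
    intro ε hε
    have h3 := three μ τ hτ W hW w hw (F mA) (F mC) (hF mA) (hF mC)
      (fun m d x => ∏ i ∈ J, F i (τ (m + i * d) x))
      (fun m d => (W2TA1_prod μ τ hτ J F hF (fun i => m + i * d)).1) (max (C mA) (∏ i ∈ J, C i))
      (fun x => (hC mA x).trans (le_max_left _ _)) (fun m d x => (hB2 m d x).trans (le_max_right _ _))
      (fun m d l x => by
        refine Finset.prod_congr rfl fun i _ => ?_
        rw [← hτ.add]
        congr 2
        ring) mA mC (σ mA) ρ (σ mC) Set.univ ∅ MeasurableSet.univ MeasurableSet.empty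
      (by rw [Measure.restrict_univ]; exact hs) (fun t _ => ha t)
      (by rw [Measure.restrict_empty]; exact Measure.MutuallySingular.zero_left)
      (fun t ht => absurd ht (Set.notMem_empty t)) 1 1 zero_le_one zero_le_one
      (fun s a ε hε => by
        have h4 := W2TA3_quad μ τ hτ W {mA} J (Finset.disjoint_singleton_left.mpr hmAJ) (by rw [cAB]; exact h1)
          F hF σ hσ (σ mA) ρ (fun n => hsing n mA) hρ s a ε hε
        simp only [Finset.prod_singleton] at h4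
        simp only [one_mul]
        exact h4)
      (fun s a ε hε => by
        have h4 := W2TA3_quad μ τ hτ W {mA} {mC} (Finset.disjoint_singleton_left.mpr (by
          rw [Finset.mem_singleton]; exact fun h => hmC'.1 h.symm)) (by rw [cAC]; exact h2)
          F hF σ hσ (σ mA) (σ mC) (fun n => hsing n mA) (fun n => hsing n mC) s a ε hε
        simp only [Finset.prod_singleton] at h4
        simp only [one_mul]
        exact h4)
      (fun s a ε hε => by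
        have h4 := W2TA3_quad μ τ hτ W J {mC} (Finset.disjoint_singleton_right.mpr hmCJ) (by rw [cBC]; exact h1)
          F hF σ hσ ρ (σ mC) hρ (fun n => hsing n mC) s a ε hε
        simp only [Finset.prod_singleton] at h4
        simp only [one_mul]
        exact h4) ε hε
    filter_upwards [h3] with j hj
    refine hj.trans (le_of_eq ?_)
    rw [Set.compl_univ, measure_empty, ENNReal.toReal_zero]
    ring
  have e1 : ∀ j, E2 W j (fun d => (w d : ℂ) * ∫ x, ∏ i ∈ I, F i (τ (i * d) x) ∂μ) =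
      E2 W j (fun d => (w d : ℂ) * ∫ x, F mA (τ (mA * d) x) * (∏ i ∈ J, F i (τ (0 + i * d) x)) *
        F mC (τ (mC * d) x) ∂μ) := by
    intro j
    congr 1
    funext d
    congr 1
    congr 1
    funext x
    rw [← Finset.mul_prod_erase I _ hmA, ← Finset.mul_prod_erase (I.erase mA) _ hmC, ← hJ]
    simp only [zero_add]
    ring
  rw [Metric.tendsto_nhds]
  intro ε hε
  filter_upwards [key (ε ^ 2 / 2) (by positivity)] with j hj
  rw [dist_zero_right, e1 j]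
  refine lt_of_pow_lt_pow_left₀ 2 hε.le (lt_of_le_of_lt hj ?_)
  have : 0 < ε ^ 2 := by positivity
  linarith

/-! ## module W3: all functions, with weights -/

private theorem W3_zero (W : ℕ → ℝ) : Tendsto (fun j : ℕ => E2 W j (fun _ => 0)) atTop (𝓝 0) := by
  have h : ∀ j : ℕ, E2 W j (fun _ => 0) = 0 := by
    intro j
    unfold E2
    simp
  simp only [h]
  exact tendsto_const_nhds

/-- a null sequence may be multiplied by the weights -/
private theorem W3_null (W : ℕ → ℝ) (hW : GW W) (w : ℤ → ℝ) (hw : ∀ d, 0 ≤ w d ∧ w d ≤ 1) (a : ℤ → ℂ)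
    (h1 : Tendsto (fun d : ℕ => a (d : ℤ)) atTop (𝓝 0)) (h2 : Tendsto (fun d : ℕ => a (-(d : ℤ))) atTop (𝓝 0)) :
    Tendsto (fun j : ℕ => E2 W j (fun d => (w d : ℂ) * a d)) atTop (𝓝 0) := by
  have hle : ∀ d : ℤ, ‖(w d : ℂ) * a d‖ ≤ ‖a d‖ := by
    intro d
    rw [norm_mul, Complex.norm_real, Real.norm_eq_abs, abs_of_nonneg (hw d).1]
    exact mul_le_of_le_one_left (norm_nonneg _) (hw d).2
  refine E2_null W hW _ ?_ ?_
  · refine squeeze_zero_norm (fun d => hle (d : ℤ)) ?_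
    simpa using h1.norm
  · refine squeeze_zero_norm (fun d => hle (-(d : ℤ))) ?_
    simpa using h2.norm

private theorem W3_drop {X : Type} [MeasurableSpace X] (μ : Measure X) [IsProbabilityMeasure μ] (τ : ℤ → X → X)
    (W : ℕ → ℝ) (hW : GW W) (w : ℤ → ℝ) (hw : ∀ d, 0 ≤ w d ∧ w d ≤ 1) (h : X → ℂ)
    (hm : Mx μ τ h) (I : Finset ℤ) (m : ℤ)
    (hI : m ∉ I) (F : ℤ → X → ℂ) (hF : ∀ i, Bd (F i)) :
    Tendsto (fun j : ℕ => E2 W j (fun d => (w d : ℂ) * ∫ x, h (τ (m * d) x) * ∏ i ∈ I, F i (τ (i * d) x) ∂μ)) atTop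
      (𝓝 0) := by
  refine W3_null W hW w hw _ (hm I m hI F hF) ?_
  have h1 := hm (I.image fun i => -i) (-m) (by
    intro h2
    obtain ⟨i, hi, h3⟩ := Finset.mem_image.mp h2
    have h4 : i = m := by omega
    exact hI (h4 ▸ hi)) (fun i => F (-i)) (fun i => hF (-i))
  refine h1.congr fun d => ?_
  refine integral_congr_ae (Filter.Eventually.of_forall fun x => ?_)
  have h2 : ∏ i ∈ I.image (fun i => -i), (fun i => F (-i)) i (τ (i * (d : ℤ)) x)
      = ∏ i ∈ I, F i (τ (i * (-(d : ℤ))) x) := by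
    rw [Finset.prod_image (fun a _ b _ hab => neg_injective hab)]
    refine Finset.prod_congr rfl fun i _ => ?_
    change F (- -i) (τ (-i * (d : ℤ)) x) = _
    rw [neg_neg, neg_mul_comm]
  change h (τ (-m * (d : ℤ)) x) * _ = h (τ (m * (-(d : ℤ))) x) * _
  rw [h2, neg_mul_comm]

open Classical in
private theorem W3_red1 {X : Type} [MeasurableSpace X] (μ : Measure X) [IsProbabilityMeasure μ] (τ : ℤ → X → X)
    (hτ : Sys μ τ) (W : ℕ → ℝ) (hW : GW W) (w : ℤ → ℝ) (hw : ∀ d, 0 ≤ w d ∧ w d ≤ 1) (I : Finset ℤ)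
    (F G h : ℤ → X → ℂ) (hF : ∀ i, Bd (F i))
    (hG : ∀ i, Bd (G i)) (hm : ∀ i, Mx μ τ (h i))
    (hFG : ∀ i, ∀ᵐ x ∂μ, F i x = G i x + h i x) (T : Finset ℤ) (m : ℤ) (hmI : m ∈ I) (hmT : m ∉ T) :
    Tendsto (fun j : ℕ => E2 W j (fun d => (w d : ℂ) * ∫ x, ∏ i ∈ I, (if i ∈ T then G i else F i) (τ (i * d) x) ∂μ)
      - E2 W j (fun d => (w d : ℂ) * ∫ x, ∏ i ∈ I, (if i ∈ insert m T then G i else F i) (τ (i * d) x) ∂μ))
      atTop (𝓝 0) := by
  have hH : ∀ i, Bd (if i ∈ T then G i else F i) := by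
    intro i
    by_cases h1 : i ∈ T
    · rw [if_pos h1]; exact hG i
    · rw [if_neg h1]; exact hF i
  have hH' : ∀ i, Bd (if i ∈ insert m T then G i else F i) := by
    intro i
    by_cases h1 : i ∈ insert m T
    · rw [if_pos h1]; exact hG i
    · rw [if_neg h1]; exact hF i
  have key := W3_drop μ τ W hW w hw (h m) (hm m) (I.erase m) m (Finset.notMem_erase m I)
    (fun i => if i ∈ T then G i else F i) hH
  refine key.congr fun j => ?_
  rw [← E2_sub]
  congr 1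
  funext d
  have e1 := W2TA1_int μ (W2TA1_prod μ τ hτ I _ hH (fun i => i * d))
  have e2 := W2TA1_int μ (W2TA1_prod μ τ hτ I _ hH' (fun i => i * d))
  rw [← mul_sub, ← integral_sub e1 e2]
  congr 1
  refine integral_congr_ae ?_
  have h3 : ∀ᵐ x ∂μ, F m (τ (m * d) x) = G m (τ (m * d) x) + h m (τ (m * d) x) :=
    (hτ.mp (m * d)).quasiMeasurePreserving.ae (hFG m)
  filter_upwards [h3] with x hx
  have h4 : ∏ i ∈ I, (if i ∈ T then G i else F i) (τ (i * d) x) =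
      F m (τ (m * d) x) * ∏ i ∈ I.erase m, (if i ∈ T then G i else F i) (τ (i * d) x) := by
    rw [← Finset.mul_prod_erase I _ hmI, if_neg hmT]
  have h5 : ∏ i ∈ I, (if i ∈ insert m T then G i else F i) (τ (i * d) x) =
      G m (τ (m * d) x) * ∏ i ∈ I.erase m, (if i ∈ T then G i else F i) (τ (i * d) x) := by
    rw [← Finset.mul_prod_erase I _ hmI, if_pos (Finset.mem_insert_self m T)]
    congr 1
    refine Finset.prod_congr rfl fun i hi => ?_
    have h6 : i ≠ m := (Finset.mem_erase.mp hi).1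
    by_cases h7 : i ∈ T
    · rw [if_pos h7, if_pos (Finset.mem_insert_of_mem h7)]
    · rw [if_neg h7, if_neg (fun h8 => by
        rcases Finset.mem_insert.mp h8 with h9 | h9
        · exact h6 h9
        · exact h7 h9)]
  rw [h4, h5, hx]
  ring

private theorem W3_red {X : Type} [MeasurableSpace X] (μ : Measure X) [IsProbabilityMeasure μ] (τ : ℤ → X → X)
    (hτ : Sys μ τ) (W : ℕ → ℝ) (hW : GW W) (w : ℤ → ℝ) (hw : ∀ d, 0 ≤ w d ∧ w d ≤ 1) (I : Finset ℤ)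
    (F G h : ℤ → X → ℂ) (hF : ∀ i, Bd (F i))
    (hG : ∀ i, Bd (G i)) (hm : ∀ i, Mx μ τ (h i))
    (hFG : ∀ i, ∀ᵐ x ∂μ, F i x = G i x + h i x) :
    Tendsto (fun j : ℕ => E2 W j (fun d => (w d : ℂ) * ∫ x, ∏ i ∈ I, F i (τ (i * d) x) ∂μ)
      - E2 W j (fun d => (w d : ℂ) * ∫ x, ∏ i ∈ I, G i (τ (i * d) x) ∂μ)) atTop (𝓝 0) := by
  classical
  have key : ∀ T : Finset ℤ, T ⊆ I →
      Tendsto (fun j : ℕ => E2 W j (fun d => (w d : ℂ) * ∫ x, ∏ i ∈ I, F i (τ (i * d) x) ∂μ)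
        - E2 W j (fun d => (w d : ℂ) * ∫ x, ∏ i ∈ I, (if i ∈ T then G i else F i) (τ (i * d) x) ∂μ))
        atTop (𝓝 0) := by
    intro T
    induction T using Finset.induction_on with
    | empty =>
      intro _
      simp
    | insert m T hmT ih =>
      intro hT
      have h1 := ih fun x hx => hT (Finset.mem_insert_of_mem hx)
      have h2 := W3_red1 μ τ hτ W hW w hw I F G h hF hG hm hFG T m (hT (Finset.mem_insert_self m T)) hmT
      have h3 := h1.add h2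
      rw [add_zero] at h3
      refine h3.congr fun j => ?_
      ring
  refine (key I (Finset.Subset.refl I)).congr fun j => ?_
  have h4 : (fun d : ℤ => (w d : ℂ) * ∫ x, ∏ i ∈ I, (if i ∈ I then G i else F i) (τ (i * d) x) ∂μ) =
      fun d : ℤ => (w d : ℂ) * ∫ x, ∏ i ∈ I, G i (τ (i * d) x) ∂μ := by
    funext d
    congr 2
    funext x
    exact Finset.prod_congr rfl fun i hi => by rw [if_pos hi]
  rw [h4]

private theorem W3_two {X : Type} [MeasurableSpace X] (μ : Measure X) [IsProbabilityMeasure μ] (τ : ℤ → X → X)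
    (hτ : Sys μ τ) (hc : Cls μ τ) (W : ℕ → ℝ) (hW : GW W) : FullW μ τ W 2 := by
  intro I hI F hF w hw
  obtain ⟨m, n, hmn, hI2⟩ := Finset.card_eq_two.mp hI
  have hcalc : ∀ (G : X → ℂ), Bd G → ∀ d : ℤ, ∫ x, F m (τ (m * d) x) * G (τ (n * d) x) ∂μ =
      ∫ x, F m x * G (τ ((n - m) * d) x) ∂μ := by
    intro G hG d
    have h1 := W2TA0_int μ τ hτ (fun x => F m x * G (τ ((n - m) * d) x))
      ((hF m).1.mul (hG.1.comp (hτ.mp _).measurable)) (m * d)
    rw [← h1]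
    congr 1
    funext x
    have h2 : τ ((n - m) * d) (τ (m * d) x) = τ (n * d) x := by
      rw [← hτ.add]
      congr 1
      ring
    change _ = F m (τ (m * d) x) * G (τ ((n - m) * d) (τ (m * d) x))
    rw [h2]
  have hc0 : Bd (fun x => F n x - ∫ y, F n y ∂μ) := by
    obtain ⟨h1, C, h2⟩ := hF n
    refine ⟨h1.sub measurable_const, C + ‖∫ y, F n y ∂μ‖, fun x => ?_⟩
    exact (norm_sub_le _ _).trans (add_le_add (h2 x) le_rfl)
  have hz : ∫ x, (F n x - ∫ y, F n y ∂μ) ∂μ = 0 := by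
    rw [integral_sub (W2TA1_int μ (hF n)) (integrable_const _)]
    simp
  obtain ⟨g, h, σ, hg, hh, hae, hsp, hsing, hat, hmx⟩ := hc _ hc0 hz
  have t1 := W3_drop μ τ W hW w hw h hmx {m} n (by simpa using hmn.symm) F hF
  have t2 : Tendsto (fun j : ℕ => E2 W j (fun d => (w d : ℂ) * ∫ x, F m x * g (τ ((n - m) * d) x) ∂μ)) atTop
      (𝓝 0) := by
    rw [Metric.tendsto_nhds]
    intro ε hε
    set A : ℝ := ∫ x, ‖F m x‖ ^ 2 ∂μ with hA
    have hA0 : 0 ≤ A := integral_nonneg fun x => by positivity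
    have h3 := freqw μ τ hτ W hW g hg σ hsp hat (n - m) (sub_ne_zero.mpr hmn.symm) (ε ^ 2 / (2 * (A + 1)))
      (by positivity)
    filter_upwards [h3] with j hj
    have h4 := hj w hw (F m) (hF m)
    rw [dist_zero_right]
    have h5 : A * (ε ^ 2 / (2 * (A + 1))) < ε ^ 2 := by
      have h6 : A * (ε ^ 2 / (2 * (A + 1))) = ε ^ 2 * (A / (2 * (A + 1))) := by ring
      rw [h6]
      have h7 : A / (2 * (A + 1)) < 1 := by
        rw [div_lt_one (by positivity)]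
        linarith
      have h8 : 0 < ε ^ 2 := by positivity
      nlinarith
    exact lt_of_pow_lt_pow_left₀ 2 hε.le (lt_of_le_of_lt h4 h5)
  have t4 := t2.add t1
  rw [add_zero] at t4
  refine t4.congr fun j => ?_
  rw [← E2_add]
  congr 1
  funext d
  have h2 : ∏ i ∈ I, ∫ x, F i x ∂μ = (∫ x, F m x ∂μ) * ∫ x, F n x ∂μ := by
    rw [hI2, Finset.prod_pair hmn]
  have e1 : ∫ x, ∏ i ∈ I, F i (τ (i * d) x) ∂μ = ∫ x, F m (τ (m * d) x) * F n (τ (n * d) x) ∂μ := by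
    congr 1
    funext x
    rw [hI2, Finset.prod_pair hmn]
  rw [h2, e1, ← hcalc g hg d, ← mul_add]
  congr 1
  simp only [Finset.prod_singleton]
  have i1 : Integrable (fun x => F m (τ (m * d) x) * g (τ (n * d) x)) μ :=
    W2TA1_int μ (W2TA1_mul (W2TA1_comp μ τ hτ (hF m) _) (W2TA1_comp μ τ hτ hg _))
  have i2 : Integrable (fun x => h (τ (n * d) x) * F m (τ (m * d) x)) μ :=
    W2TA1_int μ (W2TA1_mul (W2TA1_comp μ τ hτ hh _) (W2TA1_comp μ τ hτ (hF m) _))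
  have i3 : Integrable (fun x => F m (τ (m * d) x) * ∫ y, F n y ∂μ) μ :=
    (W2TA1_int μ (W2TA1_comp μ τ hτ (hF m) _)).mul_const _
  have i5 : Integrable (fun x => F m (τ (m * d) x) * F n (τ (n * d) x)) μ :=
    W2TA1_int μ (W2TA1_mul (W2TA1_comp μ τ hτ (hF m) _) (W2TA1_comp μ τ hτ (hF n) _))
  have e2 : (∫ x, F m x ∂μ) * ∫ x, F n x ∂μ = ∫ x, F m (τ (m * d) x) * (∫ y, F n y ∂μ) ∂μ := by
    rw [integral_mul_const, W2TA0_int μ τ hτ (F m) (hF m).1]
  rw [e2, ← integral_sub i5 i3, ← integral_add i1 i2]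
  refine integral_congr_ae ?_
  have h3 : ∀ᵐ x ∂μ, F n (τ (n * d) x) - ∫ y, F n y ∂μ = g (τ (n * d) x) + h (τ (n * d) x) :=
    (hτ.mp (n * d)).quasiMeasurePreserving.ae hae
  filter_upwards [h3] with x hx
  have h4 : F n (τ (n * d) x) = (∫ y, F n y ∂μ) + g (τ (n * d) x) + h (τ (n * d) x) := by
    rw [add_assoc, ← hx]; ring
  change F m (τ (m * d) x) * g (τ (n * d) x) + h (τ (n * d) x) * F m (τ (m * d) x) =
    F m (τ (m * d) x) * F n (τ (n * d) x) - F m (τ (m * d) x) * (∫ y, F n y ∂μ)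
  rw [h4]
  ring

private theorem W3_step {X : Type} [MeasurableSpace X] (μ : Measure X) [IsProbabilityMeasure μ] (τ : ℤ → X → X)
    (hτ : Sys μ τ) (hc : Cls μ τ) (W : ℕ → ℝ) (hW : GW W) (n : ℕ) (hn : 3 ≤ n) (h2 : Full μ τ W 2)
    (h1 : Full μ τ W (n - 1)) (h1W : FullW μ τ W (n - 1)) : FullW μ τ W n := by
  classical
  intro I hI F hF w hw
  have hf0 : ∀ i, Bd (fun x => F i x - ∫ y, F i y ∂μ) := by
    intro i
    obtain ⟨h1, C, h2⟩ := hF i
    refine ⟨h1.sub measurable_const, C + ‖∫ y, F i y ∂μ‖, fun x => ?_⟩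
    exact (norm_sub_le _ _).trans (add_le_add (h2 x) le_rfl)
  have hz : ∀ i, ∫ x, (F i x - ∫ y, F i y ∂μ) ∂μ = 0 := by
    intro i
    rw [integral_sub (W2TA1_int μ (hF i)) (integrable_const _)]
    simp
  choose g h σ hg hh hae hsp hsing hat hmx using fun i => hc _ (hf0 i) (hz i)
  have hgm : ∀ i, ∫ x, g i x ∂μ = 0 := by
    intro i
    have e1 : ∫ x, (F i x - ∫ y, F i y ∂μ) ∂μ = ∫ x, (g i x + h i x) ∂μ := integral_congr_ae (hae i)
    rw [hz i, integral_add (W2TA1_int μ (hg i)) (W2TA1_int μ (hh i)), mx_mean μ τ hτ (h i) (hh i) (hmx i),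
      add_zero] at e1
    exact e1.symm
  have hGb : ∀ i, Bd (fun x => (∫ y, F i y ∂μ) + g i x) := by
    intro i
    obtain ⟨h1, C, h2⟩ := hg i
    refine ⟨measurable_const.add h1, ‖∫ y, F i y ∂μ‖ + C, fun x => ?_⟩
    exact (norm_add_le _ _).trans (add_le_add le_rfl (h2 x))
  have hGi : ∀ i, ∫ x, ((∫ y, F i y ∂μ) + g i x) ∂μ = ∫ y, F i y ∂μ := by
    intro i
    rw [integral_add (integrable_const _) (W2TA1_int μ (hg i)), hgm i]
    simp
  choose σG hσG using fun i => sp_const μ τ hτ (g i) (hg i) (hgm i) (∫ y, F i y ∂μ) (σ i) (hsp i)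
  have hred := W3_red μ τ hτ W hW w hw I F (fun i x => (∫ y, F i y ∂μ) + g i x) h hF hGb hmx (fun i => by
    filter_upwards [hae i] with x hx
    rw [add_assoc, ← hx]
    ring)
  obtain ⟨mA, hmA⟩ : I.Nonempty := by
    rw [← Finset.card_pos, hI]
    omega
  have hF' : ∀ i, Bd (if i = mA then g mA else fun x => (∫ y, F i y ∂μ) + g i x) := by
    intro i
    by_cases h3 : i = mA
    · rw [if_pos h3]; exact hg mA
    · rw [if_neg h3]; exact hGb i
  have hs := slotw μ τ hτ W hW n hn h2 h1 I hI mA hmA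
    (fun i => if i = mA then g mA else fun x => (∫ y, F i y ∂μ) + g i x) hF'
    (fun i => if i = mA then σ mA else σG i) (fun i => by
      by_cases h3 : i = mA
      · simp only [if_pos h3]; exact hsp mA
      · simp only [if_neg h3]; exact hσG i) (by simp only [if_true]; exact hsing mA)
      (by simp only [if_true]; exact hat mA) w hw
  have hf1 := h1W (I.erase mA) (by rw [Finset.card_erase_of_mem hmA, hI])
    (fun i x => (∫ y, F i y ∂μ) + g i x) hGb w hw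
  have hf2 := hf1.const_mul (∫ y, F mA y ∂μ)
  have hlim := (hf2.add hs).add hred
  rw [mul_zero, add_zero, add_zero] at hlim
  refine hlim.congr fun j => ?_
  rw [← E2_smul, ← E2_add, ← E2_sub, ← E2_add]
  congr 1
  funext d
  have e0 : (∫ y, F mA y ∂μ) * ∏ i ∈ I.erase mA, ∫ x, ((∫ y, F i y ∂μ) + g i x) ∂μ = ∏ i ∈ I, ∫ x, F i x ∂μ := by
    rw [← Finset.mul_prod_erase I _ hmA]
    congr 1
    exact Finset.prod_congr rfl fun i _ => hGi i
  have e1 : ∫ x, ∏ i ∈ I, (fun i x => (∫ y, F i y ∂μ) + g i x) i (τ (i * d) x) ∂μ =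
      (∫ y, F mA y ∂μ) * (∫ x, ∏ i ∈ I.erase mA, (fun i x => (∫ y, F i y ∂μ) + g i x) i (τ (i * d) x) ∂μ)
      + ∫ x, ∏ i ∈ I, (if i = mA then g mA else fun x => (∫ y, F i y ∂μ) + g i x) (τ (i * d) x) ∂μ := by
    have i1 := W2TA1_int μ (W2TA1_prod μ τ hτ (I.erase mA) _ hGb (fun i => i * d))
    have i2 := W2TA1_int μ (W2TA1_prod μ τ hτ I _ hF' (fun i => i * d))
    rw [← integral_const_mul, ← integral_add (i1.const_mul _) i2]
    congr 1
    funext x
    rw [← Finset.mul_prod_erase I _ hmA]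
    rw [← Finset.mul_prod_erase I (fun i => (if i = mA then g mA else fun x => (∫ y, F i y ∂μ) + g i x) (τ (i * d) x)) hmA]
    have e2 : ∏ i ∈ I.erase mA, (if i = mA then g mA else fun x => (∫ y, F i y ∂μ) + g i x) (τ (i * d) x) =
        ∏ i ∈ I.erase mA, (fun i x => (∫ y, F i y ∂μ) + g i x) i (τ (i * d) x) := by
      refine Finset.prod_congr rfl fun i hi => ?_
      rw [if_neg (Finset.mem_erase.mp hi).1]
    rw [e2, if_pos rfl]
    ring
  rw [e1, ← e0]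
  ring

/-- Adapt `mx_drop`, `mx_red`, `full2`, `full_step` (sequences tending to zero may be multiplied by `w`); the constant
part of the function in the slot `mA` by induction on `n` (for `FullW`), `Full` itself is `full_all`. -/
theorem fullW {X : Type} [MeasurableSpace X] (μ : Measure X) [IsProbabilityMeasure μ] (τ : ℤ → X → X)
    (hτ : Sys μ τ) (hc : Cls μ τ) (W : ℕ → ℝ) (hW : GW W) (n : ℕ) : FullW μ τ W n := by

  induction n with
  | zero =>
    intro I hI F hF w hw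
    have hI0 : I = ∅ := Finset.card_eq_zero.mp hI
    have h1 : ∀ d : ℤ, (w d : ℂ) * ((∫ x, ∏ i ∈ I, F i (τ (i * d) x) ∂μ) - ∏ i ∈ I, ∫ x, F i x ∂μ) = 0 := by
      intro d
      rw [hI0]
      simp
    simp only [h1]
    exact W3_zero W
  | succ n ih =>
    rcases Nat.lt_or_ge n 2 with h3 | h3
    · interval_cases n
      · intro I hI F hF w hw
        obtain ⟨m, hm⟩ := Finset.card_eq_one.mp hI
        have h1 : ∀ d : ℤ, (w d : ℂ) * ((∫ x, ∏ i ∈ I, F i (τ (i * d) x) ∂μ) - ∏ i ∈ I, ∫ x, F i x ∂μ) = 0 := by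
          intro d
          rw [hm]
          simp only [Finset.prod_singleton]
          rw [W2TA0_int μ τ hτ (F m) (hF m).1 (m * d), sub_self, mul_zero]
        simp only [h1]
        exact W3_zero W
      · exact W3_two μ τ hτ hc W hW
    · exact W3_step μ τ hτ hc W hW (n + 1) (by omega) (full_all μ τ hτ hc W hW 2)
        (full_all μ τ hτ hc W hW (n + 1 - 1)) ih

/-! ## module W4: rectangles -/

/-- the sets given by finitely many classes in both coordinates -/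
private def W4_grid (Z Y : Type) [MeasurableSpace Z] [MeasurableSpace Y] : Set (Set (Z × Y)) :=
  {A | ∃ (α β : Type) (_ : Fintype α) (_ : Fintype β) (f : Z → α) (g : Y → β) (S : Set (α × β)),
    (∀ i, MeasurableSet (f ⁻¹' {i})) ∧ (∀ i, MeasurableSet (g ⁻¹' {i})) ∧ A = {x | (f x.1, g x.2) ∈ S}}

private theorem W4_rect {Z Y : Type} [MeasurableSpace Z] [MeasurableSpace Y] (A : Set (Z × Y))
    (hA : A ∈ W4_grid Z Y) :
    ∃ (n : ℕ) (P : Fin n → Set Z) (Q : Fin n → Set Y), (∀ k, MeasurableSet (P k)) ∧ (∀ k, MeasurableSet (Q k)) ∧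
      (∀ k l, k ≠ l → Disjoint (P k ×ˢ Q k) (P l ×ˢ Q l)) ∧ A = ⋃ k, P k ×ˢ Q k := by
  classical
  obtain ⟨α, β, _, _, f, g, S, hf, hg, hAS⟩ := hA
  set T : Finset (α × β) := S.toFinite.toFinset with hT
  set e := T.equivFin.symm with he
  refine ⟨T.card, fun k => f ⁻¹' {(e k).1.1}, fun k => g ⁻¹' {(e k).1.2}, fun k => hf _, fun k => hg _, ?_, ?_⟩
  · intro k l hkl
    rw [Set.disjoint_left]
    rintro x ⟨h1, h2⟩ ⟨h3, h4⟩
    apply hkl
    apply e.injective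
    apply Subtype.ext
    have a1 : f x.1 = (e k).1.1 := h1
    have a2 : g x.2 = (e k).1.2 := h2
    have a3 : f x.1 = (e l).1.1 := h3
    have a4 : g x.2 = (e l).1.2 := h4
    exact Prod.ext (a1.symm.trans a3) (a2.symm.trans a4)
  · rw [hAS]
    ext x
    simp only [Set.mem_ofPred_eq, Set.mem_iUnion]
    constructor
    · intro hx
      have hxT : (f x.1, g x.2) ∈ T := by
        rw [hT, Set.Finite.mem_toFinset]
        exact hx
      refine ⟨e.symm ⟨(f x.1, g x.2), hxT⟩, ?_, ?_⟩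
      · show f x.1 = (e (e.symm ⟨(f x.1, g x.2), hxT⟩)).1.1
        rw [Equiv.apply_symm_apply]
      · show g x.2 = (e (e.symm ⟨(f x.1, g x.2), hxT⟩)).1.2
        rw [Equiv.apply_symm_apply]
    · rintro ⟨k, h1, h2⟩
      have a1 : f x.1 = (e k).1.1 := h1
      have a2 : g x.2 = (e k).1.2 := h2
      have h3 : (e k).1 ∈ S := S.toFinite.mem_toFinset.mp (e k).2
      rw [a1, a2]
      exact h3

private theorem W4_alg (Z Y : Type) [MeasurableSpace Z] [MeasurableSpace Y] : IsSetAlgebra (W4_grid Z Y) := by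
  classical
  refine ⟨?_, ?_, ?_⟩
  · refine ⟨Unit, Unit, inferInstance, inferInstance, fun _ => (), fun _ => (), ∅, fun i => ?_, fun i => ?_, ?_⟩
    · rw [show ((fun _ : Z => ()) ⁻¹' {i}) = Set.univ from Set.eq_univ_of_forall fun _ => Subsingleton.elim _ _]
      exact MeasurableSet.univ
    · rw [show ((fun _ : Y => ()) ⁻¹' {i}) = Set.univ from Set.eq_univ_of_forall fun _ => Subsingleton.elim _ _]
      exact MeasurableSet.univ
    · ext x
      simp
  · rintro A ⟨α, β, i1, i2, f, g, S, hf, hg, hAS⟩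
    exact ⟨α, β, i1, i2, f, g, Sᶜ, hf, hg, by rw [hAS]; rfl⟩
  · rintro A B ⟨α, β, i1, i2, f, g, S, hf, hg, hAS⟩ ⟨α', β', i1', i2', f', g', S', hf', hg', hAS'⟩
    refine ⟨α × α', β × β', inferInstance, inferInstance, fun z => (f z, f' z), fun y => (g y, g' y),
      {p | (p.1.1, p.2.1) ∈ S ∨ (p.1.2, p.2.2) ∈ S'}, fun i => ?_, fun i => ?_, ?_⟩
    · have : (fun z => (f z, f' z)) ⁻¹' {i} = f ⁻¹' {i.1} ∩ f' ⁻¹' {i.2} := by
        ext z
        simp only [Set.mem_preimage, Set.mem_singleton_iff, Set.mem_inter_iff]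
        exact Prod.ext_iff
      rw [this]
      exact (hf _).inter (hf' _)
    · have : (fun y => (g y, g' y)) ⁻¹' {i} = g ⁻¹' {i.1} ∩ g' ⁻¹' {i.2} := by
        ext z
        simp only [Set.mem_preimage, Set.mem_singleton_iff, Set.mem_inter_iff]
        exact Prod.ext_iff
      rw [this]
      exact (hg _).inter (hg' _)
    · rw [hAS, hAS']
      rfl

private theorem W4_gen (Z Y : Type) [MeasurableSpace Z] [MeasurableSpace Y] :
    (Prod.instMeasurableSpace : MeasurableSpace (Z × Y)) = MeasurableSpace.generateFrom (W4_grid Z Y) := by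
  classical
  apply le_antisymm
  · rw [← generateFrom_prod]
    refine MeasurableSpace.generateFrom_mono ?_
    rintro A ⟨P, hP, Q, hQ, rfl⟩
    have hP' : MeasurableSet P := hP
    have hQ' : MeasurableSet Q := hQ
    refine ⟨Bool, Bool, inferInstance, inferInstance, fun z => decide (z ∈ P), fun y => decide (y ∈ Q),
      {(true, true)}, fun i => ?_, fun i => ?_, ?_⟩
    · cases i
      · rw [show ((fun z => decide (z ∈ P)) ⁻¹' {false}) = Pᶜ by ext z; simp]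
        exact hP'.compl
      · rw [show ((fun z => decide (z ∈ P)) ⁻¹' {true}) = P by ext z; simp]
        exact hP'
    · cases i
      · rw [show ((fun z => decide (z ∈ Q)) ⁻¹' {false}) = Qᶜ by ext z; simp]
        exact hQ'.compl
      · rw [show ((fun z => decide (z ∈ Q)) ⁻¹' {true}) = Q by ext z; simp]
        exact hQ'
    · ext x
      simp
  · refine MeasurableSpace.generateFrom_le fun A hA => ?_
    obtain ⟨n, P, Q, h1, h2, h3, h4⟩ := W4_rect A hA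
    rw [h4]
    exact MeasurableSet.iUnion fun k => (h1 k).prod (h2 k)

theorem rect_approx {Z Y : Type} [MeasurableSpace Z] [MeasurableSpace Y] (ζ : Measure Z) [IsProbabilityMeasure ζ]
    (ν : Measure Y) [IsProbabilityMeasure ν] (A : Set (Z × Y)) (hA : MeasurableSet A) (ε : ℝ) (hε : 0 < ε) :
    ∃ (n : ℕ) (P : Fin n → Set Z) (Q : Fin n → Set Y), (∀ k, MeasurableSet (P k)) ∧ (∀ k, MeasurableSet (Q k)) ∧
      (∀ k l, k ≠ l → Disjoint (P k ×ˢ Q k) (P l ×ˢ Q l)) ∧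
      (ζ.prod ν).real (symmDiff A (⋃ k, P k ×ˢ Q k)) ≤ ε := by

  have hd := Measure.MeasureDense.of_generateFrom_isSetAlgebra_finite (ζ.prod ν) (W4_alg Z Y) (W4_gen Z Y)
  obtain ⟨t, ht, hlt⟩ := hd.approx A hA (measure_ne_top _ _) ε hε
  obtain ⟨n, P, Q, h1, h2, h3, h4⟩ := W4_rect t ht
  refine ⟨n, P, Q, h1, h2, h3, ?_⟩
  rw [← h4]
  exact ENNReal.toReal_le_of_le_ofReal hε.le hlt.le

/-! ## module W5: products with an arbitrary system -/

/-- for finite unions of rectangles -/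
theorem prodW_rect {Z Y : Type} [MeasurableSpace Z] [MeasurableSpace Y] (ζ : Measure Z) [IsProbabilityMeasure ζ]
    (ν : Measure Y) [IsProbabilityMeasure ν] (ρ : ℤ → Z → Z) (hρ : Sys ζ ρ) (τ : ℤ → Y → Y) (hτ : Sys ν τ)
    (hc : Cls ν τ) (W : ℕ → ℝ) (hW : GW W) (r : ℕ) (n : ℕ) (P : Fin n → Set Z) (Q : Fin n → Set Y)
    (hP : ∀ k, MeasurableSet (P k)) (hQ : ∀ k, MeasurableSet (Q k))
    (hd : ∀ k l, k ≠ l → Disjoint (P k ×ˢ Q k) (P l ×ˢ Q l)) (w : ℤ → ℝ) (hw : ∀ d, 0 ≤ w d ∧ w d ≤ 1) :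
    Tendsto (fun j : ℕ => R2 W j (fun d => w d * ((ζ.prod ν).real {x | ∀ i : ℕ, i ≤ r →
        (ρ ((i : ℤ) * d) x.1, τ ((i : ℤ) * d) x.2) ∈ ⋃ k, P k ×ˢ Q k}
      - ∫ z, ∏ i ∈ range (r + 1), ν.real {y | (ρ ((i : ℤ) * d) z, y) ∈ ⋃ k, P k ×ˢ Q k} ∂ζ))) atTop (𝓝 0) := by

  classical
  set a : (Fin (r + 1) → Fin n) → ℤ → ℝ := fun k d =>
    ζ.real {z | ∀ i : Fin (r + 1), ρ (((i : ℕ) : ℤ) * d) z ∈ P (k i)} with ha
  set b : (Fin (r + 1) → Fin n) → ℤ → ℝ := fun k d =>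
    ν.real {y | ∀ i : Fin (r + 1), τ (((i : ℕ) : ℤ) * d) y ∈ Q (k i)} with hb
  have hU : ∀ (k : Fin (r + 1) → Fin n) (d : ℤ),
      MeasurableSet {z | ∀ i : Fin (r + 1), ρ (((i : ℕ) : ℤ) * d) z ∈ P (k i)} := fun k d => by
    rw [show {z | ∀ i : Fin (r + 1), ρ (((i : ℕ) : ℤ) * d) z ∈ P (k i)}
      = ⋂ i : Fin (r + 1), (ρ (((i : ℕ) : ℤ) * d)) ⁻¹' (P (k i)) by ext z; simp]
    exact MeasurableSet.iInter fun i => (hρ.mp _).measurable (hP _)
  have hV : ∀ (k : Fin (r + 1) → Fin n) (d : ℤ),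
      MeasurableSet {y | ∀ i : Fin (r + 1), τ (((i : ℕ) : ℤ) * d) y ∈ Q (k i)} := fun k d => by
    rw [show {y | ∀ i : Fin (r + 1), τ (((i : ℕ) : ℤ) * d) y ∈ Q (k i)}
      = ⋂ i : Fin (r + 1), (τ (((i : ℕ) : ℤ) * d)) ⁻¹' (Q (k i)) by ext z; simp]
    exact MeasurableSet.iInter fun i => (hτ.mp _).measurable (hQ _)
  -- (A) the measure of the progressions
  have hA : ∀ d : ℤ, (ζ.prod ν).real {x | ∀ i : ℕ, i ≤ r →
      (ρ ((i : ℤ) * d) x.1, τ ((i : ℤ) * d) x.2) ∈ ⋃ k, P k ×ˢ Q k} = ∑ k, a k d * b k d := by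
    intro d
    have h1 : {x : Z × Y | ∀ i : ℕ, i ≤ r → (ρ ((i : ℤ) * d) x.1, τ ((i : ℤ) * d) x.2) ∈ ⋃ k, P k ×ˢ Q k}
        = ⋃ k ∈ (Finset.univ : Finset (Fin (r + 1) → Fin n)),
          {z | ∀ i : Fin (r + 1), ρ (((i : ℕ) : ℤ) * d) z ∈ P (k i)} ×ˢ
          {y | ∀ i : Fin (r + 1), τ (((i : ℕ) : ℤ) * d) y ∈ Q (k i)} := by
      ext x
      simp only [Set.mem_ofPred_eq, Set.mem_iUnion, Finset.mem_univ, exists_true_left, Set.mem_prod]
      constructor
      · intro h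
        have h2 : ∀ i : Fin (r + 1), ∃ k, ρ (((i : ℕ) : ℤ) * d) x.1 ∈ P k ∧ τ (((i : ℕ) : ℤ) * d) x.2 ∈ Q k :=
          fun i => h i (by omega)
        choose k hk using h2
        exact ⟨k, fun i => (hk i).1, fun i => (hk i).2⟩
      · rintro ⟨k, h2, h3⟩ i hi
        exact ⟨k ⟨i, by omega⟩, h2 ⟨i, by omega⟩, h3 ⟨i, by omega⟩⟩
    rw [h1, measureReal_biUnion_finset]
    · refine Finset.sum_congr rfl fun k _ => ?_
      rw [measureReal_prod_prod]
    · intro k _ l _ hkl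
      rw [Function.onFun, Set.disjoint_left]
      rintro x ⟨h2, h3⟩ ⟨h4, h5⟩
      obtain ⟨i, hi⟩ := Function.ne_iff.mp hkl
      exact Set.disjoint_left.mp (hd _ _ hi) (show (ρ (((i : ℕ) : ℤ) * d) x.1, τ (((i : ℕ) : ℤ) * d) x.2) ∈ _ from
        ⟨h2 i, h3 i⟩) ⟨h4 i, h5 i⟩
    · intro k _
      exact (hU k d).prod (hV k d)
  -- (B) the product of the fibre measures
  have hfib : ∀ z, ν.real {y | (z, y) ∈ ⋃ k, P k ×ˢ Q k} = ∑ k, (P k).indicator (fun _ => ν.real (Q k)) z := by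
    intro z
    have h1 : {y | (z, y) ∈ ⋃ k, P k ×ˢ Q k} = ⋃ k ∈ Finset.univ.filter (fun k => z ∈ P k), Q k := by
      ext y
      simp only [Set.mem_ofPred_eq, Set.mem_iUnion, Set.mem_prod, Finset.mem_filter, Finset.mem_univ, true_and,
        exists_prop]
    rw [h1, measureReal_biUnion_finset]
    · rw [Finset.sum_filter]
      refine Finset.sum_congr rfl fun k _ => ?_
      rw [Set.indicator_apply]
    · intro k hk l hl hkl
      have hk' : z ∈ P k := (Finset.mem_filter.mp hk).2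
      have hl' : z ∈ P l := (Finset.mem_filter.mp hl).2
      rw [Function.onFun, Set.disjoint_left]
      intro y h2 h3
      exact Set.disjoint_left.mp (hd _ _ hkl) (show (z, y) ∈ _ from ⟨hk', h2⟩) ⟨hl', h3⟩
    · intro k _
      exact hQ k
  have hB : ∀ d : ℤ, ∫ z, ∏ i ∈ range (r + 1), ν.real {y | (ρ ((i : ℤ) * d) z, y) ∈ ⋃ k, P k ×ˢ Q k} ∂ζ
      = ∑ k, a k d * ∏ i, ν.real (Q (k i)) := by
    intro d
    have h1 : ∀ z, ∏ i ∈ range (r + 1), ν.real {y | (ρ ((i : ℤ) * d) z, y) ∈ ⋃ k, P k ×ˢ Q k}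
        = ∑ k : Fin (r + 1) → Fin n, {z | ∀ i : Fin (r + 1), ρ (((i : ℕ) : ℤ) * d) z ∈ P (k i)}.indicator
          (fun _ => ∏ i, ν.real (Q (k i))) z := by
      intro z
      rw [Finset.prod_range]
      simp only [hfib]
      rw [Finset.prod_univ_sum, Fintype.piFinset_univ]
      refine Finset.sum_congr rfl fun k _ => ?_
      by_cases hz : ∀ i : Fin (r + 1), ρ (((i : ℕ) : ℤ) * d) z ∈ P (k i)
      · rw [Set.indicator_of_mem (show z ∈ {z | ∀ i : Fin (r + 1), ρ (((i : ℕ) : ℤ) * d) z ∈ P (k i)} from hz)]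
        refine Finset.prod_congr rfl fun i _ => ?_
        rw [Set.indicator_of_mem (hz i)]
      · rw [Set.indicator_of_notMem (show z ∉ {z | ∀ i : Fin (r + 1), ρ (((i : ℕ) : ℤ) * d) z ∈ P (k i)} from hz)]
        push Not at hz
        obtain ⟨i, hi⟩ := hz
        refine Finset.prod_eq_zero (Finset.mem_univ i) ?_
        rw [Set.indicator_of_notMem hi]
    simp only [h1]
    rw [integral_finsetSum _ fun k _ => (integrable_const _).indicator (hU k d)]
    refine Finset.sum_congr rfl fun k _ => ?_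
    rw [integral_indicator_const _ (hU k d), smul_eq_mul]
  -- (C) every term tends to zero
  have hC : ∀ k : Fin (r + 1) → Fin n, Tendsto (fun j : ℕ => E2 W j (fun d =>
      (((w d * a k d) * (b k d - ∏ i, ν.real (Q (k i))) : ℝ) : ℂ))) atTop (𝓝 0) := by
    intro k
    set I : Finset ℤ := Finset.univ.image (fun i : Fin (r + 1) => ((i : ℕ) : ℤ)) with hIdef
    have hinj : Function.Injective (fun i : Fin (r + 1) => ((i : ℕ) : ℤ)) := fun i i' h => by
      have h' : ((i : ℕ) : ℤ) = ((i' : ℕ) : ℤ) := h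
      apply Fin.ext
      exact_mod_cast h'
    have hI : I.card = r + 1 := by
      rw [hIdef, Finset.card_image_of_injective _ hinj, Finset.card_univ, Fintype.card_fin]
    set F : ℤ → Y → ℂ := fun i => (Q (k (Fin.ofNat (r + 1) i.toNat))).indicator (fun _ => (1 : ℂ)) with hF
    have hFi : ∀ i : Fin (r + 1), F ((i : ℕ) : ℤ) = (Q (k i)).indicator (fun _ => (1 : ℂ)) := by
      intro i
      have h1 : Fin.ofNat (r + 1) (((i : ℕ) : ℤ)).toNat = i := by
        apply Fin.ext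
        rw [Int.toNat_natCast]
        exact Nat.mod_eq_of_lt i.2
      simp only [hF, h1]
    have h1 := fullW ν τ hτ hc W hW (r + 1) I hI F (fun i => B11_bdA _ (hQ _)) (fun d => w d * a k d)
      (fun d => ⟨mul_nonneg (hw d).1 measureReal_nonneg, mul_le_one₀ (hw d).2 measureReal_nonneg measureReal_le_one⟩)
    refine h1.congr fun j => ?_
    congr 1
    funext d
    have h2 : ∫ y, ∏ i ∈ I, F i (τ (i * d) y) ∂ν = ((b k d : ℝ) : ℂ) := by
      have h3 : ∀ y, ∏ i ∈ I, F i (τ (i * d) y)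
          = {y | ∀ i : Fin (r + 1), τ (((i : ℕ) : ℤ) * d) y ∈ Q (k i)}.indicator (fun _ => (1 : ℂ)) y := by
        intro y
        rw [hIdef, Finset.prod_image fun i _ i' _ h => hinj h]
        simp only [hFi]
        by_cases hy : ∀ i : Fin (r + 1), τ (((i : ℕ) : ℤ) * d) y ∈ Q (k i)
        · rw [Set.indicator_of_mem (show y ∈ {y | ∀ i : Fin (r + 1), τ (((i : ℕ) : ℤ) * d) y ∈ Q (k i)} from hy)]
          refine Finset.prod_eq_one fun i _ => ?_
          rw [Set.indicator_of_mem (hy i)]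
        · rw [Set.indicator_of_notMem (show y ∉ {y | ∀ i : Fin (r + 1), τ (((i : ℕ) : ℤ) * d) y ∈ Q (k i)} from hy)]
          push Not at hy
          obtain ⟨i, hi⟩ := hy
          refine Finset.prod_eq_zero (Finset.mem_univ i) ?_
          rw [Set.indicator_of_notMem hi]
      simp only [h3]
      rw [integral_indicator_const _ (hV k d)]
      simp [hb]
    have h3 : ∏ i ∈ I, ∫ y, F i y ∂ν = ((∏ i, ν.real (Q (k i)) : ℝ) : ℂ) := by
      rw [hIdef, Finset.prod_image fun i _ i' _ h => hinj h]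
      push_cast
      refine Finset.prod_congr rfl fun i _ => ?_
      rw [hFi, integral_indicator_const _ (hQ _)]
      simp
    rw [h2, h3]
    push_cast
    ring
  have hsum : Tendsto (fun j : ℕ => ∑ k, E2 W j (fun d =>
      (((w d * a k d) * (b k d - ∏ i, ν.real (Q (k i))) : ℝ) : ℂ))) atTop (𝓝 0) := by
    have := tendsto_finsetSum (Finset.univ : Finset (Fin (r + 1) → Fin n)) fun k _ => hC k
    rwa [Finset.sum_const_zero] at this
  have hfin := (Complex.continuous_re.tendsto _).comp hsum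
  rw [Complex.zero_re] at hfin
  refine hfin.congr fun j => ?_
  rw [Function.comp_apply, ← E2_sum]
  have h5 : (fun d : ℤ => ∑ k, (((w d * a k d) * (b k d - ∏ i, ν.real (Q (k i))) : ℝ) : ℂ))
      = fun d : ℤ => ((w d * ((ζ.prod ν).real {x | ∀ i : ℕ, i ≤ r →
        (ρ ((i : ℤ) * d) x.1, τ ((i : ℤ) * d) x.2) ∈ ⋃ k, P k ×ˢ Q k}
      - ∫ z, ∏ i ∈ range (r + 1), ν.real {y | (ρ ((i : ℤ) * d) z, y) ∈ ⋃ k, P k ×ˢ Q k} ∂ζ) : ℝ) : ℂ) := by
    funext d
    rw [hA, hB, ← Finset.sum_sub_distrib, Finset.mul_sum]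
    push_cast
    refine Finset.sum_congr rfl fun k _ => ?_
    ring
  rw [h5, E2_ofReal, Complex.ofReal_re]

open scoped symmDiff in
private theorem W5_cmp1 {X : Type} [MeasurableSpace X] (μ : Measure X) [IsProbabilityMeasure μ] (A A' : Set X)
    (hA : MeasurableSet A) (hA' : MeasurableSet A') (T : ℕ → X → X) (hT : ∀ i, MeasurePreserving (T i) μ μ)
    (r : ℕ) (δ : ℝ) (h : μ.real (symmDiff A A') ≤ δ) :
    |μ.real {x | ∀ i : ℕ, i ≤ r → T i x ∈ A} - μ.real {x | ∀ i : ℕ, i ≤ r → T i x ∈ A'}| ≤ (r + 1) * δ := by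
  have hm : ∀ B : Set X, MeasurableSet B → MeasurableSet {x | ∀ i : ℕ, i ≤ r → T i x ∈ B} := by
    intro B hB
    rw [show {x | ∀ i : ℕ, i ≤ r → T i x ∈ B} = ⋂ i ∈ range (r + 1), (T i) ⁻¹' B by
      ext x
      simp only [Set.mem_ofPred_eq, Set.mem_iInter, Finset.mem_range, Set.mem_preimage, Nat.lt_succ_iff]]
    exact Finset.measurableSet_biInter _ fun i _ => (hT i).measurable hB
  have h1 := abs_measureReal_sub_le_measureReal_symmDiff (μ := μ) (hm A hA).nullMeasurableSet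
    (hm A' hA').nullMeasurableSet
  refine h1.trans ?_
  have h2 : symmDiff {x | ∀ i : ℕ, i ≤ r → T i x ∈ A} {x | ∀ i : ℕ, i ≤ r → T i x ∈ A'}
      ⊆ ⋃ i ∈ range (r + 1), (T i) ⁻¹' (symmDiff A A') := by
    intro x hx
    simp only [Set.mem_iUnion, Set.mem_preimage, Finset.mem_range, exists_prop]
    rcases hx with ⟨h3, h4⟩ | ⟨h3, h4⟩
    · simp only [Set.mem_ofPred_eq] at h3 h4
      push Not at h4
      obtain ⟨i, hi, h5⟩ := h4
      exact ⟨i, by omega, Or.inl ⟨h3 i hi, h5⟩⟩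
    · simp only [Set.mem_ofPred_eq] at h3 h4
      push Not at h4
      obtain ⟨i, hi, h5⟩ := h4
      exact ⟨i, by omega, Or.inr ⟨h3 i hi, h5⟩⟩
  refine (measureReal_mono h2 (measure_ne_top _ _)).trans ((measureReal_biUnion_finset_le _ _).trans ?_)
  have h3 : ∀ i ∈ range (r + 1), μ.real ((T i) ⁻¹' (symmDiff A A')) ≤ δ := by
    intro i _
    have h4 : μ ((T i) ⁻¹' (symmDiff A A')) = μ (symmDiff A A') :=
      (hT i).measure_preimage (hA.symmDiff hA').nullMeasurableSet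
    unfold Measure.real at h ⊢
    rw [h4]
    exact h
  refine (Finset.sum_le_sum h3).trans (le_of_eq ?_)
  rw [Finset.sum_const, Finset.card_range, nsmul_eq_mul]
  push_cast
  ring

private theorem W5_prod (s : Finset ℕ) (a b : ℕ → ℝ) (ha : ∀ i, 0 ≤ a i ∧ a i ≤ 1) (hb : ∀ i, 0 ≤ b i ∧ b i ≤ 1) :
    |∏ i ∈ s, a i - ∏ i ∈ s, b i| ≤ ∑ i ∈ s, |a i - b i| := by
  classical
  induction s using Finset.induction_on with
  | empty => simp
  | insert i s hi ih =>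
    rw [Finset.prod_insert hi, Finset.prod_insert hi, Finset.sum_insert hi]
    have h1 : a i * ∏ x ∈ s, a x - b i * ∏ x ∈ s, b x
        = (a i - b i) * ∏ x ∈ s, a x + b i * (∏ x ∈ s, a x - ∏ x ∈ s, b x) := by ring
    rw [h1]
    refine (abs_add_le _ _).trans (add_le_add ?_ ?_)
    · rw [abs_mul]
      have h2 : |∏ x ∈ s, a x| ≤ 1 := by
        rw [abs_of_nonneg (Finset.prod_nonneg fun x _ => (ha x).1)]
        exact Finset.prod_le_one (fun x _ => (ha x).1) fun x _ => (ha x).2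
      exact mul_le_of_le_one_right (abs_nonneg _) h2
    · rw [abs_mul, abs_of_nonneg (hb i).1]
      exact (mul_le_of_le_one_left (abs_nonneg _) (hb i).2).trans ih

private theorem W5_fib {Z Y : Type} [MeasurableSpace Z] [MeasurableSpace Y] (ζ : Measure Z) [IsProbabilityMeasure ζ]
    (ν : Measure Y) [IsProbabilityMeasure ν] (B : Set (Z × Y)) (hB : MeasurableSet B) :
    Measurable (fun z => ν.real {y | (z, y) ∈ B}) ∧ ∫ z, ν.real {y | (z, y) ∈ B} ∂ζ = (ζ.prod ν).real B := by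
  have h1 : Measurable (fun z => ν {y | (z, y) ∈ B}) := measurable_measure_prodMk_left hB
  refine ⟨h1.ennreal_toReal, ?_⟩
  unfold Measure.real
  rw [integral_toReal h1.aemeasurable (Eventually.of_forall fun z => measure_lt_top _ _), Measure.prod_apply hB]
  rfl

private theorem W5_cmp2 {Z Y : Type} [MeasurableSpace Z] [MeasurableSpace Y] (ζ : Measure Z) [IsProbabilityMeasure ζ]
    (ν : Measure Y) [IsProbabilityMeasure ν] (A A' : Set (Z × Y)) (hA : MeasurableSet A) (hA' : MeasurableSet A')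
    (R : ℕ → Z → Z) (hR : ∀ i, MeasurePreserving (R i) ζ ζ) (r : ℕ) (δ : ℝ)
    (h : (ζ.prod ν).real (symmDiff A A') ≤ δ) :
    |(∫ z, ∏ i ∈ range (r + 1), ν.real {y | (R i z, y) ∈ A} ∂ζ)
      - ∫ z, ∏ i ∈ range (r + 1), ν.real {y | (R i z, y) ∈ A'} ∂ζ| ≤ (r + 1) * δ := by
  have h01 : ∀ (B : Set (Z × Y)) (z : Z), 0 ≤ ν.real {y | (z, y) ∈ B} ∧ ν.real {y | (z, y) ∈ B} ≤ 1 :=
    fun B z => ⟨measureReal_nonneg, measureReal_le_one⟩
  have hint : ∀ B : Set (Z × Y), MeasurableSet B →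
      Integrable (fun z => ∏ i ∈ range (r + 1), ν.real {y | (R i z, y) ∈ B}) ζ := by
    intro B hB
    have hm : Measurable (fun z => ∏ i ∈ range (r + 1), ν.real {y | (R i z, y) ∈ B}) :=
      Finset.measurable_prod _ fun i _ => (W5_fib ζ ν B hB).1.comp (hR i).measurable
    refine Integrable.of_bound hm.aestronglyMeasurable 1 (Eventually.of_forall fun z => ?_)
    rw [Real.norm_eq_abs, abs_of_nonneg (Finset.prod_nonneg fun i _ => (h01 B _).1)]
    exact Finset.prod_le_one (fun i _ => (h01 B _).1) fun i _ => (h01 B _).2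
  rw [← integral_sub (hint A hA) (hint A' hA')]
  have hS : MeasurableSet (symmDiff A A') := hA.symmDiff hA'
  have hi2 : ∀ i, Integrable (fun z => ν.real {y | (R i z, y) ∈ symmDiff A A'}) ζ := by
    intro i
    refine Integrable.of_bound ((W5_fib ζ ν _ hS).1.comp (hR i).measurable).aestronglyMeasurable 1
      (Eventually.of_forall fun z => ?_)
    rw [Real.norm_eq_abs, abs_of_nonneg measureReal_nonneg]
    exact measureReal_le_one
  have h1 : |∫ z, ((∏ i ∈ range (r + 1), ν.real {y | (R i z, y) ∈ A})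
      - ∏ i ∈ range (r + 1), ν.real {y | (R i z, y) ∈ A'}) ∂ζ|
      ≤ ∫ z, ∑ i ∈ range (r + 1), ν.real {y | (R i z, y) ∈ symmDiff A A'} ∂ζ := by
    refine (abs_integral_le_integral_abs).trans ?_
    refine integral_mono ((hint A hA).sub (hint A' hA')).abs (integrable_finsetSum _ fun i _ => hi2 i) fun z => ?_
    refine (W5_prod _ _ _ (fun i => h01 A _) fun i => h01 A' _).trans (Finset.sum_le_sum fun i _ => ?_)
    have hm : ∀ B : Set (Z × Y), MeasurableSet B → MeasurableSet {y | (R i z, y) ∈ B} := fun B hB =>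
      measurable_prodMk_left hB
    exact abs_measureReal_sub_le_measureReal_symmDiff (hm A hA).nullMeasurableSet (hm A' hA').nullMeasurableSet
  refine h1.trans ?_
  rw [integral_finsetSum _ fun i _ => hi2 i]
  have h2 : ∀ i ∈ range (r + 1), ∫ z, ν.real {y | (R i z, y) ∈ symmDiff A A'} ∂ζ ≤ δ := by
    intro i _
    have h3 : ∫ z, ν.real {y | (R i z, y) ∈ symmDiff A A'} ∂ζ = ∫ z, ν.real {y | (z, y) ∈ symmDiff A A'} ∂ζ := by
      have h4 := integral_map (μ := ζ) (hR i).measurable.aemeasurable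
        (f := fun z => ν.real {y | (z, y) ∈ symmDiff A A'})
        (by rw [(hR i).map_eq]; exact (W5_fib ζ ν _ hS).1.aestronglyMeasurable)
      rw [(hR i).map_eq] at h4
      exact h4.symm
    rw [h3, (W5_fib ζ ν _ hS).2]
    exact h
  refine (Finset.sum_le_sum h2).trans (le_of_eq ?_)
  rw [Finset.sum_const, Finset.card_range, nsmul_eq_mul]
  push_cast
  ring

/-- for all measurable sets -/
theorem prodW {Z Y : Type} [MeasurableSpace Z] [MeasurableSpace Y] (ζ : Measure Z) [IsProbabilityMeasure ζ]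
    (ν : Measure Y) [IsProbabilityMeasure ν] (ρ : ℤ → Z → Z) (hρ : Sys ζ ρ) (τ : ℤ → Y → Y) (hτ : Sys ν τ)
    (hc : Cls ν τ) (W : ℕ → ℝ) (hW : GW W) (r : ℕ) (A : Set (Z × Y)) (hA : MeasurableSet A)
    (w : ℤ → ℝ) (hw : ∀ d, 0 ≤ w d ∧ w d ≤ 1) :
    Tendsto (fun j : ℕ => R2 W j (fun d => w d * ((ζ.prod ν).real {x | ∀ i : ℕ, i ≤ r →
        (ρ ((i : ℤ) * d) x.1, τ ((i : ℤ) * d) x.2) ∈ A}
      - ∫ z, ∏ i ∈ range (r + 1), ν.real {y | (ρ ((i : ℤ) * d) z, y) ∈ A} ∂ζ))) atTop (𝓝 0) := by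

  rw [Metric.tendsto_nhds]
  intro ε hε
  set δ : ℝ := ε / (8 * (r + 1)) with hδ
  have hr : (0 : ℝ) < (r : ℝ) + 1 := by positivity
  have hδ0 : 0 < δ := by positivity
  obtain ⟨n, P, Q, hP, hQ, hd, happ⟩ := rect_approx ζ ν A hA δ hδ0
  set A' : Set (Z × Y) := ⋃ k, P k ×ˢ Q k with hA'
  have hA'm : MeasurableSet A' := MeasurableSet.iUnion fun k => (hP k).prod (hQ k)
  have h1 := prodW_rect ζ ν ρ hρ τ hτ hc W hW r n P Q hP hQ hd w hw
  rw [← hA'] at h1
  have h2 : ∀ᶠ j : ℕ in atTop, R2 W j (fun _ => 1) ≤ 2 := (mass W hW).eventually_le_const (by norm_num)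
  rw [Metric.tendsto_nhds] at h1
  filter_upwards [h1 (ε / 2) (by positivity), h2] with j hj hj2
  rw [Real.dist_eq, sub_zero] at hj ⊢
  set f : ℤ → ℝ := fun d => w d * ((ζ.prod ν).real {x | ∀ i : ℕ, i ≤ r →
        (ρ ((i : ℤ) * d) x.1, τ ((i : ℤ) * d) x.2) ∈ A}
      - ∫ z, ∏ i ∈ range (r + 1), ν.real {y | (ρ ((i : ℤ) * d) z, y) ∈ A} ∂ζ) with hf
  set f' : ℤ → ℝ := fun d => w d * ((ζ.prod ν).real {x | ∀ i : ℕ, i ≤ r →
        (ρ ((i : ℤ) * d) x.1, τ ((i : ℤ) * d) x.2) ∈ A'}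
      - ∫ z, ∏ i ∈ range (r + 1), ν.real {y | (ρ ((i : ℤ) * d) z, y) ∈ A'} ∂ζ) with hf'
  have hc1 : ∀ d, |f d - f' d| ≤ 2 * ((r + 1) * δ) := by
    intro d
    have e1 := W5_cmp1 (ζ.prod ν) A A' hA hA'm (fun i : ℕ => fun x : Z × Y => (ρ ((i : ℤ) * d) x.1, τ ((i : ℤ) * d) x.2))
      (fun i => (hρ.mp _).prod (hτ.mp _)) r δ happ
    have e2 := W5_cmp2 ζ ν A A' hA hA'm (fun i : ℕ => ρ ((i : ℤ) * d)) (fun i => hρ.mp _) r δ happ
    rw [hf, hf']
    simp only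
    rw [← mul_sub, abs_mul, abs_of_nonneg (hw d).1]
    refine (mul_le_of_le_one_left (abs_nonneg _) (hw d).2).trans ?_
    have e3 : ∀ p q p' q' : ℝ, |p - q - (p' - q')| ≤ |p - p'| + |q - q'| := by
      intro p q p' q'
      have : p - q - (p' - q') = (p - p') - (q - q') := by ring
      rw [this]
      exact abs_sub _ _
    refine (e3 _ _ _ _).trans ?_
    linarith
  have e4 : |R2 W j f - R2 W j f'| ≤ 2 * ((r + 1) * δ) * R2 W j (fun _ => 1) := by
    have u1 : R2 W j f ≤ R2 W j f' + 2 * ((r + 1) * δ) * R2 W j (fun _ => 1) := by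
      rw [← R2_smul, ← R2_add]
      refine R2_mono W hW.1 j _ _ fun d => ?_
      have := (abs_le.mp (hc1 d)).2
      linarith
    have u2 : R2 W j f' ≤ R2 W j f + 2 * ((r + 1) * δ) * R2 W j (fun _ => 1) := by
      rw [← R2_smul, ← R2_add]
      refine R2_mono W hW.1 j _ _ fun d => ?_
      have := (abs_le.mp (hc1 d)).1
      linarith
    rw [abs_le]
    constructor <;> linarith
  have e5 : 2 * ((r + 1) * δ) = ε / 4 := by
    rw [hδ]
    field_simp
    ring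
  rw [e5] at e4
  have e6 : ε / 4 * R2 W j (fun _ => 1) ≤ ε / 4 * 2 := mul_le_mul_of_nonneg_left hj2 (by positivity)
  calc |R2 W j f| = |R2 W j f' + (R2 W j f - R2 W j f')| := by congr 1; ring
    _ ≤ |R2 W j f'| + |R2 W j f - R2 W j f'| := abs_add_le _ _
    _ < ε / 2 + ε / 2 := by linarith
    _ = ε := by ring

end Pool.Agent.Sgs
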