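import Pool.Agent.Sgs.Slots

/-!
# Theorem A (text, section 5)
-/

set_option autoImplicit false

namespace Pool.Agent.Sgs

open MeasureTheory Filter Finset
open scoped Topology ENNReal

/-- The convergence statement for `n` different multipliers. -/
def Full {X : Type} [MeasurableSpace X] (μ : Measure X) (τ : ℤ → X → X) (W : ℕ → ℝ) (n : ℕ) : Prop :=
  ∀ I : Finset ℤ, I.card = n → ∀ F : ℤ → X → ℂ, (∀ i, Bd (F i)) →
    Tendsto (fun j : ℕ => E2 W j (fun d => ∫ x, ∏ i ∈ I, F i (τ (i * d) x) ∂μ)) atTop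
      (𝓝 (∏ i ∈ I, ∫ x, F i x ∂μ))

/-- The class of systems of Theorem A. -/
def Cls {X : Type} [MeasurableSpace X] (μ : Measure X) (τ : ℤ → X → X) : Prop :=
  ∀ f : X → ℂ, Bd f → ∫ x, f x ∂μ = 0 → ∃ (g h : X → ℂ) (σ : Measure Cir), Bd g ∧ Bd h ∧
    (∀ᵐ x ∂μ, f x = g x + h x) ∧ Sp μ τ g σ ∧ σ ⟂ₘ (volume : Measure Cir) ∧ (∀ t, σ {t} = 0) ∧ Mx μ τ h

/-! ## module TA0: cardinality 0 and 1, and means -/

private theorem TA0_int {X : Type} [MeasurableSpace X] (μ : Measure X) [IsProbabilityMeasure μ] (τ : ℤ → X → X)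
    (hτ : Sys μ τ) (f : X → ℂ) (hf : Measurable f) (n : ℤ) : ∫ x, f (τ n x) ∂μ = ∫ x, f x ∂μ := by
  have h1 := (hτ.mp n).map_eq
  have h2 : ∫ x, f x ∂(Measure.map (τ n) μ) = ∫ x, f (τ n x) ∂μ :=
    integral_map (hτ.mp n).measurable.aemeasurable hf.aestronglyMeasurable
  rw [← h2, h1]

private theorem TA0_const (W : ℕ → ℝ) (hW : GW W) (c : ℂ) :
    Tendsto (fun j : ℕ => E2 W j (fun _ => c)) atTop (𝓝 c) := by
  have h1 : (fun j : ℕ => E2 W j (fun _ => c)) = fun j : ℕ => c * ((R2 W j (fun _ => 1) : ℝ) : ℂ) := by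
    funext j
    rw [← E2_ofReal, ← E2_smul]
    simp
  rw [h1]
  have h2 : Tendsto (fun j : ℕ => ((R2 W j (fun _ => 1) : ℝ) : ℂ)) atTop (𝓝 ((1 : ℝ) : ℂ)) :=
    (Complex.continuous_ofReal.tendsto _).comp (mass W hW)
  have h3 := h2.const_mul c
  simpa using h3

theorem full0 {X : Type} [MeasurableSpace X] (μ : Measure X) [IsProbabilityMeasure μ] (τ : ℤ → X → X)
    (hτ : Sys μ τ) (W : ℕ → ℝ) (hW : GW W) : Full μ τ W 0 := by
  intro I hI F hF
  have hI0 : I = ∅ := Finset.card_eq_zero.mp hI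
  have h1 : ∀ d : ℤ, ∫ x, ∏ i ∈ I, F i (τ (i * d) x) ∂μ = 1 := by
    intro d
    rw [hI0]
    simp
  have h2 : ∏ i ∈ I, ∫ x, F i x ∂μ = 1 := by
    rw [hI0, Finset.prod_empty]
  rw [h2]
  simp only [h1]
  exact TA0_const W hW 1

theorem full1 {X : Type} [MeasurableSpace X] (μ : Measure X) [IsProbabilityMeasure μ] (τ : ℤ → X → X)
    (hτ : Sys μ τ) (W : ℕ → ℝ) (hW : GW W) : Full μ τ W 1 := by
  intro I hI F hF
  obtain ⟨m, hm⟩ := Finset.card_eq_one.mp hI
  have h1 : ∀ d : ℤ, ∫ x, ∏ i ∈ I, F i (τ (i * d) x) ∂μ = ∫ x, F m x ∂μ := by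
    intro d
    rw [hm]
    simp only [Finset.prod_singleton]
    exact TA0_int μ τ hτ (F m) (hF m).1 (m * d)
  have h2 : ∏ i ∈ I, ∫ x, F i x ∂μ = ∫ x, F m x ∂μ := by
    rw [hm, Finset.prod_singleton]
  rw [h2]
  simp only [h1]
  exact TA0_const W hW _

theorem mx_mean {X : Type} [MeasurableSpace X] (μ : Measure X) [IsProbabilityMeasure μ] (τ : ℤ → X → X)
    (hτ : Sys μ τ) (h : X → ℂ) (hh : Bd h) (hm : Mx μ τ h) : ∫ x, h x ∂μ = 0 := by
  have h1 := hm ∅ 0 (Finset.notMem_empty _) (fun _ _ => 0) (fun _ => ⟨measurable_const, 0, by simp⟩)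
  have h2 : ∀ d : ℕ, ∫ x, h (τ (0 * (d : ℤ)) x) * ∏ i ∈ (∅ : Finset ℤ), (fun _ _ => (0 : ℂ)) i (τ (i * (d : ℤ)) x) ∂μ
      = ∫ x, h x ∂μ := by
    intro d
    simp only [Finset.prod_empty, mul_one]
    exact TA0_int μ τ hτ h hh.1 (0 * (d : ℤ))
  have h3 : Tendsto (fun _ : ℕ => ∫ x, h x ∂μ) atTop (𝓝 0) := by
    refine h1.congr fun d => ?_
    exact h2 d
  exact tendsto_nhds_unique tendsto_const_nhds h3

/-! ## module TA1: mixing functions may be dropped -/

private theorem TA1_prod {X : Type} [MeasurableSpace X] (μ : Measure X) (τ : ℤ → X → X) (hτ : Sys μ τ)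
    (I : Finset ℤ) (F : ℤ → X → ℂ) (hF : ∀ i, Bd (F i)) (n : ℤ → ℤ) :
    Bd (fun x => ∏ i ∈ I, F i (τ (n i) x)) := by
  refine ⟨Finset.measurable_prod _ fun i _ => (hF i).1.comp (hτ.mp (n i)).measurable, ?_⟩
  have h1 : ∀ i, ∃ C : ℝ, ∀ x, ‖F i x‖ ≤ C := fun i => (hF i).2
  choose C hC using h1
  refine ⟨∏ i ∈ I, C i, fun x => ?_⟩
  rw [norm_prod]
  exact Finset.prod_le_prod (fun i _ => norm_nonneg _) fun i _ => hC i _

private theorem TA1_int {X : Type} [MeasurableSpace X] (μ : Measure X) [IsProbabilityMeasure μ] {f : X → ℂ}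
    (hf : Bd f) : Integrable f μ := by
  obtain ⟨h1, C, h2⟩ := hf
  exact Integrable.of_bound h1.aestronglyMeasurable C (Filter.Eventually.of_forall h2)

private theorem TA1_mul {X : Type} [MeasurableSpace X] {f g : X → ℂ} (hf : Bd f) (hg : Bd g) :
    Bd (fun x => f x * g x) := by
  obtain ⟨h1, C, h2⟩ := hf
  obtain ⟨h3, D, h4⟩ := hg
  refine ⟨h1.mul h3, C * D, fun x => ?_⟩
  rw [norm_mul]
  exact mul_le_mul (h2 x) (h4 x) (norm_nonneg _) ((norm_nonneg _).trans (h2 x))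

private theorem TA1_comp {X : Type} [MeasurableSpace X] (μ : Measure X) (τ : ℤ → X → X) (hτ : Sys μ τ)
    {f : X → ℂ} (hf : Bd f) (n : ℤ) : Bd (fun x => f (τ n x)) := by
  obtain ⟨h1, C, h2⟩ := hf
  exact ⟨h1.comp (hτ.mp n).measurable, C, fun x => h2 _⟩

/-- a term with a mixing function tends to zero under `E2` (`Mx` for the multipliers `i`, and `-i` for negative `d`) -/
theorem mx_drop {X : Type} [MeasurableSpace X] (μ : Measure X) [IsProbabilityMeasure μ] (τ : ℤ → X → X)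
    (hτ : Sys μ τ) (W : ℕ → ℝ) (hW : GW W) (h : X → ℂ) (hh : Bd h) (hm : Mx μ τ h) (I : Finset ℤ) (m : ℤ)
    (hI : m ∉ I) (F : ℤ → X → ℂ) (hF : ∀ i, Bd (F i)) :
    Tendsto (fun j : ℕ => E2 W j (fun d => ∫ x, h (τ (m * d) x) * ∏ i ∈ I, F i (τ (i * d) x) ∂μ)) atTop
      (𝓝 0) := by
  refine E2_null W hW _ (hm I m hI F hF) ?_
  have h1 := hm (I.image fun i => -i) (-m) (by
    intro h2
    obtain ⟨i, hi, h3⟩ := Finset.mem_image.mp h2
    have h4 : i = m := by omega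
    exact hI (h4 ▸ hi)) (fun i => F (-i)) (fun i => hF (-i))
  refine h1.congr fun d => ?_
  refine integral_congr_ae (Filter.Eventually.of_forall fun x => ?_)
  have h2 : ∏ i ∈ I.image (fun i => -i), (fun i => F (-i)) i (τ (i * (d : ℤ)) x)
      = ∏ i ∈ I, F i (τ (i * (-(d : ℤ))) x) := by
    rw [Finset.prod_image (fun a _ b _ hab => neg_injective hab)]
    refine Finset.prod_congr rfl fun i _ => ?_
    change F (- -i) (τ (-i * (d : ℤ)) x) = _
    rw [neg_neg, neg_mul_comm]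
  change h (τ (-m * (d : ℤ)) x) * _ = h (τ (m * (-(d : ℤ))) x) * _
  rw [h2, neg_mul_comm]

open Classical in
private theorem TA1_step {X : Type} [MeasurableSpace X] (μ : Measure X) [IsProbabilityMeasure μ] (τ : ℤ → X → X)
    (hτ : Sys μ τ) (W : ℕ → ℝ) (hW : GW W) (I : Finset ℤ) (F G h : ℤ → X → ℂ) (hF : ∀ i, Bd (F i))
    (hG : ∀ i, Bd (G i)) (hh : ∀ i, Bd (h i)) (hm : ∀ i, Mx μ τ (h i))
    (hFG : ∀ i, ∀ᵐ x ∂μ, F i x = G i x + h i x) (T : Finset ℤ) (m : ℤ) (hmI : m ∈ I) (hmT : m ∉ T) :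
    Tendsto (fun j : ℕ => E2 W j (fun d => ∫ x, ∏ i ∈ I, (if i ∈ T then G i else F i) (τ (i * d) x) ∂μ)
      - E2 W j (fun d => ∫ x, ∏ i ∈ I, (if i ∈ insert m T then G i else F i) (τ (i * d) x) ∂μ)) atTop (𝓝 0) := by
  have hH : ∀ i, Bd (if i ∈ T then G i else F i) := by
    intro i
    by_cases h1 : i ∈ T
    · rw [if_pos h1]; exact hG i
    · rw [if_neg h1]; exact hF i
  have hH' : ∀ i, Bd (if i ∈ insert m T then G i else F i) := by
    intro i
    by_cases h1 : i ∈ insert m T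
    · rw [if_pos h1]; exact hG i
    · rw [if_neg h1]; exact hF i
  have key := mx_drop μ τ hτ W hW (h m) (hh m) (hm m) (I.erase m) m (Finset.notMem_erase m I)
    (fun i => if i ∈ T then G i else F i) hH
  refine key.congr fun j => ?_
  rw [← E2_sub]
  congr 1
  funext d
  have e1 := TA1_int μ (TA1_prod μ τ hτ I _ hH (fun i => i * d))
  have e2 := TA1_int μ (TA1_prod μ τ hτ I _ hH' (fun i => i * d))
  rw [← integral_sub e1 e2]
  refine integral_congr_ae ?_
  have h3 : ∀ᵐ x ∂μ, F m (τ (m * d) x) = G m (τ (m * d) x) + h m (τ (m * d) x) :=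
    (hτ.mp (m * d)).quasiMeasurePreserving.ae (hFG m)
  filter_upwards [h3] with x hx
  have h4 : ∏ i ∈ I, (if i ∈ T then G i else F i) (τ (i * d) x) =
      F m (τ (m * d) x) * ∏ i ∈ I.erase m, (if i ∈ T then G i else F i) (τ (i * d) x) := by
    rw [← Finset.mul_prod_erase I _ hmI, if_neg hmT]
  have h5 : ∏ i ∈ I, (if i ∈ insert m T then G i else F i) (τ (i * d) x) =
      G m (τ (m * d) x) * ∏ i ∈ I.erase m, (if i ∈ T then G i else F i) (τ (i * d) x) := by
    rw [← Finset.mul_prod_erase I _ hmI, if_pos (Finset.mem_insert_self m T)]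
    congr 1
    refine Finset.prod_congr rfl fun i hi => ?_
    have h6 : i ≠ m := (Finset.mem_erase.mp hi).1
    by_cases h7 : i ∈ T
    · rw [if_pos h7, if_pos (Finset.mem_insert_of_mem h7)]
    · rw [if_neg h7, if_neg (fun h8 => by
        rcases Finset.mem_insert.mp h8 with h9 | h9
        · exact h6 h9
        · exact h7 h9)]
  rw [h4, h5, hx]
  ring

/-- replace the `F i` by the `G i` one after the other (induction on a subset of `I`) -/
theorem mx_red {X : Type} [MeasurableSpace X] (μ : Measure X) [IsProbabilityMeasure μ] (τ : ℤ → X → X)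
    (hτ : Sys μ τ) (W : ℕ → ℝ) (hW : GW W) (I : Finset ℤ) (F G h : ℤ → X → ℂ) (hF : ∀ i, Bd (F i))
    (hG : ∀ i, Bd (G i)) (hh : ∀ i, Bd (h i)) (hm : ∀ i, Mx μ τ (h i))
    (hFG : ∀ i, ∀ᵐ x ∂μ, F i x = G i x + h i x) :
    Tendsto (fun j : ℕ => E2 W j (fun d => ∫ x, ∏ i ∈ I, F i (τ (i * d) x) ∂μ)
      - E2 W j (fun d => ∫ x, ∏ i ∈ I, G i (τ (i * d) x) ∂μ)) atTop (𝓝 0) := by
  classical
  have key : ∀ T : Finset ℤ, T ⊆ I →
      Tendsto (fun j : ℕ => E2 W j (fun d => ∫ x, ∏ i ∈ I, F i (τ (i * d) x) ∂μ)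
        - E2 W j (fun d => ∫ x, ∏ i ∈ I, (if i ∈ T then G i else F i) (τ (i * d) x) ∂μ)) atTop (𝓝 0) := by
    intro T
    induction T using Finset.induction_on with
    | empty =>
      intro _
      simp
    | insert m T hmT ih =>
      intro hT
      have h1 := ih fun x hx => hT (Finset.mem_insert_of_mem hx)
      have h2 := TA1_step μ τ hτ W hW I F G h hF hG hh hm hFG T m (hT (Finset.mem_insert_self m T)) hmT
      have h3 := h1.add h2
      rw [add_zero] at h3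
      refine h3.congr fun j => ?_
      ring
  refine (key I (Finset.Subset.refl I)).congr fun j => ?_
  have h4 : (fun d : ℤ => ∫ x, ∏ i ∈ I, (if i ∈ I then G i else F i) (τ (i * d) x) ∂μ) =
      fun d : ℤ => ∫ x, ∏ i ∈ I, G i (τ (i * d) x) ∂μ := by
    funext d
    congr 1
    funext x
    exact Finset.prod_congr rfl fun i hi => by rw [if_pos hi]
  rw [h4]

/-! ## module TA2: two multipliers -/

/-- From `freq_pair` (with `θ = 0`, `m ≠ 0`): `{t | m • t = 0}` is finite, so it has measure zero. -/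
theorem full2 {X : Type} [MeasurableSpace X] (μ : Measure X) [IsProbabilityMeasure μ] (τ : ℤ → X → X)
    (hτ : Sys μ τ) (hc : Cls μ τ) (W : ℕ → ℝ) (hW : GW W) : Full μ τ W 2 := by
  intro I hI F hF
  obtain ⟨m, n, hmn, hI2⟩ := Finset.card_eq_two.mp hI
  have hcalc : ∀ (G : X → ℂ), Bd G → ∀ d : ℤ, ∫ x, F m (τ (m * d) x) * G (τ (n * d) x) ∂μ =
      ∫ x, F m x * G (τ ((n - m) * d) x) ∂μ := by
    intro G hG d
    have h1 := TA0_int μ τ hτ (fun x => F m x * G (τ ((n - m) * d) x))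
      ((hF m).1.mul (hG.1.comp (hτ.mp _).measurable)) (m * d)
    rw [← h1]
    congr 1
    funext x
    have h2 : τ ((n - m) * d) (τ (m * d) x) = τ (n * d) x := by
      rw [← hτ.add]
      congr 1
      ring
    change _ = F m (τ (m * d) x) * G (τ ((n - m) * d) (τ (m * d) x))
    rw [h2]
  -- the mean zero part
  have hc0 : Bd (fun x => F n x - ∫ y, F n y ∂μ) := by
    obtain ⟨h1, C, h2⟩ := hF n
    refine ⟨h1.sub measurable_const, C + ‖∫ y, F n y ∂μ‖, fun x => ?_⟩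
    exact (norm_sub_le _ _).trans (add_le_add (h2 x) le_rfl)
  have hz : ∫ x, (F n x - ∫ y, F n y ∂μ) ∂μ = 0 := by
    rw [integral_sub (TA1_int μ (hF n)) (integrable_const _)]
    simp
  obtain ⟨g, h, σ, hg, hh, hae, hsp, hsing, hat, hmx⟩ := hc _ hc0 hz
  -- mixing part
  have t1 := mx_drop μ τ hτ W hW h hh hmx {m} n (by simpa using hmn.symm) F hF
  -- singular part
  have t2 : Tendsto (fun j : ℕ => E2 W j (fun d => ∫ x, F m x * g (τ ((n - m) * d) x) ∂μ)) atTop (𝓝 0) := by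
    have hset : σ {t | (n - m) • t + (0 : Cir) = 0} = 0 := by
      have hfin : {t : Cir | (n - m) • t + (0 : Cir) = 0}.Finite := by
        have hk : 0 < (n - m).natAbs := by omega
        refine (AddCircle.finite_torsion (1 : ℝ) hk).subset fun t ht => ?_
        have h3 : (n - m) • t = 0 := by
          have h4 : (n - m) • t + (0 : Cir) = 0 := ht
          rwa [add_zero] at h4
        change (n - m).natAbs • t = 0
        rcases Int.natAbs_eq (n - m) with h5 | h5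
        · rw [h5] at h3
          rw [← natCast_zsmul]
          exact h3
        · rw [h5, neg_smul, neg_eq_zero] at h3
          rw [← natCast_zsmul]
          exact h3
      haveI : NullSingletonClass σ := ⟨hat⟩
      exact hfin.measure_zero σ
    rw [Metric.tendsto_nhds]
    intro ε hε
    set A : ℝ := ∫ x, ‖F m x‖ ^ 2 ∂μ with hA
    have hA0 : 0 ≤ A := integral_nonneg fun x => by positivity
    have h3 := freq_pair μ τ hτ W hW g hg σ hsp (n - m) 0 (ε ^ 2 / (2 * (A + 1))) (by positivity)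
    filter_upwards [h3] with j hj
    have h4 := hj (F m) (hF m)
    rw [hset] at h4
    simp only [fourier_eval_zero, one_mul, ENNReal.toReal_zero, zero_add] at h4
    rw [dist_zero_right]
    have h5 : A * (ε ^ 2 / (2 * (A + 1))) < ε ^ 2 := by
      have h6 : A * (ε ^ 2 / (2 * (A + 1))) = ε ^ 2 * (A / (2 * (A + 1))) := by ring
      rw [h6]
      have h7 : A / (2 * (A + 1)) < 1 := by
        rw [div_lt_one (by positivity)]
        linarith
      have h8 : 0 < ε ^ 2 := by positivity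
      nlinarith
    exact lt_of_pow_lt_pow_left₀ 2 hε.le (lt_of_le_of_lt h4 h5)
  -- the constant part
  have t3 := TA0_const W hW ((∫ x, F m x ∂μ) * ∫ x, F n x ∂μ)
  have t4 := (t3.add t2).add t1
  rw [add_zero, add_zero] at t4
  have h2 : ∏ i ∈ I, ∫ x, F i x ∂μ = (∫ x, F m x ∂μ) * ∫ x, F n x ∂μ := by
    rw [hI2, Finset.prod_pair hmn]
  rw [h2]
  refine t4.congr fun j => ?_
  rw [← E2_add, ← E2_add]
  congr 1
  funext d
  have e1 : ∫ x, ∏ i ∈ I, F i (τ (i * d) x) ∂μ = ∫ x, F m (τ (m * d) x) * F n (τ (n * d) x) ∂μ := by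
    congr 1
    funext x
    rw [hI2, Finset.prod_pair hmn]
  rw [e1, ← hcalc g hg d]
  simp only [Finset.prod_singleton]
  have i1 : Integrable (fun x => F m (τ (m * d) x) * g (τ (n * d) x)) μ :=
    TA1_int μ (TA1_mul (TA1_comp μ τ hτ (hF m) _) (TA1_comp μ τ hτ hg _))
  have i2 : Integrable (fun x => h (τ (n * d) x) * F m (τ (m * d) x)) μ :=
    TA1_int μ (TA1_mul (TA1_comp μ τ hτ hh _) (TA1_comp μ τ hτ (hF m) _))
  have i3 : Integrable (fun x => F m (τ (m * d) x) * ∫ y, F n y ∂μ) μ :=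
    (TA1_int μ (TA1_comp μ τ hτ (hF m) _)).mul_const _
  have e2 : (∫ x, F m x ∂μ) * ∫ x, F n x ∂μ = ∫ x, F m (τ (m * d) x) * (∫ y, F n y ∂μ) ∂μ := by
    rw [integral_mul_const, TA0_int μ τ hτ (F m) (hF m).1]
  have i4 : Integrable (fun x => F m (τ (m * d) x) * (∫ y, F n y ∂μ) + F m (τ (m * d) x) * g (τ (n * d) x)) μ :=
    i3.add i1
  rw [e2, ← integral_add i3 i1, ← integral_add i4 i2]
  refine integral_congr_ae ?_
  have h3 : ∀ᵐ x ∂μ, F n (τ (n * d) x) - ∫ y, F n y ∂μ = g (τ (n * d) x) + h (τ (n * d) x) :=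
    (hτ.mp (n * d)).quasiMeasurePreserving.ae hae
  filter_upwards [h3] with x hx
  have h4 : F n (τ (n * d) x) = (∫ y, F n y ∂μ) + g (τ (n * d) x) + h (τ (n * d) x) := by
    rw [add_assoc, ← hx]; ring
  change F m (τ (m * d) x) * (∫ y, F n y ∂μ) + F m (τ (m * d) x) * g (τ (n * d) x) +
    h (τ (n * d) x) * F m (τ (m * d) x) = _
  rw [h4]
  ring

/-! ## module TA3: one singular slot -/

private theorem TA3_conj {X : Type} [MeasurableSpace X] {f : X → ℂ} (hf : Bd f) :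
    Bd (fun x => (starRingEnd ℂ) (f x)) := by
  obtain ⟨h1, C, h2⟩ := hf
  refine ⟨Complex.continuous_conj.measurable.comp h1, C, fun x => ?_⟩
  change ‖(starRingEnd ℂ) (f x)‖ ≤ C
  rw [RCLike.norm_conj]
  exact h2 x

open Classical in
private theorem TA3_quad {X : Type} [MeasurableSpace X] (μ : Measure X) [IsProbabilityMeasure μ] (τ : ℤ → X → X)
    (hτ : Sys μ τ) (W : ℕ → ℝ) (A C : Finset ℤ) (hAC : Disjoint A C) (hfull : Full μ τ W (A ∪ C).card)
    (F : ℤ → X → ℂ) (hF : ∀ i, Bd (F i)) (σ : ℤ → Measure Cir) (hσ : ∀ i, Sp μ τ (F i) (σ i))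
    (ρ ρ' : Measure Cir) [IsFiniteMeasure ρ] [IsFiniteMeasure ρ']
    (hρ : ∀ n : ℤ, ∫ t, fourier n t ∂ρ = ∏ i ∈ A, ∫ t, fourier n t ∂(σ i))
    (hρ' : ∀ n : ℤ, ∫ t, fourier n t ∂ρ' = ∏ i ∈ C, ∫ t, fourier n t ∂(σ i))
    (s : Finset (ℤ × ℤ)) (a : ℤ × ℤ → ℂ) (ε : ℝ) (hε : 0 < ε) :
    ∀ᶠ j : ℕ in atTop, R2 W j (fun d => ∫ x, ‖∑ p ∈ s, a p * ((∏ i ∈ A, F i (τ (p.1 + i * d) x)) *
        ∏ i ∈ C, F i (τ (p.2 + i * d) x))‖ ^ 2 ∂μ)
      ≤ (∫ z, ‖∑ p ∈ s, a p * (fourier p.1 z.1 * fourier p.2 z.2)‖ ^ 2 ∂(ρ.prod ρ')) + ε := by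
  refine quad μ W (fun p d x => (∏ i ∈ A, F i (τ (p.1 + i * d) x)) * ∏ i ∈ C, F i (τ (p.2 + i * d) x))
    (fun p d => TA1_mul (TA1_prod μ τ hτ A F hF (fun i => p.1 + i * d)) (TA1_prod μ τ hτ C F hF (fun i => p.2 + i * d)))
    ρ ρ' ?_ s a ε hε
  intro p q
  have hH : ∀ i, Bd (if i ∈ A then fun y => F i (τ p.1 y) * (starRingEnd ℂ) (F i (τ q.1 y))
      else fun y => F i (τ p.2 y) * (starRingEnd ℂ) (F i (τ q.2 y))) := by
    intro i
    by_cases h1 : i ∈ A
    · rw [if_pos h1]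
      exact TA1_mul (TA1_comp μ τ hτ (hF i) _) (TA3_conj (TA1_comp μ τ hτ (hF i) _))
    · rw [if_neg h1]
      exact TA1_mul (TA1_comp μ τ hτ (hF i) _) (TA3_conj (TA1_comp μ τ hτ (hF i) _))
  have h1 := hfull (A ∪ C) rfl _ hH
  have hC : ∀ i ∈ C, i ∉ A := fun i hi hiA => Finset.disjoint_left.mp hAC hiA hi
  have e1 : ∏ i ∈ A ∪ C, ∫ x, (if i ∈ A then fun y => F i (τ p.1 y) * (starRingEnd ℂ) (F i (τ q.1 y))
      else fun y => F i (τ p.2 y) * (starRingEnd ℂ) (F i (τ q.2 y))) x ∂μ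
      = (∫ t, fourier (p.1 - q.1) t ∂ρ) * ∫ t, fourier (p.2 - q.2) t ∂ρ' := by
    rw [Finset.prod_union hAC, hρ, hρ']
    congr 1
    · refine Finset.prod_congr rfl fun i hi => ?_
      rw [← sp_translate μ τ hτ (F i) (hF i) (σ i) (hσ i) p.1 q.1]
      simp only [if_pos hi]
    · refine Finset.prod_congr rfl fun i hi => ?_
      rw [← sp_translate μ τ hτ (F i) (hF i) (σ i) (hσ i) p.2 q.2]
      simp only [if_neg (hC i hi)]
  rw [e1] at h1
  refine h1.congr fun j => ?_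
  congr 1
  funext d
  congr 1
  funext x
  rw [Finset.prod_union hAC]
  have e2 : ∏ i ∈ A, (if i ∈ A then fun y => F i (τ p.1 y) * (starRingEnd ℂ) (F i (τ q.1 y))
      else fun y => F i (τ p.2 y) * (starRingEnd ℂ) (F i (τ q.2 y))) (τ (i * d) x)
      = (∏ i ∈ A, F i (τ (p.1 + i * d) x)) * (starRingEnd ℂ) (∏ i ∈ A, F i (τ (q.1 + i * d) x)) := by
    rw [map_prod, ← Finset.prod_mul_distrib]
    refine Finset.prod_congr rfl fun i hi => ?_
    rw [if_pos hi, hτ.add, hτ.add]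
  have e3 : ∏ i ∈ C, (if i ∈ A then fun y => F i (τ p.1 y) * (starRingEnd ℂ) (F i (τ q.1 y))
      else fun y => F i (τ p.2 y) * (starRingEnd ℂ) (F i (τ q.2 y))) (τ (i * d) x)
      = (∏ i ∈ C, F i (τ (p.2 + i * d) x)) * (starRingEnd ℂ) (∏ i ∈ C, F i (τ (q.2 + i * d) x)) := by
    rw [map_prod, ← Finset.prod_mul_distrib]
    refine Finset.prod_congr rfl fun i hi => ?_
    rw [if_neg (hC i hi), hτ.add, hτ.add]
  rw [e2, e3, map_mul]
  ring

/-- `three` with `w = 1`, `f = F mA`, `h = F mC` (another element of `I`), `b m d = ∏ i ∈ J, F i ∘ τ (m + i d)`,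
`G₁ = univ`, `G₂ = ∅`, `D₁ = D = 1`; the hypotheses by `quad` and `Full` for `{mA} ∪ J`, `{mA, mC}`, `J ∪ {mC}` (product of translates
`F i (τ (p.2 + i d) x) * conj (F i (τ (q.2 + i d) x))` as one function of `τ (i d) x`), `conv`. -/
theorem slot {X : Type} [MeasurableSpace X] (μ : Measure X) [IsProbabilityMeasure μ] (τ : ℤ → X → X)
    (hτ : Sys μ τ) (W : ℕ → ℝ) (hW : GW W) (n : ℕ) (hn : 3 ≤ n) (h2 : Full μ τ W 2) (h1 : Full μ τ W (n - 1))
    (I : Finset ℤ) (hI : I.card = n) (mA : ℤ) (hmA : mA ∈ I) (F : ℤ → X → ℂ) (hF : ∀ i, Bd (F i))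
    (σ : ℤ → Measure Cir) (hσ : ∀ i, Sp μ τ (F i) (σ i)) (hs : σ mA ⟂ₘ (volume : Measure Cir))
    (ha : ∀ t, σ mA {t} = 0) :
    Tendsto (fun j : ℕ => E2 W j (fun d => ∫ x, ∏ i ∈ I, F i (τ (i * d) x) ∂μ)) atTop (𝓝 0) := by
  classical
  obtain ⟨mC, hmC⟩ : (I.erase mA).Nonempty := by
    rw [← Finset.card_pos, Finset.card_erase_of_mem hmA, hI]
    omega
  have hmC' := Finset.mem_erase.mp hmC
  set J : Finset ℤ := (I.erase mA).erase mC with hJ
  have hmAJ : mA ∉ J := fun h => (Finset.mem_erase.mp (Finset.mem_erase.mp h).2).1 rfl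
  have hmCJ : mC ∉ J := Finset.notMem_erase mC _
  have hcardJ : J.card = n - 2 := by
    rw [hJ, Finset.card_erase_of_mem hmC, Finset.card_erase_of_mem hmA, hI]
    omega
  haveI hfin : ∀ i, IsFiniteMeasure (σ i) := fun i => (hσ i).1
  obtain ⟨ρ, hρf, hρ⟩ := conv J σ fun i _ => hfin i
  haveI := hρf
  have hbd : ∀ i, ∃ C : ℝ, ∀ x, ‖F i x‖ ≤ C := fun i => (hF i).2
  choose C hC using hbd
  have hB2 : ∀ m d x, ‖∏ i ∈ J, F i (τ (m + i * d) x)‖ ≤ ∏ i ∈ J, C i := by
    intro m d x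
    rw [norm_prod]
    exact Finset.prod_le_prod (fun i _ => norm_nonneg _) fun i _ => hC i _
  have hsing : ∀ n : ℤ, ∀ k : ℤ, ∫ t, fourier n t ∂(σ k) = ∏ i ∈ ({k} : Finset ℤ), ∫ t, fourier n t ∂(σ i) :=
    fun n k => by rw [Finset.prod_singleton]
  have cAB : ({mA} ∪ J : Finset ℤ).card = n - 1 := by
    rw [Finset.card_union_of_disjoint (Finset.disjoint_singleton_left.mpr hmAJ), Finset.card_singleton, hcardJ]
    omega
  have cAC : ({mA} ∪ {mC} : Finset ℤ).card = 2 := by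
    rw [Finset.card_union_of_disjoint (Finset.disjoint_singleton_left.mpr (by
      rw [Finset.mem_singleton]; exact fun h => hmC'.1 h.symm)), Finset.card_singleton, Finset.card_singleton]
  have cBC : (J ∪ {mC} : Finset ℤ).card = n - 1 := by
    rw [Finset.card_union_of_disjoint (Finset.disjoint_singleton_right.mpr hmCJ), Finset.card_singleton, hcardJ]
    omega
  have key : ∀ ε : ℝ, 0 < ε → ∀ᶠ j : ℕ in atTop,
      ‖E2 W j (fun d => (((1 : ℝ)) : ℂ) * ∫ x, F mA (τ (mA * d) x) * (∏ i ∈ J, F i (τ (0 + i * d) x)) *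
        F mC (τ (mC * d) x) ∂μ)‖ ^ 2 ≤ ε := by
    intro ε hε
    have h3 := three μ τ hτ W hW (fun _ => 1) (fun _ => ⟨zero_le_one, le_rfl⟩) (F mA) (F mC) (hF mA) (hF mC)
      (fun m d x => ∏ i ∈ J, F i (τ (m + i * d) x))
      (fun m d => (TA1_prod μ τ hτ J F hF (fun i => m + i * d)).1) (max (C mA) (∏ i ∈ J, C i))
      (fun x => (hC mA x).trans (le_max_left _ _)) (fun m d x => (hB2 m d x).trans (le_max_right _ _))
      (fun m d l x => by
        refine Finset.prod_congr rfl fun i _ => ?_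
        rw [← hτ.add]
        congr 2
        ring) mA mC (σ mA) ρ (σ mC) Set.univ ∅ MeasurableSet.univ MeasurableSet.empty
      (by rw [Measure.restrict_univ]; exact hs) (fun t _ => ha t)
      (by rw [Measure.restrict_empty]; exact Measure.MutuallySingular.zero_left)
      (fun t ht => absurd ht (Set.notMem_empty t)) 1 1 zero_le_one zero_le_one
      (fun s a ε hε => by
        have h4 := TA3_quad μ τ hτ W {mA} J (Finset.disjoint_singleton_left.mpr hmAJ) (by rw [cAB]; exact h1)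
          F hF σ hσ (σ mA) ρ (fun n => hsing n mA) hρ s a ε hε
        simp only [Finset.prod_singleton] at h4
        simp only [one_mul]
        exact h4)
      (fun s a ε hε => by
        have h4 := TA3_quad μ τ hτ W {mA} {mC} (Finset.disjoint_singleton_left.mpr (by
          rw [Finset.mem_singleton]; exact fun h => hmC'.1 h.symm)) (by rw [cAC]; exact h2)
          F hF σ hσ (σ mA) (σ mC) (fun n => hsing n mA) (fun n => hsing n mC) s a ε hε
        simp only [Finset.prod_singleton] at h4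
        simp only [one_mul]
        exact h4)
      (fun s a ε hε => by
        have h4 := TA3_quad μ τ hτ W J {mC} (Finset.disjoint_singleton_right.mpr hmCJ) (by rw [cBC]; exact h1)
          F hF σ hσ ρ (σ mC) hρ (fun n => hsing n mC) s a ε hε
        simp only [Finset.prod_singleton] at h4
        simp only [one_mul]
        exact h4) ε hε
    filter_upwards [h3] with j hj
    refine hj.trans (le_of_eq ?_)
    rw [Set.compl_univ, measure_empty, ENNReal.toReal_zero]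
    ring
  have e1 : ∀ j, E2 W j (fun d => ∫ x, ∏ i ∈ I, F i (τ (i * d) x) ∂μ) =
      E2 W j (fun d => (((1 : ℝ)) : ℂ) * ∫ x, F mA (τ (mA * d) x) * (∏ i ∈ J, F i (τ (0 + i * d) x)) *
        F mC (τ (mC * d) x) ∂μ) := by
    intro j
    congr 1
    funext d
    rw [Complex.ofReal_one, one_mul]
    congr 1
    funext x
    rw [← Finset.mul_prod_erase I _ hmA, ← Finset.mul_prod_erase (I.erase mA) _ hmC, ← hJ]
    simp only [zero_add]
    ring
  rw [Metric.tendsto_nhds]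
  intro ε hε
  filter_upwards [key (ε ^ 2 / 2) (by positivity)] with j hj
  rw [dist_zero_right, e1 j]
  refine lt_of_pow_lt_pow_left₀ 2 hε.le (lt_of_le_of_lt hj ?_)
  have : 0 < ε ^ 2 := by positivity
  linarith

/-! ## module TA4: the induction -/

/-- `mx_red` reduces to `F i = c i + g i`; split `F mA = c + g`; `Full (n-1)`, `slot`, `sp_const`. -/
theorem full_step {X : Type} [MeasurableSpace X] (μ : Measure X) [IsProbabilityMeasure μ] (τ : ℤ → X → X)
    (hτ : Sys μ τ) (hc : Cls μ τ) (W : ℕ → ℝ) (hW : GW W) (n : ℕ) (hn : 3 ≤ n) (h2 : Full μ τ W 2)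
    (h1 : Full μ τ W (n - 1)) : Full μ τ W n := by
  classical
  intro I hI F hF
  have hf0 : ∀ i, Bd (fun x => F i x - ∫ y, F i y ∂μ) := by
    intro i
    obtain ⟨h1, C, h2⟩ := hF i
    refine ⟨h1.sub measurable_const, C + ‖∫ y, F i y ∂μ‖, fun x => ?_⟩
    exact (norm_sub_le _ _).trans (add_le_add (h2 x) le_rfl)
  have hz : ∀ i, ∫ x, (F i x - ∫ y, F i y ∂μ) ∂μ = 0 := by
    intro i
    rw [integral_sub (TA1_int μ (hF i)) (integrable_const _)]
    simp
  choose g h σ hg hh hae hsp hsing hat hmx using fun i => hc _ (hf0 i) (hz i)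
  have hgm : ∀ i, ∫ x, g i x ∂μ = 0 := by
    intro i
    have e1 : ∫ x, (F i x - ∫ y, F i y ∂μ) ∂μ = ∫ x, (g i x + h i x) ∂μ := integral_congr_ae (hae i)
    rw [hz i, integral_add (TA1_int μ (hg i)) (TA1_int μ (hh i)), mx_mean μ τ hτ (h i) (hh i) (hmx i), add_zero] at e1
    exact e1.symm
  have hGb : ∀ i, Bd (fun x => (∫ y, F i y ∂μ) + g i x) := by
    intro i
    obtain ⟨h1, C, h2⟩ := hg i
    refine ⟨measurable_const.add h1, ‖∫ y, F i y ∂μ‖ + C, fun x => ?_⟩
    exact (norm_add_le _ _).trans (add_le_add le_rfl (h2 x))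
  have hGi : ∀ i, ∫ x, ((∫ y, F i y ∂μ) + g i x) ∂μ = ∫ y, F i y ∂μ := by
    intro i
    rw [integral_add (integrable_const _) (TA1_int μ (hg i)), hgm i]
    simp
  choose σG hσG using fun i => sp_const μ τ hτ (g i) (hg i) (hgm i) (∫ y, F i y ∂μ) (σ i) (hsp i)
  have hred := mx_red μ τ hτ W hW I F (fun i x => (∫ y, F i y ∂μ) + g i x) h hF hGb hh hmx (fun i => by
    filter_upwards [hae i] with x hx
    rw [add_assoc, ← hx]
    ring)
  obtain ⟨mA, hmA⟩ : I.Nonempty := by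
    rw [← Finset.card_pos, hI]
    omega
  have hF' : ∀ i, Bd (if i = mA then g mA else fun x => (∫ y, F i y ∂μ) + g i x) := by
    intro i
    by_cases h3 : i = mA
    · rw [if_pos h3]; exact hg mA
    · rw [if_neg h3]; exact hGb i
  have hs := slot μ τ hτ W hW n hn h2 h1 I hI mA hmA
    (fun i => if i = mA then g mA else fun x => (∫ y, F i y ∂μ) + g i x) hF'
    (fun i => if i = mA then σ mA else σG i) (fun i => by
      by_cases h3 : i = mA
      · simp only [if_pos h3]; exact hsp mA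
      · simp only [if_neg h3]; exact hσG i) (by simp only [if_true]; exact hsing mA)
      (by simp only [if_true]; exact hat mA)
  have hf1 := h1 (I.erase mA) (by rw [Finset.card_erase_of_mem hmA, hI])
    (fun i x => (∫ y, F i y ∂μ) + g i x) hGb
  have hf2 := hf1.const_mul (∫ y, F mA y ∂μ)
  have hlim := (hf2.add hs).add hred
  rw [add_zero, add_zero] at hlim
  have e0 : (∫ y, F mA y ∂μ) * ∏ i ∈ I.erase mA, ∫ x, ((∫ y, F i y ∂μ) + g i x) ∂μ = ∏ i ∈ I, ∫ x, F i x ∂μ := by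
    rw [← Finset.mul_prod_erase I _ hmA]
    congr 1
    exact Finset.prod_congr rfl fun i _ => hGi i
  rw [e0] at hlim
  refine hlim.congr fun j => ?_
  have e1 : E2 W j (fun d => ∫ x, ∏ i ∈ I, (fun i x => (∫ y, F i y ∂μ) + g i x) i (τ (i * d) x) ∂μ) =
      (∫ y, F mA y ∂μ) * E2 W j (fun d => ∫ x, ∏ i ∈ I.erase mA, (fun i x => (∫ y, F i y ∂μ) + g i x) i (τ (i * d) x) ∂μ)
      + E2 W j (fun d => ∫ x, ∏ i ∈ I, (if i = mA then g mA else fun x => (∫ y, F i y ∂μ) + g i x) (τ (i * d) x) ∂μ) := by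
    rw [← E2_smul, ← E2_add]
    congr 1
    funext d
    have i1 := TA1_int μ (TA1_prod μ τ hτ (I.erase mA) _ hGb (fun i => i * d))
    have i2 := TA1_int μ (TA1_prod μ τ hτ I _ hF' (fun i => i * d))
    rw [← integral_const_mul, ← integral_add (i1.const_mul _) i2]
    congr 1
    funext x
    rw [← Finset.mul_prod_erase I _ hmA]
    rw [← Finset.mul_prod_erase I (fun i => (if i = mA then g mA else fun x => (∫ y, F i y ∂μ) + g i x) (τ (i * d) x)) hmA]
    have e2 : ∏ i ∈ I.erase mA, (if i = mA then g mA else fun x => (∫ y, F i y ∂μ) + g i x) (τ (i * d) x) =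
        ∏ i ∈ I.erase mA, (fun i x => (∫ y, F i y ∂μ) + g i x) i (τ (i * d) x) := by
      refine Finset.prod_congr rfl fun i hi => ?_
      rw [if_neg (Finset.mem_erase.mp hi).1]
    rw [e2, if_pos rfl]
    ring
  rw [e1]
  ring

theorem full_all {X : Type} [MeasurableSpace X] (μ : Measure X) [IsProbabilityMeasure μ] (τ : ℤ → X → X)
    (hτ : Sys μ τ) (hc : Cls μ τ) (W : ℕ → ℝ) (hW : GW W) (n : ℕ) : Full μ τ W n := by
  induction n using Nat.strong_induction_on with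
  | _ n ih =>
    rcases Nat.lt_or_ge n 3 with h3 | h3
    · interval_cases n
      · exact full0 μ τ hτ W hW
      · exact full1 μ τ hτ W hW
      · exact full2 μ τ hτ hc W hW
    · exact full_step μ τ hτ hc W hW n h3 (ih 2 (by omega)) (ih (n - 1) (by omega))

/-! ## module TA5: extraction of a difference -/

/-- a weighted average is at most the maximum -/
theorem extract (W : ℕ → ℝ) (hW : ∀ d, 0 ≤ W d) (j : ℕ) (hj : 1 ≤ j) (a : ℤ → ℝ) (c : ℝ)
    (h : c * R2 W j (fun _ => 1) < R2 W j a) :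
    ∃ d : ℕ, 1 ≤ d ∧ W d ≠ 0 ∧ (c < a d ∨ c < a (-(d : ℤ))) := by
  by_contra hcon
  push Not at hcon
  have hL : 0 < 2 * (j : ℝ) * Real.log 2 := by
    have h1 : 0 < Real.log 2 := Real.log_pos (by norm_num)
    have h2 : (1 : ℝ) ≤ j := by exact_mod_cast hj
    positivity
  have key : ∑ d ∈ Icc (2 ^ j) (4 ^ j), W d * (a d + a (-(d : ℤ))) ≤ ∑ d ∈ Icc (2 ^ j) (4 ^ j), W d * (c * (1 + 1)) := by
    refine Finset.sum_le_sum fun d hd => ?_
    have hd1 : 1 ≤ d := le_trans Nat.one_le_two_pow (Finset.mem_Icc.mp hd).1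
    by_cases h0 : W d = 0
    · rw [h0, zero_mul, zero_mul]
    · obtain ⟨h1, h2⟩ := hcon d hd1 h0
      exact mul_le_mul_of_nonneg_left (by linarith) (hW d)
  have h2 : R2 W j a ≤ c * R2 W j (fun _ => 1) := by
    unfold R2
    rw [← mul_div_assoc]
    refine div_le_div_of_nonneg_right ?_ hL.le
    refine key.trans (le_of_eq ?_)
    rw [Finset.mul_sum]
    refine Finset.sum_congr rfl fun d _ => ?_
    ring
  linarith

/-- progressions with difference `-d` are progressions with difference `d` -/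
theorem sym_set {X : Type} [MeasurableSpace X] (μ : Measure X) [IsProbabilityMeasure μ] (τ : ℤ → X → X)
    (hτ : Sys μ τ) (A : Set X) (hA : MeasurableSet A) (r : ℕ) (d : ℤ) :
    μ.real {x | ∀ i : ℕ, i ≤ r → τ ((i : ℤ) * (-d)) x ∈ A} = μ.real {x | ∀ i : ℕ, i ≤ r → τ ((i : ℤ) * d) x ∈ A} := by
  have hS : ∀ e : ℤ, MeasurableSet {x | ∀ i : ℕ, i ≤ r → τ ((i : ℤ) * e) x ∈ A} := by
    intro e
    have h1 : {x | ∀ i : ℕ, i ≤ r → τ ((i : ℤ) * e) x ∈ A} = ⋂ i ∈ Finset.range (r + 1), (τ ((i : ℤ) * e)) ⁻¹' A := by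
      ext x
      simp only [Set.mem_setOf_eq, Set.mem_iInter, Finset.mem_range, Set.mem_preimage]
      constructor
      · intro h i hi
        exact h i (by omega)
      · intro h i hi
        exact h i (by omega)
    rw [h1]
    exact Finset.measurableSet_biInter _ fun i _ => (hτ.mp _).measurable hA
  have h2 : {x | ∀ i : ℕ, i ≤ r → τ ((i : ℤ) * d) x ∈ A} =
      (τ ((r : ℤ) * d)) ⁻¹' {x | ∀ i : ℕ, i ≤ r → τ ((i : ℤ) * (-d)) x ∈ A} := by
    ext x
    simp only [Set.mem_setOf_eq, Set.mem_preimage]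
    constructor
    · intro h i hi
      have h3 := h (r - i) (by omega)
      rw [← hτ.add]
      have h4 : (i : ℤ) * (-d) + (r : ℤ) * d = ((r - i : ℕ) : ℤ) * d := by
        rw [Nat.cast_sub hi]
        ring
      rw [h4]
      exact h3
    · intro h i hi
      have h3 := h (r - i) (by omega)
      rw [← hτ.add] at h3
      have h4 : ((r - i : ℕ) : ℤ) * (-d) + (r : ℤ) * d = (i : ℤ) * d := by
        rw [Nat.cast_sub hi]
        ring
      rw [h4] at h3
      exact h3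
  rw [h2]
  unfold Measure.real
  rw [(hτ.mp _).measure_preimage (hS _).nullMeasurableSet]

/-- Theorem A, for given weights. -/
theorem thmA_sys {X : Type} [MeasurableSpace X] (μ : Measure X) [IsProbabilityMeasure μ] (τ : ℤ → X → X)
    (hτ : Sys μ τ) (hc : Cls μ τ) (W : ℕ → ℝ) (hW : GW W) (r : ℕ) (A : Set X) (hA : MeasurableSet A)
    (ε : ℝ) (hε : 0 < ε) :
    ∃ d : ℕ, 1 ≤ d ∧ W d ≠ 0 ∧
      μ.real A ^ (r + 1) - ε < μ.real {x | ∀ i : ℕ, i ≤ r → τ ((i : ℤ) * d) x ∈ A} := by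
  classical
  set I : Finset ℤ := (Finset.range (r + 1)).image (fun i : ℕ => (i : ℤ)) with hIdef
  have hcard : I.card = r + 1 := by
    rw [hIdef, Finset.card_image_of_injective _ (fun a b hab => by exact_mod_cast hab), Finset.card_range]
  have hF : ∀ _ : ℤ, Bd (A.indicator (fun _ => (1 : ℂ))) := fun _ => B11_bdA A hA
  have hfull := full_all μ τ hτ hc W hW (r + 1) I hcard (fun _ => A.indicator (fun _ => (1 : ℂ))) hF
  have hS : ∀ e : ℤ, MeasurableSet {x | ∀ i : ℕ, i ≤ r → τ ((i : ℤ) * e) x ∈ A} := by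
    intro e
    have h1 : {x | ∀ i : ℕ, i ≤ r → τ ((i : ℤ) * e) x ∈ A} = ⋂ i ∈ Finset.range (r + 1), (τ ((i : ℤ) * e)) ⁻¹' A := by
      ext x
      simp only [Set.mem_setOf_eq, Set.mem_iInter, Finset.mem_range, Set.mem_preimage]
      constructor
      · intro h i hi
        exact h i (by omega)
      · intro h i hi
        exact h i (by omega)
    rw [h1]
    exact Finset.measurableSet_biInter _ fun i _ => (hτ.mp _).measurable hA
  have hind : ∀ S : Set X, MeasurableSet S → ∫ x, S.indicator (fun _ => (1 : ℂ)) x ∂μ = ((μ.real S : ℝ) : ℂ) := by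
    intro S hS
    rw [integral_indicator hS]
    simp
  have h1 : ∀ d : ℤ, ∫ x, ∏ i ∈ I, A.indicator (fun _ => (1 : ℂ)) (τ (i * d) x) ∂μ =
      ((μ.real {x | ∀ i : ℕ, i ≤ r → τ ((i : ℤ) * d) x ∈ A} : ℝ) : ℂ) := by
    intro d
    rw [← hind _ (hS d)]
    congr 1
    funext x
    by_cases hx : x ∈ {x | ∀ i : ℕ, i ≤ r → τ ((i : ℤ) * d) x ∈ A}
    · rw [Set.indicator_of_mem hx]
      refine Finset.prod_eq_one fun i hi => ?_
      obtain ⟨k, hk, hki⟩ := Finset.mem_image.mp hi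
      rw [← hki]
      exact Set.indicator_of_mem (hx k (by have := Finset.mem_range.mp hk; omega)) _
    · rw [Set.indicator_of_notMem hx]
      rw [Set.mem_setOf_eq] at hx
      push Not at hx
      obtain ⟨k, hk, hk2⟩ := hx
      refine Finset.prod_eq_zero (i := (k : ℤ)) (Finset.mem_image.mpr ⟨k, Finset.mem_range.mpr (by omega), rfl⟩) ?_
      exact Set.indicator_of_notMem hk2 _
  have h2 : ∏ _i ∈ I, ∫ x, A.indicator (fun _ => (1 : ℂ)) x ∂μ = (((μ.real A) ^ (r + 1) : ℝ) : ℂ) := by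
    rw [Finset.prod_const, hcard, hind A hA]
    push_cast
    rfl
  rw [h2] at hfull
  have h3 : Tendsto (fun j : ℕ => R2 W j (fun d => μ.real {x | ∀ i : ℕ, i ≤ r → τ ((i : ℤ) * d) x ∈ A})) atTop
      (𝓝 ((μ.real A) ^ (r + 1))) := by
    have h4 := (Complex.continuous_re.tendsto _).comp hfull
    rw [Complex.ofReal_re] at h4
    refine h4.congr fun j => ?_
    change (E2 W j (fun d => ∫ x, ∏ i ∈ I, A.indicator (fun _ => (1 : ℂ)) (τ (i * d) x) ∂μ)).re = _
    simp only [h1]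
    rw [E2_ofReal, Complex.ofReal_re]
  have h4 := (mass W hW).const_mul ((μ.real A) ^ (r + 1) - ε)
  rw [mul_one] at h4
  have h5 : ∀ᶠ j : ℕ in atTop, ((μ.real A) ^ (r + 1) - ε) * R2 W j (fun _ => 1) <
      R2 W j (fun d => μ.real {x | ∀ i : ℕ, i ≤ r → τ ((i : ℤ) * d) x ∈ A}) :=
    h4.eventually_lt h3 (by linarith)
  obtain ⟨j, hj5, hj1⟩ := (h5.and (eventually_ge_atTop 1)).exists
  obtain ⟨d, hd1, hd2, hd3⟩ := extract W hW.1 j hj1 _ _ hj5
  refine ⟨d, hd1, hd2, ?_⟩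
  rcases hd3 with h6 | h6
  · exact h6
  · rw [sym_set μ τ hτ A hA r d] at h6
    exact h6

end Pool.Agent.Sgs
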