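import Pool.Agent.Sgs.Slots
import Pool.Agent.Sgs.ThmA

/-!
# Theorem B for ergodic systems (text, section 6)
-/

set_option autoImplicit false

namespace Pool.Agent.Sgs

open MeasureTheory Filter Finset
open scoped Topology ENNReal

/-! ## helpers -/

private theorem B0_int {Y : Type} [MeasurableSpace Y] (ν : Measure Y) [IsFiniteMeasure ν] {f : Y → ℂ} (hf : Bd f) :
    Integrable f ν := by
  obtain ⟨hm, C, hC⟩ := hf
  exact Integrable.of_bound hm.aestronglyMeasurable C (Eventually.of_forall hC)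

private theorem B0_const {Y : Type} [MeasurableSpace Y] (c : ℂ) : Bd (fun _ : Y => c) :=
  ⟨measurable_const, ‖c‖, fun _ => le_rfl⟩

private theorem B0_add {Y : Type} [MeasurableSpace Y] {f g : Y → ℂ} (hf : Bd f) (hg : Bd g) :
    Bd (fun x => f x + g x) := by
  obtain ⟨hm, C, hC⟩ := hf
  obtain ⟨hn, D, hD⟩ := hg
  exact ⟨hm.add hn, C + D, fun x => (norm_add_le _ _).trans (add_le_add (hC x) (hD x))⟩

private theorem B0_sub {Y : Type} [MeasurableSpace Y] {f g : Y → ℂ} (hf : Bd f) (hg : Bd g) :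
    Bd (fun x => f x - g x) := by
  obtain ⟨hm, C, hC⟩ := hf
  obtain ⟨hn, D, hD⟩ := hg
  exact ⟨hm.sub hn, C + D, fun x => (norm_sub_le _ _).trans (add_le_add (hC x) (hD x))⟩

private theorem B0_mul {Y : Type} [MeasurableSpace Y] {f g : Y → ℂ} (hf : Bd f) (hg : Bd g) :
    Bd (fun x => f x * g x) := by
  obtain ⟨hm, C, hC⟩ := hf
  obtain ⟨hn, D, hD⟩ := hg
  refine ⟨hm.mul hn, C * D, fun x => ?_⟩
  rw [norm_mul]
  exact mul_le_mul (hC x) (hD x) (norm_nonneg _) ((norm_nonneg _).trans (hC x))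

private theorem B0_conj {Y : Type} [MeasurableSpace Y] {f : Y → ℂ} (hf : Bd f) :
    Bd (fun x => (starRingEnd ℂ) (f x)) := by
  obtain ⟨hm, C, hC⟩ := hf
  exact ⟨Complex.continuous_conj.measurable.comp hm, C, fun x => by rw [RCLike.norm_conj]; exact hC x⟩

private theorem B0_sum {Y : Type} [MeasurableSpace Y] {ι : Type} (s : Finset ι) (f : ι → Y → ℂ)
    (hf : ∀ i, Bd (f i)) : Bd (fun x => ∑ i ∈ s, f i x) := by
  classical
  induction s using Finset.induction_on with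
  | empty => simpa using B0_const (Y := Y) 0
  | insert i s hi ih =>
    simp only [Finset.sum_insert hi]
    exact B0_add (hf i) ih

private theorem B0_comp {X : Type} [MeasurableSpace X] {μ : Measure X} {τ : ℤ → X → X} (hτ : Sys μ τ)
    {f : X → ℂ} (hf : Bd f) (n : ℤ) : Bd (fun x => f (τ n x)) :=
  ⟨hf.1.comp (hτ.mp n).measurable, hf.2.imp fun _ h _ => h _⟩

private theorem B0_ind {Y : Type} [MeasurableSpace Y] {A : Set Y} (hA : MeasurableSet A) :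
    Bd (A.indicator (fun _ => (1 : ℂ))) := by
  refine ⟨measurable_const.indicator hA, 1, fun x => ?_⟩
  by_cases h : x ∈ A <;> simp [h]

private theorem B0_cv {X : Type} [MeasurableSpace X] {μ : Measure X} {τ : ℤ → X → X} (hτ : Sys μ τ)
    {E : Type} [NormedAddCommGroup E] [NormedSpace ℝ E] (f : X → E) (hf : AEStronglyMeasurable f μ) (n : ℤ) :
    ∫ x, f (τ n x) ∂μ = ∫ x, f x ∂μ := by
  have h := integral_map (μ := μ) (φ := τ n) (hτ.mp n).measurable.aemeasurable (f := f)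
    (by rw [(hτ.mp n).map_eq]; exact hf)
  rw [(hτ.mp n).map_eq] at h
  exact h.symm

private theorem B0_sqint {Y : Type} [MeasurableSpace Y] (ν : Measure Y) [IsFiniteMeasure ν] {f : Y → ℂ}
    (hf : Bd f) : Integrable (fun x => ‖f x‖ ^ 2) ν := by
  obtain ⟨hm, C, hC⟩ := hf
  refine Integrable.of_bound (hm.norm.pow_const 2).aestronglyMeasurable (C ^ 2) (Eventually.of_forall fun x => ?_)
  rw [norm_pow, norm_norm]
  exact pow_le_pow_left₀ (norm_nonneg _) (hC x) 2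

private theorem B0_cs {Y : Type} [MeasurableSpace Y] (ν : Measure Y) [IsFiniteMeasure ν] {F G : Y → ℂ}
    (hF : Bd F) (hG : Bd G) :
    ‖∫ x, F x * G x ∂ν‖ ^ 2 ≤ (∫ x, ‖F x‖ ^ 2 ∂ν) * ∫ x, ‖G x‖ ^ 2 ∂ν := by
  have hi : Integrable (fun x => ‖F x‖ * ‖G x‖) ν := by
    have := (B0_int ν (B0_mul hF hG)).norm
    simpa [norm_mul] using this
  have h0 : ‖∫ x, F x * G x ∂ν‖ ≤ ∫ x, ‖F x‖ * ‖G x‖ ∂ν := by
    refine (norm_integral_le_integral_norm _).trans (le_of_eq ?_)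
    simp
  have h1 : ∀ t : ℝ, 0 ≤ (∫ x, ‖F x‖ ^ 2 ∂ν) * (t * t) + (2 * ∫ x, ‖F x‖ * ‖G x‖ ∂ν) * t + ∫ x, ‖G x‖ ^ 2 ∂ν := by
    intro t
    have : 0 ≤ ∫ x, (t * ‖F x‖ + ‖G x‖) ^ 2 ∂ν := integral_nonneg fun x => sq_nonneg _
    have e : ∫ x, (t * ‖F x‖ + ‖G x‖) ^ 2 ∂ν
        = (∫ x, ‖F x‖ ^ 2 ∂ν) * (t * t) + (2 * ∫ x, ‖F x‖ * ‖G x‖ ∂ν) * t + ∫ x, ‖G x‖ ^ 2 ∂ν := by
      have e1 : ∀ x, (t * ‖F x‖ + ‖G x‖) ^ 2
          = (t * t) * ‖F x‖ ^ 2 + (2 * t) * (‖F x‖ * ‖G x‖) + ‖G x‖ ^ 2 := fun x => by ring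
      have i1 : Integrable (fun x => (t * t) * ‖F x‖ ^ 2) ν := (B0_sqint ν hF).const_mul _
      have i2 : Integrable (fun x => (2 * t) * (‖F x‖ * ‖G x‖)) ν := hi.const_mul _
      have i3 : Integrable (fun x => (t * t) * ‖F x‖ ^ 2 + (2 * t) * (‖F x‖ * ‖G x‖)) ν := i1.add i2
      simp only [e1]
      rw [integral_add i3 (B0_sqint ν hG), integral_add i1 i2, integral_const_mul, integral_const_mul]
      ring
    linarith
  have h2 := discrim_le_zero h1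
  rw [discrim] at h2
  have h3 : 0 ≤ ‖∫ x, F x * G x ∂ν‖ := norm_nonneg _
  have h4 : ‖∫ x, F x * G x ∂ν‖ ^ 2 ≤ (∫ x, ‖F x‖ * ‖G x‖ ∂ν) ^ 2 := pow_le_pow_left₀ h3 h0 2
  nlinarith

private theorem B0_csc {Y : Type} [MeasurableSpace Y] (ν : Measure Y) [IsFiniteMeasure ν] {F G : Y → ℂ}
    (hF : Bd F) (hG : Bd G) :
    ‖∫ x, F x * (starRingEnd ℂ) (G x) ∂ν‖ ^ 2 ≤ (∫ x, ‖F x‖ ^ 2 ∂ν) * ∫ x, ‖G x‖ ^ 2 ∂ν := by
  have := B0_cs ν hF (B0_conj hG)
  simpa only [RCLike.norm_conj] using this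

private theorem B0_fb (n : ℤ) : Bd (fun t : Cir => (fourier n t : ℂ)) :=
  ⟨(fourier n).continuous.measurable, 1, fun t => by simp only [fourier_apply, Circle.norm_coe, le_refl]⟩

private theorem B0_expand {Y : Type} [MeasurableSpace Y] (ν : Measure Y) [IsFiniteMeasure ν] {ι : Type}
    (s : Finset ι) (f : ι → Y → ℂ) (hf : ∀ i, Bd (f i)) :
    ((∫ x, ‖∑ i ∈ s, f i x‖ ^ 2 ∂ν : ℝ) : ℂ)
      = ∑ i ∈ s, ∑ j ∈ s, ∫ x, f i x * (starRingEnd ℂ) (f j x) ∂ν := by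
  have e0 : ((∫ x, ‖∑ i ∈ s, f i x‖ ^ 2 ∂ν : ℝ) : ℂ) = ∫ x, (((‖∑ i ∈ s, f i x‖ ^ 2 : ℝ)) : ℂ) ∂ν :=
    integral_complex_ofReal.symm
  rw [e0]
  have e : ∀ x, (((‖∑ i ∈ s, f i x‖ ^ 2 : ℝ)) : ℂ) = ∑ i ∈ s, ∑ j ∈ s, f i x * (starRingEnd ℂ) (f j x) := by
    intro x
    rw [← Finset.sum_mul_sum, ← map_sum, Complex.mul_conj, Complex.normSq_eq_norm_sq]
  simp only [e]
  rw [integral_finsetSum _ (fun i _ => integrable_finsetSum _ fun j _ =>
    B0_int ν (B0_mul (hf i) (B0_conj (hf j))))]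
  refine Finset.sum_congr rfl fun i _ => ?_
  rw [integral_finsetSum _ (fun j _ => B0_int ν (B0_mul (hf i) (B0_conj (hf j))))]

private theorem B0_fadd (d : ℤ) (s t : Cir) : (fourier d (s + t) : ℂ) = fourier d s * fourier d t := by
  simp only [fourier_apply, smul_add, AddCircle.toCircle_add, Circle.coe_mul]

private theorem B0_fneg (d : ℤ) (s : Cir) : (fourier d (-s) : ℂ) = (starRingEnd ℂ) (fourier d s : ℂ) := by
  rw [← fourier_neg, fourier_apply, fourier_apply, smul_neg, neg_smul]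

private theorem B0_fsub (d : ℤ) (s t : Cir) :
    (fourier d (s - t) : ℂ) = fourier d s * (starRingEnd ℂ) (fourier d t : ℂ) := by
  rw [sub_eq_add_neg, B0_fadd, B0_fneg]

private theorem B0_fnsmul (d : ℤ) (s : Cir) (n : ℕ) : (fourier d (n • s) : ℂ) = (fourier d s : ℂ) ^ n := by
  induction n with
  | zero => simp
  | succ n ih => rw [succ_nsmul, B0_fadd, ih, pow_succ]

private theorem B0_fmul (m n : ℤ) (s : Cir) : (fourier (m * n) s : ℂ) = fourier m (n • s) := by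
  rw [fourier_apply, fourier_apply, mul_smul]

private theorem B0_fnorm (d : ℤ) (s : Cir) : ‖(fourier d s : ℂ)‖ = 1 := by
  rw [fourier_apply, Circle.norm_coe]

/-! ## module B1: the weights -/

/-- the product of the `((1 + z)/2)^K` is a combination of at most `(K+1)^|F|` characters, with nonnegative coefficients
of sum one -/
private theorem B1_exp (K : ℕ) (F : Finset Cir) :
    ∃ (ι : Type) (s : Finset ι) (c : ι → ℝ) (t : ι → Cir), s.card ≤ (K + 1) ^ F.card ∧ (∀ i, 0 ≤ c i) ∧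
      ∑ i ∈ s, c i = 1 ∧ ∀ d : ℤ, ∏ κ ∈ F, ((1 + (fourier d κ : ℂ)) / 2) ^ K = ∑ i ∈ s, (c i : ℂ) * fourier d (t i) := by
  classical
  induction F using Finset.induction_on with
  | empty =>
    refine ⟨Unit, {()}, fun _ => 1, fun _ => 0, by simp, fun _ => zero_le_one, by simp, fun d => by simp⟩
  | insert κ F hκ ih =>
    obtain ⟨ι, s, c, t, h1, h2, h3, h4⟩ := ih
    refine ⟨ι × ℕ, s ×ˢ Finset.range (K + 1), fun p => c p.1 * ((K.choose p.2 : ℝ) / 2 ^ K),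
      fun p => t p.1 + p.2 • κ, ?_, ?_, ?_, ?_⟩
    · rw [Finset.card_product, Finset.card_range, Finset.card_insert_of_notMem hκ, pow_succ]
      exact Nat.mul_le_mul_right _ h1
    · intro p
      exact mul_nonneg (h2 _) (by positivity)
    · rw [Finset.sum_product]
      simp only
      rw [← Finset.sum_mul_sum, h3, one_mul, ← Finset.sum_div]
      have := Nat.sum_range_choose K
      have h5 : ∑ i ∈ Finset.range (K + 1), (K.choose i : ℝ) = 2 ^ K := by exact_mod_cast this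
      rw [h5, div_self (by positivity)]
    · intro d
      rw [Finset.prod_insert hκ, h4 d, Finset.sum_product]
      have h5 : ((1 + (fourier d κ : ℂ)) / 2) ^ K
          = ∑ i ∈ Finset.range (K + 1), (((K.choose i : ℝ) / 2 ^ K : ℝ) : ℂ) * fourier d (i • κ) := by
        rw [div_pow, add_comm, add_pow, Finset.sum_div]
        refine Finset.sum_congr rfl fun i _ => ?_
        rw [B0_fnsmul]
        push_cast
        ring
      rw [h5, Finset.sum_mul_sum, Finset.sum_comm]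
      refine Finset.sum_congr rfl fun i _ => Finset.sum_congr rfl fun k _ => ?_
      simp only [B0_fadd]
      push_cast
      ring

/-- averages of the square of such a combination -/
private theorem B1_avg {ι : Type} (s : Finset ι) (c : ι → ℝ) (t : ι → Cir) (hc : ∀ i, 0 ≤ c i)
    (h1 : ∑ i ∈ s, c i = 1) (N : ℕ) (hN : s.card ≤ N) (hN0 : 0 < N) (W : ℕ → ℝ) (hW : GW W) (η : ℝ)
    (hη1 : η < 1 / N) :
    ∀ᶠ j : ℕ in atTop, η ≤ R2 W j (fun d => ‖∑ i ∈ s, (c i : ℂ) * fourier d (t i)‖ ^ 2) := by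
  classical
  have e : ∀ d : ℤ, (((‖∑ i ∈ s, (c i : ℂ) * fourier d (t i)‖ ^ 2 : ℝ)) : ℂ)
      = ∑ i ∈ s, ∑ k ∈ s, ((c i * c k : ℝ) : ℂ) * fourier d (t i - t k) := by
    intro d
    rw [← Complex.normSq_eq_norm_sq, ← Complex.mul_conj, map_sum, Finset.sum_mul_sum]
    refine Finset.sum_congr rfl fun i _ => Finset.sum_congr rfl fun k _ => ?_
    rw [B0_fsub, map_mul, Complex.conj_ofReal]
    push_cast
    ring
  have l : Tendsto (fun j : ℕ => R2 W j (fun d => ‖∑ i ∈ s, (c i : ℂ) * fourier d (t i)‖ ^ 2)) atTop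
      (𝓝 (∑ i ∈ s, ∑ k ∈ s, c i * c k * (if t i - t k = 0 then 1 else 0))) := by
    have l1 : ∀ j : ℕ, E2 W j (fun d => (((‖∑ i ∈ s, (c i : ℂ) * fourier d (t i)‖ ^ 2 : ℝ)) : ℂ))
        = ∑ i ∈ s, ∑ k ∈ s, ((c i * c k : ℝ) : ℂ) * E2 W j (fun d => fourier d (t i - t k)) := by
      intro j
      simp only [e]
      rw [E2_sum]
      refine Finset.sum_congr rfl fun i _ => ?_
      rw [E2_sum]
      refine Finset.sum_congr rfl fun k _ => ?_
      rw [E2_smul]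
    have l2 : Tendsto (fun j : ℕ => ∑ i ∈ s, ∑ k ∈ s, ((c i * c k : ℝ) : ℂ) * E2 W j (fun d => fourier d (t i - t k)))
        atTop (𝓝 (∑ i ∈ s, ∑ k ∈ s, ((c i * c k : ℝ) : ℂ) * (if t i - t k = 0 then 1 else 0))) :=
      tendsto_finsetSum _ fun i _ => tendsto_finsetSum _ fun k _ => (freq W hW (t i - t k)).const_mul _
    have l3 := (Complex.continuous_re.tendsto _).comp l2
    refine (l3.congr fun j => ?_).trans (le_of_eq ?_)
    · rw [Function.comp, ← l1, E2_ofReal, Complex.ofReal_re]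
    · congr 1
      simp only [Complex.re_sum]
      refine Finset.sum_congr rfl fun i _ => Finset.sum_congr rfl fun k _ => ?_
      split_ifs <;> simp
  have b : 1 / (N : ℝ) ≤ ∑ i ∈ s, ∑ k ∈ s, c i * c k * (if t i - t k = 0 then 1 else 0) := by
    have b1 : ∑ i ∈ s, c i ^ 2 ≤ ∑ i ∈ s, ∑ k ∈ s, c i * c k * (if t i - t k = 0 then 1 else 0) := by
      refine Finset.sum_le_sum fun i hi => ?_
      have := Finset.single_le_sum (f := fun k => c i * c k * (if t i - t k = 0 then (1 : ℝ) else 0))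
        (fun k _ => mul_nonneg (mul_nonneg (hc i) (hc k)) (by split_ifs <;> norm_num)) hi
      simpa [sq] using this
    have b2 : (∑ i ∈ s, c i) ^ 2 ≤ s.card * ∑ i ∈ s, c i ^ 2 := sq_sum_le_card_mul_sum_sq
    rw [h1] at b2
    have b3 : (0 : ℝ) ≤ ∑ i ∈ s, c i ^ 2 := Finset.sum_nonneg fun i _ => sq_nonneg _
    have b4 : (s.card : ℝ) ≤ N := by exact_mod_cast hN
    have b5 : (0 : ℝ) < N := by exact_mod_cast hN0
    rw [div_le_iff₀ b5]
    nlinarith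
  exact (l.eventually (lt_mem_nhds (hη1.trans_le b))).mono fun j hj => hj.le

private theorem B1_q (η : ℝ) (hη : 0 < η) :
    ∃ q : ℝ, 0 ≤ q ∧ q < 1 ∧ ∀ t : Cir, η ≤ ‖t‖ → ‖(1 + (fourier 1 t : ℂ)) / 2‖ ^ 2 ≤ q := by
  have hlt : ∀ t : Cir, t ≠ 0 → ‖(1 + (fourier 1 t : ℂ)) / 2‖ ^ 2 < 1 := by
    intro t ht
    have h1 : ‖(fourier 1 t : ℂ)‖ = 1 := B0_fnorm 1 t
    have h2 : (fourier 1 t : ℂ) ≠ 1 := by
      intro h
      apply ht
      rw [fourier_one] at h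
      have h3 : AddCircle.toCircle t = AddCircle.toCircle (0 : Cir) := by
        rw [AddCircle.toCircle_zero]
        exact Subtype.ext (by simpa using h)
      exact AddCircle.injective_toCircle (by norm_num) h3
    generalize (fourier 1 t : ℂ) = z at h1 h2
    have h3 : z.re ^ 2 + z.im ^ 2 = 1 := by
      have : Complex.normSq z = 1 := by rw [Complex.normSq_eq_norm_sq, h1]; norm_num
      rw [Complex.normSq_apply] at this
      nlinarith
    have h4 : z.re < 1 := by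
      by_contra h
      push Not at h
      have h5 : z.re = 1 := by nlinarith [sq_nonneg z.im]
      have h6 : z.im = 0 := by
        rw [h5] at h3
        have : z.im ^ 2 = 0 := by linarith
        exact pow_eq_zero_iff (two_ne_zero) |>.mp this
      exact h2 (Complex.ext (by simpa using h5) (by simpa using h6))
    rw [← Complex.normSq_eq_norm_sq, Complex.normSq_apply]
    simp only [Complex.div_ofNat_re, Complex.div_ofNat_im, Complex.add_re, Complex.add_im, Complex.one_re,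
      Complex.one_im]
    nlinarith
  have hcont : Continuous fun t : Cir => ‖(1 + (fourier 1 t : ℂ)) / 2‖ ^ 2 := by fun_prop
  have hcomp : IsCompact {t : Cir | η ≤ ‖t‖} := (isClosed_le continuous_const continuous_norm).isCompact
  rcases Set.eq_empty_or_nonempty {t : Cir | η ≤ ‖t‖} with h | h
  · refine ⟨0, le_rfl, zero_lt_one, fun t ht => ?_⟩
    have : t ∈ {t : Cir | η ≤ ‖t‖} := ht
    rw [h] at this
    exact absurd this (Set.notMem_empty _)
  · obtain ⟨t0, ht0, hmax⟩ := hcomp.exists_isMaxOn h hcont.continuousOn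
    refine ⟨_, by positivity, hlt t0 ?_, fun t ht => hmax ht⟩
    rintro rfl
    have : η ≤ ‖(0 : Cir)‖ := ht0
    rw [norm_zero] at this
    linarith

/-- `w d = ∏ κ ∈ F, ((1 + cos (2π d κ)) / 2)^K` with `K` large: it is `≤ q^K` if `‖d κ‖ ≥ η` for some `κ`, `q < 1`,
and a combination of characters of `d` with nonnegative coefficients, the coefficient of the frequency `0` being at least
`(binomial (2K, K) / 4^K)^|F| ≥ (2K+1)^(-|F|)`; `freq`. -/
theorem wts (F : Finset Cir) (η ε : ℝ) (hη : 0 < η) (hε : 0 < ε) :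
    ∃ (w : ℤ → ℝ) (c : ℝ), 0 < c ∧ (∀ d, 0 ≤ w d ∧ w d ≤ 1) ∧
      (∀ d : ℤ, (∃ κ ∈ F, η ≤ ‖d • κ‖) → w d ≤ ε * c) ∧
      ∀ W : ℕ → ℝ, GW W → ∀ᶠ j : ℕ in atTop, c ≤ R2 W j w := by
  classical
  obtain ⟨q, hq0, hq1, hq⟩ := B1_q η hη
  obtain ⟨K, hK⟩ : ∃ K : ℕ, q ^ K * ((K : ℝ) + 1) ^ F.card < ε / 2 := by
    have h1 := tendsto_pow_const_mul_const_pow_of_lt_one F.card hq0 hq1
    have h2 : Tendsto (fun n : ℕ => 2 ^ F.card * ((n : ℝ) ^ F.card * q ^ n)) atTop (𝓝 0) := by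
      simpa using h1.const_mul (2 ^ F.card)
    obtain ⟨K, hK, hK1⟩ := ((h2.eventually (gt_mem_nhds (show (0 : ℝ) < ε / 2 by linarith))).and
      (eventually_ge_atTop 1)).exists
    refine ⟨K, lt_of_le_of_lt ?_ hK⟩
    have h3 : (1 : ℝ) ≤ K := by exact_mod_cast hK1
    have h4 : ((K : ℝ) + 1) ^ F.card ≤ (2 * K) ^ F.card := pow_le_pow_left₀ (by positivity) (by linarith) _
    calc q ^ K * ((K : ℝ) + 1) ^ F.card ≤ q ^ K * (2 * K) ^ F.card :=
          mul_le_mul_of_nonneg_left h4 (pow_nonneg hq0 _)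
      _ = 2 ^ F.card * ((K : ℝ) ^ F.card * q ^ K) := by rw [mul_pow]; ring
  obtain ⟨ι, s, c, t, h1, h2, h3, h4⟩ := B1_exp K F
  have hle : ∀ d : ℤ, ∀ κ : Cir, ‖((1 + (fourier d κ : ℂ)) / 2) ^ K‖ ≤ 1 := by
    intro d κ
    rw [norm_pow]
    refine pow_le_one₀ (norm_nonneg _) ?_
    rw [norm_div, Complex.norm_ofNat]
    have : ‖1 + (fourier d κ : ℂ)‖ ≤ 2 := by
      refine (norm_add_le _ _).trans ?_
      rw [B0_fnorm, norm_one]
      norm_num
    linarith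
  have hN : (0 : ℝ) < ((K : ℝ) + 1) ^ F.card := by positivity
  refine ⟨fun d => ‖∏ κ ∈ F, ((1 + (fourier d κ : ℂ)) / 2) ^ K‖ ^ 2, 1 / (2 * ((K : ℝ) + 1) ^ F.card), by positivity,
    fun d => ⟨by positivity, ?_⟩, ?_, ?_⟩
  · refine pow_le_one₀ (norm_nonneg _) ?_
    rw [norm_prod]
    exact Finset.prod_le_one (fun _ _ => norm_nonneg _) fun κ _ => hle d κ
  · rintro d ⟨κ, hκ, hd⟩
    have h5 : ‖∏ κ ∈ F, ((1 + (fourier d κ : ℂ)) / 2) ^ K‖ ≤ ‖((1 + (fourier d κ : ℂ)) / 2) ^ K‖ := by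
      rw [← Finset.mul_prod_erase F _ hκ, norm_mul]
      refine mul_le_of_le_one_right (norm_nonneg _) ?_
      rw [norm_prod]
      exact Finset.prod_le_one (fun _ _ => norm_nonneg _) fun κ _ => hle d κ
    have h6 : ‖((1 + (fourier d κ : ℂ)) / 2) ^ K‖ ^ 2 ≤ q ^ K := by
      rw [norm_pow, ← pow_mul, mul_comm, pow_mul]
      refine pow_le_pow_left₀ (by positivity) ?_ K
      have := hq (d • κ) hd
      rwa [← B0_fmul, one_mul] at this
    have h7 := pow_le_pow_left₀ (norm_nonneg _) h5 2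
    have h8 : q ^ K < ε * (1 / (2 * ((K : ℝ) + 1) ^ F.card)) := by
      rw [mul_one_div, lt_div_iff₀ (by positivity)]
      linarith
    exact (h7.trans h6).trans h8.le
  · intro W hW
    have h5 : (0 : ℕ) < (K + 1) ^ F.card := by positivity
    have h6 := B1_avg s c t h2 h3 ((K + 1) ^ F.card) h1 h5 W hW (1 / (2 * ((K : ℝ) + 1) ^ F.card)) (by
      push_cast
      rw [div_lt_div_iff₀ (by positivity) hN]
      linarith)
    refine h6.mono fun j hj => ?_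
    simpa only [h4] using hj

/-! ## module B2: eigenprojections -/

/-- `u κ` is the projection of `g` to the functions with `v ∘ τ n = e(n κ) v`. -/
structure Eig {X : Type} [MeasurableSpace X] (μ : Measure X) (τ : ℤ → X → X) (g : X → ℂ) (σ : Measure Cir)
    (u : Cir → X → ℂ) : Prop where
  bd : ∀ κ, Bd (u κ)
  eq : ∀ κ (n : ℤ), ∀ᵐ x ∂μ, u κ (τ n x) = fourier n κ * u κ x
  ip : ∀ κ, ∫ x, g x * (starRingEnd ℂ) (u κ x) ∂μ = ((σ {κ}).toReal : ℂ)
  nm : ∀ κ, ∫ x, ‖u κ x‖ ^ 2 ∂μ = (σ {κ}).toReal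

private theorem B2_iso {X : Type} [MeasurableSpace X] (μ : Measure X) [IsProbabilityMeasure μ] (τ : ℤ → X → X)
    (hτ : Sys μ τ) (g : X → ℂ) (hg : Bd g) (σ : Measure Cir) (hσ : Sp μ τ g σ) {ι : Type} (s : Finset ι)
    (n : ι → ℤ) (a : ι → ℂ) :
    ∫ x, ‖∑ i ∈ s, a i * g (τ (n i) x)‖ ^ 2 ∂μ = ∫ t, ‖∑ i ∈ s, a i * (fourier (n i) t : ℂ)‖ ^ 2 ∂σ := by
  have := hσ.1
  have hb1 : ∀ i, Bd (fun x => a i * g (τ (n i) x)) := fun i => B0_mul (B0_const _) (B0_comp hτ hg _)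
  have hb2 : ∀ i, Bd (fun t : Cir => a i * (fourier (n i) t : ℂ)) := fun i =>
    B0_mul (B0_const _) ⟨(fourier (n i)).continuous.measurable, 1, fun t => (B0_fnorm _ t).le⟩
  apply Complex.ofReal_injective
  rw [B0_expand μ s _ hb1, B0_expand σ s _ hb2]
  refine Finset.sum_congr rfl fun i _ => Finset.sum_congr rfl fun j _ => ?_
  have e1 : ∀ x, a i * g (τ (n i) x) * (starRingEnd ℂ) (a j * g (τ (n j) x))
      = (a i * (starRingEnd ℂ) (a j)) * (g (τ (n i) x) * (starRingEnd ℂ) (g (τ (n j) x))) := by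
    intro x
    rw [map_mul]
    ring
  have e2 : ∀ t : Cir, a i * (fourier (n i) t : ℂ) * (starRingEnd ℂ) (a j * (fourier (n j) t : ℂ))
      = (a i * (starRingEnd ℂ) (a j)) * (fourier (n i - n j) t : ℂ) := by
    intro t
    rw [map_mul, sub_eq_add_neg, fourier_add, fourier_neg]
    ring
  simp only [e1, e2]
  rw [integral_const_mul, integral_const_mul, sp_translate μ τ hτ g hg σ hσ]

private theorem B2_norm {X : Type} [MeasurableSpace X] (μ : Measure X) (F : Lp ℂ 2 μ) :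
    ‖F‖ ^ 2 = ∫ x, ‖F x‖ ^ 2 ∂μ := by
  have h1 := inner_self_eq_norm_sq (𝕜 := ℂ) F
  rw [← h1, L2.inner_def]
  have : ∀ x, inner ℂ (F x) (F x) = ((‖F x‖ ^ 2 : ℝ) : ℂ) := fun x => by
    rw [inner_self_eq_norm_sq_to_K]
    push_cast
    rfl
  simp only [this]
  rw [integral_complex_ofReal]
  rfl

private theorem B2_lim {X : Type} [MeasurableSpace X] (μ : Measure X) [IsFiniteMeasure μ] (A : ℕ → X → ℂ) (C : ℝ)
    (hA : ∀ N, Measurable (A N)) (hC : ∀ N x, ‖A N x‖ ≤ C) (T : ℕ → ℝ) (hT : Tendsto T atTop (𝓝 0))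
    (h : ∀ N M, ∫ x, ‖A N x - A M x‖ ^ 2 ∂μ ≤ T N + T M) :
    ∃ v : X → ℂ, Measurable v ∧ (∀ x, ‖v x‖ ≤ C) ∧
      Tendsto (fun N => ∫ x, ‖A N x - v x‖ ^ 2 ∂μ) atTop (𝓝 0) := by
  have hm : ∀ N, MemLp (A N) 2 μ := fun N =>
    MemLp.of_bound (hA N).aestronglyMeasurable C (Eventually.of_forall (hC N))
  set f : ℕ → Lp ℂ 2 μ := fun N => (hm N).toLp (A N) with hf
  have hfe : ∀ N, f N =ᵐ[μ] A N := fun N => (hm N).coeFn_toLp
  have hd : ∀ N M, ‖f N - f M‖ ^ 2 ≤ T N + T M := by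
    intro N M
    rw [B2_norm]
    refine le_trans (le_of_eq (integral_congr_ae ?_)) (h N M)
    filter_upwards [Lp.coeFn_sub (f N) (f M), hfe N, hfe M] with x h1 h2 h3
    rw [h1, Pi.sub_apply, h2, h3]
  have hcau : CauchySeq f := by
    rw [Metric.cauchySeq_iff]
    intro ε hε
    obtain ⟨N0, hN0⟩ := eventually_atTop.mp (hT.eventually (gt_mem_nhds (show (0 : ℝ) < ε ^ 2 / 2 by positivity)))
    refine ⟨N0, fun m hm n hn => ?_⟩
    rw [dist_eq_norm]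
    have h1 := hd m n
    have h2 := hN0 m hm
    have h3 := hN0 n hn
    exact lt_of_pow_lt_pow_left₀ 2 hε.le (by linarith)
  obtain ⟨F, hF⟩ := cauchySeq_tendsto_of_complete hcau
  have hFm : Measurable (F : X → ℂ) := (Lp.stronglyMeasurable F).measurable
  have hbd : ∀ᵐ x ∂μ, ‖F x‖ ≤ C := by
    obtain ⟨ns, _, hns⟩ := (tendstoInMeasure_of_tendsto_Lp hF).exists_seq_tendsto_ae
    filter_upwards [hns, ae_all_iff.mpr hfe] with x h1 h2
    refine le_of_tendsto h1.norm (Eventually.of_forall fun i => ?_)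
    rw [h2]
    exact hC _ _
  classical
  refine ⟨fun x => if ‖F x‖ ≤ C then F x else 0, Measurable.ite (measurableSet_le hFm.norm measurable_const) hFm
    measurable_const, fun x => ?_, ?_⟩
  · dsimp only
    split_ifs with h1
    · exact h1
    · rw [norm_zero]
      exact (norm_nonneg _).trans (hC 0 x)
  · have h1 : Tendsto (fun N => ‖f N - F‖ ^ 2) atTop (𝓝 0) := by
      have := (tendsto_iff_norm_sub_tendsto_zero.mp hF).pow 2
      simpa using this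
    refine h1.congr fun N => ?_
    rw [B2_norm]
    refine integral_congr_ae ?_
    filter_upwards [Lp.coeFn_sub (f N) F, hfe N, hbd] with x h2 h3 h4
    rw [h2, Pi.sub_apply, h3, if_pos h4]

private noncomputable def B2_a (κ : Cir) (N i : ℕ) : ℂ := (starRingEnd ℂ) (fourier (i : ℤ) κ : ℂ) / N

private noncomputable def B2_D (κ : Cir) (N : ℕ) (t : Cir) : ℂ :=
  ∑ i ∈ Finset.range N, B2_a κ N i * (fourier (i : ℤ) t : ℂ)

private noncomputable def B2_A {X : Type} (τ : ℤ → X → X) (g : X → ℂ) (κ : Cir) (N : ℕ) (x : X) : ℂ :=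
  ∑ i ∈ Finset.range N, B2_a κ N i * g (τ (i : ℤ) x)

private theorem B2_anorm (κ : Cir) (N i : ℕ) : ‖B2_a κ N i‖ = 1 / N := by
  rw [B2_a, norm_div, RCLike.norm_conj, B0_fnorm, Complex.norm_natCast]

private theorem B2_asum (κ : Cir) (N : ℕ) (y : ℕ → ℂ) (C : ℝ) (hC : 0 ≤ C) (hy : ∀ i, ‖y i‖ ≤ C) :
    ‖∑ i ∈ Finset.range N, B2_a κ N i * y i‖ ≤ C := by
  refine (norm_sum_le _ _).trans ?_
  have : ∑ i ∈ Finset.range N, ‖B2_a κ N i * y i‖ ≤ ∑ i ∈ Finset.range N, 1 / (N : ℝ) * C :=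
    Finset.sum_le_sum fun i _ => by
      rw [norm_mul, B2_anorm]
      exact mul_le_mul_of_nonneg_left (hy i) (by positivity)
  refine this.trans ?_
  rw [Finset.sum_const, Finset.card_range, nsmul_eq_mul]
  rcases Nat.eq_zero_or_pos N with h | h
  · simp [h, hC]
  · have : (0 : ℝ) < N := by exact_mod_cast h
    rw [← mul_assoc, mul_one_div, div_self this.ne', one_mul]

private theorem B2_Dm (κ : Cir) (N : ℕ) : Measurable (B2_D κ N) := by
  unfold B2_D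
  exact Finset.measurable_fun_sum _ fun i _ => ((fourier (i : ℤ)).continuous.measurable.const_mul _)

private theorem B2_Db (κ : Cir) (N : ℕ) (t : Cir) : ‖B2_D κ N t‖ ≤ 1 :=
  B2_asum κ N _ 1 zero_le_one fun _ => (B0_fnorm _ t).le

private theorem B2_Dt (κ t : Cir) :
    Tendsto (fun N => B2_D κ N t) atTop (𝓝 (({κ} : Set Cir).indicator (fun _ => (1 : ℂ)) t)) := by
  by_cases h : t = κ
  · subst h
    rw [Set.indicator_of_mem (Set.mem_singleton _)]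
    refine tendsto_const_nhds.congr' ?_
    filter_upwards [eventually_ge_atTop 1] with N hN
    have h0 : (N : ℂ) ≠ 0 := by exact_mod_cast (by omega : N ≠ 0)
    have : ∀ i ∈ Finset.range N, B2_a t N i * (fourier (i : ℤ) t : ℂ) = 1 / N := by
      intro i _
      rw [B2_a, div_mul_eq_mul_div, mul_comm, Complex.mul_conj, Complex.normSq_eq_norm_sq, B0_fnorm]
      simp
    rw [B2_D, Finset.sum_congr rfl this, Finset.sum_const, Finset.card_range, nsmul_eq_mul, mul_one_div,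
      div_self h0]
  · rw [Set.indicator_of_notMem (by simpa using h)]
    set z : ℂ := (fourier 1 (t - κ) : ℂ) with hz
    have hz1 : z ≠ 1 := by
      intro h1
      apply h
      rw [hz, fourier_one] at h1
      have h3 : AddCircle.toCircle (t - κ) = AddCircle.toCircle (0 : Cir) := by
        rw [AddCircle.toCircle_zero]
        exact Subtype.ext (by simpa using h1)
      exact sub_eq_zero.mp (AddCircle.injective_toCircle (by norm_num) h3)
    have e : ∀ N, B2_D κ N t = (∑ i ∈ Finset.range N, z ^ i) / N := by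
      intro N
      rw [B2_D, Finset.sum_div]
      refine Finset.sum_congr rfl fun i _ => ?_
      rw [hz, ← B0_fnsmul, B2_a, show (fourier 1 (i • (t - κ)) : ℂ) = fourier (i : ℤ) (t - κ) by
        rw [fourier_apply, fourier_apply, one_zsmul, natCast_zsmul], B0_fsub]
      ring
    rw [tendsto_zero_iff_norm_tendsto_zero]
    have hlim : Tendsto (fun N : ℕ => (2 / ‖z - 1‖) * (1 / (N : ℝ))) atTop (𝓝 0) := by
      simpa using (tendsto_one_div_atTop_nhds_zero_nat (𝕜 := ℝ)).const_mul (2 / ‖z - 1‖)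
    refine squeeze_zero (fun _ => norm_nonneg _) (fun N => ?_) hlim
    rw [e, geom_sum_eq hz1, norm_div, norm_div, Complex.norm_natCast, div_mul_div_comm, mul_one, div_div]
    refine div_le_div_of_nonneg_right ?_ (by positivity)
    refine (norm_sub_le _ _).trans ?_
    rw [norm_pow, hz, B0_fnorm, one_pow, norm_one]
    norm_num

private theorem B2_T (κ : Cir) (σ : Measure Cir) [IsFiniteMeasure σ] :
    Tendsto (fun N => ∫ t, ‖B2_D κ N t - ({κ} : Set Cir).indicator (fun _ => (1 : ℂ)) t‖ ^ 2 ∂σ) atTop (𝓝 0) := by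
  have h := tendsto_integral_of_dominated_convergence (μ := σ)
    (F := fun N t => ‖B2_D κ N t - ({κ} : Set Cir).indicator (fun _ => (1 : ℂ)) t‖ ^ 2) (f := fun _ => (0 : ℝ))
    (fun _ => 4) (fun N => ?_) (integrable_const _) (fun N => Eventually.of_forall fun t => ?_)
    (Eventually.of_forall fun t => ?_)
  · simpa using h
  · exact (((B2_Dm κ N).sub (measurable_const.indicator (measurableSet_singleton κ))).norm.pow_const
      2).aestronglyMeasurable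
  · rw [norm_pow, norm_norm]
    have h1 : ‖({κ} : Set Cir).indicator (fun _ => (1 : ℂ)) t‖ ≤ 1 := by
      by_cases h : t ∈ ({κ} : Set Cir)
      · rw [Set.indicator_of_mem h]; simp
      · rw [Set.indicator_of_notMem h]; simp
    have h2 := (norm_sub_le (B2_D κ N t) (({κ} : Set Cir).indicator (fun _ => (1 : ℂ)) t))
    have h3 := B2_Db κ N t
    have h4 : ‖B2_D κ N t - ({κ} : Set Cir).indicator (fun _ => (1 : ℂ)) t‖ ≤ 2 := by linarith
    calc _ ≤ (2 : ℝ) ^ 2 := pow_le_pow_left₀ (norm_nonneg _) h4 2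
      _ = 4 := by norm_num
  · have := ((B2_Dt κ t).sub_const (({κ} : Set Cir).indicator (fun _ => (1 : ℂ)) t)).norm.pow 2
    simpa using this

private theorem B0_sq2 (a b : ℂ) : ‖a - b‖ ^ 2 ≤ 2 * ‖a‖ ^ 2 + 2 * ‖b‖ ^ 2 := by
  have h1 := norm_sub_le a b
  have h2 := norm_nonneg (a - b)
  nlinarith [sq_nonneg (‖a‖ - ‖b‖), norm_nonneg a, norm_nonneg b]

private theorem B0_zero {Y : Type} [MeasurableSpace Y] (ν : Measure Y) [IsFiniteMeasure ν] {f : Y → ℂ}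
    (hf : Bd f) (h : ∫ x, ‖f x‖ ^ 2 ∂ν = 0) : ∀ᵐ x ∂ν, f x = 0 := by
  have h1 := (integral_eq_zero_iff_of_nonneg (fun x => by positivity) (B0_sqint ν hf)).mp h
  filter_upwards [h1] with x hx
  have hx' : ‖f x‖ ^ 2 = 0 := hx
  simpa using hx'

/-- the third vertex -/
private theorem B0_tri {Y : Type} [MeasurableSpace Y] (ν : Measure Y) [IsFiniteMeasure ν] {f g h : Y → ℂ}
    (hf : Bd f) (hg : Bd g) (hh : Bd h) :
    ∫ x, ‖f x - h x‖ ^ 2 ∂ν ≤ 2 * (∫ x, ‖f x - g x‖ ^ 2 ∂ν) + 2 * ∫ x, ‖g x - h x‖ ^ 2 ∂ν := by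
  have i1 : Integrable (fun x => 2 * ‖f x - g x‖ ^ 2) ν := (B0_sqint ν (B0_sub hf hg)).const_mul 2
  have i2 : Integrable (fun x => 2 * ‖g x - h x‖ ^ 2) ν := (B0_sqint ν (B0_sub hg hh)).const_mul 2
  rw [← integral_const_mul, ← integral_const_mul, ← integral_add i1 i2]
  refine integral_mono (B0_sqint ν (B0_sub hf hh)) (i1.add i2) fun x => ?_
  have := B0_sq2 (f x - g x) (h x - g x)
  have e : f x - g x - (h x - g x) = f x - h x := by ring
  rw [e, norm_sub_rev (h x)] at this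
  exact this

private theorem B2_ex {X : Type} [MeasurableSpace X] (μ : Measure X) [IsProbabilityMeasure μ] (τ : ℤ → X → X)
    (hτ : Sys μ τ) (g : X → ℂ) (hg : Bd g) (σ : Measure Cir) (hσ : Sp μ τ g σ) (κ : Cir) :
    ∃ v : X → ℂ, Bd v ∧ (∀ n : ℤ, ∀ᵐ x ∂μ, v (τ n x) = fourier n κ * v x) ∧
      (∫ x, g x * (starRingEnd ℂ) (v x) ∂μ = ((σ {κ}).toReal : ℂ)) ∧
      ∫ x, ‖v x‖ ^ 2 ∂μ = (σ {κ}).toReal := by
  have := hσ.1
  obtain ⟨C, hC⟩ := hg.2
  have hX : Nonempty X := nonempty_of_isProbabilityMeasure μ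
  have hC0 : 0 ≤ C := (norm_nonneg _).trans (hC hX.some)
  set δ : Cir → ℂ := ({κ} : Set Cir).indicator (fun _ => (1 : ℂ)) with hδ
  have hδb : Bd δ := B0_ind (measurableSet_singleton κ)
  have hDb : ∀ N, Bd (B2_D κ N) := fun N => ⟨B2_Dm κ N, 1, B2_Db κ N⟩
  have hAb : ∀ N, Bd (B2_A τ g κ N) := fun N => by
    unfold B2_A
    exact B0_sum _ _ fun i => B0_mul (B0_const _) (B0_comp hτ hg _)
  set T : ℕ → ℝ := fun N => ∫ t, ‖B2_D κ N t - δ t‖ ^ 2 ∂σ with hT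
  have hT0 : Tendsto T atTop (𝓝 0) := B2_T κ σ
  have hcau : ∀ N M, ∫ x, ‖B2_A τ g κ N x - B2_A τ g κ M x‖ ^ 2 ∂μ ≤ 2 * T N + 2 * T M := by
    intro N M
    have h1 := B2_iso μ τ hτ g hg σ hσ ((Finset.range N).disjSum (Finset.range M))
      (Sum.elim (fun i => (i : ℤ)) fun i => (i : ℤ))
      (Sum.elim (fun i => B2_a κ N i) fun i => -B2_a κ M i)
    simp only [Finset.sum_disjSum, Sum.elim_inl, Sum.elim_inr, neg_mul, Finset.sum_neg_distrib,
      ← sub_eq_add_neg] at h1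
    have h2 : ∫ x, ‖B2_A τ g κ N x - B2_A τ g κ M x‖ ^ 2 ∂μ = ∫ t, ‖B2_D κ N t - B2_D κ M t‖ ^ 2 ∂σ := h1
    rw [h2]
    refine (B0_tri σ (hDb N) hδb (hDb M)).trans (le_of_eq ?_)
    simp only [hT, norm_sub_rev (δ _)]
  obtain ⟨v, hv1, hv2, hv3⟩ := B2_lim μ (B2_A τ g κ) C (fun N => (hAb N).1)
    (fun N x => B2_asum κ N _ C hC0 fun i => hC _) (fun N => 2 * T N) (by simpa using hT0.const_mul 2) hcau
  have hvb : Bd v := ⟨hv1, C, hv2⟩
  -- the middle term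
  have hmid : ∀ (n : ℤ) (N : ℕ),
      ∫ x, ‖B2_A τ g κ N (τ n x) - (fourier n κ : ℂ) * B2_A τ g κ N x‖ ^ 2 ∂μ ≤ 4 * T N := by
    intro n N
    have h1 := B2_iso μ τ hτ g hg σ hσ ((Finset.range N).disjSum (Finset.range N))
      (Sum.elim (fun i => (i : ℤ) + n) fun i => (i : ℤ))
      (Sum.elim (fun i => B2_a κ N i) fun i => -((fourier n κ : ℂ) * B2_a κ N i))
    simp only [Finset.sum_disjSum, Sum.elim_inl, Sum.elim_inr, neg_mul, Finset.sum_neg_distrib,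
      ← sub_eq_add_neg, hτ.add, fourier_add, mul_assoc, ← Finset.mul_sum] at h1
    have h2 : ∫ x, ‖B2_A τ g κ N (τ n x) - (fourier n κ : ℂ) * B2_A τ g κ N x‖ ^ 2 ∂μ
        = ∫ t, ‖(∑ i ∈ Finset.range N, B2_a κ N i * ((fourier (i : ℤ) t : ℂ) * (fourier n t : ℂ)))
            - (fourier n κ : ℂ) * B2_D κ N t‖ ^ 2 ∂σ := h1
    rw [h2, hT]
    simp only
    rw [← integral_const_mul]
    have hi : Integrable (fun t => 4 * ‖B2_D κ N t - δ t‖ ^ 2) σ :=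
      (B0_sqint σ (B0_sub (hDb N) hδb)).const_mul 4
    refine integral_mono_of_nonneg (Eventually.of_forall fun t => by positivity) hi
      (Eventually.of_forall fun t => ?_)
    have e1 : (∑ i ∈ Finset.range N, B2_a κ N i * ((fourier (i : ℤ) t : ℂ) * (fourier n t : ℂ)))
        = (fourier n t : ℂ) * B2_D κ N t := by
      rw [B2_D, Finset.mul_sum]
      exact Finset.sum_congr rfl fun i _ => by ring
    have e2 : ((fourier n t : ℂ) - fourier n κ) * δ t = 0 := by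
      by_cases h : t = κ
      · rw [h, sub_self, zero_mul]
      · rw [hδ, Set.indicator_of_notMem (by simpa using h), mul_zero]
    have e3 : (fourier n t : ℂ) * B2_D κ N t - (fourier n κ : ℂ) * B2_D κ N t
        = ((fourier n t : ℂ) - fourier n κ) * (B2_D κ N t - δ t) := by
      rw [mul_sub, e2]
      ring
    have e4 : ‖(fourier n t : ℂ) - fourier n κ‖ ≤ 2 := by
      refine (norm_sub_le _ _).trans ?_
      rw [B0_fnorm, B0_fnorm]
      norm_num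
    simp only
    rw [e1, e3, norm_mul, mul_pow]
    refine mul_le_mul_of_nonneg_right ?_ (by positivity)
    calc ‖(fourier n t : ℂ) - fourier n κ‖ ^ 2 ≤ 2 ^ 2 := pow_le_pow_left₀ (norm_nonneg _) e4 2
      _ = 4 := by norm_num
  have heq : ∀ n : ℤ, ∀ᵐ x ∂μ, v (τ n x) = fourier n κ * v x := by
    intro n
    have hb1 : Bd (fun x => v (τ n x)) := B0_comp hτ hvb n
    have hb2 : Bd (fun x => (fourier n κ : ℂ) * v x) := B0_mul (B0_const _) hvb
    have hb3 : ∀ N, Bd (fun x => B2_A τ g κ N (τ n x)) := fun N => B0_comp hτ (hAb N) n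
    have hb4 : ∀ N, Bd (fun x => (fourier n κ : ℂ) * B2_A τ g κ N x) := fun N => B0_mul (B0_const _) (hAb N)
    have h0 : ∫ x, ‖v (τ n x) - (fourier n κ : ℂ) * v x‖ ^ 2 ∂μ = 0 := by
      refine le_antisymm ?_ (integral_nonneg fun x => by positivity)
      have hl : Tendsto (fun N => 2 * (∫ x, ‖B2_A τ g κ N x - v x‖ ^ 2 ∂μ)
          + 2 * (2 * (4 * T N) + 2 * ∫ x, ‖B2_A τ g κ N x - v x‖ ^ 2 ∂μ)) atTop (𝓝 0) := by
        have := (hv3.const_mul 2).add (((hT0.const_mul 4).const_mul 2 |>.add (hv3.const_mul 2)).const_mul 2)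
        simpa using this
      refine ge_of_tendsto hl (Eventually.of_forall fun N => ?_)
      have h1 := B0_tri μ hb1 (hb3 N) hb2
      have h2 := B0_tri μ (hb3 N) (hb4 N) hb2
      have h3 := hmid n N
      have h4 : ∫ x, ‖v (τ n x) - B2_A τ g κ N (τ n x)‖ ^ 2 ∂μ = ∫ x, ‖B2_A τ g κ N x - v x‖ ^ 2 ∂μ := by
        rw [B0_cv hτ (fun x => ‖v x - B2_A τ g κ N x‖ ^ 2)
          ((hv1.sub (hAb N).1).norm.pow_const 2).aestronglyMeasurable n]
        simp only [norm_sub_rev (v _)]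
      have h5 : ∫ x, ‖(fourier n κ : ℂ) * B2_A τ g κ N x - (fourier n κ : ℂ) * v x‖ ^ 2 ∂μ
          = ∫ x, ‖B2_A τ g κ N x - v x‖ ^ 2 ∂μ := by
        simp only [← mul_sub, norm_mul, B0_fnorm, one_mul]
      linarith
    filter_upwards [B0_zero μ (B0_sub hb1 hb2) h0] with x hx
    exact sub_eq_zero.mp hx
  have hip : ∫ x, g x * (starRingEnd ℂ) (v x) ∂μ = ((σ {κ}).toReal : ℂ) := by
    have l1 : Tendsto (fun N => ∫ x, g x * (starRingEnd ℂ) (B2_A τ g κ N x) ∂μ) atTop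
        (𝓝 (∫ x, g x * (starRingEnd ℂ) (v x) ∂μ)) := by
      rw [tendsto_iff_norm_sub_tendsto_zero]
      have h1 : Tendsto (fun N => Real.sqrt ((∫ x, ‖g x‖ ^ 2 ∂μ) * ∫ x, ‖B2_A τ g κ N x - v x‖ ^ 2 ∂μ)) atTop
          (𝓝 0) := by
        have := (hv3.const_mul (∫ x, ‖g x‖ ^ 2 ∂μ)).sqrt
        simpa using this
      refine squeeze_zero (fun _ => norm_nonneg _) (fun N => ?_) h1
      refine Real.le_sqrt_of_sq_le ?_
      rw [← integral_sub (B0_int μ (B0_mul hg (B0_conj (hAb N)))) (B0_int μ (B0_mul hg (B0_conj hvb)))]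
      have h2 := B0_csc μ hg (B0_sub (hAb N) hvb)
      have e : ∀ x, g x * (starRingEnd ℂ) (B2_A τ g κ N x - v x)
          = g x * (starRingEnd ℂ) (B2_A τ g κ N x) - g x * (starRingEnd ℂ) (v x) := fun x => by
        rw [map_sub, mul_sub]
      simp only [e] at h2
      exact h2
    have l2 : ∀ N, ∫ x, g x * (starRingEnd ℂ) (B2_A τ g κ N x) ∂μ = ∫ t, (starRingEnd ℂ) (B2_D κ N t) ∂σ := by
      intro N
      have e1 : ∀ x, g x * (starRingEnd ℂ) (B2_A τ g κ N x)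
          = ∑ i ∈ Finset.range N, (starRingEnd ℂ) (B2_a κ N i) * (g x * (starRingEnd ℂ) (g (τ (i : ℤ) x))) := by
        intro x
        rw [B2_A, map_sum, Finset.mul_sum]
        exact Finset.sum_congr rfl fun i _ => by rw [map_mul]; ring
      have e2 : ∀ t : Cir, (starRingEnd ℂ) (B2_D κ N t)
          = ∑ i ∈ Finset.range N, (starRingEnd ℂ) (B2_a κ N i) * (fourier (-(i : ℤ)) t : ℂ) := by
        intro t
        rw [B2_D, map_sum]
        exact Finset.sum_congr rfl fun i _ => by rw [map_mul, fourier_neg]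
      simp only [e1, e2]
      rw [integral_finsetSum _ fun i _ => B0_int μ (B0_mul (B0_const _) (B0_mul hg (B0_conj (B0_comp hτ hg _)))),
        integral_finsetSum _ fun (i : ℕ) _ => B0_int σ (B0_mul (B0_const _) (B0_fb (-(i : ℤ))))]
      refine Finset.sum_congr rfl fun i _ => ?_
      rw [integral_const_mul, integral_const_mul]
      have := sp_translate μ τ hτ g hg σ hσ 0 i
      simp only [hτ.zero, zero_sub] at this
      rw [this]
    have l3 : Tendsto (fun N => ∫ t, (starRingEnd ℂ) (B2_D κ N t) ∂σ) atTop (𝓝 ((σ {κ}).toReal : ℂ)) := by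
      have e : ((σ {κ}).toReal : ℂ) = ∫ t, (starRingEnd ℂ) (δ t) ∂σ := by
        have : ∀ t, (starRingEnd ℂ) (δ t) = δ t := by
          intro t
          by_cases h : t ∈ ({κ} : Set Cir)
          · rw [hδ, Set.indicator_of_mem h]; simp
          · rw [hδ, Set.indicator_of_notMem h]; simp
        simp only [this]
        rw [hδ, integral_indicator (measurableSet_singleton κ)]
        simp [Measure.real]
      rw [e, tendsto_iff_norm_sub_tendsto_zero]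
      have h1 : Tendsto (fun N => Real.sqrt ((∫ t, ‖(1 : ℂ)‖ ^ 2 ∂σ) * T N)) atTop (𝓝 0) := by
        have := (hT0.const_mul (∫ t, ‖(1 : ℂ)‖ ^ 2 ∂σ)).sqrt
        simpa using this
      refine squeeze_zero (fun _ => norm_nonneg _) (fun N => ?_) h1
      refine Real.le_sqrt_of_sq_le ?_
      rw [← integral_sub (B0_int σ (B0_conj (hDb N))) (B0_int σ (B0_conj hδb))]
      have h2 := B0_csc σ (B0_const (Y := Cir) 1) (B0_sub (hDb N) hδb)
      have e : ∀ t, 1 * (starRingEnd ℂ) (B2_D κ N t - δ t)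
          = (starRingEnd ℂ) (B2_D κ N t) - (starRingEnd ℂ) (δ t) := fun t => by
        rw [map_sub, one_mul]
      simp only [e] at h2
      exact h2
    exact tendsto_nhds_unique (l1.congr l2) l3
  refine ⟨v, hvb, heq, hip, ?_⟩
  -- the norm
  have hgi : ∀ n : ℤ, ∫ x, g (τ n x) * (starRingEnd ℂ) (v x) ∂μ = fourier n κ * ((σ {κ}).toReal : ℂ) := by
    intro n
    have e : ∫ x, g (τ n x) * (starRingEnd ℂ) (v x) ∂μ
        = ∫ x, (fourier n κ : ℂ) * (g (τ n x) * (starRingEnd ℂ) (v (τ n x))) ∂μ := by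
      refine integral_congr_ae ?_
      filter_upwards [heq n] with x hx
      have h1 : (fourier n κ : ℂ) * (starRingEnd ℂ) (fourier n κ : ℂ) = 1 := by
        rw [Complex.mul_conj, Complex.normSq_eq_norm_sq, B0_fnorm]
        simp
      rw [hx, map_mul]
      linear_combination (-(g (τ n x) * (starRingEnd ℂ) (v x))) * h1
    rw [e, integral_const_mul, B0_cv hτ (fun x => g x * (starRingEnd ℂ) (v x))
      (B0_mul hg (B0_conj hvb)).1.aestronglyMeasurable n, hip]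
  have l1 : Tendsto (fun N => ∫ x, B2_A τ g κ N x * (starRingEnd ℂ) (v x) ∂μ) atTop
      (𝓝 (∫ x, v x * (starRingEnd ℂ) (v x) ∂μ)) := by
    rw [tendsto_iff_norm_sub_tendsto_zero]
    have h1 : Tendsto (fun N => Real.sqrt ((∫ x, ‖B2_A τ g κ N x - v x‖ ^ 2 ∂μ) * ∫ x, ‖v x‖ ^ 2 ∂μ)) atTop
        (𝓝 0) := by
      have := (hv3.mul_const (∫ x, ‖v x‖ ^ 2 ∂μ)).sqrt
      simpa using this
    refine squeeze_zero (fun _ => norm_nonneg _) (fun N => ?_) h1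
    refine Real.le_sqrt_of_sq_le ?_
    rw [← integral_sub (B0_int μ (B0_mul (hAb N) (B0_conj hvb))) (B0_int μ (B0_mul hvb (B0_conj hvb)))]
    have := B0_cs μ (B0_sub (hAb N) hvb) (B0_conj hvb)
    simp only [RCLike.norm_conj, sub_mul] at this
    exact this
  have l2 : ∀ᶠ N : ℕ in atTop, ∫ x, B2_A τ g κ N x * (starRingEnd ℂ) (v x) ∂μ = ((σ {κ}).toReal : ℂ) := by
    filter_upwards [eventually_ge_atTop 1] with N hN
    have h0 : (N : ℂ) ≠ 0 := by exact_mod_cast (by omega : N ≠ 0)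
    have e1 : ∀ x, B2_A τ g κ N x * (starRingEnd ℂ) (v x)
        = ∑ i ∈ Finset.range N, B2_a κ N i * (g (τ (i : ℤ) x) * (starRingEnd ℂ) (v x)) := by
      intro x
      rw [B2_A, Finset.sum_mul]
      exact Finset.sum_congr rfl fun i _ => by ring
    simp only [e1]
    rw [integral_finsetSum _ fun i _ => B0_int μ (B0_mul (B0_const _) (B0_mul (B0_comp hτ hg _) (B0_conj hvb)))]
    have e2 : ∀ i ∈ Finset.range N, ∫ x, B2_a κ N i * (g (τ (i : ℤ) x) * (starRingEnd ℂ) (v x)) ∂μ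
        = ((σ {κ}).toReal : ℂ) / N := by
      intro i _
      rw [integral_const_mul, hgi, B2_a]
      have h1 : (fourier (i : ℤ) κ : ℂ) * (starRingEnd ℂ) (fourier (i : ℤ) κ : ℂ) = 1 := by
        rw [Complex.mul_conj, Complex.normSq_eq_norm_sq, B0_fnorm]
        simp
      linear_combination (((σ {κ}).toReal : ℂ) / N) * h1
    rw [Finset.sum_congr rfl e2, Finset.sum_const, Finset.card_range, nsmul_eq_mul, mul_div_cancel₀ _ h0]
  have h3 : ∫ x, v x * (starRingEnd ℂ) (v x) ∂μ = ((σ {κ}).toReal : ℂ) :=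
    tendsto_nhds_unique l1 (tendsto_const_nhds.congr' (l2.mono fun N hN => hN.symm))
  have h4 : ∀ x, v x * (starRingEnd ℂ) (v x) = ((‖v x‖ ^ 2 : ℝ) : ℂ) := fun x => by
    rw [Complex.mul_conj, Complex.normSq_eq_norm_sq]
  simp only [h4] at h3
  rw [integral_complex_ofReal] at h3
  exact_mod_cast h3

/-- The mean ergodic theorem (`ContinuousLinearMap.tendsto_birkhoffAverage_orthogonalProjection`) for the isometry
`e(-κ) U`; the averages are bounded by `sup ‖g‖`, so is (a representative of) the limit;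
`⟨P g, g⟩ = lim (1/N) ∑ e(-n κ) ∫ g∘τ n conj g = lim ∫ (1/N) ∑ e(n (t - κ)) dσ = σ {κ}` (dominated convergence). -/
theorem eig_ex {X : Type} [MeasurableSpace X] (μ : Measure X) [IsProbabilityMeasure μ] (τ : ℤ → X → X)
    (hτ : Sys μ τ) (g : X → ℂ) (hg : Bd g) (σ : Measure Cir) (hσ : Sp μ τ g σ) :
    ∃ u : Cir → X → ℂ, Eig μ τ g σ u := by
  choose u h1 h2 h3 h4 using B2_ex μ τ hτ g hg σ hσ
  exact ⟨u, h1, h2, h3, h4⟩

/-! ## module B3: finite sums of eigenprojections -/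

private theorem B3_ff (n : ℤ) (κ : Cir) : (fourier n κ : ℂ) * (starRingEnd ℂ) (fourier n κ : ℂ) = 1 := by
  rw [Complex.mul_conj, Complex.normSq_eq_norm_sq, B0_fnorm]
  simp

private theorem B3_gu {X : Type} [MeasurableSpace X] {μ : Measure X} [IsProbabilityMeasure μ] {τ : ℤ → X → X}
    (hτ : Sys μ τ) {g : X → ℂ} {σ : Measure Cir} {u : Cir → X → ℂ} (hu : Eig μ τ g σ u)
    (f : X → ℂ) (hf : Bd f) (κ : Cir) (n : ℤ) :
    ∫ x, f (τ n x) * (starRingEnd ℂ) (u κ x) ∂μ = fourier n κ * ∫ x, f x * (starRingEnd ℂ) (u κ x) ∂μ := by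
  have e : ∫ x, f (τ n x) * (starRingEnd ℂ) (u κ x) ∂μ
      = ∫ x, (fourier n κ : ℂ) * (f (τ n x) * (starRingEnd ℂ) (u κ (τ n x))) ∂μ := by
    refine integral_congr_ae ?_
    filter_upwards [hu.eq κ n] with x hx
    rw [hx, map_mul]
    linear_combination (-(f (τ n x) * (starRingEnd ℂ) (u κ x))) * B3_ff n κ
  rw [e, integral_const_mul, B0_cv hτ (fun x => f x * (starRingEnd ℂ) (u κ x))
    (B0_mul hf (B0_conj (hu.bd κ))).1.aestronglyMeasurable n]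

private theorem B3_one_ne (κ : Cir) (h : κ ≠ 0) : (fourier 1 κ : ℂ) ≠ 1 := by
  intro h1
  apply h
  rw [fourier_one] at h1
  have h3 : AddCircle.toCircle κ = AddCircle.toCircle (0 : Cir) := by
    rw [AddCircle.toCircle_zero]
    exact Subtype.ext (by simpa using h1)
  exact AddCircle.injective_toCircle (by norm_num) h3

theorem eig_orth {X : Type} [MeasurableSpace X] (μ : Measure X) [IsProbabilityMeasure μ] (τ : ℤ → X → X)
    (hτ : Sys μ τ) (g : X → ℂ) (hg : Bd g) (σ : Measure Cir) (u : Cir → X → ℂ) (hu : Eig μ τ g σ u)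
    (κ l : Cir) (h : κ ≠ l) : ∫ x, u κ x * (starRingEnd ℂ) (u l x) ∂μ = 0 := by
  have h1 := B3_gu hτ hu (u κ) (hu.bd κ) l 1
  have h2 : ∫ x, u κ (τ 1 x) * (starRingEnd ℂ) (u l x) ∂μ
      = fourier 1 κ * ∫ x, u κ x * (starRingEnd ℂ) (u l x) ∂μ := by
    rw [← integral_const_mul]
    refine integral_congr_ae ?_
    filter_upwards [hu.eq κ 1] with x hx
    rw [hx]
    ring
  have h3 : ((fourier 1 κ : ℂ) - fourier 1 l) * ∫ x, u κ x * (starRingEnd ℂ) (u l x) ∂μ = 0 := by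
    rw [sub_mul, ← h1, h2, sub_self]
  rcases mul_eq_zero.mp h3 with h4 | h4
  · exfalso
    have h5 : (fourier 1 (κ - l) : ℂ) = 1 := by
      rw [B0_fsub, sub_eq_zero.mp h4]
      exact B3_ff 1 l
    exact B3_one_ne (κ - l) (sub_ne_zero.mpr h) h5
  · exact h4

private theorem B3_uu {X : Type} [MeasurableSpace X] {μ : Measure X} [IsProbabilityMeasure μ] {τ : ℤ → X → X}
    (hτ : Sys μ τ) {g : X → ℂ} (hg : Bd g) {σ : Measure Cir} {u : Cir → X → ℂ} (hu : Eig μ τ g σ u)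
    (κ l : Cir) [Decidable (κ = l)] : ∫ x, u κ x * (starRingEnd ℂ) (u l x) ∂μ = if κ = l then ((σ {κ}).toReal : ℂ) else 0 := by
  split_ifs with h
  · subst h
    rw [← hu.nm κ, ← integral_complex_ofReal]
    refine integral_congr_ae (Eventually.of_forall fun x => ?_)
    simp only
    rw [Complex.mul_conj, Complex.normSq_eq_norm_sq]
  · exact eig_orth μ τ hτ g hg σ u hu κ l h

theorem eig_norm {X : Type} [MeasurableSpace X] (μ : Measure X) [IsProbabilityMeasure μ] (τ : ℤ → X → X)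
    (hτ : Sys μ τ) (g : X → ℂ) (hg : Bd g) (σ : Measure Cir) (hσ : Sp μ τ g σ) (u : Cir → X → ℂ)
    (hu : Eig μ τ g σ u) (F : Finset Cir) (c : Cir → ℂ) :
    ∫ x, ‖∑ κ ∈ F, c κ * u κ x‖ ^ 2 ∂μ = ∑ κ ∈ F, ‖c κ‖ ^ 2 * (σ {κ}).toReal := by
  classical
  apply Complex.ofReal_injective
  rw [B0_expand μ F (fun κ x => c κ * u κ x) fun κ => B0_mul (B0_const _) (hu.bd κ), Complex.ofReal_sum]
  refine Finset.sum_congr rfl fun κ hκ => ?_
  have e : ∀ l : Cir, ∫ x, c κ * u κ x * (starRingEnd ℂ) (c l * u l x) ∂μ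
      = (c κ * (starRingEnd ℂ) (c l)) * (if κ = l then ((σ {κ}).toReal : ℂ) else 0) := by
    intro l
    rw [← B3_uu hτ hg hu, ← integral_const_mul]
    refine integral_congr_ae (Eventually.of_forall fun x => ?_)
    simp only [map_mul]
    ring
  simp only [e, mul_ite, mul_zero, Finset.sum_ite_eq, if_pos hκ]
  rw [Complex.mul_conj, Complex.normSq_eq_norm_sq]
  push_cast
  rfl

private theorem B3_gi {X : Type} [MeasurableSpace X] {μ : Measure X} [IsProbabilityMeasure μ] {τ : ℤ → X → X}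
    (hτ : Sys μ τ) {g : X → ℂ} (hg : Bd g) {σ : Measure Cir} {u : Cir → X → ℂ} (hu : Eig μ τ g σ u)
    (κ : Cir) (n : ℤ) : ∫ x, g (τ n x) * (starRingEnd ℂ) (u κ x) ∂μ = fourier n κ * ((σ {κ}).toReal : ℂ) := by
  rw [B3_gu hτ hu g hg κ n, hu.ip κ]

private theorem B3_ig {X : Type} [MeasurableSpace X] {μ : Measure X} [IsProbabilityMeasure μ] {τ : ℤ → X → X}
    {g : X → ℂ} {σ : Measure Cir} {u : Cir → X → ℂ} (hu : Eig μ τ g σ u)
    (κ : Cir) (n : ℤ) : ∫ x, u κ (τ n x) * (starRingEnd ℂ) (g x) ∂μ = fourier n κ * ((σ {κ}).toReal : ℂ) := by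
  have h1 : ∫ x, u κ (τ n x) * (starRingEnd ℂ) (g x) ∂μ
      = ∫ x, (fourier n κ : ℂ) * (starRingEnd ℂ) (g x * (starRingEnd ℂ) (u κ x)) ∂μ := by
    refine integral_congr_ae ?_
    filter_upwards [hu.eq κ n] with x hx
    rw [hx, map_mul, Complex.conj_conj]
    ring
  rw [h1, integral_const_mul, integral_conj, hu.ip κ, Complex.conj_ofReal]

private theorem B3_su {X : Type} [MeasurableSpace X] {μ : Measure X} [IsProbabilityMeasure μ] {τ : ℤ → X → X}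
    (hτ : Sys μ τ) {g : X → ℂ} (hg : Bd g) {σ : Measure Cir} {u : Cir → X → ℂ} (hu : Eig μ τ g σ u)
    (F : Finset Cir) (n : ℤ) : ∫ x, (∑ κ ∈ F, u κ (τ n x)) * (starRingEnd ℂ) (∑ κ ∈ F, u κ x) ∂μ
      = ∑ κ ∈ F, fourier n κ * ((σ {κ}).toReal : ℂ) := by
  classical
  have e : ∀ x, (∑ κ ∈ F, u κ (τ n x)) * (starRingEnd ℂ) (∑ κ ∈ F, u κ x)
      = ∑ κ ∈ F, ∑ l ∈ F, u κ (τ n x) * (starRingEnd ℂ) (u l x) := by
    intro x
    rw [map_sum, Finset.sum_mul_sum]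
  simp only [e]
  rw [integral_finsetSum _ fun κ _ => integrable_finsetSum _ fun l _ =>
    B0_int μ (B0_mul (B0_comp hτ (hu.bd κ) n) (B0_conj (hu.bd l)))]
  refine Finset.sum_congr rfl fun κ hκ => ?_
  rw [integral_finsetSum _ fun l _ => B0_int μ (B0_mul (B0_comp hτ (hu.bd κ) n) (B0_conj (hu.bd l)))]
  have e2 : ∀ l : Cir, ∫ x, u κ (τ n x) * (starRingEnd ℂ) (u l x) ∂μ
      = fourier n κ * (if κ = l then ((σ {κ}).toReal : ℂ) else 0) := by
    intro l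
    rw [← B3_uu hτ hg hu, ← integral_const_mul]
    refine integral_congr_ae ?_
    filter_upwards [hu.eq κ n] with x hx
    rw [hx]
    ring
  simp only [e2, mul_ite, mul_zero, Finset.sum_ite_eq, if_pos hκ]

private theorem B3_rF (σ : Measure Cir) [IsFiniteMeasure σ] (F : Finset Cir) (n : ℤ) :
    ∫ t, (fourier n t : ℂ) ∂(σ.restrict (F : Set Cir)) = ∑ κ ∈ F, fourier n κ * ((σ {κ}).toReal : ℂ) := by
  rw [setIntegral_finset F (B0_int σ (B0_fb n)).integrableOn]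
  refine Finset.sum_congr rfl fun κ _ => ?_
  rw [Complex.real_smul, mul_comm]
  rfl

theorem eig_sum_sp {X : Type} [MeasurableSpace X] (μ : Measure X) [IsProbabilityMeasure μ] (τ : ℤ → X → X)
    (hτ : Sys μ τ) (g : X → ℂ) (hg : Bd g) (σ : Measure Cir) (hσ : Sp μ τ g σ) (u : Cir → X → ℂ)
    (hu : Eig μ τ g σ u) (F : Finset Cir) :
    Sp μ τ (fun x => ∑ κ ∈ F, u κ x) (σ.restrict (F : Set Cir)) := by
  have := hσ.1
  refine ⟨inferInstance, fun n => ?_⟩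
  rw [B3_su hτ hg hu F n, B3_rF σ F n]

theorem eig_sp {X : Type} [MeasurableSpace X] (μ : Measure X) [IsProbabilityMeasure μ] (τ : ℤ → X → X)
    (hτ : Sys μ τ) (g : X → ℂ) (hg : Bd g) (σ : Measure Cir) (hσ : Sp μ τ g σ) (u : Cir → X → ℂ)
    (hu : Eig μ τ g σ u) (F : Finset Cir) :
    Sp μ τ (fun x => g x - ∑ κ ∈ F, u κ x) (σ.restrict (F : Set Cir)ᶜ) := by
  have := hσ.1
  refine ⟨inferInstance, fun n => ?_⟩
  have hF : MeasurableSet (F : Set Cir) := F.measurableSet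
  have e1 : ∫ t, (fourier n t : ℂ) ∂(σ.restrict (F : Set Cir)ᶜ)
      = ∫ t, (fourier n t : ℂ) ∂σ - ∑ κ ∈ F, fourier n κ * ((σ {κ}).toReal : ℂ) := by
    rw [← B3_rF σ F n, ← integral_add_compl hF (B0_int σ (B0_fb n))]
    ring
  have hU : Bd (fun x => ∑ κ ∈ F, u κ x) := B0_sum _ _ hu.bd
  have hUn : Bd (fun x => ∑ κ ∈ F, u κ (τ n x)) := B0_comp hτ hU n
  have hgn : Bd (fun x => g (τ n x)) := B0_comp hτ hg n
  have e2 : ∀ x, (g (τ n x) - ∑ κ ∈ F, u κ (τ n x)) * (starRingEnd ℂ) (g x - ∑ κ ∈ F, u κ x)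
      = (g (τ n x) * (starRingEnd ℂ) (g x) - g (τ n x) * (starRingEnd ℂ) (∑ κ ∈ F, u κ x))
        - ((∑ κ ∈ F, u κ (τ n x)) * (starRingEnd ℂ) (g x)
          - (∑ κ ∈ F, u κ (τ n x)) * (starRingEnd ℂ) (∑ κ ∈ F, u κ x)) := by
    intro x
    rw [map_sub]
    ring
  simp only [e2]
  rw [integral_sub, integral_sub, integral_sub, hσ.2 n, e1, B3_su hτ hg hu F n]
  · have e3 : ∫ x, g (τ n x) * (starRingEnd ℂ) (∑ κ ∈ F, u κ x) ∂μ
        = ∑ κ ∈ F, fourier n κ * ((σ {κ}).toReal : ℂ) := by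
      have : ∀ x, g (τ n x) * (starRingEnd ℂ) (∑ κ ∈ F, u κ x)
          = ∑ κ ∈ F, g (τ n x) * (starRingEnd ℂ) (u κ x) := fun x => by rw [map_sum, Finset.mul_sum]
      simp only [this]
      rw [integral_finsetSum _ fun κ _ => B0_int μ (B0_mul hgn (B0_conj (hu.bd κ)))]
      exact Finset.sum_congr rfl fun κ _ => B3_gi hτ hg hu κ n
    have e4 : ∫ x, (∑ κ ∈ F, u κ (τ n x)) * (starRingEnd ℂ) (g x) ∂μ
        = ∑ κ ∈ F, fourier n κ * ((σ {κ}).toReal : ℂ) := by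
      have : ∀ x, (∑ κ ∈ F, u κ (τ n x)) * (starRingEnd ℂ) (g x)
          = ∑ κ ∈ F, u κ (τ n x) * (starRingEnd ℂ) (g x) := fun x => by rw [Finset.sum_mul]
      simp only [this]
      rw [integral_finsetSum _ fun κ _ => B0_int μ (B0_mul (B0_comp hτ (hu.bd κ) n) (B0_conj hg))]
      exact Finset.sum_congr rfl fun κ _ => B3_ig hu κ n
    rw [e3, e4]
    ring
  · exact B0_int μ (B0_mul hUn (B0_conj hg))
  · exact B0_int μ (B0_mul hUn (B0_conj hU))
  · exact B0_int μ (B0_mul hgn (B0_conj hg))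
  · exact B0_int μ (B0_mul hgn (B0_conj hU))
  · exact B0_int μ (B0_sub (B0_mul hgn (B0_conj hg)) (B0_mul hgn (B0_conj hU)))
  · exact B0_int μ (B0_sub (B0_mul hUn (B0_conj hg)) (B0_mul hUn (B0_conj hU)))

/-- `h` mixing is orthogonal to eigenfunctions: `‖∫ h conj u‖ = ‖∫ h∘τ d conj u‖ → 0`. -/
theorem eig_mix {X : Type} [MeasurableSpace X] (μ : Measure X) [IsProbabilityMeasure μ] (τ : ℤ → X → X)
    (hτ : Sys μ τ) (g : X → ℂ) (hg : Bd g) (σ : Measure Cir) (u : Cir → X → ℂ) (hu : Eig μ τ g σ u)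
    (h : X → ℂ) (hh : Bd h) (hm : Mx3 μ τ h) (κ : Cir) :
    ∫ x, h x * (starRingEnd ℂ) (u κ x) ∂μ = 0 := by
  have h1 := hm 1 0 2 (by norm_num) (by norm_num) (by norm_num) (fun x => (starRingEnd ℂ) (u κ x)) (fun _ => 1)
    (B0_conj (hu.bd κ)) (B0_const 1)
  have h2 := h1.norm
  rw [norm_zero] at h2
  have h3 : ∀ d : ℕ, ‖∫ x, h (τ (1 * (d : ℤ)) x) * (starRingEnd ℂ) (u κ (τ (0 * (d : ℤ)) x)) * 1 ∂μ‖
      = ‖∫ x, h x * (starRingEnd ℂ) (u κ x) ∂μ‖ := by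
    intro d
    have := B3_gu hτ hu h hh κ d
    simp only [one_mul, zero_mul, hτ.zero, mul_one]
    rw [this, norm_mul, B0_fnorm, one_mul]
  simp only [h3] at h2
  have h4 := tendsto_nhds_unique h2 tendsto_const_nhds
  exact norm_eq_zero.mp h4.symm

/-! ## module B4: the main mass -/

theorem mx3_mean {X : Type} [MeasurableSpace X] (μ : Measure X) [IsProbabilityMeasure μ] (τ : ℤ → X → X)
    (hτ : Sys μ τ) (h : X → ℂ) (hh : Bd h) (hm : Mx3 μ τ h) : ∫ x, h x ∂μ = 0 := by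
  have h1 := hm 0 1 2 (by norm_num) (by norm_num) (by norm_num) (fun _ => 1) (fun _ => 1)
    (B0_const 1) (B0_const 1)
  simp only [zero_mul, hτ.zero, mul_one] at h1
  exact tendsto_nhds_unique tendsto_const_nhds h1

/-- `σ {0} = lim (1/N) ∑ ∫ g∘τ n conj g = |∫ g|²` -/
theorem sp_zero {X : Type} [MeasurableSpace X] (μ : Measure X) [IsProbabilityMeasure μ] (τ : ℤ → X → X)
    (hτ : Sys μ τ) (he : Erg μ τ) (g : X → ℂ) (hg : Bd g) (σ : Measure Cir) (hσ : Sp μ τ g σ) :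
    (σ {0}).toReal = ‖∫ x, g x ∂μ‖ ^ 2 := by
  have := hσ.1
  have h1 := he (fun x => (starRingEnd ℂ) (g x)) g (B0_conj hg) hg
  have e1 : (∫ x, (starRingEnd ℂ) (g x) ∂μ) * ∫ x, g x ∂μ = ((‖∫ x, g x ∂μ‖ ^ 2 : ℝ) : ℂ) := by
    rw [integral_conj, mul_comm, Complex.mul_conj, Complex.normSq_eq_norm_sq]
  rw [e1] at h1
  have e2 : ∀ N : ℕ, (∑ d ∈ Finset.range N, ∫ x, (starRingEnd ℂ) (g x) * g (τ (d : ℤ) x) ∂μ) / (N : ℂ)
      = ∫ t, B2_D 0 N t ∂σ := by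
    intro N
    have e3 : ∀ t : Cir, B2_D 0 N t = ∑ i ∈ Finset.range N, (1 / (N : ℂ)) * (fourier (i : ℤ) t : ℂ) := by
      intro t
      rw [B2_D]
      refine Finset.sum_congr rfl fun i _ => ?_
      rw [B2_a, fourier_eval_zero, map_one]
    simp only [e3]
    rw [integral_finsetSum _ fun (i : ℕ) _ => B0_int σ (B0_mul (B0_const _) (B0_fb (i : ℤ))), Finset.sum_div]
    refine Finset.sum_congr rfl fun i _ => ?_
    rw [integral_const_mul, ← hσ.2 i, div_eq_mul_one_div, mul_comm]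
    congr 1
    refine integral_congr_ae (Eventually.of_forall fun x => ?_)
    simp only
    ring
  simp only [e2] at h1
  have h2 := tendsto_integral_of_dominated_convergence (μ := σ)
    (F := fun N t => B2_D 0 N t) (f := ({0} : Set Cir).indicator (fun _ => (1 : ℂ)))
    (fun _ => 1) (fun N => (B2_Dm 0 N).aestronglyMeasurable) (integrable_const _)
    (fun N => Eventually.of_forall fun t => B2_Db 0 N t)
    (Eventually.of_forall fun t => B2_Dt 0 t)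
  have h3 := tendsto_nhds_unique h1 h2
  rw [integral_indicator (measurableSet_singleton 0)] at h3
  have h4 : ∫ t in ({0} : Set Cir), (1 : ℂ) ∂σ = ((σ {0}).toReal : ℂ) := by
    simp [Measure.real]
  rw [h4] at h3
  exact_mod_cast h3.symm

private theorem B4_fu {X : Type} [MeasurableSpace X] {μ : Measure X} [IsProbabilityMeasure μ] {τ : ℤ → X → X}
    (hτ : Sys μ τ) {A : Set X} {g h : X → ℂ} (hg : Bd g) (hh : Bd h)
    (hf : ∀ᵐ x ∂μ, A.indicator (fun _ => (1 : ℂ)) x = g x + h x) (hm : Mx3 μ τ h)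
    {σ : Measure Cir} {u : Cir → X → ℂ} (hu : Eig μ τ g σ u) (F : Finset Cir) :
    ∫ x, A.indicator (fun _ => (1 : ℂ)) x * (starRingEnd ℂ) (∑ κ ∈ F, u κ x) ∂μ
      = ((∑ κ ∈ F, (σ {κ}).toReal : ℝ) : ℂ) := by
  have e : ∫ x, A.indicator (fun _ => (1 : ℂ)) x * (starRingEnd ℂ) (∑ κ ∈ F, u κ x) ∂μ
      = ∫ x, ∑ κ ∈ F, (g x * (starRingEnd ℂ) (u κ x) + h x * (starRingEnd ℂ) (u κ x)) ∂μ := by
    refine integral_congr_ae ?_
    filter_upwards [hf] with x hx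
    rw [hx, map_sum, Finset.mul_sum]
    exact Finset.sum_congr rfl fun κ _ => by ring
  rw [e, integral_finsetSum _ fun κ _ => B0_int μ
    (B0_add (B0_mul hg (B0_conj (hu.bd κ))) (B0_mul hh (B0_conj (hu.bd κ)))), Complex.ofReal_sum]
  refine Finset.sum_congr rfl fun κ _ => ?_
  rw [integral_add (B0_int μ (B0_mul hg (B0_conj (hu.bd κ)))) (B0_int μ (B0_mul hh (B0_conj (hu.bd κ)))), hu.ip κ,
    eig_mix μ τ hτ g hg σ u hu h hh hm κ, add_zero]

private theorem B4_nU {X : Type} [MeasurableSpace X] {μ : Measure X} [IsProbabilityMeasure μ] {τ : ℤ → X → X}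
    (hτ : Sys μ τ) {g : X → ℂ} (hg : Bd g) {σ : Measure Cir} (hσ : Sp μ τ g σ) {u : Cir → X → ℂ}
    (hu : Eig μ τ g σ u) (F : Finset Cir) :
    ∫ x, ‖∑ κ ∈ F, u κ x‖ ^ 2 ∂μ = ∑ κ ∈ F, (σ {κ}).toReal := by
  have := eig_norm μ τ hτ g hg σ hσ u hu F fun _ => 1
  simpa using this

/-- `σ F = ∫ f conj u`, `u = ∑ κ ∈ F, u κ`, `f = 1_A`; so `σ F ≤ 1`. -/
theorem mass_le {X : Type} [MeasurableSpace X] (μ : Measure X) [IsProbabilityMeasure μ] (τ : ℤ → X → X)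
    (hτ : Sys μ τ) (A : Set X) (hA : MeasurableSet A) (g h : X → ℂ) (hg : Bd g) (hh : Bd h)
    (hf : ∀ᵐ x ∂μ, A.indicator (fun _ => (1 : ℂ)) x = g x + h x) (hm : Mx3 μ τ h)
    (σ : Measure Cir) (hσ : Sp μ τ g σ) (u : Cir → X → ℂ) (hu : Eig μ τ g σ u) (F : Finset Cir) :
    ∑ κ ∈ F, (σ {κ}).toReal ≤ 1 := by
  have hU : Bd (fun x => ∑ κ ∈ F, u κ x) := B0_sum _ _ hu.bd
  have h1 := B0_csc μ (B0_ind hA) hU
  rw [B4_fu hτ hg hh hf hm hu F, B4_nU hτ hg hσ hu F, Complex.norm_real, Real.norm_eq_abs, sq_abs] at h1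
  have h2 : ∫ x, ‖A.indicator (fun _ => (1 : ℂ)) x‖ ^ 2 ∂μ ≤ 1 := by
    have h3 : ∫ x, ‖A.indicator (fun _ => (1 : ℂ)) x‖ ^ 2 ∂μ ≤ ∫ _, (1 : ℝ) ∂μ := by
      refine integral_mono (B0_sqint μ (B0_ind hA)) (integrable_const _) fun x => ?_
      by_cases h : x ∈ A <;> simp [h]
    simpa using h3
  have h3 : 0 ≤ ∑ κ ∈ F, (σ {κ}).toReal := Finset.sum_nonneg fun _ _ => ENNReal.toReal_nonneg
  nlinarith

/-- `(σ F)² = |∫ f conj u|² ≤ μ(A) ∫_A |u|²` and `σ F ≥ σ {0} = μ(A)²`. -/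
theorem main_mass {X : Type} [MeasurableSpace X] (μ : Measure X) [IsProbabilityMeasure μ] (τ : ℤ → X → X)
    (hτ : Sys μ τ) (he : Erg μ τ) (A : Set X) (hA : MeasurableSet A) (g h : X → ℂ) (hg : Bd g) (hh : Bd h)
    (hf : ∀ᵐ x ∂μ, A.indicator (fun _ => (1 : ℂ)) x = g x + h x) (hm : Mx3 μ τ h)
    (σ : Measure Cir) (hσ : Sp μ τ g σ) (u : Cir → X → ℂ) (hu : Eig μ τ g σ u) (F : Finset Cir) (hF : (0 : Cir) ∈ F) :
    μ.real A ^ 3 ≤ ∫ x in A, ‖∑ κ ∈ F, u κ x‖ ^ 2 ∂μ := by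
  have hU : Bd (fun x => ∑ κ ∈ F, u κ x) := B0_sum _ _ hu.bd
  have h1 := B0_csc (μ.restrict A) (B0_const (Y := X) 1) hU
  have h2 : ∫ x, (1 : ℂ) * (starRingEnd ℂ) (∑ κ ∈ F, u κ x) ∂(μ.restrict A)
      = ((∑ κ ∈ F, (σ {κ}).toReal : ℝ) : ℂ) := by
    rw [← B4_fu hτ hg hh hf hm hu F, ← integral_indicator hA]
    refine integral_congr_ae (Eventually.of_forall fun x => ?_)
    by_cases h : x ∈ A <;> simp [h]
  rw [h2, Complex.norm_real, Real.norm_eq_abs, sq_abs] at h1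
  have h3 : ∫ _, ‖(1 : ℂ)‖ ^ 2 ∂(μ.restrict A) = μ.real A := by
    simp [Measure.real]
  rw [h3] at h1
  have h4 : (σ {0}).toReal = μ.real A ^ 2 := by
    rw [sp_zero μ τ hτ he g hg σ hσ]
    have h5 : ∫ x, g x ∂μ = (μ.real A : ℂ) := by
      have h6 : ∫ x, A.indicator (fun _ => (1 : ℂ)) x ∂μ = ∫ x, (g x + h x) ∂μ := integral_congr_ae hf
      rw [integral_add (B0_int μ hg) (B0_int μ hh), mx3_mean μ τ hτ h hh hm, add_zero,
        integral_indicator hA] at h6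
      rw [← h6]
      simp [Measure.real]
    rw [h5, Complex.norm_real, Real.norm_eq_abs, sq_abs]
  have h5 : μ.real A ^ 2 ≤ ∑ κ ∈ F, (σ {κ}).toReal := by
    rw [← h4]
    exact Finset.single_le_sum (f := fun κ => (σ {κ}).toReal) (fun _ _ => ENNReal.toReal_nonneg) hF
  have h6 : 0 ≤ μ.real A := measureReal_nonneg
  have h7 : 0 ≤ ∫ x in A, ‖∑ κ ∈ F, u κ x‖ ^ 2 ∂μ := integral_nonneg fun x => by positivity
  rcases h6.eq_or_lt with h8 | h8
  · rw [← h8]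
    simpa using h7
  · have h9 : (μ.real A ^ 2) ^ 2 ≤ (∑ κ ∈ F, (σ {κ}).toReal) ^ 2 := pow_le_pow_left₀ (by positivity) h5 2
    have h10 : μ.real A * μ.real A ^ 3 ≤ μ.real A * ∫ x in A, ‖∑ κ ∈ F, u κ x‖ ^ 2 ∂μ := by
      calc μ.real A * μ.real A ^ 3 = (μ.real A ^ 2) ^ 2 := by ring
        _ ≤ _ := h9.trans h1
    exact le_of_mul_le_mul_left h10 h8

/-! ## module B5: the rotation estimate -/

private theorem B5_dist (x : Cir) : ‖(fourier 1 x : ℂ) - 1‖ ≤ 2 * Real.pi * ‖x‖ := by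
  obtain ⟨r, rfl⟩ := QuotientAddGroup.mk_surjective x
  have h1 : ((r : ℝ) : Cir) = ((r - round r : ℝ) : Cir) := by
    rw [AddCircle.coe_sub]
    have : ((round r : ℝ) : Cir) = 0 := by
      rw [AddCircle.coe_eq_zero_iff]
      exact ⟨round r, by simp⟩
    rw [this, sub_zero]
  have h2 : ‖((r : ℝ) : Cir)‖ = |r - round r| := by
    rw [AddCircle.norm_eq]
    simp
  have h3 : (fourier 1 ((r : ℝ) : Cir) : ℂ) = Complex.exp (Complex.I * ((2 * Real.pi * (r - round r) : ℝ) : ℂ)) := by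
    rw [h1, fourier_coe_apply]
    congr 1
    push_cast
    ring
  have h4 := Real.norm_exp_I_mul_ofReal_sub_one_le (x := 2 * Real.pi * (r - round r))
  have h5 : ‖(fourier 1 ((r : ℝ) : Cir) : ℂ) - 1‖ ≤ 2 * Real.pi * ‖((r : ℝ) : Cir)‖ := by
    rw [h3, h2]
    refine h4.trans (le_of_eq ?_)
    rw [Real.norm_eq_abs, abs_mul, abs_of_pos (by positivity : (0 : ℝ) < 2 * Real.pi)]
  exact h5

private theorem B5_d1 (κ : Cir) (d : ℤ) (ε : ℝ) (h : ‖d • κ‖ ≤ ε / 10) : ‖(fourier d κ : ℂ) - 1‖ ≤ ε := by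
  have h1 := B5_dist (d • κ)
  rw [← B0_fmul, one_mul] at h1
  have h2 := Real.pi_lt_d2
  have h3 := Real.pi_pos
  have h4 : 0 ≤ ‖d • κ‖ := norm_nonneg _
  nlinarith

private theorem B5_d2 (κ : Cir) (d : ℤ) (ε : ℝ) (h : ‖d • κ‖ ≤ ε / 10) : ‖(fourier (2 * d) κ : ℂ) - 1‖ ≤ 2 * ε := by
  have h1 := B5_d1 κ d ε h
  have e : (fourier (2 * d) κ : ℂ) - 1 = ((fourier d κ : ℂ) - 1) * ((fourier d κ : ℂ) + 1) := by
    rw [two_mul, fourier_add]
    ring
  rw [e, norm_mul]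
  have h2 : ‖(fourier d κ : ℂ) + 1‖ ≤ 2 := by
    refine (norm_add_le _ _).trans ?_
    rw [B0_fnorm, norm_one]
    norm_num
  nlinarith [norm_nonneg ((fourier d κ : ℂ) - 1), norm_nonneg ((fourier d κ : ℂ) + 1)]

private theorem B5_ind {X : Type} [MeasurableSpace X] {μ : Measure X} [IsProbabilityMeasure μ] {A : Set X}
    (hA : MeasurableSet A) {P Q : X → ℂ} (hP : Bd P) (hQ : Bd Q) (a b : ℝ) (ha : 0 ≤ a) (hb : 0 ≤ b)
    (hPa : ∫ x, ‖P x‖ ^ 2 ∂μ ≤ a ^ 2) (hQb : ∫ x, ‖Q x‖ ^ 2 ∂μ ≤ b ^ 2) :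
    ‖∫ x, A.indicator (fun _ => (1 : ℂ)) x * P x * (starRingEnd ℂ) (Q x) ∂μ‖ ≤ a * b := by
  have h1 := B0_csc μ (B0_mul (B0_ind hA) hP) hQ
  have h2 : ∫ x, ‖A.indicator (fun _ => (1 : ℂ)) x * P x‖ ^ 2 ∂μ ≤ ∫ x, ‖P x‖ ^ 2 ∂μ := by
    refine integral_mono (B0_sqint μ (B0_mul (B0_ind hA) hP)) (B0_sqint μ hP) fun x => ?_
    by_cases h : x ∈ A <;> simp [h]
  have h3 : 0 ≤ ∫ x, ‖Q x‖ ^ 2 ∂μ := integral_nonneg fun x => by positivity
  have h4 : 0 ≤ ∫ x, ‖P x‖ ^ 2 ∂μ := integral_nonneg fun x => by positivity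
  refine abs_le_of_sq_le_sq' ?_ (by positivity) |>.2
  calc _ ≤ _ := h1
    _ ≤ a ^ 2 * b ^ 2 := mul_le_mul (h2.trans hPa) hQb h3 (by positivity)
    _ = (a * b) ^ 2 := by ring

private theorem B5_V {X : Type} [MeasurableSpace X] {μ : Measure X} [IsProbabilityMeasure μ] {τ : ℤ → X → X}
    (hτ : Sys μ τ) {g : X → ℂ} (hg : Bd g) {σ : Measure Cir} (hσ : Sp μ τ g σ) {u : Cir → X → ℂ}
    (hu : Eig μ τ g σ u) (F : Finset Cir) (hF : ∑ κ ∈ F, (σ {κ}).toReal ≤ 1) (c : Cir → ℂ) (a : ℝ) (ha : 0 ≤ a)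
    (hc : ∀ κ ∈ F, ‖c κ‖ ≤ a) :
    ∫ x, ‖∑ κ ∈ F, c κ * u κ x‖ ^ 2 ∂μ ≤ a ^ 2 := by
  rw [eig_norm μ τ hτ g hg σ hσ u hu F c]
  calc ∑ κ ∈ F, ‖c κ‖ ^ 2 * (σ {κ}).toReal ≤ ∑ κ ∈ F, a ^ 2 * (σ {κ}).toReal :=
        Finset.sum_le_sum fun κ hκ => mul_le_mul_of_nonneg_right
          (pow_le_pow_left₀ (norm_nonneg _) (hc κ hκ) 2) ENNReal.toReal_nonneg
    _ = a ^ 2 * ∑ κ ∈ F, (σ {κ}).toReal := by rw [Finset.mul_sum]
    _ ≤ a ^ 2 * 1 := mul_le_mul_of_nonneg_left hF (by positivity)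
    _ = a ^ 2 := mul_one _

private theorem B5_ae {X : Type} [MeasurableSpace X] {μ : Measure X} {τ : ℤ → X → X}
    {g : X → ℂ} {σ : Measure Cir} {u : Cir → X → ℂ}
    (hu : Eig μ τ g σ u) (F : Finset Cir) (n : ℤ) :
    ∀ᵐ x ∂μ, ∑ κ ∈ F, u κ (τ n x) = ∑ κ ∈ F, (fourier n κ : ℂ) * u κ x := by
  have : ∀ᵐ x ∂μ, ∀ κ ∈ F, u κ (τ n x) = fourier n κ * u κ x := by
    rw [Filter.eventually_all_finset]
    exact fun κ _ => hu.eq κ n
  filter_upwards [this] with x hx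
  exact Finset.sum_congr rfl hx

theorem rot {X : Type} [MeasurableSpace X] (μ : Measure X) [IsProbabilityMeasure μ] (τ : ℤ → X → X)
    (hτ : Sys μ τ) (A : Set X) (hA : MeasurableSet A) (g : X → ℂ) (hg : Bd g)
    (σ : Measure Cir) (hσ : Sp μ τ g σ) (u : Cir → X → ℂ) (hu : Eig μ τ g σ u) (F : Finset Cir)
    (hF : ∑ κ ∈ F, (σ {κ}).toReal ≤ 1) (ε : ℝ) (hε : 0 < ε) (d : ℤ) (hd : ∀ κ ∈ F, ‖d • κ‖ ≤ ε / 10) :
    ‖(∫ x, A.indicator (fun _ => (1 : ℂ)) x * (∑ κ ∈ F, u κ (τ d x))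
        * (starRingEnd ℂ) (∑ κ ∈ F, u κ (τ (2 * d) x)) ∂μ)
      - ((∫ x in A, ‖∑ κ ∈ F, u κ x‖ ^ 2 ∂μ : ℝ) : ℂ)‖ ≤ 3 * ε := by
  have hU : Bd (fun x => ∑ κ ∈ F, u κ x) := B0_sum _ _ hu.bd
  have hb : ∀ c : Cir → ℂ, Bd (fun x => ∑ κ ∈ F, c κ * u κ x) := fun c =>
    B0_sum _ _ fun κ => B0_mul (B0_const _) (hu.bd κ)
  have hI : Bd (A.indicator (fun _ => (1 : ℂ))) := B0_ind hA
  have e1 : ∫ x, A.indicator (fun _ => (1 : ℂ)) x * (∑ κ ∈ F, u κ (τ d x))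
        * (starRingEnd ℂ) (∑ κ ∈ F, u κ (τ (2 * d) x)) ∂μ
      = ∫ x, A.indicator (fun _ => (1 : ℂ)) x * (∑ κ ∈ F, (fourier d κ : ℂ) * u κ x)
        * (starRingEnd ℂ) (∑ κ ∈ F, (fourier (2 * d) κ : ℂ) * u κ x) ∂μ := by
    refine integral_congr_ae ?_
    filter_upwards [B5_ae hu F d, B5_ae hu F (2 * d)] with x h1 h2
    rw [h1, h2]
  have e2 : ((∫ x in A, ‖∑ κ ∈ F, u κ x‖ ^ 2 ∂μ : ℝ) : ℂ)
      = ∫ x, A.indicator (fun _ => (1 : ℂ)) x * (∑ κ ∈ F, u κ x) * (starRingEnd ℂ) (∑ κ ∈ F, u κ x) ∂μ := by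
    rw [← integral_complex_ofReal, ← integral_indicator hA]
    refine integral_congr_ae (Eventually.of_forall fun x => ?_)
    by_cases h : x ∈ A
    · simp only [Set.indicator_of_mem h, one_mul]
      rw [Complex.mul_conj, Complex.normSq_eq_norm_sq]
    · simp only [Set.indicator_of_notMem h, zero_mul]
  rw [e1, e2, ← integral_sub (B0_int μ (B0_mul (B0_mul hI (hb _)) (B0_conj (hb _))))
    (B0_int μ (B0_mul (B0_mul hI hU) (B0_conj hU)))]
  have e3 : ∀ x, A.indicator (fun _ => (1 : ℂ)) x * (∑ κ ∈ F, (fourier d κ : ℂ) * u κ x)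
        * (starRingEnd ℂ) (∑ κ ∈ F, (fourier (2 * d) κ : ℂ) * u κ x)
      - A.indicator (fun _ => (1 : ℂ)) x * (∑ κ ∈ F, u κ x) * (starRingEnd ℂ) (∑ κ ∈ F, u κ x)
      = A.indicator (fun _ => (1 : ℂ)) x * (∑ κ ∈ F, ((fourier d κ : ℂ) - 1) * u κ x)
          * (starRingEnd ℂ) (∑ κ ∈ F, (fourier (2 * d) κ : ℂ) * u κ x)
        + A.indicator (fun _ => (1 : ℂ)) x * (∑ κ ∈ F, u κ x)
          * (starRingEnd ℂ) (∑ κ ∈ F, ((fourier (2 * d) κ : ℂ) - 1) * u κ x) := by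
    intro x
    simp only [sub_mul, one_mul, Finset.sum_sub_distrib, map_sub]
    ring
  simp only [e3]
  rw [integral_add (B0_int μ (B0_mul (B0_mul hI (hb _)) (B0_conj (hb _))))
    (B0_int μ (B0_mul (B0_mul hI hU) (B0_conj (hb _))))]
  refine (norm_add_le _ _).trans ?_
  have n1 := B5_ind (μ := μ) hA (hb fun κ => (fourier d κ : ℂ) - 1) (hb fun κ => (fourier (2 * d) κ : ℂ)) ε 1 hε.le
    zero_le_one (B5_V hτ hg hσ hu F hF _ ε hε.le fun κ hκ => B5_d1 κ d ε (hd κ hκ))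
    (B5_V hτ hg hσ hu F hF _ 1 zero_le_one fun κ _ => (B0_fnorm _ _).le)
  have hU1 : ∫ x, ‖∑ κ ∈ F, u κ x‖ ^ 2 ∂μ ≤ 1 ^ 2 := by
    rw [B4_nU hτ hg hσ hu F]
    simpa using hF
  have n2 := B5_ind (μ := μ) hA hU (hb fun κ => (fourier (2 * d) κ : ℂ) - 1) 1 (2 * ε) zero_le_one
    (by positivity) hU1
    (B5_V hτ hg hσ hu F hF _ (2 * ε) (by positivity) fun κ hκ => B5_d2 κ d ε (hd κ hκ))
  linarith

/-- the trivial bound for the main term -/
theorem rot_triv {X : Type} [MeasurableSpace X] (μ : Measure X) [IsProbabilityMeasure μ] (τ : ℤ → X → X)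
    (hτ : Sys μ τ) (A : Set X) (hA : MeasurableSet A) (g : X → ℂ) (hg : Bd g)
    (σ : Measure Cir) (hσ : Sp μ τ g σ) (u : Cir → X → ℂ) (hu : Eig μ τ g σ u) (F : Finset Cir)
    (hF : ∑ κ ∈ F, (σ {κ}).toReal ≤ 1) (d : ℤ) :
    ‖∫ x, A.indicator (fun _ => (1 : ℂ)) x * (∑ κ ∈ F, u κ (τ d x))
        * (starRingEnd ℂ) (∑ κ ∈ F, u κ (τ (2 * d) x)) ∂μ‖ ≤ 1 := by
  have hb : ∀ c : Cir → ℂ, Bd (fun x => ∑ κ ∈ F, c κ * u κ x) := fun c =>
    B0_sum _ _ fun κ => B0_mul (B0_const _) (hu.bd κ)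
  have e1 : ∫ x, A.indicator (fun _ => (1 : ℂ)) x * (∑ κ ∈ F, u κ (τ d x))
        * (starRingEnd ℂ) (∑ κ ∈ F, u κ (τ (2 * d) x)) ∂μ
      = ∫ x, A.indicator (fun _ => (1 : ℂ)) x * (∑ κ ∈ F, (fourier d κ : ℂ) * u κ x)
        * (starRingEnd ℂ) (∑ κ ∈ F, (fourier (2 * d) κ : ℂ) * u κ x) ∂μ := by
    refine integral_congr_ae ?_
    filter_upwards [B5_ae hu F d, B5_ae hu F (2 * d)] with x h1 h2
    rw [h1, h2]
  rw [e1]
  have n1 := B5_ind (μ := μ) hA (hb fun κ => (fourier d κ : ℂ)) (hb fun κ => (fourier (2 * d) κ : ℂ)) 1 1 zero_le_one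
    zero_le_one (B5_V hτ hg hσ hu F hF _ 1 zero_le_one fun κ _ => (B0_fnorm _ _).le)
    (B5_V hτ hg hσ hu F hF _ 1 zero_le_one fun κ _ => (B0_fnorm _ _).le)
  simpa using n1

/-! ## module B6: pairs of spectral measures -/

private theorem B6_R2neg (W : ℕ → ℝ) (j : ℕ) (a : ℤ → ℝ) : R2 W j (fun d => a (-d)) = R2 W j a := by
  unfold R2
  simp only [neg_neg]
  congr 1
  exact Finset.sum_congr rfl fun d _ => by ring

private theorem B6_E2neg (W : ℕ → ℝ) (j : ℕ) (a : ℤ → ℂ) : E2 W j (fun d => a (-d)) = E2 W j a := by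
  unfold E2
  simp only [neg_neg]
  congr 1
  exact Finset.sum_congr rfl fun d _ => by ring

/-- Change of variables `x ↦ τ (-m d) x`; `pair_erg` (expand the square);
`∫∫ |∑ a_p q(τ p.1 x) G(τ p.2 y)|² = ∫∫ |∑ a_p e(p.1 s) e(p.2 t)|² dσ dσ'` by `sq_prod`. -/
theorem pairD1 {X : Type} [MeasurableSpace X] (μ : Measure X) [IsProbabilityMeasure μ] (τ : ℤ → X → X)
    (hτ : Sys μ τ) (he : Erg μ τ) (W : ℕ → ℝ) (hW : GW W) (q G : X → ℂ) (hq : Bd q) (hG : Bd G)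
    (σ σ' : Measure Cir) [IsFiniteMeasure σ] [IsFiniteMeasure σ'] (hσ : Sp μ τ q σ) (hσ' : Sp μ τ G σ') (m m' : ℤ)
    (hm : m' - m = 1 ∨ m' - m = -1)
    (s : Finset (ℤ × ℤ)) (a : ℤ × ℤ → ℂ) (ε : ℝ) (hε : 0 < ε) :
    ∀ᶠ j : ℕ in atTop,
      R2 W j (fun d => ∫ x, ‖∑ p ∈ s, a p * (q (τ (p.1 + m * d) x) * G (τ (p.2 + m' * d) x))‖ ^ 2 ∂μ)
        ≤ (∫ z, ‖∑ p ∈ s, a p * (fourier p.1 z.1 * fourier p.2 z.2)‖ ^ 2 ∂(σ.prod σ')) + ε := by
  refine quad μ W (fun p d x => q (τ (p.1 + m * d) x) * G (τ (p.2 + m' * d) x))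
    (fun p d => B0_mul (B0_comp hτ hq _) (B0_comp hτ hG _)) σ σ' (fun p p' => ?_) s a ε hε
  set F₁ : X → ℂ := fun x => q (τ p.1 x) * (starRingEnd ℂ) (q (τ p'.1 x)) with hF₁
  set F₂ : X → ℂ := fun x => G (τ p.2 x) * (starRingEnd ℂ) (G (τ p'.2 x)) with hF₂
  have hb1 : Bd F₁ := B0_mul (B0_comp hτ hq _) (B0_conj (B0_comp hτ hq _))
  have hb2 : Bd F₂ := B0_mul (B0_comp hτ hG _) (B0_conj (B0_comp hτ hG _))
  have e : ∀ d : ℤ, ∫ x, q (τ (p.1 + m * d) x) * G (τ (p.2 + m' * d) x)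
        * (starRingEnd ℂ) (q (τ (p'.1 + m * d) x) * G (τ (p'.2 + m' * d) x)) ∂μ
      = ∫ x, F₁ x * F₂ (τ ((m' - m) * d) x) ∂μ := by
    intro d
    rw [← B0_cv hτ (fun x => F₁ x * F₂ (τ ((m' - m) * d) x))
      (B0_mul hb1 (B0_comp hτ hb2 _)).1.aestronglyMeasurable (m * d)]
    refine integral_congr_ae (Eventually.of_forall fun x => ?_)
    simp only [hF₁, hF₂, ← hτ.add, map_mul]
    rw [show p.2 + ((m' - m) * d + m * d) = p.2 + m' * d by ring,
      show p'.2 + ((m' - m) * d + m * d) = p'.2 + m' * d by ring]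
    ring
  simp only [e]
  have l := pair_erg μ τ hτ he W hW F₁ F₂ hb1 hb2
  have i1 : ∫ x, F₁ x ∂μ = ∫ t, (fourier (p.1 - p'.1) t : ℂ) ∂σ := sp_translate μ τ hτ q hq σ hσ _ _
  have i2 : ∫ x, F₂ x ∂μ = ∫ t, (fourier (p.2 - p'.2) t : ℂ) ∂σ' := sp_translate μ τ hτ G hG σ' hσ' _ _
  rw [i1, i2] at l
  rcases hm with h | h
  · simpa only [h, one_mul] using l
  · refine l.congr fun j => ?_
    rw [← B6_E2neg]
    simp only [h, neg_mul, one_mul]

/-- `pairD1`, resp. the change of variables and `pair_two` (differences `±2`). -/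
theorem pairD {X : Type} [MeasurableSpace X] (μ : Measure X) [IsProbabilityMeasure μ] (τ : ℤ → X → X)
    (hτ : Sys μ τ) (he : Erg μ τ) (W : ℕ → ℝ) (hW : GW W) (q G : X → ℂ) (hq : Bd q) (hG : Bd G)
    (σ σ' : Measure Cir) [IsFiniteMeasure σ] [IsFiniteMeasure σ'] (hσ : Sp μ τ q σ) (hσ' : Sp μ τ G σ') (m m' : ℤ)
    (hm : m' - m = 1 ∨ m' - m = -1 ∨ m' - m = 2 ∨ m' - m = -2)
    (s : Finset (ℤ × ℤ)) (a : ℤ × ℤ → ℂ) (ε : ℝ) (hε : 0 < ε) :
    ∀ᶠ j : ℕ in atTop,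
      R2 W j (fun d => ∫ x, ‖∑ p ∈ s, a p * (q (τ (p.1 + m * d) x) * G (τ (p.2 + m' * d) x))‖ ^ 2 ∂μ)
        ≤ 2 * (∫ z, ‖∑ p ∈ s, a p * (fourier p.1 z.1 * fourier p.2 z.2)‖ ^ 2 ∂(σ.prod σ')) + ε := by
  have hpos : 0 ≤ ∫ z, ‖∑ p ∈ s, a p * ((fourier p.1 z.1 : ℂ) * (fourier p.2 z.2 : ℂ))‖ ^ 2 ∂(σ.prod σ') :=
    integral_nonneg fun z => by positivity
  have case1 : (m' - m = 1 ∨ m' - m = -1) → ∀ᶠ j : ℕ in atTop,
      R2 W j (fun d => ∫ x, ‖∑ p ∈ s, a p * (q (τ (p.1 + m * d) x) * G (τ (p.2 + m' * d) x))‖ ^ 2 ∂μ)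
        ≤ 2 * (∫ z, ‖∑ p ∈ s, a p * (fourier p.1 z.1 * fourier p.2 z.2)‖ ^ 2 ∂(σ.prod σ')) + ε := fun h =>
    (pairD1 μ τ hτ he W hW q G hq hG σ σ' hσ hσ' m m' h s a ε hε).mono fun j hj => hj.trans (by linarith)
  have case2 : (m' - m = 2 ∨ m' - m = -2) → ∀ᶠ j : ℕ in atTop,
      R2 W j (fun d => ∫ x, ‖∑ p ∈ s, a p * (q (τ (p.1 + m * d) x) * G (τ (p.2 + m' * d) x))‖ ^ 2 ∂μ)
        ≤ 2 * (∫ z, ‖∑ p ∈ s, a p * (fourier p.1 z.1 * fourier p.2 z.2)‖ ^ 2 ∂(σ.prod σ')) + ε := by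
    intro h
    have hb1 : ∀ p : ℤ × ℤ, Bd (fun x => a p * q (τ p.1 x)) := fun p => B0_mul (B0_const _) (B0_comp hτ hq _)
    have hb2 : ∀ p : ℤ × ℤ, Bd (fun x => G (τ p.2 x)) := fun p => B0_comp hτ hG _
    have h1 := pair_two μ τ hτ he W hW s (fun p x => a p * q (τ p.1 x)) (fun p x => G (τ p.2 x)) hb1 hb2 ε hε
    have e1 : ∫ z, ‖∑ p ∈ s, a p * q (τ p.1 z.1) * G (τ p.2 z.2)‖ ^ 2 ∂(μ.prod μ)
        = ∫ z, ‖∑ p ∈ s, a p * ((fourier p.1 z.1 : ℂ) * (fourier p.2 z.2 : ℂ))‖ ^ 2 ∂(σ.prod σ') := by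
      apply Complex.ofReal_injective
      have hb3 : ∀ p : ℤ × ℤ, Bd (fun z : X × X => a p * q (τ p.1 z.1) * G (τ p.2 z.2)) := fun p => by
        refine B0_mul ?_ ?_
        · exact ⟨(hb1 p).1.comp measurable_fst, (hb1 p).2.imp fun _ h z => h _⟩
        · exact ⟨(hb2 p).1.comp measurable_snd, (hb2 p).2.imp fun _ h z => h _⟩
      rw [sq_prod σ σ' s a, B0_expand (μ.prod μ) s (fun p z => a p * q (τ p.1 z.1) * G (τ p.2 z.2)) hb3]
      refine Finset.sum_congr rfl fun p _ => Finset.sum_congr rfl fun p' _ => ?_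
      have e2 : ∀ z : X × X, a p * q (τ p.1 z.1) * G (τ p.2 z.2)
            * (starRingEnd ℂ) (a p' * q (τ p'.1 z.1) * G (τ p'.2 z.2))
          = (a p * (starRingEnd ℂ) (a p')) * ((q (τ p.1 z.1) * (starRingEnd ℂ) (q (τ p'.1 z.1)))
            * (G (τ p.2 z.2) * (starRingEnd ℂ) (G (τ p'.2 z.2)))) := by
        intro z
        rw [map_mul, map_mul]
        ring
      simp only [e2]
      rw [integral_const_mul, integral_prod_mul (fun x => q (τ p.1 x) * (starRingEnd ℂ) (q (τ p'.1 x)))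
        (fun x => G (τ p.2 x) * (starRingEnd ℂ) (G (τ p'.2 x))), sp_translate μ τ hτ q hq σ hσ,
        sp_translate μ τ hτ G hG σ' hσ']
    rw [e1] at h1
    have e3 : ∀ d : ℤ, ∫ x, ‖∑ p ∈ s, a p * (q (τ (p.1 + m * d) x) * G (τ (p.2 + m' * d) x))‖ ^ 2 ∂μ
        = ∫ x, ‖∑ p ∈ s, a p * q (τ p.1 x) * G (τ p.2 (τ ((m' - m) * d) x))‖ ^ 2 ∂μ := by
      intro d
      have hb4 : Bd (fun x => ∑ p ∈ s, a p * q (τ p.1 x) * G (τ p.2 (τ ((m' - m) * d) x))) :=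
        B0_sum s _ fun p => B0_mul (hb1 p) (B0_comp hτ (hb2 p) _)
      rw [← B0_cv hτ (fun x => ‖∑ p ∈ s, a p * q (τ p.1 x) * G (τ p.2 (τ ((m' - m) * d) x))‖ ^ 2)
        (hb4.1.norm.pow_const 2).aestronglyMeasurable (m * d)]
      refine integral_congr_ae (Eventually.of_forall fun x => ?_)
      simp only
      congr 2
      refine Finset.sum_congr rfl fun p _ => ?_
      rw [← hτ.add, ← hτ.add, ← hτ.add, show p.2 + (m' - m) * d + m * d = p.2 + m' * d by ring]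
      ring
    simp only [e3]
    rcases h with h | h
    · simpa only [h] using h1
    · refine h1.mono fun j hj => ?_
      rw [← B6_R2neg]
      simp only [h]
      have e4 : ∀ d : ℤ, (-2 : ℤ) * -d = 2 * d := fun d => by ring
      simpa only [e4] using hj
  rcases hm with h | h | h | h
  · exact case1 (Or.inl h)
  · exact case1 (Or.inr h)
  · exact case2 (Or.inl h)
  · exact case2 (Or.inr h)

/-! ## module B7: a slot with small atoms -/

/-- `three` with `b m d x = F (τ (m + mB d) x)`, `pairD1` for `hAB` (so `D₁ = 1`), `pairD` for the other two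
(`D = 2`). -/
theorem tri_small {X : Type} [MeasurableSpace X] (μ : Measure X) [IsProbabilityMeasure μ] (τ : ℤ → X → X)
    (hτ : Sys μ τ) (he : Erg μ τ) (W : ℕ → ℝ) (hW : GW W) (w : ℤ → ℝ) (hw : ∀ d, 0 ≤ w d ∧ w d ≤ 1)
    (q F h : X → ℂ) (hq : Bd q) (hF : Bd F) (hh : Bd h)
    (σ₁ σ₂ σ₃ : Measure Cir) (hσ₁ : Sp μ τ q σ₁) (hσ₂ : Sp μ τ F σ₂) (hσ₃ : Sp μ τ h σ₃)
    (G₁ G₂ : Set Cir) (hG₁ : MeasurableSet G₁) (hG₂ : MeasurableSet G₂)
    (hs₁ : σ₁.restrict G₁ ⟂ₘ (volume : Measure Cir)) (ha₁ : ∀ t ∈ G₁, σ₁ {t} = 0)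
    (hs₂ : σ₂.restrict G₂ ⟂ₘ (volume : Measure Cir)) (ha₂ : ∀ t ∈ G₂, σ₂ {t} = 0) (mA mB mC : ℤ)
    (h1 : mB - mA = 1 ∨ mB - mA = -1)
    (h2 : mC - mA = 1 ∨ mC - mA = -1 ∨ mC - mA = 2 ∨ mC - mA = -2)
    (h3 : mC - mB = 1 ∨ mC - mB = -1 ∨ mC - mB = 2 ∨ mC - mB = -2) (ε : ℝ) (hε : 0 < ε) :
    ∀ᶠ j : ℕ in atTop,
      ‖E2 W j (fun d => (w d : ℂ) * ∫ x, q (τ (mA * d) x) * F (τ (mB * d) x) * h (τ (mC * d) x) ∂μ)‖ ^ 2
        ≤ (∫ x, ‖h x‖ ^ 2 ∂μ) * (σ₁ G₁ᶜ).toReal * (σ₂ G₂ᶜ).toReal + ε := by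
  have := hσ₁.1
  have := hσ₂.1
  have := hσ₃.1
  obtain ⟨B1, hB1⟩ := hq.2
  obtain ⟨B2, hB2⟩ := hF.2
  have key := three μ τ hτ W hW w hw q h hq hh (fun m d x => F (τ (m + mB * d) x))
    (fun m d => (B0_comp hτ hF _).1) (max B1 B2) (fun x => (hB1 x).trans (le_max_left _ _))
    (fun m d x => (hB2 _).trans (le_max_right _ _))
    (fun m d l x => by
      rw [← hτ.add, show m + mB * d + l = m + l + mB * d by ring]) mA mC σ₁ σ₂ σ₃ G₁ G₂ hG₁ hG₂ hs₁ ha₁ hs₂ ha₂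
    1 2 zero_le_one zero_le_two
    (fun s a ε hε => by
      rw [one_mul]
      exact pairD1 μ τ hτ he W hW q F hq hF σ₁ σ₂ hσ₁ hσ₂ mA mB h1 s a ε hε)
    (fun s a ε hε => pairD μ τ hτ he W hW q h hq hh σ₁ σ₃ hσ₁ hσ₃ mA mC h2 s a ε hε)
    (fun s a ε hε => pairD μ τ hτ he W hW F h hF hh σ₂ σ₃ hσ₂ hσ₃ mB mC h3 s a ε hε) ε hε
  simpa only [zero_add, one_mul] using key

/-! ## module B10: the terms with a mixing function -/

theorem err3 {X : Type} [MeasurableSpace X] (μ : Measure X) [IsProbabilityMeasure μ] (τ : ℤ → X → X)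
    (hτ : Sys μ τ) (W : ℕ → ℝ) (hW : GW W) (w : ℤ → ℝ) (hw : ∀ d, 0 ≤ w d ∧ w d ≤ 1)
    (h F G : X → ℂ) (hh : Bd h) (hF : Bd F) (hG : Bd G) (hm : Mx3 μ τ h) (a b c : ℤ) (hab : a ≠ b) (hac : a ≠ c)
    (hbc : b ≠ c) :
    Tendsto (fun j : ℕ => E2 W j (fun d => (w d : ℂ) * ∫ x, h (τ (a * d) x) * F (τ (b * d) x) * G (τ (c * d) x) ∂μ))
      atTop (𝓝 0) ∧
    Tendsto (fun j : ℕ => E2 W j (fun d => (w d : ℂ)
      * ∫ x, (starRingEnd ℂ) (h (τ (a * d) x)) * F (τ (b * d) x) * G (τ (c * d) x) ∂μ)) atTop (𝓝 0) := by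
  have key : ∀ (F G : X → ℂ), Bd F → Bd G → ∀ a b c : ℤ, a ≠ b → a ≠ c → b ≠ c → ∀ v : ℕ → ℝ,
      (∀ d, 0 ≤ v d ∧ v d ≤ 1) →
      Tendsto (fun d : ℕ => (v d : ℂ) * ∫ x, h (τ (a * d) x) * F (τ (b * d) x) * G (τ (c * d) x) ∂μ)
        atTop (𝓝 0) := by
    intro F G hF hG a b c hab hac hbc v hv
    have h1 := hm a b c hab hac hbc F G hF hG
    rw [tendsto_zero_iff_norm_tendsto_zero] at h1 ⊢
    refine squeeze_zero (fun _ => norm_nonneg _) (fun d => ?_) h1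
    rw [norm_mul, Complex.norm_real, Real.norm_eq_abs, abs_of_nonneg (hv d).1]
    exact mul_le_of_le_one_left (norm_nonneg _) (hv d).2
  have key2 : ∀ (F G : X → ℂ), Bd F → Bd G → ∀ a b c : ℤ, a ≠ b → a ≠ c → b ≠ c → ∀ v : ℕ → ℝ,
      (∀ d, 0 ≤ v d ∧ v d ≤ 1) →
      Tendsto (fun d : ℕ => (v d : ℂ) * ∫ x, (starRingEnd ℂ) (h (τ (a * d) x)) * F (τ (b * d) x) * G (τ (c * d) x) ∂μ)
        atTop (𝓝 0) := by
    intro F G hF hG a b c hab hac hbc v hv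
    have h1 := key _ _ (B0_conj hF) (B0_conj hG) a b c hab hac hbc v hv
    rw [tendsto_zero_iff_norm_tendsto_zero] at h1 ⊢
    refine h1.congr fun d => ?_
    rw [norm_mul, norm_mul]
    congr 1
    rw [← RCLike.norm_conj, ← integral_conj]
    congr 1
    refine integral_congr_ae (Eventually.of_forall fun x => ?_)
    simp
  have e : ∀ (m : ℤ) (d : ℕ), m * (-(d : ℤ)) = (-m) * d := fun m d => by ring
  constructor
  · refine E2_null W hW _ (key F G hF hG a b c hab hac hbc (fun d => w d) fun d => hw _) ?_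
    have := key F G hF hG (-a) (-b) (-c) (by simpa using hab) (by simpa using hac) (by simpa using hbc)
      (fun d => w (-(d : ℤ))) fun d => hw _
    simpa only [e] using this
  · refine E2_null W hW _ (key2 F G hF hG a b c hab hac hbc (fun d => w d) fun d => hw _) ?_
    have := key2 F G hF hG (-a) (-b) (-c) (by simpa using hab) (by simpa using hac) (by simpa using hbc)
      (fun d => w (-(d : ℤ))) fun d => hw _
    simpa only [e] using this

/-! ## modules B8, B9: the error terms -/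

private theorem B8_at (σ : Measure Cir) [IsFiniteMeasure σ] : {t : Cir | σ {t} ≠ 0}.Countable := by
  have := Measure.countable_meas_pos_of_disjoint_iUnion (μ := σ) (As := fun t : Cir => ({t} : Set Cir))
    (fun t => measurableSet_singleton t) (fun s t hst => by simpa [Function.onFun] using hst)
  simpa [pos_iff_ne_zero] using this

private theorem B8_fin (σ : Measure Cir) [IsFiniteMeasure σ] (F : Finset Cir) (δ : ℝ) (hδ : 0 < δ) :
    ∃ F' : Finset Cir, F ⊆ F' ∧ (∀ κ ∈ F', κ ∉ F → σ {κ} ≠ 0) ∧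
      (σ ({t | σ {t} ≠ 0} \ (F' : Set Cir))).toReal ≤ δ := by
  classical
  obtain ⟨f, hf⟩ := Set.countable_iff_exists_subset_range.mp (B8_at σ)
  set S : ℕ → Finset Cir := fun n => ((Finset.range n).image f).filter (fun t => σ {t} ≠ 0) with hS
  set D : ℕ → Set Cir := fun n => {t | σ {t} ≠ 0} \ ((F ∪ S n : Finset Cir) : Set Cir) with hD
  have hDm : ∀ n, MeasurableSet (D n) := fun n => ((B8_at σ).mono Set.sdiff_subset).measurableSet
  have hanti : Antitone D := by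
    intro n k hnk
    refine Set.sdiff_subset_sdiff_right ?_
    intro t ht
    rw [Finset.mem_coe, Finset.mem_union] at ht ⊢
    rcases ht with ht | ht
    · exact Or.inl ht
    · right
      rw [hS, Finset.mem_filter, Finset.mem_image] at ht ⊢
      obtain ⟨⟨i, hi, rfl⟩, h2⟩ := ht
      exact ⟨⟨i, Finset.mem_range.mpr ((Finset.mem_range.mp hi).trans_le hnk), rfl⟩, h2⟩
  have hempty : ⋂ n, D n = ∅ := by
    rw [Set.eq_empty_iff_forall_notMem]
    intro t ht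
    rw [Set.mem_iInter] at ht
    have h1 : t ∈ {t : Cir | σ {t} ≠ 0} := (ht 0).1
    obtain ⟨i, rfl⟩ := hf h1
    refine (ht (i + 1)).2 ?_
    rw [Finset.mem_coe, Finset.mem_union, hS, Finset.mem_filter, Finset.mem_image]
    exact Or.inr ⟨⟨i, Finset.mem_range.mpr (Nat.lt_succ_self i), rfl⟩, h1⟩
  have hlim := tendsto_measure_iInter_atTop (μ := σ) (s := D) (fun n => (hDm n).nullMeasurableSet) hanti
    ⟨0, measure_ne_top _ _⟩
  rw [hempty, measure_empty] at hlim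
  have hlim2 : Tendsto (fun n => (σ (D n)).toReal) atTop (𝓝 0) := by
    have := (ENNReal.tendsto_toReal ENNReal.zero_ne_top).comp hlim
    rw [ENNReal.toReal_zero] at this
    exact this
  obtain ⟨n, hn⟩ := (hlim2.eventually (gt_mem_nhds hδ)).exists
  refine ⟨F ∪ S n, Finset.subset_union_left, fun κ hκ hκF => ?_, hn.le⟩
  rcases Finset.mem_union.mp hκ with h | h
  · exact absurd h hκF
  · exact (Finset.mem_filter.mp h).2

/-- the sum of the masses of the atoms added is small -/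
private theorem B8_mass (σ : Measure Cir) [IsFiniteMeasure σ] (F F' : Finset Cir) [DecidableEq Cir]
    (h2 : ∀ κ ∈ F', κ ∉ F → σ {κ} ≠ 0) :
    ∑ κ ∈ F' \ F, (σ {κ}).toReal ≤ (σ ({t | σ {t} ≠ 0} \ (F : Set Cir))).toReal := by
  have h : ∑ κ ∈ F' \ F, (σ {κ}).toReal = (σ ((F' \ F : Finset Cir) : Set Cir)).toReal := by
    rw [← ENNReal.toReal_sum (fun _ _ => measure_ne_top _ _)]
    congr 1
    exact (sum_measure_singleton (s := F' \ F) (μ := σ))
  rw [h]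
  refine ENNReal.toReal_mono (measure_ne_top _ _) (measure_mono ?_)
  intro t ht
  rw [Finset.mem_coe, Finset.mem_sdiff] at ht
  exact ⟨h2 t ht.1 ht.2, by simpa using ht.2⟩

private theorem B8_const {W : ℕ → ℝ} (hW : ∀ d, 0 ≤ W d) (j : ℕ) (w : ℤ → ℝ) (hw : ∀ d, 0 ≤ w d) (y : ℤ → ℂ)
    (ε : ℝ) (hy : ∀ d, ‖y d‖ ≤ ε) : ‖E2 W j (fun d => (w d : ℂ) * y d)‖ ≤ ε * R2 W j w := by
  refine (E2_norm_le W hW j _).trans ?_
  rw [← R2_smul]
  refine R2_mono W hW j _ _ fun d => ?_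
  rw [norm_mul, Complex.norm_real, Real.norm_eq_abs, abs_of_nonneg (hw d), mul_comm]
  exact mul_le_mul_of_nonneg_right (hy d) (hw d)

private theorem B8_one {X : Type} [MeasurableSpace X] {μ : Measure X} [IsProbabilityMeasure μ] {A : Set X}
    (hA : MeasurableSet A) : ∫ x, ‖A.indicator (fun _ => (1 : ℂ)) x‖ ^ 2 ∂μ ≤ 1 := by
  have h3 : ∫ x, ‖A.indicator (fun _ => (1 : ℂ)) x‖ ^ 2 ∂μ ≤ ∫ _, (1 : ℝ) ∂μ := by
    refine integral_mono (B0_sqint μ (B0_ind hA)) (integrable_const _) fun x => ?_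
    by_cases h : x ∈ A <;> simp [h]
  simpa using h3

private theorem B8_cvsq {X : Type} [MeasurableSpace X] {μ : Measure X} {τ : ℤ → X → X} (hτ : Sys μ τ)
    {f : X → ℂ} (hf : Bd f) (n : ℤ) : ∫ x, ‖f (τ n x)‖ ^ 2 ∂μ = ∫ x, ‖f x‖ ^ 2 ∂μ :=
  B0_cv hτ (fun x => ‖f x‖ ^ 2) (hf.1.norm.pow_const 2).aestronglyMeasurable n

/-- the singular part of the spectral measure of `g - ∑ κ ∈ F', u κ` -/
private theorem B8_sing (σ : Measure Cir) [IsFiniteMeasure σ] (hs : σ ⟂ₘ (volume : Measure Cir)) (F' : Finset Cir) :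
    MeasurableSet {t : Cir | σ {t} ≠ 0}ᶜ ∧
      (σ.restrict (F' : Set Cir)ᶜ).restrict {t : Cir | σ {t} ≠ 0}ᶜ ⟂ₘ (volume : Measure Cir) ∧
      (∀ t ∈ {t : Cir | σ {t} ≠ 0}ᶜ, (σ.restrict (F' : Set Cir)ᶜ) {t} = 0) ∧
      (σ.restrict (F' : Set Cir)ᶜ) ({t : Cir | σ {t} ≠ 0}ᶜ)ᶜ = σ ({t | σ {t} ≠ 0} \ (F' : Set Cir)) := by
  have hm : MeasurableSet {t : Cir | σ {t} ≠ 0} := (B8_at σ).measurableSet
  refine ⟨hm.compl, ?_, fun t ht => ?_, ?_⟩
  · exact hs.mono_ac ((Measure.restrict_le_self.trans Measure.restrict_le_self).absolutelyContinuous)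
      Measure.AbsolutelyContinuous.rfl
  · have : σ {t} = 0 := by simpa using ht
    exact le_antisymm ((Measure.restrict_le_self _).trans this.le) bot_le
  · rw [compl_compl, Measure.restrict_apply hm]
    rfl

/-- the same for the complex conjugate -/
private theorem B8_sing2 (σ : Measure Cir) [IsFiniteMeasure σ] (hs : σ ⟂ₘ (volume : Measure Cir)) (F' : Finset Cir) :
    MeasurableSet ((fun t : Cir => -t) ⁻¹' {t : Cir | σ {t} ≠ 0}ᶜ) ∧
      ((σ.restrict (F' : Set Cir)ᶜ).map (fun t => -t)).restrict ((fun t : Cir => -t) ⁻¹' {t : Cir | σ {t} ≠ 0}ᶜ)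
        ⟂ₘ (volume : Measure Cir) ∧
      (∀ t ∈ (fun t : Cir => -t) ⁻¹' {t : Cir | σ {t} ≠ 0}ᶜ, ((σ.restrict (F' : Set Cir)ᶜ).map (fun t => -t)) {t} = 0) ∧
      ((σ.restrict (F' : Set Cir)ᶜ).map (fun t => -t)) ((fun t : Cir => -t) ⁻¹' {t : Cir | σ {t} ≠ 0}ᶜ)ᶜ
        = σ ({t | σ {t} ≠ 0} \ (F' : Set Cir)) := by
  have hm : MeasurableSet {t : Cir | σ {t} ≠ 0} := (B8_at σ).measurableSet
  have hn : Measurable (fun t : Cir => -t) := measurable_neg
  refine ⟨hn hm.compl, ?_, fun t ht => ?_, ?_⟩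
  · have h1 : σ.map (fun t => -t) ⟂ₘ (volume : Measure Cir) := by
      obtain ⟨S, hS, h1, h2⟩ := hs
      refine ⟨(fun t : Cir => -t) ⁻¹' S, hn hS, ?_, ?_⟩
      · rw [Measure.map_apply hn (hn hS), ← Set.preimage_comp]
        have : (fun t : Cir => -t) ∘ (fun t : Cir => -t) = id := by
          funext t
          simp
        rw [this]
        exact h1
      · rw [← Set.preimage_compl]
        have : (volume : Measure Cir) (-Sᶜ) = volume Sᶜ := Measure.measure_neg _ _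
        have e : (fun t : Cir => -t) ⁻¹' Sᶜ = -Sᶜ := rfl
        rw [e, this, h2]
    refine h1.mono_ac ?_ Measure.AbsolutelyContinuous.rfl
    refine (Measure.restrict_le_self.trans ?_).absolutelyContinuous
    exact Measure.map_mono Measure.restrict_le_self hn
  · have h1 : σ {-t} = 0 := by simpa using ht
    rw [Measure.map_apply hn (measurableSet_singleton t)]
    have e : (fun t : Cir => -t) ⁻¹' {t} = {-t} := by
      ext s
      simp
    rw [e]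
    exact le_antisymm ((Measure.restrict_le_self _).trans h1.le) bot_le
  · rw [Measure.map_apply hn (hn hm.compl).compl, ← Set.preimage_compl, compl_compl, ← Set.preimage_comp]
    have : (fun t : Cir => -t) ∘ (fun t : Cir => -t) = id := by
      funext t
      simp
    rw [this, Set.preimage_id, Measure.restrict_apply hm]
    rfl

/-- the common numerical end -/
private theorem B8_num (M ρ : ℝ) (hM : 0 ≤ M) (hρ : 0 < ρ) (N Q m x : ℝ) (hN : N ≤ M) (hQ : Q ≤ M)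
    (hQ0 : 0 ≤ Q) (hm : m ≤ ρ ^ 2 / (8 * (M + 1) ^ 2)) (hm0 : 0 ≤ m)
    (h : x ^ 2 ≤ N * m * Q + ρ ^ 2 / 8) : x ≤ ρ / 2 := by
  have h1 : N * m * Q ≤ M * (ρ ^ 2 / (8 * (M + 1) ^ 2)) * M := by
    have h2 : N * m ≤ M * (ρ ^ 2 / (8 * (M + 1) ^ 2)) := mul_le_mul hN hm hm0 hM
    exact mul_le_mul h2 hQ hQ0 (by positivity)
  have h3 : M * (ρ ^ 2 / (8 * (M + 1) ^ 2)) * M ≤ ρ ^ 2 / 8 := by
    have h4 : M * (ρ ^ 2 / (8 * (M + 1) ^ 2)) * M = (ρ ^ 2 / 8) * (M ^ 2 / (M + 1) ^ 2) := by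
      field_simp
    rw [h4]
    refine mul_le_of_le_one_right (by positivity) ?_
    rw [div_le_one (by positivity)]
    exact pow_le_pow_left₀ hM (by linarith) 2
  refine (abs_le_of_sq_le_sq' ?_ (by positivity)).2
  nlinarith

/-- Given `ρ`, take `F' ⊇ F` finite such that the atoms of `σ` outside `F'` have small total mass, `v = v' + v''`,
`v' = ∑ κ ∈ F' \ F, u κ`: `‖v'‖₂² ≤ ε²`; in the term with `v''` replace `f` by `g` (the term with `h` tends to zero) and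
use `tri_small` with `q = v''` (`eig_sp`; `G₁` = the complement of the atoms of `σ`, `G₂ = ∅`), `mA = 1`, `F = g`,
`mB = 0`, `h = conj (∑ κ ∈ F, u κ)` (spectral measure: `eig_sum_sp`, `sp_conj`), `mC = 2`. -/
theorem err1 {X : Type} [MeasurableSpace X] (μ : Measure X) [IsProbabilityMeasure μ] (τ : ℤ → X → X)
    (hτ : Sys μ τ) (he : Erg μ τ) (W : ℕ → ℝ) (hW : GW W) (w : ℤ → ℝ) (hw : ∀ d, 0 ≤ w d ∧ w d ≤ 1)
    (A : Set X) (hA : MeasurableSet A) (g h : X → ℂ) (hg : Bd g) (hh : Bd h)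
    (hf : ∀ᵐ x ∂μ, A.indicator (fun _ => (1 : ℂ)) x = g x + h x) (hm : Mx3 μ τ h)
    (σ : Measure Cir) (hσ : Sp μ τ g σ) (hs : σ ⟂ₘ (volume : Measure Cir)) (u : Cir → X → ℂ)
    (hu : Eig μ τ g σ u) (F : Finset Cir) (ε : ℝ) (hε : 0 < ε)
    (hF : (σ ({t | σ {t} ≠ 0} \ (F : Set Cir))).toReal ≤ ε ^ 2) (ρ : ℝ) (hρ : 0 < ρ) :
    ∀ᶠ j : ℕ in atTop,
      ‖E2 W j (fun d => (w d : ℂ) * ∫ x, A.indicator (fun _ => (1 : ℂ)) x
          * (g (τ d x) - ∑ κ ∈ F, u κ (τ d x)) * (starRingEnd ℂ) (∑ κ ∈ F, u κ (τ (2 * d) x)) ∂μ)‖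
        ≤ ε * R2 W j w + ρ := by
  classical
  have hfin := hσ.1
  set M : ℝ := (σ Set.univ).toReal + 1 with hMdef
  have hM : 1 ≤ M := by
    rw [hMdef]
    linarith [ENNReal.toReal_nonneg (a := σ Set.univ)]
  obtain ⟨F', hFF', hat, hδ⟩ := B8_fin σ F (ρ ^ 2 / (8 * (M + 1) ^ 2)) (by positivity)
  set V : X → ℂ := fun x => g x - ∑ κ ∈ F', u κ x with hVdef
  set V1 : X → ℂ := fun x => ∑ κ ∈ F' \ F, u κ x with hV1def
  set U : X → ℂ := fun x => ∑ κ ∈ F, u κ x with hUdef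
  have hI : Bd (A.indicator (fun _ => (1 : ℂ))) := B0_ind hA
  have hU : Bd U := B0_sum _ _ hu.bd
  have hV : Bd V := B0_sub hg (B0_sum _ _ hu.bd)
  have hV1 : Bd V1 := B0_sum _ _ hu.bd
  have hsplit : ∀ x, g x - U x = V1 x + V x := by
    intro x
    have : ∑ κ ∈ F' \ F, u κ x + ∑ κ ∈ F, u κ x = ∑ κ ∈ F', u κ x := Finset.sum_sdiff hFF'
    simp only [hUdef, hV1def, hVdef]
    rw [← this]
    ring
  have hV1n : ∫ x, ‖V1 x‖ ^ 2 ∂μ ≤ ε ^ 2 := by
    rw [B4_nU hτ hg hσ hu (F' \ F)]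
    exact (B8_mass σ F F' hat).trans hF
  have hUn : ∫ x, ‖U x‖ ^ 2 ∂μ ≤ 1 ^ 2 := by
    rw [B4_nU hτ hg hσ hu F, one_pow]
    exact mass_le μ τ hτ A hA g h hg hh hf hm σ hσ u hu F
  -- the three terms
  set a : ℤ → ℂ := fun d => ∫ x, A.indicator (fun _ => (1 : ℂ)) x * V1 (τ d x)
    * (starRingEnd ℂ) (U (τ (2 * d) x)) ∂μ with ha
  set b : ℤ → ℂ := fun d => ∫ x, V (τ (1 * d) x) * g (τ (0 * d) x) * (starRingEnd ℂ) (U (τ (2 * d) x)) ∂μ with hb
  set c : ℤ → ℂ := fun d => ∫ x, h (τ (0 * d) x) * V (τ (1 * d) x) * (starRingEnd ℂ) (U (τ (2 * d) x)) ∂μ with hc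
  have hid : ∀ d : ℤ, ∫ x, A.indicator (fun _ => (1 : ℂ)) x
      * (g (τ d x) - ∑ κ ∈ F, u κ (τ d x)) * (starRingEnd ℂ) (∑ κ ∈ F, u κ (τ (2 * d) x)) ∂μ = a d + b d + c d := by
    intro d
    have i1 : Integrable (fun x => A.indicator (fun _ => (1 : ℂ)) x * V1 (τ d x)
        * (starRingEnd ℂ) (U (τ (2 * d) x))) μ :=
      B0_int μ (B0_mul (B0_mul hI (B0_comp hτ hV1 _)) (B0_conj (B0_comp hτ hU _)))
    have i2 : Integrable (fun x => V (τ (1 * d) x) * g (τ (0 * d) x) * (starRingEnd ℂ) (U (τ (2 * d) x))) μ :=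
      B0_int μ (B0_mul (B0_mul (B0_comp hτ hV _) (B0_comp hτ hg _)) (B0_conj (B0_comp hτ hU _)))
    have i3 : Integrable (fun x => h (τ (0 * d) x) * V (τ (1 * d) x) * (starRingEnd ℂ) (U (τ (2 * d) x))) μ :=
      B0_int μ (B0_mul (B0_mul (B0_comp hτ hh _) (B0_comp hτ hV _)) (B0_conj (B0_comp hτ hU _)))
    have i12 : Integrable (fun x => A.indicator (fun _ => (1 : ℂ)) x * V1 (τ d x)
        * (starRingEnd ℂ) (U (τ (2 * d) x))
        + V (τ (1 * d) x) * g (τ (0 * d) x) * (starRingEnd ℂ) (U (τ (2 * d) x))) μ := i1.add i2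
    rw [ha, hb, hc]
    simp only
    rw [← integral_add i1 i2, ← integral_add i12 i3]
    refine integral_congr_ae ?_
    filter_upwards [hf] with x hx
    have h1 := hsplit (τ d x)
    have h2 : g (τ d x) - ∑ κ ∈ F, u κ (τ d x) = V1 (τ d x) + V (τ d x) := h1
    have h3 : ∑ κ ∈ F, u κ (τ (2 * d) x) = U (τ (2 * d) x) := rfl
    rw [h2, h3, zero_mul, one_mul, hτ.zero]
    linear_combination (V (τ d x) * (starRingEnd ℂ) (U (τ (2 * d) x))) * hx
  have hE : ∀ j, E2 W j (fun d => (w d : ℂ) * ∫ x, A.indicator (fun _ => (1 : ℂ)) x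
          * (g (τ d x) - ∑ κ ∈ F, u κ (τ d x)) * (starRingEnd ℂ) (∑ κ ∈ F, u κ (τ (2 * d) x)) ∂μ)
      = E2 W j (fun d => (w d : ℂ) * a d) + E2 W j (fun d => (w d : ℂ) * b d)
        + E2 W j (fun d => (w d : ℂ) * c d) := by
    intro j
    rw [← E2_add W j (fun d => (w d : ℂ) * a d) (fun d => (w d : ℂ) * b d),
      ← E2_add W j (fun d => (w d : ℂ) * a d + (w d : ℂ) * b d) (fun d => (w d : ℂ) * c d)]
    simp only [hid]
    congr 1
    funext d
    ring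
  obtain ⟨s1, s2, s3, s4⟩ := B8_sing σ hs F'
  have hbb := tri_small μ τ hτ he W hW w hw V g (fun x => (starRingEnd ℂ) (U x)) hV hg (B0_conj hU)
    (σ.restrict (F' : Set Cir)ᶜ) σ ((σ.restrict (F : Set Cir)).map (fun t => -t))
    (eig_sp μ τ hτ g hg σ hσ u hu F') hσ (sp_conj μ τ hτ U hU _ (eig_sum_sp μ τ hτ g hg σ hσ u hu F))
    {t : Cir | σ {t} ≠ 0}ᶜ ∅ s1 MeasurableSet.empty s2 s3
    (by rw [Measure.restrict_empty]; exact Measure.MutuallySingular.zero_left)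
    (fun t ht => absurd ht (Set.notMem_empty t)) 1 0 2 (by norm_num) (by norm_num) (by norm_num)
    (ρ ^ 2 / 8) (by positivity)
  have hcc := (err3 μ τ hτ W hW w hw h V (fun x => (starRingEnd ℂ) (U x)) hh hV (B0_conj hU) hm 0 1 2
    (by norm_num) (by norm_num) (by norm_num)).1
  have hcc' : ∀ᶠ j : ℕ in atTop, ‖E2 W j (fun d => (w d : ℂ) * c d)‖ < ρ / 2 := by
    have h1 := hcc.norm
    rw [norm_zero] at h1
    exact h1.eventually (gt_mem_nhds (by positivity))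
  filter_upwards [hbb, hcc'] with j hj1 hj2
  rw [hE]
  have ta : ‖E2 W j (fun d => (w d : ℂ) * a d)‖ ≤ ε * R2 W j w := by
    refine B8_const hW.1 j w (fun d => (hw d).1) a ε fun d => ?_
    have := B5_ind (μ := μ) hA (B0_comp hτ hV1 d) (B0_comp hτ hU (2 * d)) ε 1 hε.le zero_le_one
      ((B8_cvsq hτ hV1 d).trans_le hV1n) ((B8_cvsq hτ hU (2 * d)).trans_le hUn)
    rwa [mul_one] at this
  have tb : ‖E2 W j (fun d => (w d : ℂ) * b d)‖ ≤ ρ / 2 := by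
    refine B8_num M ρ (by linarith) hρ (∫ x, ‖(starRingEnd ℂ) (U x)‖ ^ 2 ∂μ) ((σ (∅ : Set Cir)ᶜ).toReal)
      (((σ.restrict (F' : Set Cir)ᶜ) ({t : Cir | σ {t} ≠ 0}ᶜ)ᶜ).toReal) _ ?_ ?_ ENNReal.toReal_nonneg ?_
      ENNReal.toReal_nonneg hj1
    · simp only [RCLike.norm_conj]
      linarith
    · rw [Set.compl_empty, hMdef]
      linarith
    · rw [s4]
      exact hδ
  refine (norm_add_le _ _).trans ?_
  have := norm_add_le (E2 W j (fun d => (w d : ℂ) * a d)) (E2 W j (fun d => (w d : ℂ) * b d))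
  linarith

/-- The same with `q = conj v''`, `mA = 2`, `F = g`, `mB = 1`, `h = g`, `mC = 0`. -/
theorem err2 {X : Type} [MeasurableSpace X] (μ : Measure X) [IsProbabilityMeasure μ] (τ : ℤ → X → X)
    (hτ : Sys μ τ) (he : Erg μ τ) (W : ℕ → ℝ) (hW : GW W) (w : ℤ → ℝ) (hw : ∀ d, 0 ≤ w d ∧ w d ≤ 1)
    (A : Set X) (hA : MeasurableSet A) (g h : X → ℂ) (hg : Bd g) (hh : Bd h)
    (hf : ∀ᵐ x ∂μ, A.indicator (fun _ => (1 : ℂ)) x = g x + h x) (hm : Mx3 μ τ h)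
    (σ : Measure Cir) (hσ : Sp μ τ g σ) (hs : σ ⟂ₘ (volume : Measure Cir)) (u : Cir → X → ℂ)
    (hu : Eig μ τ g σ u) (F : Finset Cir) (ε : ℝ) (hε : 0 < ε)
    (hF : (σ ({t | σ {t} ≠ 0} \ (F : Set Cir))).toReal ≤ ε ^ 2) (ρ : ℝ) (hρ : 0 < ρ) :
    ∀ᶠ j : ℕ in atTop,
      ‖E2 W j (fun d => (w d : ℂ) * ∫ x, A.indicator (fun _ => (1 : ℂ)) x
          * A.indicator (fun _ => (1 : ℂ)) (τ d x)
          * (starRingEnd ℂ) (g (τ (2 * d) x) - ∑ κ ∈ F, u κ (τ (2 * d) x)) ∂μ)‖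
        ≤ ε * R2 W j w + ρ := by
  classical
  have hfin := hσ.1
  set M : ℝ := (σ Set.univ).toReal + 1 with hMdef
  have hM : 1 ≤ M := by
    rw [hMdef]
    linarith [ENNReal.toReal_nonneg (a := σ Set.univ)]
  obtain ⟨F', hFF', hat, hδ⟩ := B8_fin σ F (ρ ^ 2 / (8 * (M + 1) ^ 2)) (by positivity)
  set V : X → ℂ := fun x => g x - ∑ κ ∈ F', u κ x with hVdef
  set V1 : X → ℂ := fun x => ∑ κ ∈ F' \ F, u κ x with hV1def
  set U : X → ℂ := fun x => ∑ κ ∈ F, u κ x with hUdef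
  have hI : Bd (A.indicator (fun _ => (1 : ℂ))) := B0_ind hA
  have hU : Bd U := B0_sum _ _ hu.bd
  have hV : Bd V := B0_sub hg (B0_sum _ _ hu.bd)
  have hV1 : Bd V1 := B0_sum _ _ hu.bd
  have hsplit : ∀ x, g x - U x = V1 x + V x := by
    intro x
    have : ∑ κ ∈ F' \ F, u κ x + ∑ κ ∈ F, u κ x = ∑ κ ∈ F', u κ x := Finset.sum_sdiff hFF'
    simp only [hUdef, hV1def, hVdef]
    rw [← this]
    ring
  have hV1n : ∫ x, ‖V1 x‖ ^ 2 ∂μ ≤ ε ^ 2 := by
    rw [B4_nU hτ hg hσ hu (F' \ F)]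
    exact (B8_mass σ F F' hat).trans hF
  -- the four terms
  set a : ℤ → ℂ := fun d => ∫ x, A.indicator (fun _ => (1 : ℂ)) x * A.indicator (fun _ => (1 : ℂ)) (τ d x)
    * (starRingEnd ℂ) (V1 (τ (2 * d) x)) ∂μ with ha
  set b : ℤ → ℂ := fun d => ∫ x, (starRingEnd ℂ) (V (τ (2 * d) x)) * g (τ (1 * d) x) * g (τ (0 * d) x) ∂μ with hb
  set c : ℤ → ℂ := fun d => ∫ x, h (τ (0 * d) x) * A.indicator (fun _ => (1 : ℂ)) (τ (1 * d) x)
    * (starRingEnd ℂ) (V (τ (2 * d) x)) ∂μ with hc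
  set c' : ℤ → ℂ := fun d => ∫ x, h (τ (1 * d) x) * g (τ (0 * d) x)
    * (starRingEnd ℂ) (V (τ (2 * d) x)) ∂μ with hc'
  have hid : ∀ d : ℤ, ∫ x, A.indicator (fun _ => (1 : ℂ)) x
      * A.indicator (fun _ => (1 : ℂ)) (τ d x)
      * (starRingEnd ℂ) (g (τ (2 * d) x) - ∑ κ ∈ F, u κ (τ (2 * d) x)) ∂μ = a d + b d + (c d + c' d) := by
    intro d
    have i1 : Integrable (fun x => A.indicator (fun _ => (1 : ℂ)) x * A.indicator (fun _ => (1 : ℂ)) (τ d x)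
        * (starRingEnd ℂ) (V1 (τ (2 * d) x))) μ :=
      B0_int μ (B0_mul (B0_mul hI (B0_comp hτ hI _)) (B0_conj (B0_comp hτ hV1 _)))
    have i2 : Integrable (fun x => (starRingEnd ℂ) (V (τ (2 * d) x)) * g (τ (1 * d) x) * g (τ (0 * d) x)) μ :=
      B0_int μ (B0_mul (B0_mul (B0_conj (B0_comp hτ hV _)) (B0_comp hτ hg _)) (B0_comp hτ hg _))
    have i3 : Integrable (fun x => h (τ (0 * d) x) * A.indicator (fun _ => (1 : ℂ)) (τ (1 * d) x)
        * (starRingEnd ℂ) (V (τ (2 * d) x))) μ :=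
      B0_int μ (B0_mul (B0_mul (B0_comp hτ hh _) (B0_comp hτ hI _)) (B0_conj (B0_comp hτ hV _)))
    have i4 : Integrable (fun x => h (τ (1 * d) x) * g (τ (0 * d) x)
        * (starRingEnd ℂ) (V (τ (2 * d) x))) μ :=
      B0_int μ (B0_mul (B0_mul (B0_comp hτ hh _) (B0_comp hτ hg _)) (B0_conj (B0_comp hτ hV _)))
    have i12 : Integrable (fun x => A.indicator (fun _ => (1 : ℂ)) x * A.indicator (fun _ => (1 : ℂ)) (τ d x)
        * (starRingEnd ℂ) (V1 (τ (2 * d) x))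
        + (starRingEnd ℂ) (V (τ (2 * d) x)) * g (τ (1 * d) x) * g (τ (0 * d) x)) μ := i1.add i2
    have i34 : Integrable (fun x => h (τ (0 * d) x) * A.indicator (fun _ => (1 : ℂ)) (τ (1 * d) x)
        * (starRingEnd ℂ) (V (τ (2 * d) x))
        + h (τ (1 * d) x) * g (τ (0 * d) x) * (starRingEnd ℂ) (V (τ (2 * d) x))) μ := i3.add i4
    rw [ha, hb, hc, hc']
    simp only
    rw [← integral_add i1 i2, ← integral_add i3 i4, ← integral_add i12 i34]
    refine integral_congr_ae ?_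
    filter_upwards [hf, (hτ.mp d).quasiMeasurePreserving.ae hf] with x hx hy
    have h1 := hsplit (τ (2 * d) x)
    have h2 : g (τ (2 * d) x) - ∑ κ ∈ F, u κ (τ (2 * d) x) = V1 (τ (2 * d) x) + V (τ (2 * d) x) := h1
    rw [h2, zero_mul, one_mul, hτ.zero, map_add]
    linear_combination (A.indicator (fun _ => (1 : ℂ)) (τ d x) * (starRingEnd ℂ) (V (τ (2 * d) x))) * hx
      + (g x * (starRingEnd ℂ) (V (τ (2 * d) x))) * hy
  have hE : ∀ j, E2 W j (fun d => (w d : ℂ) * ∫ x, A.indicator (fun _ => (1 : ℂ)) x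
          * A.indicator (fun _ => (1 : ℂ)) (τ d x)
          * (starRingEnd ℂ) (g (τ (2 * d) x) - ∑ κ ∈ F, u κ (τ (2 * d) x)) ∂μ)
      = E2 W j (fun d => (w d : ℂ) * a d) + E2 W j (fun d => (w d : ℂ) * b d)
        + (E2 W j (fun d => (w d : ℂ) * c d) + E2 W j (fun d => (w d : ℂ) * c' d)) := by
    intro j
    rw [← E2_add W j (fun d => (w d : ℂ) * a d) (fun d => (w d : ℂ) * b d),
      ← E2_add W j (fun d => (w d : ℂ) * c d) (fun d => (w d : ℂ) * c' d),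
      ← E2_add W j (fun d => (w d : ℂ) * a d + (w d : ℂ) * b d)
        (fun d => (w d : ℂ) * c d + (w d : ℂ) * c' d)]
    simp only [hid]
    congr 1
    funext d
    ring
  obtain ⟨s1, s2, s3, s4⟩ := B8_sing2 σ hs F'
  have hbb := tri_small μ τ hτ he W hW w hw (fun x => (starRingEnd ℂ) (V x)) g g (B0_conj hV) hg hg
    ((σ.restrict (F' : Set Cir)ᶜ).map (fun t => -t)) σ σ
    (sp_conj μ τ hτ V hV _ (eig_sp μ τ hτ g hg σ hσ u hu F')) hσ hσ
    ((fun t : Cir => -t) ⁻¹' {t : Cir | σ {t} ≠ 0}ᶜ) ∅ s1 MeasurableSet.empty s2 s3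
    (by rw [Measure.restrict_empty]; exact Measure.MutuallySingular.zero_left)
    (fun t ht => absurd ht (Set.notMem_empty t)) 2 1 0 (by norm_num) (by norm_num) (by norm_num)
    (ρ ^ 2 / 8) (by positivity)
  have hcc1 : ∀ᶠ j : ℕ in atTop, ‖E2 W j (fun d => (w d : ℂ) * c d)‖ < ρ / 4 := by
    have h1 := (err3 μ τ hτ W hW w hw h (A.indicator (fun _ => (1 : ℂ))) (fun x => (starRingEnd ℂ) (V x)) hh hI
      (B0_conj hV) hm 0 1 2 (by norm_num) (by norm_num) (by norm_num)).1.norm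
    rw [norm_zero] at h1
    exact h1.eventually (gt_mem_nhds (by positivity))
  have hcc2 : ∀ᶠ j : ℕ in atTop, ‖E2 W j (fun d => (w d : ℂ) * c' d)‖ < ρ / 4 := by
    have h1 := (err3 μ τ hτ W hW w hw h g (fun x => (starRingEnd ℂ) (V x)) hh hg
      (B0_conj hV) hm 1 0 2 (by norm_num) (by norm_num) (by norm_num)).1.norm
    rw [norm_zero] at h1
    exact h1.eventually (gt_mem_nhds (by positivity))
  filter_upwards [hbb, hcc1, hcc2] with j hj1 hj2 hj3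
  rw [hE]
  have ta : ‖E2 W j (fun d => (w d : ℂ) * a d)‖ ≤ ε * R2 W j w := by
    refine B8_const hW.1 j w (fun d => (hw d).1) a ε fun d => ?_
    have h1 : ∫ x, ‖A.indicator (fun _ => (1 : ℂ)) (τ d x)‖ ^ 2 ∂μ ≤ 1 ^ 2 := by
      rw [one_pow]
      exact (B8_cvsq hτ hI d).trans_le (B8_one hA)
    have := B5_ind (μ := μ) hA (B0_comp hτ hI d) (B0_comp hτ hV1 (2 * d)) 1 ε zero_le_one hε.le
      h1 ((B8_cvsq hτ hV1 (2 * d)).trans_le hV1n)
    rwa [one_mul] at this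
  have tb : ‖E2 W j (fun d => (w d : ℂ) * b d)‖ ≤ ρ / 2 := by
    refine B8_num M ρ (by linarith) hρ (∫ x, ‖g x‖ ^ 2 ∂μ) ((σ (∅ : Set Cir)ᶜ).toReal)
      ((((σ.restrict (F' : Set Cir)ᶜ).map (fun t => -t))
        ((fun t : Cir => -t) ⁻¹' {t : Cir | σ {t} ≠ 0}ᶜ)ᶜ).toReal) _ ?_ ?_ ENNReal.toReal_nonneg ?_
      ENNReal.toReal_nonneg hj1
    · rw [← sp_mass μ τ hτ g hg σ hσ, hMdef]
      linarith
    · rw [Set.compl_empty, hMdef]
      linarith
    · rw [s4]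
      exact hδ
  refine (norm_add_le _ _).trans ?_
  have h1 := norm_add_le (E2 W j (fun d => (w d : ℂ) * a d)) (E2 W j (fun d => (w d : ℂ) * b d))
  have h2 := norm_add_le (E2 W j (fun d => (w d : ℂ) * c d)) (E2 W j (fun d => (w d : ℂ) * c' d))
  linarith

/-! ## module B11: Theorem B for given weights -/

/-- the decomposition of the triple integral -/
theorem B11_dec {X : Type} [MeasurableSpace X] (μ : Measure X) [IsProbabilityMeasure μ] (τ : ℤ → X → X)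
    (hτ : Sys μ τ) (A : Set X) (hA : MeasurableSet A) (g h v : X → ℂ) (hg : Bd g) (hh : Bd h) (hv : Bd v)
    (hf : ∀ᵐ x ∂μ, A.indicator (fun _ => (1 : ℂ)) x = g x + h x) (d : ℤ) :
    ((μ.real {x | x ∈ A ∧ τ d x ∈ A ∧ τ (2 * d) x ∈ A} : ℝ) : ℂ)
      = (∫ x, A.indicator (fun _ => (1 : ℂ)) x * v (τ d x) * (starRingEnd ℂ) (v (τ (2 * d) x)) ∂μ)
        + (∫ x, A.indicator (fun _ => (1 : ℂ)) x * (g (τ d x) - v (τ d x)) * (starRingEnd ℂ) (v (τ (2 * d) x)) ∂μ)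
        + (∫ x, A.indicator (fun _ => (1 : ℂ)) x * A.indicator (fun _ => (1 : ℂ)) (τ d x)
            * (starRingEnd ℂ) (g (τ (2 * d) x) - v (τ (2 * d) x)) ∂μ)
        + (∫ x, h (τ (1 * d) x) * A.indicator (fun _ => (1 : ℂ)) (τ (0 * d) x)
            * (starRingEnd ℂ) (v (τ (2 * d) x)) ∂μ)
        + (∫ x, (starRingEnd ℂ) (h (τ (2 * d) x)) * A.indicator (fun _ => (1 : ℂ)) (τ (0 * d) x)
            * A.indicator (fun _ => (1 : ℂ)) (τ (1 * d) x) ∂μ) := by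
  classical
  have hvt : ∀ n : ℤ, Bd (fun x => v (τ n x)) := fun n => S3_bd_comp μ τ hτ n v hv
  have hgt : ∀ n : ℤ, Bd (fun x => g (τ n x)) := fun n => S3_bd_comp μ τ hτ n g hg
  have hht : ∀ n : ℤ, Bd (fun x => h (τ n x)) := fun n => S3_bd_comp μ τ hτ n h hh
  have hAt : ∀ n : ℤ, Bd (fun x => A.indicator (fun _ => (1 : ℂ)) (τ n x)) := fun n =>
    S3_bd_comp μ τ hτ n _ (B11_bdA A hA)
  have hA0 := B11_bdA A hA
  have hcv : ∀ n : ℤ, Bd (fun x => (starRingEnd ℂ) (v (τ n x))) := fun n => B11_conj _ (hvt n)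
  have i1 := S3_int μ _ (S3_bd_mul _ _ (S3_bd_mul _ _ hA0 (hvt d)) (hcv (2 * d)))
  have i2 := S3_int μ _ (S3_bd_mul _ _ (S3_bd_mul _ _ hA0 (B11_sub _ _ (hgt d) (hvt d))) (hcv (2 * d)))
  have i3 := S3_int μ _ (S3_bd_mul _ _ (S3_bd_mul _ _ hA0 (hAt d))
    (B11_conj _ (B11_sub _ _ (hgt (2 * d)) (hvt (2 * d)))))
  have i4 := S3_int μ _ (S3_bd_mul _ _ (S3_bd_mul _ _ (hht (1 * d)) (hAt (0 * d))) (hcv (2 * d)))
  have i5 := S3_int μ _ (S3_bd_mul _ _ (S3_bd_mul _ _ (B11_conj _ (hht (2 * d))) (hAt (0 * d))) (hAt (1 * d)))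
  have hS : MeasurableSet {x | x ∈ A ∧ τ d x ∈ A ∧ τ (2 * d) x ∈ A} :=
    hA.inter (((hτ.mp d).measurable hA).inter ((hτ.mp (2 * d)).measurable hA))
  have hl : ((μ.real {x | x ∈ A ∧ τ d x ∈ A ∧ τ (2 * d) x ∈ A} : ℝ) : ℂ)
      = ∫ x, ({x | x ∈ A ∧ τ d x ∈ A ∧ τ (2 * d) x ∈ A} : Set X).indicator (fun _ => (1 : ℂ)) x ∂μ := by
    rw [integral_indicator hS]
    simp
  set t1 : X → ℂ := fun x => A.indicator (fun _ => (1 : ℂ)) x * v (τ d x) * (starRingEnd ℂ) (v (τ (2 * d) x)) with ht1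
  set t2 : X → ℂ := fun x => A.indicator (fun _ => (1 : ℂ)) x * (g (τ d x) - v (τ d x))
    * (starRingEnd ℂ) (v (τ (2 * d) x)) with ht2
  set t3 : X → ℂ := fun x => A.indicator (fun _ => (1 : ℂ)) x * A.indicator (fun _ => (1 : ℂ)) (τ d x)
            * (starRingEnd ℂ) (g (τ (2 * d) x) - v (τ (2 * d) x)) with ht3
  set t4 : X → ℂ := fun x => h (τ (1 * d) x) * A.indicator (fun _ => (1 : ℂ)) (τ (0 * d) x)
            * (starRingEnd ℂ) (v (τ (2 * d) x)) with ht4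
  set t5 : X → ℂ := fun x => (starRingEnd ℂ) (h (τ (2 * d) x)) * A.indicator (fun _ => (1 : ℂ)) (τ (0 * d) x)
            * A.indicator (fun _ => (1 : ℂ)) (τ (1 * d) x) with ht5
  have i12 : Integrable (fun x => t1 x + t2 x) μ := i1.add i2
  have i123 : Integrable (fun x => t1 x + t2 x + t3 x) μ := i12.add i3
  have i1234 : Integrable (fun x => t1 x + t2 x + t3 x + t4 x) μ := i123.add i4
  have hsum : ∫ x, (t1 x + t2 x + t3 x + t4 x + t5 x) ∂μ
      = (∫ x, t1 x ∂μ) + (∫ x, t2 x ∂μ) + (∫ x, t3 x ∂μ) + (∫ x, t4 x ∂μ) + ∫ x, t5 x ∂μ := by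
    rw [integral_add i1234 i5, integral_add i123 i4, integral_add i12 i3, integral_add i1 i2]
  rw [hl, ← hsum]
  refine integral_congr_ae ?_
  have a1 := (hτ.mp d).quasiMeasurePreserving.ae hf
  have a2 := (hτ.mp (2 * d)).quasiMeasurePreserving.ae hf
  filter_upwards [a1, a2] with x hx1 hx2
  have e0 : τ (0 * d) x = x := by rw [zero_mul]; exact hτ.zero x
  have e1 : τ (1 * d) x = τ d x := by rw [one_mul]
  have hr : (starRingEnd ℂ) (A.indicator (fun _ => (1 : ℂ)) (τ (2 * d) x))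
      = A.indicator (fun _ => (1 : ℂ)) (τ (2 * d) x) := by
    by_cases hx : τ (2 * d) x ∈ A <;> simp [hx]
  have hS' : ({x | x ∈ A ∧ τ d x ∈ A ∧ τ (2 * d) x ∈ A} : Set X).indicator (fun _ => (1 : ℂ)) x
      = A.indicator (fun _ => (1 : ℂ)) x * A.indicator (fun _ => (1 : ℂ)) (τ d x)
        * A.indicator (fun _ => (1 : ℂ)) (τ (2 * d) x) := by
    by_cases h0 : x ∈ A <;> by_cases h1 : τ d x ∈ A <;> by_cases h2 : τ (2 * d) x ∈ A <;> simp [h0, h1, h2]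
  rw [hS']
  simp only [ht1, ht2, ht3, ht4, ht5, e0, e1]
  have hx2' : A.indicator (fun _ => (1 : ℂ)) (τ (2 * d) x)
      = (starRingEnd ℂ) (g (τ (2 * d) x)) + (starRingEnd ℂ) (h (τ (2 * d) x)) := by
    rw [← hr, hx2, map_add]
  rw [hx2']
  have hx1' : h (τ d x) = A.indicator (fun _ => (1 : ℂ)) (τ d x) - g (τ d x) := by rw [hx1]; ring
  rw [hx1', map_sub]
  ring

/-- Theorem B for given weights. -/
theorem thmB_sys {X : Type} [MeasurableSpace X] (μ : Measure X) [IsProbabilityMeasure μ] (τ : ℤ → X → X)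
    (hτ : Sys μ τ) (he : Erg μ τ) (W : ℕ → ℝ) (hW : GW W)
    (A : Set X) (hA : MeasurableSet A) (g h : X → ℂ) (hg : Bd g) (hh : Bd h)
    (hf : ∀ᵐ x ∂μ, A.indicator (fun _ => (1 : ℂ)) x = g x + h x) (hm : Mx3 μ τ h)
    (σ : Measure Cir) (hσ : Sp μ τ g σ) (hs : σ ⟂ₘ (volume : Measure Cir)) (ε : ℝ) (hε : 0 < ε) :
    ∃ d : ℕ, 1 ≤ d ∧ W d ≠ 0 ∧
      μ.real A ^ 3 - ε < μ.real {x | x ∈ A ∧ τ (d : ℤ) x ∈ A ∧ τ (2 * (d : ℤ)) x ∈ A} := by
  classical
  have := hσ.1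
  obtain ⟨u, hu⟩ := eig_ex μ τ hτ g hg σ hσ
  set e1 : ℝ := ε / 20 with he1
  have he1p : 0 < e1 := by positivity
  obtain ⟨F, hF0, hF⟩ := B11_atoms σ {0} (e1 ^ 2) (by positivity)
  have h0F : (0 : Cir) ∈ F := hF0 (Finset.mem_singleton_self _)
  have hmass := mass_le μ τ hτ A hA g h hg hh hf hm σ hσ u hu F
  have hmain := main_mass μ τ hτ he A hA g h hg hh hf hm σ hσ u hu F h0F
  obtain ⟨w, c, hc, hw, hw2, hw3⟩ := wts F (e1 / 10) e1 (by positivity) he1p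
  set v : X → ℂ := fun x => ∑ κ ∈ F, u κ x with hv
  have hvB : Bd v := S3_bd_sum F _ fun κ _ => hu.bd κ
  set δ : ℝ := μ.real A with hδ
  have hδ0 : 0 ≤ δ := measureReal_nonneg
  have hδ1 : δ ≤ 1 := measureReal_le_one
  have hδ3 : δ ^ 3 ≤ 1 := pow_le_one₀ hδ0 hδ1
  set I : ℤ → ℝ := fun d => μ.real {x | x ∈ A ∧ τ d x ∈ A ∧ τ (2 * d) x ∈ A} with hI
  set Mn : ℤ → ℂ := fun d =>
    ∫ x, A.indicator (fun _ => (1 : ℂ)) x * v (τ d x) * (starRingEnd ℂ) (v (τ (2 * d) x)) ∂μ with hMn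
  set E1 : ℤ → ℂ := fun d => ∫ x, A.indicator (fun _ => (1 : ℂ)) x * (g (τ d x) - v (τ d x))
    * (starRingEnd ℂ) (v (τ (2 * d) x)) ∂μ with hE1
  set E2' : ℤ → ℂ := fun d => ∫ x, A.indicator (fun _ => (1 : ℂ)) x * A.indicator (fun _ => (1 : ℂ)) (τ d x)
            * (starRingEnd ℂ) (g (τ (2 * d) x) - v (τ (2 * d) x)) ∂μ with hE2
  set N1 : ℤ → ℂ := fun d => ∫ x, h (τ (1 * d) x) * A.indicator (fun _ => (1 : ℂ)) (τ (0 * d) x)
            * (starRingEnd ℂ) (v (τ (2 * d) x)) ∂μ with hN1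
  set N2 : ℤ → ℂ := fun d => ∫ x, (starRingEnd ℂ) (h (τ (2 * d) x)) * A.indicator (fun _ => (1 : ℂ)) (τ (0 * d) x)
            * A.indicator (fun _ => (1 : ℂ)) (τ (1 * d) x) ∂μ with hN2
  have hdec : ∀ d, ((I d : ℝ) : ℂ) = Mn d + E1 d + E2' d + N1 d + N2 d := fun d =>
    B11_dec μ τ hτ A hA g h v hg hh hvB hf d
  have hR : ∀ j, ((R2 W j (fun d => w d * I d) : ℝ) : ℂ) = E2 W j (fun d => (w d : ℂ) * Mn d)
      + E2 W j (fun d => (w d : ℂ) * E1 d) + E2 W j (fun d => (w d : ℂ) * E2' d)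
      + E2 W j (fun d => (w d : ℂ) * N1 d) + E2 W j (fun d => (w d : ℂ) * N2 d) := by
    intro j
    rw [← E2_add, ← E2_add, ← E2_add, ← E2_add, ← E2_ofReal]
    congr 1
    funext d
    rw [Complex.ofReal_mul, hdec]
    ring
  -- the main term
  have hmn : ∀ d, w d * (δ ^ 3 - 3 * e1) - 2 * (e1 * c) ≤ ((w d : ℂ) * Mn d).re := by
    intro d
    rw [Complex.re_ofReal_mul]
    have hwd := hw d
    by_cases hd : ∃ κ ∈ F, e1 / 10 ≤ ‖d • κ‖
    · have h1 := hw2 d hd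
      have h2 : ‖Mn d‖ ≤ 1 := rot_triv μ τ hτ A hA g hg σ hσ u hu F hmass d
      have h3 : -1 ≤ (Mn d).re := by
        have := Complex.abs_re_le_norm (Mn d)
        have := abs_le.mp (this.trans h2)
        exact this.1
      have h4 : w d * (δ ^ 3 - 3 * e1) ≤ w d * 1 := mul_le_mul_of_nonneg_left (by linarith) hwd.1
      have h5 : w d * (-1) ≤ w d * (Mn d).re := mul_le_mul_of_nonneg_left h3 hwd.1
      have h6 : 0 < e1 * c := mul_pos he1p hc
      linarith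
    · push Not at hd
      have h1 := rot μ τ hτ A hA g hg σ hσ u hu F hmass e1 he1p d (fun κ hκ => (hd κ hκ).le)
      have h2 : (∫ x in A, ‖∑ κ ∈ F, u κ x‖ ^ 2 ∂μ) - 3 * e1 ≤ (Mn d).re := by
        have h3 := (Complex.abs_re_le_norm _).trans h1
        rw [Complex.sub_re, Complex.ofReal_re] at h3
        have h4 := (abs_le.mp h3).1
        have h5 : (Mn d).re = (∫ x, A.indicator (fun _ => (1 : ℂ)) x * (∑ κ ∈ F, u κ (τ d x))
          * (starRingEnd ℂ) (∑ κ ∈ F, u κ (τ (2 * d) x)) ∂μ).re := rfl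
        rw [h5]
        linarith
      have h4 : w d * (δ ^ 3 - 3 * e1) ≤ w d * (Mn d).re := mul_le_mul_of_nonneg_left (by linarith) hwd.1
      have h6 : 0 < e1 * c := mul_pos he1p hc
      linarith
  -- eventually
  have hρ : 0 < e1 * c := mul_pos he1p hc
  have t1 := err1 μ τ hτ he W hW w hw A hA g h hg hh hf hm σ hσ hs u hu F e1 he1p hF (e1 * c) hρ
  have t2 := err2 μ τ hτ he W hW w hw A hA g h hg hh hf hm σ hσ hs u hu F e1 he1p hF (e1 * c) hρ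
  have t3 := (err3 μ τ hτ W hW w hw h (A.indicator (fun _ => (1 : ℂ))) (fun x => (starRingEnd ℂ) (v x)) hh
    (B11_bdA A hA) (B11_conj _ hvB) hm 1 0 2 (by norm_num) (by norm_num) (by norm_num)).1
  have t4 := (err3 μ τ hτ W hW w hw h (A.indicator (fun _ => (1 : ℂ))) (A.indicator (fun _ => (1 : ℂ))) hh
    (B11_bdA A hA) (B11_bdA A hA) hm 2 0 1 (by norm_num) (by norm_num) (by norm_num)).2
  have t3' : ∀ᶠ j : ℕ in atTop, ‖E2 W j (fun d => (w d : ℂ) * N1 d)‖ < e1 * c := by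
    have := t3.norm
    rw [norm_zero] at this
    exact this.eventually (gt_mem_nhds hρ)
  have t4' : ∀ᶠ j : ℕ in atTop, ‖E2 W j (fun d => (w d : ℂ) * N2 d)‖ < e1 * c := by
    have := t4.norm
    rw [norm_zero] at this
    exact this.eventually (gt_mem_nhds hρ)
  have t5 := hw3 W hW
  have t6 := (mass W hW).eventually (eventually_le_nhds (show (1 : ℝ) < 2 by norm_num))
  obtain ⟨j, hj1, h1, h2, h3, h4, h5, h6⟩ :=
    ((eventually_ge_atTop 1).and (t1.and (t2.and (t3'.and (t4'.and (t5.and t6)))))).exists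
  have hre := congrArg Complex.re (hR j)
  rw [Complex.ofReal_re] at hre
  simp only [Complex.add_re] at hre
  have b1 : (δ ^ 3 - 3 * e1) * R2 W j w - 4 * (e1 * c) ≤ (E2 W j (fun d => (w d : ℂ) * Mn d)).re := by
    rw [E2_re]
    have hh1 : R2 W j (fun d => w d * (δ ^ 3 - 3 * e1) + (-(2 * (e1 * c)))) ≤ R2 W j (fun d => ((w d : ℂ) * Mn d).re) := by
      apply R2_mono W hW.1
      intro d
      have := hmn d
      linarith
    have hh2 : R2 W j (fun d => w d * (δ ^ 3 - 3 * e1) + (-(2 * (e1 * c))))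
        = (δ ^ 3 - 3 * e1) * R2 W j w + (-(2 * (e1 * c))) * R2 W j (fun _ => 1) := by
      rw [R2_add, ← R2_smul, ← R2_smul]
      congr 1
      · congr 1; funext d; ring
      · congr 1; funext d; ring
    rw [hh2] at hh1
    have : (2 * (e1 * c)) * R2 W j (fun _ => 1) ≤ (2 * (e1 * c)) * 2 :=
      mul_le_mul_of_nonneg_left h6 (by positivity)
    linarith
  have b2 : -(e1 * R2 W j w + e1 * c) ≤ (E2 W j (fun d => (w d : ℂ) * E1 d)).re :=
    (abs_le.mp ((Complex.abs_re_le_norm _).trans h1)).1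
  have b3 : -(e1 * R2 W j w + e1 * c) ≤ (E2 W j (fun d => (w d : ℂ) * E2' d)).re :=
    (abs_le.mp ((Complex.abs_re_le_norm _).trans h2)).1
  have b4 : -(e1 * c) ≤ (E2 W j (fun d => (w d : ℂ) * N1 d)).re :=
    (abs_le.mp ((Complex.abs_re_le_norm _).trans h3.le)).1
  have b5 : -(e1 * c) ≤ (E2 W j (fun d => (w d : ℂ) * N2 d)).re :=
    (abs_le.mp ((Complex.abs_re_le_norm _).trans h4.le)).1
  have hcw : e1 * c ≤ e1 * R2 W j w := mul_le_mul_of_nonneg_left h5 he1p.le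
  have b6 : (δ ^ 3 - 13 * e1) * R2 W j w ≤ R2 W j (fun d => w d * I d) := by
    rw [hre]
    have : (δ ^ 3 - 13 * e1) * R2 W j w = (δ ^ 3 - 3 * e1) * R2 W j w - 10 * (e1 * R2 W j w) := by ring
    rw [this]
    linarith
  have b7 : 0 * R2 W j (fun _ => 1) < R2 W j (fun d => w d * (I d - (δ ^ 3 - 14 * e1))) := by
    have hh2 : R2 W j (fun d => w d * (I d - (δ ^ 3 - 14 * e1)))
        = R2 W j (fun d => w d * I d) + (-(δ ^ 3 - 14 * e1)) * R2 W j w := by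
      rw [← R2_smul, ← R2_add]
      congr 1; funext d; ring
    rw [hh2, zero_mul]
    have h7 : 0 < e1 * R2 W j w := lt_of_lt_of_le hρ hcw
    have : (δ ^ 3 - 14 * e1) * R2 W j w = (δ ^ 3 - 13 * e1) * R2 W j w - e1 * R2 W j w := by ring
    linarith
  obtain ⟨d, hd1, hdW, hd⟩ := extract W hW.1 j hj1 _ 0 b7
  refine ⟨d, hd1, hdW, ?_⟩
  have hfin : δ ^ 3 - 14 * e1 < I (d : ℤ) := by
    rcases hd with hd | hd
    · have := B11_pos _ _ hd (hw (d : ℤ)).1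
      linarith
    · have h8 := B11_pos _ _ hd (hw (-(d : ℤ))).1
      have h9 : I (-(d : ℤ)) = I (d : ℤ) := by
        have h10 := sym_set μ τ hτ A hA 2 (d : ℤ)
        have h11 : ∀ n : ℤ, {x | ∀ i : ℕ, i ≤ 2 → τ ((i : ℤ) * n) x ∈ A}
            = {x | x ∈ A ∧ τ n x ∈ A ∧ τ (2 * n) x ∈ A} := by
          intro n
          ext x
          simp only [Set.mem_ofPred_eq]
          constructor
          · intro hx
            have a0 := hx 0 (by norm_num)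
            have a1 := hx 1 (by norm_num)
            have a2 := hx 2 (by norm_num)
            simp only [Nat.cast_zero, zero_mul, Nat.cast_one, one_mul, Nat.cast_ofNat] at a0 a1 a2
            rw [hτ.zero] at a0
            exact ⟨a0, a1, a2⟩
          · rintro ⟨a0, a1, a2⟩ i hi
            interval_cases i
            · simp only [Nat.cast_zero, zero_mul]; rw [hτ.zero]; exact a0
            · simpa using a1
            · simpa using a2
        rw [h11, h11] at h10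
        exact h10
      rw [h9] at h8
      linarith
  have : δ ^ 3 - ε < δ ^ 3 - 14 * e1 := by rw [he1]; linarith
  exact this.trans hfin

end Pool.Agent.Sgs
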