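import Pool.Agent.Sgs.Prod
import Pool.Agent.Sgs.ThmB
import Pool.Agent.Sgs.Plus2
import Pool.Agent.Sgs.Main

/-!
# Theorem A+: discrete spectrum, final form
-/

set_option autoImplicit false

namespace Pool.Agent.Sgs

open MeasureTheory Filter Finset ProbabilityTheory
open scoped Topology ENNReal

/-- discrete spectrum: sums of bounded eigenfunctions are dense -/
def DS {Z : Type} [MeasurableSpace Z] (ζ : Measure Z) (ρ : ℤ → Z → Z) : Prop :=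
  ∀ F : Z → ℂ, Bd F → ∀ ε : ℝ, 0 < ε → ∃ (s : Finset Cir) (v : Cir → Z → ℂ), (∀ κ, Bd (v κ)) ∧
    (∀ κ (n : ℤ), ∀ᵐ z ∂ζ, v κ (ρ n z) = fourier n κ * v κ z) ∧ ∫ z, ‖F z - ∑ κ ∈ s, v κ z‖ ^ 2 ∂ζ ≤ ε

/-! ## module W6: almost periodicity -/

private theorem W6_l1 {X : Type} [MeasurableSpace X] (μ : Measure X) [IsProbabilityMeasure μ] (G : X → ℂ)
    (hG : Bd G) : (∫ x, ‖G x‖ ∂μ) ^ 2 ≤ ∫ x, ‖G x‖ ^ 2 ∂μ := by
  obtain ⟨A, hA⟩ := hG.2
  have i1 : Integrable (fun x => ‖G x‖) μ := (S3_int μ _ hG).norm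
  have i2 : Integrable (fun x => ‖G x‖ ^ 2) μ := by
    refine Integrable.of_bound (hG.1.norm.pow_const 2).aestronglyMeasurable (A ^ 2)
      (Eventually.of_forall fun x => ?_)
    rw [Real.norm_eq_abs, abs_of_nonneg (by positivity)]
    exact pow_le_pow_left₀ (norm_nonneg _) (hA x) 2
  set m := ∫ x, ‖G x‖ ∂μ with hm
  have h1 : 0 ≤ ∫ x, (‖G x‖ - m) ^ 2 ∂μ := integral_nonneg fun x => sq_nonneg _
  have h2 : ∫ x, (‖G x‖ - m) ^ 2 ∂μ = (∫ x, ‖G x‖ ^ 2 ∂μ) - 2 * m * m + m ^ 2 := by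
    have e1 : (fun x => (‖G x‖ - m) ^ 2) = fun x => (‖G x‖ ^ 2 - 2 * m * ‖G x‖) + m ^ 2 := by
      funext x
      ring
    have i3 : Integrable (fun x => 2 * m * ‖G x‖) μ := i1.const_mul _
    have i4 : Integrable (fun x => ‖G x‖ ^ 2 - 2 * m * ‖G x‖) μ := i2.sub i3
    rw [e1, integral_add i4 (integrable_const _), integral_sub i2 i3, integral_const_mul]
    simp only [integral_const, probReal_univ, smul_eq_mul, one_mul]
    rw [hm]
  rw [h2] at h1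
  nlinarith

/-- `‖F∘ρ n - F‖₂ ≤ 2 ‖F - V‖₂ + ‖V∘ρ n - V‖₂`, `V = ∑ κ ∈ s, v κ`. -/
theorem ap {Z : Type} [MeasurableSpace Z] (ζ : Measure Z) [IsProbabilityMeasure ζ] (ρ : ℤ → Z → Z) (hρ : Sys ζ ρ)
    (hds : DS ζ ρ) (F : Z → ℝ) (hF : Measurable F) (hF1 : ∀ z, 0 ≤ F z ∧ F z ≤ 1) (r : ℕ) (ε : ℝ) (hε : 0 < ε) :
    ∃ (s : Finset Cir) (η : ℝ), 0 < η ∧ ∀ d : ℤ, (∀ κ ∈ s, ‖d • κ‖ < η) → ∀ i : ℕ, i ≤ r →
      ∫ z, |F (ρ ((i : ℤ) * d) z) - F z| ∂ζ ≤ ε := by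

  have hFC : Bd (fun z => ((F z : ℝ) : ℂ)) := by
    refine ⟨Complex.measurable_ofReal.comp hF, 1, fun z => ?_⟩
    rw [Complex.norm_real, Real.norm_eq_abs, abs_of_nonneg (hF1 z).1]
    exact (hF1 z).2
  obtain ⟨s, v, hv, hve, happ⟩ := hds _ hFC ((ε / 4) ^ 2) (by positivity)
  have hC : ∀ κ, ∃ C : ℝ, ∀ z, ‖v κ z‖ ≤ C := fun κ => (hv κ).2
  choose C hC using hC
  set S : ℝ := ∑ κ ∈ s, |C κ| with hS
  have hS0 : 0 ≤ S := Finset.sum_nonneg fun κ _ => abs_nonneg _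
  have hVB : Bd (fun z => ∑ κ ∈ s, v κ z) := S3_bd_sum s _ fun κ _ => hv κ
  -- continuity of the character
  have hcont : ∃ η' : ℝ, 0 < η' ∧ ∀ u : Cir, ‖u‖ < η' → ‖(fourier 1 u : ℂ) - 1‖ ≤ ε / (2 * (S + 1)) := by
    have h1 := Metric.continuousAt_iff.mp ((fourier (T := (1 : ℝ)) 1).continuous.continuousAt (x := (0 : Cir)))
      (ε / (2 * (S + 1))) (by positivity)
    obtain ⟨η', h2, h3⟩ := h1
    refine ⟨η', h2, fun u hu => ?_⟩
    have h4 := h3 (x := u) (by rw [dist_zero_right]; exact hu)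
    rw [dist_eq_norm] at h4
    have h5 : (fourier (T := (1 : ℝ)) 1 0 : ℂ) = 1 := by simp
    rw [h5] at h4
    exact h4.le
  obtain ⟨η', hη', hη2⟩ := hcont
  refine ⟨s, η' / (r + 1), by positivity, fun d hd i hi => ?_⟩
  set n : ℤ := (i : ℤ) * d with hn
  have hchar : ∀ κ ∈ s, ‖(fourier n κ : ℂ) - 1‖ ≤ ε / (2 * (S + 1)) := by
    intro κ hκ
    have h1 : (fourier n κ : ℂ) = fourier 1 (n • κ) := by
      rw [fourier_apply, fourier_apply, one_smul]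
    rw [h1]
    refine hη2 _ ?_
    have h2 : n • κ = i • (d • κ) := by
      rw [hn, mul_smul, natCast_zsmul]
    rw [h2]
    have h3 : ‖i • (d • κ)‖ ≤ (i : ℝ) * ‖d • κ‖ := by
      have := norm_nsmul_le (n := i) (a := d • κ)
      simpa using this
    have h4 : (i : ℝ) ≤ r := by exact_mod_cast hi
    have h5 := hd κ hκ
    have h6 : (i : ℝ) * ‖d • κ‖ ≤ r * ‖d • κ‖ := mul_le_mul_of_nonneg_right h4 (norm_nonneg _)
    have h7 : (r : ℝ) * ‖d • κ‖ ≤ (r : ℝ) * (η' / (r + 1)) := mul_le_mul_of_nonneg_left h5.le (Nat.cast_nonneg _)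
    have h8 : (r : ℝ) * (η' / (r + 1)) < η' := by
      have h9 : (0 : ℝ) < (r : ℝ) + 1 := by positivity
      rw [mul_div_assoc', div_lt_iff₀ h9]
      nlinarith
    linarith
  set V : Z → ℂ := fun z => ∑ κ ∈ s, v κ z with hV
  have hV2 : ∀ᵐ z ∂ζ, ‖V (ρ n z) - V z‖ ≤ ε / 2 := by
    have h1 : ∀ᵐ z ∂ζ, ∀ κ ∈ s, v κ (ρ n z) = fourier n κ * v κ z := by
      rw [Finset.eventually_all]
      exact fun κ _ => hve κ n
    filter_upwards [h1] with z hz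
    have h2 : V (ρ n z) - V z = ∑ κ ∈ s, ((fourier n κ : ℂ) - 1) * v κ z := by
      rw [hV]
      simp only
      rw [← Finset.sum_sub_distrib]
      refine Finset.sum_congr rfl fun κ hκ => ?_
      rw [hz κ hκ]
      ring
    rw [h2]
    refine (norm_sum_le _ _).trans ?_
    have h3 : ∀ κ ∈ s, ‖((fourier n κ : ℂ) - 1) * v κ z‖ ≤ ε / (2 * (S + 1)) * |C κ| := by
      intro κ hκ
      rw [norm_mul]
      exact mul_le_mul (hchar κ hκ) ((hC κ z).trans (le_abs_self _)) (norm_nonneg _) (by positivity)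
    refine (Finset.sum_le_sum h3).trans ?_
    rw [← Finset.mul_sum, ← hS]
    have h4 : ε / (2 * (S + 1)) * S = ε / 2 * (S / (S + 1)) := by
      field_simp
    rw [h4]
    have h5 : S / (S + 1) ≤ 1 := by
      rw [div_le_one (by positivity)]
      linarith
    have h6 : ε / 2 * (S / (S + 1)) ≤ ε / 2 * 1 := mul_le_mul_of_nonneg_left h5 (by positivity)
    linarith
  -- the distance to `V`
  have hG : Bd (fun z => ((F z : ℝ) : ℂ) - V z) := B11_sub _ _ hFC hVB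
  have hD : ∫ z, ‖((F z : ℝ) : ℂ) - V z‖ ∂ζ ≤ ε / 4 := by
    have h1 := W6_l1 ζ _ hG
    have h2 : 0 ≤ ∫ z, ‖((F z : ℝ) : ℂ) - V z‖ ∂ζ := integral_nonneg fun z => norm_nonneg _
    by_contra hcon
    push Not at hcon
    have h3 := h1.trans happ
    nlinarith
  have hGi : Integrable (fun z => ‖((F z : ℝ) : ℂ) - V z‖) ζ := (S3_int ζ _ hG).norm
  have hGi2 : Integrable (fun z => ‖((F (ρ n z) : ℝ) : ℂ) - V (ρ n z)‖) ζ :=
    (S3_int ζ _ (S3_bd_comp ζ ρ hρ n _ hG)).norm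
  have hGe : ∫ z, ‖((F (ρ n z) : ℝ) : ℂ) - V (ρ n z)‖ ∂ζ = ∫ z, ‖((F z : ℝ) : ℂ) - V z‖ ∂ζ :=
    S3_cvr ζ ρ hρ n (fun z => ‖((F z : ℝ) : ℂ) - V z‖) hG.1.norm
  have hi1 : Integrable (fun z => |F (ρ n z) - F z|) ζ := by
    have hm : Measurable (fun z => |F (ρ n z) - F z|) := ((hF.comp (hρ.mp n).measurable).sub hF).norm
    refine Integrable.of_bound hm.aestronglyMeasurable 1 (Eventually.of_forall fun z => ?_)
    rw [Real.norm_eq_abs, abs_abs, abs_le]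
    have := hF1 z
    have := hF1 (ρ n z)
    constructor <;> linarith
  have hmain : ∀ᵐ z ∂ζ, |F (ρ n z) - F z| ≤ (‖((F (ρ n z) : ℝ) : ℂ) - V (ρ n z)‖ + ‖((F z : ℝ) : ℂ) - V z‖)
      + ε / 2 := by
    filter_upwards [hV2] with z hz
    have h1 : |F (ρ n z) - F z| = ‖((F (ρ n z) : ℝ) : ℂ) - ((F z : ℝ) : ℂ)‖ := by
      rw [← Complex.ofReal_sub, Complex.norm_real, Real.norm_eq_abs]
    have h2 : ((F (ρ n z) : ℝ) : ℂ) - ((F z : ℝ) : ℂ) = (((F (ρ n z) : ℝ) : ℂ) - V (ρ n z))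
        - (((F z : ℝ) : ℂ) - V z) + (V (ρ n z) - V z) := by ring
    rw [h1, h2]
    refine (norm_add_le _ _).trans (add_le_add ?_ hz)
    exact norm_sub_le _ _
  have hi2 : Integrable (fun z => (‖((F (ρ n z) : ℝ) : ℂ) - V (ρ n z)‖ + ‖((F z : ℝ) : ℂ) - V z‖) + ε / 2) ζ :=
    (hGi2.add hGi).add (integrable_const _)
  refine (integral_mono_ae hi1 hi2 hmain).trans ?_
  have hi3 : Integrable (fun z => ‖((F (ρ n z) : ℝ) : ℂ) - V (ρ n z)‖ + ‖((F z : ℝ) : ℂ) - V z‖) ζ := hGi2.add hGi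
  rw [integral_add hi3 (integrable_const _), integral_add hGi2 hGi, hGe]
  simp only [integral_const, probReal_univ, smul_eq_mul, one_mul]
  linarith

private theorem W6_prod (s : Finset ℕ) (a b : ℕ → ℝ) (ha : ∀ i, 0 ≤ a i ∧ a i ≤ 1) (hb : ∀ i, 0 ≤ b i ∧ b i ≤ 1) :
    |∏ i ∈ s, a i - ∏ i ∈ s, b i| ≤ ∑ i ∈ s, |a i - b i| := by
  classical
  induction s using Finset.induction_on with
  | empty => simp
  | insert i s hi ih =>
    rw [Finset.prod_insert hi, Finset.prod_insert hi, Finset.sum_insert hi]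
    have h1 : a i * ∏ x ∈ s, a x - b i * ∏ x ∈ s, b x
        = (a i - b i) * ∏ x ∈ s, a x + b i * (∏ x ∈ s, a x - ∏ x ∈ s, b x) := by ring
    rw [h1]
    refine (abs_add_le _ _).trans (add_le_add ?_ ?_)
    · rw [abs_mul]
      have h2 : |∏ x ∈ s, a x| ≤ 1 := by
        rw [abs_of_nonneg (Finset.prod_nonneg fun x _ => (ha x).1)]
        exact Finset.prod_le_one (fun x _ => (ha x).1) fun x _ => (ha x).2
      exact mul_le_of_le_one_right (abs_nonneg _) h2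
    · rw [abs_mul, abs_of_nonneg (hb i).1]
      exact (mul_le_of_le_one_left (abs_nonneg _) (hb i).2).trans ih

/-- the main term: telescoping product and Jensen's inequality -/
theorem ap_main {Z : Type} [MeasurableSpace Z] (ζ : Measure Z) [IsProbabilityMeasure ζ] (ρ : ℤ → Z → Z)
    (hρ : Sys ζ ρ) (F : Z → ℝ) (hF : Measurable F) (hF1 : ∀ z, 0 ≤ F z ∧ F z ≤ 1) (r : ℕ) (ε : ℝ) (hε : 0 < ε)
    (d : ℤ) (hd : ∀ i : ℕ, i ≤ r → ∫ z, |F (ρ ((i : ℤ) * d) z) - F z| ∂ζ ≤ ε) :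
    (∫ z, F z ∂ζ) ^ (r + 1) - (r + 1) * ε ≤ ∫ z, ∏ i ∈ range (r + 1), F (ρ ((i : ℤ) * d) z) ∂ζ := by

  have hFi : ∀ i : ℕ, Measurable (fun z => F (ρ ((i : ℤ) * d) z)) := fun i => hF.comp (hρ.mp _).measurable
  have hP : Integrable (fun z => ∏ i ∈ range (r + 1), F (ρ ((i : ℤ) * d) z)) ζ := by
    refine Integrable.of_bound (Finset.measurable_prod _ fun i _ => hFi i).aestronglyMeasurable 1
      (Eventually.of_forall fun z => ?_)
    rw [Real.norm_eq_abs, abs_of_nonneg (Finset.prod_nonneg fun i _ => (hF1 _).1)]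
    exact Finset.prod_le_one (fun i _ => (hF1 _).1) fun i _ => (hF1 _).2
  have hpow : Integrable (fun z => F z ^ (r + 1)) ζ := by
    refine Integrable.of_bound (hF.pow_const _).aestronglyMeasurable 1 (Eventually.of_forall fun z => ?_)
    rw [Real.norm_eq_abs, abs_of_nonneg (pow_nonneg (hF1 _).1 _)]
    exact pow_le_one₀ (hF1 _).1 (hF1 _).2
  have hFint : Integrable F ζ := by
    refine Integrable.of_bound hF.aestronglyMeasurable 1 (Eventually.of_forall fun z => ?_)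
    rw [Real.norm_eq_abs, abs_of_nonneg (hF1 _).1]
    exact (hF1 _).2
  have hi1 : ∀ i : ℕ, Integrable (fun z => |F (ρ ((i : ℤ) * d) z) - F z|) ζ := by
    intro i
    have hm : Measurable (fun z => |F (ρ ((i : ℤ) * d) z) - F z|) := ((hFi i).sub hF).norm
    refine Integrable.of_bound hm.aestronglyMeasurable 1 (Eventually.of_forall fun z => ?_)
    rw [Real.norm_eq_abs, abs_abs, abs_le]
    have := hF1 z
    have := hF1 (ρ ((i : ℤ) * d) z)
    constructor <;> linarith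
  have hjen : (∫ z, F z ∂ζ) ^ (r + 1) ≤ ∫ z, F z ^ (r + 1) ∂ζ :=
    ConvexOn.map_integral_le (convexOn_pow (r + 1)) (continuous_pow (r + 1)).continuousOn isClosed_Ici
      (Eventually.of_forall fun z => (hF1 z).1) hFint hpow
  have hpt : ∀ z, F z ^ (r + 1) - ∑ i ∈ range (r + 1), |F (ρ ((i : ℤ) * d) z) - F z|
      ≤ ∏ i ∈ range (r + 1), F (ρ ((i : ℤ) * d) z) := by
    intro z
    have h1 := W6_prod (range (r + 1)) (fun i : ℕ => F (ρ ((i : ℤ) * d) z)) (fun _ => F z) (fun i => hF1 _)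
      (fun i => hF1 _)
    rw [Finset.prod_const, Finset.card_range] at h1
    have h2 := (abs_le.mp h1).1
    linarith
  have hsum : Integrable (fun z => ∑ i ∈ range (r + 1), |F (ρ ((i : ℤ) * d) z) - F z|) ζ :=
    integrable_finsetSum _ fun i _ => hi1 i
  have h1 : ∫ z, (F z ^ (r + 1) - ∑ i ∈ range (r + 1), |F (ρ ((i : ℤ) * d) z) - F z|) ∂ζ
      ≤ ∫ z, ∏ i ∈ range (r + 1), F (ρ ((i : ℤ) * d) z) ∂ζ := integral_mono (hpow.sub hsum) hP hpt
  rw [integral_sub hpow hsum, integral_finsetSum _ fun i _ => hi1 i] at h1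
  have h2 : ∑ i ∈ range (r + 1), ∫ z, |F (ρ ((i : ℤ) * d) z) - F z| ∂ζ ≤ (r + 1) * ε := by
    refine (Finset.sum_le_sum fun i hi => hd i (by have := Finset.mem_range.mp hi; omega)).trans (le_of_eq ?_)
    rw [Finset.sum_const, Finset.card_range, nsmul_eq_mul]
    push_cast
    ring
  linarith

/-! ## module W7: Theorem A+ for given weights -/

/-- `F z = ν.real {y | (z, y) ∈ A}`; `ap`, `wts`, `ap_main`, `prodW`, `extract2`, `sym_set` (for the product system). -/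
theorem thmAp_sys {Z Y : Type} [MeasurableSpace Z] [MeasurableSpace Y] (ζ : Measure Z) [IsProbabilityMeasure ζ]
    (ν : Measure Y) [IsProbabilityMeasure ν] (ρ : ℤ → Z → Z) (hρ : Sys ζ ρ) (hds : DS ζ ρ) (τ : ℤ → Y → Y)
    (hτ : Sys ν τ) (hc : Cls ν τ) (W : ℕ → ℝ) (hW : GW W) (r : ℕ) (A : Set (Z × Y)) (hA : MeasurableSet A)
    (ε : ℝ) (hε : 0 < ε) (m : ℕ) :
    ∃ d : ℕ, m < d ∧ W d ≠ 0 ∧ (ζ.prod ν).real A ^ (r + 1) - ε
      < (ζ.prod ν).real {x | ∀ i : ℕ, i ≤ r → (ρ ((i : ℤ) * d) x.1, τ ((i : ℤ) * d) x.2) ∈ A} := by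

  have hsys : Sys (ζ.prod ν) (fun n (x : Z × Y) => (ρ n x.1, τ n x.2)) := by
    refine ⟨fun x => ?_, fun m n x => ?_, fun n => (hρ.mp n).prod (hτ.mp n)⟩
    · rw [hρ.zero, hτ.zero]
    · change (ρ (m + n) x.1, τ (m + n) x.2) = (ρ m (ρ n x.1), τ m (τ n x.2))
      rw [hρ.add, hτ.add]
  have hFm : Measurable (fun z => ν.real {y | (z, y) ∈ A}) :=
    (measurable_measure_prodMk_left hA : Measurable (fun z => ν {y | (z, y) ∈ A})).ennreal_toReal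
  have hFi : ∫ z, ν.real {y | (z, y) ∈ A} ∂ζ = (ζ.prod ν).real A := by
    unfold Measure.real
    have h1 : Measurable (fun z => ν {y | (z, y) ∈ A}) := measurable_measure_prodMk_left hA
    rw [integral_toReal h1.aemeasurable (Eventually.of_forall fun z => measure_lt_top _ _), Measure.prod_apply hA]
    rfl
  have hF1 : ∀ z, 0 ≤ ν.real {y | (z, y) ∈ A} ∧ ν.real {y | (z, y) ∈ A} ≤ 1 := fun z =>
    ⟨measureReal_nonneg, measureReal_le_one⟩
  have hr : (0 : ℝ) < (r : ℝ) + 1 := by positivity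
  set p : ℝ := (ζ.prod ν).real A with hp
  have hp0 : 0 ≤ p := measureReal_nonneg
  have hp1 : p ≤ 1 := measureReal_le_one
  have hpp : p ^ (r + 1) ≤ 1 := pow_le_one₀ hp0 hp1
  obtain ⟨s, η, hη, hap⟩ := ap ζ ρ hρ hds (fun z => ν.real {y | (z, y) ∈ A}) hFm hF1 r (ε / (2 * (r + 1)))
    (by positivity)
  obtain ⟨w, c, hc0, hw, hw2, hw3⟩ := wts s η (ε / 8) hη (by positivity)
  set M : ℤ → ℝ := fun d => (ζ.prod ν).real {x | ∀ i : ℕ, i ≤ r →
        (ρ ((i : ℤ) * d) x.1, τ ((i : ℤ) * d) x.2) ∈ A} with hM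
  set N : ℤ → ℝ := fun d => ∫ z, ∏ i ∈ range (r + 1), ν.real {y | (ρ ((i : ℤ) * d) z, y) ∈ A} ∂ζ with hN
  have hN0 : ∀ d, 0 ≤ N d := fun d => integral_nonneg fun z => Finset.prod_nonneg fun i _ => measureReal_nonneg
  have hNw : ∀ d, w d * (p ^ (r + 1) - ε / 2) + (-(ε / 8 * c)) ≤ w d * N d := by
    intro d
    have h8 : 0 < ε / 8 * c := by positivity
    by_cases hd : ∃ κ ∈ s, η ≤ ‖d • κ‖
    · have h1 := hw2 d hd
      have h2 : w d * (p ^ (r + 1) - ε / 2) ≤ w d * 1 := mul_le_mul_of_nonneg_left (by linarith) (hw d).1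
      have h3 : 0 ≤ w d * N d := mul_nonneg (hw d).1 (hN0 d)
      linarith
    · push Not at hd
      have h1 := ap_main ζ ρ hρ (fun z => ν.real {y | (z, y) ∈ A}) hFm hF1 r (ε / (2 * (r + 1))) (by positivity) d
        (hap d hd)
      rw [hFi] at h1
      have h2 : ((r : ℝ) + 1) * (ε / (2 * (r + 1))) = ε / 2 := by
        field_simp
      rw [h2] at h1
      have h3 : w d * (p ^ (r + 1) - ε / 2) ≤ w d * N d := mul_le_mul_of_nonneg_left h1 (hw d).1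
      linarith
  have t1 := prodW ζ ν ρ hρ τ hτ hc W hW r A hA w hw
  have t1' : ∀ᶠ j : ℕ in atTop, |R2 W j (fun d => w d * (M d - N d))| < ε / 8 * c := by
    have := t1.abs
    rw [abs_zero] at this
    exact this.eventually (gt_mem_nhds (by positivity))
  have t2 := hw3 W hW
  have t3 := (mass W hW).eventually (eventually_le_nhds (show (1 : ℝ) < 2 by norm_num))
  obtain ⟨j, hj1, h1, h2, h3⟩ := ((eventually_ge_atTop (m + 1)).and (t1'.and (t2.and t3))).exists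
  have b1 : (p ^ (r + 1) - ε / 2) * R2 W j w + (-(ε / 8 * c)) * R2 W j (fun _ => 1) ≤ R2 W j (fun d => w d * N d) := by
    rw [← R2_smul, ← R2_smul, ← R2_add]
    refine R2_mono W hW.1 j _ _ fun d => ?_
    have := hNw d
    linarith
  have b2 : R2 W j (fun d => w d * (M d - (p ^ (r + 1) - ε)))
      = R2 W j (fun d => w d * (M d - N d)) + (R2 W j (fun d => w d * N d)
        + (-(p ^ (r + 1) - ε)) * R2 W j w) := by
    rw [← R2_smul, ← R2_add, ← R2_add]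
    congr 1
    funext d
    ring
  have b3 := (abs_le.mp h1.le).1
  have b4 : ε / 8 * c * R2 W j (fun _ => 1) ≤ ε / 8 * c * 2 := mul_le_mul_of_nonneg_left h3 (by positivity)
  have b5 : ε / 2 * c ≤ ε / 2 * R2 W j w := mul_le_mul_of_nonneg_left h2 (by positivity)
  have b6 : 0 < ε * c := by positivity
  have b7 : 0 * R2 W j (fun _ => 1) < R2 W j (fun d => w d * (M d - (p ^ (r + 1) - ε))) := by
    rw [b2, zero_mul]
    have e1 : (p ^ (r + 1) - ε / 2) * R2 W j w + (-(p ^ (r + 1) - ε)) * R2 W j w = ε / 2 * R2 W j w := by ring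
    have e2 : (-(ε / 8 * c)) * R2 W j (fun _ => 1) = -(ε / 8 * c * R2 W j (fun _ => 1)) := by ring
    rw [e2] at b1
    linarith
  obtain ⟨d, hd1, hdW, hd⟩ := extract2 W hW.1 j (by omega) _ 0 b7
  refine ⟨d, lt_of_lt_of_le (lt_of_lt_of_le (Nat.lt_succ_self m) hj1) (Nat.lt_two_pow_self.le.trans hd1), hdW, ?_⟩
  rcases hd with hd | hd
  · have := B11_pos _ _ hd (hw (d : ℤ)).1
    have h4 : p ^ (r + 1) - ε < M (d : ℤ) := by linarith
    exact h4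
  · have h8 := B11_pos _ _ hd (hw (-(d : ℤ))).1
    have h9 : M (-(d : ℤ)) = M (d : ℤ) := sym_set (ζ.prod ν) _ hsys A hA r (d : ℤ)
    rw [h9] at h8
    have h4 : p ^ (r + 1) - ε < M (d : ℤ) := by linarith
    exact h4

/-! ## module W8: the final theorem -/

private theorem W8_nat {X : Type} [MeasurableSpace X] (μ : Measure X) [IsProbabilityMeasure μ] (T : X ≃ᵐ X)
    (hT : MeasurePreserving T μ μ) (v : X → ℂ) (κ : Cir) (h : ∀ᵐ x ∂μ, v (T x) = fourier 1 κ * v x) (n : ℕ) :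
    ∀ᵐ x ∂μ, v (tz T (n : ℤ) x) = fourier (n : ℤ) κ * v x := by
  have hs := tz_sys μ T hT
  induction n with
  | zero =>
    refine Eventually.of_forall fun x => ?_
    rw [Nat.cast_zero, hs.zero]
    simp
  | succ n ih =>
    have h1 : ∀ᵐ x ∂μ, v (T (tz T (n : ℤ) x)) = fourier 1 κ * v (tz T (n : ℤ) x) :=
      (hs.mp (n : ℤ)).quasiMeasurePreserving.ae h
    filter_upwards [ih, h1] with x h2 h3
    have h4 : tz T ((n + 1 : ℕ) : ℤ) x = T (tz T (n : ℤ) x) := by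
      have h5 : ((n + 1 : ℕ) : ℤ) = 1 + (n : ℤ) := by push_cast; ring
      rw [h5, hs.add]
      have h6 := tz_nat T 1 (tz T (n : ℤ) x)
      rw [Nat.cast_one] at h6
      rw [h6]
      rfl
    have h7 : (1 : ℤ) + (n : ℤ) = ((n + 1 : ℕ) : ℤ) := by
      push_cast
      ring
    rw [h4, h3, h2, ← mul_assoc, ← fourier_add, h7]

private theorem W8_eig {X : Type} [MeasurableSpace X] (μ : Measure X) [IsProbabilityMeasure μ] (T : X ≃ᵐ X)
    (hT : MeasurePreserving T μ μ) (v : X → ℂ) (κ : Cir) (h : ∀ᵐ x ∂μ, v (T x) = fourier 1 κ * v x) (n : ℤ) :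
    ∀ᵐ x ∂μ, v (tz T n x) = fourier n κ * v x := by
  have hs := tz_sys μ T hT
  rcases Int.eq_nat_or_neg n with ⟨k, hk | hk⟩
  · rw [hk]
    exact W8_nat μ T hT v κ h k
  · have h1 : ∀ᵐ x ∂μ, v (tz T (k : ℤ) (tz T n x)) = fourier (k : ℤ) κ * v (tz T n x) :=
      (hs.mp n).quasiMeasurePreserving.ae (W8_nat μ T hT v κ h k)
    filter_upwards [h1] with x hx
    have h2 : tz T (k : ℤ) (tz T n x) = x := by
      rw [← hs.add, hk, add_neg_cancel, hs.zero]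
    rw [h2] at hx
    rw [hx, ← mul_assoc, ← fourier_add, hk, neg_add_cancel]
    simp

theorem finAp (Ω : Type) [MeasurableSpace Ω] (P : Measure Ω) [IsProbabilityMeasure P]
    (p : ℕ → ℝ) (E : ℕ → Set Ω) (hp : ∀ n, 0 ≤ p n ∧ p n ≤ 1)
    (hpt : Tendsto (fun n : ℕ => (n : ℝ) * p n) atTop atTop) (hE : ∀ n, MeasurableSet (E n)) (hi : iIndepSet E P)
    (hμ : ∀ n, P (E n) = ENNReal.ofReal (p n)) :
    ∀ᵐ ω ∂P, ∀ (Z Y : Type) [MeasurableSpace Z] [MeasurableSpace Y] (ζ : Measure Z) [IsProbabilityMeasure ζ]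
      (ν : Measure Y) [IsProbabilityMeasure ν] (R : Z ≃ᵐ Z) (S : Y ≃ᵐ Y),
      MeasurePreserving R ζ ζ → MeasurePreserving S ν ν →
      (∀ F : Z → ℂ, Bd F → ∀ ε : ℝ, 0 < ε → ∃ (s : Finset Cir) (v : Cir → Z → ℂ), (∀ κ, Bd (v κ)) ∧
        (∀ κ, ∀ᵐ z ∂ζ, v κ (R z) = fourier 1 κ * v κ z) ∧ ∫ z, ‖F z - ∑ κ ∈ s, v κ z‖ ^ 2 ∂ζ ≤ ε) →
      (∀ f : Y → ℂ, Bd f → ∫ x, f x ∂ν = 0 → ∃ (g h : Y → ℂ) (σ : Measure Cir), Bd g ∧ Bd h ∧
        (∀ᵐ x ∂ν, f x = g x + h x) ∧ IsFiniteMeasure σ ∧ σ ⟂ₘ (volume : Measure Cir) ∧ (∀ t, σ {t} = 0) ∧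
        (∀ n : ℕ, ∫ x, g (S^[n] x) * (starRingEnd ℂ) (g x) ∂ν = ∫ t, fourier (n : ℤ) t ∂σ) ∧
        ∀ (I : Finset ℕ) (m : ℕ), m ∉ I → ∀ F : ℕ → Y → ℂ, (∀ i, Bd (F i)) →
          Tendsto (fun d : ℕ => ∫ x, h (S^[m * d] x) * ∏ i ∈ I, F i (S^[i * d] x) ∂ν) atTop (𝓝 0)) →
      ∀ (r : ℕ) (A : Set (Z × Y)), MeasurableSet A → ∀ ε : ℝ, 0 < ε → ∀ m : ℕ,
        ∃ d : ℕ, m < d ∧ ω ∈ E d ∧ (ζ.prod ν).real A ^ (r + 1) - ε
          < (ζ.prod ν).real {x | ∀ i : ℕ, i ≤ r → (R^[i * d] x.1, S^[i * d] x.2) ∈ A} := by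

  filter_upwards [RDf.good_ae P p E hp hpt hE hi hμ] with ω hω
  obtain ⟨W, hW, hWS⟩ := good_gw _ hω
  intro Z Y _ _ ζ _ ν _ R S hR hS hds hcl r A hA ε hε m
  have hρ := tz_sys ζ R hR
  have hτ := tz_sys ν S hS
  have hc : Cls ν (tz S) := by
    intro f hf h0
    obtain ⟨g, h, σ, hg, hh, hfgh, hfin, hsing, hat, hsp, hmx⟩ := hcl f hf h0
    exact ⟨g, h, σ, hg, hh, hfgh, sp_of_nat ν S hS g hg σ hsp, hsing, hat,
      mx_of_nat ν S hS h hh hmx⟩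
  have hds' : DS ζ (tz R) := by
    intro F hF ε hε
    obtain ⟨s, v, hv, hve, happ⟩ := hds F hF ε hε
    refine ⟨s, v, hv, fun κ n => ?_, happ⟩
    exact W8_eig ζ R hR (v κ) κ (hve κ) n
  obtain ⟨d, hd1, hd2, hd3⟩ := thmAp_sys ζ ν (tz R) hρ hds' (tz S) hτ hc W hW r A hA ε hε m
  refine ⟨d, hd1, hWS d hd2, ?_⟩
  have h1 : {x : Z × Y | ∀ i : ℕ, i ≤ r → (tz R ((i : ℤ) * d) x.1, tz S ((i : ℤ) * d) x.2) ∈ A} =
      {x : Z × Y | ∀ i : ℕ, i ≤ r → (R^[i * d] x.1, S^[i * d] x.2) ∈ A} := by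
    ext x
    have h2 : ∀ i : ℕ, tz R ((i : ℤ) * d) x.1 = R^[i * d] x.1 := fun i => by
      rw [← tz_nat]
      push_cast
      rfl
    have h3 : ∀ i : ℕ, tz S ((i : ℤ) * d) x.2 = S^[i * d] x.2 := fun i => by
      rw [← tz_nat]
      push_cast
      rfl
    simp only [Set.mem_ofPred_eq, h2, h3]
  rw [h1] at hd3
  exact hd3

end Pool.Agent.Sgs
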