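import Pool.Agent.Sgs.Defs

/-!
# The rigidity lemma (text, section 2)
-/

set_option autoImplicit false

namespace Pool.Agent.Sgs

open MeasureTheory Filter Finset
open scoped Topology ENNReal

/-- module R1. -/
theorem cl_add (m : Measure Cir) (s t : Cir) (κ κ' : ℝ) (h1 : CL m s κ) (h2 : CL m t κ') :
    CL m (s + t) (κ + κ') := by
  intro B hB
  have h3 := h2 B hB
  have h4 := h1 _ (hB.preimage (measurable_add_const t))
  have h5 : (fun x : Cir => x + s) ⁻¹' ((fun x : Cir => x + t) ⁻¹' B) =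
      (fun x : Cir => x + (s + t)) ⁻¹' B := by
    ext x; simp only [Set.mem_preimage, add_assoc]
  rw [h5] at h4
  rw [abs_le] at *
  constructor <;> linarith [h3.1, h3.2, h4.1, h4.2]

/-- module R1. -/
theorem cl_neg (m : Measure Cir) (t : Cir) (κ : ℝ) (h : CL m t κ) : CL m (-t) κ := by
  intro B hB
  have h4 := h _ (hB.preimage (measurable_add_const (-t)))
  have h5 : (fun x : Cir => x + t) ⁻¹' ((fun x : Cir => x + -t) ⁻¹' B) = B := by
    ext x; simp only [Set.mem_preimage, add_neg_cancel_right]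
  rw [h5, abs_sub_comm] at h4
  exact h4

/-- module R1. -/
theorem cl_mono (m : Measure Cir) (t : Cir) (κ κ' : ℝ) (hκ : κ ≤ κ') (h : CL m t κ) : CL m t κ' :=
  fun B hB => (h B hB).trans hκ

/-- module R2.  Step (5): `m` lives on a Lebesgue null set `E`, so `m (E - s) = 0` for almost all `s`
(Fubini, or `measure_prod_null` for the measurable set `{(s, x) | x + s ∈ E}`); take such an `s` in `(0, δ)`, `K ⊆ E`
compact (inner regularity) with `m K ≥ m univ - k`; the translate `K - s` is compact and null, choose an open set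
of `m`-measure `< k` containing it (outer regularity); the translates by `s'` close to `s` stay inside. -/
theorem sep (m : Measure Cir) [IsFiniteMeasure m] (hm : m ⟂ₘ (volume : Measure Cir)) (δ k : ℝ) (hδ : 0 < δ)
    (hk : 0 < k) :
    ∃ s : ℝ, 0 < s ∧ s < δ ∧ ∃ K : Set Cir, MeasurableSet K ∧ m.real Set.univ - k ≤ m.real K ∧
      ∃ ρ : ℝ, 0 < ρ ∧ ∀ s' : ℝ, |s' - s| < ρ → m.real ((fun x => x + (s' : Cir)) ⁻¹' K) ≤ k := by
  classical
  -- the null set
  set E : Set Cir := hm.nullSetᶜ with hE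
  have hEm : MeasurableSet E := hm.measurableSet_nullSet.compl
  have hE1 : (volume : Measure Cir) E = 0 := hm.measure_compl_nullSet
  have hE2 : m Eᶜ = 0 := by rw [hE, compl_compl]; exact hm.measure_nullSet
  -- almost all translates are null
  have h1 : ∀ᵐ s ∂(volume : Measure Cir), ∀ᵐ x ∂m, ¬ (x + s ∈ E) := by
    have hmeas : MeasurableSet {z : Cir × Cir | ¬ (z.1 + z.2 ∈ E)} :=
      (hEm.preimage (measurable_fst.add measurable_snd)).compl
    rw [← Measure.ae_ae_comm (p := fun x s => ¬ (x + s ∈ E)) hmeas]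
    refine Filter.Eventually.of_forall fun x => ?_
    have h2 : (volume : Measure Cir) ((fun s => x + s) ⁻¹' E) = 0 := by
      rw [measure_preimage_add, hE1]
    exact measure_eq_zero_iff_ae_notMem.1 h2
  have h2 : ∀ᵐ s : ℝ ∂(volume.restrict (Set.Ioc (0 : ℝ) (0 + 1))), ∀ᵐ x ∂m, ¬ (x + (s : Cir) ∈ E) :=
    (AddCircle.measurePreserving_mk (1 : ℝ) 0).quasiMeasurePreserving.ae h1
  rw [ae_restrict_iff' measurableSet_Ioc] at h2
  have h3 : ∃ᵐ s : ℝ ∂volume, s ∈ Set.Ioo (0 : ℝ) (min δ 1) := by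
    rw [frequently_ae_mem_iff, Real.volume_Ioo]
    have : 0 < min δ 1 - 0 := by rw [sub_zero]; exact lt_min hδ one_pos
    exact (ENNReal.ofReal_pos.2 this).ne'
  obtain ⟨s, hs, hs'⟩ := (h3.and_eventually h2).exists
  have hsE : ∀ᵐ x ∂m, ¬ (x + (s : Cir) ∈ E) :=
    hs' ⟨hs.1, by rw [zero_add]; exact (hs.2.trans_le (min_le_right _ _)).le⟩
  have hsE' : m ((fun x => x + (s : Cir)) ⁻¹' E) = 0 := measure_eq_zero_iff_ae_notMem.2 hsE
  -- the compact set
  have hk' : ENNReal.ofReal k ≠ 0 := (ENNReal.ofReal_pos.2 hk).ne'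
  obtain ⟨K, hKE, hK, hKm⟩ := hEm.exists_isCompact_lt_add (μ := m) (measure_ne_top m E) hk'
  have hKmeas : MeasurableSet K := hK.isClosed.measurableSet
  refine ⟨s, hs.1, hs.2.trans_le (min_le_left _ _), K, hKmeas, ?_, ?_⟩
  · have h4 : m Set.univ ≤ m K + ENNReal.ofReal k := by
      have h5 : m Set.univ = m E := by
        rw [← measure_add_measure_compl hEm, hE2, add_zero]
      rw [h5]; exact hKm.le
    have h6 := ENNReal.toReal_mono (ENNReal.add_ne_top.2 ⟨measure_ne_top m K, ENNReal.ofReal_ne_top⟩) h4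
    rw [ENNReal.toReal_add (measure_ne_top m K) ENNReal.ofReal_ne_top,
      ENNReal.toReal_ofReal hk.le] at h6
    have h7 : m.real Set.univ ≤ m.real K + k := h6
    linarith
  · -- the open set
    have h4 : m ((fun x => x + (s : Cir)) ⁻¹' K) < ENNReal.ofReal k := by
      have : m ((fun x => x + (s : Cir)) ⁻¹' K) = 0 :=
        measure_mono_null (Set.preimage_mono hKE) hsE'
      rw [this]; exact ENNReal.ofReal_pos.2 hk
    obtain ⟨U, hKU, hU, hUm⟩ := Set.exists_isOpen_lt_of_lt _ _ h4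
    have hC : IsCompact Uᶜ := hU.isClosed_compl.isCompact
    set D : Set Cir := (fun z : Cir × Cir => z.1 - z.2) '' (K ×ˢ Uᶜ) with hDdef
    have hD : IsClosed D := ((hK.prod hC).image (continuous_fst.sub continuous_snd)).isClosed
    have hsD : (s : Cir) ∉ D := by
      rintro ⟨⟨a, b⟩, ⟨ha, hb⟩, hab⟩
      apply hb
      apply hKU
      have : b + (s : Cir) = a := by
        have hab' : a - b = (s : Cir) := hab
        rw [← hab']; abel
      show b + (s : Cir) ∈ K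
      rw [this]; exact ha
    have hopen : IsOpen ((fun r : ℝ => (r : Cir)) ⁻¹' Dᶜ) :=
      hD.isOpen_compl.preimage (AddCircle.continuous_mk' 1)
    obtain ⟨ρ, hρ, hball⟩ := Metric.isOpen_iff.1 hopen s hsD
    refine ⟨ρ, hρ, fun s' hs' => ?_⟩
    have h5 : (s' : Cir) ∉ D := hball (by rw [Metric.mem_ball, Real.dist_eq]; exact hs')
    have h6 : (fun x => x + (s' : Cir)) ⁻¹' K ⊆ U := by
      intro x hx
      by_contra hxU
      exact h5 ⟨(x + (s' : Cir), x), ⟨hx, hxU⟩, by simp⟩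
    have h7 : m ((fun x => x + (s' : Cir)) ⁻¹' K) ≤ ENNReal.ofReal k := (measure_mono h6).trans hUm.le
    have h8 := ENNReal.toReal_mono ENNReal.ofReal_ne_top h7
    rwa [ENNReal.toReal_ofReal hk.le] at h8

/-- module R3.  An infinite subset of the circle has two different points at distance less than `ρ`
(compactness); represent the difference by a real number in `(0, ρ)` (swap the points if necessary). -/
theorem close_pair (Γ : Set Cir) (h : Γ.Infinite) (ρ : ℝ) (hρ : 0 < ρ) :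
    ∃ t : ℝ, 0 < t ∧ t < ρ ∧ ∃ c ∈ Γ, ∃ c' ∈ Γ, (t : Cir) = c - c' := by
  obtain ⟨x, -, hx⟩ := h.exists_accPt_of_subset_isCompact isCompact_univ (Set.subset_univ _)
  rw [accPt_iff_nhds] at hx
  obtain ⟨c, ⟨hc1, hc2⟩, hcx⟩ := hx _ (Metric.ball_mem_nhds x (half_pos hρ))
  have hd : 0 < dist c x := dist_pos.2 hcx
  obtain ⟨c', ⟨hc1', hc2'⟩, -⟩ := hx _ (Metric.ball_mem_nhds x (lt_min (half_pos hρ) hd))
  rw [Metric.mem_ball] at hc1 hc1'
  have hne : c ≠ c' := by
    intro h1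
    rw [← h1] at hc1'
    exact lt_irrefl _ (hc1'.trans_le (min_le_right _ _))
  have hdist : ‖c - c'‖ < ρ := by
    rw [← dist_eq_norm]
    calc dist c c' ≤ dist c x + dist c' x := dist_triangle_right _ _ _
      _ < ρ / 2 + ρ / 2 := add_lt_add hc1 (hc1'.trans_le (min_le_left _ _))
      _ = ρ := by ring
  obtain ⟨r, hr⟩ : ∃ r : ℝ, (r : Cir) = c - c' := QuotientAddGroup.mk_surjective _
  set r' : ℝ := r - round r with hr'
  have hr1 : (r' : Cir) = c - c' := by
    rw [hr', AddCircle.coe_sub, hr]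
    have : ((round r : ℝ) : Cir) = 0 := by
      rw [AddCircle.coe_eq_zero_iff]
      exact ⟨round r, by simp⟩
    rw [this, sub_zero]
  have hr2 : |r'| = ‖c - c'‖ := by
    rw [← hr, AddCircle.norm_eq]
    simp [hr']
  have hr0 : r' ≠ 0 := by
    intro h1
    rw [h1, AddCircle.coe_zero] at hr1
    exact hne (sub_eq_zero.1 hr1.symm)
  rcases lt_or_gt_of_ne hr0 with h1 | h1
  · refine ⟨-r', by linarith, ?_, c', hc2', c, hc2, ?_⟩
    · rw [← hr2, abs_of_neg h1] at hdist; exact hdist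
    · rw [AddCircle.coe_neg, hr1, neg_sub]
  · refine ⟨r', h1, ?_, c, hc2, c', hc2', hr1⟩
    rw [← hr2, abs_of_pos h1] at hdist; exact hdist

/-- module R4.  Step (4). For `t` from `close_pair` (with `t < ρ`, `t < δ`): `CL m (j t) (3 k)` for all `j` with
`j t ≤ δ` by induction (`cl_add` gives `6 k ≤ M / 2`, then `h2` and `h1`); take `j = ⌊s / t⌋`. -/
theorem steps (m : Measure Cir) (Γ : Set Cir) (k M δ : ℝ) (hk : 0 < k) (hM : 12 * k ≤ M) (hδ : 0 < δ)
    (h1 : ∀ c ∈ Γ, ∀ c' ∈ Γ, CL m (c - c') (3 * k))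
    (h2 : ∀ t : ℝ, |t| ≤ δ → CL m (t : Cir) (M / 2) → ∃ c ∈ Γ, ∃ c' ∈ Γ, (t : Cir) = c - c')
    (h3 : Γ.Infinite) (s : ℝ) (hs : 0 < s) (hsδ : s < δ) (ρ : ℝ) (hρ : 0 < ρ) :
    ∃ s' : ℝ, |s' - s| < ρ ∧ CL m (s' : Cir) (3 * k) := by
  obtain ⟨t, ht0, htρ, c, hc, c', hc', htc⟩ := close_pair Γ h3 (min ρ δ) (lt_min hρ hδ)
  have hct : CL m (t : Cir) (3 * k) := by rw [htc]; exact h1 c hc c' hc'
  have key : ∀ j : ℕ, j * t ≤ δ → CL m ((j * t : ℝ) : Cir) (3 * k) := by
    intro j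
    induction j with
    | zero =>
      intro _ B _
      simp only [Nat.cast_zero, zero_mul, AddCircle.coe_zero, add_zero, Set.preimage_id', sub_self,
        abs_zero]
      positivity
    | succ j ih =>
      intro hj
      push_cast at hj
      have hj' : (j : ℝ) * t ≤ δ := by nlinarith
      have h4 := cl_add m _ _ _ _ (ih hj') hct
      rw [← AddCircle.coe_add] at h4
      have h5 : (j : ℝ) * t + t = ((j + 1 : ℕ) : ℝ) * t := by push_cast; ring
      rw [h5] at h4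
      have h6 : |((j + 1 : ℕ) : ℝ) * t| ≤ δ := by
        rw [abs_of_nonneg (by positivity)]; push_cast; exact hj
      obtain ⟨d, hd, d', hd', hdd⟩ := h2 _ h6 (cl_mono m _ _ _ (by linarith) h4)
      rw [hdd]; exact h1 d hd d' hd'
  refine ⟨⌊s / t⌋₊ * t, ?_, ?_⟩
  · have h4 := Nat.floor_le (div_nonneg hs.le ht0.le)
    have h5 := Nat.lt_floor_add_one (s / t)
    rw [le_div_iff₀ ht0] at h4
    rw [div_lt_iff₀ ht0] at h5
    rw [abs_sub_lt_iff]
    have h6 : t < ρ := htρ.trans_le (min_le_left _ _)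
    constructor <;> nlinarith
  · apply key
    have h4 := Nat.floor_le (div_nonneg hs.le ht0.le)
    rw [le_div_iff₀ ht0] at h4
    linarith

/-- module R5.  From `sep` and `steps`. -/
theorem core (m : Measure Cir) [IsFiniteMeasure m] (hm : m ⟂ₘ (volume : Measure Cir)) (Γ : Set Cir)
    (k δ : ℝ) (hk : 0 < k) (hM : 12 * k ≤ m.real Set.univ) (hδ : 0 < δ)
    (h1 : ∀ c ∈ Γ, ∀ c' ∈ Γ, CL m (c - c') (3 * k))
    (h2 : ∀ t : ℝ, |t| ≤ δ → CL m (t : Cir) (m.real Set.univ / 2) → ∃ c ∈ Γ, ∃ c' ∈ Γ, (t : Cir) = c - c')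
    (h3 : Γ.Infinite) : False := by
  obtain ⟨s, hs, hsδ, K, hK, hKm, ρ, hρ, hK'⟩ := sep m hm δ k hδ hk
  obtain ⟨s', hs', hcl⟩ := steps m Γ k _ δ hk hM hδ h1 h2 h3 s hs hsδ ρ hρ
  have h4 := hK' s' hs'
  have h5 := hcl K hK
  rw [abs_le] at h5
  linarith [h5.1, h5.2]

/-- module R6.  Lusin type statement: approximate `φ` in `L1` by a continuous function `Φ` on the compact space
`Cir × Cir` (`Integrable.exists_hasCompactSupport_integral_sub_le` or density of continuous functions in `Lp`), take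
`A = {a | φ(a,.) integrable, ∫ |φ(a,b) - Φ(a,b)| ≤ η/3}` (Markov) and use uniform continuity of `Φ`. -/
theorem lus (σ ρ : Measure Cir) [IsFiniteMeasure σ] [IsFiniteMeasure ρ] (φ : Cir × Cir → ℝ)
    (hφm : Measurable φ) (hφ : Integrable φ (σ.prod ρ)) (ε η : ℝ) (hε : 0 < ε) (hη : 0 < η) :
    ∃ A : Set Cir, MeasurableSet A ∧ σ.real Aᶜ ≤ ε ∧ (∀ a ∈ A, Integrable (fun b => φ (a, b)) ρ) ∧
      ∃ δ : ℝ, 0 < δ ∧ ∀ a ∈ A, ∀ a' ∈ A, dist a a' ≤ δ → ∫ b, |φ (a, b) - φ (a', b)| ∂ρ ≤ η := by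
  have hη3 : 0 < η / 3 := by positivity
  obtain ⟨Φ, -, hΦ, hΦc, hΦi⟩ := hφ.exists_hasCompactSupport_integral_sub_le
    (ε := ε * (η / 3)) (by positivity)
  have hsm : StronglyMeasurable φ := hφm.stronglyMeasurable
  have hdi : Integrable (fun z => ‖φ z - Φ z‖) (σ.prod ρ) := (hφ.sub hΦi).norm
  have hdm : StronglyMeasurable (fun z : Cir × Cir => ‖φ z - Φ z‖) :=
    (hsm.sub hΦc.stronglyMeasurable).norm
  have hm1 : MeasurableSet {a | Integrable (fun b => φ (a, b)) ρ} :=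
    measurableSet_integrable (f := fun a b => φ (a, b)) hsm
  have hgm : StronglyMeasurable (fun a => ∫ b, ‖φ (a, b) - Φ (a, b)‖ ∂ρ) :=
    hdm.integral_prod_right
  set A : Set Cir := {a | Integrable (fun b => φ (a, b)) ρ} ∩
    {a | ∫ b, ‖φ (a, b) - Φ (a, b)‖ ∂ρ < η / 3} with hA
  have hAm : MeasurableSet A := hm1.inter (measurableSet_lt hgm.measurable measurable_const)
  have hΦint : ∀ a, Integrable (fun b => Φ (a, b)) ρ := by
    intro a
    obtain ⟨C, hC⟩ := (isCompact_univ (X := Cir × Cir)).exists_bound_of_continuousOn hΦc.continuousOn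
    exact Integrable.of_bound (hΦc.comp (by fun_prop)).aestronglyMeasurable C
      (Filter.Eventually.of_forall fun b => hC _ (Set.mem_univ _))
  refine ⟨A, hAm, ?_, fun a ha => ha.1, ?_⟩
  · -- Markov
    have h1 : σ {a | ¬ Integrable (fun b => φ (a, b)) ρ} = 0 := hφ.prod_right_ae
    have h2 := mul_meas_ge_le_integral_of_nonneg (μ := σ)
      (f := fun a => ∫ b, ‖φ (a, b) - Φ (a, b)‖ ∂ρ)
      (Filter.Eventually.of_forall fun a => integral_nonneg fun b => norm_nonneg _)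
      hdi.integral_prod_left (η / 3)
    have h3 : ∫ a, ∫ b, ‖φ (a, b) - Φ (a, b)‖ ∂ρ ∂σ = ∫ z, ‖φ z - Φ z‖ ∂(σ.prod ρ) :=
      (integral_prod _ hdi).symm
    rw [h3] at h2
    have h4 : σ.real {a | η / 3 ≤ ∫ b, ‖φ (a, b) - Φ (a, b)‖ ∂ρ} ≤ ε := by
      have h5 := h2.trans hΦ
      rw [mul_comm ε] at h5
      exact le_of_mul_le_mul_left h5 hη3
    have h6 : Aᶜ ⊆ {a | ¬ Integrable (fun b => φ (a, b)) ρ} ∪
        {a | η / 3 ≤ ∫ b, ‖φ (a, b) - Φ (a, b)‖ ∂ρ} := by
      intro a ha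
      by_contra h7
      rw [Set.mem_union, not_or] at h7
      apply ha
      have h8 : ∫ b, ‖φ (a, b) - Φ (a, b)‖ ∂ρ < η / 3 := by
        by_contra h9
        exact h7.2 (not_lt.1 h9)
      exact ⟨not_not.1 h7.1, h8⟩
    calc σ.real Aᶜ ≤ σ.real ({a | ¬ Integrable (fun b => φ (a, b)) ρ} ∪
        {a | η / 3 ≤ ∫ b, ‖φ (a, b) - Φ (a, b)‖ ∂ρ}) := measureReal_mono h6
      _ ≤ σ.real {a | ¬ Integrable (fun b => φ (a, b)) ρ} +
        σ.real {a | η / 3 ≤ ∫ b, ‖φ (a, b) - Φ (a, b)‖ ∂ρ} := measureReal_union_le _ _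
      _ ≤ 0 + ε := by
        refine add_le_add ?_ h4
        rw [measureReal_def, h1]; simp
      _ = ε := zero_add _
  · -- uniform continuity
    have huc : UniformContinuous Φ := CompactSpace.uniformContinuous_of_continuous hΦc
    set R : ℝ := ρ.real Set.univ with hR
    have hR0 : 0 ≤ R := measureReal_nonneg
    rw [Metric.uniformContinuous_iff] at huc
    obtain ⟨δ, hδ, hδ'⟩ := huc (η / 3 / (R + 1)) (by positivity)
    refine ⟨δ / 2, by positivity, ?_⟩
    intro a ha a' ha' hd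
    have e1 : ∀ b, |φ (a, b) - φ (a', b)| ≤ ‖φ (a, b) - Φ (a, b)‖ + ‖φ (a', b) - Φ (a', b)‖ +
        η / 3 / (R + 1) := by
      intro b
      have h1 : dist (Φ (a, b)) (Φ (a', b)) < η / 3 / (R + 1) := by
        apply hδ'
        rw [Prod.dist_eq]
        simp only [dist_self]
        exact max_lt (by linarith) hδ
      rw [Real.dist_eq] at h1
      simp only [Real.norm_eq_abs]
      have h2 : φ (a, b) - φ (a', b) = (φ (a, b) - Φ (a, b)) + -(φ (a', b) - Φ (a', b)) +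
        (Φ (a, b) - Φ (a', b)) := by ring
      rw [h2]
      refine (abs_add_le _ _).trans (add_le_add ((abs_add_le _ _).trans ?_) h1.le)
      rw [abs_neg]
    have i1 : Integrable (fun b => ‖φ (a, b) - Φ (a, b)‖) ρ := (ha.1.sub (hΦint a)).norm
    have i2 : Integrable (fun b => ‖φ (a', b) - Φ (a', b)‖) ρ := (ha'.1.sub (hΦint a')).norm
    have i3 : Integrable (fun b => |φ (a, b) - φ (a', b)|) ρ := (ha.1.sub ha'.1).norm
    have i12 : Integrable (fun b => ‖φ (a, b) - Φ (a, b)‖ + ‖φ (a', b) - Φ (a', b)‖) ρ := i1.add i2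
    have i123 : Integrable (fun b => ‖φ (a, b) - Φ (a, b)‖ + ‖φ (a', b) - Φ (a', b)‖ +
      η / 3 / (R + 1)) ρ := i12.add (integrable_const _)
    have h5 := integral_mono i3 i123 e1
    have h6 : ∫ b, (‖φ (a, b) - Φ (a, b)‖ + ‖φ (a', b) - Φ (a', b)‖ + η / 3 / (R + 1)) ∂ρ =
        ∫ b, ‖φ (a, b) - Φ (a, b)‖ ∂ρ +
        ∫ b, ‖φ (a', b) - Φ (a', b)‖ ∂ρ + R * (η / 3 / (R + 1)) := by
      rw [integral_add i12 (integrable_const _), integral_add i1 i2, integral_const,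
        smul_eq_mul]
    have h7 : R * (η / 3 / (R + 1)) ≤ η / 3 := by
      rw [mul_div_assoc', div_le_iff₀ (by positivity)]
      nlinarith
    have h8 : ∫ b, ‖φ (a, b) - Φ (a, b)‖ ∂ρ < η / 3 := ha.2
    have h9 : ∫ b, ‖φ (a', b) - Φ (a', b)‖ ∂ρ < η / 3 := ha'.2
    calc ∫ b, |φ (a, b) - φ (a', b)| ∂ρ ≤ _ := h5
      _ = _ := h6
      _ ≤ η := by linarith

/-- module R7.  From `lus` (for the function with the coordinates exchanged): finitely many pieces of small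
diameter cover the circle, one of them meets `G ∩ A` in positive measure. -/
theorem sel (σ ρ : Measure Cir) [IsFiniteMeasure σ] [IsFiniteMeasure ρ] (ψ : Cir × Cir → ℝ)
    (hψm : Measurable ψ) (hψ : Integrable ψ (σ.prod ρ)) (G : Set Cir) (hG : MeasurableSet G) (hG0 : ρ G ≠ 0)
    (k : ℝ) (hk : 0 < k) :
    ∃ Γ : Set Cir, Γ ⊆ G ∧ MeasurableSet Γ ∧ ρ Γ ≠ 0 ∧ (∀ c ∈ Γ, Integrable (fun a => ψ (a, c)) σ) ∧
      ∀ c ∈ Γ, ∀ c' ∈ Γ, ∫ a, |ψ (a, c) - ψ (a, c')| ∂σ ≤ k := by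
  have hG1 : 0 < ρ.real G := by
    rw [measureReal_def]
    exact ENNReal.toReal_pos hG0 (measure_ne_top _ _)
  obtain ⟨A, hA, hAε, hAi, δ, hδ, hAδ⟩ := lus ρ σ (fun z => ψ (z.2, z.1))
    (hψm.comp measurable_swap) hψ.swap (ρ.real G / 2) k (by positivity) hk
  have hGA : ρ (G ∩ A) ≠ 0 := by
    intro h0
    have h1 : ρ.real G ≤ ρ.real (G ∩ A) + ρ.real Aᶜ := by
      calc ρ.real G ≤ ρ.real ((G ∩ A) ∪ Aᶜ) := by
            refine measureReal_mono ?_ (measure_ne_top _ _)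
            intro x hx
            by_cases hxA : x ∈ A
            · left; exact ⟨hx, hxA⟩
            · right; exact hxA
        _ ≤ _ := measureReal_union_le _ _
    rw [measureReal_def ρ (G ∩ A), h0] at h1
    simp only [ENNReal.toReal_zero, zero_add] at h1
    linarith
  obtain ⟨t, -, htf, htc⟩ := finite_cover_balls_of_compact (isCompact_univ (X := Cir))
    (half_pos hδ)
  have h2 : ∃ x ∈ t, ρ (G ∩ A ∩ Metric.ball x (δ / 2)) ≠ 0 := by
    by_contra h3
    push Not at h3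
    apply hGA
    have h4 : G ∩ A ⊆ ⋃ x ∈ t, (G ∩ A ∩ Metric.ball x (δ / 2)) := by
      intro y hy
      obtain ⟨x, hx⟩ := Set.mem_iUnion.1 (htc (Set.mem_univ y))
      obtain ⟨hxt, hyx⟩ := Set.mem_iUnion.1 hx
      exact Set.mem_iUnion.2 ⟨x, Set.mem_iUnion.2 ⟨hxt, hy, hyx⟩⟩
    refine measure_mono_null h4 ?_
    exact (measure_biUnion_null_iff htf.countable).2 h3
  obtain ⟨x, -, hx⟩ := h2
  refine ⟨G ∩ A ∩ Metric.ball x (δ / 2), fun y hy => hy.1.1,
    (hG.inter hA).inter measurableSet_ball, hx, fun c hc => hAi c hc.1.2, ?_⟩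
  intro c hc c' hc'
  apply hAδ c hc.1.2 c' hc'.1.2
  have h3 := Metric.mem_ball.1 hc.2
  have h4 := Metric.mem_ball.1 hc'.2
  calc dist c c' ≤ dist c x + dist c' x := dist_triangle_right _ _ _
    _ ≤ δ := by linarith

private theorem R8_pisys : ∃ C : Set (Set Cir), C.Countable ∧ IsPiSystem C ∧
    (inferInstance : MeasurableSpace Cir) = MeasurableSpace.generateFrom C ∧ Set.univ ∈ C := by
  classical
  refine ⟨Set.range fun F : Finset ℕ => ⋂ i ∈ F, MeasurableSpace.natGeneratingSequence Cir i,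
    Set.countable_range _, ?_, ?_, ⟨∅, by simp⟩⟩
  · rintro _ ⟨F, rfl⟩ _ ⟨G, rfl⟩ -
    refine ⟨F ∪ G, ?_⟩
    ext x
    simp only [Set.mem_iInter, Set.mem_inter_iff, Finset.mem_union]
    exact ⟨fun h => ⟨fun i hi => h i (Or.inl hi), fun i hi => h i (Or.inr hi)⟩,
      fun h i hi => hi.elim (h.1 i) (h.2 i)⟩
  · apply le_antisymm
    · conv_lhs => rw [← MeasurableSpace.generateFrom_natGeneratingSequence Cir]
      apply MeasurableSpace.generateFrom_le
      rintro _ ⟨i, rfl⟩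
      exact MeasurableSpace.measurableSet_generateFrom ⟨{i}, by simp⟩
    · apply MeasurableSpace.generateFrom_le
      rintro _ ⟨F, rfl⟩
      exact Finset.measurableSet_biInter F fun i _ =>
        MeasurableSpace.measurableSet_natGeneratingSequence i

private theorem R8_lint (σ σ₃ : Measure Cir) [IsFiniteMeasure σ] [IsFiniteMeasure σ₃]
    (f : Cir × Cir → ℝ≥0∞) (hf : Measurable f) {B : Set (Cir × Cir)} (hB : MeasurableSet B)
    (D : Set Cir) :
    ∫⁻ c in D, ∫⁻ a, B.indicator f (a, c) ∂σ ∂σ₃ =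
      ((σ.prod σ₃).withDensity f) (B ∩ (Set.univ ×ˢ D)) := by
  rw [← lintegral_prod_symm' (μ := σ) (ν := σ₃.restrict D) _ (hf.indicator hB)]
  have h1 : σ.prod (σ₃.restrict D) = (σ.prod σ₃).restrict (Set.univ ×ˢ D) := by
    rw [← Measure.prod_restrict, Measure.restrict_univ]
  rw [h1, lintegral_indicator hB, Measure.restrict_restrict hB, withDensity_apply']

/-- module R8.  Uniqueness of disintegrations: test the two formulas for `ν` on `{(a,b) | b ∈ B, -a-b ∈ D}` for `B`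
in a countable pi-system generating the Borel sets and all `D` (or use uniqueness of kernels,
`Measure.compProd` / `Kernel.ae_eq_of_compProd_eq`). -/
theorem dis (σ₁ σ₂ σ₃ : Measure Cir) [IsFiniteMeasure σ₁] [IsFiniteMeasure σ₂] [IsFiniteMeasure σ₃]
    (ν : Measure (Cir × Cir)) [IsFiniteMeasure ν] (ψ χ : Cir × Cir → ℝ) (hψm : Measurable ψ) (hχm : Measurable χ)
    (hψ0 : ∀ z, 0 ≤ ψ z) (hχ0 : ∀ z, 0 ≤ χ z)
    (h13 : ν.map (fun z => (z.1, -z.1 - z.2)) = (σ₁.prod σ₃).withDensity (fun z => ENNReal.ofReal (ψ z)))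
    (h23 : ν.map (fun z => (z.2, -z.1 - z.2)) = (σ₂.prod σ₃).withDensity (fun z => ENNReal.ofReal (χ z))) :
    ∀ᵐ c ∂σ₃, (σ₁.withDensity (fun a => ENNReal.ofReal (ψ (a, c)))).map (fun a => -a - c)
      = σ₂.withDensity (fun b => ENNReal.ofReal (χ (b, c))) := by
  have _ := hψ0
  have _ := hχ0
  obtain ⟨C, hCc, hCp, hCg, hCu⟩ := R8_pisys
  have hψ' : Measurable fun z => ENNReal.ofReal (ψ z) := hψm.ennreal_ofReal
  have hχ' : Measurable fun z => ENNReal.ofReal (χ z) := hχm.ennreal_ofReal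
  have hT13 : Measurable fun z : Cir × Cir => (z.1, -z.1 - z.2) := by fun_prop
  have hg : Measurable fun z : Cir × Cir => (-z.1 - z.2, z.2) := by fun_prop
  have hrel : ((σ₁.prod σ₃).withDensity (fun z => ENNReal.ofReal (ψ z))).map
      (fun z : Cir × Cir => (-z.1 - z.2, z.2)) =
      (σ₂.prod σ₃).withDensity (fun z => ENNReal.ofReal (χ z)) := by
    rw [← h13, ← h23, Measure.map_map hg hT13]
    congr 1
    ext z
    · simp only [Function.comp]; abel
    · rfl
  have hrefl : ∀ c : Cir, Measurable fun a : Cir => -a - c := fun c => by fun_prop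
  have hF : ∀ (c : Cir) (B : Set Cir), MeasurableSet B →
      ((σ₁.withDensity (fun a => ENNReal.ofReal (ψ (a, c)))).map (fun a => -a - c)) B =
      ∫⁻ a, ({z : Cir × Cir | -z.1 - z.2 ∈ B}.indicator (fun z => ENNReal.ofReal (ψ z))) (a, c) ∂σ₁ := by
    intro c B hB
    rw [Measure.map_apply (hrefl c) hB, withDensity_apply' _ _,
      ← lintegral_indicator (hB.preimage (hrefl c))]
    rfl
  have hG : ∀ (c : Cir) (B : Set Cir), MeasurableSet B →
      (σ₂.withDensity (fun b => ENNReal.ofReal (χ (b, c)))) B =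
      ∫⁻ b, ((B ×ˢ (Set.univ : Set Cir)).indicator (fun z => ENNReal.ofReal (χ z))) (b, c) ∂σ₂ := by
    intro c B hB
    rw [withDensity_apply' _ _, ← lintegral_indicator hB]
    congr 1
    ext b
    by_cases hb : b ∈ B
    · rw [Set.indicator_of_mem hb, Set.indicator_of_mem (by exact ⟨hb, Set.mem_univ _⟩)]
    · rw [Set.indicator_of_notMem hb, Set.indicator_of_notMem (fun h => hb h.1)]
  have hBm : ∀ B : Set Cir, MeasurableSet B → MeasurableSet {z : Cir × Cir | -z.1 - z.2 ∈ B} :=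
    fun B hB => hB.preimage (by fun_prop : Measurable fun z : Cir × Cir => -z.1 - z.2)
  have key : ∀ B ∈ C, ∀ᵐ c ∂σ₃,
      ((σ₁.withDensity (fun a => ENNReal.ofReal (ψ (a, c)))).map (fun a => -a - c)) B =
      (σ₂.withDensity (fun b => ENNReal.ofReal (χ (b, c)))) B := by
    intro B hBC
    have hB : MeasurableSet B := by
      have h1 : @MeasurableSet Cir (MeasurableSpace.generateFrom C) B :=
        MeasurableSpace.measurableSet_generateFrom hBC
      rw [← hCg] at h1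
      exact h1
    have h1 : Measurable fun c => ∫⁻ a, ({z : Cir × Cir | -z.1 - z.2 ∈ B}.indicator
        (fun z => ENNReal.ofReal (ψ z))) (a, c) ∂σ₁ :=
      (hψ'.indicator (hBm B hB)).lintegral_prod_left'
    have h2 : Measurable fun c => ∫⁻ b, ((B ×ˢ (Set.univ : Set Cir)).indicator
        (fun z => ENNReal.ofReal (χ z))) (b, c) ∂σ₂ :=
      (hχ'.indicator (hB.prod MeasurableSet.univ)).lintegral_prod_left'
    have h3 := ae_eq_of_forall_setLIntegral_eq_of_sigmaFinite (μ := σ₃) h1 h2 (by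
      intro D hD _
      rw [R8_lint σ₁ σ₃ _ hψ' (hBm B hB) D, R8_lint σ₂ σ₃ _ hχ' (hB.prod MeasurableSet.univ) D,
        ← hrel, Measure.map_apply hg ((hB.prod MeasurableSet.univ).inter (MeasurableSet.univ.prod hD))]
      congr 1
      ext z
      simp)
    filter_upwards [h3] with c hc
    rw [hF c B hB, hG c B hB]
    exact hc
  have hfin : ∀ᵐ c ∂σ₃,
      ((σ₁.withDensity (fun a => ENNReal.ofReal (ψ (a, c)))).map (fun a => -a - c)) Set.univ < ∞ := by
    have h1 : Measurable fun c => ∫⁻ a, ({z : Cir × Cir | -z.1 - z.2 ∈ (Set.univ : Set Cir)}.indicator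
        (fun z => ENNReal.ofReal (ψ z))) (a, c) ∂σ₁ :=
      (hψ'.indicator (hBm _ MeasurableSet.univ)).lintegral_prod_left'
    have h2 := R8_lint σ₁ σ₃ _ hψ' (hBm _ MeasurableSet.univ) Set.univ
    rw [← h13, Measure.restrict_univ] at h2
    have h3 := ae_lt_top h1 (by
      rw [h2]
      have : IsFiniteMeasure (ν.map (fun z : Cir × Cir => (z.1, -z.1 - z.2))) :=
        Measure.isFiniteMeasure_map ν _
      exact measure_ne_top _ _)
    filter_upwards [h3] with c hc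
    rw [hF c _ MeasurableSet.univ]
    exact hc
  filter_upwards [(ae_ball_iff hCc).2 key, hfin] with c hc hcf
  have : IsFiniteMeasure ((σ₁.withDensity (fun a => ENNReal.ofReal (ψ (a, c)))).map
    (fun a => -a - c)) := ⟨hcf⟩
  exact ext_of_generate_finite C hCg hCp hc (hc _ hCu)

private theorem R9_wd {α : Type} [MeasurableSpace α] (σ : Measure α) [IsFiniteMeasure σ]
    (f : α → ℝ) (hf0 : ∀ a, 0 ≤ f a) (hfi : Integrable f σ) {B : Set α} (hB : MeasurableSet B) :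
    (σ.withDensity (fun a => ENNReal.ofReal (f a))).real B = ∫ a in B, f a ∂σ := by
  rw [measureReal_def, withDensity_apply _ hB,
    ← ofReal_integral_eq_lintegral_ofReal hfi.integrableOn (Filter.Eventually.of_forall hf0),
    ENNReal.toReal_ofReal (integral_nonneg hf0)]

private theorem R9_close (σ : Measure Cir) [IsFiniteMeasure σ] (f g : Cir → ℝ) (hf0 : ∀ a, 0 ≤ f a)
    (hg0 : ∀ a, 0 ≤ g a) (hfi : Integrable f σ) (hgi : Integrable g σ) {B : Set Cir}
    (hB : MeasurableSet B) :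
    |(σ.withDensity (fun a => ENNReal.ofReal (f a))).real B -
      (σ.withDensity (fun a => ENNReal.ofReal (g a))).real B| ≤ ∫ a, |f a - g a| ∂σ := by
  rw [R9_wd σ f hf0 hfi hB, R9_wd σ g hg0 hgi hB,
    ← integral_sub hfi.integrableOn hgi.integrableOn]
  calc |∫ a in B, (f a - g a) ∂σ| ≤ ∫ a in B, |f a - g a| ∂σ := abs_integral_le_integral_abs
    _ ≤ ∫ a, |f a - g a| ∂σ := setIntegral_le_integral (hfi.sub hgi).abs
        (Filter.Eventually.of_forall fun a => abs_nonneg _)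

/-- module R9.  Step (1): all measures within `k` of each other; the translation by `c - c'` is
the composition of the reflections at `c` and `c'`. -/
theorem shift (σ₁ σ₂ : Measure Cir) [IsFiniteMeasure σ₁] [IsFiniteMeasure σ₂] (ψ χ : Cir × Cir → ℝ)
    (hψm : Measurable ψ) (hχm : Measurable χ) (hψ0 : ∀ z, 0 ≤ ψ z) (hχ0 : ∀ z, 0 ≤ χ z) (Γ : Set Cir) (k : ℝ)
    (hi : ∀ c ∈ Γ, Integrable (fun a => ψ (a, c)) σ₁) (hi' : ∀ c ∈ Γ, Integrable (fun b => χ (b, c)) σ₂)
    (h1 : ∀ c ∈ Γ, ∀ c' ∈ Γ, ∫ a, |ψ (a, c) - ψ (a, c')| ∂σ₁ ≤ k)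
    (h2 : ∀ c ∈ Γ, ∀ c' ∈ Γ, ∫ b, |χ (b, c) - χ (b, c')| ∂σ₂ ≤ k)
    (h3 : ∀ c ∈ Γ, (σ₁.withDensity (fun a => ENNReal.ofReal (ψ (a, c)))).map (fun a => -a - c)
      = σ₂.withDensity (fun b => ENNReal.ofReal (χ (b, c))))
    (cs : Cir) (hcs : cs ∈ Γ) (c c' : Cir) (hc : c ∈ Γ) (hc' : c' ∈ Γ) :
    CL (σ₁.withDensity (fun a => ENNReal.ofReal (ψ (a, cs)))) (c - c') (3 * k) := by
  have _ := hψm
  have _ := hχm
  intro B hB
  set M : Cir → Measure Cir := fun c => σ₁.withDensity (fun a => ENNReal.ofReal (ψ (a, c))) with hM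
  set N : Cir → Measure Cir := fun c => σ₂.withDensity (fun b => ENNReal.ofReal (χ (b, c))) with hN
  have hrefl : ∀ c : Cir, Measurable fun a : Cir => -a - c := fun c => by fun_prop
  have hM' : ∀ c ∈ Γ, ∀ c' ∈ Γ, ∀ D : Set Cir, MeasurableSet D → |(M c).real D - (M c').real D| ≤ k :=
    fun c hc c' hc' D hD => (R9_close σ₁ (fun a => ψ (a, c)) (fun a => ψ (a, c')) (fun a => hψ0 _)
      (fun a => hψ0 _) (hi c hc) (hi c' hc') hD).trans (h1 c hc c' hc')
  have hN' : ∀ c ∈ Γ, ∀ c' ∈ Γ, ∀ D : Set Cir, MeasurableSet D → |(N c).real D - (N c').real D| ≤ k :=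
    fun c hc c' hc' D hD => (R9_close σ₂ (fun a => χ (a, c)) (fun a => χ (a, c')) (fun a => hχ0 _)
      (fun a => hχ0 _) (hi' c hc) (hi' c' hc') hD).trans (h2 c hc c' hc')
  have hMN : ∀ c ∈ Γ, ∀ D : Set Cir, MeasurableSet D →
      (M c).real ((fun a : Cir => -a - c) ⁻¹' D) = (N c).real D := by
    intro c hc D hD
    have h4 : (M c).map (fun a => -a - c) = N c := h3 c hc
    rw [← h4, measureReal_def, measureReal_def, Measure.map_apply (hrefl c) hD]
  set E : Set Cir := (fun b : Cir => -b - c') ⁻¹' B with hE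
  have hEm : MeasurableSet E := hB.preimage (hrefl c')
  have e1 : (fun x : Cir => x + (c - c')) ⁻¹' B = (fun a : Cir => -a - c) ⁻¹' E := by
    ext x
    simp only [hE, Set.mem_preimage]
    have : -(-x - c) - c' = x + (c - c') := by abel
    rw [this]
  have e2 : B = (fun a : Cir => -a - c') ⁻¹' E := by
    ext x
    simp only [hE, Set.mem_preimage]
    have : -(-x - c') - c' = x := by abel
    rw [this]
  have k1 := hMN c hc E hEm
  have k2 := hMN c' hc' E hEm
  rw [← e1] at k1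
  rw [← e2] at k2
  have k3 := hN' c hc c' hc' E hEm
  have k4 := hM' cs hcs c' hc' B hB
  have k5 := hM' cs hcs c hc _ (hB.preimage (measurable_add_const (c - c')))
  show |(M cs).real B - (M cs).real ((fun x : Cir => x + (c - c')) ⁻¹' B)| ≤ 3 * k
  rw [← k1, ← k2] at k3
  rw [abs_le] at *
  constructor <;> linarith [k3.1, k3.2, k4.1, k4.2, k5.1, k5.2]

/-- the mass of `{a ∈ E, c ∈ D}` -/
private theorem R10_mass (σ₁ σ₃ : Measure Cir) [IsFiniteMeasure σ₁] [IsFiniteMeasure σ₃]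
    (ν : Measure (Cir × Cir)) [IsFiniteMeasure ν] (ψ : Cir × Cir → ℝ) (hψm : Measurable ψ)
    (hψ0 : ∀ z, 0 ≤ ψ z) (L : ℝ) (hL : ∀ z, ψ z ≤ L)
    (h13 : ν.map (fun z => (z.1, -z.1 - z.2)) = (σ₁.prod σ₃).withDensity (fun z => ENNReal.ofReal (ψ z)))
    (E D : Set Cir) (hE : MeasurableSet E) (hD : MeasurableSet D) :
    ν.real {z | z.1 ∈ E ∧ -z.1 - z.2 ∈ D} = ∫ c in D, ∫ a in E, ψ (a, c) ∂σ₁ ∂σ₃ ∧
      Integrable (fun c => ∫ a in E, ψ (a, c) ∂σ₁) (σ₃.restrict D) := by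
  have hT13 : Measurable fun z : Cir × Cir => (z.1, -z.1 - z.2) := by fun_prop
  have hi : Integrable ψ (σ₁.prod σ₃) := Integrable.of_bound hψm.aestronglyMeasurable L
    (Filter.Eventually.of_forall fun z => by rw [Real.norm_of_nonneg (hψ0 _)]; exact hL _)
  have hi' : Integrable ψ ((σ₁.restrict E).prod (σ₃.restrict D)) := by
    rw [Measure.prod_restrict]; exact hi.integrableOn
  refine ⟨?_, hi'.integral_prod_right⟩
  have h1 : ν.real {z | z.1 ∈ E ∧ -z.1 - z.2 ∈ D} =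
      ((σ₁.prod σ₃).withDensity (fun z => ENNReal.ofReal (ψ z))).real (E ×ˢ D) := by
    rw [← h13, measureReal_def, measureReal_def, Measure.map_apply hT13 (hE.prod hD)]
    rfl
  rw [h1, R9_wd (σ₁.prod σ₃) ψ hψ0 hi (hE.prod hD), ← Measure.prod_restrict,
    integral_prod_symm _ hi']

/-- module R10.  Step (2), the gap. -/
theorem gap (σ₁ σ₂ σ₃ : Measure Cir) [IsFiniteMeasure σ₁] [IsFiniteMeasure σ₂] [IsFiniteMeasure σ₃]
    (ν : Measure (Cir × Cir)) [IsFiniteMeasure ν] (φ ψ : Cir × Cir → ℝ) (hφm : Measurable φ) (hψm : Measurable ψ)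
    (hφ0 : ∀ z, 0 ≤ φ z) (hψ0 : ∀ z, 0 ≤ ψ z) (L : ℝ) (hL : ∀ z, ψ z ≤ L)
    (h12 : ν = (σ₁.prod σ₂).withDensity (fun z => ENNReal.ofReal (φ z)))
    (h13 : ν.map (fun z => (z.1, -z.1 - z.2)) = (σ₁.prod σ₃).withDensity (fun z => ENNReal.ofReal (ψ z)))
    (Γ : Set Cir) (hΓ : MeasurableSet Γ) (hΓ0 : σ₃ Γ ≠ 0) (cs : Cir) (hcs : cs ∈ Γ) (k : ℝ) (hk : 0 < k)
    (h1 : ∀ c ∈ Γ, ∫ a, |ψ (a, c) - ψ (a, cs)| ∂σ₁ ≤ k)
    (m : Measure Cir) (hm : m = σ₁.withDensity (fun a => ENNReal.ofReal (ψ (a, cs))))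
    (hM : 10 * k ≤ m.real Set.univ) :
    ∃ δ : ℝ, 0 < δ ∧ ∀ t : ℝ, |t| ≤ δ → CL m (t : Cir) (m.real Set.univ / 2) →
      ∃ c ∈ Γ, ∃ c' ∈ Γ, (t : Cir) = c - c' := by
  classical
  have _ := hcs
  have hs : 0 < σ₃.real Γ := by
    rw [measureReal_def]; exact ENNReal.toReal_pos hΓ0 (measure_ne_top _ _)
  set s : ℝ := σ₃.real Γ with hsdef
  have hL0 : 0 ≤ L := (hψ0 (0, 0)).trans (hL _)
  have hψi : ∀ c, Integrable (fun a => ψ (a, c)) σ₁ := fun c =>
    Integrable.of_bound (hψm.comp measurable_prodMk_right).aestronglyMeasurable L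
      (Filter.Eventually.of_forall fun a => by rw [Real.norm_of_nonneg (hψ0 _)]; exact hL _)
  set S0 : Set (Cir × Cir) := {z | -z.1 - z.2 ∈ Γ} with hS0def
  have hS0 : MeasurableSet S0 := hΓ.preimage (by fun_prop : Measurable fun z : Cir × Cir => -z.1 - z.2)
  have hφi : Integrable φ (σ₁.prod σ₂) := by
    refine ⟨hφm.aestronglyMeasurable, ?_⟩
    rw [hasFiniteIntegral_iff_ofReal (Filter.Eventually.of_forall hφ0)]
    have h2 : ∫⁻ z, ENNReal.ofReal (φ z) ∂(σ₁.prod σ₂) = ν Set.univ := by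
      rw [h12, withDensity_apply _ MeasurableSet.univ, Measure.restrict_univ]
    rw [h2]; exact measure_lt_top _ _
  set φ0 : Cir × Cir → ℝ := S0.indicator φ with hφ0def
  have hφ0m : Measurable φ0 := hφm.indicator hS0
  have hφ0i : Integrable φ0 (σ₁.prod σ₂) := hφi.indicator hS0
  have hφ0n : ∀ z, 0 ≤ φ0 z := fun z => Set.indicator_nonneg (fun z _ => hφ0 z) z
  set m0 : Cir → ℝ := fun a => ∫ b, φ0 (a, b) ∂σ₂ with hm0
  have hm0m : StronglyMeasurable m0 := hφ0m.stronglyMeasurable.integral_prod_right'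
  have hm0i : Integrable m0 σ₁ := hφ0i.integral_prod_left
  have hm0n : ∀ a, 0 ≤ m0 a := fun a => integral_nonneg fun b => hφ0n _
  have key : ∀ E : Set Cir, MeasurableSet E → s * (m.real E - k) ≤ ∫ a in E, m0 a ∂σ₁ := by
    intro E hE
    have e1 : ∫ a in E, m0 a ∂σ₁ = ν.real {z | z.1 ∈ E ∧ -z.1 - z.2 ∈ Γ} := by
      have e2 := setIntegral_prod (μ := σ₁) (ν := σ₂) φ0 (s := E) (t := Set.univ) hφ0i.integrableOn
      simp only [Measure.restrict_univ] at e2
      have e0 : {z : Cir × Cir | z.1 ∈ E ∧ -z.1 - z.2 ∈ Γ} = (E ×ˢ Set.univ) ∩ S0 := by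
        ext z; simp [hS0def]
      rw [← e2, hφ0def, setIntegral_indicator hS0, e0, h12,
        R9_wd (σ₁.prod σ₂) φ hφ0 hφi ((hE.prod MeasurableSet.univ).inter hS0)]
    obtain ⟨e3, e4⟩ := R10_mass σ₁ σ₃ ν ψ hψm hψ0 L hL h13 E Γ hE hΓ
    rw [e1, e3]
    calc s * (m.real E - k) = ∫ _ in Γ, (m.real E - k) ∂σ₃ := by
          rw [setIntegral_const, smul_eq_mul]
      _ ≤ ∫ c in Γ, ∫ a in E, ψ (a, c) ∂σ₁ ∂σ₃ := by
          refine setIntegral_mono_on (integrable_const _).integrableOn e4 hΓ fun c hc => ?_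
          have e5 := R9_close σ₁ (fun a => ψ (a, c)) (fun a => ψ (a, cs)) (fun a => hψ0 _)
            (fun a => hψ0 _) (hψi c) (hψi cs) hE
          rw [← hm, R9_wd σ₁ (fun a => ψ (a, c)) (fun a => hψ0 _) (hψi c) hE] at e5
          have e6 := (abs_le.1 (e5.trans (h1 c hc))).1
          linarith
  -- the bad set `E1`
  set R : ℝ := σ₁.real Set.univ with hR
  have hR0 : 0 ≤ R := measureReal_nonneg
  set c1 : ℝ := k * s / (R + 1) with hc1
  have hc10 : 0 < c1 := by positivity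
  set E1 : Set Cir := {a | m0 a < c1} with hE1
  have hE1m : MeasurableSet E1 := measurableSet_lt hm0m.measurable measurable_const
  have hmE1 : m.real E1 ≤ 2 * k := by
    have e1 := key E1 hE1m
    have e2 : ∫ a in E1, m0 a ∂σ₁ ≤ c1 * R := by
      calc ∫ a in E1, m0 a ∂σ₁ ≤ ∫ _ in E1, c1 ∂σ₁ :=
            setIntegral_mono_on hm0i.integrableOn (integrable_const _).integrableOn hE1m
              fun a ha => le_of_lt ha
        _ = σ₁.real E1 * c1 := by rw [setIntegral_const, smul_eq_mul]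
        _ ≤ c1 * R := by
            rw [mul_comm]
            exact mul_le_mul_of_nonneg_left (measureReal_mono (Set.subset_univ _)
              (measure_ne_top _ _)) hc10.le
    have e3 : c1 * R ≤ k * s := by
      rw [hc1, div_mul_eq_mul_div, div_le_iff₀ (by positivity)]
      have : 0 ≤ k * s := by positivity
      nlinarith
    have e4 : s * (m.real E1 - k) ≤ s * k := by linarith
    have e5 := le_of_mul_le_mul_left e4 hs
    linarith
  -- the Lusin set
  obtain ⟨A1, hA1, hA1ε, hA1i, δ, hδ, hA1δ⟩ := lus σ₁ σ₂ φ0 hφ0m hφ0i (k / (L + 1)) (c1 / 2)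
    (by positivity) (by positivity)
  have hmA1 : m.real A1ᶜ ≤ k := by
    rw [hm, R9_wd σ₁ (fun a => ψ (a, cs)) (fun a => hψ0 _) (hψi cs) hA1.compl]
    calc ∫ a in A1ᶜ, ψ (a, cs) ∂σ₁ ≤ ∫ _ in A1ᶜ, L ∂σ₁ :=
          setIntegral_mono_on (hψi cs).integrableOn (integrable_const _).integrableOn hA1.compl
            fun a _ => hL _
      _ = σ₁.real A1ᶜ * L := by rw [setIntegral_const, smul_eq_mul]
      _ ≤ k / (L + 1) * L := mul_le_mul_of_nonneg_right hA1ε hL0
      _ ≤ k := by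
          rw [div_mul_eq_mul_div, div_le_iff₀ (by positivity)]
          nlinarith
  have hmfin : IsFiniteMeasure m := by
    refine ⟨?_⟩
    rw [hm, withDensity_apply _ MeasurableSet.univ, Measure.restrict_univ]
    exact (hψi cs).lintegral_lt_top
  refine ⟨δ, hδ, fun t ht hcl => ?_⟩
  -- a good point `a`
  obtain ⟨a, haA, haE, hatA⟩ : ∃ a, a ∈ A1 ∧ a ∉ E1 ∧ a - (t : Cir) ∈ A1 := by
    by_contra hcon
    push Not at hcon
    set B : Set Cir := (A1ᶜ ∪ E1)ᶜ with hB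
    have hBm : MeasurableSet B := (hA1.compl.union hE1m).compl
    have h2 := hcl B hBm
    have h3 : m.real ((fun x : Cir => x + (t : Cir)) ⁻¹' B) ≤ m.real A1ᶜ := by
      refine measureReal_mono ?_ (measure_ne_top _ _)
      intro x hx hxA
      have hx' : x + (t : Cir) ∉ A1ᶜ ∪ E1 := hx
      rw [Set.mem_union, not_or] at hx'
      have := hcon (x + (t : Cir)) (not_not.1 hx'.1) hx'.2
      rw [add_sub_cancel_right] at this
      exact this hxA
    have h4 : m.real Set.univ ≤ m.real B + m.real (A1ᶜ ∪ E1) := by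
      have h5 : (Set.univ : Set Cir) = B ∪ (A1ᶜ ∪ E1) := (Set.compl_union_self _).symm
      rw [h5]; exact measureReal_union_le _ _
    have h5 : m.real (A1ᶜ ∪ E1) ≤ m.real A1ᶜ + m.real E1 := measureReal_union_le _ _
    have h6 := (abs_le.1 h2).2
    linarith
  -- the point `b`
  have hne : ‖(t : Cir)‖ ≤ |t| := by
    have h2 := QuotientAddGroup.norm_mk_le_norm (S := AddSubgroup.zmultiples (1 : ℝ)) (m := t)
    exact h2
  have hclose := hA1δ a haA _ hatA (by
    rw [dist_eq_norm]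
    have : a - (a - (t : Cir)) = (t : Cir) := by abel
    rw [this]
    exact hne.trans ht)
  obtain ⟨b, hb1, hb2⟩ : ∃ b, φ0 (a, b) ≠ 0 ∧ φ0 (a - (t : Cir), b) ≠ 0 := by
    by_contra hcon
    push Not at hcon
    have h2 : m0 a ≤ ∫ b, |φ0 (a, b) - φ0 (a - (t : Cir), b)| ∂σ₂ := by
      refine integral_mono (hA1i a haA) ((hA1i a haA).sub (hA1i _ hatA)).abs fun b => ?_
      by_cases hb : φ0 (a, b) = 0
      · show φ0 (a, b) ≤ _
        rw [hb]; exact abs_nonneg _
      · show φ0 (a, b) ≤ |φ0 (a, b) - φ0 (a - (t : Cir), b)|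
        rw [hcon b hb, sub_zero]; exact le_abs_self _
    have h3 : c1 ≤ m0 a := not_lt.1 haE
    linarith
  have hin : ∀ z, φ0 z ≠ 0 → -z.1 - z.2 ∈ Γ := by
    intro z hz
    by_contra h2
    exact hz (Set.indicator_of_notMem (show z ∉ S0 from h2) φ)
  refine ⟨_, hin _ hb2, _, hin _ hb1, ?_⟩
  simp only
  abel

/-- module R11.  Step (3). -/
theorem inf_of (σ₁ σ₂ : Measure Cir) [IsFiniteMeasure σ₁] [IsFiniteMeasure σ₂] (ν : Measure (Cir × Cir))
    [IsFiniteMeasure ν] (h12 : ν ≪ σ₁.prod σ₂) (ha : ∀ t, σ₁ {t} = 0) (Γ : Set Cir)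
    (hpos : ν {z | -z.1 - z.2 ∈ Γ} ≠ 0) : Γ.Infinite := by
  intro hfin
  apply hpos
  have h1 : {z : Cir × Cir | -z.1 - z.2 ∈ Γ} = ⋃ g ∈ Γ, {z | -z.1 - z.2 = g} := by
    ext z; simp
  rw [h1, measure_biUnion_null_iff hfin.countable]
  intro g _
  apply h12
  have hm : MeasurableSet {z : Cir × Cir | -z.1 - z.2 = g} :=
    measurableSet_eq_fun (by fun_prop) measurable_const
  rw [Measure.prod_apply_symm hm]
  have h2 : ∀ y : Cir, σ₁ ((fun x => (x, y)) ⁻¹' {z : Cir × Cir | -z.1 - z.2 = g}) = 0 := by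
    intro y
    have h3 : ((fun x => (x, y)) ⁻¹' {z : Cir × Cir | -z.1 - z.2 = g}) ⊆ {-g - y} := by
      intro x hx
      have hx' : -x - y = g := hx
      rw [Set.mem_singleton_iff, ← hx']
      abel
    exact measure_mono_null h3 (ha _)
  exact (lintegral_congr h2).trans lintegral_zero

/-- module R12.  Assembly of sections (1) - (5) for given densities, one of them bounded.
(`k = c0/100`; choose `Γ` by `sel` twice inside `{c | M_c univ ≥ c0, identity of dis}`.) -/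
theorem rigid0 (σ₁ σ₂ σ₃ : Measure Cir) [IsFiniteMeasure σ₁] [IsFiniteMeasure σ₂] [IsFiniteMeasure σ₃]
    (ν : Measure (Cir × Cir)) [IsFiniteMeasure ν] (φ ψ χ : Cir × Cir → ℝ) (hφm : Measurable φ) (hψm : Measurable ψ)
    (hχm : Measurable χ) (hφ0 : ∀ z, 0 ≤ φ z) (hψ0 : ∀ z, 0 ≤ ψ z) (hχ0 : ∀ z, 0 ≤ χ z) (L : ℝ)
    (hL : ∀ z, ψ z ≤ L) (hs : σ₁ ⟂ₘ (volume : Measure Cir)) (ha : ∀ t, σ₁ {t} = 0)
    (h12 : ν = (σ₁.prod σ₂).withDensity (fun z => ENNReal.ofReal (φ z)))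
    (h13 : ν.map (fun z => (z.1, -z.1 - z.2)) = (σ₁.prod σ₃).withDensity (fun z => ENNReal.ofReal (ψ z)))
    (h23 : ν.map (fun z => (z.2, -z.1 - z.2)) = (σ₂.prod σ₃).withDensity (fun z => ENNReal.ofReal (χ z))) :
    ν = 0 := by
  classical
  by_contra hν
  have hν1 : 0 < ν.real Set.univ := by
    rw [measureReal_def]
    exact ENNReal.toReal_pos (fun h => hν (Measure.measure_univ_eq_zero.1 h)) (measure_ne_top _ _)
  have hψi : ∀ c, Integrable (fun a => ψ (a, c)) σ₁ := fun c =>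
    Integrable.of_bound (hψm.comp measurable_prodMk_right).aestronglyMeasurable L
      (Filter.Eventually.of_forall fun a => by rw [Real.norm_of_nonneg (hψ0 _)]; exact hL _)
  have hψi2 : Integrable ψ (σ₁.prod σ₃) := Integrable.of_bound hψm.aestronglyMeasurable L
    (Filter.Eventually.of_forall fun z => by rw [Real.norm_of_nonneg (hψ0 _)]; exact hL _)
  have hχi2 : Integrable χ (σ₂.prod σ₃) := by
    refine ⟨hχm.aestronglyMeasurable, ?_⟩
    rw [hasFiniteIntegral_iff_ofReal (Filter.Eventually.of_forall hχ0)]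
    have h2 : ∫⁻ z, ENNReal.ofReal (χ z) ∂(σ₂.prod σ₃) =
        ν.map (fun z : Cir × Cir => (z.2, -z.1 - z.2)) Set.univ := by
      rw [h23, withDensity_apply _ MeasurableSet.univ, Measure.restrict_univ]
    have : IsFiniteMeasure (ν.map (fun z : Cir × Cir => (z.2, -z.1 - z.2))) :=
      Measure.isFiniteMeasure_map ν _
    rw [h2]; exact measure_lt_top _ _
  set w : Cir → ℝ := fun c => ∫ a, ψ (a, c) ∂σ₁ with hw
  have hwm : Measurable w := hψm.stronglyMeasurable.integral_prod_left'.measurable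
  have hmass : ∀ D : Set Cir, MeasurableSet D →
      ν.real {z | -z.1 - z.2 ∈ D} = ∫ c in D, w c ∂σ₃ ∧ Integrable w (σ₃.restrict D) := by
    intro D hD
    have h1 := R10_mass σ₁ σ₃ ν ψ hψm hψ0 L hL h13 Set.univ D MeasurableSet.univ hD
    simp only [Measure.restrict_univ, Set.mem_univ, true_and] at h1
    exact h1
  -- the level `c0`
  set R : ℝ := σ₃.real Set.univ with hR
  have hR0 : 0 ≤ R := measureReal_nonneg
  set c0 : ℝ := ν.real Set.univ / (2 * (R + 1)) with hc0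
  have hc00 : 0 < c0 := by positivity
  set G0 : Set Cir := {c | c0 ≤ w c} with hG0
  have hG0m : MeasurableSet G0 := measurableSet_le measurable_const hwm
  have hG0p : σ₃ G0 ≠ 0 := by
    intro h0
    obtain ⟨h1, h2⟩ := hmass Set.univ MeasurableSet.univ
    simp only [Set.mem_univ, Set.ofPred_true, Measure.restrict_univ] at h1 h2
    have h3 : ∀ᵐ c ∂σ₃, w c ≤ c0 := by
      have h4 : ∀ᵐ c ∂σ₃, c ∉ G0 := measure_eq_zero_iff_ae_notMem.1 h0
      filter_upwards [h4] with c hc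
      exact (not_le.1 hc).le
    have h5 : ∫ c, w c ∂σ₃ ≤ R * c0 := by
      have h6 := integral_mono_ae h2 (integrable_const c0) h3
      rwa [integral_const, smul_eq_mul] at h6
    rw [← h1, hc0, mul_div_assoc', le_div_iff₀ (by positivity)] at h5
    nlinarith
  -- the identity of `dis`
  have hdis := dis σ₁ σ₂ σ₃ ν ψ χ hψm hχm hψ0 hχ0 h13 h23
  set bad : Set Cir := toMeasurable σ₃ {c | ¬ ((σ₁.withDensity (fun a => ENNReal.ofReal (ψ (a, c)))).map
    (fun a => -a - c) = σ₂.withDensity (fun b => ENNReal.ofReal (χ (b, c))))} with hbad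
  have hbad0 : σ₃ bad = 0 := by rw [hbad, measure_toMeasurable]; exact hdis
  have hbadm : MeasurableSet bad := measurableSet_toMeasurable _ _
  have hGm : MeasurableSet (G0 \ bad) := hG0m.diff hbadm
  have hGp : σ₃ (G0 \ bad) ≠ 0 := by rw [measure_sdiff_null hbad0]; exact hG0p
  set k : ℝ := c0 / 100 with hk
  have hk0 : 0 < k := by positivity
  obtain ⟨Γ₁, hΓ₁G, hΓ₁m, hΓ₁p, -, hΓ₁c⟩ := sel σ₁ σ₃ ψ hψm hψi2 (G0 \ bad) hGm hGp k hk0
  obtain ⟨Γ, hΓΓ₁, hΓm, hΓp, hΓi, hΓc⟩ := sel σ₂ σ₃ χ hχm hχi2 Γ₁ hΓ₁m hΓ₁p k hk0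
  have hΓne : Γ.Nonempty := by
    rw [Set.nonempty_iff_ne_empty]
    intro h0; rw [h0] at hΓp; exact hΓp measure_empty
  obtain ⟨cs, hcs⟩ := hΓne
  have hΓG : ∀ c ∈ Γ, c ∈ G0 \ bad := fun c hc => hΓ₁G (hΓΓ₁ hc)
  have hΓd : ∀ c ∈ Γ, (σ₁.withDensity (fun a => ENNReal.ofReal (ψ (a, c)))).map (fun a => -a - c)
      = σ₂.withDensity (fun b => ENNReal.ofReal (χ (b, c))) := by
    intro c hc
    by_contra h1
    exact (hΓG c hc).2 (subset_toMeasurable _ _ h1)
  set m : Measure Cir := σ₁.withDensity (fun a => ENNReal.ofReal (ψ (a, cs))) with hm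
  have hmfin : IsFiniteMeasure m := by
    refine ⟨?_⟩
    rw [hm, withDensity_apply _ MeasurableSet.univ, Measure.restrict_univ]
    exact (hψi cs).lintegral_lt_top
  have hmu : m.real Set.univ = w cs := by
    rw [hm, R9_wd σ₁ (fun a => ψ (a, cs)) (fun a => hψ0 _) (hψi cs) MeasurableSet.univ,
      Measure.restrict_univ]
  have hmc : c0 ≤ m.real Set.univ := by rw [hmu]; exact (hΓG cs hcs).1
  have hms : m ⟂ₘ (volume : Measure Cir) :=
    hs.mono_ac (withDensity_absolutelyContinuous _ _) Measure.AbsolutelyContinuous.rfl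
  obtain ⟨δ, hδ, hgap⟩ := gap σ₁ σ₂ σ₃ ν φ ψ hφm hψm hφ0 hψ0 L hL h12 h13 Γ hΓm hΓp cs hcs k hk0
    (fun c hc => hΓ₁c c (hΓΓ₁ hc) cs (hΓΓ₁ hcs)) m hm (by linarith)
  have hinf : Γ.Infinite := by
    refine inf_of σ₁ σ₂ ν (by rw [h12]; exact withDensity_absolutelyContinuous _ _) ha Γ ?_
    intro h0
    obtain ⟨h1, h2⟩ := hmass Γ hΓm
    have h3 : c0 * σ₃.real Γ ≤ ∫ c in Γ, w c ∂σ₃ := by
      have h4 : ∫ _ in Γ, c0 ∂σ₃ ≤ ∫ c in Γ, w c ∂σ₃ :=
        setIntegral_mono_on (integrable_const _).integrableOn h2 hΓm fun c hc => (hΓG c hc).1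
      rwa [setIntegral_const, smul_eq_mul, mul_comm] at h4
    have h5 : 0 < σ₃.real Γ := by
      rw [measureReal_def]; exact ENNReal.toReal_pos hΓp (measure_ne_top _ _)
    have h6 : ν.real {z : Cir × Cir | -z.1 - z.2 ∈ Γ} = 0 := by
      rw [measureReal_def, h0]; rfl
    rw [← h1, h6] at h3
    nlinarith [mul_pos hc00 h5]
  exact core m hms Γ k δ hk0 (by linarith) hδ
    (fun c hc c' hc' => shift σ₁ σ₂ ψ χ hψm hχm hψ0 hχ0 Γ k (fun c _ => hψi c) hΓi
      (fun c hc c' hc' => hΓ₁c c (hΓΓ₁ hc) c' (hΓΓ₁ hc')) hΓc hΓd cs hcs c c' hc hc') hgap hinf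

/-- module R13.  The rigidity lemma: Radon-Nikodym densities, restrict `ν` to `{ψ ≤ L}`. -/
theorem rigid (σ₁ σ₂ σ₃ : Measure Cir) [IsFiniteMeasure σ₁] [IsFiniteMeasure σ₂] [IsFiniteMeasure σ₃]
    (ν : Measure (Cir × Cir)) [IsFiniteMeasure ν] (hs : σ₁ ⟂ₘ (volume : Measure Cir)) (ha : ∀ t, σ₁ {t} = 0)
    (h12 : ν ≪ σ₁.prod σ₂) (h13 : ν.map (fun z => (z.1, -z.1 - z.2)) ≪ σ₁.prod σ₃)
    (h23 : ν.map (fun z => (z.2, -z.1 - z.2)) ≪ σ₂.prod σ₃) : ν = 0 := by
  have key : ∀ (μ₁ μ₂ : Measure Cir) [IsFiniteMeasure μ₁] [IsFiniteMeasure μ₂]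
      (ρ : Measure (Cir × Cir)) [IsFiniteMeasure ρ], ρ ≪ μ₁.prod μ₂ →
      ∃ f : Cir × Cir → ℝ, Measurable f ∧ (∀ z, 0 ≤ f z) ∧
        ρ = (μ₁.prod μ₂).withDensity (fun z => ENNReal.ofReal (f z)) := by
    intro μ₁ μ₂ _ _ ρ _ h
    refine ⟨fun z => (ρ.rnDeriv (μ₁.prod μ₂) z).toReal,
      (Measure.measurable_rnDeriv _ _).ennreal_toReal, fun z => ENNReal.toReal_nonneg, ?_⟩
    conv_lhs => rw [← Measure.withDensity_rnDeriv_eq ρ _ h]
    apply withDensity_congr_ae
    filter_upwards [Measure.rnDeriv_lt_top ρ (μ₁.prod μ₂)] with z hz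
    rw [ENNReal.ofReal_toReal hz.ne]
  have hT13 : Measurable fun z : Cir × Cir => (z.1, -z.1 - z.2) := by fun_prop
  have hT23 : Measurable fun z : Cir × Cir => (z.2, -z.1 - z.2) := by fun_prop
  have hf13 : IsFiniteMeasure (ν.map (fun z : Cir × Cir => (z.1, -z.1 - z.2))) :=
    Measure.isFiniteMeasure_map ν _
  obtain ⟨ψ, hψm, hψ0, hψ⟩ := key σ₁ σ₃ _ h13
  have hn : ∀ n : ℕ, ν {z | ψ (z.1, -z.1 - z.2) ≤ n} = 0 := by
    intro n
    set D : Set (Cir × Cir) := {w | ψ w ≤ n} with hD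
    have hDm : MeasurableSet D := measurableSet_le hψm measurable_const
    set S : Set (Cir × Cir) := (fun z : Cir × Cir => (z.1, -z.1 - z.2)) ⁻¹' D with hS
    have hSm : MeasurableSet S := hDm.preimage hT13
    have hac : ν.restrict S ≪ ν := Measure.restrict_le_self.absolutelyContinuous
    obtain ⟨φ, hφm, hφ0, hφ⟩ := key σ₁ σ₂ (ν.restrict S) (hac.trans h12)
    have hf23 : IsFiniteMeasure ((ν.restrict S).map (fun z : Cir × Cir => (z.2, -z.1 - z.2))) :=
      Measure.isFiniteMeasure_map _ _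
    obtain ⟨χ, hχm, hχ0, hχ⟩ := key σ₂ σ₃
      ((ν.restrict S).map (fun z : Cir × Cir => (z.2, -z.1 - z.2))) ((hac.map hT23).trans h23)
    have h1 : (ν.restrict S).map (fun z : Cir × Cir => (z.1, -z.1 - z.2)) =
        (σ₁.prod σ₃).withDensity (fun z => ENNReal.ofReal (D.indicator ψ z)) := by
      rw [hS, ← Measure.restrict_map hT13 hDm, hψ, restrict_withDensity hDm,
        ← withDensity_indicator hDm]
      congr 1
      ext z
      by_cases hz : z ∈ D
      · rw [Set.indicator_of_mem hz, Set.indicator_of_mem hz]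
      · rw [Set.indicator_of_notMem hz, Set.indicator_of_notMem hz, ENNReal.ofReal_zero]
    have h2 := rigid0 σ₁ σ₂ σ₃ (ν.restrict S) φ (D.indicator ψ) χ hφm (hψm.indicator hDm) hχm hφ0
      (fun z => Set.indicator_nonneg (fun z _ => hψ0 z) z) hχ0 n (by
        intro z
        by_cases hz : z ∈ D
        · rw [Set.indicator_of_mem hz]; exact hz
        · rw [Set.indicator_of_notMem hz]; exact Nat.cast_nonneg n) hs ha hφ h1 hχ
    have h3 : (ν.restrict S) Set.univ = 0 := by rw [h2]; rfl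
    rwa [Measure.restrict_apply_univ] at h3
  rw [← Measure.measure_univ_eq_zero]
  have h1 : (Set.univ : Set (Cir × Cir)) ⊆ ⋃ n : ℕ, {z | ψ (z.1, -z.1 - z.2) ≤ n} := by
    intro z _
    obtain ⟨n, hn⟩ := exists_nat_ge (ψ (z.1, -z.1 - z.2))
    exact Set.mem_iUnion.2 ⟨n, hn⟩
  exact measure_mono_null h1 (measure_iUnion_null hn)

end Pool.Agent.Sgs
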