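import Pool.Agent.Sgs.Bas
import Pool.Agent.Sgs.Avg
import Pool.Agent.Sgs.Cor

/-!
# Three slots (text, section 4) and spectral measures
-/

set_option autoImplicit false

namespace Pool.Agent.Sgs

open MeasureTheory Filter Finset
open scoped Topology ENNReal

/-! ## module S0: spectral measures of simple combinations -/

/-! ## module S0: spectral measures of simple combinations -/

private theorem S0_inv {X : Type} [MeasurableSpace X] (μ : Measure X) (τ : ℤ → X → X)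
    (hτ : Sys μ τ) (n : ℤ) {F : X → ℂ} (hF : Measurable F) :
    ∫ x, F (τ n x) ∂μ = ∫ x, F x ∂μ := by
  have h1 := integral_map (μ := μ) (hτ.mp n).measurable.aemeasurable (f := F)
    hF.aestronglyMeasurable
  rw [(hτ.mp n).map_eq] at h1
  exact h1.symm

private theorem S0_int {X : Type} [MeasurableSpace X] (μ : Measure X) [IsFiniteMeasure μ]
    {F : X → ℂ} (hF : Bd F) : Integrable F μ := by
  obtain ⟨h1, C, h2⟩ := hF
  exact Integrable.of_bound h1.aestronglyMeasurable C (Eventually.of_forall h2)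

private theorem S0_fint (σ : Measure Cir) [IsFiniteMeasure σ] (n : ℤ) :
    Integrable (fun t : Cir => (fourier n t : ℂ)) σ := by
  refine Integrable.of_bound (fourier n).continuous.aestronglyMeasurable 1
    (Eventually.of_forall fun t => ?_)
  rw [fourier_apply, Circle.norm_coe]

theorem sp_translate {X : Type} [MeasurableSpace X] (μ : Measure X) [IsProbabilityMeasure μ] (τ : ℤ → X → X)
    (hτ : Sys μ τ) (f : X → ℂ) (hf : Bd f) (σ : Measure Cir) (h : Sp μ τ f σ) (m n : ℤ) :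
    ∫ x, f (τ m x) * (starRingEnd ℂ) (f (τ n x)) ∂μ = ∫ t, fourier (m - n) t ∂σ := by
  have h1 : ∀ x, f (τ m x) * (starRingEnd ℂ) (f (τ n x)) =
      (fun y => f (τ (m - n) y) * (starRingEnd ℂ) (f y)) (τ n x) := fun x => by
    simp only
    rw [← hτ.add, sub_add_cancel]
  simp only [h1]
  have h2 := S0_inv μ τ hτ n (F := fun y => f (τ (m - n) y) * (starRingEnd ℂ) (f y))
    ((hf.1.comp (hτ.mp (m - n)).measurable).mul (Complex.continuous_conj.measurable.comp hf.1))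
  exact h2.trans (h.2 (m - n))

/-- the total mass of the spectral measure -/
theorem sp_mass {X : Type} [MeasurableSpace X] (μ : Measure X) [IsProbabilityMeasure μ] (τ : ℤ → X → X)
    (hτ : Sys μ τ) (f : X → ℂ) (hf : Bd f) (σ : Measure Cir) (h : Sp μ τ f σ) :
    (σ Set.univ).toReal = ∫ x, ‖f x‖ ^ 2 ∂μ := by
  have hfin := h.1
  have h1 := h.2 0
  have h2 : ∫ x, f (τ 0 x) * (starRingEnd ℂ) (f x) ∂μ = ((∫ x, ‖f x‖ ^ 2 ∂μ : ℝ) : ℂ) := by
    rw [← integral_complex_ofReal]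
    refine integral_congr_ae (Eventually.of_forall fun x => ?_)
    simp only
    rw [hτ.zero, Complex.mul_conj, Complex.normSq_eq_norm_sq]
  rw [h2] at h1
  have h3 : ∫ t, fourier (0 : ℤ) t ∂σ = (((σ Set.univ).toReal : ℝ) : ℂ) := by
    simp [measureReal_def]
  rw [h3] at h1
  exact (Complex.ofReal_injective h1).symm

/-- constant plus mean zero function -/
theorem sp_const {X : Type} [MeasurableSpace X] (μ : Measure X) [IsProbabilityMeasure μ] (τ : ℤ → X → X)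
    (hτ : Sys μ τ) (g : X → ℂ) (hg : Bd g) (h0 : ∫ x, g x ∂μ = 0) (c : ℂ) (σ : Measure Cir) (h : Sp μ τ g σ) :
    ∃ σ' : Measure Cir, Sp μ τ (fun x => c + g x) σ' := by
  have hfin := h.1
  have hgi := S0_int μ hg
  refine ⟨σ + ENNReal.ofReal (‖c‖ ^ 2) • Measure.dirac 0, ?_, fun n => ?_⟩
  · have : IsFiniteMeasure (ENNReal.ofReal (‖c‖ ^ 2) • Measure.dirac (0 : Cir)) :=
      Measure.smul_finite _ ENNReal.ofReal_ne_top
    infer_instance
  · have hfin2 : IsFiniteMeasure (ENNReal.ofReal (‖c‖ ^ 2) • Measure.dirac (0 : Cir)) :=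
      Measure.smul_finite _ ENNReal.ofReal_ne_top
    have hm : Measurable fun x => g (τ n x) := hg.1.comp (hτ.mp n).measurable
    obtain ⟨C, hC⟩ := hg.2
    have hb1 : Bd fun x => g (τ n x) := ⟨hm, C, fun x => hC _⟩
    have hi1 := S0_int μ hb1
    have hci : Integrable (fun x => (starRingEnd ℂ) (g x)) μ := by
      refine S0_int μ ⟨Complex.continuous_conj.measurable.comp hg.1, C, fun x => ?_⟩
      rw [RCLike.norm_conj]
      exact hC x
    have hpi : Integrable (fun x => g (τ n x) * (starRingEnd ℂ) (g x)) μ := by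
      refine S0_int μ ⟨hm.mul (Complex.continuous_conj.measurable.comp hg.1), C * C,
        fun x => ?_⟩
      rw [norm_mul, RCLike.norm_conj]
      exact mul_le_mul (hC _) (hC x) (norm_nonneg _) ((norm_nonneg _).trans (hC x))
    have h1 : ∀ x, (c + g (τ n x)) * (starRingEnd ℂ) (c + g x) =
        c * (starRingEnd ℂ) c + c * (starRingEnd ℂ) (g x) + (starRingEnd ℂ) c * g (τ n x) +
          g (τ n x) * (starRingEnd ℂ) (g x) := fun x => by
      rw [map_add]; ring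
    simp only [h1]
    have e1 : ∫ x, (starRingEnd ℂ) (g x) ∂μ = 0 := by
      rw [integral_conj, h0, map_zero]
    have e2 : ∫ x, g (τ n x) ∂μ = 0 := by
      rw [S0_inv μ τ hτ n hg.1, h0]
    have i0 : Integrable (fun _ : X => c * (starRingEnd ℂ) c) μ := integrable_const _
    have i1 : Integrable (fun x => c * (starRingEnd ℂ) (g x)) μ := hci.const_mul c
    have i2 : Integrable (fun x => (starRingEnd ℂ) c * g (τ n x)) μ := hi1.const_mul _
    have i01 : Integrable (fun x => c * (starRingEnd ℂ) c + c * (starRingEnd ℂ) (g x)) μ :=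
      i0.add i1
    have i012 : Integrable (fun x => c * (starRingEnd ℂ) c + c * (starRingEnd ℂ) (g x) +
      (starRingEnd ℂ) c * g (τ n x)) μ := i01.add i2
    have e1' : ∫ x, c * (starRingEnd ℂ) (g x) ∂μ = 0 := by
      rw [integral_const_mul, e1, mul_zero]
    have e2' : ∫ x, (starRingEnd ℂ) c * g (τ n x) ∂μ = 0 := by
      rw [integral_const_mul, e2, mul_zero]
    rw [integral_add i012 hpi, integral_add i01 i2, integral_add i0 i1, e1', e2', h.2 n,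
      integral_add_measure (S0_fint σ n) (S0_fint _ n),
      integral_smul_measure, integral_dirac, ENNReal.toReal_ofReal (sq_nonneg _)]
    simp only [integral_const, probReal_univ, one_smul, add_zero]
    rw [Complex.mul_conj, Complex.normSq_eq_norm_sq]
    have e3 : (fourier n (0 : Cir) : ℂ) = 1 := by
      rw [fourier_apply, smul_zero, AddCircle.toCircle_zero, Circle.coe_one]
    rw [e3, Complex.real_smul, mul_one, add_comm]

/-- complex conjugate: the image of `σ` under `t ↦ -t` -/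
theorem sp_conj {X : Type} [MeasurableSpace X] (μ : Measure X) [IsProbabilityMeasure μ] (τ : ℤ → X → X)
    (hτ : Sys μ τ) (g : X → ℂ) (hg : Bd g) (σ : Measure Cir) (h : Sp μ τ g σ) :
    Sp μ τ (fun x => (starRingEnd ℂ) (g x)) (σ.map (fun t => -t)) := by
  have hfin := h.1
  refine ⟨Measure.isFiniteMeasure_map σ _, fun n => ?_⟩
  have h1 : ∫ x, (starRingEnd ℂ) (g (τ n x)) * (starRingEnd ℂ) ((starRingEnd ℂ) (g x)) ∂μ =
      (starRingEnd ℂ) (∫ x, g (τ n x) * (starRingEnd ℂ) (g x) ∂μ) := by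
    rw [← integral_conj]
    refine integral_congr_ae (Eventually.of_forall fun x => ?_)
    simp only
    rw [map_mul]
  have h2 : ∫ t, (fourier n t : ℂ) ∂(σ.map fun t => -t) = ∫ t, (fourier n (-t) : ℂ) ∂σ :=
    integral_map measurable_neg.aemeasurable (fourier n).continuous.aestronglyMeasurable
  rw [h1, h.2 n, h2, ← integral_conj]
  refine integral_congr_ae (Eventually.of_forall fun t => ?_)
  simp only
  rw [fourier_apply, fourier_apply, smul_neg, AddCircle.toCircle_neg, Circle.coe_inv_eq_conj]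

/-- a finite product of Fourier transforms is a Fourier transform (convolution) -/
theorem conv (J : Finset ℤ) (σ : ℤ → Measure Cir) (hσ : ∀ i ∈ J, IsFiniteMeasure (σ i)) :
    ∃ ρ : Measure Cir, IsFiniteMeasure ρ ∧ ∀ n : ℤ, ∫ t, fourier n t ∂ρ = ∏ i ∈ J, ∫ t, fourier n t ∂(σ i) := by
  classical
  induction J using Finset.induction_on with
  | empty =>
    refine ⟨Measure.dirac 0, inferInstance, fun n => ?_⟩
    rw [integral_dirac, prod_empty, fourier_apply, smul_zero, AddCircle.toCircle_zero,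
      Circle.coe_one]
  | insert a J ha ih =>
    obtain ⟨ρ, h1, h2⟩ := ih fun i hi => hσ i (mem_insert_of_mem hi)
    have h3 : IsFiniteMeasure (σ a) := hσ a (mem_insert_self a J)
    have hm : Measurable fun z : Cir × Cir => z.1 + z.2 := measurable_fst.add measurable_snd
    refine ⟨((σ a).prod ρ).map (fun z => z.1 + z.2), Measure.isFiniteMeasure_map _ _,
      fun n => ?_⟩
    rw [integral_map hm.aemeasurable (fourier n).continuous.aestronglyMeasurable,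
      prod_insert ha, ← h2 n, ← integral_prod_mul]
    refine integral_congr_ae (Eventually.of_forall fun z => ?_)
    simp only
    rw [fourier_apply, fourier_apply, fourier_apply, smul_add, AddCircle.toCircle_add,
      Circle.coe_mul]

/-! ## module S1: quadratic sums -/

private theorem S1_sub (m n : ℤ) (t : Cir) :
    (fourier (m - n) t : ℂ) = fourier m t * (starRingEnd ℂ) (fourier n t) := by
  rw [sub_eq_add_neg, fourier_add, fourier_neg]

/-- expand the square on both sides -/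
theorem sq_prod (σ σ' : Measure Cir) [IsFiniteMeasure σ] [IsFiniteMeasure σ'] (s : Finset (ℤ × ℤ)) (a : ℤ × ℤ → ℂ) :
    ((∫ z, ‖∑ p ∈ s, a p * (fourier p.1 z.1 * fourier p.2 z.2)‖ ^ 2 ∂(σ.prod σ') : ℝ) : ℂ)
      = ∑ p ∈ s, ∑ q ∈ s, a p * (starRingEnd ℂ) (a q)
          * ((∫ t, fourier (p.1 - q.1) t ∂σ) * ∫ t, fourier (p.2 - q.2) t ∂σ') := by
  have hpt : ∀ z : Cir × Cir,
      ((‖∑ p ∈ s, a p * (fourier p.1 z.1 * fourier p.2 z.2)‖ ^ 2 : ℝ) : ℂ) =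
      ∑ p ∈ s, ∑ q ∈ s, a p * (starRingEnd ℂ) (a q) *
        ((fourier (p.1 - q.1) z.1 : ℂ) * (fourier (p.2 - q.2) z.2 : ℂ)) := fun z => by
    rw [← Complex.normSq_eq_norm_sq, ← Complex.mul_conj, map_sum, sum_mul_sum]
    refine sum_congr rfl fun p _ => sum_congr rfl fun q _ => ?_
    rw [map_mul, map_mul, S1_sub, S1_sub]
    ring
  rw [← integral_complex_ofReal]
  simp only [hpt]
  have hi : ∀ p q : ℤ × ℤ, Integrable (fun z : Cir × Cir => a p * (starRingEnd ℂ) (a q) *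
      ((fourier (p.1 - q.1) z.1 : ℂ) * (fourier (p.2 - q.2) z.2 : ℂ))) (σ.prod σ') :=
    fun p q => ((S0_fint σ _).mul_prod (S0_fint σ' _)).const_mul _
  rw [integral_finsetSum _ fun p _ => integrable_finsetSum _ fun q _ => hi p q]
  refine sum_congr rfl fun p _ => ?_
  rw [integral_finsetSum _ fun q _ => hi p q]
  refine sum_congr rfl fun q _ => ?_
  rw [integral_const_mul, ← integral_prod_mul]

theorem quad {X : Type} [MeasurableSpace X] (μ : Measure X) [IsProbabilityMeasure μ] (W : ℕ → ℝ)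
    (Φ : ℤ × ℤ → ℤ → X → ℂ) (hΦ : ∀ p d, Bd (Φ p d)) (σ σ' : Measure Cir) [IsFiniteMeasure σ] [IsFiniteMeasure σ']
    (h : ∀ p q : ℤ × ℤ, Tendsto (fun j : ℕ => E2 W j (fun d => ∫ x, Φ p d x * (starRingEnd ℂ) (Φ q d x) ∂μ))
      atTop (𝓝 ((∫ t, fourier (p.1 - q.1) t ∂σ) * ∫ t, fourier (p.2 - q.2) t ∂σ')))
    (s : Finset (ℤ × ℤ)) (a : ℤ × ℤ → ℂ) (ε : ℝ) (hε : 0 < ε) :
    ∀ᶠ j : ℕ in atTop, R2 W j (fun d => ∫ x, ‖∑ p ∈ s, a p * Φ p d x‖ ^ 2 ∂μ)
      ≤ (∫ z, ‖∑ p ∈ s, a p * (fourier p.1 z.1 * fourier p.2 z.2)‖ ^ 2 ∂(σ.prod σ')) + ε := by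
  have hpt : ∀ d : ℤ, ((∫ x, ‖∑ p ∈ s, a p * Φ p d x‖ ^ 2 ∂μ : ℝ) : ℂ) =
      ∑ p ∈ s, ∑ q ∈ s, a p * (starRingEnd ℂ) (a q) *
        ∫ x, Φ p d x * (starRingEnd ℂ) (Φ q d x) ∂μ := fun d => by
    have hi : ∀ p q : ℤ × ℤ, Integrable (fun x => a p * (starRingEnd ℂ) (a q) *
        (Φ p d x * (starRingEnd ℂ) (Φ q d x))) μ := fun p q => by
      obtain ⟨h1, C, hC⟩ := hΦ p d
      obtain ⟨h2, D, hD⟩ := hΦ q d
      have h3 : Bd fun x => Φ p d x * (starRingEnd ℂ) (Φ q d x) := by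
        refine ⟨h1.mul (Complex.continuous_conj.measurable.comp h2), C * D, fun x => ?_⟩
        rw [norm_mul, RCLike.norm_conj]
        exact mul_le_mul (hC x) (hD x) (norm_nonneg _) ((norm_nonneg _).trans (hC x))
      exact (S0_int μ h3).const_mul _
    rw [← integral_complex_ofReal]
    have hx : ∀ x, ((‖∑ p ∈ s, a p * Φ p d x‖ ^ 2 : ℝ) : ℂ) =
        ∑ p ∈ s, ∑ q ∈ s, a p * (starRingEnd ℂ) (a q) *
          (Φ p d x * (starRingEnd ℂ) (Φ q d x)) := fun x => by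
      rw [← Complex.normSq_eq_norm_sq, ← Complex.mul_conj, map_sum, sum_mul_sum]
      refine sum_congr rfl fun p _ => sum_congr rfl fun q _ => ?_
      rw [map_mul]
      ring
    simp only [hx]
    rw [integral_finsetSum _ fun p _ => integrable_finsetSum _ fun q _ => hi p q]
    refine sum_congr rfl fun p _ => ?_
    rw [integral_finsetSum _ fun q _ => hi p q]
    refine sum_congr rfl fun q _ => ?_
    rw [integral_const_mul]
  have hE : ∀ j : ℕ, ((R2 W j (fun d => ∫ x, ‖∑ p ∈ s, a p * Φ p d x‖ ^ 2 ∂μ) : ℝ) : ℂ) =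
      ∑ p ∈ s, ∑ q ∈ s, a p * (starRingEnd ℂ) (a q) *
        E2 W j (fun d => ∫ x, Φ p d x * (starRingEnd ℂ) (Φ q d x) ∂μ) := fun j => by
    rw [← E2_ofReal]
    simp only [hpt]
    rw [E2_sum W j s fun p d => ∑ q ∈ s, a p * (starRingEnd ℂ) (a q) *
      ∫ x, Φ p d x * (starRingEnd ℂ) (Φ q d x) ∂μ]
    refine sum_congr rfl fun p _ => ?_
    rw [E2_sum W j s fun q d => a p * (starRingEnd ℂ) (a q) *
      ∫ x, Φ p d x * (starRingEnd ℂ) (Φ q d x) ∂μ]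
    refine sum_congr rfl fun q _ => ?_
    rw [E2_smul]
  have hlimC : Tendsto (fun j : ℕ =>
      ((R2 W j (fun d => ∫ x, ‖∑ p ∈ s, a p * Φ p d x‖ ^ 2 ∂μ) : ℝ) : ℂ)) atTop
      (𝓝 ((∫ z, ‖∑ p ∈ s, a p * (fourier p.1 z.1 * fourier p.2 z.2)‖ ^ 2 ∂(σ.prod σ') : ℝ) :
        ℂ)) := by
    rw [sq_prod]
    simp only [hE]
    exact tendsto_finsetSum _ fun p _ => tendsto_finsetSum _ fun q _ => (h p q).const_mul _
  have hlim : Tendsto (fun j : ℕ => R2 W j (fun d => ∫ x, ‖∑ p ∈ s, a p * Φ p d x‖ ^ 2 ∂μ)) atTop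
      (𝓝 (∫ z, ‖∑ p ∈ s, a p * (fourier p.1 z.1 * fourier p.2 z.2)‖ ^ 2 ∂(σ.prod σ'))) := by
    have := (Complex.continuous_re.tendsto _).comp hlimC
    simpa only [Function.comp_def, Complex.ofReal_re] using this
  exact (hlim.eventually (gt_mem_nhds (lt_add_of_pos_right _ hε))).mono fun j hj => hj.le

/-! ## module S2: Cauchy-Schwarz along an ultrafilter -/

theorem lim_cs {X : Type} [MeasurableSpace X] (μ : Measure X) [IsProbabilityMeasure μ] (W : ℕ → ℝ) (hW : GW W)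
    (w : ℤ → ℝ) (hw : ∀ d, 0 ≤ w d ∧ w d ≤ 1) (U : Ultrafilter ℕ) (hU : (U : Filter ℕ) ≤ atTop)
    (K H : ℤ → X → ℂ) (hK : ∀ d, Bd (K d)) (hH : ∀ d, Bd (H d)) (R : ℝ) (hR : ∀ d, ∫ x, ‖H d x‖ ^ 2 ∂μ ≤ R)
    (Q : ℝ) (hQ : ∀ ε : ℝ, 0 < ε → ∀ᶠ j : ℕ in atTop, R2 W j (fun d => ∫ x, ‖K d x‖ ^ 2 ∂μ) ≤ Q + ε)
    (l : ℂ) (hl : Tendsto (fun j : ℕ => E2 W j (fun d => (w d : ℂ) * ∫ x, K d x * H d x ∂μ)) (U : Filter ℕ) (𝓝 l)) :
    ‖l‖ ^ 2 ≤ Q * R := by
  have hR0 : 0 ≤ R := le_trans (integral_nonneg fun x => by positivity) (hR 0)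
  have hmass : Tendsto (fun j : ℕ => R2 W j (fun _ => 1)) (U : Filter ℕ) (𝓝 1) :=
    (mass W hW).mono_left hU
  have hne : (U : Filter ℕ).NeBot := U.neBot
  have key : ∀ ε : ℝ, 0 < ε → ‖l‖ ^ 2 ≤ (Q + ε) * R := by
    intro ε hε
    have h1 : Tendsto (fun j : ℕ =>
        ‖E2 W j (fun d => (w d : ℂ) * ∫ x, K d x * H d x ∂μ)‖ ^ 2) (U : Filter ℕ)
        (𝓝 (‖l‖ ^ 2)) := (hl.norm).pow 2
    have h2 : Tendsto (fun j : ℕ => (Q + ε) * (R * R2 W j (fun _ => 1))) (U : Filter ℕ)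
        (𝓝 ((Q + ε) * (R * 1))) := (hmass.const_mul R).const_mul _
    rw [mul_one] at h2
    refine le_of_tendsto_of_tendsto h1 h2 ?_
    filter_upwards [hU (hQ ε hε)] with j hj
    have h3 := cs μ W hW.1 w hw K H hK hH j
    have h4 : R2 W j (fun d => ∫ x, ‖H d x‖ ^ 2 ∂μ) ≤ R * R2 W j (fun _ => 1) := by
      rw [← R2_smul]
      refine R2_mono W hW.1 j _ _ fun d => ?_
      rw [mul_one]
      exact hR d
    have h5 : 0 ≤ R2 W j (fun d => ∫ x, ‖K d x‖ ^ 2 ∂μ) :=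
      R2_nonneg W hW.1 j _ fun d => integral_nonneg fun x => by positivity
    have h6 : 0 ≤ R2 W j (fun d => ∫ x, ‖H d x‖ ^ 2 ∂μ) :=
      R2_nonneg W hW.1 j _ fun d => integral_nonneg fun x => by positivity
    exact h3.trans (mul_le_mul hj h4 h6 (h5.trans hj))
  have h1 : Tendsto (fun n : ℕ => (Q + 1 / ((n : ℝ) + 1)) * R) atTop (𝓝 ((Q + 0) * R)) :=
    (tendsto_one_div_add_atTop_nhds_zero_nat.const_add Q).mul_const R
  rw [add_zero] at h1
  exact ge_of_tendsto' h1 fun n => key _ (by positivity)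

/-- every family of bounded sequences `j ↦ E2 W j (..)` has limits along an ultrafilter below a given frequently
true event -/
theorem ultra (P : ℕ → Prop) (hP : ∃ᶠ j in atTop, P j) (e : ℤ → ℤ → ℕ → ℂ)
    (he : ∀ n m, ∃ C : ℝ, ∀ᶠ j in atTop, ‖e n m j‖ ≤ C) :
    ∃ (U : Ultrafilter ℕ) (L : ℤ → ℤ → ℂ), (U : Filter ℕ) ≤ atTop ∧ (∀ᶠ j in (U : Filter ℕ), P j) ∧
      ∀ n m, Tendsto (e n m) (U : Filter ℕ) (𝓝 (L n m)) := by
  have hne : (atTop ⊓ 𝓟 {j | P j} : Filter ℕ).NeBot := by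
    rw [inf_principal_neBot_iff]
    intro s hs
    obtain ⟨j, h1, h2⟩ := (hP.and_eventually hs).exists
    exact ⟨j, h2, h1⟩
  have hU : ((Ultrafilter.of (atTop ⊓ 𝓟 {j | P j})) : Filter ℕ) ≤ atTop ⊓ 𝓟 {j | P j} :=
    Ultrafilter.of_le _
  have hUt : ((Ultrafilter.of (atTop ⊓ 𝓟 {j | P j})) : Filter ℕ) ≤ atTop := hU.trans inf_le_left
  have hex : ∀ n m : ℤ, ∃ L : ℂ,
      Tendsto (e n m) ((Ultrafilter.of (atTop ⊓ 𝓟 {j | P j})) : Filter ℕ) (𝓝 L) := by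
    intro n m
    obtain ⟨C, hC⟩ := he n m
    have h1 : ((Ultrafilter.map (e n m) (Ultrafilter.of (atTop ⊓ 𝓟 {j | P j}))) : Filter ℂ) ≤
        𝓟 (Metric.closedBall 0 C) := by
      rw [Ultrafilter.coe_map, le_principal_iff, Filter.mem_map]
      filter_upwards [hUt hC] with j hj
      rw [Set.mem_preimage, mem_closedBall_zero_iff]
      exact hj
    obtain ⟨L, -, hL⟩ := (isCompact_closedBall (0 : ℂ) C).ultrafilter_le_nhds _ h1
    rw [Ultrafilter.coe_map] at hL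
    exact ⟨L, hL⟩
  choose L hL using hex
  refine ⟨_, L, hUt, ?_, hL⟩
  exact hU (mem_inf_of_right (mem_principal_self _))

/-! ## module S1: quadratic sums -/

/-! ## module S2: Cauchy-Schwarz along an ultrafilter -/

/-! ## module S3: the statement on three slots (text, section 4) -/

/-- linear combinations under `E2` -/
theorem S3_lin {X : Type} [MeasurableSpace X] (μ : Measure X) [IsProbabilityMeasure μ] (W : ℕ → ℝ) (w : ℤ → ℝ)
    (s : Finset (ℤ × ℤ)) (a : ℤ × ℤ → ℂ) (Φ : ℤ × ℤ → ℤ → X → ℂ) (H : ℤ → X → ℂ) (hΦ : ∀ p d, Bd (Φ p d))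
    (hH : ∀ d, Bd (H d)) (j : ℕ) :
    E2 W j (fun d => (w d : ℂ) * ∫ x, (∑ p ∈ s, a p * Φ p d x) * H d x ∂μ)
      = ∑ p ∈ s, a p * E2 W j (fun d => (w d : ℂ) * ∫ x, Φ p d x * H d x ∂μ) := by
  have h1 : (fun d => (w d : ℂ) * ∫ x, (∑ p ∈ s, a p * Φ p d x) * H d x ∂μ)
      = fun d => ∑ p ∈ s, a p * ((w d : ℂ) * ∫ x, Φ p d x * H d x ∂μ) := by
    funext d
    have h2 : ∫ x, (∑ p ∈ s, a p * Φ p d x) * H d x ∂μ = ∑ p ∈ s, a p * ∫ x, Φ p d x * H d x ∂μ := by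
      simp_rw [Finset.sum_mul]
      rw [integral_finsetSum]
      · refine Finset.sum_congr rfl fun p _ => ?_
        rw [← integral_const_mul]
        exact integral_congr_ae (Eventually.of_forall fun x => by simp only [mul_assoc])
      · intro p _
        exact S3_int μ _ (S3_bd_mul _ _ (S3_bd_mul _ _ (S3_bd_const _) (hΦ p d)) (hH d))
    rw [h2, Finset.mul_sum]
    refine Finset.sum_congr rfl fun p _ => by ring
  rw [h1, E2_sum W j s (fun p d => a p * ((w d : ℂ) * ∫ x, Φ p d x * H d x ∂μ))]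
  refine Finset.sum_congr rfl fun p _ => ?_
  rw [E2_smul]

/-- the eventual bound -/
theorem S3_bound {X : Type} [MeasurableSpace X] (μ : Measure X) [IsProbabilityMeasure μ] (W : ℕ → ℝ) (hW : GW W)
    (w : ℤ → ℝ) (hw : ∀ d, 0 ≤ w d ∧ w d ≤ 1) (Φ : ℤ → X → ℂ) (C : ℝ) (hC : ∀ d x, ‖Φ d x‖ ≤ C) :
    ∃ C' : ℝ, ∀ᶠ j : ℕ in atTop, ‖E2 W j (fun d => (w d : ℂ) * ∫ x, Φ d x ∂μ)‖ ≤ C' := by
  have hC0 : 0 ≤ |C| := abs_nonneg C
  refine ⟨|C| * 2, ?_⟩
  have hm := (mass W hW).eventually (eventually_le_nhds (show (1 : ℝ) < 2 by norm_num))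
  filter_upwards [hm] with j hj
  calc ‖E2 W j (fun d => (w d : ℂ) * ∫ x, Φ d x ∂μ)‖
      ≤ R2 W j (fun d => ‖(w d : ℂ) * ∫ x, Φ d x ∂μ‖) := E2_norm_le W hW.1 j _
    _ ≤ R2 W j (fun _ => |C| * 1) := by
        apply R2_mono W hW.1
        intro d
        rw [norm_mul, Complex.norm_real, Real.norm_eq_abs, abs_of_nonneg (hw d).1]
        have h2 : ‖∫ x, Φ d x ∂μ‖ ≤ |C| := by
          have := norm_integral_le_of_norm_le_const (μ := μ) (f := Φ d) (C := |C|)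
            (Eventually.of_forall fun x => (hC d x).trans (le_abs_self C))
          simpa using this
        calc w d * ‖∫ x, Φ d x ∂μ‖ ≤ 1 * |C| := mul_le_mul (hw d).2 h2 (norm_nonneg _) zero_le_one
          _ = |C| * 1 := by ring
    _ = |C| * R2 W j (fun _ => 1) := R2_smul W j _ _
    _ ≤ |C| * 2 := mul_le_mul_of_nonneg_left hj hC0

theorem S3_sh1 {X : Type} [MeasurableSpace X] (μ : Measure X) (τ : ℤ → X → X)
    (hτ : Sys μ τ) (f h : X → ℂ) (hf : Bd f) (hh : Bd h) (b : ℤ → ℤ → X → ℂ) (hb : ∀ m d, Measurable (b m d))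
    (hbs : ∀ m d l x, b m d (τ l x) = b (m + l) d x) (mA mC n m d : ℤ) :
    ∫ x, (f (τ (n + mA * d) x) * b m d x) * h (τ (mC * d) x) ∂μ
      = ∫ x, (f (τ ((n - m) + mA * d) x) * h (τ (-m + mC * d) x)) * b 0 d x ∂μ := by
  have hm : Measurable (fun x => (f (τ (n + mA * d) x) * b m d x) * h (τ (mC * d) x)) :=
    ((hf.1.comp (hτ.mp _).measurable).mul (hb m d)).mul (hh.1.comp (hτ.mp _).measurable)
  have h0 := S3_cv μ τ hτ (-m) _ hm
  refine h0.symm.trans (integral_congr_ae (Eventually.of_forall fun x => ?_))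
  have e1 : τ (n + mA * d) (τ (-m) x) = τ ((n - m) + mA * d) x := by
    rw [← hτ.add]; congr 1; ring
  have e2 : b m d (τ (-m) x) = b 0 d x := by
    rw [hbs]; congr 1; ring
  have e3 : τ (mC * d) (τ (-m) x) = τ (-m + mC * d) x := by
    rw [← hτ.add]; congr 1; ring
  show (f (τ (n + mA * d) (τ (-m) x)) * b m d (τ (-m) x)) * h (τ (mC * d) (τ (-m) x)) = _
  rw [e1, e2, e3]
  ring

theorem S3_sh2 {X : Type} [MeasurableSpace X] (μ : Measure X) (τ : ℤ → X → X)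
    (hτ : Sys μ τ) (f h : X → ℂ) (hf : Bd f) (hh : Bd h) (b : ℤ → ℤ → X → ℂ) (hb : ∀ m d, Measurable (b m d))
    (hbs : ∀ m d l x, b m d (τ l x) = b (m + l) d x) (mA mC n m d : ℤ) :
    ∫ x, (f (τ (n + mA * d) x) * b m d x) * h (τ (mC * d) x) ∂μ
      = ∫ x, (b (m - n) d x * h (τ (-n + mC * d) x)) * f (τ (mA * d) x) ∂μ := by
  have hm : Measurable (fun x => (f (τ (n + mA * d) x) * b m d x) * h (τ (mC * d) x)) :=
    ((hf.1.comp (hτ.mp _).measurable).mul (hb m d)).mul (hh.1.comp (hτ.mp _).measurable)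
  have h0 := S3_cv μ τ hτ (-n) _ hm
  refine h0.symm.trans (integral_congr_ae (Eventually.of_forall fun x => ?_))
  have e1 : τ (n + mA * d) (τ (-n) x) = τ (mA * d) x := by
    rw [← hτ.add]; congr 1; ring
  have e2 : b m d (τ (-n) x) = b (m - n) d x := by
    rw [hbs]; congr 1
  have e3 : τ (mC * d) (τ (-n) x) = τ (-n + mC * d) x := by
    rw [← hτ.add]; congr 1; ring
  show (f (τ (n + mA * d) (τ (-n) x)) * b m d (τ (-n) x)) * h (τ (mC * d) (τ (-n) x)) = _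
  rw [e1, e2, e3]
  ring

theorem three {X : Type} [MeasurableSpace X] (μ : Measure X) [IsProbabilityMeasure μ] (τ : ℤ → X → X)
    (hτ : Sys μ τ) (W : ℕ → ℝ) (hW : GW W) (w : ℤ → ℝ) (hw : ∀ d, 0 ≤ w d ∧ w d ≤ 1)
    (f h : X → ℂ) (hf : Bd f) (hh : Bd h) (b : ℤ → ℤ → X → ℂ) (hb : ∀ m d, Measurable (b m d))
    (B : ℝ) (hfB : ∀ x, ‖f x‖ ≤ B) (hbB : ∀ m d x, ‖b m d x‖ ≤ B)
    (hbs : ∀ m d l x, b m d (τ l x) = b (m + l) d x) (mA mC : ℤ)
    (σ₁ σ₂ σ₃ : Measure Cir) [IsFiniteMeasure σ₁] [IsFiniteMeasure σ₂] [IsFiniteMeasure σ₃]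
    (G₁ G₂ : Set Cir) (hG₁ : MeasurableSet G₁) (hG₂ : MeasurableSet G₂)
    (hs₁ : σ₁.restrict G₁ ⟂ₘ (volume : Measure Cir)) (ha₁ : ∀ t ∈ G₁, σ₁ {t} = 0)
    (hs₂ : σ₂.restrict G₂ ⟂ₘ (volume : Measure Cir)) (ha₂ : ∀ t ∈ G₂, σ₂ {t} = 0)
    (D₁ D : ℝ) (hD₁ : 0 ≤ D₁) (hD : 0 ≤ D)
    (hAB : ∀ (s : Finset (ℤ × ℤ)) (a : ℤ × ℤ → ℂ) (ε : ℝ), 0 < ε → ∀ᶠ j : ℕ in atTop,
      R2 W j (fun d => ∫ x, ‖∑ p ∈ s, a p * (f (τ (p.1 + mA * d) x) * b p.2 d x)‖ ^ 2 ∂μ)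
        ≤ D₁ * (∫ z, ‖∑ p ∈ s, a p * (fourier p.1 z.1 * fourier p.2 z.2)‖ ^ 2 ∂(σ₁.prod σ₂)) + ε)
    (hAC : ∀ (s : Finset (ℤ × ℤ)) (a : ℤ × ℤ → ℂ) (ε : ℝ), 0 < ε → ∀ᶠ j : ℕ in atTop,
      R2 W j (fun d => ∫ x, ‖∑ p ∈ s, a p * (f (τ (p.1 + mA * d) x) * h (τ (p.2 + mC * d) x))‖ ^ 2 ∂μ)
        ≤ D * (∫ z, ‖∑ p ∈ s, a p * (fourier p.1 z.1 * fourier p.2 z.2)‖ ^ 2 ∂(σ₁.prod σ₃)) + ε)
    (hBC : ∀ (s : Finset (ℤ × ℤ)) (a : ℤ × ℤ → ℂ) (ε : ℝ), 0 < ε → ∀ᶠ j : ℕ in atTop,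
      R2 W j (fun d => ∫ x, ‖∑ p ∈ s, a p * (b p.1 d x * h (τ (p.2 + mC * d) x))‖ ^ 2 ∂μ)
        ≤ D * (∫ z, ‖∑ p ∈ s, a p * (fourier p.1 z.1 * fourier p.2 z.2)‖ ^ 2 ∂(σ₂.prod σ₃)) + ε)
    (ε : ℝ) (hε : 0 < ε) :
    ∀ᶠ j : ℕ in atTop, ‖E2 W j (fun d => (w d : ℂ) * ∫ x, f (τ (mA * d) x) * b 0 d x * h (τ (mC * d) x) ∂μ)‖ ^ 2
      ≤ D₁ * (∫ x, ‖h x‖ ^ 2 ∂μ) * (σ₁ G₁ᶜ).toReal * (σ₂ G₂ᶜ).toReal + ε := by
  by_contra hcon
  rw [Filter.not_eventually] at hcon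
  have hbd : ∀ m d, Bd (b m d) := fun m d => ⟨hb m d, B, hbB m d⟩
  have hft : ∀ n : ℤ, Bd (fun x => f (τ n x)) := fun n => S3_bd_comp μ τ hτ n f hf
  have hht : ∀ n : ℤ, Bd (fun x => h (τ n x)) := fun n => S3_bd_comp μ τ hτ n h hh
  obtain ⟨Ch, hCh⟩ := hh.2
  -- the family
  set e : ℤ → ℤ → ℕ → ℂ := fun n m j =>
    E2 W j (fun d => (w d : ℂ) * ∫ x, (f (τ (n + mA * d) x) * b m d x) * h (τ (mC * d) x) ∂μ) with he_def
  have he : ∀ n m, ∃ C : ℝ, ∀ᶠ j in atTop, ‖e n m j‖ ≤ C := by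
    intro n m
    refine S3_bound μ W hW w hw (fun d x => (f (τ (n + mA * d) x) * b m d x) * h (τ (mC * d) x)) (B * B * |Ch|) ?_
    intro d x
    have hB0 : 0 ≤ B := (norm_nonneg _).trans (hfB x)
    rw [norm_mul, norm_mul]
    exact mul_le_mul (mul_le_mul (hfB _) (hbB _ _ _) (norm_nonneg _) hB0) ((hCh _).trans (le_abs_self _))
      (norm_nonneg _) (mul_nonneg hB0 hB0)
  obtain ⟨U, L, hU, hUP, hL⟩ := ultra _ hcon e he
  -- values after the change of variables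
  have e2 : ∀ n m j, e n m j
      = E2 W j (fun d => (w d : ℂ) * ∫ x, (f (τ ((n - m) + mA * d) x) * h (τ (-m + mC * d) x)) * b 0 d x ∂μ) := by
    intro n m j
    have h1 : (fun d : ℤ => (w d : ℂ) * ∫ x, (f (τ (n + mA * d) x) * b m d x) * h (τ (mC * d) x) ∂μ)
        = fun d : ℤ => (w d : ℂ) * ∫ x, (f (τ ((n - m) + mA * d) x) * h (τ (-m + mC * d) x)) * b 0 d x ∂μ := by
      funext d
      rw [S3_sh1 μ τ hτ f h hf hh b hb hbs mA mC n m d]
    exact congrArg (E2 W j) h1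
  have e3 : ∀ n m j, e n m j
      = E2 W j (fun d => (w d : ℂ) * ∫ x, (b (m - n) d x * h (τ (-n + mC * d) x)) * f (τ (mA * d) x) ∂μ) := by
    intro n m j
    have h1 : (fun d : ℤ => (w d : ℂ) * ∫ x, (f (τ (n + mA * d) x) * b m d x) * h (τ (mC * d) x) ∂μ)
        = fun d : ℤ => (w d : ℂ) * ∫ x, (b (m - n) d x * h (τ (-n + mC * d) x)) * f (τ (mA * d) x) ∂μ := by
      funext d
      rw [S3_sh2 μ τ hτ f h hf hh b hb hbs mA mC n m d]
    exact congrArg (E2 W j) h1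
  have hsumU : ∀ (s : Finset (ℤ × ℤ)) (a : ℤ × ℤ → ℂ),
      Tendsto (fun j => ∑ p ∈ s, a p * e p.1 p.2 j) (U : Filter ℕ) (𝓝 (∑ p ∈ s, a p * L p.1 p.2)) := by
    intro s a
    exact tendsto_finsetSum _ fun p _ => (hL p.1 p.2).const_mul (a p)
  have hRh : ∀ n : ℤ, ∫ x, ‖h (τ n x)‖ ^ 2 ∂μ = ∫ x, ‖h x‖ ^ 2 ∂μ := fun n =>
    S3_cvr μ τ hτ n (fun x => ‖h x‖ ^ 2) (hh.1.norm.pow_const 2)
  have hRb : ∀ (g : X → ℂ), (∀ x, ‖g x‖ ≤ B) → ∫ x, ‖g x‖ ^ 2 ∂μ ≤ B ^ 2 := by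
    intro g hg
    have h1 : ∀ x, ‖g x‖ ^ 2 ≤ B ^ 2 := fun x => pow_le_pow_left₀ (norm_nonneg _) (hg x) 2
    calc ∫ x, ‖g x‖ ^ 2 ∂μ ≤ ∫ _, B ^ 2 ∂μ := by
          apply integral_mono_of_nonneg (Eventually.of_forall fun x => by positivity) (integrable_const _)
            (Eventually.of_forall h1)
      _ = B ^ 2 := by simp
  have hB20 : 0 ≤ B ^ 2 := sq_nonneg B
  have hR0 : 0 ≤ ∫ x, ‖h x‖ ^ 2 ∂μ := integral_nonneg fun x => by positivity
  have key := corr σ₁ σ₂ σ₃ G₁ G₂ hG₁ hG₂ hs₁ ha₁ hs₂ ha₂ L (D₁ * ∫ x, ‖h x‖ ^ 2 ∂μ) (D * B ^ 2) (D * B ^ 2)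
    (mul_nonneg hD₁ hR0) (mul_nonneg hD hB20) (mul_nonneg hD hB20) ?_ ?_ ?_
  · -- conclusion
    have h00 := (hL 0 0).norm.pow 2
    have hge : D₁ * (∫ x, ‖h x‖ ^ 2 ∂μ) * (σ₁ G₁ᶜ).toReal * (σ₂ G₂ᶜ).toReal + ε ≤ ‖L 0 0‖ ^ 2 := by
      refine ge_of_tendsto h00 ?_
      filter_upwards [hUP] with j hj
      have := lt_of_not_ge hj
      have h5 : e 0 0 j = E2 W j (fun d => (w d : ℂ) * ∫ x, f (τ (mA * d) x) * b 0 d x * h (τ (mC * d) x) ∂μ) := by
        rw [he_def]; simp only [zero_add]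
      rw [h5]
      exact this.le
    have := key
    linarith
  · -- (12)
    intro s a
    have h1 := lim_cs μ W hW w hw U hU (fun d x => ∑ p ∈ s, a p * (f (τ (p.1 + mA * d) x) * b p.2 d x))
      (fun d x => h (τ (mC * d) x))
      (fun d => S3_bd_sum s _ fun p _ => S3_bd_mul _ _ (S3_bd_const _) (S3_bd_mul _ _ (hft _) (hbd _ _)))
      (fun d => hht _) (∫ x, ‖h x‖ ^ 2 ∂μ) (fun d => (hRh _).le)
      (D₁ * (∫ z, ‖∑ p ∈ s, a p * (fourier p.1 z.1 * fourier p.2 z.2)‖ ^ 2 ∂(σ₁.prod σ₂)))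
      (fun ε hε => hAB s a ε hε) (∑ p ∈ s, a p * L p.1 p.2) ?_
    · calc _ ≤ _ := h1
        _ = _ := by ring
    · refine (hsumU s a).congr fun j => ?_
      rw [S3_lin μ W w s a (fun p d x => f (τ (p.1 + mA * d) x) * b p.2 d x) (fun d x => h (τ (mC * d) x))
        (fun p d => S3_bd_mul _ _ (hft _) (hbd _ _)) (fun d => hht _) j]
  · -- (13)
    intro s a
    set φ : ℤ × ℤ ↪ ℤ × ℤ := ⟨fun p => (p.1 - p.2, -p.2), fun p q hpq => by
      simp only [Prod.mk.injEq] at hpq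
      ext
      · linarith [hpq.1, hpq.2]
      · linarith [hpq.2]⟩ with hφ
    set a' : ℤ × ℤ → ℂ := fun q => a (q.1 - q.2, -q.2) with ha'
    have haφ : ∀ p, a' (φ p) = a p := by
      intro p
      simp only [ha', hφ, Function.Embedding.coeFn_mk]
      congr 1
      ext
      · simp
      · simp
    have hsm : ∀ (Ψ : ℤ × ℤ → ℂ), ∑ q ∈ s.map φ, a' q * Ψ q = ∑ p ∈ s, a p * Ψ (p.1 - p.2, -p.2) := by
      intro Ψ
      rw [Finset.sum_map]
      refine Finset.sum_congr rfl fun p _ => ?_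
      rw [haφ]
      rfl
    have h1 := lim_cs μ W hW w hw U hU
      (fun d x => ∑ p ∈ s, a p * (f (τ ((p.1 - p.2) + mA * d) x) * h (τ (-p.2 + mC * d) x)))
      (fun d x => b 0 d x)
      (fun d => S3_bd_sum s _ fun p _ => S3_bd_mul _ _ (S3_bd_const _) (S3_bd_mul _ _ (hft _) (hht _)))
      (fun d => hbd _ _) (B ^ 2) (fun d => hRb _ (hbB 0 d))
      (D * (∫ z, ‖∑ p ∈ s, a p * (fourier (p.1 - p.2) z.1 * fourier (-p.2) z.2)‖ ^ 2 ∂(σ₁.prod σ₃))) ?_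
      (∑ p ∈ s, a p * L p.1 p.2) ?_
    · calc _ ≤ _ := h1
        _ = _ := by ring
    · intro ε hε
      have h2 := hAC (s.map φ) a' ε hε
      filter_upwards [h2] with j hj
      have e1 : (fun d => ∫ x, ‖∑ p ∈ s.map φ, a' p * (f (τ (p.1 + mA * d) x) * h (τ (p.2 + mC * d) x))‖ ^ 2 ∂μ)
          = fun d => ∫ x, ‖∑ p ∈ s, a p * (f (τ ((p.1 - p.2) + mA * d) x) * h (τ (-p.2 + mC * d) x))‖ ^ 2 ∂μ := by
        funext d
        refine integral_congr_ae (Eventually.of_forall fun x => ?_)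
        simp only
        rw [hsm (fun p => f (τ (p.1 + mA * d) x) * h (τ (p.2 + mC * d) x))]
      have e2 : ∫ z, ‖∑ p ∈ s.map φ, a' p * (fourier p.1 z.1 * fourier p.2 z.2)‖ ^ 2 ∂(σ₁.prod σ₃)
          = ∫ z, ‖∑ p ∈ s, a p * (fourier (p.1 - p.2) z.1 * fourier (-p.2) z.2)‖ ^ 2 ∂(σ₁.prod σ₃) := by
        refine integral_congr_ae (Eventually.of_forall fun z => ?_)
        simp only
        rw [hsm (fun p => fourier p.1 z.1 * fourier p.2 z.2)]
      rw [e1, e2] at hj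
      exact hj
    · refine (hsumU s a).congr fun j => ?_
      rw [S3_lin μ W w s a (fun p d x => f (τ ((p.1 - p.2) + mA * d) x) * h (τ (-p.2 + mC * d) x))
        (fun d x => b 0 d x) (fun p d => S3_bd_mul _ _ (hft _) (hht _)) (fun d => hbd _ _) j]
      refine Finset.sum_congr rfl fun p _ => ?_
      rw [e2]
  · -- (23)
    intro s a
    set φ : ℤ × ℤ ↪ ℤ × ℤ := ⟨fun p => (p.2 - p.1, -p.1), fun p q hpq => by
      simp only [Prod.mk.injEq] at hpq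
      ext
      · linarith [hpq.2]
      · linarith [hpq.1, hpq.2]⟩ with hφ
    set a' : ℤ × ℤ → ℂ := fun q => a (-q.2, q.1 - q.2) with ha'
    have haφ : ∀ p, a' (φ p) = a p := by
      intro p
      simp only [ha', hφ, Function.Embedding.coeFn_mk]
      congr 1
      ext
      · simp
      · simp
    have hsm : ∀ (Ψ : ℤ × ℤ → ℂ), ∑ q ∈ s.map φ, a' q * Ψ q = ∑ p ∈ s, a p * Ψ (p.2 - p.1, -p.1) := by
      intro Ψ
      rw [Finset.sum_map]
      refine Finset.sum_congr rfl fun p _ => ?_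
      rw [haφ]
      rfl
    have h1 := lim_cs μ W hW w hw U hU
      (fun d x => ∑ p ∈ s, a p * (b (p.2 - p.1) d x * h (τ (-p.1 + mC * d) x)))
      (fun d x => f (τ (mA * d) x))
      (fun d => S3_bd_sum s _ fun p _ => S3_bd_mul _ _ (S3_bd_const _) (S3_bd_mul _ _ (hbd _ _) (hht _)))
      (fun d => hft _) (B ^ 2) (fun d => hRb _ fun x => hfB _)
      (D * (∫ z, ‖∑ p ∈ s, a p * (fourier (p.2 - p.1) z.1 * fourier (-p.1) z.2)‖ ^ 2 ∂(σ₂.prod σ₃))) ?_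
      (∑ p ∈ s, a p * L p.1 p.2) ?_
    · calc _ ≤ _ := h1
        _ = _ := by ring
    · intro ε hε
      have h2 := hBC (s.map φ) a' ε hε
      filter_upwards [h2] with j hj
      have e1 : (fun d => ∫ x, ‖∑ p ∈ s.map φ, a' p * (b p.1 d x * h (τ (p.2 + mC * d) x))‖ ^ 2 ∂μ)
          = fun d => ∫ x, ‖∑ p ∈ s, a p * (b (p.2 - p.1) d x * h (τ (-p.1 + mC * d) x))‖ ^ 2 ∂μ := by
        funext d
        refine integral_congr_ae (Eventually.of_forall fun x => ?_)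
        simp only
        rw [hsm (fun p => b p.1 d x * h (τ (p.2 + mC * d) x))]
      have e2 : ∫ z, ‖∑ p ∈ s.map φ, a' p * (fourier p.1 z.1 * fourier p.2 z.2)‖ ^ 2 ∂(σ₂.prod σ₃)
          = ∫ z, ‖∑ p ∈ s, a p * (fourier (p.2 - p.1) z.1 * fourier (-p.1) z.2)‖ ^ 2 ∂(σ₂.prod σ₃) := by
        refine integral_congr_ae (Eventually.of_forall fun z => ?_)
        simp only
        rw [hsm (fun p => fourier p.1 z.1 * fourier p.2 z.2)]
      rw [e1, e2] at hj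
      exact hj
    · refine (hsumU s a).congr fun j => ?_
      rw [S3_lin μ W w s a (fun p d x => b (p.2 - p.1) d x * h (τ (-p.1 + mC * d) x))
        (fun d x => f (τ (mA * d) x)) (fun p d => S3_bd_mul _ _ (hbd _ _) (hht _)) (fun d => hft _) j]
      refine Finset.sum_congr rfl fun p _ => ?_
      rw [e3]

end Pool.Agent.Sgs
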